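import Mathlib

/-!
# The generic element: avoidance and van der Waerden
-/

noncomputable section

namespace Pool.Agent.CGQ

/-- **ELA.** An element on which finitely many non zero homomorphisms to `ℝ` do not vanish. -/
theorem exists_forall_ne_zero {G ι : Type} [CommGroup G] [Finite ι] (l : ι → G → ℝ)
    (hl : ∀ i a b, l i (a * b) = l i a + l i b) (h : ∀ i, ∃ g, l i g ≠ 0) :
    ∃ g, ∀ i, l i g ≠ 0 := by
  classical
  have := Fintype.ofFinite ι
  have hpow : ∀ i (g : G) (n : ℕ), l i (g ^ n) = n * l i g := by
    intro i g n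
    induction n with
    | zero =>
      have h1 := hl i 1 1
      rw [one_mul] at h1
      simp
      linarith
    | succ n ih =>
      rw [pow_succ, hl, ih]
      push_cast
      ring
  suffices H : ∀ s : Finset ι, ∃ g, ∀ i ∈ s, l i g ≠ 0 by
    obtain ⟨g, hg⟩ := H Finset.univ
    exact ⟨g, fun i => hg i (Finset.mem_univ i)⟩
  intro s
  induction s using Finset.induction_on with
  | empty => exact ⟨1, by simp⟩
  | insert j s hj ih =>
    obtain ⟨g, hg⟩ := ih
    obtain ⟨g', hg'⟩ := h j
    have hfin : ∀ i ∈ insert j s, {n : ℕ | l i (g ^ n * g') = 0}.Finite := by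
      intro i hi
      by_cases h0 : l i g = 0
      · rcases Finset.mem_insert.1 hi with rfl | hi
        · refine Set.finite_empty.subset ?_
          intro n hn
          apply hg'
          have hn : l i (g ^ n * g') = 0 := hn
          rw [hl, hpow, h0, mul_zero, zero_add] at hn
          exact hn
        · exact absurd h0 (hg i hi)
      · refine Set.Subsingleton.finite ?_
        intro n hn m hm
        have hn : l i (g ^ n * g') = 0 := hn
        have hm : l i (g ^ m * g') = 0 := hm
        rw [hl, hpow] at hn hm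
        have : (n : ℝ) * l i g = m * l i g := by linarith
        exact_mod_cast mul_right_cancel₀ h0 this
    have hU : (⋃ i ∈ insert j s, {n : ℕ | l i (g ^ n * g') = 0}).Finite :=
      Set.Finite.biUnion (Finset.finite_toSet _) fun i hi => hfin i hi
    obtain ⟨n, hn⟩ := hU.infinite_compl.nonempty
    refine ⟨g ^ n * g', fun i hi h0 => hn ?_⟩
    simp only [Set.mem_iUnion]
    exact ⟨i, hi, h0⟩

/-- **ELB.** Van der Waerden for three terms. -/
theorem exists_ap3 {C : Type} [Finite C] (col : ℕ → C) (N₀ : ℕ) :
    ∃ N s : ℕ, N₀ ≤ N ∧ 0 < s ∧ col N = col (N + s) ∧ col N = col (N + 2 * s) := by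
  obtain ⟨a, ha, b, c, h⟩ := Combinatorics.exists_mono_homothetic_copy ({0, 1, 2} : Finset ℕ)
    (fun n => col (N₀ + n))
  have h0 := h 0 (by simp)
  have h1 := h 1 (by simp)
  have h2 := h 2 (by simp)
  refine ⟨N₀ + b, a, by omega, ha, ?_, ?_⟩
  · have e : N₀ + b + a = N₀ + (a • 1 + b) := by simp; ring
    rw [e, h1, ← h0]
    simp
  · have e : N₀ + b + 2 * a = N₀ + (a • 2 + b) := by simp; ring
    rw [e, h2, ← h0]
    simp

end Pool.Agent.CGQ
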