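import Mathlib

/-!
# The generic element: a linear form which does not vanish on the units
-/

noncomputable section

namespace Pool.Agent.CGQ

open NumberField

/-- **ELG.** A linear form in the logarithms which is not a multiple of the trivial one (whose
coefficients are the `mult w`) does not vanish on all units.
PROOF. Let `w₀ = NumberField.Units.dirichletUnitTheorem.w₀`. Suppose that the form vanishes on all units. By
`sum_mult_mul_log` (`∑ w, mult w * log (w u) = 0`) it can be changed by `(c w₀ / mult w₀)` times the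
trivial one, so it has no `w₀` term: `f x = ∑ w ≠ w₀, (c w / mult w - c w₀ / mult w₀) * x w` is a linear form
on `logSpace K`, and it vanishes on `logEmbedding K u` (its component at `w` is `mult w * log (w u)`) for all
`u`. `NumberField.Units.dirichletUnitTheorem.unitLattice_span_eq_top`: it vanishes, so
`c w / mult w = c w₀ / mult w₀` for all `w`, contradiction. -/
theorem exists_unit_sum_ne {K : Type} [Field K] [NumberField K] (c : InfinitePlace K → ℝ)
    (hc : ∃ w w' : InfinitePlace K, c w * w'.mult ≠ c w' * w.mult) :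
    ∃ u : (𝓞 K)ˣ, ∑ w : InfinitePlace K, c w * Real.log (w ((u : 𝓞 K) : K)) ≠ 0 := by
  classical
  by_contra hcon
  push Not at hcon
  obtain ⟨w₀, hw₀⟩ : ∃ w₀ : InfinitePlace K, w₀ = Units.dirichletUnitTheorem.w₀ := ⟨_, rfl⟩
  have hm : ∀ w : InfinitePlace K, (w.mult : ℝ) ≠ 0 := fun w => InfinitePlace.mult_coe_ne_zero
  obtain ⟨r, hr⟩ : ∃ r : ℝ, r = c w₀ / w₀.mult := ⟨_, rfl⟩
  have h1 : ∀ u : (𝓞 K)ˣ, ∑ w : InfinitePlace K,
      (c w / w.mult - r) * (w.mult * Real.log (w ((u : 𝓞 K) : K))) = 0 := by
    intro u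
    have h2 := Units.sum_mult_mul_log u
    have h3 : ∀ w : InfinitePlace K,
        (c w / w.mult - r) * (w.mult * Real.log (w ((u : 𝓞 K) : K)))
        = c w * Real.log (w ((u : 𝓞 K) : K)) - r * (w.mult * Real.log (w ((u : 𝓞 K) : K))) := by
      intro w
      have := hm w
      field_simp
    rw [Finset.sum_congr rfl fun w _ => h3 w, Finset.sum_sub_distrib, ← Finset.mul_sum, hcon u, h2,
      mul_zero, sub_zero]
  let f : Units.dirichletUnitTheorem.logSpace K →ₗ[ℝ] ℝ :=
    ∑ w, (c w.1 / w.1.mult - r) • LinearMap.proj w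
  have hf : ∀ x, f x = ∑ w, (c w.1 / w.1.mult - r) * x w := by
    intro x
    simp only [f, LinearMap.sum_apply, LinearMap.smul_apply, LinearMap.proj_apply, smul_eq_mul]
  have hf0 : f = 0 := by
    rw [← LinearMap.ker_eq_top, eq_top_iff, ← Units.dirichletUnitTheorem.unitLattice_span_eq_top,
      Submodule.span_le]
    rintro _ ⟨u, -, rfl⟩
    change f (Units.logEmbedding K u) = 0
    rw [hf]
    have h4 := h1 u.toMul
    rw [Fintype.sum_eq_add_sum_subtype_ne _ w₀, ← hr, sub_self, zero_mul, zero_add] at h4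
    subst hw₀
    exact h4
  have h5 : ∀ w : InfinitePlace K, c w / w.mult = r := by
    intro w
    by_cases hw : w = w₀
    · rw [hw, hr]
    · have h6 := hf (Pi.single ⟨w, by rw [← hw₀]; exact hw⟩ 1)
      rw [hf0, LinearMap.zero_apply, Finset.sum_eq_single ⟨w, by rw [← hw₀]; exact hw⟩,
        Pi.single_eq_same, mul_one] at h6
      · exact sub_eq_zero.1 h6.symm
      · intro w' _ hw'
        rw [Pi.single_eq_of_ne hw', mul_zero]
      · intro h; exact absurd (Finset.mem_univ _) h
  obtain ⟨w, w', hww⟩ := hc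
  apply hww
  have h7 := h5 w
  have h8 := h5 w'
  rw [div_eq_iff (hm w)] at h7
  rw [div_eq_iff (hm w')] at h8
  rw [h7, h8]
  ring

end Pool.Agent.CGQ
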