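import Mathlib

/-!
# A linear form
-/

noncomputable section

set_option linter.unusedSectionVars false

namespace Pool.Agent.CGQ

/-- **KF**. A linear form vanishing at `u` and not at `e`.

PROOF. Let `U' = U ⧸ Subgroup.zpowers u`, finitely generated commutative. The image of `e` has
infinite order by `h`, so its image in `Additive U' ⧸ torsion`, a free `ℤ`-module of finite rank
(`Submodule.torsion`, `Module.Free` of finite torsion free), is not zero, so some coordinate
(`Module.Free.chooseBasis`) of it is not zero. -/
theorem exists_form {U : Type} [CommGroup U] [Group.FG U] (u e : U)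
    (h : ∀ a b : ℤ, e ^ a = u ^ b → a = 0) :
    ∃ l : U →* Multiplicative ℤ, l u = 1 ∧ l e ≠ 1 := by
  have : AddGroup.FG (Additive U) := GroupFG.iff_add_fg.1 inferInstance
  have : Module.Finite ℤ (Additive U) := Module.Finite.iff_addGroup_fg.2 inferInstance
  let N : Submodule ℤ (Additive U) := Submodule.span ℤ {Additive.ofMul u}
  let Q := Additive U ⧸ N
  let T := Submodule.torsion ℤ Q
  let π : Additive U →ₗ[ℤ] (Q ⧸ T) := T.mkQ.comp N.mkQ
  have h1 : π (Additive.ofMul u) = 0 := by
    have : N.mkQ (Additive.ofMul u) = 0 := by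
      rw [Submodule.mkQ_apply, Submodule.Quotient.mk_eq_zero]
      exact Submodule.subset_span rfl
    simp only [π, LinearMap.comp_apply, this, map_zero]
  have h2 : π (Additive.ofMul e) ≠ 0 := by
    intro h0
    simp only [π, LinearMap.comp_apply] at h0
    rw [Submodule.mkQ_apply T, Submodule.Quotient.mk_eq_zero, Submodule.mem_torsion_iff] at h0
    obtain ⟨a, ha⟩ := h0
    have ha' : N.mkQ ((a : ℤ) • Additive.ofMul e) = 0 := by
      rw [map_smul]; exact ha
    rw [Submodule.mkQ_apply, Submodule.Quotient.mk_eq_zero] at ha'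
    obtain ⟨b, hb⟩ := Submodule.mem_span_singleton.1 ha'
    have h3 : e ^ (a : ℤ) = u ^ b := by
      have : Additive.ofMul (u ^ b) = Additive.ofMul (e ^ (a : ℤ)) := by
        rw [ofMul_zpow, ofMul_zpow]; exact hb
      exact (Additive.ofMul.injective this).symm
    exact nonZeroDivisors.coe_ne_zero a (h _ _ h3)
  let bs := Module.Free.chooseBasis ℤ (Q ⧸ T)
  obtain ⟨i, hi⟩ : ∃ i, bs.repr (π (Additive.ofMul e)) i ≠ 0 := by
    by_contra hcon
    push Not at hcon
    apply h2
    apply bs.repr.injective
    ext i
    rw [hcon i, map_zero]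
    rfl
  let φ : Additive U →ₗ[ℤ] ℤ := (bs.coord i).comp π
  refine ⟨{ toFun := fun x => Multiplicative.ofAdd (φ (Additive.ofMul x)),
            map_one' := by rw [ofMul_one, map_zero]; rfl,
            map_mul' := fun x y => by rw [ofMul_mul, map_add]; rfl }, ?_, ?_⟩
  · change Multiplicative.ofAdd (φ (Additive.ofMul u)) = 1
    have : φ (Additive.ofMul u) = 0 := by
      simp only [φ, LinearMap.comp_apply, h1, map_zero]
    rw [this]; rfl
  · change Multiplicative.ofAdd (φ (Additive.ofMul e)) ≠ 1
    intro h3
    apply hi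
    have : φ (Additive.ofMul e) = 0 := h3
    exact this

end Pool.Agent.CGQ
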