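import Pool.Agent.CGQ.GalDesc

/-!
# Moving roots of unity
-/

noncomputable section

set_option linter.unusedSectionVars false

namespace Pool.Agent.CGQ

open NumberField IsDedekindDomain Pool.Agent.CG2 Pool.Agent.CG2.GalFinAux
  Pool.Agent.CG2.GalInfAux

/-- **KX**. Automorphisms over `L` moving the `p`-power roots of unity, uniformly.

PROOF. `L` has finitely many roots of unity, so there is `m0` such that no primitive `p ^ m0`-th root
of unity of `Fbar` lies in `L`. Let `z0` be one; by `mem_of_fixed` there is `g`, trivial on `L`, with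
`g z0 ≠ z0`. Let `M ≥ m0`, `ζ` a primitive `p ^ M`-th root of unity, `g ζ = ζ ^ a`
(`IsPrimitiveRoot.eq_pow_of_pow_eq_one`). Every `z` with `z ^ (p ^ M) = 1` is a power of `ζ`, so
`g z = z ^ a`; if `a ≡ 1` modulo `p ^ m0` then `g z0 = z0 ^ a = z0`. -/
theorem exists_mover (F L : Type) [Field F] [NumberField F] [Field L] [NumberField L] [Algebra F L]
    [Algebra L (Fbar F)] [IsScalarTower F L (Fbar F)] {p : ℕ} (hp : p.Prime) :
    ∃ m0 : ℕ, ∀ M : ℕ, m0 ≤ M → ∃ (g : GalF F) (a : ℕ),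
      (∀ x : L, g (algebraMap L (Fbar F) x) = algebraMap L (Fbar F) x) ∧
      (∀ z : Fbar F, z ^ (p ^ M) = 1 → g z = z ^ a) ∧ ¬ ((p : ℤ) ^ m0 ∣ (a : ℤ) - 1) := by
  obtain ⟨m0, hm0⟩ : ∃ m0 : ℕ, NumberField.Units.torsionOrder L < p ^ m0 :=
    pow_unbounded_of_one_lt _ hp.one_lt
  refine ⟨m0, fun M hM => ?_⟩
  have hpm0 : 0 < p ^ m0 := pow_pos hp.pos _
  have hpM : 0 < p ^ M := pow_pos hp.pos _
  have : NeZero (p ^ m0) := ⟨hpm0.ne'⟩
  have : NeZero (p ^ M) := ⟨hpM.ne'⟩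
  have : NeZero ((p ^ M : ℕ) : Fbar F) := NeZero.charZero
  obtain ⟨ζ, hζ⟩ := HasEnoughRootsOfUnity.exists_primitiveRoot (Fbar F) (p ^ M)
  -- the root of order `p ^ m0`
  have hz0 : IsPrimitiveRoot (ζ ^ (p ^ (M - m0))) (p ^ m0) := by
    apply hζ.pow hpM
    rw [← pow_add, Nat.sub_add_cancel hM]
  set z0 : Fbar F := ζ ^ (p ^ (M - m0)) with hz0d
  have hnot : z0 ∉ Set.range (algebraMap L (Fbar F)) := by
    rintro ⟨x, hx⟩
    have hx' : IsPrimitiveRoot x (p ^ m0) := by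
      rw [← hx] at hz0
      exact IsPrimitiveRoot.of_map_of_injective hz0 (algebraMap L (Fbar F)).injective
    have h1 := NumberField.Units.dvd_torsionOrder_of_isPrimitiveRoot hx'
    have h2 := Nat.le_of_dvd (Nat.pos_of_ne_zero (NumberField.Units.torsionOrder_ne_zero L)) h1
    omega
  have hex : ∃ g : GalF F, (∀ y : L, g (algebraMap L (Fbar F) y) = algebraMap L (Fbar F) y) ∧
      g z0 ≠ z0 := by
    by_contra hcon
    push Not at hcon
    exact hnot (mem_of_fixed hcon)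
  obtain ⟨g, hgL, hgz⟩ := hex
  have hgζ : (g ζ) ^ (p ^ M) = 1 := by
    rw [← map_pow, hζ.pow_eq_one, map_one]
  obtain ⟨a, -, ha⟩ := hζ.eq_pow_of_pow_eq_one hgζ
  refine ⟨g, a, hgL, ?_, ?_⟩
  · intro z hz
    obtain ⟨i, -, hi⟩ := hζ.eq_pow_of_pow_eq_one hz
    rw [← hi, map_pow, ← ha, ← pow_mul, ← pow_mul, mul_comm]
  · intro hdvd
    apply hgz
    have hg0 : g z0 = z0 ^ a := by
      rw [hz0d, map_pow, ← ha, ← pow_mul, ← pow_mul, mul_comm]
    rw [hg0]
    obtain ⟨k, hk⟩ := hdvd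
    have h0 : z0 ≠ 0 := by
      intro h
      have := hz0.pow_eq_one
      rw [h, zero_pow hpm0.ne'] at this
      exact zero_ne_one this
    have h1 : z0 ^ (a : ℤ) = z0 := by
      have h2 : (a : ℤ) = 1 + ((p ^ m0 : ℕ) : ℤ) * k := by
        push_cast
        linarith
      rw [h2, zpow_add₀ h0, zpow_one, zpow_mul, zpow_natCast, hz0.pow_eq_one, one_zpow, mul_one]
    rwa [zpow_natCast] at h1

end Pool.Agent.CGQ
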