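import Mathlib

/-!
# Homomorphisms to a cyclic group
-/

noncomputable section

set_option linter.unusedSectionVars false

namespace Pool.Agent.CGQ

private theorem gpow_mem {C : Type} [CommGroup C] [Finite C] [IsCyclic C] (x y : C)
    (h : x ^ orderOf y = 1) : x ∈ Subgroup.zpowers y := by
  classical
  have := Fintype.ofFinite C
  have hpos : 0 < orderOf y := orderOf_pos y
  have h1 := IsCyclic.card_pow_eq_one_le (α := C) hpos
  have h2 : (Finset.univ.filter fun a : C => a ∈ Subgroup.zpowers y) ⊆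
      (Finset.univ.filter fun a : C => a ^ orderOf y = 1) := by
    intro a ha
    rw [Finset.mem_filter] at ha ⊢
    obtain ⟨n, hn⟩ := Subgroup.mem_zpowers_iff.1 ha.2
    refine ⟨Finset.mem_univ _, ?_⟩
    rw [← hn, ← zpow_natCast, ← zpow_mul, mul_comm, zpow_mul, zpow_natCast, pow_orderOf_eq_one,
      one_zpow]
  have h3 : (Finset.univ.filter fun a : C => a ∈ Subgroup.zpowers y).card = orderOf y := by
    rw [← Nat.card_zpowers y, Nat.card_eq_fintype_card, Fintype.card_subtype]
  have h4 := Finset.eq_of_subset_of_card_le h2 (by rw [h3]; exact h1)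
  have h5 : x ∈ (Finset.univ.filter fun a : C => a ^ orderOf y = 1) := by
    rw [Finset.mem_filter]
    exact ⟨Finset.mem_univ _, h⟩
  rw [← h4, Finset.mem_filter] at h5
  exact h5.2

/-- **KP**. Two homomorphisms to a finite cyclic group, the kernel of the first contained in the
kernel of the second.

PROOF. `f1.range` is cyclic (a subgroup of a cyclic group), generated by `f1 a1`, of order `d`.
`f1 (a1 ^ d) = 1`, so `(f2 a1) ^ d = 1`, so `f2 a1` lies in the unique subgroup of order `d` of `C`,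
which is `zpowers (f1 a1)` (`IsCyclic`: `IsCyclic.card_pow_eq_one_le`, or write everything as powers
of a generator), so `f2 a1 = f1 a1 ^ j`. For general `a`: `f1 a = f1 (a1 ^ i)`, so
`f2 (a * a1 ^ (-i)) = 1`, `f2 a = f2 a1 ^ i = f1 a ^ j`. -/
theorem pow_of_ker_le {A C : Type} [Group A] [CommGroup C] [Finite C] [IsCyclic C]
    (f1 f2 : A →* C) (h : ∀ a, f1 a = 1 → f2 a = 1) : ∃ j : ℕ, ∀ a, f2 a = f1 a ^ j := by
  obtain ⟨⟨c, a1, ha1⟩, hgen⟩ := IsCyclic.exists_generator (α := f1.range)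
  have h1 : f2 a1 ^ orderOf (f1 a1) = 1 := by
    rw [← map_pow]
    apply h
    rw [map_pow, pow_orderOf_eq_one]
  have h2 := gpow_mem _ _ h1
  obtain ⟨j, hj⟩ : ∃ j : ℕ, f1 a1 ^ j = f2 a1 := by
    have h3 := (mem_powers_iff_mem_zpowers (x := f1 a1) (y := f2 a1)).2 h2
    exact h3
  refine ⟨j, fun a => ?_⟩
  obtain ⟨i, hi⟩ := Subgroup.mem_zpowers_iff.1 (hgen ⟨f1 a, a, rfl⟩)
  have hi' : f1 a1 ^ i = f1 a := by
    have := congrArg Subtype.val hi
    simp only [Subgroup.coe_zpow] at this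
    rw [ha1]
    exact this
  have h4 : f2 (a * a1 ^ (-i)) = 1 := by
    apply h
    rw [map_mul, map_zpow, ← hi', ← zpow_add, add_neg_cancel, zpow_zero]
  rw [map_mul, map_zpow, zpow_neg, mul_inv_eq_one] at h4
  rw [h4, ← hj, ← hi', ← zpow_natCast, ← zpow_natCast, ← zpow_mul, ← zpow_mul, mul_comm]

end Pool.Agent.CGQ
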