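import Pool.Agent.CGQ.GalDefs
import Pool.Agent.CGQ.GalForm
import Pool.Agent.CGQ.GalPow
import Pool.Agent.CGQ.GalMov

/-!
# The Kummer step
-/

noncomputable section

set_option linter.unusedSectionVars false

namespace Pool.Agent.CGQ

open NumberField IsDedekindDomain Pool.Agent.CG2 Pool.Agent.CG2.GalFinAux
  Pool.Agent.CG2.GalInfAux

variable {F : Type} [Field F] [NumberField F] {L : Type} [Field L] [NumberField L] [Algebra F L]
  [Algebra L (Fbar F)] [IsScalarTower F L (Fbar F)]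

private theorem kum_ne {n : ℕ} (hn : 0 < n) {x : Fbar F} {t : L} (ht : t ≠ 0)
    (hx : x ^ n = algebraMap L (Fbar F) t) : x ≠ 0 := by
  rintro rfl
  rw [zero_pow hn.ne'] at hx
  exact ht ((map_eq_zero _).1 hx.symm)

/-- the Kummer character -/
private def kap (n : ℕ) (hn : 0 < n) (x : Fbar F) (t : L) (ht : t ≠ 0)
    (hx : x ^ n = algebraMap L (Fbar F) t) : HOne (F := F) L n →* rootsOfUnity n (Fbar F) where
  toFun s := haveI : NeZero n := ⟨hn.ne'⟩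
    rootsOfUnity.mkOfPowEq ((s : GalF F) x / x) (by
      rw [div_pow, ← map_pow, hx, s.2.1 t, div_self]
      exact (map_ne_zero _).2 ht)
  map_one' := by
    apply Subtype.ext
    apply Units.ext
    rw [rootsOfUnity.val_mkOfPowEq_coe]
    exact div_self (kum_ne hn ht hx)
  map_mul' := by
    intro s r
    apply Subtype.ext
    apply Units.ext
    have : NeZero n := ⟨hn.ne'⟩
    refine Eq.trans (rootsOfUnity.val_mkOfPowEq_coe _ _) (Eq.trans ?_
      (congrArg₂ (fun a b : Fbar F => a * b) (rootsOfUnity.val_mkOfPowEq_coe _ _).symm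
        (rootsOfUnity.val_mkOfPowEq_coe _ _).symm))
    have hx0 := kum_ne hn ht hx
    have h1 : ((r : GalF F) x / x) ^ n = 1 := by
      rw [div_pow, ← map_pow, hx, r.2.1 t, div_self]
      exact (map_ne_zero _).2 ht
    have h2 := s.2.2 _ h1
    change (s : GalF F) ((r : GalF F) x) / x = (s : GalF F) x / x * ((r : GalF F) x / x)
    rw [map_div₀] at h2
    have h3 : (s : GalF F) x ≠ 0 := (map_ne_zero _).2 hx0
    rw [div_eq_iff h3] at h2
    rw [h2]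
    field_simp

private theorem kap_apply {n : ℕ} (hn : 0 < n) {x : Fbar F} {t : L} (ht : t ≠ 0)
    (hx : x ^ n = algebraMap L (Fbar F) t) (s : HOne (F := F) L n) :
    (s : GalF F) x = ((kap n hn x t ht hx s : (Fbar F)ˣ) : Fbar F) * x := by
  have : NeZero n := ⟨hn.ne'⟩
  have h1 : ((kap n hn x t ht hx s : (Fbar F)ˣ) : Fbar F) = (s : GalF F) x / x :=
    rootsOfUnity.val_mkOfPowEq_coe _ _
  rw [h1, div_mul_cancel₀ _ (kum_ne hn ht hx)]

private theorem kap_eq_one {n : ℕ} (hn : 0 < n) {x : Fbar F} {t : L} (ht : t ≠ 0)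
    (hx : x ^ n = algebraMap L (Fbar F) t) (s : HOne (F := F) L n) :
    kap n hn x t ht hx s = 1 ↔ (s : GalF F) x = x := by
  rw [kap_apply hn ht hx]
  constructor
  · intro h
    rw [h]
    simp
  · intro h
    have h1 : ((kap n hn x t ht hx s : (Fbar F)ˣ) : Fbar F) = 1 :=
      mul_right_cancel₀ (kum_ne hn ht hx) (h.trans (one_mul x).symm)
    apply Subtype.ext
    apply Units.ext
    exact h1

private theorem kum_unit {y : L} {n : ℕ} (hn : 0 < n) (W : (𝓞 L)ˣ)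
    (h : y ^ n = ((W : 𝓞 L) : L)) : ∃ Y : (𝓞 L)ˣ, ((Y : 𝓞 L) : L) = y ∧ Y ^ n = W := by
  have hW : ((W : 𝓞 L) : L) * (((W⁻¹ : (𝓞 L)ˣ) : 𝓞 L) : L) = 1 := by
    rw [← map_mul, ← Units.val_mul, mul_inv_cancel]
    simp
  have hy0 : y ≠ 0 := by
    rintro rfl
    rw [zero_pow hn.ne'] at h
    rw [← h, zero_mul] at hW
    exact zero_ne_one hW
  have h1 : IsIntegral ℤ y := by
    apply IsIntegral.of_pow hn
    rw [h]
    exact RingOfIntegers.isIntegral_coe _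
  have h2 : IsIntegral ℤ y⁻¹ := by
    apply IsIntegral.of_pow hn
    have h3 : y⁻¹ ^ n = (((W⁻¹ : (𝓞 L)ˣ) : 𝓞 L) : L) := by
      rw [inv_pow, h, inv_eq_iff_eq_inv]
      exact (eq_inv_of_mul_eq_one_left hW)
    rw [h3]
    exact RingOfIntegers.isIntegral_coe _
  obtain ⟨a, ha⟩ : ∃ a : 𝓞 L, (a : L) = y := ⟨⟨y, h1⟩, rfl⟩
  obtain ⟨b, hb⟩ : ∃ b : 𝓞 L, (b : L) = y⁻¹ := ⟨⟨y⁻¹, h2⟩, rfl⟩
  have hab : a * b = 1 := by
    apply RingOfIntegers.coe_injective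
    rw [map_mul]
    change (a : L) * (b : L) = _
    rw [ha, hb, mul_inv_cancel₀ hy0, map_one]
  refine ⟨⟨a, b, hab, by rw [mul_comm, hab]⟩, ha, ?_⟩
  apply Units.ext
  apply RingOfIntegers.coe_injective
  rw [Units.val_pow_eq_pow_val, map_pow]
  change (a : L) ^ n = _
  rw [ha, h]

/-- **KU**. The Kummer step.

PROOF. Let `l` be given by `exists_form` for `(𝓞 L)ˣ` and `u, e`, `le = Multiplicative.toAdd (l e)`,
a non zero integer, `m0` by `exists_mover`; `B = p ^ b * B'`, `le = p ^ c * le'` with `B', le'` prime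
to `p`. Put `M = m0 + b + c + 1`, `n = p ^ M`, `α`, `θ` with `α ^ n = u`, `θ ^ n = e`. Let `G0` be the
subgroup of `GalF F` of all elements trivial on `L` and on the `n`-th roots of unity, `H0` the
subgroup of the `s ∈ G0` with `ρ s = 1`. `κ_α (s) = s α / α` and `κ_θ (s) = s θ / θ` are
homomorphisms from `G0` to the cyclic group `μ` of the `n`-th roots of unity of `Fbar` (subgroup
`rootsOfUnity n (Fbar F)`).
Suppose that `κ_α (s) = 1` implies `κ_θ (s) = 1` for all `s ∈ H0`. By `pow_of_ker_le`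
`κ_θ = κ_α ^ j` on `H0`. Put `x = θ / α ^ j`; for `s ∈ G0`: `s x = ξ x`, `ξ = κ_θ (s) / κ_α (s) ^ j`;
`s ^ B ∈ H0`, so `ξ ^ B = 1` (`s ↦ ξ` is a homomorphism), so `y = x ^ B` is fixed by `G0`, and
`y ^ n = t`, `t = (e / u ^ j) ^ B ∈ L`. Take `g, a` from `exists_mover`: `root_descent` gives `y' ∈ L`
with `y' ^ n * t ^ a = t`; `y'` is a unit of `𝓞 L` (integral, and its inverse too: `y' ^ n` is a unit).
Apply `l`: `n * l y' + a * l t = l t`, `l t = B * le` (as `l u = 1`): `p ^ M ∣ B * (a - 1) * le`, so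
`p ^ (m0 + 1) ∣ a - 1`, contradiction.
So there is `s ∈ H0` with `s α = α`, `s θ ≠ θ`: `z = s θ / θ ≠ 1`, of order `p ^ k`, `1 ≤ k`. Take
`σ₀ = s ^ (p ^ (k - 1))`: `σ₀ θ = z ^ (p ^ (k - 1)) * θ ≠ θ` and `(σ₀ ^ p) θ = z ^ (p ^ k) θ = θ`. -/
theorem kummer_step {p : ℕ} (hp : p.Prime) {Δ : Type} [Group Δ] (ρ : GalF F →* Δ) {B : ℕ}
    (hB : 0 < B) (hρ : ∀ s : GalF F, ρ s ^ B = 1) (u e : (𝓞 L)ˣ)
    (hind : ∀ a b : ℤ, e ^ a = u ^ b → a = 0) :
    ∃ (M : ℕ) (α θ : Fbar F) (σ₀ : GalF F), 0 < M ∧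
      α ^ (p ^ M) = algebraMap L (Fbar F) ((u : 𝓞 L) : L) ∧
      θ ^ (p ^ M) = algebraMap L (Fbar F) ((e : 𝓞 L) : L) ∧ ρ σ₀ = 1 ∧
      (∀ x : L, σ₀ (algebraMap L (Fbar F) x) = algebraMap L (Fbar F) x) ∧
      (∀ z : Fbar F, z ^ (p ^ M) = 1 → σ₀ z = z) ∧ σ₀ α = α ∧ σ₀ θ ≠ θ ∧ (σ₀ ^ p) θ = θ := by
  classical
  have hFG : Group.FG (𝓞 L)ˣ := Group.fg_iff_monoid_fg.2 inferInstance
  obtain ⟨l, hlu, hle⟩ := exists_form u e hind
  obtain ⟨m0, hm0⟩ := exists_mover F L hp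
  have hle0 : (Multiplicative.toAdd (l e) : ℤ) ≠ 0 := fun h => hle (toAdd_eq_zero.1 h)
  have hN0 : (B : ℤ) * Multiplicative.toAdd (l e) ≠ 0 :=
    mul_ne_zero (by exact_mod_cast hB.ne') hle0
  obtain ⟨v, N', hN', hv⟩ := Nat.exists_eq_pow_mul_and_not_dvd
    (Int.natAbs_ne_zero.2 hN0) p hp.ne_one
  obtain ⟨M, hM⟩ : ∃ M, M = m0 + v + 1 := ⟨_, rfl⟩
  have hn : 0 < p ^ M := pow_pos hp.pos M
  obtain ⟨n, hnM⟩ : ∃ n, n = p ^ M := ⟨_, rfl⟩
  rw [← hnM] at hn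
  have : NeZero n := ⟨hn.ne'⟩
  obtain ⟨α, hα⟩ := IsAlgClosed.exists_pow_nat_eq (algebraMap L (Fbar F) ((u : 𝓞 L) : L)) hn
  obtain ⟨θ, hθ⟩ := IsAlgClosed.exists_pow_nat_eq (algebraMap L (Fbar F) ((e : 𝓞 L) : L)) hn
  have hu0 : ((u : 𝓞 L) : L) ≠ 0 := RingOfIntegers.coe_ne_zero_iff.2 u.ne_zero
  have he0 : ((e : 𝓞 L) : L) ≠ 0 := RingOfIntegers.coe_ne_zero_iff.2 e.ne_zero
  obtain ⟨κα, hκα⟩ : ∃ κα, κα = kap (F := F) n hn α ((u : 𝓞 L) : L) hu0 hα := ⟨_, rfl⟩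
  obtain ⟨κθ, hκθ⟩ : ∃ κθ, κθ = kap (F := F) n hn θ ((e : 𝓞 L) : L) he0 hθ := ⟨_, rfl⟩
  have key : ∃ s : HOne (F := F) L n, ρ s = 1 ∧ κα s = 1 ∧ κθ s ≠ 1 := by
    by_contra hcon
    push Not at hcon
    obtain ⟨A, hA⟩ : ∃ A : Subgroup (HOne (F := F) L n), A = (ρ.comp (HOne L n).subtype).ker :=
      ⟨_, rfl⟩
    have hAm : ∀ s : HOne (F := F) L n, s ∈ A ↔ ρ s = 1 := by
      intro s
      rw [hA, MonoidHom.mem_ker]
      rfl
    obtain ⟨j, hj⟩ := pow_of_ker_le (κα.comp A.subtype) (κθ.comp A.subtype)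
      (fun s hs => hcon s.1 ((hAm _).1 s.2) hs)
    have hψ : ∀ s : HOne (F := F) L n, (κθ s) ^ B = (κα s) ^ (j * B) := by
      intro s
      have h1 : s ^ B ∈ A := by
        rw [hAm, Subgroup.coe_pow, map_pow, hρ]
      have h2 := hj ⟨s ^ B, h1⟩
      change κθ (s ^ B) = κα (s ^ B) ^ j at h2
      rw [map_pow, map_pow, ← pow_mul, mul_comm B j] at h2
      exact h2
    obtain ⟨y, hy⟩ : ∃ y, y = (θ / α ^ j) ^ B := ⟨_, rfl⟩
    have hα0 : α ≠ 0 := kum_ne hn hu0 hα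
    have hfix : ∀ s : GalF F, (∀ x : L, s (algebraMap L (Fbar F) x) = algebraMap L (Fbar F) x) →
        (∀ z : Fbar F, z ^ n = 1 → s z = z) → s y = y := by
      intro s hs1 hs2
      have h1 := kap_apply hn hu0 hα ⟨s, hs1, hs2⟩
      have h2 := kap_apply hn he0 hθ ⟨s, hs1, hs2⟩
      rw [← hκα] at h1
      rw [← hκθ] at h2
      change s α = _ at h1
      change s θ = _ at h2
      have h3 := congrArg (fun z : rootsOfUnity n (Fbar F) => ((z : (Fbar F)ˣ) : Fbar F))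
        (hψ ⟨s, hs1, hs2⟩)
      simp only [Subgroup.coe_pow, Units.val_pow_eq_pow_val] at h3
      rw [hy, map_pow, map_div₀, map_pow, h1, h2, mul_pow, mul_div_mul_comm, mul_pow, div_pow,
        h3, ← pow_mul, div_self, one_mul]
      exact pow_ne_zero _ (Units.ne_zero _)
    obtain ⟨T, hT⟩ : ∃ T : (𝓞 L)ˣ, T = (e * (u ^ j)⁻¹) ^ B := ⟨_, rfl⟩
    have hT1 : ((T : 𝓞 L) : L) = (((e : 𝓞 L) : L) / ((u : 𝓞 L) : L) ^ j) ^ B := by
      have h1 : T * (u ^ j) ^ B = e ^ B := by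
        rw [hT, mul_pow, inv_pow, inv_mul_cancel_right]
      have h2 := congrArg (fun z : (𝓞 L)ˣ => ((z : 𝓞 L) : L)) h1
      simp only [Units.val_mul, Units.val_pow_eq_pow_val, map_mul, map_pow] at h2
      rw [div_pow, eq_div_iff (pow_ne_zero _ (pow_ne_zero _ hu0))]
      exact h2
    have hT0 : ((T : 𝓞 L) : L) ≠ 0 := RingOfIntegers.coe_ne_zero_iff.2 T.ne_zero
    have hyn : y ^ n = algebraMap L (Fbar F) ((T : 𝓞 L) : L) := by
      rw [hT1, map_pow, map_div₀, map_pow, ← hα, ← hθ, hy, ← pow_mul, mul_comm B n, pow_mul,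
        div_pow, ← pow_mul, mul_comm j n, pow_mul]
    obtain ⟨g, a, hg1, hg2, hg3⟩ := hm0 M (by omega)
    rw [← hnM] at hg2
    obtain ⟨y', hy'⟩ := root_descent hn hT0 hyn hfix hg1 hg2
    obtain ⟨Y, hY1, hY2⟩ := kum_unit (y := y') hn (T * (T ^ a)⁻¹) (by
      have h1 : T * (T ^ a)⁻¹ * T ^ a = T := by rw [inv_mul_cancel_right]
      have h2 := congrArg (fun z : (𝓞 L)ˣ => ((z : 𝓞 L) : L)) h1
      simp only [Units.val_mul, Units.val_pow_eq_pow_val, map_mul, map_pow] at h2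
      have h3 : ((T : 𝓞 L) : L) ^ a ≠ 0 := pow_ne_zero _ hT0
      apply mul_right_cancel₀ h3
      rw [hy', Units.val_mul]
      change _ = (algebraMap (𝓞 L) L) _ * _
      rw [map_mul]
      exact h2.symm)
    have h4 : (Multiplicative.toAdd (l T) : ℤ) = B * Multiplicative.toAdd (l e) := by
      have h1 : l T = l e ^ B := by
        rw [hT, map_pow l, map_mul l, map_inv l, map_pow l, hlu, one_pow, inv_one, mul_one]
      rw [h1, toAdd_pow, nsmul_eq_mul]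
    have h5 : (n : ℤ) * Multiplicative.toAdd (l Y) = Multiplicative.toAdd (l T)
        - a * Multiplicative.toAdd (l T) := by
      have h6 := congrArg (fun z => (Multiplicative.toAdd (l z) : ℤ)) hY2
      simp only [map_pow, map_mul, map_inv, toAdd_pow, toAdd_mul, toAdd_inv, nsmul_eq_mul] at h6
      rw [h6]
      ring
    have h6 : ((p : ℤ) ^ M) ∣ (B : ℤ) * Multiplicative.toAdd (l e) * ((a : ℤ) - 1) := by
      refine ⟨- Multiplicative.toAdd (l Y), ?_⟩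
      have h7 : (n : ℤ) = (p : ℤ) ^ M := by rw [hnM]; push_cast; rfl
      rw [← h7, mul_neg, h5, h4]
      ring
    apply hg3
    have h7 : p ^ M ∣ p ^ v * (N' * ((a : ℤ) - 1).natAbs) := by
      have h8 := Int.natAbs_dvd_natAbs.2 h6
      rw [Int.natAbs_pow, Int.natAbs_natCast, Int.natAbs_mul, hv, mul_assoc] at h8
      exact h8
    have h8 : p ^ (m0 + 1) ∣ N' * ((a : ℤ) - 1).natAbs := by
      rw [hM, show m0 + v + 1 = v + (m0 + 1) by ring, pow_add] at h7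
      exact Nat.dvd_of_mul_dvd_mul_left (pow_pos hp.pos v) h7
    have h9 : p ^ (m0 + 1) ∣ ((a : ℤ) - 1).natAbs :=
      Nat.Coprime.dvd_of_dvd_mul_left
        (Nat.Coprime.pow_left _ ((Nat.Prime.coprime_iff_not_dvd hp).2 hN')) h8
    have h10 : p ^ m0 ∣ ((a : ℤ) - 1).natAbs := (pow_dvd_pow p (Nat.le_succ m0)).trans h9
    have h11 : ((p ^ m0 : ℕ) : ℤ) ∣ (a : ℤ) - 1 := Int.natCast_dvd.2 h10
    rwa [Nat.cast_pow] at h11
  obtain ⟨s, hs1, hs2, hs3⟩ := key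
  have hord : orderOf (κθ s) ∣ p ^ M := by
    rw [← hnM]
    apply orderOf_dvd_of_pow_eq_one
    apply Subtype.ext
    exact (mem_rootsOfUnity n _).1 (κθ s).2
  obtain ⟨k, hk, hk'⟩ := (Nat.dvd_prime_pow hp).1 hord
  have hk0 : k ≠ 0 := by
    rintro rfl
    rw [pow_zero, orderOf_eq_one_iff] at hk'
    exact hs3 hk'
  obtain ⟨r, hr⟩ : ∃ r : HOne (F := F) L n, r = s ^ (p ^ (k - 1)) := ⟨_, rfl⟩
  have hr1 : κθ r ≠ 1 := by
    rw [hr, map_pow]
    intro h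
    have h1 := orderOf_dvd_of_pow_eq_one h
    rw [hk'] at h1
    have h2 := Nat.le_of_dvd (pow_pos hp.pos _) h1
    have h3 : p ^ (k - 1) < p ^ k := Nat.pow_lt_pow_right hp.one_lt (by omega)
    omega
  have hr2 : κθ (r ^ p) = 1 := by
    rw [hr, ← pow_mul, map_pow, ← pow_succ, Nat.sub_add_cancel (by omega), ← hk']
    exact pow_orderOf_eq_one _
  have hr3 : κα r = 1 := by rw [hr, map_pow, hs2, one_pow]
  refine ⟨M, α, θ, r, by omega, ?_, ?_, ?_, r.2.1, ?_, ?_, ?_, ?_⟩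
  · rw [← hnM]; exact hα
  · rw [← hnM]; exact hθ
  · rw [hr, Subgroup.coe_pow, map_pow, hs1, one_pow]
  · rw [← hnM]; exact r.2.2
  · rw [hκα] at hr3
    exact (kap_eq_one hn hu0 hα r).1 hr3
  · intro h
    rw [hκθ] at hr1
    exact hr1 ((kap_eq_one hn he0 hθ r).2 h)
  · rw [hκθ] at hr2
    have h1 := (kap_eq_one hn he0 hθ (r ^ p)).1 hr2
    rwa [Subgroup.coe_pow] at h1

end Pool.Agent.CGQ
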