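import Pool.Agent.CGQ.GalDefs

/-!
# Cyclotomic and quadratic characters
-/

noncomputable section

set_option linter.unusedSectionVars false

namespace Pool.Agent.CGQ

open NumberField IsDedekindDomain Pool.Agent.CG2 Pool.Agent.CG2.GalFinAux
  Pool.Agent.CG2.GalInfAux

variable {F : Type} [Field F] [NumberField F]

/-- **LC**. The cyclotomic characters. PROOF. `modularCyclotomicCharacter` (or choose a primitive `n`-th
root of unity). -/
theorem exists_cyc (F : Type) [Field F] [NumberField F] (n : ℕ) (hn : 0 < n) :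
    ∃ f : GalF F →* (ZMod n)ˣ, ∀ g : GalF F, f g = 1 ↔ ∀ z : Fbar F, z ^ n = 1 → g z = z := by
  have : NeZero n := ⟨hn.ne'⟩
  have : CharZero (Fbar F) := charZero_of_injective_algebraMap (algebraMap F (Fbar F)).injective
  obtain ⟨μ, hμ⟩ := HasEnoughRootsOfUnity.exists_primitiveRoot (Fbar F) n
  refine ⟨hμ.autToPow F, fun g => ?_⟩
  have hs := hμ.autToPow_spec F g
  constructor
  · intro h z hz
    have h1 : g μ = μ := by
      rw [← hs, h]
      by_cases h2 : n = 1
      · subst h2
        have : μ = 1 := by simpa using hμ.pow_eq_one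
        rw [this, one_pow]
      · have : Fact (1 < n) := ⟨by omega⟩
        rw [Units.val_one, ZMod.val_one, pow_one]
    obtain ⟨i, _, rfl⟩ := hμ.eq_pow_of_pow_eq_one hz
    rw [map_pow, h1]
  · intro h
    have h1 := h μ hμ.pow_eq_one
    rw [h1] at hs
    by_cases h2 : n = 1
    · subst h2
      exact Subsingleton.elim _ _
    · have : Fact (1 < n) := ⟨by omega⟩
      have h3 : ((hμ.autToPow F g : (ZMod n)ˣ) : ZMod n).val = 1 := by
        apply hμ.pow_inj (ZMod.val_lt _) this.out
        rw [hs, pow_one]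
      apply Units.ext
      rw [Units.val_one]
      have h4 : ((((hμ.autToPow F g : (ZMod n)ˣ) : ZMod n).val : ℕ) : ZMod n) = ((1 : ℕ) : ZMod n) := by
        rw [h3]
      rwa [ZMod.natCast_zmod_val, Nat.cast_one] at h4

/-- **LQ**. The character of a non zero element. PROOF. `y ≠ 0`, `g y = ± y` because
`(g y) ^ 2 = y ^ 2 ∈ F`. -/
theorem exists_sqrt_char (y : Fbar F) (hy : y ≠ 0) (d : F) (hd : y ^ 2 = algebraMap F (Fbar F) d) :
    ∃ χ : GalF F →* ℤˣ, ∀ g : GalF F, g y = ((χ g : ℤ) : Fbar F) * y := by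
  classical
  have : CharZero (Fbar F) := charZero_of_injective_algebraMap (algebraMap F (Fbar F)).injective
  have h0 : ∀ g : GalF F, g y = y ∨ g y = -y := by
    intro g
    apply sq_eq_sq_iff_eq_or_eq_neg.1
    rw [← map_pow, hd, AlgEquiv.commutes]
  have h1 : ∀ g : GalF F, ∃ e : ℤˣ, g y = ((e : ℤ) : Fbar F) * y := by
    intro g
    rcases h0 g with h | h
    · exact ⟨1, by rw [h]; simp⟩
    · exact ⟨-1, by rw [h]; simp⟩
  choose χ hχ using h1
  have hinj : ∀ e e' : ℤˣ, ((e : ℤ) : Fbar F) * y = ((e' : ℤ) : Fbar F) * y → e = e' := by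
    intro e e' h
    have h2 := mul_right_cancel₀ hy h
    exact Units.ext (Int.cast_injective h2)
  refine ⟨{ toFun := χ, map_one' := ?_, map_mul' := ?_ }, hχ⟩
  · apply hinj
    rw [← hχ]
    simp
  · intro g h
    apply hinj
    rw [← hχ]
    change g (h y) = _
    rw [hχ h, map_mul, hχ g, map_intCast]
    push_cast
    ring

end Pool.Agent.CGQ
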