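import Pool.Agent.CGQ.TBD

/-!
# The classes `[y; γ]` under `G` and under the Hecke operators
-/

noncomputable section

namespace Pool.Agent.CGQ

open NumberField IsDedekindDomain Pool.Agent.CG3 CategoryTheory Limits
open Pool.Agent.CG2 (Pl GQ GZ IsCoef CellSys Asc AltF dF LocEq locHom res cosets cosets_finite
  alpha cosetsInv cosetsInv_finite)

variable {F : Type} [Field F] [NumberField F] {𝒟 : Sys F} {S : Set (Pl F)} {Φ : Chart 𝒟 S}
variable {K : Subgroup 𝒟.A} {O k : Type} [CommRing O] [Field k] [Algebra O k]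

private theorem tbe_Br_one (T : TSys K) (hK : OC K)
    (ω : groupCohomology (ffRep hK O k) T.C.n0)
    (hω : IsGen T hK ω) (n : ℕ) (hn : n + 1 = T.C.n0) (y : 𝒟.Pt) :
    Br T hK ω hω n hn y (1 : 𝒟.G) = 0 := by
  have h := Br_mul T hK ω hω n hn (y := y) (Stab K y).one_mem (Stab K y).one_mem
  rw [mul_one] at h
  exact left_eq_add.1 h

private theorem tbe_Br_not (T : TSys K) (hK : OC K)
    (ω : groupCohomology (ffRep hK O k) T.C.n0)
    (hω : IsGen T hK ω) (n : ℕ) (hn : n + 1 = T.C.n0) (y : 𝒟.Pt) (γ : 𝒟.G)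
    (h : γ ∉ Stab K y) : Br T hK ω hω n hn y γ = 0 := by
  unfold Br
  rw [dif_neg h]

/-- the projection onto the quotient -/
private def tbeG (hK : OC K) (O k : Type) [CommRing O] [Field k] [Algebra O k] (γ : 𝒟.G) :
    ffRep hK O k ⟶ (qX hK O k γ).X₃ := cokernel.π (rhoHom hK O k γ - 𝟙 (ffRep hK O k))

private theorem tbeG_pi (hK : OC K) {y : 𝒟.Pt} {γ : 𝒟.G} (hγ : γ ∈ Stab K y) :
    tbeG hK O k γ ≫ qPi hK O k hγ = piHom hK O k y := cokernel.π_desc _ _ _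

private theorem tbeG_ext (hK : OC K) {γ : 𝒟.G} {B : Rep.{0} O 𝒟.G}
    {D D' : (qX hK O k γ).X₃ ⟶ B} (h : tbeG hK O k γ ≫ D = tbeG hK O k γ ≫ D') : D = D' :=
  (cancel_epi (cokernel.π (rhoHom hK O k γ - 𝟙 (ffRep hK O k)))).1 h

/-- the map of the quotients -/
private def tbeM (hK : OC K) {γ γ' : 𝒟.G} (A B : ffRep hK O k ⟶ ffRep hK O k)
    (hAB : (rhoHom hK O k γ - 𝟙 _) ≫ B = A ≫ (rhoHom hK O k γ' - 𝟙 _)) :
    (qX hK O k γ).X₃ ⟶ (qX hK O k γ').X₃ := cokernel.map _ _ A B hAB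

private theorem tbeG_map (hK : OC K) {γ γ' : 𝒟.G} (A B : ffRep hK O k ⟶ ffRep hK O k)
    (hAB : (rhoHom hK O k γ - 𝟙 _) ≫ B = A ≫ (rhoHom hK O k γ' - 𝟙 _)) :
    tbeG hK O k γ ≫ tbeM hK A B hAB = B ≫ tbeG hK O k γ' := cokernel.π_desc _ _ _

private theorem tbe_hom_sum {A B : Rep.{0} O 𝒟.G} {ι : Type} (s : Finset ι) (f : ι → (A ⟶ B))
    (a : A) : (∑ i ∈ s, f i).hom a = ∑ i ∈ s, (f i).hom a := by
  classical
  induction s using Finset.induction_on with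
  | empty =>
    rw [Finset.sum_empty, Finset.sum_empty]
    rfl
  | insert c s hc ih =>
    rw [Finset.sum_insert hc, Finset.sum_insert hc, ← ih]
    rfl

/-- **TBE1.** PROOF. `piHom_rt`; by `Br_q` for `γ ≠ 1`, and `Br_mul` gives `[y; 1] = 0`; for
`γ ∉ Stab K y` both sides are `0` (`Stab_rt`). -/
theorem Br_rt (T : TSys K) (hK : OC K) (hTF : TorsionFree K)
    (ω : groupCohomology (ffRep hK O k) T.C.n0)
    (hω : IsGen T hK ω) (n : ℕ) (hn : n + 1 = T.C.n0) (y : 𝒟.Pt) (κ : 𝒟.A) (hκ : κ ∈ K)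
    (γ : 𝒟.G) : Br T hK ω hω n hn (rt y κ) γ = Br T hK ω hω n hn y γ := by
  by_cases hγ : γ ∈ Stab K y
  · have hγ' : γ ∈ Stab K (rt y κ) := by rw [Stab_rt y hκ]; exact hγ
    by_cases h1 : γ = 1
    · subst h1
      rw [tbe_Br_one, tbe_Br_one]
    · obtain ⟨ζ, hζ, -⟩ := exists_q T hK hTF ω hω n hn hγ h1
      rw [Br_q T hK hTF ω hω n hn hγ h1 ζ hζ, Br_q T hK hTF ω hω n hn hγ' h1 ζ hζ]
      have h2 : qPi hK O k hγ' = qPi hK O k hγ := by
        apply tbeG_ext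
        rw [tbeG_pi, tbeG_pi, piHom_rt hK y hκ]
      rw [h2]
  · have hγ' : γ ∉ Stab K (rt y κ) := by rw [Stab_rt y hκ]; exact hγ
    rw [tbe_Br_not _ _ _ _ _ _ _ _ hγ, tbe_Br_not _ _ _ _ _ _ _ _ hγ']

/-- **TBE2.** PROOF. `γ = 1`: both sides `0`. Otherwise `q_map` with `A = B = rhoHom δ`,
`e = ε δ` (`rhoHom_mul`: `ρ(δ) ρ(γ) = ρ(δ γ δ⁻¹) ρ(δ)`; `hω.rho`), `Br_q` for both sides, and
`cokernel.map … ≫ qPi (at act δ y) = qPi (at y)` since `rho_pi` (compare after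
`cokernel.π`); `ε δ * ε δ = 1`. -/
theorem Br_act (T : TSys K) (hK : OC K) (hTF : TorsionFree K)
    (ω : groupCohomology (ffRep hK O k) T.C.n0)
    (hω : IsGen T hK ω) (n : ℕ) (hn : n + 1 = T.C.n0) (y : 𝒟.Pt) (δ γ : 𝒟.G)
    (hγ : γ ∈ Stab K y) : Br T hK ω hω n hn (act δ y) (δ * γ * δ⁻¹) =
      (((T.ε δ : ℤˣ) : ℤ)) • Br T hK ω hω n hn y γ := by
  by_cases h1 : γ = 1
  · subst h1
    rw [mul_one, mul_inv_cancel, tbe_Br_one, tbe_Br_one, smul_zero]
  · have hγ' : δ * γ * δ⁻¹ ∈ Stab K (act δ y) := by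
      rw [mem_Stab] at hγ ⊢
      rw [← act_mul, inv_mul_cancel_right]
      have e1 : mkK K (act (δ * γ) y) = δ • mkK K (act γ y) := by rw [act_mul]; rfl
      rw [e1, hγ]
      rfl
    have h1' : δ * γ * δ⁻¹ ≠ 1 := by
      intro h
      apply h1
      rw [mul_inv_eq_one] at h
      exact mul_eq_left.1 h
    obtain ⟨ζ, hζ, -⟩ := exists_q T hK hTF ω hω n hn hγ h1
    obtain ⟨ζ', hζ', -⟩ := exists_q T hK hTF ω hω n hn hγ' h1'
    have hAB : (rhoHom hK O k γ - 𝟙 (ffRep hK O k)) ≫ rhoHom hK O k δ =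
        rhoHom hK O k δ ≫ (rhoHom hK O k (δ * γ * δ⁻¹) - 𝟙 (ffRep hK O k)) := by
      rw [Preadditive.sub_comp, Preadditive.comp_sub, rhoHom_mul, rhoHom_mul, Category.id_comp,
        Category.comp_id, inv_mul_cancel_right]
    have h2 : mapCoh (tbeM hK (rhoHom hK O k δ) (rhoHom hK O k δ) hAB) n ζ =
        (((T.ε δ : ℤˣ) : ℤ)) • ζ' :=
      q_map T hK hTF ω hω n hn hγ h1 hγ' h1' (rhoHom hK O k δ) (rhoHom hK O k δ) hAB
      (((T.ε δ : ℤˣ) : ℤ)) (hω.rho δ) ζ hζ ζ' hζ'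
    have h3 : tbeM hK (rhoHom hK O k δ) (rhoHom hK O k δ) hAB ≫ qPi hK O k hγ' =
          qPi hK O k hγ := by
      apply tbeG_ext
      rw [← Category.assoc, tbeG_map, Category.assoc, tbeG_pi, tbeG_pi, rho_pi]
    rw [Br_q T hK hTF ω hω n hn hγ h1 ζ hζ, Br_q T hK hTF ω hω n hn hγ' h1' ζ' hζ', ← h3,
      mapCoh_comp, h2, map_zsmul, smul_smul]
    have h4 : (((T.ε δ : ℤˣ) : ℤ)) * (((T.ε δ : ℤˣ) : ℤ)) = 1 := by
      rw [← Units.val_mul, Int.units_mul_self, Units.val_one]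
    rw [h4, one_smul]

private theorem tbe_locZ_mul (v : {v : Pl F // v ∉ S}) (y : 𝒟.Pt) (γ γ' : 𝒟.G) :
    locZ Φ v y (γ * γ') = locZ Φ v y γ * locZ Φ v y γ' := by
  unfold locZ
  have h : (y.2.1 v.1)⁻¹ * 𝒟.loc v.1 (γ * γ') * y.2.1 v.1 =
      ((y.2.1 v.1)⁻¹ * 𝒟.loc v.1 γ * y.2.1 v.1) * ((y.2.1 v.1)⁻¹ * 𝒟.loc v.1 γ' * y.2.1 v.1) := by
    rw [map_mul (𝒟.loc v.1)]
    group
  rw [h, map_mul (Φ.e v)]

private theorem tbe_locZ_one (v : {v : Pl F // v ∉ S}) (y : 𝒟.Pt) :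
    locZ Φ v y 1 = 1 := by
  have h := tbe_locZ_mul (Φ := Φ) v y 1 1
  rw [mul_one] at h
  exact left_eq_mul.1 h

private theorem tbe_locZ_pow (v : {v : Pl F // v ∉ S}) (y : 𝒟.Pt) (γ : 𝒟.G) (n : ℕ) :
    locZ Φ v y (γ ^ n) = locZ Φ v y γ ^ n := by
  induction n with
  | zero => rw [pow_zero, pow_zero, tbe_locZ_one]
  | succ n ih => rw [pow_succ, pow_succ, tbe_locZ_mul, ih]

private theorem tbe_locZ_inv (v : {v : Pl F // v ∉ S}) (y : 𝒟.Pt) (γ : 𝒟.G) :
    locZ Φ v y γ⁻¹ = (locZ Φ v y γ)⁻¹ := by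
  rw [eq_inv_iff_mul_eq_one, ← tbe_locZ_mul, inv_mul_cancel, tbe_locZ_one]

private theorem tbe_period {X Γ : Type} [Group Γ] [MulAction Γ X] (a : Γ) (N : Finset X)
    (hN : ∀ x ∈ N, a • x ∈ N) (r : X) (hr : r ∈ N) :
    0 < Function.minimalPeriod (fun x => a • x) r := by
  have hit : ∀ (i : ℕ) (x : X), (fun x : X => a • x)^[i] x = a ^ i • x := fun i x => by
    rw [smul_iterate]
  have hNp : ∀ (i : ℕ), ∀ x ∈ N, a ^ i • x ∈ N := by
    intro i
    induction i with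
    | zero => intro x hx; rwa [pow_zero, one_smul]
    | succ i ih => intro x hx; rw [pow_succ', mul_smul]; exact hN _ (ih x hx)
  obtain ⟨i, j, hij, h⟩ := Finite.exists_ne_map_eq_of_infinite
    (fun i : ℕ => (⟨a ^ i • r, hNp i r hr⟩ : N))
  have h' : a ^ i • r = a ^ j • r := congrArg Subtype.val h
  have key : ∀ i j : ℕ, i < j → a ^ i • r = a ^ j • r →
      0 < Function.minimalPeriod (fun x => a • x) r := by
    intro i j hij h
    apply Function.minimalPeriod_pos_of_mem_periodicPts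
    refine ⟨j - i, by omega, ?_⟩
    show (fun x => a • x)^[j - i] r = r
    rw [hit]
    have h1 : a ^ j = a ^ i * a ^ (j - i) := by rw [← pow_add]; congr 1; omega
    rw [h1, mul_smul] at h
    exact (MulAction.injective (a ^ i) h).symm
  rcases Nat.lt_or_gt_of_ne hij with h1 | h1
  · exact key i j h1 h'
  · exact key j i h1 h'.symm

/-- The sum over the orbits of a permutation of a finite set. -/
private theorem tbe_orbits {X M Γ : Type} [Group Γ] [MulAction Γ X] [AddCommMonoid M]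
    (a : Γ) (N R : Finset X) (hN : ∀ x ∈ N, a • x ∈ N) (hR : Reps (fun x => a • x) N R)
    (G : X → M) :
    ∑ r ∈ R, ∑ i ∈ Finset.range (Function.minimalPeriod (fun x => a • x) r), G (a ^ i • r) =
      ∑ x ∈ N, G x := by
  classical
  have hit : ∀ (i : ℕ) (x : X), (fun x : X => a • x)^[i] x = a ^ i • x := fun i x => by
    rw [smul_iterate]
  have hNp : ∀ (i : ℕ), ∀ x ∈ N, a ^ i • x ∈ N := by
    intro i
    induction i with
    | zero => intro x hx; rwa [pow_zero, one_smul]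
    | succ i ih => intro x hx; rw [pow_succ', mul_smul]; exact hN _ (ih x hx)
  have hper : ∀ r ∈ N, 0 < Function.minimalPeriod (fun x => a • x) r := by
    intro r hr
    obtain ⟨i, j, hij, h⟩ := Finite.exists_ne_map_eq_of_infinite
      (fun i : ℕ => (⟨a ^ i • r, hNp i r hr⟩ : N))
    have h' : a ^ i • r = a ^ j • r := congrArg Subtype.val h
    have key : ∀ i j : ℕ, i < j → a ^ i • r = a ^ j • r →
        0 < Function.minimalPeriod (fun x => a • x) r := by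
      intro i j hij h
      apply Function.minimalPeriod_pos_of_mem_periodicPts
      refine ⟨j - i, by omega, ?_⟩
      show (fun x => a • x)^[j - i] r = r
      rw [hit]
      have h1 : a ^ j = a ^ i * a ^ (j - i) := by rw [← pow_add]; congr 1; omega
      rw [h1, mul_smul] at h
      exact (MulAction.injective (a ^ i) h).symm
    rcases Nat.lt_or_gt_of_ne hij with h1 | h1
    · exact key i j h1 h'
    · exact key j i h1 h'.symm
  have hpr : ∀ r : X, a ^ (Function.minimalPeriod (fun x : X => a • x) r) • r = r := by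
    intro r
    rw [← hit]
    exact Function.iterate_minimalPeriod
  rw [Finset.sum_sigma']
  refine Finset.sum_bij (fun x _ => a ^ x.2 • x.1) ?_ ?_ ?_ (fun _ _ => rfl)
  · rintro ⟨r, i⟩ hx
    rw [Finset.mem_sigma] at hx
    exact hNp i r (hR.sub hx.1)
  · rintro ⟨r, i⟩ hx ⟨r', j⟩ hx' h
    rw [Finset.mem_sigma, Finset.mem_range] at hx hx'
    obtain ⟨hr, hi⟩ := hx
    obtain ⟨hr', hj⟩ := hx'
    simp only at h hr hi hr' hj
    have h1 : r = r' := by
      refine hR.inj r hr r' hr' (Function.minimalPeriod (fun x => a • x) r' - j + i) ?_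
      rw [hit, pow_add, mul_smul, h, ← mul_smul, ← pow_add, Nat.sub_add_cancel hj.le, hpr]
    subst h1
    have h2 : i = j := by
      apply Function.iterate_injOn_Iio_minimalPeriod (f := fun x => a • x) (x := r) hi hj
      show (fun x => a • x)^[i] r = (fun x => a • x)^[j] r
      rw [hit, hit]
      exact h
    rw [h2]
  · intro x hx
    obtain ⟨r, hr, n, hn⟩ := hR.ex x hx
    refine ⟨⟨r, n % Function.minimalPeriod (fun x => a • x) r⟩, ?_, ?_⟩
    · rw [Finset.mem_sigma, Finset.mem_range]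
      exact ⟨hr, Nat.mod_lt _ (hper r (hR.sub hr))⟩
    · show a ^ (n % Function.minimalPeriod (fun x => a • x) r) • r = x
      rw [← hit, Function.iterate_mod_minimalPeriod_eq]
      exact hn

/-- **TBE3.** The sum of the maps `piHom` over the neighbours, grouped by the orbits of `γ`: for
`c ∈ R` of period `m` the sum over its orbit is `(∑_{i < m} ρ(γ)⁻ⁱ) ≫ piHom (nb y c)`.
PROOF. The set `cosetsInv` is stable under `locZ Φ v y γ ∈ GZ` (definition of `cosetsInv`), the map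
is a permutation of this finite set, so it is the disjoint union over `c ∈ R` of
`{f^i c : i < m}` (`Reps`; as in `IsZ1.orbit` in LED.lean).
`nb Φ v y (f^i c) ∈ act γ^i (nb Φ v y c) K` (`act_nb` iterated), so
`piHom (nb Φ v y (f^i c)) = piHom (act γ^i (nb Φ v y c)) = ρ(γ^i)⁻¹ ≫ piHom (nb Φ v y c)`
(`piHom_rt`, `rho_pi`, `rhoHom_mul`). -/
theorem pi_orbit (hK : OC K) (hΦ : HypOff K Φ) (v : {v : Pl F // v ∉ S}) (y : 𝒟.Pt) (γ : 𝒟.G)
    (hγ : γ ∈ Stab K y) (j : Fin 3) (R : Finset (GQ v.1 ⧸ GZ v.1))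
    (hR : Reps (fun c => locZ Φ v y γ • c) (cosetsInv_finite v.1 j).toFinset R) :
    ∑ c ∈ (cosetsInv_finite v.1 j).toFinset, piHom hK O k (nb Φ v y c) =
      ∑ c ∈ R, (∑ i ∈ Finset.range
        (Function.minimalPeriod (fun c => locZ Φ v y γ • c) c), rhoHom hK O k (γ⁻¹ ^ i)) ≫
          piHom hK O k (nb Φ v y c) := by
  classical
  have hmem : ∀ x ∈ (cosetsInv_finite v.1 j).toFinset, locZ Φ v y γ • x ∈
      (cosetsInv_finite v.1 j).toFinset := by
    intro x hx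
    rw [Set.Finite.mem_toFinset] at hx ⊢
    obtain ⟨m, hm, rfl⟩ := hx
    refine ⟨locZ Φ v y γ * m, (GZ v.1).mul_mem (locZ_mem (hΦ v) hγ) hm, ?_⟩
    rw [mul_assoc]
    rfl
  rw [← tbe_orbits (locZ Φ v y γ) _ R hmem hR (fun a => piHom hK O k (nb Φ v y a))]
  refine Finset.sum_congr rfl fun c _ => ?_
  rw [Preadditive.sum_comp]
  refine Finset.sum_congr rfl fun i _ => ?_
  have h1 : mkK K (act (γ ^ i) (nb Φ v y c)) = mkK K (nb Φ v y (locZ Φ v y γ ^ i • c)) := by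
    rw [act_nb (hΦ v) ((Stab K y).pow_mem hγ i), tbe_locZ_pow]
  obtain ⟨κ, hκ, h2⟩ := mkK_eq.1 h1
  rw [h2, piHom_rt hK _ hκ]
  have h3 := rho_pi (O := O) (k := k) hK (γ ^ i) (nb Φ v y c)
  rw [← h3, ← Category.assoc, rhoHom_mul, inv_pow, mul_inv_cancel, rhoHom_one, Category.id_comp]

private theorem tbe_mapCoh_sum {A B : Rep.{0} O 𝒟.G} {ι : Type} (s : Finset ι) (f : ι → (A ⟶ B))
    (n : ℕ) (z : groupCohomology A n) :
    mapCoh (∑ i ∈ s, f i) n z = ∑ i ∈ s, mapCoh (f i) n z := by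
  classical
  induction s using Finset.induction_on with
  | empty =>
    rw [Finset.sum_empty, Finset.sum_empty]
    exact mapCoh_zero _ (fun _ => rfl) n z
  | insert c s hc ih =>
    rw [Finset.sum_insert hc, Finset.sum_insert hc, ← ih]
    exact mapCoh_add _ _ _ (fun _ => rfl) n z

private theorem tbe_geom (hK : OC K) (γ : 𝒟.G) (m : ℕ) :
    (rhoHom hK O k γ - 𝟙 (ffRep hK O k)) ≫ ∑ i ∈ Finset.range (m + 1), rhoHom hK O k (γ⁻¹ ^ i) =
      rhoHom hK O k (γ⁻¹ ^ m) ≫ (rhoHom hK O k (γ ^ (m + 1)) - 𝟙 (ffRep hK O k)) := by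
  have h0 : rhoHom hK O k (γ⁻¹ ^ m) ≫ rhoHom hK O k (γ ^ (m + 1)) = rhoHom hK O k γ := by
    rw [rhoHom_mul]
    congr 1
    rw [pow_succ', mul_assoc, inv_pow, mul_inv_cancel, mul_one]
  rw [Preadditive.comp_sub, h0, Category.comp_id]
  clear h0
  induction m with
  | zero =>
    rw [zero_add, Finset.sum_range_one, pow_zero, rhoHom_one, Category.comp_id]
  | succ m ih =>
    rw [Finset.sum_range_succ, Preadditive.comp_add, ih, Preadditive.sub_comp, Category.id_comp,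
      rhoHom_mul]
    have h1 : γ⁻¹ ^ (m + 1) * γ = γ⁻¹ ^ m := by rw [pow_succ, inv_mul_cancel_right]
    rw [h1]
    abel

/-- **TBE4.** The Hecke operators.
PROOF. `γ = 1`: both sides are `0` (`Br_mul`). `γ ≠ 1`: let `ζ` be the class of `exists_q` for
`(y, γ)`. `Br_q`: the left side is `mapCoh (qPi hγ ≫ heckeHom) ζ`, and by the uniqueness of maps out of
the cokernel and `piLin_hecke` (`piHom y ≫ heckeHom t = ∑_{c ∈ cosetsInv} piHom (nb y c)`, see the
proof of `piHom_hecke` in TDefs.lean) and `pi_orbit` we have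
`qPi hγ ≫ heckeHom = ∑_{c ∈ R} cokernel.map _ _ A_c B_c _ ≫ qPi (at nb y c, γ^m)`,
`m = minimalPeriod c > 0`, `B_c = ∑_{i<m} ρ(γ)⁻ⁱ`, `A_c = ρ(γ)^(1-m)`:
`(ρ(γ) - 1) B_c = A_c (ρ(γ^m) - 1)` (geometric sum; all powers of `ρ(γ)` commute). `q_map` with `e = 1`
(`hω.rho`, `eps_stab`), `Br_q` for `(nb y c, γ^m)`: `γ^m ∈ Stab K (nb y c)` by `act_nb` iterated, `γ^m ≠ 1`
by `hTF`. -/
theorem Br_hecke (T : TSys K) (hK : OC K) (hTF : TorsionFree K) (hΦ : HypOff K Φ)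
    (ω : groupCohomology (ffRep hK O k) T.C.n0)
    (hω : IsGen T hK ω) (n : ℕ) (hn : n + 1 = T.C.n0) (v : {v : Pl F // v ∉ S}) (y : 𝒟.Pt)
    (γ : 𝒟.G) (hγ : γ ∈ Stab K y) (j : Fin 3) (R : Finset (GQ v.1 ⧸ GZ v.1))
    (hR : Reps (fun c => locZ Φ v y γ • c) (cosetsInv_finite v.1 j).toFinset R) :
    heckeCoh K (triv K O k) (unram_triv hΦ) n (v, j) (Br T hK ω hω n hn y γ) =
      ∑ c ∈ R, Br T hK ω hω n hn (nb Φ v y c)
        (γ ^ Function.minimalPeriod (fun c => locZ Φ v y γ • c) c) := by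
  classical
  by_cases h1 : γ = 1
  · subst h1
    rw [tbe_Br_one, map_zero]
    symm
    refine Finset.sum_eq_zero fun c _ => ?_
    rw [one_pow, tbe_Br_one]
  obtain ⟨ζ, hζ, -⟩ := exists_q T hK hTF ω hω n hn hγ h1
  have hmem : ∀ x ∈ (cosetsInv_finite v.1 j).toFinset, locZ Φ v y γ • x ∈
      (cosetsInv_finite v.1 j).toFinset := by
    intro x hx
    rw [Set.Finite.mem_toFinset] at hx ⊢
    obtain ⟨m, hm, rfl⟩ := hx
    refine ⟨locZ Φ v y γ * m, (GZ v.1).mul_mem (locZ_mem (hΦ v) hγ) hm, ?_⟩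
    rw [mul_assoc]
    rfl
  have key : ∀ c ∈ R, ∃ D : (qX hK O k γ).X₃ ⟶ coeff K (triv K O k),
      tbeG hK O k γ ≫ D =
        (∑ i ∈ Finset.range (Function.minimalPeriod (fun c => locZ Φ v y γ • c) c),
          rhoHom hK O k (γ⁻¹ ^ i)) ≫ piHom hK O k (nb Φ v y c) ∧
      mapCoh D n ζ = Br T hK ω hω n hn (nb Φ v y c)
        (γ ^ Function.minimalPeriod (fun c => locZ Φ v y γ • c) c) := by
    intro c hc
    have hpos : 0 < Function.minimalPeriod (fun c => locZ Φ v y γ • c) c :=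
      tbe_period (locZ Φ v y γ) _ hmem c (hR.sub hc)
    have hfix : locZ Φ v y γ ^ Function.minimalPeriod (fun c => locZ Φ v y γ • c) c • c = c := by
      have h := Function.iterate_minimalPeriod (f := fun c => locZ Φ v y γ • c) (x := c)
      rwa [smul_iterate] at h
    generalize Function.minimalPeriod (fun c => locZ Φ v y γ • c) c = m at hpos hfix ⊢
    obtain ⟨m, rfl⟩ : ∃ m', m = m' + 1 := ⟨m - 1, by omega⟩
    have hst : γ ^ (m + 1) ∈ Stab K (nb Φ v y c) := by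
      rw [mem_Stab, act_nb (hΦ v) ((Stab K y).pow_mem hγ (m + 1)), tbe_locZ_pow, hfix]
    have hne : γ ^ (m + 1) ≠ 1 := by
      intro h
      apply h1
      obtain ⟨κ, hκ, h2⟩ := mem_Stab'.1 hγ
      have h3 : diag γ * y.2 = y.2 * κ := congrArg Prod.snd h2
      refine hTF y.2 γ (m + 1) (Nat.succ_pos m) ?_ h
      rw [mul_assoc, h3, inv_mul_cancel_left]
      exact hκ
    obtain ⟨ζ', hζ', -⟩ := exists_q T hK hTF ω hω n hn hst hne
    have hA : mapCoh (rhoHom hK O k (γ⁻¹ ^ m)) T.C.n0 ω = (1 : ℤ) • ω := by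
      rw [hω.rho, eps_stab T ((Stab K y).pow_mem ((Stab K y).inv_mem hγ) m), Units.val_one]
    have h2 : mapCoh (tbeM hK (rhoHom hK O k (γ⁻¹ ^ m))
        (∑ i ∈ Finset.range (m + 1), rhoHom hK O k (γ⁻¹ ^ i)) (tbe_geom hK γ m)) n ζ =
          (1 : ℤ) • ζ' :=
      q_map T hK hTF ω hω n hn hγ h1 hst hne (rhoHom hK O k (γ⁻¹ ^ m))
        (∑ i ∈ Finset.range (m + 1), rhoHom hK O k (γ⁻¹ ^ i)) (tbe_geom hK γ m) 1 hA ζ hζ ζ' hζ'
    refine ⟨tbeM hK (rhoHom hK O k (γ⁻¹ ^ m))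
        (∑ i ∈ Finset.range (m + 1), rhoHom hK O k (γ⁻¹ ^ i)) (tbe_geom hK γ m) ≫
          qPi hK O k hst, ?_, ?_⟩
    · rw [← Category.assoc, tbeG_map, Category.assoc, tbeG_pi]
    · rw [mapCoh_comp, h2, one_smul]
      exact (Br_q T hK hTF ω hω n hn hst hne ζ' hζ').symm
  choose! D hD1 hD2 using key
  have h3 : qPi hK O k hγ ≫ heckeHom K (triv K O k) (unram_triv hΦ) (v, j) = ∑ c ∈ R, D c := by
    apply tbeG_ext
    rw [← Category.assoc, tbeG_pi, Preadditive.comp_sum, Finset.sum_congr rfl hD1,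
      ← pi_orbit hK hΦ v y γ hγ j R hR]
    apply rep_hom_ext
    intro f
    rw [tbe_hom_sum]
    exact piLin_hecke hΦ y (v, j) f
  rw [Br_q T hK hTF ω hω n hn hγ h1 ζ hζ, ← Finset.sum_congr rfl hD2, ← tbe_mapCoh_sum, ← h3,
    mapCoh_comp]
  rfl

end Pool.Agent.CGQ
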