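import Pool.Agent.CGQ.CDev
import Pool.Agent.CG2.CellTower

/-!
# Additivity of the maps on cohomology
-/

noncomputable section

namespace Pool.Agent.CGQ

open CategoryTheory NumberField IsDedekindDomain
open Pool.Agent.CG2 (Pl GQ GZ subRep quoRep)

variable {F : Type} [Field F] [NumberField F] {𝒟 : Sys F} {S : Set (Pl F)} {Φ : Chart 𝒟 S}
variable {K K' : Subgroup 𝒟.A} {O : Type} [CommRing O]

/-- The map on cohomology is additive. -/
theorem mapCoh_add {H : Type} [Group H] {A B : Rep.{0} O H} (f g h : A ⟶ B)
    (hh : ∀ a : A, h.hom a = f.hom a + g.hom a) (i : ℕ) (z : groupCohomology A i) :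
    mapCoh h i z = mapCoh f i z + mapCoh g i z := by
  have h1 : groupCohomology.cochainsMap (MonoidHom.id H) h
      = groupCohomology.cochainsMap (MonoidHom.id H) f +
        groupCohomology.cochainsMap (MonoidHom.id H) g := by
    ext n x
    exact hh _
  have h2 : (groupCohomology.functor O H i).map h =
      (groupCohomology.functor O H i).map f + (groupCohomology.functor O H i).map g := by
    change HomologicalComplex.homologyMap _ i = HomologicalComplex.homologyMap _ i +
      HomologicalComplex.homologyMap _ i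
    rw [h1, HomologicalComplex.homologyMap_add]
    rfl
  unfold mapCoh
  rw [h2]
  rfl

/-- The zero map induces zero. -/
theorem mapCoh_zero {H : Type} [Group H] {A B : Rep.{0} O H} (f : A ⟶ B)
    (hf : ∀ a : A, f.hom a = 0) (i : ℕ) (z : groupCohomology A i) : mapCoh f i z = 0 := by
  have h1 := mapCoh_add f f f (fun a => by rw [hf, add_zero]) i z
  simpa using h1

theorem mapCoh_neg {H : Type} [Group H] {A B : Rep.{0} O H} (f g : A ⟶ B)
    (hf : ∀ a : A, g.hom a = - f.hom a) (i : ℕ) (z : groupCohomology A i) :
    mapCoh g i z = - mapCoh f i z := by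
  have h1 := mapCoh_add f g (0 : A ⟶ B) (fun a => by
    rw [hf, add_neg_cancel]
    rfl) i z
  rw [mapCoh_zero _ (fun a => rfl)] at h1
  rw [eq_neg_iff_add_eq_zero, add_comm]
  exact h1.symm

theorem mapCoh_injZero {H : Type} [Group H] {A B : Rep.{0} O H} (f : A ⟶ B)
    (hf : Function.Injective f.hom) : Function.Injective (mapCoh f 0) := by
  have h1 : Mono f := (Rep.mono_iff_injective _).2 hf
  have h2 : Mono (groupCohomology.map (MonoidHom.id H) f 0) := inferInstance
  exact (ModuleCat.mono_iff_injective _).1 h2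

theorem cohMap_sum {W W' : Type} [AddCommGroup W] [Module O W] [AddCommGroup W'] [Module O W']
    (τ : Representation O K W) (τ' : Representation O K W') {ι : Type} (s : Finset ι)
    (φ : ι → (W →ₗ[O] W')) (hφ : ∀ j, ∀ k w, φ j (τ k w) = τ' k (φ j w))
    (ψ : W →ₗ[O] W') (hψ : ∀ k w, ψ (τ k w) = τ' k (ψ w)) (hs : ∀ w, ψ w = ∑ j ∈ s, φ j w)
    (i : ℕ) (z : groupCohomology (coeff K τ) i) :
    cohMap τ τ' ψ hψ i z = ∑ j ∈ s, cohMap τ τ' (φ j) (hφ j) i z := by
  classical
  induction s using Finset.induction_on generalizing ψ with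
  | empty =>
    rw [Finset.sum_empty]
    exact mapCoh_zero _ (fun a => by
      apply Subtype.ext
      funext y
      exact hs _) i z
  | insert j s hj ih =>
    rw [Finset.sum_insert hj]
    have hψ' : ∀ k w, (∑ j ∈ s, φ j) (τ k w) = τ' k ((∑ j ∈ s, φ j) w) := by
      intro k w
      rw [LinearMap.sum_apply, LinearMap.sum_apply, map_sum]
      exact Finset.sum_congr rfl fun j _ => hφ j k w
    rw [← ih (∑ j ∈ s, φ j) hψ' (fun w => by rw [LinearMap.sum_apply])]
    refine mapCoh_add _ _ _ (fun a => ?_) i z
    apply Subtype.ext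
    funext y
    change ψ _ = φ j _ + (∑ j ∈ s, φ j) _
    rw [hs, Finset.sum_insert hj, LinearMap.sum_apply]

theorem cohMap_id {W : Type} [AddCommGroup W] [Module O W] (τ : Representation O K W)
    (h : ∀ k w, (LinearMap.id : W →ₗ[O] W) (τ k w) = τ k ((LinearMap.id : W →ₗ[O] W) w)) (i : ℕ)
    (z : groupCohomology (coeff K τ) i) : cohMap τ τ LinearMap.id h i z = z := by
  have h1 : formsMap τ τ LinearMap.id h = 𝟙 (coeff K τ) := by
    apply Rep.hom_ext
    apply Representation.IntertwiningMap.ext
    apply LinearMap.ext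
    intro f
    rfl
  rw [cohMap, h1, mapCoh_id]

/-- Coordinates of a module killed by the maximal ideal. -/
theorem exists_coord [IsLocalRing O] {V : Type} [AddCommGroup V] [Module O V] [Module.Finite O V]
    (hV : ∀ a ∈ IsLocalRing.maximalIdeal O, ∀ v : V, a • v = 0) :
    ∃ (r : ℕ) (ι : Fin r → (IsLocalRing.ResidueField O →ₗ[O] V))
      (π : Fin r → (V →ₗ[O] IsLocalRing.ResidueField O)), ∀ v, v = ∑ j, ι j (π j v) := by
  let iM : Module (IsLocalRing.ResidueField O) V :=
    Module.IsTorsionBySet.module (M := V) (I := IsLocalRing.maximalIdeal O)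
      (fun v a => hV a.1 a.2 v)
  have iT : IsScalarTower O (IsLocalRing.ResidueField O) V :=
    Module.IsTorsionBySet.isScalarTower (M := V) (I := IsLocalRing.maximalIdeal O)
      (fun v a => hV a.1 a.2 v)
  have iF : Module.Finite (IsLocalRing.ResidueField O) V :=
    Module.Finite.of_restrictScalars_finite O _ V
  let b := Module.finBasis (IsLocalRing.ResidueField O) V
  refine ⟨_, fun j => (LinearMap.toSpanSingleton (IsLocalRing.ResidueField O) V
    (b j)).restrictScalars O, fun j => (b.coord j).restrictScalars O, fun v => ?_⟩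
  exact (b.sum_repr v).symm

theorem finite_Qt (hK : OC K) (hK' : OC K') : Finite (Qt K K') := by
  have := OC.finiteIndex hK hK'
  exact Subgroup.finite_quotient_of_finiteIndex

/-- The map to the constant functions. -/
def constMap (K K' : Subgroup 𝒟.A) (O W : Type) [CommRing O] [AddCommGroup W] [Module O W] :
    W →ₗ[O] (Qt K K' → W) where
  toFun w _ := w
  map_add' _ _ := rfl
  map_smul' _ _ := rfl

theorem constMap_eqv {W : Type} [AddCommGroup W] [Module O W] (K' : Subgroup 𝒟.A)
    (τ : Representation O K W) (k : K) (w : W) :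
    constMap K K' O W (τ k w) = indRep K' τ k (constMap K K' O W w) := rfl

theorem constMap_inj (K K' : Subgroup 𝒟.A) (O W : Type) [CommRing O] [AddCommGroup W]
    [Module O W] : Function.Injective (constMap K K' O W) := by
  intro a b h
  exact congrFun h ((1 : K) : Qt K K')

end Pool.Agent.CGQ
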