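import Pool.Agent.CGQ.SysOC
import Pool.Agent.CGQ.SysHecke
import Pool.Agent.CG2.HeckeReps
import Pool.Agent.CG2.StDefs

/-!
# Eigenfamilies
-/

noncomputable section

namespace Pool.Agent.CGQ

open NumberField IsDedekindDomain
open Pool.Agent.CG2 (Pl GQ GZ cosets cosets_finite alpha cosetsInv cosetsInv_finite)

variable {F : Type} [Field F] [NumberField F] {𝒟 : Sys F} {S : Set (Pl F)} {Φ : Chart 𝒟 S}

/-- The stabiliser in `G` of the coset `y K`. -/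
def Stab (K : Subgroup 𝒟.A) (y : 𝒟.Pt) : Subgroup 𝒟.G where
  carrier := {γ | mkK K (act γ y) = mkK K y}
  mul_mem' := by
    intro a b ha hb
    change mkK K (act (a * b) y) = mkK K y
    have h1 : mkK K (act (a * b) y) = a • mkK K (act b y) := by
      rw [act_mul]
      rfl
    have h2 : a • mkK K y = mkK K (act a y) := rfl
    rw [h1, show mkK K (act b y) = mkK K y from hb, h2]
    exact ha
  one_mem' := by
    change mkK K (act 1 y) = mkK K y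
    rw [act_one]
  inv_mem' := by
    intro a ha
    change mkK K (act a⁻¹ y) = mkK K y
    have h1 : mkK K (act a⁻¹ y) = a⁻¹ • mkK K y := rfl
    have h2 : a • mkK K y = mkK K y := ha
    rw [h1, inv_smul_eq_iff, h2]

theorem mem_Stab {K : Subgroup 𝒟.A} {y : 𝒟.Pt} {γ : 𝒟.G} :
    γ ∈ Stab K y ↔ mkK K (act γ y) = mkK K y := Iff.rfl

theorem mem_Stab' {K : Subgroup 𝒟.A} {y : 𝒟.Pt} {γ : 𝒟.G} :
    γ ∈ Stab K y ↔ ∃ κ ∈ K, act γ y = rt y κ := by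
  rw [mem_Stab, eq_comm, mkK_eq]

theorem Stab_rt {K : Subgroup 𝒟.A} (y : 𝒟.Pt) {κ : 𝒟.A} (hκ : κ ∈ K) :
    Stab K (rt y κ) = Stab K y := by
  ext γ
  rw [mem_Stab, mem_Stab, act_rt, mkK_rt _ hκ, mkK_rt _ hκ]

/-- The neighbour of `y` at the place `v` given by the coset `c`. -/
def nb (Φ : Chart 𝒟 S) (v : {v : Pl F // v ∉ S}) (y : 𝒟.Pt) (c : GQ v.1 ⧸ GZ v.1) : 𝒟.Pt :=
  rt y (sg Φ v (Quotient.out c))

/-- The element of `GL₂(F_v)` through which `γ` acts on the neighbours of `y`. -/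
def locZ (Φ : Chart 𝒟 S) (v : {v : Pl F // v ∉ S}) (y : 𝒟.Pt) (γ : 𝒟.G) : GQ v.1 :=
  Φ.e v ((y.2.1 v.1)⁻¹ * 𝒟.loc v.1 γ * y.2.1 v.1)

/-- The finite set `R` contains exactly one element of each orbit of `f` on `N`. -/
structure Reps {X : Type} (f : X → X) (N R : Finset X) : Prop where
  sub : R ⊆ N
  ex : ∀ c ∈ N, ∃ r ∈ R, ∃ n : ℕ, f^[n] r = c
  inj : ∀ r ∈ R, ∀ r' ∈ R, ∀ n : ℕ, f^[n] r = r' → r = r'

/-- The data of the values at the powers of `γ` of an eigenclass in `H¹` (the value `h y n` is the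
value at `(y, γⁿ)`), or of an eigenfunction (`γ = 1`); `η` is the twist, `lam` and `r` are the
eigenvalues of `T_v` and `R_v`. -/
structure EigFam (K : Subgroup 𝒟.A) (Φ : Chart 𝒟 S) (κ : Type) [Field κ] (η : 𝒟.G →* ℤˣ)
    (γ : 𝒟.G) (lam r : {v : Pl F // v ∉ S} → κ) where
  /-- the values -/
  h : 𝒟.Pt → ℕ → κ
  h_rt : ∀ y, ∀ k ∈ K, ∀ n, h (rt y k) n = h y n
  h_act : ∀ y (δ : 𝒟.G) n, δ * γ = γ * δ → h (act δ y) n = (((η δ : ℤˣ) : ℤ) : κ) * h y n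
  h_r : ∀ v y, γ ∈ Stab K y → h (rt y (sg Φ v (alpha v.1 1))) 1 = r v * h y 1
  h_T : ∀ v y, γ ∈ Stab K y → ∀ R : Finset (GQ v.1 ⧸ GZ v.1),
    Reps (fun c => locZ Φ v y γ • c) (cosets_finite v.1 0).toFinset R →
    ∑ c ∈ R, h (nb Φ v y c) (Function.minimalPeriod (fun c => locZ Φ v y γ • c) c) =
      lam v * h y 1

/-- Under the chart the base subgroups are the maximal compact subgroups. -/
def Std (Φ : Chart 𝒟 S) : Prop := ∀ v (k : 𝒟.L v.1), Φ.e v k ∈ GZ v.1 ↔ k ∈ 𝒟.B v.1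

theorem locZ_mem {K : Subgroup 𝒟.A} {v : {v : Pl F // v ∉ S}} (hK : Hyp K Φ v) {y : 𝒟.Pt}
    {γ : 𝒟.G} (hγ : γ ∈ Stab K y) : locZ Φ v y γ ∈ GZ v.1 := by
  obtain ⟨κ, hκ, h⟩ := mem_Stab'.1 hγ
  have h1 : diag γ * y.2 = y.2 * κ := congrArg Prod.snd h
  have h2 : κ = y.2⁻¹ * (diag γ * y.2) := by rw [h1, inv_mul_cancel_left]
  have h3 : locZ Φ v y γ = Φ.e v (κ.1 v.1) := by
    rw [locZ, h2]
    simp only [Subgroup.coe_mul, Subgroup.coe_inv, Pi.mul_apply, Pi.inv_apply, diag_apply,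
      mul_assoc]
  rw [h3]
  exact hK.le _ hκ

/-- The elements of the stabiliser permute the neighbours. -/
theorem act_nb {K : Subgroup 𝒟.A} {v : {v : Pl F // v ∉ S}} (hK : Hyp K Φ v) {y : 𝒟.Pt}
    {γ : 𝒟.G} (hγ : γ ∈ Stab K y) (c : GQ v.1 ⧸ GZ v.1) :
    mkK K (act γ (nb Φ v y c)) = mkK K (nb Φ v y (locZ Φ v y γ • c)) := by
  obtain ⟨κ, hκ, h⟩ := mem_Stab'.1 hγ
  have h1 : diag γ * y.2 = y.2 * κ := congrArg Prod.snd h
  have h2 : κ = y.2⁻¹ * (diag γ * y.2) := by rw [h1, inv_mul_cancel_left]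
  have h3 : locZ Φ v y γ = Φ.e v (κ.1 v.1) := by
    rw [locZ, h2]
    simp only [Subgroup.coe_mul, Subgroup.coe_inv, Pi.mul_apply, Pi.inv_apply, diag_apply,
      mul_assoc]
  set a : GQ v.1 := Φ.e v (κ.1 v.1) with ha
  have haZ : a ∈ GZ v.1 := hK.le _ hκ
  -- the element `κ` with its component at `v` removed
  set κ' : 𝒟.A := (sg Φ v a)⁻¹ * κ with hκ'
  have hκ'v : κ'.1 v.1 = 1 := by
    rw [hκ', Subgroup.coe_mul, Pi.mul_apply, Subgroup.coe_inv, Pi.inv_apply, sg_apply,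
      single_same, ha, MulEquiv.symm_apply_apply, inv_mul_cancel]
  have hκ'K : κ' ∈ K := K.mul_mem (K.inv_mem (hK.sg_mem haZ)) hκ
  have hκe : κ = sg Φ v a * κ' := by rw [hκ', mul_inv_cancel_left]
  have h4 : act γ (nb Φ v y c) = rt (rt y (sg Φ v (a * Quotient.out c))) κ' := by
    rw [nb, act_rt, h, ← rt_mul, ← rt_mul, hκe, map_mul]
    congr 1
    simp only [mul_assoc]
    have hc : κ' * sg Φ v (Quotient.out c) = sg Φ v (Quotient.out c) * κ' := single_comm' _ hκ'v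
    rw [hc]
  rw [h4, mkK_rt _ hκ'K, h3, nb, mkK_eq]
  have h5 : ((a * Quotient.out c : GQ v.1) : GQ v.1 ⧸ GZ v.1) =
      ((Quotient.out (a • c) : GQ v.1) : GQ v.1 ⧸ GZ v.1) := by
    have h6 : ((Quotient.out (a • c) : GQ v.1) : GQ v.1 ⧸ GZ v.1) = a • c := Quotient.out_eq' _
    have h7 : ((Quotient.out c : GQ v.1) : GQ v.1 ⧸ GZ v.1) = c := Quotient.out_eq' _
    rw [h6]
    conv_rhs => rw [← h7]
    rfl
  refine ⟨sg Φ v ((a * Quotient.out c)⁻¹ * Quotient.out (a • c)),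
    hK.sg_mem (QuotientGroup.eq.1 h5), ?_⟩
  rw [← rt_mul, ← map_mul, mul_inv_cancel_left]

/-- The values of an eigenfamily depend only on the coset `y K`. -/
theorem EigFam.congr {K : Subgroup 𝒟.A} {κ : Type} [Field κ] {η : 𝒟.G →* ℤˣ} {γ : 𝒟.G}
    {lam r : {v : Pl F // v ∉ S} → κ} (E : EigFam K Φ κ η γ lam r) {y y' : 𝒟.Pt}
    (h : mkK K y = mkK K y') (n : ℕ) : E.h y n = E.h y' n := by
  obtain ⟨k, hk, rfl⟩ := mkK_eq.1 h
  exact (E.h_rt y k hk n).symm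

end Pool.Agent.CGQ
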