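import Pool.Agent.CGQ.Fam

/-!
# The unit trick: representatives of orbits
-/

noncomputable section

namespace Pool.Agent.CGQ

open NumberField IsDedekindDomain Matrix
open Pool.Agent.CG2 (Pl Fv Ov GQ GZ cosets cosets_finite alpha HRd HRa HRd_val HRa_val)

variable {F : Type} [Field F] [NumberField F]

private theorem ULE_iter {X : Type} (f : X → X) (N : Finset X) (hN : ∀ c ∈ N, f c ∈ N) {c : X}
    (hc : c ∈ N) (n : ℕ) : f^[n] c ∈ N := by
  induction n with
  | zero => exact hc
  | succ n ih => rw [Function.iterate_succ_apply']; exact hN _ ih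

private theorem ULE_per {X : Type} (f : X → X) (hf : Function.Injective f) (N : Finset X)
    (hN : ∀ c ∈ N, f c ∈ N) {c : X} (hc : c ∈ N) : ∃ m : ℕ, f^[m + 1] c = c := by
  have h1 : ¬ Function.Injective (fun n : ℕ => (⟨f^[n] c, ULE_iter f N hN hc n⟩ : N)) := by
    exact not_injective_infinite_finite _
  simp only [Function.Injective, not_forall] at h1
  obtain ⟨i, j, hij, hne⟩ := h1
  have h2 : f^[i] c = f^[j] c := congrArg Subtype.val hij
  have key : ∀ i j : ℕ, i < j → f^[i] c = f^[j] c → ∃ m : ℕ, f^[m + 1] c = c := by
    intro i j h h3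
    obtain ⟨k, rfl⟩ := Nat.exists_eq_add_of_lt h
    refine ⟨k, ?_⟩
    have h4 : f^[i] c = f^[i] (f^[k + 1] c) := by
      rw [← Function.iterate_add_apply]
      rw [h3]
      rfl
    exact ((Function.Injective.iterate hf i) h4).symm
  rcases lt_or_gt_of_ne hne with h | h
  · exact key i j h h2
  · exact key j i h h2.symm

/-- Representatives exist.
**ULE.** PROOF. For a bijection `f` of a finite set (stable `N`), choose one element in each class
of the equivalence relation `∃ n, f^[n] r = c`; it is symmetric because some positive iterate of `f`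
is the identity on `N`. -/
theorem exists_Reps {X : Type} (f : X → X) (hf : Function.Injective f) (N : Finset X)
    (hN : ∀ c ∈ N, f c ∈ N) : ∃ R, Reps f N R := by
  classical
  induction N using Finset.strongInduction with
  | H N ih =>
    rcases N.eq_empty_or_nonempty with rfl | ⟨c, hc⟩
    · exact ⟨∅, subset_rfl, by simp, by simp⟩
    · obtain ⟨m, hm⟩ := ULE_per f hf N hN hc
      set N' : Finset X := N.filter (fun x => ¬ ∃ n, f^[n] c = x) with hN'
      have hlt : N' ⊂ N := by
        rw [Finset.ssubset_iff_subset_ne]
        refine ⟨Finset.filter_subset _ _, ?_⟩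
        intro h
        have h1 : c ∈ N' := h ▸ hc
        rw [hN', Finset.mem_filter] at h1
        exact h1.2 ⟨0, rfl⟩
      have hst : ∀ x ∈ N', f x ∈ N' := by
        intro x hx
        rw [hN', Finset.mem_filter] at hx ⊢
        refine ⟨hN x hx.1, ?_⟩
        rintro ⟨n, hn⟩
        apply hx.2
        rcases n with _ | n
        · refine ⟨m, hf ?_⟩
          rw [← Function.iterate_succ_apply' f, hm]
          exact hn
        · refine ⟨n, hf ?_⟩
          rw [← Function.iterate_succ_apply' f]
          exact hn
      obtain ⟨R, hR⟩ := ih N' hlt hst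
      refine ⟨insert c R, ?_, ?_, ?_⟩
      · intro x hx
        rcases Finset.mem_insert.1 hx with rfl | hx
        · exact hc
        · exact Finset.filter_subset _ _ (hR.sub hx)
      · intro x hx
        by_cases h : ∃ n, f^[n] c = x
        · exact ⟨c, Finset.mem_insert_self _ _, h⟩
        · obtain ⟨r, hr, h'⟩ := hR.ex x (by rw [hN', Finset.mem_filter]; exact ⟨hx, h⟩)
          exact ⟨r, Finset.mem_insert_of_mem hr, h'⟩
      · intro r hr r' hr' n hn
        rcases Finset.mem_insert.1 hr with h1 | h1
        · rcases Finset.mem_insert.1 hr' with h2 | h2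
          · rw [h1, h2]
          · have := hR.sub h2
            rw [hN', Finset.mem_filter] at this
            exact absurd ⟨n, h1 ▸ hn⟩ this.2
        · rcases Finset.mem_insert.1 hr' with h2 | h2
          · have h3 := ULE_iter f N' hst (hR.sub h1) n
            rw [hn, hN', Finset.mem_filter] at h3
            exact absurd ⟨0, h2.symm⟩ h3.2
          · exact hR.inj r h1 r' h2 n hn

end Pool.Agent.CGQ
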