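import Pool.Agent.CGQ.CBase

/-!
# Devissage: finite generation and vanishing above the dimension
-/

noncomputable section

namespace Pool.Agent.CGQ

open CategoryTheory NumberField IsDedekindDomain
open Pool.Agent.CG2 (Pl GQ GZ subRep quoRep)

variable {F : Type} [Field F] [NumberField F] {𝒟 : Sys F}
variable {K K₀ : Subgroup 𝒟.A}

/-- **CEE1.** Vanishing above `d` for `K`, from the vanishing for the subgroups of `K₀` and a crude
bound for `K`. PROOF. As `upper` in CG2/UpperTF.lean, with `K' = K ⊓ K₀` (`OC.inter`, `finite_Qt`,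
`tr_surj`). -/
theorem upper_all (hK : OC K) (hK₀ : OC K₀) (d N₀ : ℕ)
    (hc : ∀ (O : Type) [CommRing O] (W : Type) [AddCommGroup W] [Module O W]
      (τ : Representation O K W) (i : ℕ), N₀ < i → Subsingleton (groupCohomology (coeff K τ) i))
    (hs : ∀ K' : Subgroup 𝒟.A, OC K' → K' ≤ K₀ → ∀ (O : Type) [CommRing O] (W : Type)
      [AddCommGroup W] [Module O W] (τ : Representation O K' W) (i : ℕ), d < i →
      Subsingleton (groupCohomology (coeff K' τ) i))
    (O : Type) [CommRing O] (W : Type) [AddCommGroup W] [Module O W]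
    (τ : Representation O K W) (i : ℕ) (hi : d < i) :
    Subsingleton (groupCohomology (coeff K τ) i) := by
  classical
  have key : ∀ (n i : ℕ), d < i → N₀ < i + n → ∀ (W : Type) [AddCommGroup W] [Module O W]
      (τ : Representation O K W), Subsingleton (groupCohomology (coeff K τ) i) := by
    intro n
    induction n with
    | zero =>
      intro i _ h W _ _ τ
      exact hc O W τ i (by omega)
    | succ n ih =>
      intro i hi h W _ _ τ
      have hK' : OC (K ⊓ K₀) := hK.inter hK₀
      have hfin : Finite (Qt K (K ⊓ K₀)) := finite_Qt hK hK'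
      have hft : Fintype (Qt K (K ⊓ K₀)) := Fintype.ofFinite _
      have h1 := tr_surj (K' := K ⊓ K₀) inf_le_left τ i (fun W₁ _ _ τ₁ =>
        ih (i + 1) (by omega) (by omega) W₁ τ₁)
      have h2 := hs (K ⊓ K₀) hK' inf_le_right O W (resRep inf_le_left τ) i hi
      exact h1.subsingleton
  exact key (N₀ + 1) i hi (by omega) W τ

/-- **CEE2.** Finite generation in all degrees for `K`, from that for the subgroups of `K₀` and the
vanishing above `d`.
PROOF. Descending induction on the degree (`i > d`: the module is zero). Exact sequence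
`0 → N → Ind → W → 0` (`sumMap`, see `tr_surj`, `K' = K ⊓ K₀`):
`Hⁱ(Ind)` is finitely generated since it is a quotient of `Hⁱ(K', W)` (`fin_ind` in CG2/FinH.lean),
`Hⁱ⁺¹(N)` by induction (`N` is finitely generated since `O` is noetherian), so `Hⁱ(W)` is by
exactness in the middle (`groupCohomology.mapShortComplex₃_exact`, `isNoetherian_of_range_eq_ker`, see
`fin_coh1` in CG2/FinH.lean). -/
theorem fin_all (O : Type) [CommRing O] [IsNoetherianRing O] (hK : OC K) (hK₀ : OC K₀) (d : ℕ)
    (hv : ∀ (W : Type) [AddCommGroup W] [Module O W]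
      (τ : Representation O K W) (i : ℕ), d < i → Subsingleton (groupCohomology (coeff K τ) i))
    (hs : ∀ K' : Subgroup 𝒟.A, OC K' → K' ≤ K₀ → ∀ i, FinH K' O i) (i : ℕ) : FinH K O i := by
  classical
  have hK' : OC (K ⊓ K₀) := hK.inter hK₀
  have hfin : Finite (Qt K (K ⊓ K₀)) := finite_Qt hK hK'
  have hft : Fintype (Qt K (K ⊓ K₀)) := Fintype.ofFinite _
  have hind : ∀ (i : ℕ) (W : Type) [AddCommGroup W] [Module O W] [Module.Finite O W]
      (τ : Representation O K W),
      Module.Finite O (groupCohomology (coeff K (indRep (K ⊓ K₀) τ)) i) := by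
    intro i W _ _ _ τ
    have h1 : Module.Finite O (groupCohomology (coeff (K ⊓ K₀)
        (resRep (inf_le_left : K ⊓ K₀ ≤ K) τ)) i) :=
      hs (K ⊓ K₀) hK' inf_le_right i W _
    refine Module.Finite.of_surjective
      (mapCoh (toInd (inf_le_left : K ⊓ K₀ ≤ K) τ) i)
      (fun z => ⟨mapCoh (ofInd inf_le_left τ) i z, ?_⟩)
    rw [← mapCoh_comp, ofInd_toInd, mapCoh_id]
  have key : ∀ (n i : ℕ), d < i + n → FinH K O i := by
    intro n
    induction n with
    | zero =>
      intro i h W _ _ _ τ
      have h1 : Subsingleton (groupCohomology (coeff K τ) i) := hv W τ i (by omega)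
      exact Module.Finite.of_finite
    | succ n ih =>
      intro i h W _ _ _ τ
      have hWI : Module.Finite O (Qt K (K ⊓ K₀) → W) := Module.Finite.pi
      have hnoeth : IsNoetherian O (Qt K (K ⊓ K₀) → W) :=
        isNoetherian_of_isNoetherianRing_of_finite O _
      let T : Submodule O (Qt K (K ⊓ K₀) → W) :=
        LinearMap.ker (sumMap (K := K) (K' := K ⊓ K₀) W)
      have hT : ∀ k, ∀ w ∈ T, indRep (K ⊓ K₀) τ k w ∈ T := by
        intro k w hw
        rw [LinearMap.mem_ker] at hw ⊢
        rw [sumMap_eqv, hw, map_zero]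
      have hTf : Module.Finite O T := Module.IsNoetherian.finite O T
      have hsurj : Function.Surjective (sumMap (O := O) (K := K) (K' := K ⊓ K₀) W) := by
        intro w
        refine ⟨fun c => if c = ((1 : K) : Qt K (K ⊓ K₀)) then w else 0, ?_⟩
        change ∑ c, (if c = ((1 : K) : Qt K (K ⊓ K₀)) then w else 0) = w
        rw [Finset.sum_ite_eq' Finset.univ, if_pos (Finset.mem_univ _)]
      obtain ⟨h0, hS⟩ := formsMap_shortExact (subRep (indRep (K ⊓ K₀) τ) T hT)
        (indRep (K ⊓ K₀) τ) τ T.subtype (fun k w => rfl) T.injective_subtype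
        (sumMap W) (sumMap_eqv τ) hsurj (by rw [Submodule.range_subtype])
      have h1 := hind i W τ
      have h2 : IsNoetherian O (groupCohomology (coeff K (indRep (K ⊓ K₀) τ)) i) :=
        isNoetherian_of_isNoetherianRing_of_finite _ _
      have h3 : Module.Finite O
          (groupCohomology (coeff K (subRep (indRep (K ⊓ K₀) τ) T hT)) (i + 1)) :=
        ih (i + 1) (by omega) _ _
      have h4 : IsNoetherian O
          (groupCohomology (coeff K (subRep (indRep (K ⊓ K₀) τ) T hT)) (i + 1)) :=
        isNoetherian_of_isNoetherianRing_of_finite _ _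
      have h5 := groupCohomology.mapShortComplex₃_exact hS (i := i) (j := i + 1) rfl
      rw [ShortComplex.moduleCat_exact_iff_range_eq_ker] at h5
      have h6 : IsNoetherian O (groupCohomology (coeff K τ) i) :=
        @isNoetherian_of_range_eq_ker O _ _ _ _ _ _ _ _ _ _ h2 h4 _ _ h5
      exact Module.IsNoetherian.finite _ _
  exact key (d + 1) i (by omega)

end Pool.Agent.CGQ
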