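import Pool.Agent.CGQ.Fam
import Pool.Agent.CGQ.CBase
import Pool.Agent.CG2.EigF
import Pool.Agent.CG2.CellLoc

/-!
# Families of values at points and at elements of the stabilisers
-/

noncomputable section

namespace Pool.Agent.CGQ

open NumberField IsDedekindDomain
open Pool.Agent.CG2 (Pl GQ GZ cosets cosets_finite alpha cosetsInv cosetsInv_finite)

variable {F : Type} [Field F] [NumberField F] {𝒟 : Sys F} {S : Set (Pl F)} {Φ : Chart 𝒟 S}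

/-- The data of the values of an eigenfunction. -/
structure PtFam (K : Subgroup 𝒟.A) (Φ : Chart 𝒟 S) (κ : Type) [Field κ] (η : 𝒟.G →* ℤˣ)
    (lam r : {v : Pl F // v ∉ S} → κ) where
  /-- the values -/
  h : 𝒟.Pt → κ
  h_rt : ∀ y, ∀ k ∈ K, h (rt y k) = h y
  h_act : ∀ y (δ : 𝒟.G), h (act δ y) = (((η δ : ℤˣ) : ℤ) : κ) * h y
  h_r : ∀ v y, h (rt y (sg Φ v (alpha v.1 1))) = r v * h y
  h_T : ∀ v y, ∑ c ∈ (cosets_finite v.1 0).toFinset, h (nb Φ v y c) = lam v * h y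

/-- The data of the values of an eigenclass at the elements of the stabilisers. -/
structure BigFam (K : Subgroup 𝒟.A) (Φ : Chart 𝒟 S) (κ : Type) [Field κ] (η : 𝒟.G →* ℤˣ)
    (lam r : {v : Pl F // v ∉ S} → κ) where
  /-- the values -/
  h : 𝒟.Pt → 𝒟.G → κ
  h_rt : ∀ y, ∀ k ∈ K, ∀ γ, h (rt y k) γ = h y γ
  h_act : ∀ y (δ γ : 𝒟.G), γ ∈ Stab K y →
    h (act δ y) (δ * γ * δ⁻¹) = (((η δ : ℤˣ) : ℤ) : κ) * h y γ
  h_mul : ∀ y, ∀ γ ∈ Stab K y, ∀ γ' ∈ Stab K y, h y (γ * γ') = h y γ + h y γ'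
  h_r : ∀ v y, ∀ γ ∈ Stab K y, h (rt y (sg Φ v (alpha v.1 1))) γ = r v * h y γ
  h_T : ∀ v y, ∀ γ ∈ Stab K y, ∀ R : Finset (GQ v.1 ⧸ GZ v.1),
    Reps (fun c => locZ Φ v y γ • c) (cosets_finite v.1 0).toFinset R →
    ∑ c ∈ R, h (nb Φ v y c) (γ ^ Function.minimalPeriod (fun c => locZ Φ v y γ • c) c) =
      lam v * h y γ

end Pool.Agent.CGQ
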