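import Pool.Agent.CGQ.FFm
import Pool.Agent.CGQ.LDefs
import Pool.Agent.CG2.PolyAsc
import Pool.Agent.CG2.CellTop

/-!
# The top degrees: definitions
-/

noncomputable section

namespace Pool.Agent.CGQ

open NumberField IsDedekindDomain Pool.Agent.CG3 CategoryTheory
open Pool.Agent.CG2 (Pl GQ GZ cosets cosets_finite alpha IsCoef res LocEq locHom CellSys Asc AltF dF
  cosetsInv cosetsInv_finite)

variable {F : Type} [Field F] [NumberField F] {𝒟 : Sys F} {S : Set (Pl F)} {Φ : Chart 𝒟 S}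
variable {O k : Type} [CommRing O] [AddCommGroup k] [Module O k] {K : Subgroup 𝒟.A}

instance decG : DecidableEq 𝒟.G := Classical.decEq _

/-- The module `Forms` is a coefficient module. -/
theorem forms_coef {W : Type} [AddCommGroup W] [Module O W]
    (τ : Representation O K W) : IsCoef (Γ := 𝒟.G) (mkK K) (Forms K τ) := by
  classical
  refine ⟨fun γ y => rfl, fun γ f hf => ?_, fun f => ?_⟩
  · intro y k
    change f (act γ⁻¹ (rt y k)) = _
    rw [act_rt]
    exact hf _ k
  · constructor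
    · intro hf b y k
      have h1 : mkK K (rt y k.1) = mkK K y := mkK_rt y k.2
      unfold res
      rw [h1]
      split_ifs
      · exact hf y k
      · rw [map_zero]
    · intro hf y k
      have h1 : mkK K (rt y k.1) = mkK K y := mkK_rt y k.2
      have h2 := hf (mkK K y) y k
      unfold res at h2
      rw [h1, if_pos rfl, if_pos rfl] at h2
      exact h2

theorem forms_rep {W : Type} [AddCommGroup W] [Module O W]
    (τ : Representation O K W) : (forms_coef τ).rep = coeff K τ := rfl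

/-- The data about the cells of the polyhedra which are needed for the top degrees. -/
structure TSys (K : Subgroup 𝒟.A) where
  /-- the cells; the facets are the elements of the group itself -/
  C : CellSys 𝒟.G (PtK K) 𝒟.G
  two : 2 ≤ C.n0
  min : C.Min 1
  orb : {p : PtK K × Finset 𝒟.G | (C.X p.1).cell p.2 ∧ (1 : 𝒟.G) ∈ p.2}.Finite
  asc : ∀ b, ∃ X : Asc 𝒟.G, ∀ R, X.face R ↔ R = ∅ ∨ (C.X b).cell R
  /-- the orientation cocycle -/
  om : (Fin (C.n0 + 1) → 𝒟.G) → ℤ
  om_cyc : ∀ w : Fin (C.n0 + 2) → 𝒟.G,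
    ∑ i : Fin (C.n0 + 2), (-1 : ℤ) ^ (i : ℕ) * om (w ∘ i.succAbove) = 0
  om_fin : ∀ (w : Fin (C.n0 + 1) → 𝒟.G) (x y : 𝒟.Pt),
    {δ : 𝒟.G | mkK K (act δ y) = mkK K x ∧ om (fun i => δ⁻¹ * w i) ≠ 0}.Finite
  /-- the sign of a point -/
  sg : PtK K → ℤˣ
  /-- the sign character -/
  ε : 𝒟.G →* ℤˣ
  sg_smul : ∀ (γ : 𝒟.G) b, sg (γ • b) = ε γ * sg b
  fan : ∀ b, ∃ R, (C.X b).cell R ∧ R.card = C.n0 + 1 ∧
    (∀ t : Fin (C.n0 + 1) → 𝒟.G, Sel.im t = R → C.o b t * om t = ((sg b : ℤˣ) : ℤ)) ∧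
    ∀ t : Fin (C.n0 + 1) → 𝒟.G, Sel.ctc (C.X b).cell t → Sel.im t ≠ R → om t = 0

/-- The representation of `G` on `FF`. -/
def ffRep (hK : OC K) (O k : Type) [CommRing O] [AddCommGroup k] [Module O k] : Rep.{0} O 𝒟.G :=
  (ff_coef (O := O) (k := k) hK ((1 : 𝒟.Sg), (1 : 𝒟.A))).rep

theorem ffRep_eq (hK : OC K) (y : 𝒟.Pt) : (ff_coef (O := O) (k := k) hK y).rep = ffRep hK O k :=
  rfl

/-- Right translation as a map of representations. -/
def rhoHom (hK : OC K) (O k : Type) [CommRing O] [AddCommGroup k] [Module O k] (h : 𝒟.G) :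
    ffRep hK O k ⟶ ffRep hK O k :=
  locHom (ff_coef hK (1, 1)) (ff_coef hK (act h (1, 1))) (rhoLin K O k h) (rhoLin_loc h (1, 1))

/-- Summation over the fibres as a map of representations. -/
def piHom (hK : OC K) (O k : Type) [CommRing O] [AddCommGroup k] [Module O k] (y : 𝒟.Pt) :
    ffRep hK O k ⟶ coeff K (triv K O k) :=
  locHom (ff_coef hK y) (forms_coef (triv K O k)) (piLin K O k y) (piLin_loc y)

theorem rhoHom_apply (hK : OC K) (h : 𝒟.G) (f : FF K O k) :
    (rhoHom hK O k h).hom f = rhoLin K O k h f := rfl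

theorem piHom_apply (hK : OC K) (y : 𝒟.Pt) (f : FF K O k) :
    (piHom hK O k y).hom f = piLin K O k y f := rfl

theorem rep_hom_ext {A B : Rep.{0} O 𝒟.G} (f g : A ⟶ B) (h : ∀ a : A, f.hom a = g.hom a) :
    f = g := by
  apply Rep.hom_ext
  apply Representation.IntertwiningMap.ext
  apply LinearMap.ext
  intro a
  exact h a

theorem rhoHom_mul (hK : OC K) (g h : 𝒟.G) :
    rhoHom hK O k h ≫ rhoHom hK O k g = rhoHom hK O k (g * h) := by
  apply rep_hom_ext
  intro f
  apply Subtype.ext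
  funext γ
  change f.1 (γ * g * h) = f.1 (γ * (g * h))
  rw [mul_assoc]

theorem rhoHom_one (hK : OC K) : rhoHom hK O k (1 : 𝒟.G) = 𝟙 (ffRep hK O k) := by
  apply rep_hom_ext
  intro f
  apply Subtype.ext
  funext γ
  change f.1 (γ * 1) = f.1 γ
  rw [mul_one]

theorem rho_pi (hK : OC K) (h : 𝒟.G) (y : 𝒟.Pt) :
    rhoHom hK O k h ≫ piHom hK O k (act h y) = piHom hK O k y := by
  apply rep_hom_ext
  intro f
  exact piLin_rho h y f

theorem piHom_rt (hK : OC K) (y : 𝒟.Pt) {κ : 𝒟.A} (hκ : κ ∈ K) :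
    piHom hK O k (rt y κ) = piHom hK O k y := by
  apply rep_hom_ext
  intro f
  exact LinearMap.congr_fun (piLin_rt y hκ) f

/-- For `γ` in the stabiliser of `y`. -/
theorem rho_pi_stab (hK : OC K) {y : 𝒟.Pt} {γ : 𝒟.G} (hγ : γ ∈ Stab K y) :
    rhoHom hK O k γ ≫ piHom hK O k y = piHom hK O k y := by
  obtain ⟨κ, hκ, h⟩ := mem_Stab'.1 hγ
  have h1 := rho_pi (O := O) (k := k) hK γ y
  rwa [h, piHom_rt hK y hκ] at h1

/-- The Hecke operators on the image of `piHom`. -/
theorem piHom_hecke (hK : OC K) (hΦ : HypOff K Φ) (y : 𝒟.Pt) (t : Idx S) (i : ℕ)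
    (z : groupCohomology (ffRep hK O k) i) :
    heckeCoh K (triv K O k) (unram_triv hΦ) i t (mapCoh (piHom hK O k y) i z) =
      ∑ c ∈ (cosetsInv_finite t.1.1 t.2).toFinset,
        mapCoh (piHom hK O k (rt y (sg Φ t.1 (Quotient.out c)))) i z := by
  classical
  have key : ∀ s : Finset (GQ t.1.1 ⧸ GZ t.1.1), ∀ f : ffRep hK O k ⟶ coeff K (triv K O k),
      (∀ a : FF K O k, f.hom a =
        ∑ c ∈ s, piLin K O k (rt y (sg Φ t.1 (Quotient.out c))) a) →
      mapCoh f i z = ∑ c ∈ s,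
        mapCoh (piHom hK O k (rt y (sg Φ t.1 (Quotient.out c)))) i z := by
    intro s
    induction s using Finset.induction_on with
    | empty =>
      intro f hf
      rw [Finset.sum_empty]
      exact mapCoh_zero f (fun a => (hf a).trans Finset.sum_empty) i z
    | insert c s hc ih =>
      intro f hf
      rw [Finset.sum_insert hc]
      have h1 := mapCoh_add (piHom hK O k (rt y (sg Φ t.1 (Quotient.out c))))
        (f - piHom hK O k (rt y (sg Φ t.1 (Quotient.out c)))) f (fun a => by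
          change f.hom a = (piHom hK O k (rt y (sg Φ t.1 (Quotient.out c)))).hom a +
            (f.hom a - (piHom hK O k (rt y (sg Φ t.1 (Quotient.out c)))).hom a)
          abel) i z
      rw [h1]
      congr 1
      apply ih
      intro a
      change f.hom a - (piHom hK O k (rt y (sg Φ t.1 (Quotient.out c)))).hom a = _
      rw [hf a, Finset.sum_insert hc, piHom_apply]
      abel
  have h1 := key (cosetsInv_finite t.1.1 t.2).toFinset
    (piHom hK O k y ≫ heckeHom K (triv K O k) (unram_triv hΦ) t)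
    (fun a => piLin_hecke hΦ y t a)
  rw [← h1, mapCoh_comp]
  rfl

/-- The invariant function on the tuples attached to a function `ψ` at the base point. -/
def chain {j : ℕ} (ψ : (Fin j → 𝒟.G) → k) : 𝒟.G × (Fin j → 𝒟.G) → k :=
  fun p => ψ fun i => p.1⁻¹ * p.2 i

open Classical in
/-- The function with the value `a` at `w` and `0` elsewhere. -/
def e1 (w : 𝒟.G) (a : k) : (Fin 1 → 𝒟.G) → k := fun t => if t 0 = w then a else 0

end Pool.Agent.CGQ
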