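import Pool.Agent.CGQ.Sys

/-!
# Open compact subgroups: finiteness
-/

noncomputable section

namespace Pool.Agent.CGQ

open NumberField IsDedekindDomain
open Pool.Agent.CG2 (Pl GQ GZ)

variable {F : Type} [Field F] [NumberField F] {𝒟 : Sys F}

/-- The elements of `A` with components in given finite sets, almost all `{1}`, form a
finite set. -/
theorem AdFin_finite (W : Set (Pl F)) (hW : W.Finite) (X : ∀ v : Pl F, Set (𝒟.L v))
    (hX : ∀ v, (X v).Finite) (h1 : ∀ v, v ∉ W → X v ⊆ {1}) :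
    {g : 𝒟.A | ∀ v, g.1 v ∈ X v}.Finite := by
  have hWf : Finite ↥W := hW
  have hpi : (Set.pi Set.univ fun v : ↥W => X v.1).Finite := Set.Finite.pi fun v => hX v.1
  refine Set.Finite.of_finite_image (f := fun (g : 𝒟.A) (v : ↥W) => g.1 v.1)
    (hpi.subset ?_) ?_
  · rintro _ ⟨g, hg, rfl⟩ v _
    exact hg v.1
  · intro g hg g' hg' h
    apply Subtype.ext
    funext v
    by_cases hv : v ∈ W
    · exact congrFun h ⟨v, hv⟩
    · rw [h1 v hv (hg v), h1 v hv (hg' v)]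

/-- A compact subset of `A` is covered by finitely many cosets of an open subgroup. -/
theorem fin_cover (D : ∀ v : Pl F, Set (𝒟.L v)) (hD : ∀ v, IsCompact (D v))
    (hfin : {v | ¬ D v ⊆ (𝒟.B v : Set (𝒟.L v))}.Finite) {K : Subgroup 𝒟.A}
    (hK : OC K) : ∃ Φ : Set 𝒟.A, Φ.Finite ∧ ∀ g : 𝒟.A, (∀ v, g.1 v ∈ D v) →
      ∃ φ ∈ Φ, ∃ κ ∈ K, g = φ * κ := by
  classical
  obtain ⟨U, hU, hUS, hUK⟩ := hK.op
  -- local covers
  have hloc : ∀ v, ∃ X : Set (𝒟.L v), X.Finite ∧ ∀ g ∈ D v, ∃ x ∈ X, x⁻¹ * g ∈ U v := by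
    intro v
    obtain ⟨t, ht⟩ := (hD v).elim_finite_subcover (fun x : 𝒟.L v => {g | x⁻¹ * g ∈ U v})
      (fun x => (hU v).preimage (continuous_const_mul x⁻¹))
      (fun g _ => Set.mem_iUnion.2 ⟨g, by
        rw [Set.mem_ofPred_eq, inv_mul_cancel]
        exact (U v).one_mem⟩)
    refine ⟨t, t.finite_toSet, fun g hg => ?_⟩
    have := ht hg
    simp only [Set.mem_iUnion, Set.mem_ofPred_eq] at this
    obtain ⟨x, hx, h⟩ := this
    exact ⟨x, hx, h⟩
  choose X hXf hX using hloc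
  set S : Set (Pl F) := {v | ¬ 𝒟.B v ≤ U v} with hS
  set T : Set (Pl F) := {v | ¬ D v ⊆ (𝒟.B v : Set (𝒟.L v))} with hT
  let Y : ∀ v : Pl F, Set (𝒟.L v) := fun v => if v ∈ S ∪ T then X v else {1}
  have hY1 : ∀ v, v ∉ S ∪ T → Y v = {1} := fun v hv => if_neg hv
  have hY2 : ∀ v, v ∈ S ∪ T → Y v = X v := fun v hv => if_pos hv
  have hYf : ∀ v, (Y v).Finite := by
    intro v
    by_cases hv : v ∈ S ∪ T
    · rw [hY2 v hv]; exact hXf v
    · rw [hY1 v hv]; exact Set.finite_singleton 1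
  have hYD : ∀ v, ∀ g ∈ D v, ∃ x ∈ Y v, x⁻¹ * g ∈ U v := by
    intro v g hg
    by_cases hv : v ∈ S ∪ T
    · rw [hY2 v hv]; exact hX v g hg
    · rw [hY1 v hv]
      have h1 : 𝒟.B v ≤ U v := by
        by_contra h
        exact hv (Or.inl h)
      have h2 : D v ⊆ (𝒟.B v : Set (𝒟.L v)) := by
        by_contra h
        exact hv (Or.inr h)
      exact ⟨1, rfl, by rw [inv_one, one_mul]; exact h1 (h2 hg)⟩
  refine ⟨{g : 𝒟.A | ∀ v, g.1 v ∈ Y v}, AdFin_finite (S ∪ T) (hUS.union hfin) Y hYf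
    (fun v hv => (hY1 v hv).subset), ?_⟩
  intro g hg
  choose x hx hxg using fun v => hYD v (g.1 v) (hg v)
  have hxfin : {v | x v ∉ 𝒟.B v}.Finite := by
    refine (hUS.union hfin).subset ?_
    intro v hv
    by_contra h
    have := hx v
    rw [hY1 v h] at this
    apply hv
    rw [this]
    exact (𝒟.B v).one_mem
  refine ⟨⟨x, hxfin⟩, hx, (⟨x, hxfin⟩ : 𝒟.A)⁻¹ * g, hUK _ ?_, ?_⟩
  · exact hxg
  · rw [mul_inv_cancel_left]

theorem OC.cover {K K' : Subgroup 𝒟.A} (hK : OC K) (hK' : OC K')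
    (a : 𝒟.A) : ∃ Φ : Set 𝒟.A, Φ.Finite ∧ ∀ κ ∈ K, ∃ φ ∈ Φ, ∃ κ' ∈ K', κ * a = φ * κ' := by
  obtain ⟨C, hC, hCS, hCK⟩ := hK.cp
  obtain ⟨Φ, hΦ, h⟩ := fin_cover (fun v => (fun x => x * a.1 v) '' C v)
    (fun v => (hC v).image (continuous_mul_const (a.1 v))) (by
      refine (hCS.union a.2).subset ?_
      intro v hv
      by_contra h
      simp only [Set.mem_union, Set.mem_ofPred_eq, not_or, not_not] at h
      apply hv
      rintro _ ⟨x, hx, rfl⟩
      exact (𝒟.B v).mul_mem (h.1 hx) h.2) hK'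
  refine ⟨Φ, hΦ, fun κ hκ => ?_⟩
  exact h (κ * a) fun v => ⟨κ.1 v, hCK κ hκ v, rfl⟩

theorem OC.inter {K K' : Subgroup 𝒟.A} (hK : OC K) (hK' : OC K') : OC (K ⊓ K') := by
  obtain ⟨U, hU, hUS, hUK⟩ := hK.op
  obtain ⟨U', hU', hUS', hUK'⟩ := hK'.op
  obtain ⟨C, hC, hCS, hCK⟩ := hK.cp
  refine ⟨⟨fun v => U v ⊓ U' v, fun v => ?_, ?_, fun k hk => ?_⟩,
    ⟨C, hC, hCS, fun k hk => ?_⟩⟩
  · rw [Subgroup.coe_inf]
    exact (hU v).inter (hU' v)
  · refine (hUS.union hUS').subset ?_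
    intro v hv
    by_contra h
    simp only [Set.mem_union, Set.mem_ofPred_eq, not_or, not_not] at h
    exact hv (le_inf h.1 h.2)
  · exact ⟨hUK k fun v => (hk v).1, hUK' k fun v => (hk v).2⟩
  · exact hCK k hk.1

/-- A subgroup of an open compact group which contains an open compact group. -/
theorem OC.between {K K' K'' : Subgroup 𝒟.A} (hK : OC K) (hK' : OC K') (h : K'' ≤ K)
    (h' : K' ≤ K'') : OC K'' := by
  obtain ⟨U, hU, hUS, hUK⟩ := hK'.op
  obtain ⟨C, hC, hCS, hCK⟩ := hK.cp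
  exact ⟨⟨U, hU, hUS, fun k hk => h' (hUK k hk)⟩, ⟨C, hC, hCS, fun k hk => hCK k (h hk)⟩⟩

theorem OC.conj {K : Subgroup 𝒟.A} (hK : OC K) (a : 𝒟.A) :
    OC (K.map (MulAut.conj a).toMonoidHom) := by
  obtain ⟨U, hU, hUS, hUK⟩ := hK.op
  obtain ⟨C, hC, hCS, hCK⟩ := hK.cp
  refine ⟨⟨fun v => (U v).map (MulAut.conj (a.1 v)).toMonoidHom, fun v => ?_, ?_,
      fun k hk => ?_⟩,
    ⟨fun v => (fun x => a.1 v * x * (a.1 v)⁻¹) '' C v, fun v => ?_, ?_,
      fun k hk => ?_⟩⟩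
  · rw [Subgroup.coe_map]
    have h1 : IsOpenMap (fun x : 𝒟.L v => a.1 v * x * (a.1 v)⁻¹) :=
      (isOpenMap_mul_right _).comp (isOpenMap_mul_left _)
    exact h1 _ (hU v)
  · refine (hUS.union a.2).subset ?_
    intro v hv
    by_contra h
    simp only [Set.mem_union, Set.mem_ofPred_eq, not_or, not_not] at h
    apply hv
    intro x hx
    refine ⟨(a.1 v)⁻¹ * x * a.1 v, h.1
      ((𝒟.B v).mul_mem ((𝒟.B v).mul_mem ((𝒟.B v).inv_mem h.2) hx) h.2), ?_⟩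
    change a.1 v * ((a.1 v)⁻¹ * x * a.1 v) * (a.1 v)⁻¹ = x
    group
  · refine ⟨a⁻¹ * k * a, hUK _ fun v => ?_, ?_⟩
    · obtain ⟨u, hu, hu'⟩ := hk v
      change a.1 v * u * (a.1 v)⁻¹ = k.1 v at hu'
      change (a.1 v)⁻¹ * k.1 v * a.1 v ∈ U v
      rw [← hu']
      have : (a.1 v)⁻¹ * (a.1 v * u * (a.1 v)⁻¹) * a.1 v = u := by group
      rw [this]
      exact hu
    · change a * (a⁻¹ * k * a) * a⁻¹ = k
      group
  · have h1 : Continuous (fun x : 𝒟.L v => a.1 v * x * (a.1 v)⁻¹) :=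
      (continuous_mul_const _).comp (continuous_const_mul _)
    exact (hC v).image h1
  · refine (hCS.union a.2).subset ?_
    intro v hv
    by_contra h
    simp only [Set.mem_union, Set.mem_ofPred_eq, not_or, not_not] at h
    apply hv
    rintro _ ⟨x, hx, rfl⟩
    exact (𝒟.B v).mul_mem ((𝒟.B v).mul_mem h.2 (h.1 hx)) ((𝒟.B v).inv_mem h.2)
  · obtain ⟨x, hx, rfl⟩ := hk
    intro v
    exact ⟨x.1 v, hCK x hx v, rfl⟩

theorem OC.finiteIndex {K K' : Subgroup 𝒟.A} (hK : OC K)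
    (hK' : OC K') : (K'.subgroupOf K).FiniteIndex := by
  obtain ⟨Φ, hΦ, h⟩ := hK.cover hK' 1
  choose f hf k hk hfk using h
  -- the map from the cosets to `Φ` is injective up to the choice of representatives
  have hfin : Finite ↥Φ := hΦ
  let q : K ⧸ K'.subgroupOf K → ↥Φ := fun c => ⟨f (Quotient.out c).1 (Quotient.out c).2,
    hf (Quotient.out c).1 (Quotient.out c).2⟩
  have hq : Function.Injective q := by
    intro c c' hcc
    have h1 : f (Quotient.out c).1 (Quotient.out c).2 = f (Quotient.out c').1 (Quotient.out c').2 :=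
      congrArg Subtype.val hcc
    rw [← Quotient.out_eq c, ← Quotient.out_eq c']
    refine QuotientGroup.eq.2 ?_
    change (((Quotient.out c)⁻¹ * Quotient.out c' : K) : 𝒟.A) ∈ K'
    have h2 := hfk (Quotient.out c).1 (Quotient.out c).2
    have h3 := hfk (Quotient.out c').1 (Quotient.out c').2
    rw [mul_one] at h2 h3
    have h4 : (((Quotient.out c)⁻¹ * Quotient.out c' : K) : 𝒟.A) =
        (k (Quotient.out c).1 (Quotient.out c).2)⁻¹ * k (Quotient.out c').1 (Quotient.out c').2 := by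
      change ((Quotient.out c).1)⁻¹ * (Quotient.out c').1 = _
      conv_lhs => rw [h2, h3, h1]
      group
    rw [h4]
    exact K'.mul_mem (K'.inv_mem (hk _ _)) (hk _ _)
  have : Finite (K ⧸ K'.subgroupOf K) := Finite.of_injective q hq
  exact Subgroup.finiteIndex_of_finite_quotient

theorem AdFin_iInf {L : Subgroup 𝒟.A} (hL : OC L) (Φ : Set 𝒟.A)
    (hΦ : Φ.Finite) : ∃ (L' : Subgroup 𝒟.A), OC L' ∧
      ∀ k, k ∈ L' ↔ k ∈ L ∧ ∀ φ ∈ Φ, φ⁻¹ * k * φ ∈ L := by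
  induction Φ, hΦ using Set.Finite.induction_on with
  | empty => exact ⟨L, hL, fun k => by simp⟩
  | @insert φ s _ _ ih =>
    obtain ⟨L', h1, h2⟩ := ih
    have h3 := hL.conj φ
    refine ⟨_, h1.inter h3, fun k => ?_⟩
    rw [Subgroup.mem_inf, h2]
    have h4 : k ∈ L.map (MulAut.conj φ).toMonoidHom ↔ φ⁻¹ * k * φ ∈ L := by
      constructor
      · rintro ⟨x, hx, rfl⟩
        have : φ⁻¹ * ((MulAut.conj φ).toMonoidHom x) * φ = x := by
          change φ⁻¹ * (φ * x * φ⁻¹) * φ = x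
          group
        rw [this]
        exact hx
      · intro h
        refine ⟨_, h, ?_⟩
        change φ * (φ⁻¹ * k * φ) * φ⁻¹ = k
        group
    rw [h4]
    simp only [Set.mem_insert_iff, forall_eq_or_imp]
    tauto

/-- A small open subgroup which is normalised by `K`. -/
theorem OC.core {K K' : Subgroup 𝒟.A} (hK : OC K) (hK' : OC K') :
    ∃ (K'' : Subgroup 𝒟.A), OC K'' ∧ K'' ≤ K ⊓ K' ∧
      ∀ κ ∈ K, ∀ k ∈ K'', κ * k * κ⁻¹ ∈ K'' := by
  have hL := hK.inter hK'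
  set L := K ⊓ K' with hLdef
  obtain ⟨Φ, hΦ, h⟩ := hK.cover hL 1
  obtain ⟨K'', h1, h2⟩ := AdFin_iInf hL (Φ ∩ K) (hΦ.subset Set.inter_subset_left)
  have key : ∀ k, k ∈ K'' ↔ ∀ κ ∈ K, κ⁻¹ * k * κ ∈ L := by
    intro k
    rw [h2]
    constructor
    · rintro ⟨_, h3⟩ κ hκ
      obtain ⟨φ, hφ, l, hl, hκφ⟩ := h κ hκ
      rw [mul_one] at hκφ
      have hφK : φ ∈ K := by
        have : φ = κ * l⁻¹ := by rw [hκφ]; group
        rw [this]
        exact K.mul_mem hκ (K.inv_mem (by rw [hLdef] at hl; exact hl.1))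
      have h4 := h3 φ ⟨hφ, hφK⟩
      have h5 : κ⁻¹ * k * κ = l⁻¹ * (φ⁻¹ * k * φ) * l := by rw [hκφ]; group
      rw [h5]
      exact L.mul_mem (L.mul_mem (L.inv_mem hl) h4) hl
    · intro h3
      refine ⟨?_, fun φ hφ => h3 φ hφ.2⟩
      have := h3 1 K.one_mem
      rwa [inv_one, one_mul, mul_one] at this
  refine ⟨K'', h1, ?_, ?_⟩
  · intro k hk
    exact ((h2 k).1 hk).1
  · intro κ hκ k hk
    rw [key] at hk ⊢
    intro κ' hκ'
    have h3 := hk (κ⁻¹ * κ') (K.mul_mem (K.inv_mem hκ) hκ')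
    have h4 : κ'⁻¹ * (κ * k * κ⁻¹) * κ' = (κ⁻¹ * κ')⁻¹ * k * (κ⁻¹ * κ') := by group
    rw [h4]
    exact h3

end Pool.Agent.CGQ
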