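import Pool.Agent.CGQ.SysCoh
import Pool.Agent.CGQ.SysTrace
import Pool.Agent.CGQ.SysOC
import Pool.Agent.CG3.Nakayama

/-!
# Devissage
-/

noncomputable section

namespace Pool.Agent.CGQ

open CategoryTheory NumberField IsDedekindDomain
open Pool.Agent.CG2 (Pl GQ GZ subRep quoRep)
open Pool.Agent.CG3 (nakayama_loc mem_of_support)

variable {F : Type} [Field F] [NumberField F] {𝒟 : Sys F} {S : Set (Pl F)} {Φ : Chart 𝒟 S}
variable {K : Subgroup 𝒟.A} {O : Type} [CommRing O]

/-- `W` is, modulo the ideal `I`, a trivial `K ∩ U`-module for an open subgroup `U` which contains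
the maximal compact subgroups for `v` outside `S`. -/
def ContMod {W : Type} [AddCommGroup W] [Module O W] (K : Subgroup 𝒟.A)
    (τ : Representation O K W) (Φ : Chart 𝒟 S) (I : Ideal O) : Prop :=
  ∃ U : ∀ v : Pl F, Subgroup (𝒟.L v), (∀ v, IsOpen (U v : Set (𝒟.L v))) ∧
    {v | ¬ 𝒟.B v ≤ U v}.Finite ∧
    (∀ (v : {v : Pl F // v ∉ S}) (k : 𝒟.L v.1), Φ.e v k ∈ GZ v.1 → k ∈ U v.1) ∧
    ∀ k : K, (∀ v, k.1.1 v ∈ U v) → ∀ w : W, τ k w - w ∈ (I • ⊤ : Submodule O W)

/-- The `K`-module `W` is continuous. -/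
def Cont {W : Type} [AddCommGroup W] [Module O W] [IsLocalRing O] (K : Subgroup 𝒟.A)
    (τ : Representation O K W) (Φ : Chart 𝒟 S) : Prop :=
  ∀ n : ℕ, ContMod K τ Φ (IsLocalRing.maximalIdeal O ^ n)

/-- `K` acts on `W` through the quotient by an open subgroup. -/
def Smooth {W : Type} [AddCommGroup W] [Module O W] (K : Subgroup 𝒟.A)
    (τ : Representation O K W) (Φ : Chart 𝒟 S) : Prop := ContMod K τ Φ ⊥

/-- Devissage. -/
theorem dead_ext {W' W W'' : Type} [AddCommGroup W] [Module O W]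
    [AddCommGroup W'] [Module O W'] [AddCommGroup W''] [Module O W'']
    (τ' : Representation O K W') (τ : Representation O K W) (τ'' : Representation O K W'')
    (hU' : UnramOff K τ' Φ) (hU : UnramOff K τ Φ) (hU'' : UnramOff K τ'' Φ)
    (ι : W' →ₗ[O] W) (hι : ∀ k w, ι (τ' k w) = τ k (ι w)) (hinj : Function.Injective ι)
    (π : W →ₗ[O] W'') (hπ : ∀ k w, π (τ k w) = τ'' k (π w)) (hsurj : Function.Surjective π)
    (hex : LinearMap.range ι = LinearMap.ker π) (i : ℕ) (m : Ideal (HeckeAlg S O)) [m.IsPrime]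
    (h' : Dead K τ' hU' i m) (h'' : Dead K τ'' hU'' i m) : Dead K τ hU i m := by
  intro z
  obtain ⟨t, ht, ht0⟩ := h'' (cohMap τ τ'' π hπ i z)
  rw [← cohMap_hecke τ τ'' hU hU'' π hπ] at ht0
  obtain ⟨z', hz'⟩ := cohMap_exact τ' τ τ'' ι hι hinj π hπ hsurj hex i _ ht0
  obtain ⟨t', ht', ht'0⟩ := h' z'
  refine ⟨t' * t, fun hmem => ?_, ?_⟩
  · rcases (Ideal.IsPrime.mem_or_mem ‹_› hmem) with h | h
    · exact ht' h
    · exact ht h
  · rw [map_mul, Module.End.mul_apply, ← hz', ← cohMap_hecke τ' τ hU' hU ι hι, ht'0, map_zero]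

theorem smooth_sub {W : Type} [AddCommGroup W] [Module O W] {τ : Representation O K W}
    (h : Smooth K τ Φ) (T : Submodule O W) (hT : ∀ k, ∀ w ∈ T, τ k w ∈ T) :
    Smooth K (subRep τ T hT) Φ := by
  obtain ⟨U, hU, h1, h1', h2⟩ := h
  refine ⟨U, hU, h1, h1', fun k hk w => ?_⟩
  have h3 := h2 k hk w.1
  rw [Submodule.bot_smul, Submodule.mem_bot] at h3 ⊢
  exact Subtype.ext h3

theorem smooth_quo {W : Type} [AddCommGroup W] [Module O W] {τ : Representation O K W}
    (h : Smooth K τ Φ) (T : Submodule O W) (hT : ∀ k, ∀ w ∈ T, τ k w ∈ T) :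
    Smooth K (quoRep τ T hT) Φ := by
  obtain ⟨U, hU, h1, h1', h2⟩ := h
  refine ⟨U, hU, h1, h1', fun k hk w => ?_⟩
  obtain ⟨w, rfl⟩ := Submodule.Quotient.mk_surjective T w
  have h3 := h2 k hk w
  rw [Submodule.bot_smul, Submodule.mem_bot] at h3 ⊢
  change Submodule.Quotient.mk (τ k w) - Submodule.Quotient.mk w = 0
  rw [← Submodule.Quotient.mk_sub, h3, Submodule.Quotient.mk_zero]

/-- The statement that the localisation is zero for all modules killed by the maximal ideal. -/
def KD [IsLocalRing O] (K : Subgroup 𝒟.A) (Φ : Chart 𝒟 S) (i : ℕ)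
    (m : Ideal (HeckeAlg S O)) : Prop :=
  ∀ (W : Type) [AddCommGroup W] [Module O W] [Module.Finite O W] (τ : Representation O K W)
    (hU : UnramOff K τ Φ), (∀ a ∈ IsLocalRing.maximalIdeal O, ∀ w : W, a • w = 0) →
    Smooth K τ Φ → Dead K τ hU i m

/-- All cohomology groups in degree `i` are finitely generated. -/
def FinH (K : Subgroup 𝒟.A) (O : Type) [CommRing O] (i : ℕ) : Prop :=
  ∀ (W : Type) [AddCommGroup W] [Module O W] [Module.Finite O W] (τ : Representation O K W),
    Module.Finite O (groupCohomology (coeff K τ) i)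

section dvr

variable [IsDomain O] [IsDiscreteValuationRing O]

theorem dead_tors (ϖ : O) (hϖ : Irreducible ϖ) (i : ℕ)
    (m : Ideal (HeckeAlg S O)) [m.IsPrime] (hKD : KD K Φ i m) (n : ℕ) :
    ∀ (W : Type) [AddCommGroup W] [Module O W] [Module.Finite O W] (τ : Representation O K W)
      (hU : UnramOff K τ Φ),
      (∀ v : W, ϖ ^ n • v = 0) → Smooth K τ Φ → Dead K τ hU i m := by
  have hmax : IsLocalRing.maximalIdeal O = Ideal.span {ϖ} := hϖ.maximalIdeal_eq
  have hkill : ∀ (W : Type) [AddCommGroup W] [Module O W], (∀ v : W, ϖ • v = 0) →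
      ∀ a ∈ IsLocalRing.maximalIdeal O, ∀ v : W, a • v = 0 := by
    intro W _ _ h a ha v
    rw [hmax] at ha
    obtain ⟨c, rfl⟩ := Ideal.mem_span_singleton'.1 ha
    rw [mul_smul, h, smul_zero]
  induction n with
  | zero =>
    intro W _ _ _ τ hU h hsm
    refine hKD W τ hU (hkill W fun v => ?_) hsm
    have := h v
    rw [pow_zero, one_smul] at this
    rw [this, smul_zero]
  | succ n ih =>
    intro W _ _ _ τ hU h hsm
    have hnoeth : IsNoetherian O W := isNoetherian_of_isNoetherianRing_of_finite O W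
    let T : Submodule O W := LinearMap.range (ϖ • (LinearMap.id : W →ₗ[O] W))
    have hT : ∀ k, ∀ w ∈ T, τ k w ∈ T := by
      rintro k _ ⟨w, rfl⟩
      exact ⟨τ k w, by simp⟩
    refine dead_ext (subRep τ T hT) τ (quoRep τ T hT) (unram_sub hU T hT) hU
      (unram_quo hU T hT) T.subtype (fun k w => rfl)
      T.injective_subtype T.mkQ (fun k w => rfl) T.mkQ_surjective (by simp) i m ?_ ?_
    · refine ih _ _ _ ?_ (smooth_sub hsm T hT)
      rintro ⟨_, w, rfl⟩
      apply Subtype.ext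
      have := h w
      rw [pow_succ, mul_smul] at this
      simpa using this
    · refine hKD _ _ _ (hkill _ fun v => ?_) (smooth_quo hsm T hT)
      obtain ⟨w, rfl⟩ := Submodule.Quotient.mk_surjective T v
      rw [← Submodule.Quotient.mk_smul, Submodule.Quotient.mk_eq_zero]
      exact ⟨w, by simp⟩

/-- The case of coefficients on which a generator `ϖ` of the maximal ideal is injective. -/
theorem dead_free (ϖ : O) (hϖ : Irreducible ϖ) (i : ℕ) (hfin : FinH K O i)
    (m : Ideal (HeckeAlg S O)) [m.IsMaximal] (hKD : KD K Φ i m)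
    {W : Type} [AddCommGroup W] [Module O W] [Module.Finite O W]
    (τ : Representation O K W) (hU : UnramOff K τ Φ) (hinj : ∀ w : W, ϖ • w = 0 → w = 0)
    (hsm : ∀ (T : Submodule O W) (hT : ∀ k, ∀ w ∈ T, τ k w ∈ T),
      (∀ w : W, ϖ • w ∈ T) → Smooth K (quoRep τ T hT) Φ) :
    Dead K τ hU i m := by
  have := hfin W τ
  have hmax : IsLocalRing.maximalIdeal O = Ideal.span {ϖ} := hϖ.maximalIdeal_eq
  have hϖm : ϖ ∈ IsLocalRing.maximalIdeal O := by
    rw [hmax]; exact Ideal.mem_span_singleton_self ϖ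
  let φ : W →ₗ[O] W := ϖ • (LinearMap.id : W →ₗ[O] W)
  have hφ : ∀ k w, φ (τ k w) = τ k (φ w) := fun k w => by simp [φ]
  let T : Submodule O W := LinearMap.range φ
  have hT : ∀ k, ∀ w ∈ T, τ k w ∈ T := by
    rintro k _ ⟨w, rfl⟩
    exact ⟨τ k w, by simp [φ]⟩
  have hφinj : Function.Injective φ := by
    rw [injective_iff_map_eq_zero]
    intro w hw
    exact hinj w hw
  have hUq := unram_quo hU T hT
  have hdead : Dead K (quoRep τ T hT) hUq i m := by
    refine dead_tors ϖ hϖ i m hKD 1 _ _ _ (fun v => ?_)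
      (hsm T hT fun w => ⟨w, by simp [φ]⟩)
    obtain ⟨w, rfl⟩ := Submodule.Quotient.mk_surjective T v
    rw [← Submodule.Quotient.mk_smul, Submodule.Quotient.mk_eq_zero]
    exact ⟨w, by simp [φ]⟩
  obtain ⟨t, ht, ht0⟩ := nakayama_loc (hact K τ hU i) ϖ hϖm m (by
    intro z
    obtain ⟨t, ht, ht0⟩ := hdead (cohMap τ (quoRep τ T hT) T.mkQ (fun k w => rfl) i z)
    have ht1 := (cohMap_hecke τ (quoRep τ T hT) hU hUq T.mkQ (fun k w => rfl) i t z).trans ht0
    obtain ⟨z', hz'⟩ := cohMap_exact τ τ (quoRep τ T hT) φ hφ hφinj T.mkQ (fun k w => rfl)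
      T.mkQ_surjective (by simp [T]) i _ ht1
    refine ⟨t, ht, z', ?_⟩
    rw [← hz']
    exact cohMap_smul τ ϖ hφ i z')
  exact fun z => ⟨t, ht, ht0 z⟩

/-- **CDA.** The localisation at `m` of the cohomology in degree `i` is zero for all finitely
generated continuous modules if it is zero for those killed by the maximal ideal. -/
theorem dead_all (i : ℕ) (hfin : FinH K O i)
    {W : Type} [AddCommGroup W] [Module O W] [Module.Finite O W]
    (τ : Representation O K W) (hU : UnramOff K τ Φ) (hτ : Cont K τ Φ)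
    (m : Ideal (HeckeAlg S O)) [m.IsMaximal] (hKD : KD K Φ i m) : Dead K τ hU i m := by
  obtain ⟨ϖ, hϖ⟩ := IsDiscreteValuationRing.exists_irreducible O
  have hmax : IsLocalRing.maximalIdeal O = Ideal.span {ϖ} := hϖ.maximalIdeal_eq
  have hϖm : ϖ ∈ IsLocalRing.maximalIdeal O := by
    rw [hmax]; exact Ideal.mem_span_singleton_self ϖ
  have hnoeth : IsNoetherian O W := isNoetherian_of_isNoetherianRing_of_finite O W
  -- elements of `𝔪ⁿ W`
  have hpow : ∀ (n : ℕ) (w : W), w ∈ (IsLocalRing.maximalIdeal O ^ n • ⊤ : Submodule O W) →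
      ∃ w', w = ϖ ^ n • w' := by
    intro n w hw
    rw [hmax, Ideal.span_singleton_pow, Submodule.ideal_span_singleton_smul] at hw
    obtain ⟨w', _, hw'⟩ := hw
    exact ⟨w', hw'.symm⟩
  -- the torsion submodule
  let T : Submodule O W :=
    { carrier := {w | ∃ n : ℕ, ϖ ^ n • w = 0}
      add_mem' := by
        rintro a b ⟨n, hn⟩ ⟨n', hn'⟩
        refine ⟨n + n', ?_⟩
        have h1 : ϖ ^ (n + n') • a = 0 := by
          rw [add_comm, pow_add, mul_smul, hn, smul_zero]
        have h2 : ϖ ^ (n + n') • b = 0 := by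
          rw [pow_add, mul_smul, hn', smul_zero]
        rw [smul_add, h1, h2, add_zero]
      zero_mem' := ⟨0, by simp⟩
      smul_mem' := by
        rintro c a ⟨n, hn⟩
        refine ⟨n, ?_⟩
        rw [← mul_smul, mul_comm, mul_smul, hn, smul_zero] }
  have hT : ∀ k, ∀ w ∈ T, τ k w ∈ T := by
    rintro k w ⟨n, hn⟩
    exact ⟨n, by rw [← map_smul, hn, map_zero]⟩
  have hTdiv : ∀ (n : ℕ) (w : W), ϖ ^ n • w ∈ T → w ∈ T := by
    rintro n w ⟨n', hn'⟩
    exact ⟨n' + n, by rw [pow_add, mul_smul, hn']⟩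
  -- a common exponent
  have hN : ∃ N : ℕ, ∀ w ∈ T, ϖ ^ N • w = 0 := by
    let f : ℕ →o Submodule O W :=
      { toFun := fun n => LinearMap.ker (ϖ ^ n • (LinearMap.id : W →ₗ[O] W))
        monotone' := by
          intro a b hab w hw
          obtain ⟨c, rfl⟩ := Nat.exists_eq_add_of_le hab
          simp only [LinearMap.mem_ker, LinearMap.smul_apply, LinearMap.id_coe, id_eq] at hw ⊢
          rw [add_comm, pow_add, mul_smul, hw, smul_zero] }
    obtain ⟨N, hN⟩ := monotone_stabilizes_iff_noetherian.2 hnoeth f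
    refine ⟨N, ?_⟩
    rintro w ⟨n, hn⟩
    have h1 : w ∈ f (max N n) := f.monotone (le_max_right N n) (by
      change w ∈ LinearMap.ker _
      simpa using hn)
    rw [← hN _ (le_max_left N n)] at h1
    have h2 : w ∈ LinearMap.ker (ϖ ^ N • (LinearMap.id : W →ₗ[O] W)) := h1
    simpa using h2
  obtain ⟨N, hN⟩ := hN
  refine dead_ext (subRep τ T hT) τ (quoRep τ T hT) (unram_sub hU T hT) hU (unram_quo hU T hT)
      T.subtype (fun k w => rfl)
      T.injective_subtype T.mkQ (fun k w => rfl) T.mkQ_surjective (by simp) i m ?_ ?_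
  · refine dead_tors ϖ hϖ i m hKD N _ _ _ ?_ ?_
    · rintro ⟨w, hw⟩
      apply Subtype.ext
      exact hN w hw
    · obtain ⟨U, hU', h1, h1', hk⟩ := hτ N
      refine ⟨U, hU', h1, h1', fun k hkU => ?_⟩
      rintro ⟨w, hw⟩
      rw [Submodule.bot_smul, Submodule.mem_bot, sub_eq_zero]
      apply Subtype.ext
      change τ k w = w
      obtain ⟨w', hw'⟩ := hpow N _ (hk k hkU w)
      have h2 : ϖ ^ N • w' ∈ T := by
        rw [← hw']
        exact T.sub_mem (hT k w hw) hw
      have h3 := hN w' (hTdiv N w' h2)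
      rw [h3, sub_eq_zero] at hw'
      exact hw'
  · refine dead_free ϖ hϖ i hfin m hKD _ _ ?_ ?_
    · intro v hv
      obtain ⟨w, rfl⟩ := Submodule.Quotient.mk_surjective T v
      rw [← Submodule.Quotient.mk_smul, Submodule.Quotient.mk_eq_zero] at hv
      rw [Submodule.Quotient.mk_eq_zero]
      exact hTdiv 1 w (by rwa [pow_one])
    · intro T' hT' hϖT'
      obtain ⟨U, hU', h1, h1', hk⟩ := hτ 1
      refine ⟨U, hU', h1, h1', fun k hkU v => ?_⟩
      obtain ⟨v, rfl⟩ := Submodule.Quotient.mk_surjective T' v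
      obtain ⟨w, rfl⟩ := Submodule.Quotient.mk_surjective T v
      obtain ⟨w', hw'⟩ := hpow 1 _ (hk k hkU w)
      rw [Submodule.bot_smul, Submodule.mem_bot]
      change Submodule.Quotient.mk (Submodule.Quotient.mk (τ k w) : W ⧸ T) -
        Submodule.Quotient.mk (Submodule.Quotient.mk w : W ⧸ T) = (0 : (W ⧸ T) ⧸ T')
      rw [← Submodule.Quotient.mk_sub, ← Submodule.Quotient.mk_sub, hw', pow_one,
        Submodule.Quotient.mk_smul, Submodule.Quotient.mk_eq_zero]
      exact hϖT' _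

end dvr

end Pool.Agent.CGQ
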