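import Pool.Agent.CG2.Defs

/-!
# Adelic groups: an abstract version of the set-up of `Pool.Agent.CG2`
-/

noncomputable section

namespace Pool.Agent.CGQ

open NumberField IsDedekindDomain
open Pool.Agent.CG2 (Pl GQ GZ)

/-- The data of a group `G` with local groups `L v` for all finite places `v` of a number field
`F`, open compact subgroups `B v`, homomorphisms `loc v`, and a homomorphism `sgn` to a finite
commutative group. -/
structure Sys (F : Type) [Field F] [NumberField F] where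
  /-- the group of the rational points -/
  G : Type
  grpG : Group G
  /-- the local groups -/
  L : Pl F → Type
  grpL : ∀ v, Group (L v)
  topL : ∀ v, TopologicalSpace (L v)
  tgL : ∀ v, IsTopologicalGroup (L v)
  /-- the base subgroups -/
  B : ∀ v, Subgroup (L v)
  isOpen_B : ∀ v, IsOpen (B v : Set (L v))
  isCompact_B : ∀ v, IsCompact (B v : Set (L v))
  /-- the localisation maps -/
  loc : ∀ v, G →* L v
  fin : ∀ γ : G, {v | loc v γ ∉ B v}.Finite
  /-- the group of the signs -/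
  Sg : Type
  grpS : CommGroup Sg
  finS : Finite Sg
  /-- the signs -/
  sgn : G →* Sg

attribute [instance] Sys.grpG Sys.grpL Sys.topL Sys.tgL Sys.grpS Sys.finS

variable {F : Type} [Field F] [NumberField F] {𝒟 : Sys F}

/-- The restricted product of the local groups. -/
def Sys.A (𝒟 : Sys F) : Subgroup (∀ v : Pl F, 𝒟.L v) where
  carrier := {g | {v | g v ∉ 𝒟.B v}.Finite}
  mul_mem' := by
    intro a b ha hb
    refine (ha.union hb).subset ?_
    intro v hv
    by_contra h
    simp only [Set.mem_union, Set.mem_ofPred_eq, not_or, not_not] at h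
    exact hv ((𝒟.B v).mul_mem h.1 h.2)
  one_mem' := by
    refine Set.finite_empty.subset ?_
    intro v hv
    exact (hv ((𝒟.B v).one_mem)).elim
  inv_mem' := by
    intro a ha
    refine ha.subset ?_
    intro v hv h
    exact hv ((𝒟.B v).inv_mem h)

/-- The diagonal embedding. -/
def diag : 𝒟.G →* 𝒟.A where
  toFun γ := ⟨fun v => 𝒟.loc v γ, 𝒟.fin γ⟩
  map_one' := by
    apply Subtype.ext
    funext v
    exact map_one _
  map_mul' a b := by
    apply Subtype.ext
    funext v
    exact map_mul _ _ _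

@[simp] theorem diag_apply (γ : 𝒟.G) (v : Pl F) : (diag γ).1 v = 𝒟.loc v γ := rfl

open Classical in
/-- The embedding of a local group. -/
def single (v : Pl F) : 𝒟.L v →* 𝒟.A where
  toFun h := ⟨Pi.mulSingle v h, by
    refine (Set.finite_singleton v).subset ?_
    intro q hq
    by_contra hne
    apply hq
    rw [Pi.mulSingle_eq_of_ne (fun h => hne h)]
    exact (𝒟.B q).one_mem⟩
  map_one' := by
    apply Subtype.ext
    exact Pi.mulSingle_one v
  map_mul' a b := by
    apply Subtype.ext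
    exact Pi.mulSingle_mul v a b

open Classical in
@[simp] theorem single_apply (v : Pl F) (h : 𝒟.L v) : (single v h).1 = Pi.mulSingle v h := rfl

theorem single_same (v : Pl F) (a : 𝒟.L v) : (single v a).1 v = a := by
  classical
  rw [single_apply, Pi.mulSingle_eq_same]

theorem single_ne {v q : Pl F} (h : q ≠ v) (a : 𝒟.L v) : (single v a).1 q = 1 := by
  classical
  rw [single_apply, Pi.mulSingle_eq_of_ne h]

/-- Elements at different places commute. -/
theorem single_comm {v q : Pl F} (h : v ≠ q) (a : 𝒟.L v) (b : 𝒟.L q) :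
    single v a * single q b = single q b * single v a := by
  classical
  apply Subtype.ext
  funext r
  simp only [Subgroup.coe_mul, single_apply, Pi.mul_apply]
  by_cases h1 : r = v
  · subst h1
    rw [Pi.mulSingle_eq_of_ne (M := fun v => 𝒟.L v) h b, mul_one, one_mul]
  · rw [Pi.mulSingle_eq_of_ne (M := fun v => 𝒟.L v) h1 a, mul_one, one_mul]

/-- `single v a` commutes with the elements whose component at `v` is trivial. -/
theorem single_comm' {v : Pl F} (a : 𝒟.L v) {k : 𝒟.A} (hk : k.1 v = 1) :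
    k * single v a = single v a * k := by
  apply Subtype.ext
  funext q
  simp only [Subgroup.coe_mul, Pi.mul_apply]
  by_cases h : q = v
  · subst h
    rw [hk, mul_one, one_mul]
  · rw [single_ne h, mul_one, one_mul]

/-- The set `Sg × A`, on which `G` acts on the left and `A` on both sides. -/
abbrev Sys.Pt (𝒟 : Sys F) := 𝒟.Sg × 𝒟.A

/-- The left action of `G` on `Pt`. -/
def act (γ : 𝒟.G) (y : 𝒟.Pt) : 𝒟.Pt := (𝒟.sgn γ * y.1, diag γ * y.2)

/-- The right action of `A` on `Pt`. -/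
def rt (y : 𝒟.Pt) (k : 𝒟.A) : 𝒟.Pt := (y.1, y.2 * k)

/-- The left action of `A` on `Pt`. -/
def lt (t : 𝒟.A) (y : 𝒟.Pt) : 𝒟.Pt := (y.1, t * y.2)

@[simp] theorem act_one (y : 𝒟.Pt) : act 1 y = y := by simp [act]

theorem act_mul (a b : 𝒟.G) (y : 𝒟.Pt) : act (a * b) y = act a (act b y) := by
  simp [act, mul_assoc]

@[simp] theorem rt_one (y : 𝒟.Pt) : rt y 1 = y := by simp [rt]

theorem rt_mul (y : 𝒟.Pt) (a b : 𝒟.A) : rt y (a * b) = rt (rt y a) b := by
  simp [rt, mul_assoc]

theorem act_rt (γ : 𝒟.G) (y : 𝒟.Pt) (k : 𝒟.A) : act γ (rt y k) = rt (act γ y) k := by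
  simp [act, rt, mul_assoc]

@[simp] theorem lt_one (y : 𝒟.Pt) : lt 1 y = y := by simp [lt]

theorem lt_mul (a b : 𝒟.A) (y : 𝒟.Pt) : lt (a * b) y = lt a (lt b y) := by
  simp [lt, mul_assoc]

theorem lt_rt (t : 𝒟.A) (y : 𝒟.Pt) (k : 𝒟.A) : lt t (rt y k) = rt (lt t y) k := by
  simp [lt, rt, mul_assoc]

/-- The groups `G ∩ g K g⁻¹` are torsion free. -/
def TorsionFree (K : Subgroup 𝒟.A) : Prop :=
  ∀ (g : 𝒟.A) (γ : 𝒟.G) (n : ℕ), 0 < n → g⁻¹ * diag γ * g ∈ K → γ ^ n = 1 → γ = 1

variable {O : Type} [CommRing O] {W : Type} [AddCommGroup W] [Module O W]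

/-- The module of all functions `f` on `Pt` with values in `W` such that `f (y k) = k⁻¹ f (y)` for
all `k` in `K`; here `τ` is the action of `K` on `W`. -/
def Forms (K : Subgroup 𝒟.A) (τ : Representation O K W) : Submodule O (𝒟.Pt → W) where
  carrier := {f | ∀ (y : 𝒟.Pt) (k : K), f (rt y k) = τ k⁻¹ (f y)}
  add_mem' := by
    intro a b ha hb y k
    simp only [Pi.add_apply, map_add, ha y k, hb y k]
  zero_mem' := by
    intro y k
    simp
  smul_mem' := by
    intro c a ha y k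
    simp only [Pi.smul_apply, map_smul, ha y k]

/-- The action of `G` on `Forms`: `(γ f)(y) = f (γ⁻¹ y)`. -/
def formsRep (K : Subgroup 𝒟.A) (τ : Representation O K W) :
    Representation O 𝒟.G (Forms K τ) where
  toFun γ :=
    { toFun := fun f => ⟨fun y => f.1 (act γ⁻¹ y), by
        intro y k
        change f.1 (act γ⁻¹ (rt y k)) = _
        rw [act_rt]
        exact f.2 _ k⟩
      map_add' := fun _ _ => rfl
      map_smul' := fun _ _ => rfl }
  map_one' := by
    apply LinearMap.ext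
    intro f
    apply Subtype.ext
    funext y
    simp
  map_mul' a b := by
    apply LinearMap.ext
    intro f
    apply Subtype.ext
    funext y
    simp [act_mul]

@[simp] theorem formsRep_apply (K : Subgroup 𝒟.A) (τ : Representation O K W) (γ : 𝒟.G)
    (f : Forms K τ) (y : 𝒟.Pt) : (formsRep K τ γ f).1 y = f.1 (act γ⁻¹ y) := rfl

/-- The `G`-module whose cohomology is the cohomology of `Y(K)` with coefficients in the
local system attached to `W`. -/
def coeff (K : Subgroup 𝒟.A) (τ : Representation O K W) : Rep O 𝒟.G := Rep.of (formsRep K τ)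

/-! ### The cosets `y K` -/

instance actPt : MulAction 𝒟.G 𝒟.Pt where
  smul γ y := act γ y
  one_smul y := act_one y
  mul_smul a b y := act_mul a b y

theorem smul_pt (γ : 𝒟.G) (y : 𝒟.Pt) : γ • y = act γ y := rfl

/-- Right cosets under `K`. -/
def ptSetoid (K : Subgroup 𝒟.A) : Setoid 𝒟.Pt where
  r y y' := ∃ κ ∈ K, y' = rt y κ
  iseqv :=
    { refl := fun y => ⟨1, K.one_mem, (rt_one y).symm⟩
      symm := by
        rintro y y' ⟨κ, hκ, rfl⟩
        refine ⟨κ⁻¹, K.inv_mem hκ, ?_⟩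
        rw [← rt_mul, mul_inv_cancel, rt_one]
      trans := by
        rintro y y' y'' ⟨κ, hκ, rfl⟩ ⟨κ', hκ', rfl⟩
        exact ⟨κ * κ', K.mul_mem hκ hκ', (rt_mul y κ κ').symm⟩ }

/-- The set of the cosets `y K`. -/
def PtK (K : Subgroup 𝒟.A) : Type := Quotient (ptSetoid K)

/-- The coset of `y`. -/
def mkK (K : Subgroup 𝒟.A) (y : 𝒟.Pt) : PtK K := Quotient.mk (ptSetoid K) y

theorem mkK_eq {K : Subgroup 𝒟.A} {y y' : 𝒟.Pt} :
    mkK K y = mkK K y' ↔ ∃ κ ∈ K, y' = rt y κ := Quotient.eq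

theorem mkK_rt {K : Subgroup 𝒟.A} (y : 𝒟.Pt) {κ : 𝒟.A} (hκ : κ ∈ K) :
    mkK K (rt y κ) = mkK K y := (mkK_eq.2 ⟨κ, hκ, rfl⟩).symm

theorem mkK_surj {K : Subgroup 𝒟.A} (b : PtK K) : ∃ y, mkK K y = b := Quotient.exists_rep b

instance actPtK (K : Subgroup 𝒟.A) : MulAction 𝒟.G (PtK K) where
  smul γ := Quotient.map (act γ) (by
    rintro y y' ⟨κ, hκ, rfl⟩
    exact ⟨κ, hκ, act_rt γ y κ⟩)
  one_smul b := by
    obtain ⟨y, rfl⟩ := mkK_surj b
    change mkK K (act 1 y) = _
    rw [act_one]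
  mul_smul γ δ b := by
    obtain ⟨y, rfl⟩ := mkK_surj b
    change mkK K (act (γ * δ) y) = mkK K (act γ (act δ y))
    rw [act_mul]

theorem smul_mkK {K : Subgroup 𝒟.A} (γ : 𝒟.G) (y : 𝒟.Pt) : γ • mkK K y = mkK K (γ • y) := rfl

/-- A representative of a coset. -/
def outK {K : Subgroup 𝒟.A} (b : PtK K) : 𝒟.Pt := Quotient.out b

theorem mkK_outK {K : Subgroup 𝒟.A} (b : PtK K) : mkK K (outK b) = b := Quotient.out_eq b

/-! ### Open compact subgroups -/

/-- The subgroup `K` is open and compact. -/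
structure OC (K : Subgroup 𝒟.A) : Prop where
  op : ∃ U : ∀ v : Pl F, Subgroup (𝒟.L v), (∀ v, IsOpen (U v : Set (𝒟.L v))) ∧
    {v | ¬ 𝒟.B v ≤ U v}.Finite ∧ ∀ k : 𝒟.A, (∀ v, k.1 v ∈ U v) → k ∈ K
  cp : ∃ C : ∀ v : Pl F, Set (𝒟.L v), (∀ v, IsCompact (C v)) ∧
    {v | ¬ C v ⊆ (𝒟.B v : Set (𝒟.L v))}.Finite ∧ ∀ k ∈ K, ∀ v, k.1 v ∈ C v

/-- Isomorphisms of the local groups with `GL₂(F_v)` outside `S`. -/
structure Chart (𝒟 : Sys F) (S : Set (Pl F)) where
  /-- the isomorphisms -/
  e : ∀ v : {v : Pl F // v ∉ S}, 𝒟.L v.1 ≃* GQ v.1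

variable {S : Set (Pl F)}

/-- The group `K` is the product of the maximal compact subgroup at `v` given by the chart and a
group without component at `v`. -/
structure Hyp (K : Subgroup 𝒟.A) (φ : Chart 𝒟 S) (v : {v : Pl F // v ∉ S}) : Prop where
  le : ∀ k ∈ K, φ.e v (k.1 v.1) ∈ GZ v.1
  mem : ∀ k : 𝒟.L v.1, φ.e v k ∈ GZ v.1 → single v.1 k ∈ K

/-- The same for all `v` outside `S`. -/
abbrev HypOff (K : Subgroup 𝒟.A) (φ : Chart 𝒟 S) : Prop := ∀ v, Hyp K φ v

/-- The pair of a subgroup `K` and a `K`-module is unramified at `v`. -/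
structure Unram (K : Subgroup 𝒟.A) (τ : Representation O K W) (φ : Chart 𝒟 S)
    (v : {v : Pl F // v ∉ S}) : Prop where
  hyp : Hyp K φ v
  triv : ∀ (k : 𝒟.L v.1) (hk : φ.e v k ∈ GZ v.1), τ ⟨single v.1 k, hyp.mem k hk⟩ = 1

/-- The pair `(K, τ)` is unramified outside `S`. -/
abbrev UnramOff (K : Subgroup 𝒟.A) (τ : Representation O K W) (φ : Chart 𝒟 S) : Prop :=
  ∀ v, Unram K τ φ v

end Pool.Agent.CGQ
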