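import Pool.Agent.CGQ.SysOC
import Pool.Agent.CGQ.SysHecke
import Pool.Agent.CG2.CellTop
import Pool.Agent.CG2.StDefs

/-!
# The module `FF` and its maps
-/

noncomputable section

namespace Pool.Agent.CGQ

open NumberField IsDedekindDomain Pool.Agent.CG3 CategoryTheory
open Pool.Agent.CG2 (Pl GQ GZ cosets cosets_finite alpha IsCoef res LocEq cosetsInv
  cosetsInv_finite)

variable {F : Type} [Field F] [NumberField F] {𝒟 : Sys F} {S : Set (Pl F)} {Φ : Chart 𝒟 S}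
variable {O k : Type} [CommRing O] [AddCommGroup k] [Module O k]

/-- The functions on `GL₂(F)` which are finitely supported on the sets `{γ | γ y ∈ x K}`. -/
def FF (K : Subgroup 𝒟.A) (O k : Type) [CommRing O] [AddCommGroup k] [Module O k] :
    Submodule O (𝒟.G → k) where
  carrier := {f | ∀ x y : 𝒟.Pt, {γ : 𝒟.G | mkK K (act γ y) = mkK K x ∧ f γ ≠ 0}.Finite}
  add_mem' := by
    intro a b ha hb x y
    refine ((ha x y).union (hb x y)).subset ?_
    rintro γ ⟨h1, h2⟩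
    by_cases h : a γ = 0
    · right
      refine ⟨h1, fun h' => h2 ?_⟩
      rw [Pi.add_apply, h, h', add_zero]
    · left
      exact ⟨h1, h⟩
  zero_mem' := by
    intro x y
    simp
  smul_mem' := by
    intro c a ha x y
    refine (ha x y).subset ?_
    rintro γ ⟨h1, h2⟩
    refine ⟨h1, fun h' => h2 ?_⟩
    rw [Pi.smul_apply, h', smul_zero]

/-- The projection `γ ↦ γ y K`. -/
def prF (K : Subgroup 𝒟.A) (y : 𝒟.Pt) (γ : 𝒟.G) : PtK K := mkK K (act γ y)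

theorem FFmod_prF_mul {K : Subgroup 𝒟.A} (y : 𝒟.Pt) (γ δ : 𝒟.G) :
    prF K y (γ * δ) = γ • prF K y δ := by
  rw [prF, prF, smul_mkK, smul_pt, act_mul]

theorem FFmod_prF_act {K : Subgroup 𝒟.A} (y : 𝒟.Pt) (γ δ : 𝒟.G) :
    prF K (act δ y) γ = prF K y (γ * δ) := by
  rw [prF, prF, act_mul]

theorem FFmod_prF_rt {K : Subgroup 𝒟.A} (y : 𝒟.Pt) (γ : 𝒟.G) {κ : 𝒟.A} (hκ : κ ∈ K) :
    prF K (rt y κ) γ = prF K y γ := by
  rw [prF, prF, act_rt, mkK_rt _ hκ]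

/-- Membership in `FF` can be checked at one point. -/
theorem ff_iff {K : Subgroup 𝒟.A} (hK : OC K) (y : 𝒟.Pt) (f : 𝒟.G → k) :
    f ∈ FF K O k ↔ ∀ b : PtK K, {γ : 𝒟.G | prF K y γ = b ∧ f γ ≠ 0}.Finite := by
  constructor
  · intro hf b
    obtain ⟨x, rfl⟩ := mkK_surj b
    exact hf x y
  · intro hf x' y'
    obtain ⟨Φ, hΦ, hcov⟩ := hK.cover hK (y'.2⁻¹ * y.2)
    have hfin : (Set.range fun s : 𝒟.Sg => s).Finite := Set.toFinite _
    refine ((hfin.prod hΦ).biUnion (t := fun sφ => {γ : 𝒟.G |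
      prF K y γ = mkK K (sφ.1, x'.2 * sφ.2) ∧ f γ ≠ 0}) (fun sφ _ => hf _)).subset ?_
    rintro γ ⟨h1, h2⟩
    obtain ⟨κ, hκ, h3⟩ := mkK_eq.1 h1.symm
    obtain ⟨φ, hφ, κ', hκ', h4⟩ := hcov κ hκ
    refine Set.mem_iUnion₂.2 ⟨(𝒟.sgn γ * y.1, φ), ⟨⟨_, rfl⟩, hφ⟩, ?_, h2⟩
    rw [prF, eq_comm, mkK_eq]
    refine ⟨κ', hκ', ?_⟩
    have h5 : diag γ * y'.2 = x'.2 * κ := congrArg Prod.snd h3
    refine Prod.ext rfl ?_
    change diag γ * y.2 = x'.2 * φ * κ'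
    rw [mul_assoc, ← h4, ← mul_assoc, ← h5]
    group

theorem ff_coef {K : Subgroup 𝒟.A} (hK : OC K) (y : 𝒟.Pt) :
    IsCoef (Γ := 𝒟.G) (prF K y) (FF K O k) := by
  refine ⟨fun γ δ => FFmod_prF_mul y γ δ, ?_, ?_⟩
  · intro γ f hf
    rw [ff_iff hK y]
    intro b
    refine (((ff_iff hK y f).1 hf (γ⁻¹ • b)).image (fun δ => γ * δ)).subset ?_
    rintro δ ⟨h1, h2⟩
    refine ⟨γ⁻¹ * δ, ⟨?_, h2⟩, by simp⟩
    rw [FFmod_prF_mul, h1]
  · intro f
    constructor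
    · intro hf b
      rw [ff_iff hK y]
      intro b'
      refine ((ff_iff hK y f).1 hf b').subset ?_
      rintro δ ⟨h1, h2⟩
      refine ⟨h1, fun h3 => h2 ?_⟩
      rw [res, h3, ite_self]
    · intro hf
      rw [ff_iff hK y]
      intro b
      refine ((ff_iff hK y _).1 (hf b) b).subset ?_
      rintro δ ⟨h1, h2⟩
      refine ⟨h1, ?_⟩
      rw [res, if_pos h1]
      exact h2

/-- Right translation by `h`. -/
def rhoLin (K : Subgroup 𝒟.A) (O k : Type) [CommRing O] [AddCommGroup k] [Module O k]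
    (h : 𝒟.G) : FF K O k →ₗ[O] FF K O k where
  toFun f := ⟨fun γ => f.1 (γ * h), by
    intro x y
    refine (((f.2 x (act h⁻¹ y))).image (fun δ => δ * h⁻¹)).subset ?_
    rintro δ ⟨h1, h2⟩
    refine ⟨δ * h, ⟨?_, h2⟩, by simp⟩
    rw [← act_mul, mul_inv_cancel_right]
    exact h1⟩
  map_add' _ _ := rfl
  map_smul' _ _ := rfl

theorem rhoLin_loc {K : Subgroup 𝒟.A} (h : 𝒟.G) (y : 𝒟.Pt) :
    LocEq (Γ := 𝒟.G) (prF K y) (FF K O k) (prF K (act h y)) (FF K O k) (rhoLin K O k h) := by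
  constructor
  · intro b f hf γ hγ
    rw [FFmod_prF_act] at hγ
    exact hf _ hγ
  · intro γ f g hg δ
    change g.1 (δ * h) = f.1 ((γ⁻¹ * δ) * h)
    rw [hg, mul_assoc]
    rfl

theorem FFmod_supp {K : Subgroup 𝒟.A} (y x : 𝒟.Pt) (f : FF K O k) :
    (Function.support fun γ : 𝒟.G =>
      (open Classical in if prF K y γ = mkK K x then f.1 γ else 0)).Finite := by
  classical
  refine (f.2 x y).subset ?_
  intro γ hγ
  rw [Function.mem_support] at hγ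
  by_cases h : prF K y γ = mkK K x
  · rw [if_pos h] at hγ
    exact ⟨h, hγ⟩
  · rw [if_neg h] at hγ
    exact absurd rfl hγ

/-- Summation over the fibres: `(π_y f)(x) = ∑_{γ y ∈ x K} f(γ)`. -/
def piLin (K : Subgroup 𝒟.A) (O k : Type) [CommRing O] [AddCommGroup k] [Module O k]
    (y : 𝒟.Pt) : FF K O k →ₗ[O] Forms K (triv K O k) where
  toFun f := ⟨fun x => ∑ᶠ γ : 𝒟.G, (open Classical in if prF K y γ = mkK K x then f.1 γ else 0),
    by
      intro x κ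
      change (∑ᶠ γ : 𝒟.G, (open Classical in if prF K y γ = mkK K (rt x κ.1) then f.1 γ else 0)) =
        (∑ᶠ γ : 𝒟.G, (open Classical in if prF K y γ = mkK K x then f.1 γ else 0))
      rw [mkK_rt x κ.2]⟩
  map_add' := by
    classical
    intro f g
    apply Subtype.ext
    funext x
    change (∑ᶠ γ : 𝒟.G, if prF K y γ = mkK K x then f.1 γ + g.1 γ else 0) =
      (∑ᶠ γ : 𝒟.G, if prF K y γ = mkK K x then f.1 γ else 0) +
      (∑ᶠ γ : 𝒟.G, if prF K y γ = mkK K x then g.1 γ else 0)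
    rw [← finsum_add_distrib (FFmod_supp y x f) (FFmod_supp y x g)]
    refine finsum_congr fun γ => ?_
    by_cases h : prF K y γ = mkK K x
    · simp only [if_pos h]
    · simp only [if_neg h, add_zero]
  map_smul' := by
    classical
    intro c f
    apply Subtype.ext
    funext x
    change (∑ᶠ γ : 𝒟.G, if prF K y γ = mkK K x then c • f.1 γ else 0) =
      c • (∑ᶠ γ : 𝒟.G, if prF K y γ = mkK K x then f.1 γ else 0)
    rw [smul_finsum' _ (FFmod_supp y x f)]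
    refine finsum_congr fun γ => ?_
    by_cases h : prF K y γ = mkK K x
    · simp only [if_pos h]
    · simp only [if_neg h, smul_zero]

open Classical in
theorem FFmod_pi_apply {K : Subgroup 𝒟.A} (y : 𝒟.Pt) (f : FF K O k) (x : 𝒟.Pt) :
    (piLin K O k y f).1 x = ∑ᶠ γ : 𝒟.G, (if prF K y γ = mkK K x then f.1 γ else 0) := rfl

theorem piLin_loc {K : Subgroup 𝒟.A} (y : 𝒟.Pt) :
    LocEq (Γ := 𝒟.G) (prF K y) (FF K O k) (mkK K) (Forms K (triv K O k)) (piLin K O k y) := by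
  classical
  constructor
  · intro b f hf x hx
    rw [FFmod_pi_apply]
    rw [finsum_congr (g := fun _ => 0), finsum_zero]
    intro γ
    by_cases h : prF K y γ = mkK K x
    · rw [if_pos h, hf γ (h.trans hx)]
    · rw [if_neg h]
  · intro γ f g hg x
    rw [FFmod_pi_apply, FFmod_pi_apply]
    rw [← finsum_comp_equiv (Equiv.mulLeft γ)]
    refine finsum_congr fun δ => ?_
    rw [Equiv.coe_mulLeft, FFmod_prF_mul, hg]
    have h1 : γ⁻¹ • (γ * δ) = δ := inv_mul_cancel_left γ δ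
    rw [h1]
    have h2 : (γ • prF K y δ = mkK K x) ↔ prF K y δ = mkK K (γ⁻¹ • x) := by
      rw [← smul_mkK, eq_inv_smul_iff]
    by_cases h : γ • prF K y δ = mkK K x
    · rw [if_pos h, if_pos (h2.1 h)]
    · rw [if_neg h, if_neg (fun h' => h (h2.2 h'))]

theorem piLin_rho {K : Subgroup 𝒟.A} (h : 𝒟.G) (y : 𝒟.Pt) (f : FF K O k) :
    piLin K O k (act h y) (rhoLin K O k h f) = piLin K O k y f := by
  classical
  apply Subtype.ext
  funext x
  rw [FFmod_pi_apply, FFmod_pi_apply, ← finsum_comp_equiv (Equiv.mulRight h)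
    (f := fun γ => if prF K y γ = mkK K x then f.1 γ else 0)]
  refine finsum_congr fun δ => ?_
  rw [Equiv.coe_mulRight, FFmod_prF_act]
  rfl

theorem piLin_rt {K : Subgroup 𝒟.A} (y : 𝒟.Pt) {κ : 𝒟.A} (hκ : κ ∈ K) :
    piLin K O k (rt y κ) = piLin K O k y := by
  classical
  apply LinearMap.ext
  intro f
  apply Subtype.ext
  funext x
  rw [FFmod_pi_apply, FFmod_pi_apply]
  refine finsum_congr fun δ => ?_
  rw [FFmod_prF_rt _ _ hκ]

/-- The cosets in the double coset of `a`. -/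
def FFmod_D (v : Pl F) (a : GQ v) : Set (GQ v ⧸ GZ v) :=
  {c | ∃ k ∈ GZ v, c = ((k * a : GQ v) : GQ v ⧸ GZ v)}

theorem FFmod_half {K : Subgroup 𝒟.A} {v : {v : Pl F // v ∉ S}} (hK : Hyp K Φ v)
    (a : GQ v.1) (z x : 𝒟.Pt)
    (h : ∃ c ∈ FFmod_D v.1 a, mkK K z = mkK K (rt x (sg Φ v (Quotient.out c)))) :
    ∃ c ∈ FFmod_D v.1 a⁻¹, mkK K (rt z (sg Φ v (Quotient.out c))) = mkK K x := by
  obtain ⟨c, ⟨m, hm, rfl⟩, h1⟩ := h
  obtain ⟨u, hu⟩ := QuotientGroup.mk_out_eq_mul (GZ v.1) (m * a)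
  have hu' : Quotient.out (((m * a : GQ v.1) : GQ v.1 ⧸ GZ v.1)) = m * a * u := hu
  rw [hu'] at h1
  obtain ⟨κ, hκ, h2⟩ := mkK_eq.1 h1
  set b : GQ v.1 := Φ.e v (κ.1 v.1) with hb
  have hbZ : b ∈ GZ v.1 := hK.le _ hκ
  set κ₁ : 𝒟.A := (sg Φ v b)⁻¹ * κ with hκ₁
  have hκ₁v : κ₁.1 v.1 = 1 := by
    rw [hκ₁, Subgroup.coe_mul, Pi.mul_apply, Subgroup.coe_inv, Pi.inv_apply, sg_apply,
      single_same, hb, MulEquiv.symm_apply_apply, inv_mul_cancel]
  have hκ₁K : κ₁ ∈ K := K.mul_mem (K.inv_mem (hK.sg_mem hbZ)) hκ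
  have hκe : κ = sg Φ v b * κ₁ := by rw [hκ₁, mul_inv_cancel_left]
  have hcomm : ∀ g : GQ v.1, κ₁ * sg Φ v g = sg Φ v g * κ₁ := fun g => single_comm' _ hκ₁v
  refine ⟨((b * (u : GQ v.1)⁻¹ * a⁻¹ : GQ v.1) : GQ v.1 ⧸ GZ v.1),
    ⟨b * (u : GQ v.1)⁻¹, (GZ v.1).mul_mem hbZ ((GZ v.1).inv_mem u.2), rfl⟩, ?_⟩
  obtain ⟨w, hw⟩ := QuotientGroup.mk_out_eq_mul (GZ v.1) (b * (u : GQ v.1)⁻¹ * a⁻¹)
  have hw' : Quotient.out (((b * (u : GQ v.1)⁻¹ * a⁻¹ : GQ v.1) : GQ v.1 ⧸ GZ v.1)) =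
    b * (u : GQ v.1)⁻¹ * a⁻¹ * w := hw
  rw [hw', eq_comm, mkK_eq]
  refine ⟨sg Φ v (m * w) * κ₁⁻¹, K.mul_mem (hK.sg_mem ((GZ v.1).mul_mem hm w.2))
    (K.inv_mem hκ₁K), ?_⟩
  have h3 : z = rt x (sg Φ v (m * a * u) * κ⁻¹) := by
    rw [rt_mul, h2, ← rt_mul, mul_inv_cancel, rt_one]
  have hcomm' : ∀ g : GQ v.1, κ₁⁻¹ * sg Φ v g = sg Φ v g * κ₁⁻¹ := by
    intro g
    rw [inv_mul_eq_iff_eq_mul, ← mul_assoc, hcomm, mul_assoc, mul_inv_cancel, mul_one]
  rw [h3, ← rt_mul]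
  congr 1
  rw [hκe, _root_.mul_inv_rev, ← map_inv]
  have h5 : sg Φ v (m * a * ↑u) * (κ₁⁻¹ * sg Φ v b⁻¹) * sg Φ v (b * (↑u)⁻¹ * a⁻¹ * ↑w) =
      sg Φ v (m * a * u) * κ₁⁻¹ * (sg Φ v b⁻¹ * sg Φ v (b * (↑u)⁻¹ * a⁻¹ * ↑w)) := by
    simp only [mul_assoc]
  rw [h5, ← map_mul, mul_assoc, hcomm', ← mul_assoc, ← map_mul]
  congr 2
  group

theorem FFmod_iff {K : Subgroup 𝒟.A} {v : {v : Pl F // v ∉ S}} (hK : Hyp K Φ v)
    (j : Fin 3) (z x : 𝒟.Pt) :
    (∃ c ∈ (cosets_finite v.1 j).toFinset, mkK K z = mkK K (rt x (sg Φ v (Quotient.out c)))) ↔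
    ∃ c ∈ (cosetsInv_finite v.1 j).toFinset,
      mkK K (rt z (sg Φ v (Quotient.out c))) = mkK K x := by
  simp only [Set.Finite.mem_toFinset]
  constructor
  · intro h
    exact FFmod_half hK (alpha v.1 j) z x h
  · rintro ⟨c, hc, h⟩
    obtain ⟨c', hc', h'⟩ := FFmod_half hK (alpha v.1 j)⁻¹ x z ⟨c, hc, h.symm⟩
    rw [inv_inv] at hc'
    exact ⟨c', hc', h'.symm⟩

theorem FFmod_uniq {K : Subgroup 𝒟.A} {v : {v : Pl F // v ∉ S}} (hK : Hyp K Φ v)
    (x : 𝒟.Pt) (c c' : GQ v.1 ⧸ GZ v.1)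
    (h : mkK K (rt x (sg Φ v (Quotient.out c))) = mkK K (rt x (sg Φ v (Quotient.out c')))) :
    c = c' := by
  obtain ⟨κ, hκ, h1⟩ := mkK_eq.1 h
  rw [← rt_mul] at h1
  have h2 : x.2 * sg Φ v (Quotient.out c') = x.2 * (sg Φ v (Quotient.out c) * κ) :=
    congrArg Prod.snd h1
  have h3 := mul_left_cancel h2
  have h4 := congrArg (Φ.e v) (congrFun (congrArg Subtype.val h3) v.1)
  rw [Subgroup.coe_mul, Pi.mul_apply, map_mul, sg_at, sg_at] at h4
  have h5 := hK.le _ hκ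
  rw [← QuotientGroup.out_eq' c, ← QuotientGroup.out_eq' c', QuotientGroup.eq]
  have h6 : (Quotient.out c)⁻¹ * Quotient.out c' = Φ.e v (κ.1 v.1) := by
    rw [h4, inv_mul_cancel_left]
  rw [h6]
  exact h5

open Classical in
theorem FFmod_sum {ι : Type} (s : Finset ι) (P : ι → Prop)
    (h : ∀ i ∈ s, ∀ j ∈ s, P i → P j → i = j) (a : k) :
    (∑ i ∈ s, if P i then a else 0) = if ∃ i ∈ s, P i then a else 0 := by
  by_cases hex : ∃ i ∈ s, P i
  · rw [if_pos hex]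
    obtain ⟨i, hi, hP⟩ := hex
    rw [Finset.sum_eq_single_of_mem i hi, if_pos hP]
    intro j hj hne
    exact if_neg fun hPj => hne (h j hj i hi hPj hP)
  · rw [if_neg hex]
    exact Finset.sum_eq_zero fun i hi => if_neg fun hP => hex ⟨i, hi, hP⟩

/-- The Hecke operators. -/
theorem piLin_hecke {K : Subgroup 𝒟.A} (hK : HypOff K Φ) (y : 𝒟.Pt)
    (t : Idx S) (f : FF K O k) : heckeLin K (triv K O k) (unram_triv hK) t (piLin K O k y f) =
      ∑ c ∈ (cosetsInv_finite t.1.1 t.2).toFinset,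
        piLin K O k (rt y (sg Φ t.1 (Quotient.out c))) f := by
  classical
  obtain ⟨v, j⟩ := t
  apply Subtype.ext
  funext x
  have h1 : (heckeLin K (triv K O k) (unram_triv hK) (v, j) (piLin K O k y f)).1 x =
      ∑ c ∈ (cosets_finite v.1 j).toFinset,
        (piLin K O k y f).1 (rt x (sg Φ v (Quotient.out c))) := rfl
  have h2 : (∑ c ∈ (cosetsInv_finite v.1 j).toFinset,
      piLin K O k (rt y (sg Φ v (Quotient.out c))) f).1 x =
      ∑ c ∈ (cosetsInv_finite v.1 j).toFinset,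
        (piLin K O k (rt y (sg Φ v (Quotient.out c))) f).1 x := by
    rw [AddSubmonoidClass.coe_finset_sum, Finset.sum_apply]
  refine h1.trans (Eq.trans ?_ h2.symm)
  simp only [FFmod_pi_apply]
  have h5 := finsum_sum_comm (cosets_finite v.1 j).toFinset
    (fun (γ : 𝒟.G) c => if prF K y γ = mkK K (rt x (sg Φ v (Quotient.out c))) then f.1 γ else 0)
    (fun c _ => FFmod_supp y (rt x (sg Φ v (Quotient.out c))) f)
  have h6 := finsum_sum_comm (cosetsInv_finite v.1 j).toFinset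
    (fun (γ : 𝒟.G) c => if prF K (rt y (sg Φ v (Quotient.out c))) γ = mkK K x then f.1 γ else 0)
    (fun c _ => FFmod_supp (rt y (sg Φ v (Quotient.out c))) x f)
  refine h5.symm.trans (Eq.trans ?_ h6)
  refine finsum_congr fun γ => ?_
  rw [FFmod_sum, FFmod_sum]
  · have h3 := FFmod_iff (hK v) j (act γ y) x
    have h4 : (∃ c ∈ (cosets_finite v.1 j).toFinset,
        prF K y γ = mkK K (rt x (sg Φ v (Quotient.out c)))) ↔
        ∃ c ∈ (cosetsInv_finite v.1 j).toFinset,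
          prF K (rt y (sg Φ v (Quotient.out c))) γ = mkK K x := by
      simp only [prF, act_rt]
      exact h3
    by_cases h : ∃ c ∈ (cosets_finite v.1 j).toFinset,
        prF K y γ = mkK K (rt x (sg Φ v (Quotient.out c)))
    · rw [if_pos h, if_pos (h4.1 h)]
    · rw [if_neg h, if_neg fun h' => h (h4.2 h')]
  · intro c _ c' _ hc hc'
    apply FFmod_uniq (hK v) (act γ y)
    rw [← act_rt, ← act_rt]
    exact hc.trans hc'.symm
  · intro c _ c' _ hc hc'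
    exact FFmod_uniq (hK v) x c c' (hc.symm.trans hc')

end Pool.Agent.CGQ
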