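import Pool.Agent.CGQ.GalDefs

/-!
# Power residues and Frobenius elements
-/

noncomputable section

set_option linter.unusedSectionVars false

namespace Pool.Agent.CGQ

open NumberField IsDedekindDomain Pool.Agent.CG2 Pool.Agent.CG2.GalFinAux
  Pool.Agent.CG2.GalInfAux

variable {F : Type} [Field F] [NumberField F]

/-- **RO**. Roots of unity of order prime to the residue characteristic are distinct modulo `Q`.

PROOF. Let `z ≠ 1`, of order `d ∣ n`, `d > 1`. `1 + z + ... + z ^ (d - 1) = 0` (`geom_sum`), and all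
`z ^ i ≡ 1` modulo `Q`, so `d ∈ Q`, so `n ∈ Q`, contradiction. -/
theorem root_one {Q : Ideal (Zbar F)} {n : ℕ} (hn : ((n : ℕ) : Zbar F) ∉ Q) {z : Zbar F}
    (hz : z ^ n = 1) (h : z - 1 ∈ Q) : z = 1 := by
  by_contra hne
  have h1 : (∑ i ∈ Finset.range n, z ^ i) * (z - 1) = 0 := by
    rw [geom_sum_mul, hz, sub_self]
  have h2 : ∑ i ∈ Finset.range n, z ^ i = 0 := by
    rcases mul_eq_zero.1 h1 with h3 | h3
    · exact h3
    · exact absurd (sub_eq_zero.1 h3) hne
  have h3 : ∑ i ∈ Finset.range n, (z ^ i - 1) ∈ Q := by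
    refine Q.sum_mem fun i _ => ?_
    obtain ⟨c, hc⟩ := sub_one_dvd_pow_sub_one z i
    rw [hc]
    exact Q.mul_mem_right _ h
  rw [Finset.sum_sub_distrib, h2, Finset.sum_const, Finset.card_range, nsmul_eq_mul, mul_one,
    zero_sub, neg_mem_iff] at h3
  exact hn h3

private theorem GalPR_range {k R : Type} [CommRing k] [Finite k] [CommRing R] [IsDomain R]
    (f : k →+* R) (hf : Function.Injective f) {N : ℕ} (hN : 1 < N) (hcard : Nat.card k = N)
    (hk : ∀ a : k, a ^ N = a) {x : R} (hx : x ^ N = x) : ∃ a, f a = x := by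
  classical
  have := Fintype.ofFinite k
  let P : Polynomial R := Polynomial.X ^ N - Polynomial.X
  have hdeg : P.natDegree = N := by
    rw [Polynomial.natDegree_sub_eq_left_of_natDegree_lt, Polynomial.natDegree_X_pow]
    rw [Polynomial.natDegree_X, Polynomial.natDegree_X_pow]
    exact hN
  have hP0 : P ≠ 0 := by
    intro h
    rw [h, Polynomial.natDegree_zero] at hdeg
    omega
  have hsub : Finset.univ.image f ⊆ P.roots.toFinset := by
    intro y hy
    obtain ⟨a, -, rfl⟩ := Finset.mem_image.1 hy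
    rw [Multiset.mem_toFinset, Polynomial.mem_roots hP0]
    simp [P, ← map_pow, hk]
  have hc1 : (Finset.univ.image f).card = N := by
    rw [Finset.card_image_of_injective _ hf, Finset.card_univ, ← Nat.card_eq_fintype_card, hcard]
  have hc2 : P.roots.toFinset.card ≤ N := by
    refine (Multiset.toFinset_card_le _).trans ((Polynomial.card_roots' P).trans ?_)
    rw [hdeg]
  have heq := Finset.eq_of_subset_of_card_le hsub (by rw [hc1]; exact hc2)
  have hxm : x ∈ Finset.univ.image f := by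
    rw [heq, Multiset.mem_toFinset, Polynomial.mem_roots hP0]
    simp [P, hx]
  obtain ⟨a, -, ha⟩ := Finset.mem_image.1 hxm
  exact ⟨a, ha⟩

/-- **HP**. Power residues and Frobenius elements.

PROOF. Let `R = Zbar F ⧸ Q`, a domain.
`n ∣ Nm v - 1`: take a primitive `n`-th root of unity `ζ` (an element of `Zbar F`); `g ζ = ζ`, so
`ζ - ζ ^ Nm v ∈ Q`, `ζ` is a unit: `ζ ^ (Nm v - 1) - 1 ∈ Q`, and `root_one` gives
`ζ ^ (Nm v - 1) = 1`. (`(n : Zbar F) ∉ Q` from `hvn`, `Over`.)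
`u` is an `n`-th power: `α ∈ Zbar F`, `α - α ^ Nm v ∈ Q`. The polynomial `X ^ Nm v - X` has at
most `Nm v` roots in `R` and the images of the `Nm v` elements of `𝓞 L ⧸ w` (which embeds in
`R`; `Nm w = Nm v`) are roots, so there is `y : 𝓞 L` with `inc y - α ∈ Q`. So
`inc (u - y ^ n) ∈ Q`, that is `u - y ^ n ∈ w`.
`e` is not: let `e - y ^ n ∈ w`. `z := g θ / θ` is an `n`-th root of unity, `z ≠ 1`, `θ` is a unit of
`Zbar F`; `z θ - θ ^ Nm v ∈ Q` gives `z - θ ^ (Nm v - 1) ∈ Q`, and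
`θ ^ (Nm v - 1) = e ^ ((Nm v - 1) / n) ≡ y ^ (Nm v - 1) ≡ 1` modulo `Q` (`y ∉ w` because `e` is a
unit, and `y ^ Nm w ≡ y` modulo `w`). So `z - 1 ∈ Q`, `z = 1` by `root_one`, contradiction. -/
theorem power_residues {L : Type} [Field L] [NumberField L] [Algebra F L]
    [Algebra L (Fbar F)] [IsScalarTower F L (Fbar F)]
    {n : ℕ} (hn : 0 < n) (u e : (𝓞 L)ˣ) {v : Pl F} (hvn : ((n : ℕ) : 𝓞 F) ∉ v.asIdeal)
    {Q : Ideal (Zbar F)} (hQ : Over v Q) {g : GalF F} (hg : IsFrob v Q g)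
    (hgμ : ∀ z : Fbar F, z ^ n = 1 → g z = z) {α θ : Fbar F}
    (hα : α ^ n = algebraMap L (Fbar F) ((u : 𝓞 L) : L)) (hgα : g α = α)
    (hθ : θ ^ n = algebraMap L (Fbar F) ((e : 𝓞 L) : L)) (hge : g (θ ^ n) = θ ^ n)
    (hgθ : g θ ≠ θ) {w : Pl L} (hw : Q.comap (inc F L) = w.asIdeal) (hNw : Nm w = Nm v) :
    n ∣ Nm v - 1 ∧ (∃ y : 𝓞 L, (u : 𝓞 L) - y ^ n ∈ w.asIdeal) ∧
      ¬ ∃ y : 𝓞 L, (e : 𝓞 L) - y ^ n ∈ w.asIdeal := by
  classical
  have hQp : Q.IsPrime := hQ.1
  have hn0 : NeZero n := ⟨hn.ne'⟩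
  have hnc : NeZero ((n : ℕ) : Fbar F) := ⟨by exact_mod_cast hn.ne'⟩
  have hnQ : ((n : ℕ) : Zbar F) ∉ Q := by
    intro h
    apply hvn
    rw [← comap_prime_eq hQ, Ideal.mem_comap, map_natCast]
    exact h
  have hNv : 1 < Nm v := two_le_N v
  have hint : ∀ {x : Fbar F} {t : 𝓞 L}, x ^ n = algebraMap L (Fbar F) (t : L) → IsIntegral ℤ x := by
    intro x t hx
    apply IsIntegral.of_pow hn
    rw [hx]
    exact (RingOfIntegers.isIntegral_coe t).algebraMap
  -- the divisibility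
  have hdvd : n ∣ Nm v - 1 := by
    obtain ⟨ζ, hζ⟩ := HasEnoughRootsOfUnity.exists_primitiveRoot (Fbar F) n
    have hζi : IsIntegral ℤ ζ := by
      apply IsIntegral.of_pow hn
      rw [hζ.pow_eq_one]
      exact isIntegral_one
    have h1 := hg ⟨ζ, hζi⟩ ⟨ζ, hζi⟩ (hgμ ζ hζ.pow_eq_one).symm
    set z : Zbar F := ⟨ζ, hζi⟩ with hz
    have hzn : z ^ n = 1 := Subtype.ext hζ.pow_eq_one
    have h2 : z ^ (Nm v - 1) - 1 ∈ Q := by
      have h3 : z ^ (n - 1) * (z - z ^ Nm v) ∈ Q := Q.mul_mem_left _ h1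
      have h4 : z ^ (n - 1) * (z - z ^ Nm v) = -(z ^ (Nm v - 1) - 1) := by
        have h5 : z ^ Nm v = z * z ^ (Nm v - 1) := by
          rw [← pow_succ']
          congr 1
          omega
        have h6 : z ^ (n - 1) * z = 1 := by
          rw [← pow_succ, Nat.sub_add_cancel hn, hzn]
        rw [h5, mul_sub, ← mul_assoc, h6]
        ring
      rw [h4, neg_mem_iff] at h3
      exact h3
    have h3 := root_one hnQ (z := z ^ (Nm v - 1)) (by
      rw [← pow_mul, mul_comm, pow_mul, hzn, one_pow]) h2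
    have h4 : ζ ^ (Nm v - 1) = 1 := congrArg Subtype.val h3
    exact hζ.dvd_of_pow_eq_one _ h4
  have hfinw : Finite (𝓞 L ⧸ w.asIdeal) := finite_quot w
  have hpoww : ∀ a : 𝓞 L ⧸ w.asIdeal, a ^ Nm v = a := by
    intro a
    have hmax := w.isMaximal
    let _ := Ideal.Quotient.field w.asIdeal
    let _ := Fintype.ofFinite (𝓞 L ⧸ w.asIdeal)
    have h1 : Nm v = Fintype.card (𝓞 L ⧸ w.asIdeal) := by
      rw [← Nat.card_eq_fintype_card, ← absNorm_eq_card]
      exact hNw.symm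
    rw [h1]
    exact FiniteField.pow_card a
  refine ⟨hdvd, ?_, ?_⟩
  · -- `u` is a power
    have hαi : IsIntegral ℤ α := hint hα
    have h1 := hg ⟨α, hαi⟩ ⟨α, hαi⟩ hgα.symm
    set a : Zbar F := ⟨α, hαi⟩ with ha
    have hdom : IsDomain (Zbar F ⧸ Q) := inferInstance
    let f : (𝓞 L ⧸ w.asIdeal) →+* (Zbar F ⧸ Q) :=
      Ideal.quotientMap Q (inc F L) hw.ge
    have hf : Function.Injective f := Ideal.quotientMap_injective' hw.le
    obtain ⟨b, hb⟩ := GalPR_range f hf hNv (by rw [← absNorm_eq_card]; exact hNw) hpoww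
      (x := Ideal.Quotient.mk Q a) (by
        rw [← map_pow, eq_comm, Ideal.Quotient.eq]
        exact h1)
    obtain ⟨y, rfl⟩ := Ideal.Quotient.mk_surjective b
    refine ⟨y, ?_⟩
    have h2 : inc F L y - a ∈ Q := by
      rw [← Ideal.Quotient.eq]
      exact hb
    rw [← hw, Ideal.mem_comap, map_sub, map_pow]
    have h3 : inc F L (u : 𝓞 L) = a ^ n := Subtype.ext hα.symm
    rw [h3]
    obtain ⟨c, hc⟩ := sub_dvd_pow_sub_pow a (inc F L y) n
    rw [hc]
    refine Q.mul_mem_right _ ?_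
    rw [← neg_mem_iff, neg_sub]
    exact h2
  · -- `e` is not
    rintro ⟨y, hy⟩
    have hθi : IsIntegral ℤ θ := hint hθ
    have he0 : ((e : 𝓞 L) : L) ≠ 0 := by
      have := e.ne_zero
      exact_mod_cast this
    have hθ0 : θ ≠ 0 := by
      rintro rfl
      rw [zero_pow hn.ne'] at hθ
      exact he0 ((map_eq_zero _).1 hθ.symm)
    set z := g θ / θ with hz
    have hzn : z ^ n = 1 := by
      rw [hz, div_pow, ← map_pow, hge, div_self (pow_ne_zero _ hθ0)]
    have hzi : IsIntegral ℤ z := by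
      apply IsIntegral.of_pow hn
      rw [hzn]
      exact isIntegral_one
    have hzθ : z * θ = g θ := div_mul_cancel₀ _ hθ0
    set t : Zbar F := ⟨θ, hθi⟩ with ht
    set z' : Zbar F := ⟨z, hzi⟩ with hz'
    have h1 := hg t (z' * t) hzθ
    have hte : t ^ n = inc F L (e : 𝓞 L) := Subtype.ext hθ
    have hinv : (t ^ (n - 1) * inc F L ((e⁻¹ : (𝓞 L)ˣ) : 𝓞 L)) * t = 1 := by
      rw [mul_assoc, mul_comm (inc F L _) t, ← mul_assoc, ← pow_succ, Nat.sub_add_cancel hn, hte,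
        ← map_mul, Units.mul_inv, map_one]
    have h2 : z' - t ^ (Nm v - 1) ∈ Q := by
      have h3 := Q.mul_mem_left (t ^ (n - 1) * inc F L ((e⁻¹ : (𝓞 L)ˣ) : 𝓞 L)) h1
      have h4 : t ^ Nm v = t * t ^ (Nm v - 1) := by
        rw [← pow_succ']
        congr 1
        omega
      have h5 : (t ^ (n - 1) * inc F L ((e⁻¹ : (𝓞 L)ˣ) : 𝓞 L)) * (z' * t - t ^ Nm v) =
          z' - t ^ (Nm v - 1) := by
        rw [h4]
        linear_combination (z' - t ^ (Nm v - 1)) * hinv
      rwa [h5] at h3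
    obtain ⟨k, hk⟩ := hdvd
    have hyw : y ∉ w.asIdeal := by
      intro h
      apply w.isPrime.ne_top
      have h3 : (e : 𝓞 L) ∈ w.asIdeal := by
        have := w.asIdeal.add_mem hy (w.asIdeal.pow_mem_of_mem h n hn)
        rwa [sub_add_cancel] at this
      exact Ideal.eq_top_of_isUnit_mem _ h3 e.isUnit
    have hyN : y ^ (Nm v - 1) - 1 ∈ w.asIdeal := by
      have h3 := hpoww (Ideal.Quotient.mk _ y)
      rw [← map_pow, Ideal.Quotient.eq] at h3
      have h4 : y ^ Nm v - y = y * (y ^ (Nm v - 1) - 1) := by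
        rw [mul_sub, ← pow_succ', mul_one]
        congr 2
        omega
      rw [h4] at h3
      exact (w.isPrime.mem_or_mem h3).resolve_left hyw
    have h6 : inc F L (y ^ (Nm v - 1) - 1) ∈ Q := by
      rw [← Ideal.mem_comap, hw]
      exact hyN
    have h7 : inc F L ((e : 𝓞 L) ^ k - (y ^ n) ^ k) ∈ Q := by
      rw [← Ideal.mem_comap, hw]
      obtain ⟨c, hc⟩ := sub_dvd_pow_sub_pow (e : 𝓞 L) (y ^ n) k
      rw [hc]
      exact w.asIdeal.mul_mem_right _ hy
    have h8 : z' - 1 ∈ Q := by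
      have h9 := Q.add_mem (Q.add_mem h2 h7) h6
      have h10 : z' - t ^ (Nm v - 1) + inc F L ((e : 𝓞 L) ^ k - (y ^ n) ^ k) +
          inc F L (y ^ (Nm v - 1) - 1) = z' - 1 := by
        rw [hk, pow_mul t, hte, ← pow_mul y, map_sub, map_sub, map_pow, map_one]
        ring
      rwa [h10] at h9
    have h11 := root_one hnQ (z := z') (Subtype.ext hzn) h8
    have h12 : z = 1 := congrArg Subtype.val h11
    apply hgθ
    rw [← hzθ, h12, one_mul]

end Pool.Agent.CGQ
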