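import Pool.Agent.CGQ.GalDefs

/-!
# Only finitely many places are ramified; places from densities
-/

noncomputable section

set_option linter.unusedSectionVars false

namespace Pool.Agent.CGQ

open NumberField IsDedekindDomain Pool.Agent.CG2 Pool.Agent.CG2.GalFinAux
  Pool.Agent.CG2.GalInfAux

/-- **UN**.

PROOF. `Gal(N/F)` is finite. For `σ ≠ 1` in `Gal(N/F)` there is `x : 𝓞 N` with `σ • x ≠ x`
(fractions of integers). If `v` is not `UnramAt N` there are `P` over `v` and `σ ≠ 1` with
`σ • x - x ∈ P.asIdeal` for this `x`, so `P` is one of the finitely many places containing the non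
zero element `σ • x - x` (`Ideal.finite_factors` for `Ideal.span {σ • x - x}`), and
`v = below F P` (`lies_iff`). -/
theorem unram_cofinite (F N : Type) [Field F] [NumberField F] [Field N] [NumberField N]
    [Algebra F N] : {v : Pl F | ¬ UnramAt N v}.Finite := by
  classical
  have hex : ∀ σ : Gal(N/F), σ ≠ 1 → ∃ x : 𝓞 N, σ • x - x ≠ 0 := by
    intro σ hσ
    by_contra h
    push Not at h
    apply hσ
    ext z
    obtain ⟨x, y, hy, rfl⟩ := IsFractionRing.div_surjective (A := 𝓞 N) z
    have h1 : ∀ x : 𝓞 N, σ (x : N) = (x : N) := by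
      intro x
      have h2 := h x
      rw [sub_eq_zero] at h2
      exact congrArg (fun u : 𝓞 N => (u : N)) h2
    change σ ((x : N) / (y : N)) = (x : N) / (y : N)
    rw [map_div₀, h1, h1]
  choose! x hx using hex
  have hfin : ∀ σ : Gal(N/F), σ ≠ 1 → {P : Pl N | σ • x σ - x σ ∈ P.asIdeal}.Finite := by
    intro σ hσ
    have h1 : Ideal.span {σ • x σ - x σ} ≠ 0 := by
      intro h
      exact hx σ hσ (Ideal.span_singleton_eq_bot.1 h)
    refine (Ideal.finite_factors h1).subset ?_
    intro P hP
    change P.asIdeal ∣ _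
    rw [Ideal.dvd_iff_le, Ideal.span_le, Set.singleton_subset_iff]
    exact hP
  have : Finite Gal(N/F) := inferInstance
  refine (((Set.toFinite {σ : Gal(N/F) | σ ≠ 1}).biUnion
    (fun σ hσ => hfin σ hσ)).image (below F)).subset ?_
  intro v hv
  change ¬ UnramAt N v at hv
  unfold UnramAt at hv
  push Not at hv
  obtain ⟨P, hP, σ, h1, h2⟩ := hv
  refine ⟨P, ?_, GalFinAux.lies_iff.1 hP⟩
  rw [Set.mem_iUnion₂]
  exact ⟨σ, h2, h1 (x σ)⟩

/-- A set of places with a positive density contains a place outside every finite set.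

PROOF. `GalDensAux.Ds_finite`: for a finite set `Ds` is bounded on `(1, 2]`; `HasDen A c` with
`c > 0` is unbounded. (If `A ⊆ T` then `Ds A s ≤ Ds T s ≤ C`, `Ds_mono`.) -/
theorem exists_of_hasDen {F : Type} [Field F] [NumberField F] {A T : Set (Pl F)} {c : ℝ}
    (hc : 0 < c) (hA : HasDen A c) (hT : T.Finite) : ∃ v ∈ A, v ∉ T := by
  by_contra h
  push Not at h
  obtain ⟨C, hC⟩ := hA
  obtain ⟨C', hC'⟩ := GalDensAux.Ds_finite T hT
  set M : ℝ := (|C| + |C'| + 1) / c with hM
  have hMpos : 0 < M := by positivity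
  have hs : 1 + Real.exp (-M) ∈ Set.Ioc (1 : ℝ) 2 := by
    constructor
    · have := Real.exp_pos (-M)
      linarith
    · have : Real.exp (-M) ≤ 1 := Real.exp_le_one_iff.2 (by linarith)
      linarith
  have h1 := hC _ hs
  have h2 := hC' _ hs
  have h3 := GalDensAux.Ds_mono (F := F) h hs.1
  have h4 : Real.log (1 / (1 + Real.exp (-M) - 1)) = M := by
    rw [add_sub_cancel_left, one_div, ← Real.exp_neg, neg_neg, Real.log_exp]
  rw [h4] at h1
  have h5 : c * M = |C| + |C'| + 1 := by
    rw [hM]
    field_simp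
  rw [h5] at h1
  have h6 := (abs_le.1 h1).1
  have h7 := (abs_le.1 h2).2
  have h8 := le_abs_self C
  have h9 := le_abs_self C'
  linarith

/-- One may restrict to places of prime norm.

PROOF. `HasDen.congr`: the set in its hypothesis is empty. -/
theorem HasDen.prime_norm {F : Type} [Field F] [NumberField F] {A : Set (Pl F)} {c : ℝ}
    (hA : HasDen A c) : HasDen {v | v ∈ A ∧ (Ideal.absNorm v.asIdeal).Prime} c := by
  refine hA.congr ?_
  convert Set.finite_empty
  ext v
  simp only [Set.mem_ofPred_eq, Set.mem_empty_iff_false, iff_false]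
  tauto

end Pool.Agent.CGQ
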