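import Pool.Agent.CGQ.GalDefs

/-!
# Open subgroups
-/

noncomputable section

set_option linter.unusedSectionVars false

namespace Pool.Agent.CGQ

open NumberField IsDedekindDomain Pool.Agent.CG2 Pool.Agent.CG2.GalFinAux
  Pool.Agent.CG2.GalInfAux

variable {F : Type} [Field F] [NumberField F] {L : Type} [Field L] [NumberField L] [Algebra F L]
  [Algebra L (Fbar F)] [IsScalarTower F L (Fbar F)]

private theorem so_roots {n : ℕ} (hn : 0 < n) (c : Fbar F) : {x : Fbar F | x ^ n = c}.Finite := by
  classical
  refine (Polynomial.nthRoots n c).toFinset.finite_toSet.subset fun x hx => ?_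
  rw [Finset.mem_coe, Multiset.mem_toFinset, Polynomial.mem_nthRoots hn]
  exact hx

private theorem so_fix {s : Set (Fbar F)} (hs : s.Finite) :
    IsOpen ((IntermediateField.adjoin F s).fixingSubgroup : Set (GalF F)) := by
  have hs' : Finite s := hs.to_subtype
  have : FiniteDimensional F (IntermediateField.adjoin F s) :=
    IntermediateField.finiteDimensional_adjoin
      (fun x _ => (Algebra.IsAlgebraic.isAlgebraic (R := F) x).isIntegral)
  exact IntermediateField.fixingSubgroup_isOpen _

/-- **SO**. `HZ` and `HMu` are open.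

PROOF. They contain the fixing subgroup of the finite extension of `F` generated by a finite set:
a basis of `L` over `F` (or a primitive element), the finitely many `n`-th roots of unity, of `u` and of
`e` (`0 < n`). `IntermediateField.fixingSubgroup_isOpen`, `Subgroup.isOpen_mono`. -/
theorem HZ_open {n : ℕ} (hn : 0 < n) (u e : L) : IsOpen (HZ (F := F) n u e : Set (GalF F)) := by
  classical
  have hfL : FiniteDimensional F L := Module.Finite.of_restrictScalars_finite ℚ F L
  let b := Module.finBasis F L
  let s : Set (Fbar F) := Set.range (fun i => algebraMap L (Fbar F) (b i)) ∪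
    ({x | x ^ n = 1} ∪ ({x | x ^ n = algebraMap L (Fbar F) u} ∪
      {x | x ^ n = algebraMap L (Fbar F) e}))
  have hs : s.Finite := (Set.finite_range _).union ((so_roots hn _).union
    ((so_roots hn _).union (so_roots hn _)))
  refine Subgroup.isOpen_mono (H₁ := (IntermediateField.adjoin F s).fixingSubgroup) ?_ (so_fix hs)
  intro g hg
  rw [IntermediateField.mem_fixingSubgroup_iff] at hg
  have hgs : ∀ x ∈ s, g x = x := fun x hx => hg x (IntermediateField.subset_adjoin F s hx)
  rw [mem_HZ]
  refine ⟨fun x => ?_, fun z hz => hgs z (Or.inr (Or.inl hz)),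
    fun z hz => hgs z (Or.inr (Or.inr (Or.inl hz))), fun z hz => hgs z (Or.inr (Or.inr (Or.inr hz)))⟩
  have h1 : algebraMap L (Fbar F) x = ∑ i, b.repr x i • algebraMap L (Fbar F) (b i) := by
    conv_lhs => rw [← b.sum_repr x]
    rw [map_sum]
    refine Finset.sum_congr rfl fun i _ => ?_
    rw [Algebra.smul_def, map_mul, ← IsScalarTower.algebraMap_apply, Algebra.smul_def]
  rw [h1, map_sum]
  refine Finset.sum_congr rfl fun i _ => ?_
  rw [Algebra.smul_def, map_mul, AlgEquiv.commutes, hgs _ (Or.inl ⟨i, rfl⟩)]

theorem HMu_open {n : ℕ} (hn : 0 < n) : IsOpen (HMu F n : Set (GalF F)) := by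
  refine Subgroup.isOpen_mono
    (H₁ := (IntermediateField.adjoin F {x : Fbar F | x ^ n = 1}).fixingSubgroup) ?_
    (so_fix (so_roots hn 1))
  intro g hg
  rw [IntermediateField.mem_fixingSubgroup_iff] at hg
  rw [mem_HMu]
  exact fun z hz => hg z (IntermediateField.subset_adjoin F _ hz)

/-- **SF**. The fixed field of an open normal subgroup.

PROOF. See the beginning of the proof of `frob_density` in `CG2/GalInf.lean`. -/
theorem fixedField_open (H : Subgroup (GalF F)) (hH : IsOpen (H : Set (GalF F))) [H.Normal] :
    FiniteDimensional F (IntermediateField.fixedField H) ∧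
      IsGalois F (IntermediateField.fixedField H) ∧
      (IntermediateField.fixedField H).fixingSubgroup = H ∧
      ∀ g : GalF F, (∀ x ∈ IntermediateField.fixedField H, g x = x) ↔ g ∈ H := by
  have hHc : IsClosed (H : Set (GalF F)) := H.isClosed_of_isOpen hH
  have hfix : (IntermediateField.fixedField H).fixingSubgroup = H :=
    InfiniteGalois.fixingSubgroup_fixedField ⟨H, hHc⟩
  refine ⟨?_, ?_, hfix, fun g => ?_⟩
  · rw [← InfiniteGalois.isOpen_iff_finite, hfix]
    exact hH
  · exact (InfiniteGalois.normal_iff_isGalois _).1 (by rw [hfix]; infer_instance)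
  · conv_rhs => rw [← hfix]
    rw [IntermediateField.mem_fixingSubgroup_iff]

end Pool.Agent.CGQ
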