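import Mathlib

/-!
# Irreducibility of cyclotomic polynomials over number fields
-/

noncomputable section

set_option linter.unusedSectionVars false

namespace Pool.Agent.CGQ

open NumberField Polynomial

private theorem CY_not_mem_sq {K : Type} [Field K] [NumberField K] {q : ℕ} (hq : q.Prime)
    (hd : ¬ (q : ℤ) ∣ discr K) :
    ∃ P : Ideal (𝓞 K), P.IsPrime ∧ (q : 𝓞 K) ∈ P ∧ (q : 𝓞 K) ∉ P ^ 2 := by
  have hq' : Prime (q : ℤ) := Nat.prime_iff_prime_int.1 hq
  have hall := (NumberField.not_dvd_discr_iff_forall_mem K (𝓞 K) hq').1 hd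
  have hmax : (Ideal.span {(q : ℤ)}).IsMaximal :=
    PrincipalIdealRing.isMaximal_of_irreducible hq'.irreducible
  obtain ⟨P, hP, hPq⟩ := Ideal.exists_maximal_ideal_liesOver_of_isIntegral
    (Ideal.span {(q : ℤ)}) (S := 𝓞 K)
  have hPp : P.IsPrime := hP.isPrime
  have hqP : ((q : ℤ) : 𝓞 K) ∈ P := (Ideal.liesOver_span_iff hPp.ne_top hq').1 hPq
  have hun : Algebra.IsUnramifiedAt ℤ P := hall P hPp hqP
  refine ⟨P, hPp, by exact_mod_cast hqP, ?_⟩
  intro h2
  let := Localization.AtPrime.algebraOfLiesOver (Ideal.span {(q : ℤ)}) P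
  have h3 := ((Algebra.isUnramifiedAt_iff_map_eq ℤ (Ideal.span {(q : ℤ)}) P).mp hun).2
  have hle : (Ideal.span {(q : ℤ)}).map (algebraMap ℤ (𝓞 K)) ≤ P := by
    rw [Ideal.map_span, Ideal.span_le]
    simpa using hqP
  have hPbot : P ≠ ⊥ := by
    rintro rfl
    rw [Ideal.mem_bot] at hqP
    have : (q : ℤ) = 0 := by exact_mod_cast hqP
    exact hq'.ne_zero this
  have h4 := Ideal.ramificationIdx'_eq_one_of_map_localization hle hPbot
    (Ideal.primeCompl_le_nonZeroDivisors P) h3
  have h5 : (Ideal.span {(q : ℤ)}).map (algebraMap ℤ (𝓞 K)) ≤ P ^ 2 := by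
    rw [Ideal.map_span, Ideal.span_le]
    simpa using h2
  exact (Ideal.ramificationIdx'_ne_one_iff hle).2 h5 h4

/-- **CY**. The cyclotomic polynomial of a prime `q` is irreducible over a number field whose
discriminant is not divisible by `q`.

PROOF. Choose a prime ideal `P` of `𝓞 K` containing `q`. By
`NumberField.not_dvd_discr_iff_forall_mem` `P` is unramified over `ℤ`, so `q ∉ P ^ 2`. The polynomial
`(cyclotomic q (𝓞 K)).comp (X + 1)` is monic, all its other coefficients are divisible by `q`
and its constant coefficient is `q` (Mathlib: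
`cyclotomic_comp_X_add_one_isEisensteinAt` over `ℤ`, mapped to `𝓞 K`), so it is Eisenstein at
`P`: irreducible over `𝓞 K` (`Polynomial.IsEisensteinAt.irreducible`), hence over `K` by Gauss
(`Polynomial.Monic.irreducible_iff_irreducible_map_fraction_map`). (Other possibility:
`linearDisjoint_of_isGalois_isCoprime_discr`.) -/
theorem cyc_irr {K : Type} [Field K] [NumberField K] {q : ℕ} (hq : q.Prime)
    (hd : ¬ (q : ℤ) ∣ discr K) : Irreducible (cyclotomic q K) := by
  have : Fact q.Prime := ⟨hq⟩
  obtain ⟨P, hP, hqP, hq2⟩ := CY_not_mem_sq hq hd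
  have hE := cyclotomic_comp_X_add_one_isEisensteinAt q
  let f : (𝓞 K)[X] := (cyclotomic q (𝓞 K)).comp (X + 1)
  have hf : f = ((cyclotomic q ℤ).comp (X + 1)).map (Int.castRingHom (𝓞 K)) := by
    simp only [f]
    rw [map_comp, map_cyclotomic]
    simp
  have hfm : f.Monic := by
    have : f = (cyclotomic q (𝓞 K)).comp (X + C 1) := by simp [f]
    rw [this]
    refine (cyclotomic.monic q (𝓞 K)).comp (monic_X_add_C 1) fun h => ?_
    rw [natDegree_X_add_C] at h
    exact zero_ne_one h.symm
  have hdeg : f.natDegree = ((cyclotomic q ℤ).comp (X + 1)).natDegree := by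
    rw [hf]
    apply natDegree_map_eq_of_injective
    exact Int.cast_injective
  have hfE : f.IsEisensteinAt P := by
    apply Monic.isEisensteinAt_of_mem_of_notMem hfm hP.ne_top
    · intro n hn
      rw [hdeg] at hn
      have h1 := hE.mem hn
      rw [hf, coeff_map]
      rw [Submodule.mem_span_singleton] at h1
      obtain ⟨a, ha⟩ := h1
      rw [← ha]
      simp only [smul_eq_mul, map_mul, eq_intCast, Int.cast_natCast]
      exact P.mul_mem_left _ hqP
    · have h1 : f.coeff 0 = (q : 𝓞 K) := by
        rw [coeff_zero_eq_eval_zero]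
        simp only [f, eval_comp, cyclotomic_prime, eval_add, eval_X, eval_one, zero_add,
          eval_geom_sum, one_geom_sum]
      rw [h1]
      exact hq2
  have hdeg' : 0 < f.natDegree := by
    rw [hdeg, natDegree_comp, show (X + 1 : ℤ[X]) = X + C 1 by simp, natDegree_X_add_C, mul_one,
      natDegree_cyclotomic, Nat.totient_prime hq]
    have := hq.two_le
    omega
  have hirr : Irreducible f := hfE.irreducible hP hfm.isPrimitive hdeg'
  have h6 : Irreducible (f.map (algebraMap (𝓞 K) K)) :=
    (hfm.irreducible_iff_irreducible_map_fraction_map).1 hirr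
  have h7 : f.map (algebraMap (𝓞 K) K) = (cyclotomic q K).comp (X + C 1) := by
    simp only [f]
    rw [map_comp, map_cyclotomic]
    simp
  rw [h7] at h6
  -- undo the translation
  have h8 : (cyclotomic q K) = ((cyclotomic q K).comp (X + C 1)).comp (X - C 1) := by
    rw [comp_assoc]
    simp
  have h9 : algEquivAevalXAddC (1 : K) (cyclotomic q K) = (cyclotomic q K).comp (X + C 1) := by
    simp [algEquivAevalXAddC, aeval_def, comp, eval₂_eq_eval_map]
  rw [← h9] at h6
  exact (MulEquiv.irreducible_iff (algEquivAevalXAddC (1 : K))).1 h6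

end Pool.Agent.CGQ
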