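import Pool.Agent.CGQ.GalDefs
import Pool.Agent.CGQ.GalCy

/-!
# Cyclotomic extensions of prime conductor disjoint from a given field
-/

noncomputable section

set_option linter.unusedSectionVars false

namespace Pool.Agent.CGQ

open NumberField IsDedekindDomain Pool.Agent.CG2 Pool.Agent.CG2.GalFinAux
  Pool.Agent.CG2.GalInfAux

/-- **CL**.

PROOF. `Nat.exists_prime_gt_modEq_one` (or `Nat.forall_exists_prime_gt_and_eq_mod`) gives a prime
`q > max B |discr N₁|` with `q ≡ 1` modulo `n`. `ζ` and `ζ ^ a` are both roots of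
`cyclotomic q`, which is irreducible over `N₁` (`cyc_irr`), so it is the minimal polynomial of both
over `N₁`, and there is an automorphism of `Fbar F` over `N₁` with `ζ ↦ ζ ^ a`
(`IntermediateField.exists_algHom_of_splits_of_aeval`, `minpoly.exists_algEquiv_of_root` for the
normal extension `Fbar F / N₁`); restrict its scalars to `F`. -/
theorem exists_lam {F : Type} [Field F] [NumberField F] (N₁ : IntermediateField F (Fbar F))
    [FiniteDimensional F N₁] (n B : ℕ) (hn : 0 < n) :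
    ∃ q : ℕ, q.Prime ∧ n ∣ q - 1 ∧ B < q ∧ ∀ ζ : Fbar F, IsPrimitiveRoot ζ q →
      ∀ a : ℕ, a.Coprime q → ∃ g : GalF F, (∀ x ∈ N₁, g x = x) ∧ g ζ = ζ ^ a := by
  have hNF : NumberField N₁ :=
    { to_charZero := inferInstance
      to_finiteDimensional := FiniteDimensional.trans ℚ F N₁ }
  obtain ⟨q, hq, hqB, hqn⟩ := Nat.exists_prime_gt_modEq_one (k := n)
    (max B (discr N₁).natAbs) hn.ne'
  have hd : ¬ (q : ℤ) ∣ discr N₁ := by
    intro h
    have h1 := Int.natAbs_dvd_natAbs.2 h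
    rw [Int.natAbs_natCast] at h1
    have h2 := Nat.le_of_dvd (Int.natAbs_pos.2 (discr_ne_zero N₁)) h1
    have := le_max_right B (discr N₁).natAbs
    omega
  refine ⟨q, hq, (Nat.modEq_iff_dvd' hq.one_le).1 hqn.symm, lt_of_le_of_lt (le_max_left _ _) hqB,
    fun ζ hζ a ha => ?_⟩
  have hirr := cyc_irr (K := N₁) hq hd
  have : NeZero q := ⟨hq.ne_zero⟩
  have hmin : ∀ ξ : Fbar F, IsPrimitiveRoot ξ q →
      minpoly N₁ ξ = Polynomial.cyclotomic q N₁ := by
    intro ξ hξ
    symm
    apply minpoly.eq_of_irreducible_of_monic hirr _ (Polynomial.cyclotomic.monic q N₁)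
    rw [← Polynomial.eval_map_algebraMap, Polynomial.map_cyclotomic]
    exact hξ.isRoot_cyclotomic hq.pos
  have hζa : IsPrimitiveRoot (ζ ^ a) q := hζ.pow_of_coprime a ha
  have hnorm : Normal N₁ (Fbar F) := inferInstance
  have h1 : minpoly N₁ ζ = minpoly N₁ (ζ ^ a) := (hmin ζ hζ).trans (hmin _ hζa).symm
  obtain ⟨g, hg⟩ := (Normal.minpoly_eq_iff_mem_orbit (F := N₁) (E := Fbar F)).1 h1.symm
  refine ⟨g.restrictScalars F, fun x hx => ?_, hg⟩
  exact g.commutes ⟨x, hx⟩

end Pool.Agent.CGQ
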