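import Pool.Agent.CGQ.GalDefs

/-!
# Conjugation on roots
-/

noncomputable section

set_option linter.unusedSectionVars false

namespace Pool.Agent.CGQ

open NumberField IsDedekindDomain Pool.Agent.CG2 Pool.Agent.CG2.GalFinAux
  Pool.Agent.CG2.GalInfAux

variable {F : Type} [Field F] [NumberField F] {L : Type} [Field L] [NumberField L] [Algebra F L]
  [Algebra L (Fbar F)] [IsScalarTower F L (Fbar F)]

/-- **SC**. The conjugation relation on the roots of `t`.

PROOF. Let `y = c⁻¹ x`: `y ^ n = cL⁻¹ t = t⁻¹`. `x * y` is an `n`-th root of unity `z`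
(`(x y) ^ n = t t⁻¹`), fixed by `c` and `a`. `a x = ξ x` with `ξ ^ n = 1`. `a y = a (z x⁻¹) = z ξ⁻¹ x⁻¹ = ξ⁻¹ y`,
`c (a y) = ξ⁻¹ x` and `a⁻¹ x = ξ⁻¹ x`. -/
theorem conj_root {n : ℕ} (hn : 0 < n) {t : L} {cL : Gal(L/F)} (ht : cL t * t = 1) {c a : GalF F}
    (hcL : ActsL cL c) (hcμ : TrivMu n c) (haL : TrivL L a) (haμ : TrivMu n a) {x : Fbar F}
    (hx : x ^ n = algebraMap L (Fbar F) t) : (c * a * c⁻¹) x = a⁻¹ x := by
  have ht0 : t ≠ 0 := by
    rintro rfl
    rw [mul_zero] at ht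
    exact zero_ne_one ht
  have hx0 : x ≠ 0 := by
    rintro rfl
    rw [zero_pow hn.ne'] at hx
    exact ht0 ((map_eq_zero _).1 hx.symm)
  obtain ⟨y, hy⟩ : ∃ y, c y = x := c.surjective x
  have hcy : c⁻¹ x = y := by
    rw [← hy]
    exact c.symm_apply_apply y
  have hy0 : y ≠ 0 := by
    rintro rfl
    rw [map_zero] at hy
    exact hx0 hy.symm
  -- the power of y
  have hyn : y ^ n * x ^ n = 1 := by
    have h1 : c (algebraMap L (Fbar F) (cL.symm t)) = algebraMap L (Fbar F) t := by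
      rw [hcL, AlgEquiv.apply_symm_apply]
    have h2 : c (y ^ n) = algebraMap L (Fbar F) t := by rw [map_pow, hy, hx]
    have h3 : y ^ n = algebraMap L (Fbar F) (cL.symm t) := c.injective (h2.trans h1.symm)
    have h4 : cL.symm t * t = 1 := by
      have h5 := congrArg cL.symm ht
      rw [map_mul, AlgEquiv.symm_apply_apply, map_one, mul_comm] at h5
      exact h5
    rw [h3, hx, ← map_mul, h4, map_one]
  have hz : (y * x) ^ n = 1 := by rw [mul_pow, hyn]
  have haz : a (y * x) = y * x := haμ _ hz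
  -- the root of unity ξ
  have hξn : (a x * x⁻¹) ^ n = 1 := by
    rw [mul_pow, ← map_pow, hx, haL t, inv_pow, hx, mul_inv_cancel₀]
    rw [← hx]
    exact pow_ne_zero _ hx0
  have haξ : a (a x * x⁻¹) = a x * x⁻¹ := haμ _ hξn
  have hcξ : c (a x * x⁻¹) = a x * x⁻¹ := hcμ _ hξn
  have hax0 : a x ≠ 0 := by
    intro h
    exact hx0 ((map_eq_zero a).1 h)
  have hay : a y = (a x * x⁻¹)⁻¹ * y := by
    rw [map_mul] at haz
    field_simp
    rw [haz, mul_comm]
  have hl : (c * a * c⁻¹) x = (a x * x⁻¹)⁻¹ * x := by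
    change c (a (c⁻¹ x)) = _
    rw [hcy, hay, map_mul, map_inv₀, hcξ, hy]
  rw [hl]
  change _ = a.symm x
  rw [AlgEquiv.eq_symm_apply, map_mul, map_inv₀, haξ]
  field_simp

end Pool.Agent.CGQ
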