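import Pool.Agent.CGQ.GalDefs

/-!
# Automorphisms and the quadratic field
-/

noncomputable section

set_option linter.unusedSectionVars false

namespace Pool.Agent.CGQ

open NumberField IsDedekindDomain Pool.Agent.CG2 Pool.Agent.CG2.GalFinAux
  Pool.Agent.CG2.GalInfAux

variable {F : Type} [Field F] [NumberField F] {L : Type} [Field L] [NumberField L] [Algebra F L]
  [Algebra L (Fbar F)] [IsScalarTower F L (Fbar F)]

/-- **SQ**. Every automorphism acts on the quadratic field `L` as `1` or as `cL`.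

PROOF. `L` is normal over `F` (degree 2, `IsGalois.of_separable...`, `Module.finrank F L = 2`), so
`g` maps the image of `L` in `Fbar` to itself (`AlgHom.fieldRange_of_normal` for the two maps
`algebraMap` and `g ∘ algebraMap`), so it induces an element of `Gal(L/F)`, a group of order 2, equal
to `1` or `cL`. -/
theorem trivL_or_actsL (hL : Module.finrank F L = 2) {cL : Gal(L/F)} (hcL : cL ≠ 1)
    (g : GalF F) : TrivL L g ∨ ActsL cL g := by
  classical
  have hfd : FiniteDimensional F L := Module.finite_of_finrank_pos (by rw [hL]; norm_num)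
  have hquad : Algebra.IsQuadraticExtension F L := ⟨hL⟩
  have hgal : IsGalois F L := inferInstance
  have hcard : Nat.card Gal(L/F) = 2 := by rw [IsGalois.card_aut_eq_finrank, hL]
  have := Fintype.ofFinite Gal(L/F)
  set g' : Gal(L/F) := AlgEquiv.restrictNormal g L with hg'
  have hcomm : ∀ x : L, algebraMap L (Fbar F) (g' x) = g (algebraMap L (Fbar F) x) :=
    fun x => AlgEquiv.restrictNormal_commutes g L x
  have hcase : g' = 1 ∨ g' = cL := by
    by_contra hcon
    rw [not_or] at hcon
    have h1 : ({1, cL, g'} : Finset Gal(L/F)).card = 3 := by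
      rw [Finset.card_eq_three]
      exact ⟨1, cL, g', fun h => hcL h.symm, fun h => hcon.1 h.symm, fun h => hcon.2 h.symm, rfl⟩
    have h2 := Finset.card_le_univ ({1, cL, g'} : Finset Gal(L/F))
    rw [h1, ← Nat.card_eq_fintype_card, hcard] at h2
    omega
  rcases hcase with h | h
  · left
    intro x
    rw [← hcomm, h]
    rfl
  · right
    intro x
    rw [← hcomm, h]

/-- **SN**. `HZ` is a normal subgroup if `u` and `e` are inverted by `cL`.

PROOF. Let `a ∈ HZ`, `g ∈ GalF F`. `g⁻¹` maps `L` to `L` (`trivL_or_actsL`), the `n`-th roots of unity to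
`n`-th roots of unity, and a root `x` of `X ^ n - u` to a root `y` of `X ^ n - u` or (if `g⁻¹` acts
as `cL`) of `X ^ n - u⁻¹`; in the second case `y⁻¹` is a root of `X ^ n - u`; in both cases `a y = y`. -/
theorem HZ_normal (hL : Module.finrank F L = 2) {cL : Gal(L/F)} (hcL : cL ≠ 1) {n : ℕ}
    {u e : L} (hu : cL u * u = 1) (he : cL e * e = 1) : (HZ (F := F) n u e).Normal := by
  classical
  have key : ∀ (t : L), cL t * t = 1 → ∀ a : GalF F, TrivRoot n t a → ∀ g : GalF F,
      ∀ x : Fbar F, x ^ n = algebraMap L (Fbar F) t → (g * a * g⁻¹) x = x := by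
    intro t ht a ha g x hx
    have ht0 : t ≠ 0 := by
      rintro rfl
      rw [mul_zero] at ht
      exact zero_ne_one ht
    have hgg : ∀ y : Fbar F, g (g⁻¹ y) = y := fun y => g.apply_symm_apply y
    change g (a (g⁻¹ x)) = x
    have hgx : (g⁻¹ x) ^ n = g⁻¹ (algebraMap L (Fbar F) t) := by rw [← map_pow, hx]
    rcases trivL_or_actsL hL hcL g⁻¹ with h | h
    · rw [h t] at hgx
      rw [ha _ hgx, hgg]
    · rw [h t] at hgx
      have h1 : ((g⁻¹ x)⁻¹) ^ n = algebraMap L (Fbar F) t := by
        rw [inv_pow, hgx, ← map_inv₀, eq_inv_of_mul_eq_one_left ht, inv_inv]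
      have h2 := ha _ h1
      rw [map_inv₀, inv_inj] at h2
      rw [h2, hgg]
  refine ⟨fun a ha g => ?_⟩
  obtain ⟨h1, h2, h3, h4⟩ := mem_HZ.1 ha
  have hgg : ∀ y : Fbar F, g (g⁻¹ y) = y := fun y => g.apply_symm_apply y
  refine mem_HZ.2 ⟨fun x => ?_, fun z hz => ?_, key u hu a h3 g, key e he a h4 g⟩
  · change g (a (g⁻¹ _)) = _
    rcases trivL_or_actsL hL hcL g⁻¹ with h | h
    · have h5 : g⁻¹ (algebraMap L (Fbar F) x) = algebraMap L (Fbar F) x := h x
      rw [h5, h1, ← h5, hgg, h5]
    · have h5 : g⁻¹ (algebraMap L (Fbar F) x) = algebraMap L (Fbar F) (cL x) := h x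
      rw [h5, h1, ← h5, hgg]
  · change g (a (g⁻¹ z)) = z
    have h5 : (g⁻¹ z) ^ n = 1 := by rw [← map_pow, hz, map_one]
    rw [h2 _ h5, hgg]


end Pool.Agent.CGQ
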