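import Pool.Agent.CGQ.GalLam
import Pool.Agent.CGQ.GalSQ
import Pool.Agent.CGQ.GalSO
import Pool.Agent.CGQ.GalSC

/-!
# The elements tau and c and the auxiliary prime
-/

noncomputable section

set_option linter.unusedSectionVars false

namespace Pool.Agent.CGQ

open NumberField IsDedekindDomain Pool.Agent.CG2 Pool.Agent.CG2.GalFinAux
  Pool.Agent.CG2.GalInfAux

variable {F : Type} [Field F] [NumberField F] {L : Type} [Field L] [NumberField L] [Algebra F L]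
  {κ : Type} [Field κ] [Algebra L (Fbar F)] [IsScalarTower F L (Fbar F)]

private theorem TAU_adj {q : ℕ} (hq : q.Prime) {ζ : Fbar F} (hζ : IsPrimitiveRoot ζ q)
    (H : Subgroup (GalF F)) (hlam : ∀ a : ℕ, a.Coprime q → ∃ h ∈ H, h ζ = ζ ^ a) (g : GalF F) :
    ∃ h ∈ H, (g * h) ζ = ζ := by
  have : Fact q.Prime := ⟨hq⟩
  have h1 : IsPrimitiveRoot (g ζ) q := hζ.map_of_injective (f := g.toRingHom) g.injective
  obtain ⟨b, hb, hb'⟩ := hζ.eq_pow_of_pow_eq_one h1.pow_eq_one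
  have hbc : b.Coprime q := by
    rw [← hb'] at h1
    exact (hζ.pow_iff_coprime hq.pos b).1 h1
  let b' : ℕ := ((ZMod.unitOfCoprime b hbc)⁻¹ : (ZMod q)ˣ).val.val
  have hb'c : b'.Coprime q := ZMod.val_coe_unit_coprime _
  obtain ⟨h, hh, hhζ⟩ := hlam b' hb'c
  refine ⟨h, hh, ?_⟩
  rw [AlgEquiv.mul_apply, hhζ, map_pow, ← hb', ← pow_mul]
  have h2 : b * b' ≡ 1 [MOD q] := by
    rw [← ZMod.natCast_eq_natCast_iff]
    push_cast
    simp only [b', ZMod.natCast_val, ZMod.cast_id', id_eq]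
    have := Units.mul_inv (ZMod.unitOfCoprime b hbc)
    rwa [ZMod.coe_unitOfCoprime] at this
  rw [pow_eq_pow_of_modEq h2 hζ.pow_eq_one, pow_one]

private theorem TAU_mu {q : ℕ} {ζ : Fbar F} (hq : 0 < q) (hζ : IsPrimitiveRoot ζ q) {g : GalF F}
    (hg : g ζ = ζ) : TrivMu q g := by
  intro z hz
  have : NeZero q := ⟨hq.ne'⟩
  obtain ⟨b, hb, rfl⟩ := hζ.eq_pow_of_pow_eq_one hz
  rw [map_pow, hg]

/-- The roots of `t` are the products of roots of unity with one root. -/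
private theorem TAU_root {n : ℕ} {t x₀ x : Fbar F} (ht : t ≠ 0) (h0 : x₀ ^ n = t) (hn : 0 < n)
    (hx : x ^ n = t) : ∃ ω : Fbar F, ω ^ n = 1 ∧ x = ω * x₀ := by
  have hx0 : x₀ ≠ 0 := by
    rintro rfl
    rw [zero_pow hn.ne'] at h0
    exact ht h0.symm
  refine ⟨x / x₀, ?_, ?_⟩
  · rw [div_pow, hx, h0, div_self ht]
  · rw [div_mul_cancel₀ _ hx0]

private theorem TAU_pow_apply {a : GalF F} {x z : Fbar F} (h1 : a x = z * x) (h2 : a z = z)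
    (k : ℕ) : (a ^ k) x = z ^ k * x := by
  induction k with
  | zero => simp
  | succ k ih =>
    rw [pow_succ', AlgEquiv.mul_apply, ih, map_mul, map_pow, h2, h1]
    ring

private theorem TAU_pow_zeta {a : GalF F} {ζ : Fbar F} {γ : ℕ} (h : a ζ = ζ ^ γ) (k : ℕ) :
    (a ^ k) ζ = ζ ^ (γ ^ k) := by
  induction k with
  | zero => simp
  | succ k ih =>
    rw [pow_succ', AlgEquiv.mul_apply, ih, map_pow, h, ← pow_mul, pow_succ']

private theorem TAU_mul_inv (a : GalF F) (x : Fbar F) : a⁻¹ (a x) = x := by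
  rw [← AlgEquiv.mul_apply, inv_mul_cancel]
  rfl

private theorem TAU_inv_of {a : GalF F} {x : Fbar F} (h : a x = x) : a⁻¹ x = x := by
  conv_lhs => rw [← h]
  exact TAU_mul_inv a x

/-- **ET**. The elements `τ` and `c'` and the auxiliary prime `q`.

PROOF. Let `H = ρ.ker ⊓ HZ n u e`, open and normal (`HZ_open`, `HZ_normal`), `N₁` its fixed field
(`fixedField_open`: an automorphism is trivial on `N₁` iff it is in `H`). `exists_lam N₁ m 0` gives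
`q` with `m ∣ q - 1`. Let `ζ` be a primitive `q`-th root of unity, `γ : ℕ` prime to `q` whose class in
`(ZMod q)ˣ` (cyclic of order `q - 1`) has order `m`, and `lam` trivial on `N₁` with `lam ζ = ζ ^ γ`.
(ADJ) for every `g : GalF F` there is `g'` with `g'⁻¹ * g ∈ H` and `g' ζ = ζ`: `g ζ = ζ ^ b`, `b` prime to
`q`; take `lam'` trivial on `N₁` with `lam' ζ = ζ ^ b'`, `b b' ≡ 1` modulo `q`; `g' = g * lam'`.
Apply (ADJ) to `σ₀`, `s`, `c`: `σ₀'`, `s'`, `c'`, and put `τ = σ₀' * s' * lam`.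
`ρ τ = ρ s` (`ρ σ₀ = 1`). `τ` is trivial on `L`, on the `n`-th roots of unity, fixes `α`; `τ θ = σ₀ θ = z θ`,
`z ^ n = 1`, `z ≠ 1`, `z ^ p = 1` (from `(σ₀ ^ p) θ = θ`), so `(τ ^ i) θ = z ^ i θ` is `θ` iff `p ∣ i`.
`(τ ^ i) ζ = ζ ^ (γ ^ i)` is `ζ` iff `γ ^ i ≡ 1` modulo `q` iff `m ∣ i`. `τ ^ (p m)` is in `ρ.ker`
(`ρ s ^ m = 1`), in `HZ` (every `n`-th root of `u` is a root of unity times `α`, same for `e` and `θ`) and
fixes `ζ`. Let `j ≡ -1` modulo `p`, `j ≡ 1` modulo `m` (`Nat.chineseRemainder`); `d = c' τ c'⁻¹ τ^(-j)`: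
`ρ d = ρ s * ρ s ^ (-j) = 1` (`ρ c' = ρ c = 1`, `ρ s ^ m = 1`); trivial on `L` and on the roots of unity;
on the `n`-th roots of `u`, `e` by `conj_root`: `(c' τ c'⁻¹) x = τ⁻¹ x` and `τ ^ j x = τ⁻¹ x` because
`τ x = ξ x` with `ξ ^ p = 1`; `d ζ = ζ` (`c' ζ = ζ`, `γ ^ j ≡ γ`). -/
theorem exists_tau {p m M : ℕ} (hp : p.Prime) (hm : 0 < m) (hpm : p.Coprime m)
    (hL : Module.finrank F L = 2) {cL : Gal(L/F)} (hcL : cL ≠ 1) {G : Type} [Group G]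
    (ρ : GalF F →* G) (hρ : IsOpen (ρ.ker : Set (GalF F))) {u e : L} (hu : cL u * u = 1)
    (he : cL e * e = 1) {α θ : Fbar F} (hα : α ^ (p ^ M) = algebraMap L (Fbar F) u)
    (hθ : θ ^ (p ^ M) = algebraMap L (Fbar F) e) {σ₀ c s : GalF F} (hσ₀ : ρ σ₀ = 1)
    (hσL : TrivL L σ₀) (hσμ : TrivMu (p ^ M) σ₀) (hσα : σ₀ α = α) (hσθ : σ₀ θ ≠ θ)
    (hσp : (σ₀ ^ p) θ = θ) (hc : ρ c = 1) (hcμ : TrivMu (p ^ M) c) (hcL' : ActsL cL c)
    (hs : s ∈ HZ (F := F) (p ^ M) u e) (hsm : ρ s ^ m = 1) :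
    ∃ (q : ℕ) (ζ : Fbar F) (τ c' : GalF F) (j : ℕ), q.Prime ∧ IsPrimitiveRoot ζ q ∧
      ρ τ = ρ s ∧ TrivL L τ ∧ TrivMu (p ^ M) τ ∧ τ α = α ∧
      (∀ i : ℕ, (τ ^ i) ζ = ζ ↔ m ∣ i) ∧ (∀ i : ℕ, (τ ^ i) θ = θ ↔ p ∣ i) ∧
      ρ (τ ^ (p * m)) = 1 ∧ τ ^ (p * m) ∈ HZ (F := F) (p ^ M) u e ∧ (τ ^ (p * m)) ζ = ζ ∧
      ActsL cL c' ∧ ρ (c' * τ * c'⁻¹ * (τ ^ j)⁻¹) = 1 ∧
      c' * τ * c'⁻¹ * (τ ^ j)⁻¹ ∈ HZ (F := F) (p ^ M) u e ∧
      (c' * τ * c'⁻¹ * (τ ^ j)⁻¹) ζ = ζ := by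
  classical
  have hn : 0 < p ^ M := pow_pos hp.pos M
  have hHZn : (HZ (F := F) (p ^ M) u e).Normal := HZ_normal hL hcL hu he
  set H : Subgroup (GalF F) := ρ.ker ⊓ HZ (F := F) (p ^ M) u e with hHdef
  have hHn : H.Normal := inferInstance
  have hHo : IsOpen (H : Set (GalF F)) := by
    rw [hHdef, Subgroup.coe_inf]
    exact hρ.inter (HZ_open hn u e)
  obtain ⟨hfd, hgal, hfix, hmemH⟩ := fixedField_open H hHo
  obtain ⟨q, hq, hmq, -, hlam⟩ := exists_lam (IntermediateField.fixedField H) m 0 hm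
  have : Fact q.Prime := ⟨hq⟩
  have : NeZero ((q : ℕ) : Fbar F) := ⟨by exact_mod_cast hq.ne_zero⟩
  obtain ⟨ζ, hζ⟩ := HasEnoughRootsOfUnity.exists_primitiveRoot (Fbar F) q
  have hlamH : ∀ a : ℕ, a.Coprime q → ∃ h ∈ H, h ζ = ζ ^ a := by
    intro a ha
    obtain ⟨g, hg, hgζ⟩ := hlam ζ hζ a ha
    exact ⟨g, (hmemH g).1 hg, hgζ⟩
  -- the unit of order m
  obtain ⟨γu, hγu⟩ : ∃ γu : (ZMod q)ˣ, orderOf γu = m := by
    obtain ⟨g, hg⟩ := IsCyclic.exists_ofOrder_eq_natCard (α := (ZMod q)ˣ)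
    have h1 : Nat.card (ZMod q)ˣ = q - 1 := by
      rw [Nat.card_eq_fintype_card, ZMod.card_units]
    rw [h1] at hg
    obtain ⟨k, hk⟩ := hmq
    refine ⟨g ^ k, ?_⟩
    have hq1 : 0 < q - 1 := by have := hq.two_le; omega
    have hk0 : k ≠ 0 := by
      rintro rfl
      omega
    rw [orderOf_pow_of_dvd hk0 (by rw [hg, hk]; exact Dvd.intro_left m rfl), hg, hk]
    exact Nat.mul_div_cancel _ (Nat.pos_of_ne_zero hk0)
  set γ : ℕ := (γu : ZMod q).val with hγ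
  have hγc : γ.Coprime q := ZMod.val_coe_unit_coprime _
  have hγcast : ((γ : ℕ) : ZMod q) = (γu : ZMod q) := by
    rw [hγ, ZMod.natCast_val, ZMod.cast_id', id_eq]
  obtain ⟨lam, hlamH', hlamζ⟩ := hlamH γ hγc
  obtain ⟨h1, hh1, h1ζ⟩ := TAU_adj hq hζ H hlamH σ₀
  obtain ⟨h2, hh2, h2ζ⟩ := TAU_adj hq hζ H hlamH s
  obtain ⟨h3, hh3, h3ζ⟩ := TAU_adj hq hζ H hlamH c
  -- elements of H
  have hHρ : ∀ h ∈ H, ρ h = 1 := fun h hh => hh.1
  have hHL : ∀ h ∈ H, TrivL L h := fun h hh => hh.2.1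
  have hHμ : ∀ h ∈ H, TrivMu (p ^ M) h := fun h hh => hh.2.2.1
  have hHu : ∀ h ∈ H, TrivRoot (p ^ M) u h := fun h hh => hh.2.2.2.1
  have hHe : ∀ h ∈ H, TrivRoot (p ^ M) e h := fun h hh => hh.2.2.2.2
  have hone : (σ₀ * h1) ∈ HOne (F := F) L (p ^ M) :=
    (HOne (F := F) L (p ^ M)).mul_mem ⟨hσL, hσμ⟩ ⟨hHL _ hh1, hHμ _ hh1⟩
  have hone2 : (s * h2) ∈ HOne (F := F) L (p ^ M) :=
    (HOne (F := F) L (p ^ M)).mul_mem ⟨hs.1, hs.2.1⟩ ⟨hHL _ hh2, hHμ _ hh2⟩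
  set τ : GalF F := (σ₀ * h1) * (s * h2) * lam with hτ
  have hτone : τ ∈ HOne (F := F) L (p ^ M) :=
    (HOne (F := F) L (p ^ M)).mul_mem ((HOne (F := F) L (p ^ M)).mul_mem hone hone2)
      ⟨hHL _ hlamH', hHμ _ hlamH'⟩
  have hτL : TrivL L τ := hτone.1
  have hτμ : TrivMu (p ^ M) τ := hτone.2
  have hρτ : ρ τ = ρ s := by
    rw [hτ, map_mul, map_mul, map_mul, map_mul, hσ₀, hHρ _ hh1, hHρ _ hh2, hHρ _ hlamH']
    simp
  have hτα : τ α = α := by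
    rw [hτ]
    simp only [AlgEquiv.mul_apply]
    rw [hHu _ hlamH' α hα, hHu _ hh2 α hα, hs.2.2.1 α hα, hHu _ hh1 α hα, hσα]
  have hτθ : τ θ = σ₀ θ := by
    rw [hτ]
    simp only [AlgEquiv.mul_apply]
    rw [hHe _ hlamH' θ hθ, hHe _ hh2 θ hθ, hs.2.2.2 θ hθ, hHe _ hh1 θ hθ]
  have hτζ : τ ζ = ζ ^ γ := by
    rw [hτ, AlgEquiv.mul_apply, hlamζ, map_pow, AlgEquiv.mul_apply, h2ζ, h1ζ]
  -- theta
  have hθ0 : θ ≠ 0 := by
    rintro rfl
    exact hσθ (map_zero _)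
  set z : Fbar F := σ₀ θ / θ with hz
  have hzθ : σ₀ θ = z * θ := by rw [hz, div_mul_cancel₀ _ hθ0]
  have he0 : algebraMap L (Fbar F) e ≠ 0 := by
    rw [← hθ]
    exact pow_ne_zero _ hθ0
  have hu0 : algebraMap L (Fbar F) u ≠ 0 := by
    intro h
    rw [map_eq_zero] at h
    rw [h, mul_zero] at hu
    exact zero_ne_one hu
  have hzn : z ^ (p ^ M) = 1 := by
    rw [hz, div_pow, ← map_pow, hθ, hσL, div_self he0]
  have hz1 : z ≠ 1 := by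
    intro h
    rw [h, one_mul] at hzθ
    exact hσθ hzθ
  have hzp : z ^ p = 1 := by
    have h4 := TAU_pow_apply hzθ (hσμ z hzn) p
    rw [hσp] at h4
    exact mul_right_cancel₀ hθ0 (by rw [one_mul]; exact h4.symm)
  have hpF : Fact p.Prime := ⟨hp⟩
  have hordz : orderOf z = p := orderOf_eq_prime hzp hz1
  have hτz : τ z = z := hτμ z hzn
  have hτθ' : τ θ = z * θ := by rw [hτθ, hzθ]
  have hτroot_u : ∀ x : Fbar F, x ^ (p ^ M) = algebraMap L (Fbar F) u → τ x = x := by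
    intro x hx
    obtain ⟨ω, hω, rfl⟩ := TAU_root hu0 hα hn hx
    rw [map_mul, hτμ ω hω, hτα]
  have hτroot_e : ∀ x : Fbar F, x ^ (p ^ M) = algebraMap L (Fbar F) e → τ x = z * x := by
    intro x hx
    obtain ⟨ω, hω, rfl⟩ := TAU_root he0 hθ hn hx
    rw [map_mul, hτμ ω hω, hτθ']
    ring
  have hτpow_u : ∀ (k : ℕ) (x : Fbar F), x ^ (p ^ M) = algebraMap L (Fbar F) u →
      (τ ^ k) x = x := by
    intro k x hx
    have := TAU_pow_apply (a := τ) (x := x) (z := 1) (by rw [one_mul]; exact hτroot_u x hx)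
      (map_one _) k
    rwa [one_pow, one_mul] at this
  have hτpow_e : ∀ (k : ℕ) (x : Fbar F), p ∣ k → x ^ (p ^ M) = algebraMap L (Fbar F) e →
      (τ ^ k) x = x := by
    intro k x hk hx
    have := TAU_pow_apply (hτroot_e x hx) hτz k
    have h9 : z ^ k = 1 := orderOf_dvd_iff_pow_eq_one.1 (by rw [hordz]; exact hk)
    rwa [h9, one_mul] at this
  have hτζi : ∀ i : ℕ, (τ ^ i) ζ = ζ ↔ m ∣ i := by
    intro i
    rw [TAU_pow_zeta hτζ, ← hγu, orderOf_dvd_iff_pow_eq_one]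
    have h5 : ζ ^ (γ ^ i) = ζ ↔ γ ^ i ≡ 1 [MOD q] := by
      constructor
      · intro h
        have h6 : ζ ^ (γ ^ i) = ζ ^ 1 := by rw [pow_one]; exact h
        rwa [hζ.eq_orderOf, ← IsOfFinOrder.pow_eq_pow_iff_modEq
          (orderOf_pos_iff.1 (by rw [← hζ.eq_orderOf]; exact hq.pos))]
      · intro h
        rw [pow_eq_pow_of_modEq h hζ.pow_eq_one, pow_one]
    rw [h5, ← ZMod.natCast_eq_natCast_iff, Nat.cast_pow, hγcast, Nat.cast_one, ← Units.val_pow_eq_pow_val,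
      Units.val_eq_one]
  obtain ⟨j, hjp, hjm⟩ := Nat.chineseRemainder hpm (p - 1) 1
  set c' : GalF F := c * h3 with hc'
  have hc'A : ActsL cL c' := by
    intro x
    rw [hc', AlgEquiv.mul_apply, hHL _ hh3, hcL']
  have hc'μ : TrivMu (p ^ M) c' := (HMu F (p ^ M)).mul_mem hcμ (hHμ _ hh3)
  have hc'ρ : ρ c' = 1 := by rw [hc', map_mul, hc, hHρ _ hh3, mul_one]
  have hc'q : TrivMu q c' := TAU_mu hq.pos hζ h3ζ
  have hc'qi : TrivMu q c'⁻¹ := (HMu F q).inv_mem hc'q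
  have hpj : p ∣ j + 1 := by
    have h4 : j + 1 ≡ p - 1 + 1 [MOD p] := hjp.add_right 1
    rw [Nat.sub_add_cancel hp.one_le] at h4
    exact (Nat.modEq_zero_iff_dvd).1 (h4.trans ((Nat.modEq_zero_iff_dvd).2 dvd_rfl))
  refine ⟨q, ζ, τ, c', j, hq, hζ, hρτ, hτL, hτμ, hτα, hτζi, ?_, ?_, ?_, ?_, hc'A, ?_, ?_, ?_⟩
  · intro i
    rw [TAU_pow_apply hτθ' hτz]
    constructor
    · intro h
      have h4 : z ^ i = 1 := mul_right_cancel₀ hθ0 (by rw [one_mul]; exact h)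
      rw [← hordz]
      exact orderOf_dvd_iff_pow_eq_one.2 h4
    · intro h
      have h9 : z ^ i = 1 := orderOf_dvd_iff_pow_eq_one.1 (by rw [hordz]; exact h)
      rw [h9, one_mul]
  · rw [map_pow, hρτ, mul_comm p m, pow_mul, hsm, one_pow]
  · have h4 := (HOne (F := F) L (p ^ M)).pow_mem hτone (p * m)
    exact ⟨h4.1, h4.2, fun x hx => hτpow_u _ x hx,
      fun x hx => hτpow_e _ x (Dvd.intro m rfl) hx⟩
  · exact (hτζi _).2 (Dvd.intro_left p rfl)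
  · rw [map_mul, map_mul, map_mul, map_inv, map_inv, map_pow, hc'ρ, hρτ,
      pow_eq_pow_of_modEq hjm hsm]
    simp
  · -- the commutator is in HZ
    have hci : ∀ x : L, c'⁻¹ (algebraMap L (Fbar F) x) = algebraMap L (Fbar F) (cL⁻¹ x) := by
      intro x
      have h4 := hc'A (cL⁻¹ x)
      have h5 : cL (cL⁻¹ x) = x := by
        rw [← AlgEquiv.mul_apply, mul_inv_cancel]
        rfl
      rw [h5] at h4
      rw [← h4, TAU_mul_inv]
    have hcjL : TrivL L (c' * τ * c'⁻¹) := by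
      intro x
      rw [AlgEquiv.mul_apply, AlgEquiv.mul_apply, hci, hτL, ← hci, ← AlgEquiv.mul_apply,
        mul_inv_cancel]
      rfl
    have hcjμ : TrivMu (p ^ M) (c' * τ * c'⁻¹) :=
      (HMu F (p ^ M)).mul_mem ((HMu F (p ^ M)).mul_mem hc'μ hτμ) ((HMu F (p ^ M)).inv_mem hc'μ)
    have hτj : (τ ^ j)⁻¹ ∈ HOne (F := F) L (p ^ M) :=
      (HOne (F := F) L (p ^ M)).inv_mem ((HOne (F := F) L (p ^ M)).pow_mem hτone j)
    have hd : c' * τ * c'⁻¹ * (τ ^ j)⁻¹ ∈ HOne (F := F) L (p ^ M) :=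
      (HOne (F := F) L (p ^ M)).mul_mem ⟨hcjL, hcjμ⟩ hτj
    have hroot : ∀ t : L, cL t * t = 1 → ∀ x : Fbar F, x ^ (p ^ M) = algebraMap L (Fbar F) t →
        (τ ^ (j + 1)) x = x → (c' * τ * c'⁻¹ * (τ ^ j)⁻¹) x = x := by
      intro t ht x hx hx'
      have h4 : ((τ ^ j)⁻¹ x) ^ (p ^ M) = algebraMap L (Fbar F) t := by
        rw [← map_pow, hx, hτj.1]
      rw [AlgEquiv.mul_apply, conj_root hn ht hc'A hc'μ hτL hτμ h4, ← AlgEquiv.mul_apply,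
        ← mul_inv_rev, ← pow_succ]
      exact TAU_inv_of hx'
    exact ⟨hd.1, hd.2, fun x hx => hroot u hu x hx (hτpow_u _ x hx),
      fun x hx => hroot e he x hx (hτpow_e _ x hpj hx)⟩
  · -- on zeta
    have h4 : ∀ (g : GalF F) (y : Fbar F), y ^ q = 1 → (g y) ^ q = 1 := by
      intro g y hy
      rw [← map_pow, hy, map_one]
    have h5 : ((τ ^ j)⁻¹ ζ) ^ q = 1 := h4 _ _ hζ.pow_eq_one
    have h6 : (τ ^ j) ζ = τ ζ := by
      rw [TAU_pow_zeta hτζ, hτζ]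
      have h7 : γ ^ j ≡ γ [MOD q] := by
        rw [← ZMod.natCast_eq_natCast_iff, Nat.cast_pow, hγcast, ← Units.val_pow_eq_pow_val,
          pow_eq_pow_of_modEq hjm (by rw [← hγu]; exact pow_orderOf_eq_one γu), pow_one]
      exact pow_eq_pow_of_modEq h7 hζ.pow_eq_one
    rw [AlgEquiv.mul_apply, AlgEquiv.mul_apply, AlgEquiv.mul_apply, hc'qi _ h5,
      hc'q _ (h4 _ _ h5)]
    have h8 : τ ((τ ^ j)⁻¹ ζ) = (τ ^ j)⁻¹ (τ ζ) := by
      rw [← AlgEquiv.mul_apply, ← AlgEquiv.mul_apply]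
      congr 1
      have : Commute τ (τ ^ j) := Commute.self_pow τ j
      exact this.inv_right
    rw [h8, ← h6, TAU_mul_inv]

end Pool.Agent.CGQ
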