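import Pool.Agent.CGQ.GalDefs

/-!
# Lifting Frobenius elements
-/

noncomputable section

set_option linter.unusedSectionVars false

namespace Pool.Agent.CGQ

open NumberField IsDedekindDomain Pool.Agent.CG2 Pool.Agent.CG2.GalFinAux
  Pool.Agent.CG2.GalInfAux

variable {F : Type} [Field F] [NumberField F]

/-- **FR**. A Frobenius element of a finite extension comes from a Frobenius element of `Fbar`.

PROOF. Part of the proof of `frob_density` in `CG2/GalInf.lean` (`hset`): `exists_over F N P.asIdeal`
gives `Q` with `Q.comap (inc F N) = P.asIdeal`, `lies_iff` gives `Over v Q`,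
`GalInfAux.exists_frob_above` gives `g'` with `g' • x - x ^ Nm v ∈ Q` for all `x`; its restriction
to `N` is a Frobenius element at `P` (`inc_smul`), so it differs from `g` by an inertia element
(`h2` there), which is trivial by `hun`. -/
theorem lift_frob (N : IntermediateField F (Fbar F)) [NumberField N] [Normal F N] {v : Pl F}
    (hun : UnramAt N v) {P : Pl N} {g : GalF F}
    (h : FrobAt v P (AlgEquiv.restrictNormalHom N g)) :
    ∃ Q : Ideal (Zbar F), Over v Q ∧ Q.comap (inc F N) = P.asIdeal ∧ ∃ g' : GalF F,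
      IsFrob v Q g' ∧ AlgEquiv.restrictNormalHom N g' = AlgEquiv.restrictNormalHom N g := by
  obtain ⟨Q, hQ, hQP⟩ := exists_over F N P.asIdeal
  have hov := (GalInfAux.lies_iff N P v Q hQ hQP).1 h.1
  obtain ⟨s, hs⟩ := GalInfAux.exists_frob_above v Q hov
  refine ⟨Q, hov, hQP, s, (isFrob_iff v Q s).2 hs, ?_⟩
  have h1 : ∀ x : 𝓞 N, (AlgEquiv.restrictNormalHom N s) • x - x ^ Nm v ∈ P.asIdeal := by
    intro x
    rw [← hQP, Ideal.mem_comap, map_sub, map_pow, inc_smul]
    exact hs _
  set t := AlgEquiv.restrictNormalHom N g with ht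
  have h2 : t⁻¹ * AlgEquiv.restrictNormalHom N s = 1 := by
    apply hun P h.1
    intro x
    set y := (t⁻¹ * AlgEquiv.restrictNormalHom N s) • x - x with hy
    have h3 : t • y ∈ P.asIdeal := by
      rw [hy, smul_sub, mul_smul, smul_inv_smul]
      have hF' : t • x - x ^ Nm v ∈ P.asIdeal := h.2 x
      have := P.asIdeal.sub_mem (h1 x) hF'
      rwa [sub_sub_sub_cancel_right] at this
    have h4 : y ^ Nm v ∈ P.asIdeal := by
      have hF' : t • y - y ^ Nm v ∈ P.asIdeal := h.2 y
      have := P.asIdeal.sub_mem h3 hF'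
      rwa [sub_sub_cancel] at this
    exact P.isPrime.mem_of_pow_mem _ h4
  exact (inv_mul_eq_one.1 h2).symm

end Pool.Agent.CGQ
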