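import Pool.Agent.CGQ.GalDefs

/-!
# Frobenius elements on roots of unity
-/

noncomputable section

set_option linter.unusedSectionVars false

namespace Pool.Agent.CGQ

open NumberField IsDedekindDomain Pool.Agent.CG2 Pool.Agent.CG2.GalFinAux
  Pool.Agent.CG2.GalInfAux

variable {L N : Type} [Field L] [NumberField L] [Field N] [NumberField N] [Algebra L N]

/-- **FZ**. A Frobenius element at a place of norm prime to `q` acts on the `q`-th roots of unity
by the norm.

PROOF. `σ • ζ' - ζ' ^ Nw ∈ P` where `ζ' : 𝓞 N` is `ζ`. Both `σ ζ` and `ζ ^ Nw` are `q`-th roots of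
unity; if they were different, their quotient would be a primitive `q`-th root of unity `ξ` with
`1 - ξ ∈ P`, and `q = ∏_(0 < i < q) (1 - ξ ^ i) ∈ P`
(Mathlib: `IsPrimitiveRoot.toInteger_sub_one_dvd_prime` or `Polynomial.eval` of the cyclotomic
polynomial at 1), contradiction. -/
theorem frob_zeta {q : ℕ} (hq : q.Prime) {ζ : N} (hζ : IsPrimitiveRoot ζ q) {w : Pl L} {P : Pl N}
    {σ : Gal(N/L)} (h : FrobAt w P σ) (hw : ¬ Above q w) : σ ζ = ζ ^ Nm w := by
  have hint : IsIntegral ℤ ζ := hζ.isIntegral hq.pos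
  set z : 𝓞 N := ⟨ζ, hint⟩ with hz
  have hzζ : (z : N) = ζ := rfl
  have hzq : z ^ q = 1 := by
    apply RingOfIntegers.ext
    change ζ ^ q = 1
    exact hζ.pow_eq_one
  have hσz : ((σ • z : 𝓞 N) : N) = σ ζ := rfl
  have hσq : (σ • z) ^ q = 1 := by
    rw [← smul_pow', hzq, smul_one]
  have hF : σ • z - z ^ Nm w ∈ P.asIdeal := h.2 z
  set u : 𝓞 N := σ • z * (z ^ Nm w) ^ (q - 1) with hu
  have hzN : z ^ Nm w * (z ^ Nm w) ^ (q - 1) = 1 := by
    rw [← pow_succ', Nat.sub_add_cancel hq.one_le, ← pow_mul, mul_comm, pow_mul, hzq, one_pow]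
  have hu1 : u - 1 ∈ P.asIdeal := by
    have h1 := P.asIdeal.mul_mem_right ((z ^ Nm w) ^ (q - 1)) hF
    rwa [sub_mul, hzN] at h1
  have huq : u ^ q = 1 := by
    rw [hu, mul_pow, hσq, one_mul, ← pow_mul, ← pow_mul,
      show Nm w * ((q - 1) * q) = q * (Nm w * (q - 1)) by ring, pow_mul, hzq, one_pow]
  have hu2 : u = 1 := by
    by_contra hne
    have hprim : IsPrimitiveRoot u q := by
      have h1 : orderOf u = q := by
        have := Fact.mk hq
        exact orderOf_eq_prime huq hne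
      rw [← h1]
      exact IsPrimitiveRoot.orderOf u
    have h2 : (Polynomial.cyclotomic q (𝓞 N)).eval 1 = (q : 𝓞 N) := by
      have := Fact.mk hq
      exact Polynomial.eval_one_cyclotomic_prime
    have : NeZero q := ⟨hq.ne_zero⟩
    rw [Polynomial.cyclotomic_eq_prod_X_sub_primitiveRoots hprim, Polynomial.eval_prod] at h2
    have h3 : (q : 𝓞 N) ∈ P.asIdeal := by
      rw [← h2]
      refine Ideal.prod_mem (i := u) P.asIdeal ((mem_primitiveRoots hq.pos).2 hprim) ?_
      rw [Polynomial.eval_sub, Polynomial.eval_X, Polynomial.eval_C, ← neg_mem_iff, neg_sub]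
      exact hu1
    apply hw
    have h4 : ((q : ℕ) : 𝓞 L) ∈ P.asIdeal.comap (algebraMap (𝓞 L) (𝓞 N)) := by
      rw [Ideal.mem_comap, map_natCast]
      exact h3
    rw [h.1] at h4
    exact h4
  have h5 : σ • z = z ^ Nm w := by
    have h6 : u * z ^ Nm w = σ • z := by
      rw [hu, mul_assoc, mul_comm ((z ^ Nm w) ^ (q - 1)), hzN, mul_one]
    rw [← h6, hu2, one_mul]
  have h6 := congrArg (fun x : 𝓞 N => (x : N)) h5
  simp only [map_pow] at h6
  exact h6

end Pool.Agent.CGQ
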