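import Pool.Agent.CGQ.GalDefs

/-!
# The first inequality
-/

noncomputable section

set_option linter.unusedSectionVars false

namespace Pool.Agent.CGQ

open NumberField IsDedekindDomain Pool.Agent.CG2 Pool.Agent.CG2.GalFinAux
  Pool.Agent.CG2.GalInfAux

variable {K : Type} [Field K] [NumberField K] {V : Type} [CommGroup V]

/-- **FI**. The first inequality.

PROOF. For every homomorphism `X : V →* ℂˣ` put `χ_X v = if m₀ ≤ v.asIdeal then 0 else X (Ψ v)`:
this is a `RayChar m₀` (`GalL.lean`: zero, abs: `X x` is a root of unity because `V` is finite,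
ray: `ext` of an ideal `InRay m₀`, all factors are prime to `m₀`, compare with `GalChar.ex_map`).
If `X ≠ 1` then, by `hgen`, there is `v` with `¬ m₀ ≤ v.asIdeal` and `χ_X v ≠ 1`, and
`GalChar.alt m₀ hm₀ χ_X` gives in both cases a constant `C_X` with
`∑' v, (χ_X v).re * (N v) ^ (-s) ≤ C_X` for `1 < s ≤ 2` (`log (1 / (s - 1)) ≥ 0`). For `X = 1` the
sum is at most `Ds univ s ≤ log (1 / (s - 1)) + C` (`hasDen_univ K`).
Orthogonality (`V` finite commutative: `∑ X, X x = card V` if `x = 1`, `0` otherwise; Mathlib has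
duality for finite commutative groups, `CommGroup.exists_apply_ne_one_of_hasEnoughRootsOfUnity`,
`CommGroup.card_monoidHom_of_hasEnoughRootsOfUnity`) gives, summing over all `X`,
`card V * Ds {v | ¬ m₀ ≤ v.asIdeal ∧ Ψ v = 1} s ≤ log (1 / (s - 1)) + C'`. The left side is
at least `card V * Ds A s ≥ card V * (c * log (1 / (s - 1)) - C'')`. Let `s → 1`. -/
theorem first_ineq [Finite V] (Ψ : Pl K → V) (m₀ : Ideal (𝓞 K)) (hm₀ : m₀ ≠ ⊥)
    (hray : ∀ a : 𝓞 K, a ≠ 0 → a - 1 ∈ m₀ → TotPos a → GalChar.ex Ψ (Ideal.span {a}) = 1)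
    (hgen : Subgroup.closure {x : V | ∃ v : Pl K, ¬ m₀ ≤ v.asIdeal ∧ x = Ψ v} = ⊤)
    {A : Set (Pl K)} (hA : ∀ v ∈ A, ¬ m₀ ≤ v.asIdeal ∧ Ψ v = 1) {c : ℝ} (hc : HasDen A c) :
    c * Nat.card V ≤ 1 := by
  classical
  have : Fintype V := Fintype.ofFinite V
  have hcardV : Nat.card V = Fintype.card (Additive V) := by
    rw [Nat.card_eq_fintype_card]; exact (Fintype.card_congr Additive.ofMul)
  -- the complex characters
  let θ : AddChar (Additive V) ℂ → (V →* ℂ) := fun X =>
    { toFun := fun x => X (Additive.ofMul x)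
      map_one' := X.map_zero_eq_one
      map_mul' := fun x y => X.map_add_eq_mul _ _ }
  have hθ : ∀ X x, θ X x = X (Additive.ofMul x) := fun _ _ => rfl
  have hθn : ∀ X x, ‖θ X x‖ = 1 := fun X x => X.norm_apply _
  let χ : AddChar (Additive V) ℂ → Pl K → ℂ := fun X v =>
    if m₀ ≤ v.asIdeal then 0 else θ X (Ψ v)
  have hχ : ∀ X v, χ X v = if m₀ ≤ v.asIdeal then 0 else θ X (Ψ v) := fun _ _ => rfl
  have hRay : ∀ X, RayChar m₀ (χ X) := by
    intro X
    refine ⟨fun v hv => by rw [hχ, if_pos hv], fun v hv => by rw [hχ, if_neg hv, hθn], ?_⟩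
    rintro I ⟨a, ha, ha1, hapos, rfl⟩
    have hbot : Ideal.span {a} ≠ ⊥ := by
      rw [Ne, Ideal.span_singleton_eq_bot]
      exact ha
    have hcop : IsCoprime (Ideal.span {a}) m₀ := by
      rw [Ideal.isCoprime_iff_sup_eq, Ideal.eq_top_iff_one]
      have h1 : (1 : 𝓞 K) = a + -(a - 1) := by ring
      rw [h1]
      exact Submodule.add_mem_sup (Ideal.mem_span_singleton_self a) (m₀.neg_mem ha1)
    change GalChar.ex (χ X) (Ideal.span {a}) = 1
    have h2 : GalChar.ex (χ X) (Ideal.span {a}) =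
        GalChar.ex (fun v => θ X (Ψ v)) (Ideal.span {a}) :=
      GalChar.ex_congr fun v hv => by
        rw [hχ, if_neg (GalChar.not_le_of_expo hbot hcop hv)]
    rw [h2, ← GalChar.ex_map (θ X) Ψ hbot, hray a ha ha1 hapos, map_one]
  -- the bounds
  have hlog : ∀ s ∈ Set.Ioc (1 : ℝ) 2, 0 ≤ Real.log (1 / (s - 1)) := by
    intro s hs
    apply Real.log_nonneg
    rw [le_div_iff₀ (by linarith [hs.1])]
    linarith [hs.2]
  have hbd : ∀ X : AddChar (Additive V) ℂ, ∃ C : ℝ, ∀ s ∈ Set.Ioc (1 : ℝ) 2,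
      ∑' v : Pl K, (χ X v).re * (Ideal.absNorm v.asIdeal : ℝ) ^ (-s) ≤
        (if X = 1 then Real.log (1 / (s - 1)) else 0) + C := by
    intro X
    by_cases hX : X = 1
    · obtain ⟨C, hC⟩ := hasDen_univ K
      refine ⟨C, fun s hs => ?_⟩
      rw [if_pos hX]
      have h1 : |∑' v : Pl K, (χ X v).re * (Ideal.absNorm v.asIdeal : ℝ) ^ (-s)| ≤
          Ds (Set.univ : Set (Pl K)) s := by
        refine GalChar.abs_sum_le hs.1 fun v => ?_
        refine (Complex.abs_re_le_norm _).trans ?_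
        rw [hχ]
        split_ifs
        · rw [norm_zero]; exact zero_le_one
        · rw [hθn]
      have h2 := (abs_le.1 (hC s hs)).2
      have h3 := le_abs_self (∑' v : Pl K, (χ X v).re * (Ideal.absNorm v.asIdeal : ℝ) ^ (-s))
      linarith
    · have hne : ∃ v, ¬ m₀ ≤ v.asIdeal ∧ χ X v ≠ 1 := by
        by_contra hcon
        push Not at hcon
        apply hX
        have hker : Subgroup.closure {x : V | ∃ v : Pl K, ¬ m₀ ≤ v.asIdeal ∧ x = Ψ v} ≤
            (θ X).ker := by
          rw [Subgroup.closure_le]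
          rintro x ⟨v, hv, rfl⟩
          have h1 := hcon v hv
          rw [hχ, if_neg hv] at h1
          exact h1
        rw [hgen] at hker
        ext x
        exact hker (Subgroup.mem_top (Additive.toMul x))
      rcases GalChar.alt m₀ hm₀ (χ X) (hRay X) hne with ⟨C, hC⟩ | ⟨C, hC⟩
      · refine ⟨C, fun s hs => ?_⟩
        rw [if_neg hX]
        have h1 := hC s hs
        have h2 := hlog s hs
        linarith
      · refine ⟨C, fun s hs => ?_⟩
        rw [if_neg hX]
        have h1 := (abs_le.1 (hC s hs)).2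
        linarith
  choose C hC using hbd
  obtain ⟨CA, hCA⟩ := hc
  -- the sum over all characters
  have hsum : ∀ s ∈ Set.Ioc (1 : ℝ) 2, (Nat.card V : ℝ) * Ds A s ≤
      Real.log (1 / (s - 1)) + ∑ X, C X := by
    intro s hs
    have h1 : ∑ X : AddChar (Additive V) ℂ,
        ∑' v : Pl K, (χ X v).re * (Ideal.absNorm v.asIdeal : ℝ) ^ (-s) ≤
        Real.log (1 / (s - 1)) + ∑ X, C X := by
      refine (Finset.sum_le_sum fun X _ => hC X s hs).trans ?_
      rw [Finset.sum_add_distrib, Finset.sum_ite_eq', if_pos (Finset.mem_univ _)]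
    refine le_trans ?_ h1
    have hχ1 : ∀ X v, |(χ X v).re| ≤ 1 := by
      intro X v
      refine (Complex.abs_re_le_norm _).trans ?_
      rw [hχ]
      split_ifs
      · rw [norm_zero]; exact zero_le_one
      · rw [hθn]
    rw [← Summable.tsum_finsetSum fun X _ => GalChar.summ_mul hs.1 (hχ1 X)]
    have horth : ∀ v : Pl K, ∑ X : AddChar (Additive V) ℂ, (χ X v).re *
        (Ideal.absNorm v.asIdeal : ℝ) ^ (-s) =
        (if ¬ m₀ ≤ v.asIdeal ∧ Ψ v = 1 then (Nat.card V : ℝ) else 0) *
          (Ideal.absNorm v.asIdeal : ℝ) ^ (-s) := by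
      intro v
      rw [← Finset.sum_mul]
      congr 1
      by_cases hv : m₀ ≤ v.asIdeal
      · rw [if_neg (fun h => h.1 hv)]
        refine Finset.sum_eq_zero fun X _ => ?_
        rw [hχ, if_pos hv, Complex.zero_re]
      · have h2 : ∑ X : AddChar (Additive V) ℂ, χ X v =
            if Additive.ofMul (Ψ v) = 0 then (Fintype.card (Additive V) : ℂ) else 0 := by
          rw [← AddChar.sum_apply_eq_ite]
          refine Finset.sum_congr rfl fun X _ => ?_
          rw [hχ, if_neg hv, hθ]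
        rw [← Complex.re_sum, h2]
        by_cases h1 : Ψ v = 1
        · have e1 : Additive.ofMul (Ψ v) = 0 := by rw [h1]; rfl
          have e2 : ¬ m₀ ≤ v.asIdeal ∧ Ψ v = 1 := ⟨hv, h1⟩
          rw [if_pos e1, if_pos e2, hcardV, Complex.natCast_re]
        · have e1 : ¬ Additive.ofMul (Ψ v) = 0 := fun h => h1 (Additive.ofMul.injective h)
          have e2 : ¬ (¬ m₀ ≤ v.asIdeal ∧ Ψ v = 1) := fun h => h1 h.2
          rw [if_neg e1, if_neg e2, Complex.zero_re]
    simp only [horth]
    unfold Ds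
    rw [tsum_subtype A fun v : Pl K => (Ideal.absNorm v.asIdeal : ℝ) ^ (-s), ← tsum_mul_left]
    refine Summable.tsum_le_tsum (fun v => ?_) ?_ ?_
    · by_cases hv : v ∈ A
      · rw [Set.indicator_of_mem hv, if_pos (hA v hv)]
      · rw [Set.indicator_of_notMem hv, mul_zero]
        split_ifs
        · exact mul_nonneg (Nat.cast_nonneg _) (GalChar.Nnn v s)
        · rw [zero_mul]
    · exact ((GalChar.summ_univ hs.1).indicator A).mul_left _
    · refine Summable.of_nonneg_of_le (fun v => ?_) (fun v => ?_)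
        ((GalChar.summ_univ (F := K) hs.1).mul_left (Nat.card V : ℝ))
      · split_ifs
        · exact mul_nonneg (Nat.cast_nonneg _) (GalChar.Nnn v s)
        · rw [zero_mul]
      · split_ifs
        · exact le_rfl
        · rw [zero_mul]; exact mul_nonneg (Nat.cast_nonneg _) (GalChar.Nnn v s)
  -- let `s → 1`
  by_contra hcon
  push Not at hcon
  set n : ℝ := (Nat.card V : ℝ) with hn
  have hn0 : 0 ≤ n := Nat.cast_nonneg _
  have hfinal : ∀ t : ℝ, 0 ≤ t → (c * n - 1) * t ≤ (∑ X, C X) + n * CA := by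
    intro t ht
    have hs : 1 + Real.exp (-t) ∈ Set.Ioc (1 : ℝ) 2 := by
      refine ⟨by linarith [Real.exp_pos (-t)], ?_⟩
      have : Real.exp (-t) ≤ 1 := Real.exp_le_one_iff.2 (by linarith)
      linarith
    have h1 := hsum _ hs
    have h2 := (abs_le.1 (hCA _ hs)).1
    have h3 : Real.log (1 / (1 + Real.exp (-t) - 1)) = t := by
      rw [add_sub_cancel_left, one_div, Real.log_inv, Real.log_exp, neg_neg]
    rw [h3] at h1 h2
    have h4 : n * (c * t - CA) ≤ n * Ds A (1 + Real.exp (-t)) := by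
      apply mul_le_mul_of_nonneg_left _ hn0
      linarith
    nlinarith
  have hpos : 0 < c * n - 1 := by linarith
  have h5 := hfinal ((|(∑ X, C X) + n * CA| + 1) / (c * n - 1)) (by positivity)
  rw [mul_div_cancel₀ _ hpos.ne'] at h5
  linarith [le_abs_self ((∑ X, C X) + n * CA)]

end Pool.Agent.CGQ
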