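import Pool.Agent.CGQ.GalFC
import Pool.Agent.CGQ.GalFI

/-!
# The first inequality, for the group generated by the values
-/

noncomputable section

set_option linter.unusedSectionVars false

namespace Pool.Agent.CGQ

open NumberField IsDedekindDomain Pool.Agent.CG2 Pool.Agent.CG2.GalFinAux
  Pool.Agent.CG2.GalInfAux

variable {K : Type} [Field K] [NumberField K] {V : Type} [CommGroup V]

/-- A version for the subgroup generated by the values. -/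
theorem first_ineq' (Ψ : Pl K → V) (m₀ : Ideal (𝓞 K)) (hm₀ : m₀ ≠ ⊥)
    (hray : ∀ a : 𝓞 K, a ≠ 0 → a - 1 ∈ m₀ → TotPos a → GalChar.ex Ψ (Ideal.span {a}) = 1)
    {A : Set (Pl K)} (hA : ∀ v ∈ A, ¬ m₀ ≤ v.asIdeal ∧ Ψ v = 1) {c : ℝ} (hc : HasDen A c) :
    c * Nat.card (Subgroup.closure {x : V | ∃ v : Pl K, ¬ m₀ ≤ v.asIdeal ∧ x = Ψ v}) ≤ 1 := by
  classical
  have hfin := fin_closure Ψ m₀ hm₀ hray
  set V0 := Subgroup.closure {x : V | ∃ v : Pl K, ¬ m₀ ≤ v.asIdeal ∧ x = Ψ v} with hV0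
  let Φ : Pl K → V0 := fun v => if h : ¬ m₀ ≤ v.asIdeal then
    ⟨Ψ v, Subgroup.subset_closure ⟨v, h, rfl⟩⟩ else 1
  have hΦ : ∀ v, ¬ m₀ ≤ v.asIdeal → (Φ v : V) = Ψ v := by
    intro v hv
    simp [Φ, hv]
  refine first_ineq Φ m₀ hm₀ ?_ ?_ (A := A) ?_ hc
  · intro a ha ha1 hpos
    have hbot : Ideal.span {a} ≠ ⊥ := by
      rw [Ne, Ideal.span_singleton_eq_bot]
      exact ha
    have hcop : IsCoprime (Ideal.span {a}) m₀ := by
      rw [Ideal.isCoprime_iff_sup_eq, Ideal.eq_top_iff_one]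
      have h1 : (1 : 𝓞 K) = a + -(a - 1) := by ring
      rw [h1]
      exact Submodule.add_mem_sup (Ideal.mem_span_singleton_self a) (m₀.neg_mem ha1)
    apply Subtype.ext
    have h1 := GalChar.ex_map V0.subtype Φ hbot
    have h2 : GalChar.ex (fun v => V0.subtype (Φ v)) (Ideal.span {a}) =
        GalChar.ex Ψ (Ideal.span {a}) := by
      apply GalChar.ex_congr
      intro v hv
      exact hΦ v (GalChar.not_le_of_expo hbot hcop hv)
    exact (h1.trans h2).trans (hray a ha ha1 hpos)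
  · rw [eq_top_iff]
    rintro ⟨x, hx⟩ -
    have h1 : ∀ y ∈ V0, ∃ h : y ∈ V0, (⟨y, h⟩ : V0) ∈
        Subgroup.closure {x : V0 | ∃ v : Pl K, ¬ m₀ ≤ v.asIdeal ∧ x = Φ v} := by
      intro y hy
      refine Subgroup.closure_induction (p := fun y hy => ∃ h : y ∈ V0, (⟨y, h⟩ : V0) ∈
        Subgroup.closure {x : V0 | ∃ v : Pl K, ¬ m₀ ≤ v.asIdeal ∧ x = Φ v}) ?_ ?_ ?_ ?_ hy
      · rintro y ⟨v, hv, rfl⟩
        refine ⟨Subgroup.subset_closure ⟨v, hv, rfl⟩, Subgroup.subset_closure ⟨v, hv, ?_⟩⟩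
        exact Subtype.ext (hΦ v hv).symm
      · exact ⟨one_mem _, one_mem _⟩
      · rintro y z - - ⟨h1, h2⟩ ⟨h3, h4⟩
        exact ⟨mul_mem h1 h3, mul_mem h2 h4⟩
      · rintro y - ⟨h1, h2⟩
        exact ⟨inv_mem h1, inv_mem h2⟩
    obtain ⟨_, h2⟩ := h1 x hx
    exact h2
  · intro v hv
    obtain ⟨h1, h2⟩ := hA v hv
    exact ⟨h1, Subtype.ext ((hΦ v h1).trans h2)⟩

end Pool.Agent.CGQ
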