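import Mathlib

/-!
# Finite subgroups of the multiplicative group of a field of characteristic p
-/

noncomputable section

set_option linter.unusedSectionVars false

namespace Pool.Agent.CGQ

/-- **FG**. Finite groups of units of a field of characteristic `p` have order prime to `p`.

PROOF. Otherwise Cauchy (`exists_prime_orderOf_dvd_card'`) gives `x ≠ 1` with `x ^ p = 1`; but
`(x - 1) ^ p = x ^ p - 1 = 0` (`sub_pow_char`). -/
theorem card_coprime {κ : Type} [Field κ] {p : ℕ} (hp : p.Prime) [CharP κ p] (W : Subgroup κˣ)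
    [Finite W] : p.Coprime (Nat.card W) := by
  have : Fact p.Prime := ⟨hp⟩
  rw [Nat.Prime.coprime_iff_not_dvd hp]
  intro hdvd
  obtain ⟨x, hx⟩ := exists_prime_orderOf_dvd_card' p hdvd
  have h1 : x ^ p = 1 := by rw [← hx]; exact pow_orderOf_eq_one x
  have h2 : ((x : κˣ) : κ) ^ p = 1 := by
    have := congrArg (fun t : W => ((t : κˣ) : κ)) h1
    simpa using this
  have h3 : (((x : κˣ) : κ) - 1) ^ p = 0 := by
    rw [sub_pow_char, h2, one_pow, sub_self]
  have h4 : ((x : κˣ) : κ) = 1 := sub_eq_zero.1 (pow_eq_zero_iff hp.ne_zero |>.1 h3)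
  have h5 : x = 1 := Subtype.ext (Units.ext h4)
  rw [h5, orderOf_one] at hx
  exact hp.one_lt.ne hx

/-- **GL**. Group theory: a subgroup `V` of `A × κˣ` whose first projection has exactly `m`
elements and which has at most `p m / (p - 1)` elements is the graph of a homomorphism.

PROOF. `W = {y | (1, y) ∈ V}` is the kernel of the first projection restricted to `V`, so
`card V = card (image) * card W = m * card W`; `(p - 1) * card W ≤ p`, so `card W ≤ p / (p - 1)`:
`card W = 1`, or `p = 2` and `card W = 2`, which is excluded by `card_coprime`. -/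
theorem graph_of_card {A κ : Type} [CommGroup A] [Field κ] {p m : ℕ} (hp : p.Prime) [CharP κ p]
    (hm : 0 < m) (V : Subgroup (A × κˣ)) [Finite V]
    (hV1 : Nat.card (V.map (MonoidHom.fst A κˣ)) = m) (hV2 : (p - 1) * Nat.card V ≤ p * m)
    (y : κˣ) (hy : ((1, y) : A × κˣ) ∈ V) : y = 1 := by
  -- the kernel of the first projection
  let f : V →* A := (MonoidHom.fst A κˣ).comp V.subtype
  let W : Subgroup κˣ := V.comap (MonoidHom.inr A κˣ)
  have hW : ∀ y : κˣ, y ∈ W ↔ ((1, y) : A × κˣ) ∈ V := fun y => Iff.rfl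
  have hinj : Function.Injective (fun w : W => (⟨((1 : A), (w : κˣ)), w.2⟩ : V)) := by
    intro a b hab
    have := congrArg (fun t : V => (t : A × κˣ).2) hab
    exact Subtype.ext this
  have : Finite W := Finite.of_injective _ hinj
  have hker : Nat.card f.ker = Nat.card W := by
    refine Nat.card_congr (Equiv.ofBijective
      (fun v : f.ker => (⟨((v : V) : A × κˣ).2, ?_⟩ : W)) ⟨?_, ?_⟩)
    · have h1 : ((v : V) : A × κˣ).1 = 1 := v.2
      have h2 : (((v : V) : A × κˣ)) ∈ V := (v : V).2
      have h3 : ((v : V) : A × κˣ) = (1, ((v : V) : A × κˣ).2) := Prod.ext h1 rfl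
      rw [h3] at h2
      exact h2
    · intro a b hab
      have h1 : ((a : V) : A × κˣ).2 = ((b : V) : A × κˣ).2 := congrArg Subtype.val hab
      have h2 : ((a : V) : A × κˣ).1 = ((b : V) : A × κˣ).1 := by
        have h3 : ((a : V) : A × κˣ).1 = 1 := a.2
        have h4 : ((b : V) : A × κˣ).1 = 1 := b.2
        rw [h3, h4]
      exact Subtype.ext (Subtype.ext (Prod.ext h2 h1))
    · intro w
      exact ⟨⟨⟨(1, (w : κˣ)), w.2⟩, rfl⟩, rfl⟩
  have hrange : f.range = V.map (MonoidHom.fst A κˣ) := by
    rw [MonoidHom.range_comp, Subgroup.range_subtype]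
  have hcard : Nat.card V = m * Nat.card W := by
    have h := Subgroup.card_mul_index f.ker
    rw [Subgroup.index_ker f, hker, hrange, hV1] at h
    rw [← h, mul_comm]
  have hWpos : 0 < Nat.card W := Nat.card_pos
  have h1 : (p - 1) * Nat.card W ≤ p := by
    rw [hcard] at hV2
    have : m * ((p - 1) * Nat.card W) ≤ m * p := by
      calc m * ((p - 1) * Nat.card W) = (p - 1) * (m * Nat.card W) := by ring
        _ ≤ p * m := hV2
        _ = m * p := mul_comm _ _
    exact Nat.le_of_mul_le_mul_left this hm
  have hW1 : Nat.card W = 1 := by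
    have hcop := card_coprime hp W
    by_contra hne
    have h2 : 2 ≤ Nat.card W := by omega
    have hp2 : 2 ≤ p := hp.two_le
    obtain ⟨k, hk⟩ : ∃ k, p = k + 2 := ⟨p - 2, by omega⟩
    have h3 : (k + 1) * Nat.card W ≤ k + 2 := by
      have := h1
      rw [hk] at this
      simpa using this
    have h4 : k = 0 := by
      by_contra hk0
      have : (k + 1) * 2 ≤ (k + 1) * Nat.card W := Nat.mul_le_mul_left _ h2
      omega
    subst h4
    have h5 : Nat.card W = 2 := by omega
    rw [h5, hk] at hcop
    norm_num at hcop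
  have h6 : (⟨y, hy⟩ : W) = 1 := by
    have : Subsingleton W := (Nat.card_eq_one_iff_unique.1 hW1).1
    exact Subsingleton.elim _ _
  exact congrArg Subtype.val h6

end Pool.Agent.CGQ
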