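import Pool.Agent.CGQ.GalDefs

/-!
# Norms: total positivity
-/

noncomputable section

set_option linter.unusedSectionVars false

namespace Pool.Agent.CGQ

open NumberField IsDedekindDomain Pool.Agent.CG2 Pool.Agent.CG2.GalFinAux
  Pool.Agent.CG2.GalInfAux

variable {L K : Type} [Field L] [NumberField L] [Field K] [NumberField K] [Algebra L K]

/-- Positivity of the product of the conjugates over a real embedding of the base. -/
private theorem nrb_pos [Algebra L ℂ] (τ : L →+* ℝ) (hτ : ∀ x : L, algebraMap L ℂ x = (τ x : ℂ))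
    (b : K) (hb : b ≠ 0) (h : ∀ w : RPl K, 0 < InfinitePlace.embedding_of_isReal w.2 b) :
    ∃ c : ℝ, 0 < c ∧ ∏ φ : K →ₐ[L] ℂ, φ b = (c : ℂ) := by
  classical
  -- the conjugate of an embedding over `L`
  let cj : (K →ₐ[L] ℂ) → (K →ₐ[L] ℂ) := fun φ =>
    { ComplexEmbedding.conjugate φ.toRingHom with
      commutes' := by
        intro x
        change (starRingEnd ℂ) (φ (algebraMap L K x)) = algebraMap L ℂ x
        rw [AlgHom.commutes, hτ, Complex.conj_ofReal] }
  have hcj : ∀ (φ : K →ₐ[L] ℂ) (x : K), cj φ x = (starRingEnd ℂ) (φ x) := fun φ x => rfl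
  have hext : ∀ φ ψ : K →ₐ[L] ℂ, φ.toRingHom = ψ.toRingHom → φ = ψ := by
    intro φ ψ h1
    ext x
    exact RingHom.congr_fun h1 x
  have h2 : ∀ w : InfinitePlace K, ∃ c : ℝ, 0 < c ∧
      ∏ φ ∈ (Finset.univ.filter fun φ : K →ₐ[L] ℂ => InfinitePlace.mk φ.toRingHom = w), φ b =
        (c : ℂ) := by
    intro w
    by_cases hne : (Finset.univ.filter fun φ : K →ₐ[L] ℂ =>
      InfinitePlace.mk φ.toRingHom = w).Nonempty
    · obtain ⟨φ₀, hφ₀⟩ := hne
      have h3 : InfinitePlace.mk φ₀.toRingHom = w := (Finset.mem_filter.1 hφ₀).2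
      have h4 : (Finset.univ.filter fun φ : K →ₐ[L] ℂ => InfinitePlace.mk φ.toRingHom = w) =
          {φ₀, cj φ₀} := by
        ext φ
        simp only [Finset.mem_filter, Finset.mem_univ, true_and, Finset.mem_insert,
          Finset.mem_singleton]
        constructor
        · intro h5
          rcases InfinitePlace.mk_eq_iff.1 (h5.trans h3.symm) with h6 | h6
          · exact Or.inl (hext _ _ h6)
          · right
            apply hext
            change φ.toRingHom = ComplexEmbedding.conjugate φ₀.toRingHom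
            rw [← h6, ComplexEmbedding.involutive_conjugate]
        · rintro (rfl | rfl)
          · exact h3
          · change InfinitePlace.mk (ComplexEmbedding.conjugate φ₀.toRingHom) = w
            rw [InfinitePlace.mk_conjugate_eq, h3]
      by_cases hreal : cj φ₀ = φ₀
      · rw [h4, hreal, Finset.pair_eq_singleton, Finset.prod_singleton]
        have h5 : ComplexEmbedding.IsReal φ₀.toRingHom := by
          rw [ComplexEmbedding.isReal_iff]
          exact congrArg AlgHom.toRingHom hreal
        have h6 : (InfinitePlace.mk φ₀.toRingHom).IsReal := ⟨φ₀.toRingHom, h5, rfl⟩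
        refine ⟨_, h ⟨_, h6⟩, ?_⟩
        rw [InfinitePlace.embedding_of_isReal_apply, InfinitePlace.embedding_mk_eq_of_isReal h5]
        rfl
      · rw [h4, Finset.prod_pair (fun h5 => hreal h5.symm), hcj, Complex.mul_conj]
        exact ⟨_, Complex.normSq_pos.2 ((map_ne_zero _).2 hb), rfl⟩
    · rw [Finset.not_nonempty_iff_eq_empty] at hne
      rw [hne, Finset.prod_empty]
      exact ⟨1, one_pos, by simp⟩
  choose c hc hc' using h2
  refine ⟨∏ w : InfinitePlace K, c w, Finset.prod_pos fun w _ => hc w, ?_⟩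
  rw [← Finset.prod_fiberwise Finset.univ (fun φ : K →ₐ[L] ℂ => InfinitePlace.mk φ.toRingHom)
    (fun φ : K →ₐ[L] ℂ => φ b), Complex.ofReal_prod]
  exact Finset.prod_congr rfl fun w _ => hc' w

/-- **NR2**. The norm of a totally positive element is totally positive. -/
theorem totPos_intNorm (a : 𝓞 K) (ha : a ≠ 0) (h : TotPos a) :
    TotPos (Algebra.intNorm (𝓞 L) (𝓞 K) a) := by
  rintro ⟨w, hw⟩
  let _ : Algebra L ℂ := (Complex.ofRealHom.comp (InfinitePlace.embedding_of_isReal hw)).toAlgebra
  have ha' : (a : K) ≠ 0 := by simpa using ha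
  obtain ⟨c, hc, hc'⟩ := nrb_pos (L := L) (InfinitePlace.embedding_of_isReal hw)
    (fun x => rfl) (a : K) ha' h
  rw [← Algebra.norm_eq_prod_embeddings L ℂ (a : K)] at hc'
  have h1 : (((Algebra.intNorm (𝓞 L) (𝓞 K) a : 𝓞 L) : L)) = Algebra.norm L (a : K) :=
    Algebra.algebraMap_intNorm (A := 𝓞 L) (K := L) (L := K) (B := 𝓞 K) a
  have h2 : ((InfinitePlace.embedding_of_isReal hw (Algebra.norm L (a : K)) : ℝ) : ℂ) = (c : ℂ) := hc'
  rw [h1]
  rw [Complex.ofReal_inj.1 h2]
  exact hc

end Pool.Agent.CGQ
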