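import Pool.Agent.CGQ.GalDefs

/-!
# Norms: ideals
-/

noncomputable section

set_option linter.unusedSectionVars false

namespace Pool.Agent.CGQ

open NumberField IsDedekindDomain Pool.Agent.CG2 Pool.Agent.CG2.GalFinAux
  Pool.Agent.CG2.GalInfAux

variable {L K : Type} [Field L] [NumberField L] [Field K] [NumberField K] [Algebra L K]

private theorem nrc_relNorm (u : Pl K) :
    Ideal.relNorm (𝓞 L) u.asIdeal = (below L u).asIdeal ^ rdeg L u := by
  have h1 : u.asIdeal.LiesOver (below L u).asIdeal := ⟨rfl⟩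
  have h2 : u.asIdeal.IsMaximal := u.isMaximal
  have h3 : (below L u).asIdeal.IsMaximal := (below L u).isMaximal
  exact Ideal.relNorm_eq_pow_of_isMaximal u.asIdeal (below L u).asIdeal

private theorem nrc_ex_pow {V : Type} [CommMonoid V] (χ : Pl L → V) {I : Ideal (𝓞 L)}
    (hI : I ≠ ⊥) (n : ℕ) : GalChar.ex χ (I ^ n) = GalChar.ex χ I ^ n := by
  induction n with
  | zero => rw [pow_zero, pow_zero, Ideal.one_eq_top, GalChar.ex_top]
  | succ n ih =>
    have h1 : I ^ n ≠ ⊥ := pow_ne_zero n hI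
    rw [pow_succ, pow_succ, GalChar.ex_mul χ h1 hI, ih]

/-- **NR3**. -/
theorem ex_relNorm {V : Type} [CommGroup V] (χ : Pl L → V) {I : Ideal (𝓞 K)} (hI : I ≠ ⊥) :
    GalChar.ex χ (Ideal.relNorm (𝓞 L) I) = GalChar.ex (cn L χ) I := by
  induction I using UniqueFactorizationMonoid.induction_on_prime with
  | h₁ => exact absurd rfl hI
  | h₂ x hx =>
    rw [Ideal.isUnit_iff] at hx
    rw [hx, Ideal.relNorm_top, GalChar.ex_top, GalChar.ex_top]
  | h₃ a p ha hp ih =>
    have ha' : a ≠ ⊥ := ha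
    have hp' : p ≠ ⊥ := hp.ne_zero
    let u : Pl K := ⟨p, Ideal.isPrime_of_prime hp, hp'⟩
    have h1 : Ideal.relNorm (𝓞 L) p ≠ ⊥ := fun h => hp' (Ideal.relNorm_eq_bot_iff.1 h)
    have h2 : Ideal.relNorm (𝓞 L) a ≠ ⊥ := fun h => ha' (Ideal.relNorm_eq_bot_iff.1 h)
    rw [map_mul, GalChar.ex_mul χ h1 h2, GalChar.ex_mul _ hp' ha', ih ha']
    congr 1
    have h3 := nrc_relNorm (L := L) u
    change Ideal.relNorm (𝓞 L) p = _ at h3
    rw [h3, nrc_ex_pow χ (below L u).ne_bot, GalChar.ex_prime]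
    exact (GalChar.ex_prime (cn L χ) u).symm

/-- **NR4**. -/
theorem rdeg_eq_one {u : Pl K} (h : Nm u = Nm (below L u)) : rdeg L u = 1 := by
  have h1 : Nm u = Nm (below L u) ^ rdeg L u := by
    have h2 := congrArg Ideal.absNorm (nrc_relNorm (L := L) u)
    rw [Ideal.absNorm_relNorm, map_pow] at h2
    exact h2
  have h3 : 1 < Nm (below L u) := two_le_N (below L u)
  rw [h] at h1
  have h4 : Nm (below L u) ^ 1 = Nm (below L u) ^ rdeg L u := by
    rw [pow_one]
    exact h1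
  exact (Nat.pow_right_injective h3 h4).symm

end Pool.Agent.CGQ
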