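import Pool.Agent.CGQ.GalNRa
import Pool.Agent.CGQ.GalNRb
import Pool.Agent.CGQ.GalNRc

/-!
# Ray class functions: composition with the norm
-/

noncomputable section

set_option linter.unusedSectionVars false

namespace Pool.Agent.CGQ

open NumberField IsDedekindDomain Pool.Agent.CG2 Pool.Agent.CG2.GalFinAux
  Pool.Agent.CG2.GalInfAux

variable {L K : Type} [Field L] [NumberField L] [Field K] [NumberField K] [Algebra L K]

/-- **RF1**. PROOF. Let `m₀` be given by `hψ`, `n = Ideal.absNorm m₀ ≠ 0` (`(n : 𝓞 L) ∈ m₀`,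
`Ideal.absNorm_mem`). The ideal `m₁ = span {(n : 𝓞 K)} ≠ ⊥` works: `m₁ ≤ u` if `m₀ ≤ below L u`.
If `a - 1 ∈ m₁`, `a` totally positive, then `b := intNorm a ≠ 0` satisfies `b - 1 ∈ m₀` (NR1),
`TotPos b` (NR2), and `ex (cn L ψ) (span {a}) = ex ψ (relNorm (span {a})) = ex ψ (span {b}) = 1`
(NR3, `Ideal.relNorm_singleton`). -/
theorem RayFn.cn {V : Type} [CommGroup V] {S : Set (Pl L)} {ψ : Pl L → V} (hψ : RayFn S ψ) :
    RayFn {u : Pl K | below L u ∈ S} (cn L ψ) := by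
  obtain ⟨m, hm, hS, h⟩ := hψ
  have hn : Ideal.absNorm m ≠ 0 := by
    rw [Ne, Ideal.absNorm_eq_zero_iff]
    exact hm
  have hnm : ((Ideal.absNorm m : ℕ) : 𝓞 L) ∈ m := Ideal.absNorm_mem m
  refine ⟨Ideal.span {((Ideal.absNorm m : ℕ) : 𝓞 K)}, ?_, ?_, ?_⟩
  · rw [Ne, Ideal.span_singleton_eq_bot]
    exact_mod_cast hn
  · intro u hu
    rw [Ideal.span_singleton_le_iff_mem]
    have h1 : ((Ideal.absNorm m : ℕ) : 𝓞 L) ∈ (below L u).asIdeal := hS _ hu hnm
    have h2 : algebraMap (𝓞 L) (𝓞 K) ((Ideal.absNorm m : ℕ) : 𝓞 L) ∈ u.asIdeal := h1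
    rwa [map_natCast] at h2
  · intro a ha ha1 ht
    have hI : Ideal.span {a} ≠ (⊥ : Ideal (𝓞 K)) := by
      rw [Ne, Ideal.span_singleton_eq_bot]
      exact ha
    rw [← ex_relNorm ψ hI, Ideal.relNorm_singleton]
    refine h _ ?_ ?_ (totPos_intNorm a ha ht)
    · rw [Ne, Algebra.intNorm_eq_zero]
      exact ha
    · exact (Ideal.span_singleton_le_iff_mem _).2 hnm (intNorm_sub_one a _ hn ha1)

end Pool.Agent.CGQ
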