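import Pool.Agent.CGQ.GalDefs

/-!
# Ray class functions: the norm modulo a prime
-/

noncomputable section

set_option linter.unusedSectionVars false

namespace Pool.Agent.CGQ

open NumberField IsDedekindDomain Pool.Agent.CG2 Pool.Agent.CG2.GalFinAux
  Pool.Agent.CG2.GalInfAux

variable {L K : Type} [Field L] [NumberField L] [Field K] [NumberField K] [Algebra L K]

/-- **RF2**. PROOF. `m₀ = span {(q : 𝓞 K)}`. For `a - 1 ∈ m₀`, `a ≠ 0` totally positive:
`Algebra.norm ℤ a > 0` (`GalMain.norm_pos`) and `≡ 1` modulo `q` (`GalMain.norm_modEq`), and the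
product of the `nq q v ^ expo v (a)` is the class of `(Algebra.norm ℤ a).natAbs`
(`GalMain.ex_norm`, `GalChar.ex_map`; at the places with `expo ≠ 0` the norm is prime to `q`). See
the proof of `isRay_norm` in `CG2/GalMain.lean`, which can be used with `κ = ZMod q`,
`S = {v | Above q v}`. -/
theorem rayFn_nq (q : ℕ) [Fact q.Prime] : RayFn {v : Pl K | Above q v} (nq (K := K) q) := by
  refine ⟨Ideal.span {((q : ℕ) : 𝓞 K)}, ?_, ?_, ?_⟩
  · rw [Ne, Ideal.span_singleton_eq_bot]
    exact_mod_cast (Fact.out : q.Prime).ne_zero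
  · intro v hv
    exact (Ideal.span_singleton_le_iff_mem _).2 hv
  · intro a ha ha1 ht
    have hI : Ideal.span {a} ≠ (⊥ : Ideal (𝓞 K)) := by
      rw [Ne, Ideal.span_singleton_eq_bot]
      exact ha
    have h1 : ∀ v : Pl K, expo v (Ideal.span {a}) ≠ 0 →
        ((nq q v : (ZMod q)ˣ) : ZMod q) = (Nat.castRingHom (ZMod q)) (Nm v) := by
      intro v hv
      have h2 : ¬ Above q v := by
        intro h
        have h3 := GalChar.le_of_expo hI hv
        have h4 : a ∈ v.asIdeal := h3 (Ideal.mem_span_singleton_self a)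
        have h5 : a - 1 ∈ v.asIdeal := (Ideal.span_singleton_le_iff_mem _).2 h ha1
        have h6 : (1 : 𝓞 K) ∈ v.asIdeal := by
          have := v.asIdeal.sub_mem h4 h5
          rwa [sub_sub_cancel] at this
        exact v.isPrime.ne_top ((Ideal.eq_top_iff_one _).2 h6)
      have h3 : ((Nm v : ℕ) : ZMod q) ≠ 0 := GalMain.nm_ne h2 (ZMod q)
      unfold nq
      rw [dif_neg h3]
      rfl
    have h2 := GalChar.ex_congr (I := Ideal.span {a}) h1
    have h3 := GalChar.ex_map ((Nat.castRingHom (ZMod q) : ℕ →+* ZMod q) : ℕ →* ZMod q)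
      (fun v : Pl K => Nm v) hI
    have h4 := GalChar.ex_map (Units.coeHom (ZMod q)) (nq (K := K) q) hI
    apply Units.ext
    change Units.coeHom (ZMod q) (GalChar.ex (nq q) (Ideal.span {a})) = 1
    rw [h4]
    have h5 : GalChar.ex (fun v : Pl K => (Units.coeHom (ZMod q)) (nq q v)) (Ideal.span {a}) =
        ((Algebra.norm ℤ a).natAbs : ZMod q) := by
      have h6 := h2.trans h3.symm
      rw [GalMain.ex_norm ha] at h6
      exact h6
    rw [h5]
    have h6 : (((Algebra.norm ℤ a).natAbs : ℤ) : ZMod q) = ((Algebra.norm ℤ a : ℤ) : ZMod q) := by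
      rw [Int.natAbs_of_nonneg (GalMain.norm_pos ha ht).le]
    rw [Int.cast_natCast] at h6
    rw [h6]
    have h7 : (q : ℤ) ∣ Algebra.norm ℤ a - 1 := GalMain.norm_modEq ha1
    rw [← CharP.intCast_eq_zero_iff (ZMod q) q] at h7
    push_cast at h7
    exact sub_eq_zero.1 h7

end Pool.Agent.CGQ
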