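import Pool.Agent.CGQ.GalDefs

/-!
# Ray class functions: products, enlarging the set, units
-/

noncomputable section

set_option linter.unusedSectionVars false

namespace Pool.Agent.CGQ

open NumberField IsDedekindDomain Pool.Agent.CG2 Pool.Agent.CG2.GalFinAux
  Pool.Agent.CG2.GalInfAux

variable {L K : Type} [Field L] [NumberField L] [Field K] [NumberField K] [Algebra L K]

/-- **RF3**. PROOF. Take the product of the two ideals (and see RF4); `GalChar.ex_map` for the
two projections. -/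
theorem RayFn.prod {V V' : Type} [CommGroup V] [CommGroup V'] {S S' : Set (Pl K)} {ψ : Pl K → V}
    {ψ' : Pl K → V'} (hψ : RayFn S ψ) (hψ' : RayFn S' ψ') :
    RayFn (S ∪ S') (fun v => (ψ v, ψ' v)) := by
  obtain ⟨m, hm, hS, h⟩ := hψ
  obtain ⟨m', hm', hS', h'⟩ := hψ'
  refine ⟨m * m', mul_ne_zero hm hm', ?_, ?_⟩
  · rintro v (hv | hv)
    · exact Ideal.mul_le_left.trans (hS v hv)
    · exact Ideal.mul_le_right.trans (hS' v hv)
  · intro a ha ha1 ht
    have hI : Ideal.span {a} ≠ (⊥ : Ideal (𝓞 K)) := by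
      rw [Ne, Ideal.span_singleton_eq_bot]
      exact ha
    have h1 := GalChar.ex_map (MonoidHom.fst V V') (fun v => (ψ v, ψ' v)) hI
    have h2 := GalChar.ex_map (MonoidHom.snd V V') (fun v => (ψ v, ψ' v)) hI
    apply Prod.ext
    · exact h1.trans (h a ha (Ideal.mul_le_left ha1) ht)
    · exact h2.trans (h' a ha (Ideal.mul_le_right ha1) ht)

/-- **RF4**. PROOF. Multiply the ideal by the product of the places in the finite set. -/
theorem RayFn.enlarge {V : Type} [CommGroup V] {S T : Set (Pl K)} {ψ : Pl K → V}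
    (hψ : RayFn S ψ) (hT : T.Finite) : RayFn (S ∪ T) ψ := by
  classical
  obtain ⟨m, hm, hS, h⟩ := hψ
  refine ⟨m * ∏ v ∈ hT.toFinset, v.asIdeal,
    mul_ne_zero hm (Finset.prod_ne_zero_iff.2 fun v _ => v.ne_bot), ?_, ?_⟩
  · rintro v (hv | hv)
    · exact Ideal.mul_le_left.trans (hS v hv)
    · exact Ideal.mul_le_right.trans
        (Ideal.le_of_dvd (Finset.dvd_prod_of_mem _ (hT.mem_toFinset.2 hv)))
  · intro a ha ha1 ht
    exact h a ha (Ideal.mul_le_left ha1) ht

/-- **RF5**. PROOF. Same ideal; `GalChar.ex_map (Units.coeHom κ)`, see the beginning of the proof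
of `char_density` in `CG2/GalChar.lean`. -/
theorem rayFn_of_isRay {κ : Type} [Field κ] {S : Set (Pl K)} {χ : Pl K → κ} (hχ : IsRay S χ) :
    RayFn S (fun v => Units.mk0 (χ v) (hχ.1 v)) := by
  obtain ⟨h0, m, hm, hS, h⟩ := hχ
  refine ⟨m, hm, hS, fun a ha ha1 ht => ?_⟩
  have hI : Ideal.span {a} ≠ (⊥ : Ideal (𝓞 K)) := by
    rw [Ne, Ideal.span_singleton_eq_bot]
    exact ha
  apply Units.ext
  have h1 := GalChar.ex_map (Units.coeHom κ) (fun v => Units.mk0 (χ v) (h0 v)) hI
  exact h1.trans (h a ha ha1 ht)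

end Pool.Agent.CGQ
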