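import Pool.Agent.CGQ.SysHecke
import Pool.Agent.CG2.CohMap

/-!
# Equivariant maps of the coefficients: functoriality and exactness of the cohomology
-/

noncomputable section

namespace Pool.Agent.CGQ

open CategoryTheory NumberField IsDedekindDomain
open Pool.Agent.CG2 (Pl GQ GZ cosets cosets_finite alpha subRep quoRep homologyMap_smul' functor_smul)

variable {F : Type} [Field F] [NumberField F] {𝒟 : Sys F} {S : Set (Pl F)} {Φ : Chart 𝒟 S}
variable {O : Type} [CommRing O] {K : Subgroup 𝒟.A}

/-- The map on the coefficient modules induced by an equivariant map. -/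
def formsMap {W W' : Type} [AddCommGroup W] [Module O W] [AddCommGroup W']
    [Module O W'] (τ : Representation O K W) (τ' : Representation O K W')
    (φ : W →ₗ[O] W') (hφ : ∀ k w, φ (τ k w) = τ' k (φ w)) : coeff K τ ⟶ coeff K τ' :=
  Rep.ofHom
    { toLinearMap :=
        { toFun := fun f => ⟨fun y => φ (f.1 y), fun y k => by
            change φ (f.1 (rt y k)) = _
            rw [f.2 y k, hφ]⟩
          map_add' := fun a b => by
            apply Subtype.ext
            funext y
            exact map_add φ _ _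
          map_smul' := fun c a => by
            apply Subtype.ext
            funext y
            exact map_smul φ _ _ }
      isIntertwining' := by
        intro γ
        apply LinearMap.ext
        intro f
        apply Subtype.ext
        funext y
        rfl }

/-- The map on cohomology induced by a map of representations. -/
def mapCoh {H : Type} [Group H] {A B : Rep.{0} O H} (f : A ⟶ B) (i : ℕ) :
    groupCohomology A i →ₗ[O] groupCohomology B i :=
  ((groupCohomology.functor O H i).map f).hom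

theorem mapCoh_comp {H : Type} [Group H] {A B C : Rep.{0} O H} (f : A ⟶ B) (g : B ⟶ C) (i : ℕ)
    (z : groupCohomology A i) : mapCoh (f ≫ g) i z = mapCoh g i (mapCoh f i z) := by
  unfold mapCoh
  rw [CategoryTheory.Functor.map_comp, ModuleCat.hom_comp]
  rfl

theorem mapCoh_id {H : Type} [Group H] {A : Rep.{0} O H} (i : ℕ) (z : groupCohomology A i) :
    mapCoh (𝟙 A) i z = z := by
  unfold mapCoh
  rw [CategoryTheory.Functor.map_id]
  rfl

/-- The map induced by an equivariant map `W → W'` on cohomology. -/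
def cohMap {W W' : Type} [AddCommGroup W] [Module O W] [AddCommGroup W']
    [Module O W'] (τ : Representation O K W) (τ' : Representation O K W')
    (φ : W →ₗ[O] W') (hφ : ∀ k w, φ (τ k w) = τ' k (φ w)) (i : ℕ) :
    groupCohomology (coeff K τ) i →ₗ[O] groupCohomology (coeff K τ') i :=
  mapCoh (formsMap τ τ' φ hφ) i

theorem formsMap_heckeHom {W W' : Type} [AddCommGroup W] [Module O W]
    [AddCommGroup W'] [Module O W'] (τ : Representation O K W)
    (τ' : Representation O K W') (hU : UnramOff K τ Φ) (hU' : UnramOff K τ' Φ)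
    (φ : W →ₗ[O] W') (hφ : ∀ k w, φ (τ k w) = τ' k (φ w)) (t : Idx S) :
    formsMap τ τ' φ hφ ≫ heckeHom K τ' hU' t = heckeHom K τ hU t ≫ formsMap τ τ' φ hφ := by
  apply Rep.hom_ext
  apply Representation.IntertwiningMap.ext
  apply LinearMap.ext
  intro f
  apply Subtype.ext
  funext y
  exact (map_sum φ _ _).symm

/-- A map of representations which commutes with the Hecke operators commutes with the Hecke
algebra on cohomology. -/
theorem hact_comm {K K' : Subgroup 𝒟.A} {W W' : Type} [AddCommGroup W] [Module O W]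
    [AddCommGroup W'] [Module O W'] (τ : Representation O K W)
    (τ' : Representation O K' W') (hU : UnramOff K τ Φ) (hU' : UnramOff K' τ' Φ)
    (f : coeff K τ ⟶ coeff K' τ')
    (hf : ∀ t : Idx S, f ≫ heckeHom K' τ' hU' t = heckeHom K τ hU t ≫ f)
    (i : ℕ) (t : HeckeAlg S O) (z : groupCohomology (coeff K τ) i) :
    mapCoh f i (hact K τ hU i t z) = hact K' τ' hU' i t (mapCoh f i z) := by
  induction t using MvPolynomial.induction_on generalizing z with
  | C a =>
    have h1 : hact K τ hU i (MvPolynomial.C a) = algebraMap O _ a := by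
      have := (hact K τ hU i).commutes a
      rwa [MvPolynomial.algebraMap_eq] at this
    have h2 : hact K' τ' hU' i (MvPolynomial.C a) = algebraMap O _ a := by
      have := (hact K' τ' hU' i).commutes a
      rwa [MvPolynomial.algebraMap_eq] at this
    rw [h1, h2, Module.algebraMap_end_apply, Module.algebraMap_end_apply, map_smul]
  | add a b ha hb =>
    rw [map_add, map_add, LinearMap.add_apply, LinearMap.add_apply, map_add, ha, hb]
  | mul_X a t ha =>
    rw [map_mul, map_mul, Module.End.mul_apply, Module.End.mul_apply, ha, hact_X, hact_X]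
    congr 1
    have h1 := mapCoh_comp f (heckeHom K' τ' hU' t) i z
    rw [hf t, mapCoh_comp] at h1
    exact h1

/-- **E1** -/
theorem cohMap_hecke {W W' : Type} [AddCommGroup W] [Module O W]
    [AddCommGroup W'] [Module O W'] (τ : Representation O K W)
    (τ' : Representation O K W') (hU : UnramOff K τ Φ) (hU' : UnramOff K τ' Φ)
    (φ : W →ₗ[O] W') (hφ : ∀ k w, φ (τ k w) = τ' k (φ w))
    (i : ℕ) (t : HeckeAlg S O) (z : groupCohomology (coeff K τ) i) :
    cohMap τ τ' φ hφ i (hact K τ hU i t z) = hact K τ' hU' i t (cohMap τ τ' φ hφ i z) :=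
  hact_comm τ τ' hU hU' _ (formsMap_heckeHom τ τ' hU hU' φ hφ) i t z

theorem formsMap_apply {W W' : Type} [AddCommGroup W] [Module O W]
    [AddCommGroup W'] [Module O W'] (τ : Representation O K W) (τ' : Representation O K W')
    (φ : W →ₗ[O] W') (hφ : ∀ k w, φ (τ k w) = τ' k (φ w)) (f : Forms K τ)
    (y : 𝒟.Pt) : ((formsMap τ τ' φ hφ).hom f : Forms K τ').1 y = φ (f.1 y) := rfl

/-- `g = r(g) k(g)` where `r(g)` is the chosen representative of `g K`. -/
theorem out_mem (K : Subgroup 𝒟.A) (g : 𝒟.A) : (Quotient.out (g : 𝒟.A ⧸ K))⁻¹ * g ∈ K := by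
  apply QuotientGroup.eq.1
  exact Quotient.out_eq' _

theorem formsMap_surjective {W W' : Type} [AddCommGroup W] [Module O W]
    [AddCommGroup W'] [Module O W'] (τ : Representation O K W) (τ' : Representation O K W')
    (φ : W →ₗ[O] W') (hφ : ∀ k w, φ (τ k w) = τ' k (φ w))
    (hs : Function.Surjective φ) (f' : Forms K τ') :
    ∃ f : Forms K τ, ∀ y, φ (f.1 y) = f'.1 y := by
  choose w hw using fun y : 𝒟.Pt => hs (f'.1 y)
  refine ⟨⟨fun y => τ (⟨_, out_mem K y.2⟩ : K)⁻¹
    (w (y.1, Quotient.out (y.2 : 𝒟.A ⧸ K))), ?_⟩, ?_⟩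
  · intro y k
    obtain ⟨x, g⟩ := y
    have h1 : ((g * k.1 : 𝒟.A) : 𝒟.A ⧸ K) = (g : 𝒟.A ⧸ K) := by
      apply QuotientGroup.eq.2
      rw [_root_.mul_inv_rev, mul_assoc, inv_mul_cancel, mul_one]
      exact K.inv_mem k.2
    have h2 : (⟨_, out_mem K (g * k.1)⟩ : K) = ⟨_, out_mem K g⟩ * k := by
      apply Subtype.ext
      change (Quotient.out ((g * k.1 : 𝒟.A) : 𝒟.A ⧸ K))⁻¹ * (g * k.1)
        = (Quotient.out (g : 𝒟.A ⧸ K))⁻¹ * g * k.1
      rw [h1, mul_assoc]
    change τ (⟨_, out_mem K (g * k.1)⟩ : K)⁻¹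
        (w (x, Quotient.out ((g * k.1 : 𝒟.A) : 𝒟.A ⧸ K)))
      = τ k⁻¹ (τ (⟨_, out_mem K g⟩ : K)⁻¹ (w (x, Quotient.out (g : 𝒟.A ⧸ K))))
    rw [h2, h1, _root_.mul_inv_rev, map_mul, Module.End.mul_apply]
  · rintro ⟨x, g⟩
    change φ (τ (⟨_, out_mem K g⟩ : K)⁻¹ (w (x, Quotient.out (g : 𝒟.A ⧸ K)))) = f'.1 (x, g)
    rw [hφ, hw]
    have h3 := f'.2 (x, Quotient.out (g : 𝒟.A ⧸ K)) ⟨_, out_mem K g⟩
    have h4 : Quotient.out (g : 𝒟.A ⧸ K) * ((Quotient.out (g : 𝒟.A ⧸ K))⁻¹ * g) = g := by
      rw [mul_inv_cancel_left]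
    change f'.1 (x, Quotient.out (g : 𝒟.A ⧸ K) * ((Quotient.out (g : 𝒟.A ⧸ K))⁻¹ * g)) = _ at h3
    rw [h4] at h3
    exact h3.symm

/-- The short exact sequence of coefficient modules attached to a short exact sequence of
representations. -/
theorem formsMap_shortExact {W' W W'' : Type} [AddCommGroup W] [Module O W]
    [AddCommGroup W'] [Module O W'] [AddCommGroup W''] [Module O W'']
    (τ' : Representation O K W') (τ : Representation O K W)
    (τ'' : Representation O K W'')
    (ι : W' →ₗ[O] W) (hι : ∀ k w, ι (τ' k w) = τ k (ι w)) (hinj : Function.Injective ι)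
    (π : W →ₗ[O] W'') (hπ : ∀ k w, π (τ k w) = τ'' k (π w)) (hsurj : Function.Surjective π)
    (hex : LinearMap.range ι = LinearMap.ker π) :
    ∃ h0 : formsMap τ' τ ι hι ≫ formsMap τ τ'' π hπ = 0,
      (ShortComplex.mk (formsMap τ' τ ι hι) (formsMap τ τ'' π hπ) h0).ShortExact := by
  have h0 : formsMap τ' τ ι hι ≫ formsMap τ τ'' π hπ = 0 := by
    apply Rep.hom_ext
    apply Representation.IntertwiningMap.ext
    apply LinearMap.ext
    intro f
    apply Subtype.ext
    funext y
    change π (ι (f.1 y)) = 0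
    have : ι (f.1 y) ∈ LinearMap.ker π := hex ▸ LinearMap.mem_range_self ι _
    exact this
  refine ⟨h0, ?_⟩
  have hex' : (ShortComplex.mk (formsMap τ' τ ι hι) (formsMap τ τ'' π hπ) h0).Exact := by
    rw [← ShortComplex.exact_map_iff_of_faithful _ (forget₂ (Rep O 𝒟.G) (ModuleCat O)),
      ShortComplex.moduleCat_exact_iff]
    intro f hf
    have hf' : ∀ y, π ((f : Forms K τ).1 y) = 0 := by
      intro y
      have := congrArg (fun a : Forms K τ'' => a.1 y) hf
      exact this
    have hr : ∀ y, ∃ w, ι w = (f : Forms K τ).1 y := by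
      intro y
      have : (f : Forms K τ).1 y ∈ LinearMap.ker π := hf' y
      rw [← hex] at this
      exact this
    choose f' hf'' using hr
    refine ⟨(⟨f', ?_⟩ : Forms K τ'), ?_⟩
    · intro y k
      apply hinj
      rw [hι, hf'', hf'']
      exact (f : Forms K τ).2 y k
    · apply Subtype.ext
      funext y
      exact hf'' y
  refine { exact := hex', mono_f := (Rep.mono_iff_injective _).2 ?_,
           epi_g := (Rep.epi_iff_surjective _).2 ?_ }
  · intro f f' hff
    apply Subtype.ext
    funext y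
    apply hinj
    exact congrArg (fun a : Forms K τ => a.1 y) hff
  · intro f''
    obtain ⟨f, hf⟩ := formsMap_surjective τ τ'' π hπ hsurj f''
    exact ⟨f, Subtype.ext (funext hf)⟩

/-- **E2** -/
theorem cohMap_exact {W' W W'' : Type} [AddCommGroup W] [Module O W]
    [AddCommGroup W'] [Module O W'] [AddCommGroup W''] [Module O W'']
    (τ' : Representation O K W') (τ : Representation O K W)
    (τ'' : Representation O K W'')
    (ι : W' →ₗ[O] W) (hι : ∀ k w, ι (τ' k w) = τ k (ι w)) (hinj : Function.Injective ι)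
    (π : W →ₗ[O] W'') (hπ : ∀ k w, π (τ k w) = τ'' k (π w)) (hsurj : Function.Surjective π)
    (hex : LinearMap.range ι = LinearMap.ker π) (i : ℕ) (z : groupCohomology (coeff K τ) i)
    (hz : cohMap τ τ'' π hπ i z = 0) :
    ∃ z' : groupCohomology (coeff K τ') i, cohMap τ' τ ι hι i z' = z := by
  obtain ⟨h0, hS⟩ := formsMap_shortExact τ' τ τ'' ι hι hinj π hπ hsurj hex
  have h1 := groupCohomology.mapShortComplex₂_exact hS i
  rw [ShortComplex.moduleCat_exact_iff] at h1
  exact h1 z hz

/-- The map to the quotient is surjective on `Hⁱ` if `Hⁱ⁺¹` of the kernel vanishes. -/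
theorem cohMap_surj {W' W W'' : Type} [AddCommGroup W] [Module O W]
    [AddCommGroup W'] [Module O W'] [AddCommGroup W''] [Module O W'']
    (τ' : Representation O K W') (τ : Representation O K W)
    (τ'' : Representation O K W'')
    (ι : W' →ₗ[O] W) (hι : ∀ k w, ι (τ' k w) = τ k (ι w)) (hinj : Function.Injective ι)
    (π : W →ₗ[O] W'') (hπ : ∀ k w, π (τ k w) = τ'' k (π w)) (hsurj : Function.Surjective π)
    (hex : LinearMap.range ι = LinearMap.ker π) (i : ℕ)
    (h0 : Subsingleton (groupCohomology (coeff K τ') (i + 1))) :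
    Function.Surjective (cohMap τ τ'' π hπ i) := by
  obtain ⟨h0', hS⟩ := formsMap_shortExact τ' τ τ'' ι hι hinj π hπ hsurj hex
  have h1 := groupCohomology.mapShortComplex₃_exact hS (i := i) (j := i + 1) rfl
  rw [ShortComplex.moduleCat_exact_iff] at h1
  intro z
  exact h1 z (h0.elim _ _)

theorem unram_sub {W : Type} [AddCommGroup W] [Module O W] {τ : Representation O K W}
    (hU : UnramOff K τ Φ) (T : Submodule O W) (hT : ∀ k, ∀ w ∈ T, τ k w ∈ T) :
    UnramOff K (subRep τ T hT) Φ := by
  intro v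
  refine ⟨(hU v).hyp, fun k hk => ?_⟩
  apply LinearMap.ext
  intro w
  apply Subtype.ext
  change τ _ w.1 = w.1
  rw [(hU v).triv k hk]
  rfl

theorem unram_quo {W : Type} [AddCommGroup W] [Module O W] {τ : Representation O K W}
    (hU : UnramOff K τ Φ) (T : Submodule O W) (hT : ∀ k, ∀ w ∈ T, τ k w ∈ T) :
    UnramOff K (quoRep τ T hT) Φ := by
  intro v
  refine ⟨(hU v).hyp, fun k hk => ?_⟩
  apply LinearMap.ext
  intro w
  obtain ⟨w, rfl⟩ := Submodule.Quotient.mk_surjective T w
  change Submodule.Quotient.mk (τ _ w) = _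
  rw [(hU v).triv k hk]
  rfl

theorem cohMap_smul {W : Type} [AddCommGroup W] [Module O W]
    (τ : Representation O K W) (c : O)
    (hφ : ∀ k w, (c • (LinearMap.id : W →ₗ[O] W)) (τ k w)
      = τ k ((c • (LinearMap.id : W →ₗ[O] W)) w)) (i : ℕ)
    (z : groupCohomology (coeff K τ) i) :
    cohMap τ τ (c • LinearMap.id) hφ i z = c • z := by
  unfold cohMap mapCoh
  rw [functor_smul (formsMap τ τ (c • LinearMap.id) hφ) c (fun a => rfl) i]
  rfl

theorem cohMap_comp {W W' W'' : Type} [AddCommGroup W] [Module O W]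
    [AddCommGroup W'] [Module O W'] [AddCommGroup W''] [Module O W'']
    (τ : Representation O K W) (τ' : Representation O K W') (τ'' : Representation O K W'')
    (φ : W →ₗ[O] W') (hφ : ∀ k w, φ (τ k w) = τ' k (φ w))
    (φ' : W' →ₗ[O] W'') (hφ' : ∀ k w, φ' (τ' k w) = τ'' k (φ' w))
    (h : ∀ k w, (φ' ∘ₗ φ) (τ k w) = τ'' k ((φ' ∘ₗ φ) w)) (i : ℕ)
    (z : groupCohomology (coeff K τ) i) :
    cohMap τ τ'' (φ' ∘ₗ φ) h i z = cohMap τ' τ'' φ' hφ' i (cohMap τ τ' φ hφ i z) := by
  unfold cohMap
  have h1 : formsMap τ τ'' (φ' ∘ₗ φ) h = formsMap τ τ' φ hφ ≫ formsMap τ' τ'' φ' hφ' := by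
    apply Rep.hom_ext
    apply Representation.IntertwiningMap.ext
    apply LinearMap.ext
    intro f
    apply Subtype.ext
    funext y
    rfl
  rw [h1, mapCoh_comp]

end Pool.Agent.CGQ
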