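import Pool.Agent.CGQ.KFA

/-!
# Equivariant families of polyhedra: the system of cells
-/

noncomputable section

namespace Pool.Agent.CGQ

open NumberField IsDedekindDomain Pool.Agent.CG3
open Pool.Agent.CG2 (Pl PolySys CellSys Asc)

variable {F : Type} [Field F] [NumberField F]

namespace PFam

variable {𝒟 : Sys F} {K1 : Subgroup 𝒟.A} {E V : Type} [MulAction 𝒟.G E] [DecidableEq E]
  [NormedAddCommGroup V] [NormedSpace ℝ V] [FiniteDimensional ℝ V] (X : PFam 𝒟 K1 E V)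

private theorem KFam_mk {K : Subgroup 𝒟.A} (y : 𝒟.Pt) : ∃ κ ∈ K, outK (mkK K y) = rt y κ :=
  mkK_eq.1 (mkK_outK (mkK K y)).symm

private theorem KFam_cell_mul (X : PFam 𝒟 K1 E V) (g : 𝒟.A) {k : 𝒟.A} (hk : k ∈ K1) :
    (X.P (g * k)).Cell = (X.P g).Cell := by
  funext R
  apply propext
  rw [X.cell_iff, X.cell_iff, X.face_mul g k hk]

/-- The system of cells of a subgroup of `K1`. -/
def cs {K : Subgroup 𝒟.A} (hK : K ≤ K1) : CellSys 𝒟.G (PtK K) E where
  X b := (X.P (outK b).2).cx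
  n0 := X.n0
  base_card b := by rw [PolySys.cx_base, X.n0_eq]
  base_cell b := PolySys.cx_base_cell _
  max b R hR := by
    rw [PolySys.cx_cell] at hR
    rw [X.n0_eq]
    exact PolySys.face_card hR.1
  eqv γ b R := by
    rw [PolySys.cx_cell, PolySys.cx_cell]
    exact X.ori_eqv hK γ b R
  free γ b R hR hb hf := by
    rw [PolySys.cx_cell] at hR
    exact X.ori_free hK γ b R hR hb hf
  o b t := X.ori b t
  o_alt b := by
    rw [PolySys.cx_cell]
    exact X.ori_alt b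
  o_unit b t ht := by
    rw [PolySys.cx_cell] at ht
    exact X.ori_unit b t ht
  o_eqv γ b t := X.ori_smul hK γ b t
  o_cl b t := by
    rw [PolySys.cx_cell]
    exact X.ori_cl b t

/-- **KFG.** PROOF. `cell_iff` and `cx_cell`. -/
theorem cs_min {K : Subgroup 𝒟.A} (hK : K ≤ K1) : (X.cs hK).Min 1 := by
  intro b R hR
  have hR' : ((X.P (outK b).2).cx).cell R := hR
  rw [PolySys.cx_cell, X.cell_iff] at hR'
  exact Finset.card_pos.2 hR'.2

/-- **KFH.** PROOF. `KoeCell_mk`, `face_mul`. -/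
theorem cs_cell {K : Subgroup 𝒟.A} (hK : K ≤ K1) (y : 𝒟.Pt) :
    ((X.cs hK).X (mkK K y)).cell = (X.P y.2).Cell := by
  change ((X.P (outK (mkK K y)).2).cx).cell = _
  rw [PolySys.cx_cell]
  obtain ⟨κ, hκ, h⟩ := KFam_mk (K := K) y
  rw [h]
  exact KFam_cell_mul X y.2 (hK hκ)

/-- **KFI.** PROOF. `KoeCell_mk`, `face_mul`; the first component of `outK (mkK K y)` is `y.1`. -/
theorem cs_ori {K : Subgroup 𝒟.A} (hK : K ≤ K1) (y : 𝒟.Pt) (t : Fin (X.n0 + 1) → E)
    (ht : Sel.ctc (X.P y.2).Cell t) :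
    (X.cs hK).o (mkK K y) t = ((X.sg y.1 : ℤˣ) : ℤ) * X.sdet t := by
  obtain ⟨κ, hκ, h⟩ := KFam_mk (K := K) y
  have h1 : Sel.ctc (X.P (outK (mkK K y)).2).Cell t := by
    rw [h]
    have h2 : (X.P (rt y κ).2).Cell = (X.P y.2).Cell := KFam_cell_mul X y.2 (hK hκ)
    rw [h2]
    exact ht
  have h2 : X.ori (mkK K y) t = ((X.sg (outK (mkK K y)).1 : ℤˣ) : ℤ) * X.sdet t := if_pos h1
  have h3 : (outK (mkK K y)).1 = y.1 := by
    rw [h]
    rfl
  change X.ori (mkK K y) t = _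
  rw [h2, h3]

/-- **KFJ.** PROOF. `PolySys.exists_asc`, `cell_iff`; the empty set is a face (`P.ne`). -/
theorem cs_asc {K : Subgroup 𝒟.A} (hK : K ≤ K1) (b : PtK K) :
    ∃ Y : Asc E, ∀ R, Y.face R ↔ R = ∅ ∨ ((X.cs hK).X b).cell R := by
  obtain ⟨Y, hY⟩ := (X.P (outK b).2).exists_asc
  refine ⟨Y, fun R => ?_⟩
  have h1 : ((X.cs hK).X b).cell = (X.P (outK b).2).Cell := PolySys.cx_cell _
  rw [hY, h1, X.cell_iff]
  constructor
  · intro h
    rcases R.eq_empty_or_nonempty with h2 | h2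
    · exact Or.inl h2
    · exact Or.inr ⟨h, h2⟩
  · rintro (h | h)
    · subst h
      obtain ⟨x, hx⟩ := (X.P (outK b).2).ne
      exact ⟨fun e he => absurd he (Finset.notMem_empty e), x, hx,
        fun e he => absurd he (Finset.notMem_empty e)⟩
    · exact h.1

end PFam

end Pool.Agent.CGQ
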