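import Pool.Agent.CGQ.KRB
import Pool.Agent.CGQ.KFam

/-!
# The orientation cocycle: the fan
-/

noncomputable section

namespace Pool.Agent.CGQ

open NumberField IsDedekindDomain Pool.Agent.CG3
open Pool.Agent.CG2 (Pl PolySys CellSys Asc)

variable {F : Type} [Field F] [NumberField F]

section fam

variable {𝒟 : Sys F} {K1 : Subgroup 𝒟.A} {E V : Type} [MulAction 𝒟.G E] [DecidableEq E]
  [NormedAddCommGroup V] [NormedSpace ℝ V] [FiniteDimensional ℝ V] (X : PFam 𝒟 K1 E V)

/-- **KRD.** PROOF. If `S` are the facets through the vertex `h` then `l = ∑ l (dv S e) q e` (`Vx.expand`), so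
`l (dv S e) = 0` would put `l` in the span of the others. -/
theorem PFam.gen_of (b : V →L[ℝ] ℝ) (hb : X.GenF b) (g : 𝒟.A) : (X.P g).Gen b := by
  refine ⟨by rw [X.hPos]; exact hb.1, ?_⟩
  intro S h hv e he h0
  refine hb.2 (S.erase e) ?_ ?_
  · rw [Finset.card_erase_of_mem he, hv.card, ← X.n0_eq]
    omega
  · have h1 : b = ∑ e' ∈ S.erase e, b ((X.P g).dv S e') • X.q e' := by
      apply ContinuousLinearMap.ext
      intro x
      conv_lhs => rw [hv.expand x]
      rw [map_sum, ← Finset.add_sum_erase _ _ he, map_smul, h0, smul_zero, zero_add,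
        sum_apply]
      refine Finset.sum_congr rfl fun e' _ => ?_
      rw [map_smul, smul_apply, smul_eq_mul, smul_eq_mul, mul_comm, X.hq]
    rw [h1]
    refine Submodule.sum_mem _ fun e' he' => Submodule.smul_mem _ _ (Submodule.subset_span ?_)
    exact ⟨e', he', rfl⟩

/-- **KRE. FAN.** PROOF. `PolySys.min_vx` for `R = ∅` gives a vertex `S` with `0 < b (dv S e)` for all `e` in
`S`, so `b` is in the open cone (`Vx.expand`) and `om b t = sdet t = ± 1` for the orderings `t` of `S`; `cs_ori`,
`ori_unit`. If `om b t ≠ 0` for another top cell `S'` (a face with `dim V` elements is a vertex) then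
`0 < b (dv S' e)` for all `e` in `S'` (the `q e` are independent) and `PolySys.min_unique` gives
`S' = S`. -/
theorem PFam.om_fan {K : Subgroup 𝒟.A} (hK : K ≤ K1) (b : V →L[ℝ] ℝ) (hb : X.GenF b)
    (x : PtK K) : ∃ R : Finset E, ((X.cs hK).X x).cell R ∧ R.card = X.n0 + 1 ∧
      (∀ t : Fin (X.n0 + 1) → E, Sel.im t = R →
        (X.cs hK).o x t * X.om b t = ((X.sg (outK x).1 : ℤˣ) : ℤ)) ∧
      ∀ t : Fin (X.n0 + 1) → E, Sel.ctc ((X.cs hK).X x).cell t → Sel.im t ≠ R → X.om b t = 0 := by
  classical
  have hG := X.gen_of b hb (outK x).2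
  have hcell : ((X.cs hK).X x).cell = (X.P (outK x).2).Cell := (X.P (outK x).2).cx_cell
  have hF0 : (X.P (outK x).2).Face ∅ := by
    obtain ⟨h, hh⟩ := (X.P (outK x).2).ne
    exact ⟨fun e he => absurd he (Finset.notMem_empty e), h, hh,
      fun e he => absurd he (Finset.notMem_empty e)⟩
  obtain ⟨S, h, hv, -, hS, -⟩ := PolySys.min_vx hG hF0
  have hSc : S.card = X.n0 + 1 := hv.card.trans X.n0_eq.symm
  have hface : (X.P (outK x).2).Face S :=
    ⟨fun e he => ((hv.tight e).1 he).1, h, hv.mem, fun e he => ((hv.tight e).1 he).2⟩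
  have hSn : S.Nonempty := by
    rw [← Finset.card_pos, hSc]
    exact Nat.succ_pos _
  have hSC : (X.P (outK x).2).Cell S := (X.cell_iff _ _).2 ⟨hface, hSn⟩
  have hinj : ∀ t : Fin (X.n0 + 1) → E, Sel.im t = S → Function.Injective t := by
    intro t ht
    have h1 : (Finset.univ.image t).card = (Finset.univ : Finset (Fin (X.n0 + 1))).card := by
      have h2 : Finset.univ.image t = S := ht
      rw [h2, hSc, Finset.card_univ, Fintype.card_fin]
    intro i j hij
    exact Finset.card_image_iff.1 h1 (Finset.mem_coe.2 (Finset.mem_univ i))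
      (Finset.mem_coe.2 (Finset.mem_univ j)) hij
  refine ⟨S, by rw [hcell]; exact hSC, hSc, ?_, ?_⟩
  · intro t ht
    have hti := hinj t ht
    have hctc : Sel.ctc (X.P (outK x).2).Cell t := ⟨hti, by rw [ht]; exact hSC⟩
    have hone := X.ori_unit x t hctc
    have ho : (X.cs hK).o x t = ((X.sg (outK x).1 : ℤˣ) : ℤ) * X.sdet t := by
      change X.ori x t = _
      unfold PFam.ori
      rw [if_pos hctc]
    have hori : X.ori x t = ((X.sg (outK x).1 : ℤˣ) : ℤ) * X.sdet t := by
      unfold PFam.ori
      rw [if_pos hctc]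
    have hcone : InCone b (fun i => X.q (t i)) := by
      refine ⟨fun i => b ((X.P (outK x).2).dv S (t i)), fun i => ?_, ?_⟩
      · exact hS (t i) (by rw [← ht]; exact Sel.mem_im.2 ⟨i, rfl⟩) (Finset.notMem_empty _)
      · apply ContinuousLinearMap.ext
        intro y
        conv_lhs => rw [hv.expand y]
        have h2 : S = Finset.univ.image t := ht.symm
        rw [map_sum, sum_apply]
        conv_lhs => rw [h2]
        rw [Finset.sum_image fun i _ j _ hij => hti hij]
        refine Finset.sum_congr rfl fun i _ => ?_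
        rw [map_smul, smul_apply, smul_eq_mul, smul_eq_mul, mul_comm, X.hq, ← h2]
    have hom : X.om b t = X.sdet t := by
      unfold PFam.om
      rw [if_pos hcone]
    have hu : ((X.sg (outK x).1 : ℤˣ) : ℤ) * ((X.sg (outK x).1 : ℤˣ) : ℤ) = 1 := by
      rw [← Units.val_mul, Int.units_mul_self, Units.val_one]
    rw [hori] at hone
    have hsd : X.sdet t * X.sdet t = 1 := by
      have h3 : (((X.sg (outK x).1 : ℤˣ) : ℤ) * ((X.sg (outK x).1 : ℤˣ) : ℤ)) *
          (X.sdet t * X.sdet t) = 1 := by
        rw [← hone]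
        ring
      rwa [hu, one_mul] at h3
    rw [ho, hom, mul_assoc, hsd, mul_one]
  · intro t ht hne
    rw [hcell] at ht
    obtain ⟨hti, hC⟩ := ht
    unfold PFam.om
    rw [if_neg]
    rintro ⟨c, hc, hbc⟩
    apply hne
    obtain ⟨hA, h', hh', hq'⟩ := hC.1
    have hcard : (Sel.im t).card = Module.finrank ℝ V := by
      rw [← X.n0_eq, Sel.im, Finset.card_image_of_injective _ hti, Finset.card_univ,
        Fintype.card_fin]
    have hv' : (X.P (outK x).2).Vx (Sel.im t) h' := by
      refine ⟨hh', fun e => ⟨fun he => ⟨hA e he, hq' e he⟩, fun he => ?_⟩, hcard⟩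
      by_contra hcon
      have h4 : (X.P (outK x).2).Face (insert e (Sel.im t)) := by
        refine ⟨fun e' he' => ?_, h', hh', fun e' he' => ?_⟩
        · rcases Finset.mem_insert.1 he' with rfl | h5
          · exact he.1
          · exact hA e' h5
        · rcases Finset.mem_insert.1 he' with rfl | h5
          · exact he.2
          · exact hq' e' h5
      have h5 := PolySys.face_card h4
      rw [Finset.card_insert_of_notMem hcon, hcard] at h5
      omega
    refine PolySys.min_unique hG hv' hv (Finset.empty_subset _) (Finset.empty_subset _) ?_ hS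
    intro e he _
    obtain ⟨i, rfl⟩ := Sel.mem_im.1 he
    have h6 : b ((X.P (outK x).2).dv (Sel.im t) (t i)) = c i := by
      conv_lhs => rw [hbc]
      rw [sum_apply, Finset.sum_eq_single i]
      · rw [smul_apply, smul_eq_mul, ← X.hq (outK x).2, (hv'.dual (t i) he).1, mul_one]
      · intro j _ hji
        rw [smul_apply, smul_eq_mul, ← X.hq (outK x).2,
          (hv'.dual (t i) he).2 (t j) (Sel.mem_im.2 ⟨j, rfl⟩) (fun h7 => hji (hti h7)), mul_zero]
      · intro h7
        exact absurd (Finset.mem_univ i) h7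
    rw [h6]
    exact hc i

end fam

end Pool.Agent.CGQ
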