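import Pool.Agent.CGQ.KFD

/-!
# Equivariant families of polyhedra: products over the fibres
-/

noncomputable section

namespace Pool.Agent.CGQ

open NumberField IsDedekindDomain Pool.Agent.CG3
open Pool.Agent.CG2 (Pl PolySys CellSys Asc)

variable {F : Type} [Field F] [NumberField F]

section fibre

variable {𝒟 : Sys F} {K K2 : Subgroup 𝒟.A}

/-- The projection `Pt / K2 → Pt / K`. -/
private def KFP_pr (K K2 : Subgroup 𝒟.A) (b : PtK K2) : PtK K := mkK K (outK b)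

private theorem KFP_out (y : 𝒟.Pt) : ∃ κ ∈ K2, outK (mkK K2 y) = rt y κ := by
  have h := mkK_outK (mkK K2 y)
  exact mkK_eq.1 h.symm

private theorem KFP_pr_mk (h1 : K2 ≤ K) (y : 𝒟.Pt) : KFP_pr K K2 (mkK K2 y) = mkK K y := by
  obtain ⟨κ, hκ, h⟩ := KFP_out (K2 := K2) y
  rw [KFP_pr, h]
  exact mkK_rt y (h1 hκ)

private theorem KFP_pr_smul (h1 : K2 ≤ K) (γ : 𝒟.G) (i : PtK K2) :
    KFP_pr K K2 (γ • i) = γ • KFP_pr K K2 i := by
  obtain ⟨y, rfl⟩ := mkK_surj i
  rw [smul_mkK, KFP_pr_mk h1, KFP_pr_mk h1, smul_mkK]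

/-- The fibre over the coset of `y`. -/
private def KFP_rho (K K2 : Subgroup 𝒟.A) (y : 𝒟.Pt) : K ⧸ (K2.subgroupOf K) → PtK K2 :=
  Quotient.lift (fun κ : K => mkK K2 (rt y κ)) (by
    intro a b hab
    have h := QuotientGroup.leftRel_apply.1 hab
    rw [Subgroup.mem_subgroupOf] at h
    rw [mkK_eq]
    refine ⟨_, h, ?_⟩
    rw [← rt_mul]
    congr 1
    simp)

private theorem KFP_rho_inj (y : 𝒟.Pt) : Function.Injective (KFP_rho K K2 y) := by
  intro a b
  induction a using Quotient.inductionOn with | _ a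
  induction b using Quotient.inductionOn with | _ b
  intro h
  change mkK K2 (rt y a) = mkK K2 (rt y b) at h
  rw [mkK_eq] at h
  obtain ⟨κ, hκ, h⟩ := h
  rw [← rt_mul] at h
  have h2 : y.2 * (b : 𝒟.A) = y.2 * ((a : 𝒟.A) * κ) := congrArg Prod.snd h
  have h3 : (b : 𝒟.A) = (a : 𝒟.A) * κ := mul_left_cancel h2
  apply Quotient.sound
  refine QuotientGroup.leftRel_apply.2 ?_
  rw [Subgroup.mem_subgroupOf, Subgroup.coe_mul, Subgroup.coe_inv, h3, inv_mul_cancel_left]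
  exact hκ

private theorem KFP_rho_range (h1 : K2 ≤ K) (y : 𝒟.Pt) : Set.range (KFP_rho K K2 y) =
    {i | KFP_pr K K2 i = mkK K y} := by
  ext i
  constructor
  · rintro ⟨a, rfl⟩
    induction a using Quotient.inductionOn with | _ a
    change KFP_pr K K2 (mkK K2 (rt y a)) = mkK K y
    rw [KFP_pr_mk h1, mkK_rt y a.2]
  · intro hi
    obtain ⟨z, rfl⟩ := mkK_surj i
    rw [Set.mem_ofPred_eq, KFP_pr_mk h1, eq_comm, mkK_eq] at hi
    obtain ⟨κ, hκ, rfl⟩ := hi
    exact ⟨Quotient.mk _ ⟨κ, hκ⟩, rfl⟩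

open Classical in
/-- The fibre over `b`. -/
private def KFP_J (K K2 : Subgroup 𝒟.A) (b : PtK K) : Finset (PtK K2) :=
  if h : {i | KFP_pr K K2 i = b}.Finite then h.toFinset else ∅

variable [hfin : (K2.subgroupOf K).FiniteIndex]

private theorem KFP_fin (h1 : K2 ≤ K) (b : PtK K) : {i | KFP_pr K K2 i = b}.Finite := by
  obtain ⟨y, rfl⟩ := mkK_surj b
  rw [← KFP_rho_range h1]
  exact Set.finite_range _

private theorem KFP_mem_J (h1 : K2 ≤ K) {b : PtK K} {i : PtK K2} :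
    i ∈ KFP_J K K2 b ↔ KFP_pr K K2 i = b := by
  rw [KFP_J, dif_pos (KFP_fin h1 b)]
  simp

private theorem KFP_card_J (h1 : K2 ≤ K) (b : PtK K) :
    (KFP_J K K2 b).card = (K2.subgroupOf K).index := by
  classical
  obtain ⟨y, rfl⟩ := mkK_surj b
  have h2 : ((KFP_J K K2 (mkK K y) : Finset (PtK K2)) : Set (PtK K2)) =
      Set.range (KFP_rho K K2 y) := by
    rw [KFP_rho_range h1]
    ext i
    rw [Finset.mem_coe, KFP_mem_J h1]
    rfl
  rw [← Set.ncard_coe_finset, h2, Set.ncard_range_of_injective (KFP_rho_inj y)]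
  rfl

private theorem KFP_J_ne (h1 : K2 ≤ K) (b : PtK K) : (KFP_J K K2 b).Nonempty := by
  obtain ⟨y, rfl⟩ := mkK_surj b
  exact ⟨mkK K2 y, (KFP_mem_J h1).2 (KFP_pr_mk h1 y)⟩

private theorem KFP_J_smul (h1 : K2 ≤ K) (γ : 𝒟.G) {b : PtK K} {i : PtK K2} :
    γ • i ∈ KFP_J K K2 (γ • b) ↔ i ∈ KFP_J K K2 b := by
  rw [KFP_mem_J h1, KFP_mem_J h1, KFP_pr_smul h1]
  exact (MulAction.injective γ).eq_iff

end fibre

private theorem KFP_toPerm_symm {Γ X : Type} [Group Γ] [MulAction Γ X] (γ : Γ) (x : X) :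
    (MulAction.toPerm γ : Equiv.Perm X).symm x = γ⁻¹ • x := rfl

private theorem KFP_toLeft_mp {Γ X : Type} [Group Γ] [MulAction Γ X] (γ : Γ)
    (R : Finset (X ⊕ X)) : (Sel.mp (MulAction.toPerm γ) R).toLeft =
      Sel.mp (MulAction.toPerm γ) R.toLeft := by
  ext x
  rw [Finset.mem_toLeft, Sel.mem_mp, Sel.mem_mp, Finset.mem_toLeft]
  rfl

private theorem KFP_toRight_mp {Γ X : Type} [Group Γ] [MulAction Γ X] (γ : Γ)
    (R : Finset (X ⊕ X)) : (Sel.mp (MulAction.toPerm γ) R).toRight =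
      Sel.mp (MulAction.toPerm γ) R.toRight := by
  ext x
  rw [Finset.mem_toRight, Sel.mem_mp, Sel.mem_mp, Finset.mem_toRight]
  rfl

private theorem KFP_mem_sl {I X : Type} [DecidableEq I] [DecidableEq X] {i : I} {R : Finset (I × X)}
    {x : X} : x ∈ (R.filter fun e => e.1 = i).image Prod.snd ↔ (i, x) ∈ R := by
  rw [Finset.mem_image]
  constructor
  · rintro ⟨⟨a, b⟩, h1, h2⟩
    rw [Finset.mem_filter] at h1
    have h3 : b = x := h2
    have h4 : a = i := h1.2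
    rw [← h3, ← h4]
    exact h1.1
  · intro h
    exact ⟨(i, x), Finset.mem_filter.2 ⟨h, rfl⟩, rfl⟩

private theorem KFP_sl_mp {Γ I X : Type} [Group Γ] [MulAction Γ I] [MulAction Γ X] [DecidableEq I]
    [DecidableEq X] (γ : Γ) (i : I) (R : Finset (I × X)) :
    ((Sel.mp (MulAction.toPerm γ) R).filter fun e => e.1 = γ • i).image Prod.snd =
      Sel.mp (MulAction.toPerm γ) ((R.filter fun e => e.1 = i).image Prod.snd) := by
  ext x
  rw [KFP_mem_sl, Sel.mem_mp, Sel.mem_mp, KFP_mem_sl, KFP_toPerm_symm,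
    KFP_toPerm_symm]
  have : γ⁻¹ • (γ • i, x) = (i, γ⁻¹ • x) := by
    rw [Prod.smul_mk, inv_smul_smul]
  rw [this]

section poly

variable {𝒟 : Sys F} {K K1 K2 : Subgroup 𝒟.A} (h1 : K2 ≤ K) (h3 : K2 ≤ K1)
  [hfin : (K2.subgroupOf K).FiniteIndex] {E V : Type} [MulAction 𝒟.G E] [DecidableEq E]
  [NormedAddCommGroup V] [NormedSpace ℝ V] [FiniteDimensional ℝ V] (X : PFam 𝒟 K1 E V)

private instance KFP_dec (K : Subgroup 𝒟.A) : DecidableEq (PtK K) := Classical.decEq _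

/-- The polyhedron of a point of `Pt / K2`. -/
private def KFP_P (i : PtK K2) : PolySys (E) (V) := X.P (outK i).2

private theorem KFP_out_smul (γ : 𝒟.G) (i : PtK K2) : ∃ κ ∈ K2,
    (outK (γ • i)).2 = diag γ * (outK i).2 * κ := by
  have h : γ • i = mkK K2 (Pool.Agent.CGQ.act γ (outK i)) := by
    conv_lhs => rw [← mkK_outK i, smul_mkK]
    rfl
  obtain ⟨κ, hκ, h2⟩ := KFP_out (K2 := K2) (Pool.Agent.CGQ.act γ (outK i))
  refine ⟨κ, hκ, ?_⟩
  rw [h, h2]
  rfl

include h3 in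
private theorem KFP_P_smul (γ : 𝒟.G) (i : PtK K2) (T : Finset (E)) :
    (KFP_P X (γ • i)).Cell (Sel.mp (MulAction.toPerm γ) T) ↔
      (KFP_P X i).Cell T := by
  obtain ⟨κ, hκ, h⟩ := KFP_out_smul γ i
  rw [KFP_P, KFP_P, h, X.cell_iff, X.cell_iff, X.face_mul _ κ (h3 hκ), X.face_smul, Sel.mp,
    Finset.map_nonempty]

/-- The product of the polyhedra of a fibre. -/
private def KFP_Q (b : PtK K) : PolySys (PtK K2 × E) (KFP_J K K2 b → V) :=
  PolySys.prod (KFP_J K K2 b) (KFP_J_ne h1 b) (KFP_P X)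

include h3 in
private theorem KFP_Q_smul (γ : 𝒟.G) (b : PtK K) (R : Finset (PtK K2 × E)) :
    (KFP_Q h1 X (γ • b)).Cell (Sel.mp (MulAction.toPerm γ) R) ↔
      (KFP_Q h1 X b).Cell R := by
  rw [KFP_Q, KFP_Q, PolySys.prod_cell, PolySys.prod_cell]
  refine and_congr ?_ ?_
  · constructor
    · intro h e he
      have h2 := h (γ • e) (Sel.mem_mp.2 (by
        rw [KFP_toPerm_symm, inv_smul_smul]
        exact he))
      exact (KFP_J_smul h1 γ).1 h2
    · intro h e he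
      rw [Sel.mem_mp, KFP_toPerm_symm] at he
      have h2 := (KFP_J_smul h1 γ).2 (h _ he)
      have h4 : γ • (γ⁻¹ • e).1 = e.1 := by
        rw [Prod.smul_fst, smul_inv_smul]
      rwa [h4] at h2
  · constructor
    · intro h i hi
      have h2 := h (γ • i) ((KFP_J_smul h1 γ).2 hi)
      rw [KFP_sl_mp, KFP_P_smul h3] at h2
      exact h2
    · intro h i hi
      have h4 : γ • (γ⁻¹ • i) = i := smul_inv_smul _ _
      rw [← h4] at hi ⊢
      rw [KFP_J_smul h1] at hi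
      rw [KFP_sl_mp, KFP_P_smul h3]
      exact h _ hi

include h3 in
private theorem KFP_D_smul (γ : 𝒟.G) (b : PtK K)
    (R : Finset ((PtK K2 × E) ⊕ (PtK K2 × E))) :
    (KFP_Q h1 X (γ • b)).double.Cell (Sel.mp (MulAction.toPerm γ) R) ↔
      (KFP_Q h1 X b).double.Cell R := by
  rw [PolySys.double_cell, PolySys.double_cell, KFP_toLeft_mp, KFP_toRight_mp,
    KFP_Q_smul h1 h3, KFP_Q_smul h1 h3]

include h3 in
/-- The action on the cells is free. -/
private theorem KFP_free (hTF : TorsionFree K) (γ : 𝒟.G) (b : PtK K)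
    (R : Finset ((PtK K2 × E) ⊕ (PtK K2 × E)))
    (hR : (KFP_Q h1 X b).double.Cell R) (hb : γ • b = b)
    (hf : Sel.mp (MulAction.toPerm γ) R = R) : γ = 1 := by
  have hR1 := ((PolySys.double_cell _ _).1 hR).1
  have hf1 : Sel.mp (MulAction.toPerm γ) R.toLeft = R.toLeft := by
    rw [← KFP_toLeft_mp, hf]
  obtain ⟨i₀, hi₀⟩ := KFP_J_ne h1 b
  have hpow : ∀ n : ℕ, γ ^ n • i₀ ∈ (KFP_J K K2 b : Set (PtK K2)) := by
    intro n
    induction n with
    | zero => rw [pow_zero, one_smul]; exact hi₀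
    | succ n ih =>
      rw [pow_succ', mul_smul]
      have := (KFP_J_smul h1 γ).2 (Finset.mem_coe.1 ih)
      rw [hb] at this
      exact this
  have hpowR : ∀ n : ℕ, Sel.mp (MulAction.toPerm (γ ^ n)) R.toLeft = R.toLeft := by
    intro n
    induction n with
    | zero =>
      ext x
      rw [Sel.mem_mp, KFP_toPerm_symm, pow_zero, inv_one, one_smul]
    | succ n ih =>
      ext x
      rw [Sel.mem_mp, KFP_toPerm_symm, pow_succ, _root_.mul_inv_rev, mul_smul]
      conv_rhs => rw [← ih, Sel.mem_mp, KFP_toPerm_symm, ← hf1, Sel.mem_mp,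
        KFP_toPerm_symm]
  obtain ⟨m, n, hmn, h⟩ := Set.Finite.exists_lt_map_eq_of_forall_mem hpow (Finset.finite_toSet _)
  have hfix : γ ^ (n - m) • i₀ = i₀ := by
    have h2 : γ ^ m • (γ ^ (n - m) • i₀) = γ ^ m • i₀ := by
      rw [← mul_smul, ← pow_add, Nat.add_sub_cancel' hmn.le]
      exact h.symm
    exact MulAction.injective _ h2
  have hn : 0 < n - m := by omega
  set δ := γ ^ (n - m) with hδ
  -- the cell of the factor i₀
  have hcell := ((PolySys.prod_cell _ _ _ _).1 hR1).2 i₀ hi₀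
  have hslice : Sel.mp (MulAction.toPerm δ) ((R.toLeft.filter fun e => e.1 = i₀).image Prod.snd) =
      (R.toLeft.filter fun e => e.1 = i₀).image Prod.snd := by
    rw [← KFP_sl_mp, hpowR, hfix]
  have h5 : δ ^ 1 = 1 := by
    obtain ⟨κ, hκ, h6⟩ := KFP_out_smul δ i₀
    rw [hfix] at h6
    rw [pow_one]
    refine X.free δ (outK i₀).2 κ⁻¹ (K1.inv_mem (h3 hκ)) ?_ _ hcell hslice
    rw [eq_mul_inv_iff_mul_eq]
    exact h6.symm
  rw [pow_one] at h5
  obtain ⟨y, rfl⟩ := mkK_surj b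
  rw [smul_mkK, eq_comm, mkK_eq] at hb
  obtain ⟨κ, hκ, h6⟩ := hb
  have h7 : diag γ * y.2 = y.2 * κ := congrArg Prod.snd h6
  refine hTF y.2 γ (n - m) hn ?_ h5
  rw [mul_assoc, h7, inv_mul_cancel_left]
  exact hκ

end poly

section orient

variable {E V : Type} [NormedAddCommGroup V] [NormedSpace ℝ V] [FiniteDimensional ℝ V]

private theorem KFP_dt_reindex (P : PolySys E V) {m m' : ℕ} (b : Module.Basis (Fin m) ℝ V)
    (e : Fin m ≃ Fin m') (t : Fin m' → E) : P.dt (b.reindex e) t = P.dt b (t ∘ e) := by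
  rw [PolySys.dt, PolySys.dt]
  have h : (Matrix.of fun i j => P.q ((t ∘ e) i) (b j)) =
      (Matrix.of fun i j => P.q (t i) ((b.reindex e) j)).submatrix e e := by
    ext i j
    simp
  rw [h, Matrix.det_submatrix_equiv_self]

private theorem KFP_sg_reindex (P : PolySys E V) {m m' : ℕ} (b : Module.Basis (Fin m) ℝ V)
    (e : Fin m ≃ Fin m') (t : Fin m' → E) : P.sg (b.reindex e) t = P.sg b (t ∘ e) := by
  rw [PolySys.sg, PolySys.sg, KFP_dt_reindex]

private theorem KFP_sg_perm [DecidableEq E] (P : PolySys E V) {m : ℕ} (b : Module.Basis (Fin m) ℝ V) (t : Fin m → E)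
    (π : Equiv.Perm (Fin m)) : P.sg b (t ∘ π) = (Equiv.Perm.sign π : ℤ) * P.sg b t := by
  rw [PolySys.sg, PolySys.sg, P.dt_perm]
  rcases Int.units_eq_one_or (Equiv.Perm.sign π) with h | h
  · rw [h]
    simp
  · rw [h]
    simp [Left.sign_neg]

private theorem KFP_sg_sq [DecidableEq E] (P : PolySys E V) {m : ℕ} (b : Module.Basis (Fin m) ℝ V)
    (t : Fin m → E) (ht : Sel.ctc P.Face t) : P.sg b t * P.sg b t = 1 := by
  have h := P.dt_ne b t ht
  rw [PolySys.sg]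
  rcases lt_or_gt_of_ne h with h | h
  · rw [sign_neg h]; rfl
  · rw [sign_pos h]; rfl

end orient

section final

variable {𝒟 : Sys F} {K K1 K2 : Subgroup 𝒟.A} (h1 : K2 ≤ K) (h3 : K2 ≤ K1)
  [hfin : (K2.subgroupOf K).FiniteIndex] {E V : Type} [MulAction 𝒟.G E] [DecidableEq E]
  [NormedAddCommGroup V] [NormedSpace ℝ V] [FiniteDimensional ℝ V] (X : PFam 𝒟 K1 E V)

/-- The dimension of the products. -/
private def KFP_m (_ : PFam 𝒟 K1 E V) (K K2 : Subgroup 𝒟.A) : ℕ :=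
  (K2.subgroupOf K).index * Module.finrank ℝ V

include h1 in
private theorem KFP_finrank (b : PtK K) :
    Module.finrank ℝ (KFP_J K K2 b → V) = KFP_m X K K2 := by
  rw [Module.finrank_pi_fintype, Finset.sum_const, Finset.card_univ, Fintype.card_coe,
    KFP_card_J h1, smul_eq_mul, KFP_m]

omit hfin in
include X in
private theorem KFP_VR_pos : 0 < Module.finrank ℝ V := by
  rw [← X.n0_eq]
  omega

private theorem KFP_m_pos : 0 < KFP_m X K K2 :=
  Nat.mul_pos (Nat.pos_of_ne_zero hfin.index_ne_zero) (KFP_VR_pos X)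

private theorem KFP_mm : KFP_m X K K2 + KFP_m X K K2 =
    (KFP_m X K K2 + KFP_m X K K2 - 1) + 1 := by
  have := KFP_m_pos X (K := K) (K2 := K2)
  omega

/-- A basis of the space of the product. -/
private def KFP_b (b : PtK K) : Module.Basis (Fin (KFP_m X K K2)) ℝ (KFP_J K K2 b → V) :=
  Module.finBasisOfFinrankEq ℝ _ (KFP_finrank h1 X b)

/-- The orientation. -/
private def KFP_sg (b : PtK K)
    (t : Fin ((KFP_m X K K2 + KFP_m X K K2 - 1) + 1) →
      (PtK K2 × E) ⊕ (PtK K2 × E)) : ℤ :=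
  (KFP_Q h1 X b).double.sg
    ((PolySys.dblB (KFP_b h1 X b)).reindex (finCongr (KFP_mm X))) t

/-- The action on the space of the product. -/
private def KFP_Phi (γ : 𝒟.G) (b : PtK K) :
    (KFP_J K K2 b → V) ≃ₗ[ℝ] (KFP_J K K2 (γ • b) → V) where
  toFun h i := X.act γ (h ⟨γ⁻¹ • i.1, by
    rw [← KFP_J_smul h1 γ, smul_inv_smul]
    exact i.2⟩)
  invFun h i := (X.act γ).symm (h ⟨γ • i.1, (KFP_J_smul h1 γ).2 i.2⟩)
  map_add' a b := by
    funext i
    simp
  map_smul' c a := by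
    funext i
    simp
  left_inv h := by
    funext i
    simp
  right_inv h := by
    funext i
    simp

private theorem KFP_sg_smul (γ : 𝒟.G) (b : PtK K)
    (t : Fin ((KFP_m X K K2 + KFP_m X K K2 - 1) + 1) →
      (PtK K2 × E) ⊕ (PtK K2 × E))
    (ht : ∀ i, t i ∈ (KFP_Q h1 X b).double.A) :
    KFP_sg h1 X (γ • b) (fun i => γ • t i) = KFP_sg h1 X b t := by
  rw [KFP_sg, KFP_sg, KFP_sg_reindex, KFP_sg_reindex]
  refine PolySys.dor_iso (KFP_Q h1 X b) (KFP_Q h1 X (γ • b)) (KFP_b h1 X b)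
    (KFP_b h1 X (γ • b)) (KFP_Phi h1 X γ b) (fun e => γ • e) ?_ (t ∘ finCongr (KFP_mm X))
    (fun i => ht _)
  rintro ⟨i, x⟩ ⟨hi, hx⟩ h
  have hi2 : γ • i ∈ KFP_J K K2 (γ • b) := (KFP_J_smul h1 γ).2 hi
  change PolySys.prodQ (KFP_J K K2 (γ • b)) (KFP_P X) (γ • i, γ • x)
    (KFP_Phi h1 X γ b h) = PolySys.prodQ (KFP_J K K2 b) (KFP_P X) (i, x) h
  rw [PolySys.prodQ_apply (e := (γ • i, γ • x)) hi2, PolySys.prodQ_apply (e := (i, x)) hi]
  change (X.P (outK (γ • i)).2).q (γ • x) (X.act γ (h _)) = (X.P (outK i).2).q x (h _)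
  rw [X.hq, X.hq, X.act_q]
  congr 2
  apply Subtype.ext
  exact inv_smul_smul γ i

open Classical in
/-- The system of cells. -/
private def KFP_sys (hTF : TorsionFree K) :
    CellSys 𝒟.G (PtK K) ((PtK K2 × E) ⊕ (PtK K2 × E)) where
  X b := (KFP_Q h1 X b).double.cx
  n0 := KFP_m X K K2 + KFP_m X K K2 - 1
  base_card b := by
    rw [PolySys.cx_base, Module.finrank_prod, KFP_finrank h1 X, ← (KFP_mm X)]
  base_cell b := PolySys.cx_base_cell _
  max b R hR := by
    rw [PolySys.cx_cell] at hR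
    have := PolySys.face_card hR.1
    rwa [Module.finrank_prod, KFP_finrank h1 X, (KFP_mm X)] at this
  eqv γ b R := by
    rw [PolySys.cx_cell, PolySys.cx_cell]
    exact KFP_D_smul h1 h3 X γ b R
  free γ b R hR hb hf := by
    rw [PolySys.cx_cell] at hR
    exact KFP_free h1 h3 X hTF γ b R hR hb hf
  o b t := if Sel.ctc (KFP_Q h1 X b).double.Cell t then KFP_sg h1 X b t else 0
  o_alt b := by
    rw [PolySys.cx_cell]
    refine ⟨fun t ht => by
      by_contra h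
      exact ht (if_neg h), fun t π => ?_⟩
    have hπ : Sel.ctc (KFP_Q h1 X b).double.Cell (t ∘ π) ↔
        Sel.ctc (KFP_Q h1 X b).double.Cell t := by
      rw [Sel.ctc, Sel.ctc, Sel.inj_perm, Sel.im_perm]
    simp only [hπ]
    split_ifs with h
    · rw [KFP_sg, KFP_sg_perm, smul_eq_mul, KFP_sg]
    · rw [smul_zero]
  o_unit b t ht := by
    rw [PolySys.cx_cell] at ht
    simp only [if_pos ht]
    exact KFP_sg_sq _ _ _ ⟨ht.1, ht.2.1⟩
  o_eqv γ b t := by
    have hγ : Sel.ctc (KFP_Q h1 X (γ • b)).double.Cell (fun i => γ • t i) ↔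
        Sel.ctc (KFP_Q h1 X b).double.Cell t := by
      have h2 : (fun i => γ • t i) = (MulAction.toPerm γ :
        Equiv.Perm ((PtK K2 × E) ⊕ (PtK K2 × E))) ∘ t := rfl
      rw [Sel.ctc, Sel.ctc, h2, Sel.comp_inj, Sel.im_comp, KFP_D_smul h1 h3]
    simp only [hγ]
    split_ifs with h
    · refine KFP_sg_smul h1 X γ b t fun i => ?_
      exact h.2.1.1 _ (Sel.mem_im.2 ⟨i, rfl⟩)
    · rfl
  o_cl b t := by
    rw [PolySys.cx_cell]
    rw [Sel.dc]
    split_ifs with h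
    · rw [← PolySys.sum_sg (KFP_Q h1 X b).double
        ((PolySys.dblB (KFP_b h1 X b)).reindex (finCongr (KFP_mm X))) t h]
      refine Finset.sum_congr rfl fun ρ hρ => ?_
      rw [if_pos]
      · rfl
      · rw [← PolySys.cx_cell] at hρ h ⊢
        exact (Sel.Cx.ct_cons _ h).2 hρ
    · rfl

end final

namespace PFam

variable {𝒟 : Sys F} {K1 : Subgroup 𝒟.A} {E V : Type} [MulAction 𝒟.G E] [DecidableEq E]
  [NormedAddCommGroup V] [NormedSpace ℝ V] [FiniteDimensional ℝ V] (X : PFam 𝒟 K1 E V)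

include X in
/-- **KFP.** PROOF. Port of `CG2.exists_prodCell` (all of `ProdCell.lean`) with `K1 ⊓ K` for
`K ⊓ KN F 3`, `X.P` for `koe`, `X.act` for `hA` (`act_q`), and the sign not needed (the double). -/
theorem exists_prodCell {K : Subgroup 𝒟.A} (h1 : OC K1) (hK : OC K)
    (hTF : TorsionFree K) : ∃ (E' : Type) (_ : MulAction 𝒟.G E') (_ : DecidableEq E'),
      Nonempty (CellSys 𝒟.G (PtK K) E') := by
  have hfin : ((K ⊓ K1).subgroupOf K).FiniteIndex := hK.finiteIndex (hK.inter h1)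
  exact ⟨_, _, _, ⟨KFP_sys (K := K) (K2 := K ⊓ K1) inf_le_left inf_le_right X hTF⟩⟩

end PFam

end Pool.Agent.CGQ
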