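import Pool.Agent.CGQ.KMF

/-!
# Positive algebras: forms which are large on a lattice
-/

noncomputable section

namespace Pool.Agent.CGQ

namespace PA

variable {A : Type} [Ring A] [Algebra ℝ A] (P : PA A) [FiniteDimensional ℝ A]

private def kmkB (h : P.V) (z w : A) : ℝ :=
  P.tau ((P.el h : A) * (z * P.inv w)) + P.tau ((P.el h : A) * (w * P.inv z))

private theorem kmk_expand (h : P.V) (r : ℝ) (z w : A) :
    P.q (r • z + w) h = r ^ 2 * P.q z h + r * P.kmkB h z w + P.q w h := by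
  simp only [q_apply, kmkB, map_add, map_smul, add_mul, mul_add, smul_mul_assoc, mul_smul_comm,
    smul_eq_mul]
  ring

private theorem kmk_bound {C : ℝ} (hC : ∀ (h : P.V) (x : A), |P.q x h| ≤ C * ‖h‖ * P.sz x)
    (h0 : 0 ≤ C) (h : P.V) (z w : A) :
    |P.kmkB h z w| ≤ C * ‖h‖ * (3 * P.sz z + 3 * P.sz w) := by
  have h1 := P.kmk_expand h 1 z w
  rw [one_smul] at h1
  have h2 := hC h (z + w)
  have h3 := hC h z
  have h4 := hC h w
  have h5 := P.sz_add_le z w
  have h6 : 0 ≤ C * ‖h‖ := mul_nonneg h0 (norm_nonneg h)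
  have h7 := mul_le_mul_of_nonneg_left h5 h6
  rw [abs_le] at h2 h3 h4 ⊢
  constructor <;> nlinarith [h1, h2.1, h2.2, h3.1, h3.2, h4.1, h4.2, h7]

/-- **KMK.** PROOF. (1) `P.q z h ≥ 0` for all `z`: let `P.q z h < 0`; for `r ≥ 0` there is `x` in `L` with
`x = r z + δ`, `sz δ ≤ R` (`hL.coc`), and `0 ≤ P.q x h = r² P.q z h + r β + P.q δ h` where
`β = P.q (z + δ) h - P.q z h - P.q δ h`; `β` and `P.q δ h` are bounded by `q_le`, `sz_add_le`; take `r` large.
(2) If `P.q z h = 0`, `z ≠ 0`: then `P.q (r z + z') h = P.q z' h` for all `r`, `z'` (the linear coefficient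
in `r` must vanish by (1)). For `t : ℕ` choose `x_t` in `L`, `δ_t = x_t - t z`, `sz δ_t ≤ R`. By
`exists_close` (with `ε` small) there are `i < j` with `sz (δ_j - δ_i) ≤ ε`; `P.q (x_j - x_i) h =
P.q (δ_j - δ_i) h < 1`, so `x_j = x_i`, `(j - i) z = -(δ_j - δ_i)`, `sz z ≤ ε < sz z`. -/
theorem pd_of_lat {L : AddSubgroup A} (hL : P.IsLat L) (h : P.V)
    (hh : ∀ x ∈ L, x ≠ 0 → 1 ≤ P.q x h) : P.PD h := by
  obtain ⟨C, hC0, hC⟩ := P.q_le
  obtain ⟨R, hR⟩ := hL.coc
  have hR0 : 0 ≤ R := by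
    obtain ⟨x, -, hx⟩ := hR 0
    exact (P.sz_nonneg _).trans hx
  have hK : 0 ≤ C * ‖h‖ := mul_nonneg hC0 (norm_nonneg h)
  have hq0 : ∀ w : P.V, P.q 0 w = 0 := by
    intro w
    rw [q_apply, zero_mul, mul_zero, map_zero]
  have hLpos : ∀ x ∈ L, 0 ≤ P.q x h := by
    intro x hx
    by_cases h1 : x = 0
    · rw [h1, hq0]
    · exact zero_le_one.trans (hh x hx h1)
  have hneg : ∀ w : A, P.q (-w) h = P.q w h := by
    intro w
    have := P.q_smul (-1) w h
    rw [neg_one_smul] at this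
    rw [this]
    ring
  have hsneg : ∀ w : A, P.sz (-w) = P.sz w := by
    intro w
    have := P.sz_smul (-1) w
    rw [neg_one_smul] at this
    rw [this]
    ring
  -- step 1
  have hpsd : ∀ z : A, 0 ≤ P.q z h := by
    intro z
    by_contra hcon
    push Not at hcon
    set M : ℝ := C * ‖h‖ * (3 * P.sz z + 3 * R) with hM
    set M' : ℝ := C * ‖h‖ * R with hM'
    have hM0 : 0 ≤ M := by
      have := P.sz_nonneg z
      positivity
    have hM'0 : 0 ≤ M' := by positivity
    have key : ∀ r : ℝ, 0 ≤ r → 0 ≤ r ^ 2 * P.q z h + r * M + M' := by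
      intro r hr
      obtain ⟨x, hxL, hx⟩ := hR (r • z)
      have h1 := hLpos x hxL
      have h2 : x = r • z + (-(r • z - x)) := by abel
      rw [h2, P.kmk_expand] at h1
      have h3 := P.kmk_bound hC hC0 h z (-(r • z - x))
      rw [hsneg] at h3
      have h4 := hC h (-(r • z - x))
      rw [hsneg] at h4
      have h5 : C * ‖h‖ * (3 * P.sz z + 3 * P.sz (r • z - x)) ≤ M :=
        mul_le_mul_of_nonneg_left (by linarith) hK
      have h6 : C * ‖h‖ * P.sz (r • z - x) ≤ M' := mul_le_mul_of_nonneg_left hx hK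
      have h7 := (le_abs_self _).trans (h3.trans h5)
      have h8 := (le_abs_self _).trans (h4.trans h6)
      have h9 := mul_le_mul_of_nonneg_left h7 hr
      linarith
    set a : ℝ := - P.q z h with ha
    have ha0 : 0 < a := by linarith
    set r : ℝ := (M + M') / a + 1 with hr
    have hr1 : 1 ≤ r := by
      have : 0 ≤ (M + M') / a := by positivity
      linarith
    have hra : r * a = M + M' + a := by
      rw [hr, add_mul, div_mul_cancel₀ _ ha0.ne', one_mul]
    have h1 := key r (by linarith)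
    have h2 : r ^ 2 * P.q z h = - (r * (r * a)) := by
      rw [ha]
      ring
    rw [h2, hra] at h1
    nlinarith
  -- step 2
  intro z hz
  rcases (hpsd z).lt_or_eq with h1 | h1
  · exact h1
  exfalso
  have hB : ∀ w : A, P.kmkB h z w = 0 := by
    intro w
    by_contra hcon
    have h2 := hpsd ((-(P.q w h + 1) / P.kmkB h z w) • z + w)
    rw [P.kmk_expand, ← h1, mul_zero, zero_add, div_mul_cancel₀ _ hcon] at h2
    linarith
  have hinv : ∀ (r : ℝ) (w : A), P.q (r • z + w) h = P.q w h := by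
    intro r w
    rw [P.kmk_expand, ← h1, hB w]
    ring
  have hsz := P.sz_pos hz
  set ε : ℝ := min (P.sz z / 2) (1 / (2 * (C * ‖h‖ + 1))) with hε
  have hε0 : 0 < ε := by
    apply lt_min
    · linarith
    · positivity
  obtain ⟨B, hB2⟩ := P.exists_close R ε hε0
  choose x hxL hx using fun t : ℕ => hR ((t : ℝ) • z)
  obtain ⟨i, j, hij, -, hclose⟩ := hB2 (fun t : ℕ => (t : ℝ) • z - x t) (fun t _ => hx t)
  have hd : x j - x i = ((j : ℝ) - i) • z + (-(((j : ℝ) • z - x j) - ((i : ℝ) • z - x i))) := by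
    rw [sub_smul]
    abel
  have hq : P.q (x j - x i) h < 1 := by
    rw [hd, hinv, hneg]
    refine lt_of_le_of_lt (le_abs_self _) (lt_of_le_of_lt (hC h _) ?_)
    have h2 : C * ‖h‖ * P.sz ((j : ℝ) • z - x j - ((i : ℝ) • z - x i)) ≤ C * ‖h‖ * ε :=
      mul_le_mul_of_nonneg_left hclose hK
    have h3 : C * ‖h‖ * ε ≤ C * ‖h‖ * (1 / (2 * (C * ‖h‖ + 1))) :=
      mul_le_mul_of_nonneg_left (min_le_right _ _) hK
    have h4 : C * ‖h‖ * (1 / (2 * (C * ‖h‖ + 1))) < 1 := by
      rw [mul_one_div, div_lt_one (by positivity)]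
      linarith
    linarith
  have hxx : x j - x i = 0 := by
    by_contra hcon
    have := hh _ (L.sub_mem (hxL j) (hxL i)) hcon
    linarith
  rw [hxx] at hd
  have hz2 : ((j : ℝ) - i) • z = ((j : ℝ) • z - x j) - ((i : ℝ) • z - x i) := by
    rw [sub_smul]
    have : x j = x i := sub_eq_zero.mp hxx
    rw [this]
    abel
  have h2 : P.sz (((j : ℝ) - i) • z) ≤ ε := by
    rw [hz2]
    exact hclose
  rw [P.sz_smul] at h2
  have h3 : (1 : ℝ) ≤ (j : ℝ) - i := by
    have : (i : ℝ) + 1 ≤ j := by exact_mod_cast hij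
    linarith
  have h4 : P.sz z ≤ ((j : ℝ) - i) ^ 2 * P.sz z := by
    have : (1 : ℝ) ≤ ((j : ℝ) - i) ^ 2 := by nlinarith
    nlinarith
  have h5 : ε ≤ P.sz z / 2 := min_le_left _ _
  linarith

end PA

end Pool.Agent.CGQ
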