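import Pool.Agent.CGQ.LDefs

/-!
# Eigenfunctionals on the dual
-/

noncomputable section

namespace Pool.Agent.CGQ

open NumberField IsDedekindDomain CategoryTheory
open Pool.Agent.CG2 (Pl GQ GZ)

/-- The dual of `M` as an `O`-module and as a vector space. -/
private def LEB_lift {O M : Type} [CommRing O] [IsLocalRing O] [AddCommGroup M] [Module O M]
    [Module (IsLocalRing.ResidueField O) M] [IsScalarTower O (IsLocalRing.ResidueField O) M]
    (n : M →ₗ[O] IsLocalRing.ResidueField O) :
    Module.Dual (IsLocalRing.ResidueField O) M where
  toFun := n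
  map_add' := map_add n
  map_smul' c z := by
    obtain ⟨o, rfl⟩ := IsLocalRing.residue_surjective c
    have h1 : IsLocalRing.residue O o • z = o • z := by
      rw [← IsLocalRing.ResidueField.algebraMap_eq, algebraMap_smul]
    rw [h1, map_smul, RingHom.id_apply, Algebra.smul_def, smul_eq_mul,
      IsLocalRing.ResidueField.algebraMap_eq]

/-- **LEB1.** A finite module killed by the maximal ideal of `O` with non-zero localisation at `m`:
there is an eigenfunctional on the dual which does not vanish on a given separating family.
PROOF. `N = M →ₗ[O] ResidueField O` with `A` acting by `t n = n ∘ f t` (`A` commutative; an algebra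
homomorphism `g : A →ₐ[O] Module.End O N`). `N` is a finite `O`-module: `M` is a finite dimensional
vector space over the residue field (`Module.IsTorsionBySet`, as in `exists_coord` in CBase.lean).
There is `n ∈ N` with `t n ≠ 0` for all `t ∉ m`: otherwise for every `n` there is `t ∉ m` with
`t n = 0`, so (finite set of generators, product, `m` prime) one `t ∉ m` kills `N`, so every
functional vanishes on `f t z` for the given `z`, and functionals separate points, so `f t z = 0`.
`CG2.exists_eigf` gives `φ₀ : N →+ A ⧸ m`, `φ₀ ≠ 0`, `φ₀ (t n) = t φ₀ n`; compose with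
`algebraMap (A ⧸ m) κ` (injective). If `φ (E i) = 0` for all `i` then `φ` vanishes on the `O`-span of
the `E i` (`t = algebraMap O A a`), which is all of `N` since the `E i` separate the points of the
finite dimensional space `M` (`O → ResidueField O` is surjective, so the `O`-span is a subspace). -/
theorem exists_dual_eig {O A M : Type} [CommRing O] [IsLocalRing O] [CommRing A] [Algebra O A]
    [AddCommGroup M] [Module O M] [Module.Finite O M]
    (hM : ∀ c ∈ IsLocalRing.maximalIdeal O, ∀ z : M, c • z = 0)
    (f : A →ₐ[O] Module.End O M) (m : Ideal A) [m.IsMaximal]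
    (h : ∃ z : M, ∀ t ∉ m, f t z ≠ 0) (κ : Type) [Field κ] [Algebra (A ⧸ m) κ] {ι : Type}
    (E : ι → (M →ₗ[O] IsLocalRing.ResidueField O)) (hE : ∀ z, (∀ i, E i z = 0) → z = 0) :
    ∃ φ : (M →ₗ[O] IsLocalRing.ResidueField O) →+ κ, (∃ i, φ (E i) ≠ 0) ∧
      ∀ (t : A) (n : M →ₗ[O] IsLocalRing.ResidueField O),
        φ (n ∘ₗ f t) = algebraMap (A ⧸ m) κ (Ideal.Quotient.mk m t) * φ n := by
  classical
  let iM : Module (IsLocalRing.ResidueField O) M :=
    Module.IsTorsionBySet.module (M := M) (I := IsLocalRing.maximalIdeal O)
      (fun v a => hM a.1 a.2 v)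
  have iT : IsScalarTower O (IsLocalRing.ResidueField O) M :=
    Module.IsTorsionBySet.isScalarTower (M := M) (I := IsLocalRing.maximalIdeal O)
      (fun v a => hM a.1 a.2 v)
  have iF : Module.Finite (IsLocalRing.ResidueField O) M :=
    Module.Finite.of_restrictScalars_finite O _ M
  have iO : Module.Finite O (IsLocalRing.ResidueField O) :=
    Module.Finite.of_surjective (Algebra.linearMap O (IsLocalRing.ResidueField O))
      IsLocalRing.residue_surjective
  let e : Module.Dual (IsLocalRing.ResidueField O) M →ₗ[O]
      (M →ₗ[O] IsLocalRing.ResidueField O) :=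
    { toFun := fun ψ => ψ.restrictScalars O
      map_add' := fun _ _ => rfl
      map_smul' := fun _ _ => rfl }
  have he : ∀ n, e (LEB_lift n) = n := fun n => rfl
  have iD : Module.Finite O (Module.Dual (IsLocalRing.ResidueField O) M) :=
    Module.Finite.trans (IsLocalRing.ResidueField O) _
  have iN : Module.Finite O (M →ₗ[O] IsLocalRing.ResidueField O) :=
    Module.Finite.of_surjective e fun n => ⟨LEB_lift n, he n⟩
  -- the action on the dual
  let g : A →ₐ[O] Module.End O (M →ₗ[O] IsLocalRing.ResidueField O) :=
    { toFun := fun t =>
        { toFun := fun n => n ∘ₗ f t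
          map_add' := fun _ _ => rfl
          map_smul' := fun _ _ => rfl }
      map_one' := by
        apply LinearMap.ext
        intro n
        apply LinearMap.ext
        intro z
        simp
      map_mul' := fun t t' => by
        apply LinearMap.ext
        intro n
        apply LinearMap.ext
        intro z
        have h1 : f (t * t') = f t' * f t := by rw [mul_comm, map_mul]
        change n (f (t * t') z) = n (f t' (f t z))
        rw [h1]
        rfl
      map_zero' := by
        apply LinearMap.ext
        intro n
        apply LinearMap.ext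
        intro z
        simp
      map_add' := fun t t' => by
        apply LinearMap.ext
        intro n
        apply LinearMap.ext
        intro z
        simp
      commutes' := fun c => by
        apply LinearMap.ext
        intro n
        apply LinearMap.ext
        intro z
        change n (f (algebraMap O A c) z) = c • n z
        rw [AlgHom.commutes, Module.algebraMap_end_apply, map_smul] }
  have hg : ∀ t n, g t n = n ∘ₗ f t := fun _ _ => rfl
  -- an element which is not killed by anything outside `m`
  have hex : ∃ n, ∀ t ∉ m, g t n ≠ 0 := by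
    by_contra hc
    push Not at hc
    choose t htm ht0 using hc
    obtain ⟨s, hs⟩ := iN.fg_top
    have h1 : (∏ n ∈ s, t n) ∉ m := by
      intro h2
      obtain ⟨n, _, hn⟩ := (Ideal.IsPrime.prod_mem_iff).1 h2
      exact htm n hn
    have h3 : g (∏ n ∈ s, t n) = 0 := by
      apply LinearMap.ext_on hs
      intro n hn
      obtain ⟨c, hc⟩ := Finset.dvd_prod_of_mem t (Finset.mem_coe.1 hn)
      rw [hc, mul_comm, map_mul]
      change g c (g (t n) n) = 0
      rw [ht0, map_zero]
    obtain ⟨z, hz⟩ := h
    apply hz _ h1
    apply hE
    intro i
    have h4 := LinearMap.congr_fun (LinearMap.congr_fun h3 (E i)) z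
    exact h4
  obtain ⟨φ₀, hφ₀, hφt⟩ := Pool.Agent.CG2.exists_eigf g m hex
  let iFd : Field (A ⧸ m) := Ideal.Quotient.field m
  have hinj : Function.Injective (algebraMap (A ⧸ m) κ) := (algebraMap (A ⧸ m) κ).injective
  refine ⟨(algebraMap (A ⧸ m) κ).toAddMonoidHom.comp φ₀, ?_, ?_⟩
  · by_contra hc
    push Not at hc
    have hc' : ∀ i, φ₀ (E i) = 0 := by
      intro i
      apply hinj
      rw [map_zero]
      exact hc i
    apply hφ₀
    -- the kernel of `φ₀` is an `O`-submodule
    have hsm : ∀ (c : O) n, φ₀ n = 0 → φ₀ (c • n) = 0 := by
      intro c n hn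
      have h5 : c • n = g (algebraMap O A c) n := by
        rw [AlgHom.commutes, Module.algebraMap_end_apply]
      rw [h5, hφt, hn, mul_zero]
    let P : Submodule (IsLocalRing.ResidueField O)
        (Module.Dual (IsLocalRing.ResidueField O) M) :=
      { carrier := {ψ | φ₀ (e ψ) = 0}
        add_mem' := fun {a b} ha hb => by
          change φ₀ (e (a + b)) = 0
          rw [map_add, map_add, show φ₀ (e a) = 0 from ha, show φ₀ (e b) = 0 from hb, add_zero]
        zero_mem' := by
          change φ₀ (e 0) = 0
          rw [map_zero, map_zero]
        smul_mem' := fun c ψ hψ => by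
          obtain ⟨o, rfl⟩ := IsLocalRing.residue_surjective c
          have h6 : e (IsLocalRing.residue O o • ψ) = o • e ψ := by
            apply LinearMap.ext
            intro z
            change IsLocalRing.residue O o • ψ z = o • ψ z
            rw [Algebra.smul_def o, smul_eq_mul, IsLocalRing.ResidueField.algebraMap_eq]
          change φ₀ (e (IsLocalRing.residue O o • ψ)) = 0
          rw [h6]
          exact hsm o _ hψ }
    have hP : P.dualCoannihilator = ⊥ := by
      rw [eq_bot_iff]
      intro z hz
      rw [Submodule.mem_dualCoannihilator] at hz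
      apply hE
      intro i
      exact hz (LEB_lift (E i)) (hc' i)
    have hPt : P = ⊤ := by
      rw [← Subspace.dualCoannihilator_dualAnnihilator_eq (W := P), hP,
        Submodule.dualAnnihilator_bot]
    apply AddMonoidHom.ext
    intro n
    have h7 : LEB_lift n ∈ P := by
      rw [hPt]
      trivial
    exact h7
  · intro t n
    change algebraMap (A ⧸ m) κ (φ₀ (n ∘ₗ f t)) = _ * algebraMap (A ⧸ m) κ (φ₀ n)
    rw [← hg, hφt, map_mul]

variable {F : Type} [Field F] [NumberField F] {𝒟 : Sys F}

/-- **LEB2.** PROOF. `cohMap_smul`: multiplication by `c` is induced by `c • id`, which is zero on the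
residue field (`Algebra.smul_def`, `IsLocalRing.residue`), and the zero map induces zero
(`mapCoh_zero`). -/
theorem coh_killed {O : Type} [CommRing O] [IsLocalRing O] (K : Subgroup 𝒟.A) (i : ℕ)
    (c : O) (hc : c ∈ IsLocalRing.maximalIdeal O)
    (z : groupCohomology (coeff K (triv K O (IsLocalRing.ResidueField O))) i) : c • z = 0 := by
  have h1 : ∀ w : IsLocalRing.ResidueField O, c • w = 0 := by
    intro w
    rw [Algebra.smul_def, IsLocalRing.ResidueField.algebraMap_eq,
      (IsLocalRing.residue_eq_zero_iff c).2 hc, zero_mul]
  have h2 := cohMap_smul (triv K O (IsLocalRing.ResidueField O)) c (fun k w => rfl) i z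
  rw [← h2]
  refine mapCoh_zero _ (fun a => ?_) i z
  apply Subtype.ext
  funext y
  exact h1 _

end Pool.Agent.CGQ
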