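import Pool.Agent.CGQ.DDefs
import Pool.Agent.CGQ.Fam

/-!
# The generic element: definitions
-/

noncomputable section

set_option linter.unusedSectionVars false

namespace Pool.Agent.CGQ

open NumberField IsDedekindDomain
open Pool.Agent.CG2 (Pl Fv Ov)

variable {F : Type} [Field F] [NumberField F]

/-! ### The field `F(√d)` -/

/-- The algebra `F[X] / (X² - d)`. -/
abbrev QE (d : F) := QuadraticAlgebra F d 0

instance factQE (d : F) [h : Fact (¬ IsSquare d)] : Fact (∀ r : F, r ^ 2 ≠ d + 0 * r) :=
  ⟨fun r hr => h.out ⟨r, by linear_combination -hr⟩⟩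

instance nfQE (d : F) [Fact (¬ IsSquare d)] : NumberField (QE d) :=
  NumberField.of_module_finite F (QE d)

/-- The conjugation of `F(√d)`. -/
def conjQ (d : F) : QE d →ₐ[F] QE d where
  toFun z := star z
  map_one' := star_one _
  map_mul' x y := by rw [star_mul, mul_comm]
  map_zero' := star_zero _
  map_add' x y := star_add _ _
  commutes' r := by ext <;> simp

@[simp] theorem conjQ_apply (d : F) (z : QE d) : conjQ d z = star z := rfl

theorem star_re (d : F) (z : QE d) : (star z).re = z.re := by simp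

theorem star_im (d : F) (z : QE d) : (star z).im = -z.im := by simp

/-- The conjugation on the integers. -/
def conjO (d : F) [Fact (¬ IsSquare d)] : 𝓞 (QE d) →+* 𝓞 (QE d) :=
  RingOfIntegers.mapRingHom (conjQ d)

/-- The conjugation on the units of the integers. -/
def conjU (d : F) [Fact (¬ IsSquare d)] : (𝓞 (QE d))ˣ →* (𝓞 (QE d))ˣ := Units.map (conjO d)

theorem conjU_val (d : F) [Fact (¬ IsSquare d)] (u : (𝓞 (QE d))ˣ) :
    (((conjU d u : (𝓞 (QE d))ˣ) : 𝓞 (QE d)) : QE d) = star ((u : 𝓞 (QE d)) : QE d) := rfl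

/-- A unit of `L` as an element of `D`, for an embedding of `L` in `D`. -/
def uD {q : Qd F} {L : Type} [Field L] [NumberField L] [Algebra F L] (ι : L →ₐ[F] DF q)
    (u : (𝓞 L)ˣ) : (sysD q).G :=
  (Units.map ((ι : L →* DF q).comp (algebraMap (𝓞 L) L : 𝓞 L →* L)) u : (DF q)ˣ)

theorem uD_mul {q : Qd F} {L : Type} [Field L] [NumberField L] [Algebra F L] (ι : L →ₐ[F] DF q)
    (u v : (𝓞 L)ˣ) : uD ι (u * v) = uD ι u * uD ι v := map_mul _ _ _

theorem uD_val {q : Qd F} {L : Type} [Field L] [NumberField L] [Algebra F L] (ι : L →ₐ[F] DF q)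
    (u : (𝓞 L)ˣ) : (show (DF q)ˣ from uD ι u).1 = ι ((u : 𝓞 L) : L) := rfl

/-! ### The embeddings of `F` at which `D` is ramified -/

/-- The algebra `D` is ramified at `φ`: `φ` is real and `D` becomes the algebra of Hamilton
quaternions. -/
def RamE (q : Qd F) (φ : F →+* ℂ) : Prop :=
  ∃ ψ : F →+* ℝ, (∀ x, φ x = (ψ x : ℂ)) ∧ ψ (q.a : F) < 0 ∧ ψ (q.b : F) < 0

/-- The number `d` of `F` is negative at the real embedding `φ`. -/
def NegE (d : F) (φ : F →+* ℂ) : Prop := ∃ ψ : F →+* ℝ, (∀ x, φ x = (ψ x : ℂ)) ∧ ψ d < 0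

/-- The discriminant of the characteristic polynomial. -/
def dsc {q : Qd F} (c : DF q) : F := trd c ^ 2 - 4 * nrd c

/-- The embedding of `F(√(dsc c))` in `D` with image `F(c)`. -/
def embC {q : Qd F} (c : DF q) : QE (dsc c) →ₐ[F] DF q :=
  QuadraticAlgebra.lift ⟨c - star c, by
    rw [zero_smul, add_zero]
    ext <;> simp only [dsc, trd, nrd, QuaternionAlgebra.re_mul, QuaternionAlgebra.imI_mul,
      QuaternionAlgebra.imJ_mul, QuaternionAlgebra.imK_mul, QuaternionAlgebra.re_sub,
      QuaternionAlgebra.imI_sub, QuaternionAlgebra.imJ_sub, QuaternionAlgebra.imK_sub,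
      QuaternionAlgebra.re_star, QuaternionAlgebra.imI_star, QuaternionAlgebra.imJ_star,
      QuaternionAlgebra.imK_star, QuaternionAlgebra.re_smul, QuaternionAlgebra.imI_smul,
      QuaternionAlgebra.imJ_smul, QuaternionAlgebra.imK_smul, QuaternionAlgebra.re_one,
      QuaternionAlgebra.imI_one, QuaternionAlgebra.imJ_one, QuaternionAlgebra.imK_one,
      smul_eq_mul] <;> ring⟩

theorem embC_apply {q : Qd F} (c : DF q) (z : QE (dsc c)) :
    embC c z = z.re • 1 + z.im • (c - star c) := rfl

/-- The embedding of `F(√(-nrd x))` in `D` with image `F(x)`, for a pure quaternion `x`. -/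
def embX {q : Qd F} (x : DF q) (hx : x.re = 0) : QE (-nrd x) →ₐ[F] DF q :=
  QuadraticAlgebra.lift ⟨x, by
    rw [zero_smul, add_zero]
    ext <;> simp only [nrd, QuaternionAlgebra.re_mul, QuaternionAlgebra.imI_mul,
      QuaternionAlgebra.imJ_mul, QuaternionAlgebra.imK_mul, QuaternionAlgebra.re_smul,
      QuaternionAlgebra.imI_smul, QuaternionAlgebra.imJ_smul, QuaternionAlgebra.imK_smul,
      QuaternionAlgebra.re_one, QuaternionAlgebra.imI_one, QuaternionAlgebra.imJ_one,
      QuaternionAlgebra.imK_one, smul_eq_mul, hx] <;> ring⟩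

theorem embX_apply {q : Qd F} (x : DF q) (hx : x.re = 0) (z : QE (-nrd x)) :
    embX x hx z = z.re • 1 + z.im • x := rfl

/-- In a division algebra the discriminant of a non central element is not a square. -/
theorem not_isSquare_dsc {q : Qd F} (hdiv : ∀ x : DF q, x ≠ 0 → IsUnit x) (c : DF q)
    (hc : c ≠ star c) : ¬ IsSquare (dsc c) := by
  rintro ⟨r, hr⟩
  have h1 : (c - star c) * (c - star c) = (dsc c) • (1 : DF q) := by
    have := (embC c).map_mul QuadraticAlgebra.omega QuadraticAlgebra.omega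
    rw [QuadraticAlgebra.omega_mul_omega_eq_mk] at this
    simpa [embC_apply] using this.symm
  have h2 : (c - star c - r • (1 : DF q)) * (c - star c + r • (1 : DF q)) = 0 := by
    rw [hr] at h1
    rw [sub_mul, mul_add, mul_add, h1]
    simp only [mul_smul, mul_smul_comm, smul_mul_assoc, mul_one, one_mul]
    abel
  have h3 : c - star c = r • (1 : DF q) ∨ c - star c = (-r) • (1 : DF q) := by
    by_cases h : c - star c - r • (1 : DF q) = 0
    · exact Or.inl (sub_eq_zero.1 h)
    · have h4 := (hdiv _ h).mul_right_eq_zero.1 h2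
      refine Or.inr ?_
      rw [neg_smul]
      exact eq_neg_of_add_eq_zero_left h4
  have h5 : r = 0 := by
    rcases h3 with h | h
    · have := congrArg QuaternionAlgebra.re h
      simpa using this.symm
    · have := congrArg QuaternionAlgebra.re h
      simpa using this.symm
  apply hc
  rcases h3 with h | h <;> rw [h5] at h <;> simpa [sub_eq_zero] using h

end Pool.Agent.CGQ
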