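import Pool.Agent.CG2.GalL

/-!
# Characters of the ray class group from functions on the ray classes
-/

noncomputable section

namespace Pool.Agent.CGQ

open NumberField IsDedekindDomain
open Pool.Agent.CG2 (Pl expo InRay IsRay TotPos)

variable {L : Type} [Field L] [NumberField L] {κ : Type} [Field κ] [IsAlgClosed κ]

/-! ### Auxiliary definitions and lemmas -/

/-- Commuting endomorphisms have a common eigenvector in every non-zero space. -/
private theorem UCH_common {κ Q : Type} {ι : Type*} [Field κ] [IsAlgClosed κ] [AddCommGroup Q]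
    [Module κ Q] [FiniteDimensional κ Q] (A : ι → Module.End κ Q)
    (hA : ∀ s t x, A s (A t x) = A t (A s x)) (E : Submodule κ Q) (hE : E ≠ ⊥)
    (hEA : ∀ t, ∀ x ∈ E, A t x ∈ E) :
    ∃ x ∈ E, x ≠ 0 ∧ ∀ t, ∃ c : κ, A t x = c • x := by
  obtain ⟨W, ⟨hW0, hWA, hWE⟩, hmin⟩ := IsArtinian.set_has_minimal (R := κ) (M := Q)
    {W : Submodule κ Q | W ≠ ⊥ ∧ (∀ t, ∀ x ∈ W, A t x ∈ W) ∧ W ≤ E} ⟨E, hE, hEA, le_refl E⟩
  obtain ⟨x, hx, hx0⟩ := (Submodule.ne_bot_iff W).1 hW0
  refine ⟨x, hWE hx, hx0, fun t => ?_⟩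
  have hnt : Nontrivial W := (Submodule.nontrivial_iff_ne_bot).2 hW0
  obtain ⟨c, hc⟩ := Module.End.exists_eigenvalue ((A t).restrict (hWA t) : Module.End κ W)
  obtain ⟨w, hw⟩ := hc.exists_hasEigenvector
  have hw1 : A t w.1 = c • w.1 := by
    have h1 := hw.apply_eq_smul
    exact congrArg Subtype.val h1
  have hw0 : w.1 ≠ 0 := fun h => hw.2 (Subtype.ext h)
  let W' : Submodule κ Q :=
    { carrier := {z | z ∈ W ∧ A t z = c • z}
      add_mem' := by
        rintro a b ⟨ha, ha'⟩ ⟨hb, hb'⟩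
        exact ⟨W.add_mem ha hb, by rw [map_add, ha', hb', smul_add]⟩
      zero_mem' := ⟨W.zero_mem, by simp⟩
      smul_mem' := by
        rintro d a ⟨ha, ha'⟩
        exact ⟨W.smul_mem d ha, by rw [map_smul, ha', smul_comm]⟩ }
  have hW' : W' ∈ {W : Submodule κ Q | W ≠ ⊥ ∧ (∀ t, ∀ x ∈ W, A t x ∈ W) ∧ W ≤ E} := by
    refine ⟨(Submodule.ne_bot_iff W').2 ⟨w.1, ⟨w.2, hw1⟩, hw0⟩, ?_, fun z hz => hWE hz.1⟩
    rintro s z ⟨hz, hz'⟩
    exact ⟨hWA s z hz, by rw [hA, hz', map_smul]⟩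
  have h2 : W' ≤ W := fun z hz => hz.1
  have h3 : W' = W := by
    by_contra hne
    exact hmin W' hW' (lt_of_le_of_ne h2 hne)
  have h4 : x ∈ W' := by
    rw [h3]
    exact hx
  exact ⟨c, h4.2⟩

/-- The non-zero ideals prime to `m₀`. -/
private def UCH_X (m₀ : Ideal (𝓞 L)) : Type := {I : Ideal (𝓞 L) // CG2.GalL_X m₀ I}

private def UCH_mul {m₀ : Ideal (𝓞 L)} (I J : UCH_X m₀) : UCH_X m₀ :=
  ⟨I.1 * J.1, CG2.GalL_X_mul I.2 J.2⟩

/-- The translation operators. -/
private def UCH_T {m₀ : Ideal (𝓞 L)} (κ : Type) [Field κ] (J : UCH_X m₀) :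
    Module.End κ (UCH_X m₀ → κ) where
  toFun f I := f (UCH_mul I J)
  map_add' _ _ := rfl
  map_smul' _ _ := rfl

private theorem UCH_mul_assoc {m₀ : Ideal (𝓞 L)} (I J K : UCH_X m₀) :
    UCH_mul (UCH_mul I J) K = UCH_mul I (UCH_mul J K) := Subtype.ext (mul_assoc _ _ _)

private theorem UCH_mul_comm {m₀ : Ideal (𝓞 L)} (I J : UCH_X m₀) :
    UCH_mul I J = UCH_mul J I := Subtype.ext (mul_comm _ _)

omit [IsAlgClosed κ] in
private theorem UCH_finite (χ : Pl L → κ) {I : Ideal (𝓞 L)} (hI : I ≠ ⊥) :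
    (Function.mulSupport fun v : Pl L => χ v ^ expo v I).Finite := by
  refine (Ideal.finite_factors hI).subset ?_
  intro v hv
  by_contra hcon
  have h1 : expo v I = 0 := by
    by_contra h2
    exact hcon ((CG2.GalL_expo_ne_zero v hI).1 h2)
  apply hv
  change χ v ^ expo v I = 1
  rw [h1, pow_zero]

omit [IsAlgClosed κ] in
private theorem UCH_ext_mul (χ : Pl L → κ) {I J : Ideal (𝓞 L)} (hI : I ≠ ⊥) (hJ : J ≠ ⊥) :
    ∏ᶠ v : Pl L, χ v ^ expo v (I * J) =
      (∏ᶠ v : Pl L, χ v ^ expo v I) * ∏ᶠ v : Pl L, χ v ^ expo v J := by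
  rw [← finprod_mul_distrib (UCH_finite χ hI) (UCH_finite χ hJ)]
  refine finprod_congr fun v => ?_
  rw [CG2.GalL_expo_mul v hI hJ, pow_add]

omit [IsAlgClosed κ] in
private theorem UCH_ext_top (χ : Pl L → κ) :
    ∏ᶠ v : Pl L, χ v ^ expo v (⊤ : Ideal (𝓞 L)) = 1 := by
  rw [← finprod_one (α := Pl L)]
  refine finprod_congr fun v => ?_
  rw [CG2.GalL_expo_top, pow_zero]

omit [IsAlgClosed κ] in
private theorem UCH_ext_prime (χ : Pl L → κ) (v : Pl L) :
    ∏ᶠ w : Pl L, χ w ^ expo w v.asIdeal = χ v := by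
  rw [finprod_eq_single _ v]
  · rw [CG2.GalL_expo_self, pow_one]
  · intro w hw
    rw [CG2.GalL_expo_other hw, pow_zero]

private theorem UCH_X_prime {m₀ : Ideal (𝓞 L)} (w : Pl L) (h : ¬ m₀ ≤ w.asIdeal) :
    CG2.GalL_X m₀ w.asIdeal := by
  refine ⟨w.ne_bot, ?_⟩
  rw [Ideal.isCoprime_iff_sup_eq]
  by_contra hne
  have h1 : w.asIdeal ⊔ m₀ = w.asIdeal :=
    (w.isMaximal.eq_of_le hne le_sup_left).symm
  exact h (h1 ▸ le_sup_right)

private theorem UCH_not_le {m₀ : Ideal (𝓞 L)} (w : Pl L) (h : CG2.GalL_X m₀ w.asIdeal) :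
    ¬ m₀ ≤ w.asIdeal := by
  intro h1
  have h2 := Ideal.isCoprime_iff_sup_eq.1 h.2
  rw [sup_eq_left.2 h1] at h2
  exact w.isPrime.ne_top h2

/-- **UCH.** A non-zero function `a` on the ideals prime to `m₀`, which is constant on the narrow
ray classes modulo `m₀`, yields a character `χ` of the ray class group which satisfies all linear
relations between the translates of `a`.

PROOF. Let `X` be the monoid of the ideals `I ≠ ⊥` prime to `m₀`, `V` the `κ`-vector space of the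
functions on `X` (functions `Ideal (𝓞 L) → κ` restricted to `X`) spanned by the translates
`T_J a : I ↦ a (I * J)`, `J ∈ X`. By `Pool.Agent.CG2.exists_reps m₀ hm` (finitely many ideals
`b ∈ T` represent all classes: for every `J` in `X` there is `b ∈ T` with `InRay m₀ (J * b)`; see
also `GalL_ray_pow`, `GalL_inv`, `GalL_rel`, `GalL_rel_iff`, `GalL_ray_mul`) there are only
finitely many translates: if `InRay m₀ (J * b)` and `InRay m₀ (J' * b)` then
`a (I * J) = a (I * J * (J' * b)) = a (I * J' * (J * b)) = a (I * J')`. So `V` is finite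
dimensional and not zero, and the commuting operators `T_J` act on it; over the algebraically
closed field `κ` commuting operators have a common eigenvector `f ≠ 0` (strong induction on the
dimension; or Mathlib `Module.End.exists_hasEigenvalue` on a minimal non-zero stable subspace):
`f (I * J) = X(J) f(I)`. `X` is multiplicative, `X(J) ^ N = X(J ^ N) = 1` for the `N` of
`GalL_ray_pow` (as `T_J` is the identity for `J` in the ray), so `X(J) ≠ 0`, and `f(I) = X(I) f(1)`,
so `f(1) ≠ 0`. All relations between the translates of `a` hold for all elements of `V`. Put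
`χ w = X(w)` for `w` prime to `m₀` and `χ w = 1` otherwise; for an ideal `J` prime to `m₀` one has
`∏ᶠ χ w ^ expo w J = X(J)` (factorisation; copy the proofs of `GalL_ext_mul`, `GalL_ext_prime`,
`GalL_finite` of `Pool.Agent.CG2.GalL`, which are for `ℂ`; an ideal in the ray is prime to `m₀`,
see `GalL_X_of_ray`). -/
theorem exists_ray_char (m₀ : Ideal (𝓞 L)) (hm : m₀ ≠ ⊥) (a : Ideal (𝓞 L) → κ)
    (h0 : ∃ I, I ≠ ⊥ ∧ IsCoprime I m₀ ∧ a I ≠ 0)
    (hray : ∀ I J, I ≠ ⊥ → IsCoprime I m₀ → InRay m₀ J → a (I * J) = a I) :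
    ∃ χ : Pl L → κ, (∀ w, χ w ≠ 0) ∧
      (∀ J, InRay m₀ J → ∏ᶠ w : Pl L, χ w ^ expo w J = 1) ∧
      (∀ (w w' : Pl L) (l : κ), ¬ m₀ ≤ w.asIdeal → ¬ m₀ ≤ w'.asIdeal →
        (∀ I, I ≠ ⊥ → IsCoprime I m₀ → a (I * w.asIdeal) + a (I * w'.asIdeal) = l * a I) →
        χ w + χ w' = l) ∧
      (∀ (w w' : Pl L) (l : κ), ¬ m₀ ≤ w.asIdeal → ¬ m₀ ≤ w'.asIdeal →
        (∀ I, I ≠ ⊥ → IsCoprime I m₀ → a (I * w.asIdeal * w'.asIdeal) = l * a I) →
        χ w * χ w' = l) := by
  classical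
  let a' : UCH_X m₀ → κ := fun I => a I.1
  let tr : UCH_X m₀ → (UCH_X m₀ → κ) := fun J => UCH_T κ J a'
  have htr : ∀ J J' : UCH_X m₀, CG2.GalL_rel m₀ J.1 J'.1 → tr J = tr J' := by
    rintro J J' ⟨K, hK, hK'⟩
    funext I
    have hIJ := CG2.GalL_X_mul I.2 J.2
    have hIJ' := CG2.GalL_X_mul I.2 J'.2
    have e1 : a (I.1 * J.1 * (K * J'.1)) = a (I.1 * J.1) := hray _ _ hIJ.1 hIJ.2 hK'
    have e2 : a (I.1 * J'.1 * (K * J.1)) = a (I.1 * J'.1) := hray _ _ hIJ'.1 hIJ'.2 hK
    have e3 : I.1 * J.1 * (K * J'.1) = I.1 * J'.1 * (K * J.1) := by ring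
    change a (I.1 * J.1) = a (I.1 * J'.1)
    rw [← e1, ← e2, e3]
  have hfin : (Set.range tr).Finite := by
    obtain ⟨Ψ, hΨ⟩ := CG2.GalL_invariant hm
    have : Finite (𝓞 L ⧸ m₀) := Ideal.finiteQuotientOfFreeOfNeBot m₀ hm
    have hf1 : (Set.range Ψ).Finite := Set.toFinite _
    refine (hf1.image (fun c => if h : ∃ J, Ψ J = c then tr h.choose else 0)).subset ?_
    rintro _ ⟨J, rfl⟩
    refine ⟨Ψ J, ⟨J, rfl⟩, ?_⟩
    have hex : ∃ J', Ψ J' = Ψ J := ⟨J, rfl⟩
    change (if h : ∃ J', Ψ J' = Ψ J then tr h.choose else 0) = tr J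
    rw [dif_pos hex]
    exact htr _ _ (hΨ _ _ hex.choose_spec)
  let V : Submodule κ (UCH_X m₀ → κ) := Submodule.span κ (Set.range tr)
  have hVfin : FiniteDimensional κ V := FiniteDimensional.span_of_finite κ hfin
  have hstab : ∀ (J : UCH_X m₀), ∀ f ∈ V, UCH_T κ J f ∈ V := by
    intro J f hf
    have h1 : V ≤ V.comap (UCH_T κ J) := by
      refine Submodule.span_le.2 ?_
      rintro _ ⟨J', rfl⟩
      refine Submodule.subset_span ⟨UCH_mul J J', ?_⟩
      funext I
      change a' (UCH_mul I (UCH_mul J J')) = a' (UCH_mul (UCH_mul I J) J')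
      rw [UCH_mul_assoc]
    exact h1 hf
  let A : UCH_X m₀ → Module.End κ V := fun J => (UCH_T κ J).restrict (hstab J)
  have hA : ∀ s t x, A s (A t x) = A t (A s x) := by
    intro s t x
    refine Subtype.ext (funext fun I => ?_)
    change x.1 (UCH_mul (UCH_mul I s) t) = x.1 (UCH_mul (UCH_mul I t) s)
    rw [UCH_mul_assoc, UCH_mul_assoc, UCH_mul_comm s t]
  have hX1 : CG2.GalL_X m₀ ⊤ := CG2.GalL_X_top m₀
  let one : UCH_X m₀ := ⟨⊤, hX1⟩
  have hmul1 : ∀ I : UCH_X m₀, UCH_mul I one = I := fun I =>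
    Subtype.ext (by change I.1 * ⊤ = I.1; rw [Ideal.mul_top])
  have h1mul : ∀ I : UCH_X m₀, UCH_mul one I = I := fun I => by
    rw [UCH_mul_comm, hmul1]
  have htop : (⊤ : Submodule κ V) ≠ ⊥ := by
    obtain ⟨I, hI0, hI1, hI2⟩ := h0
    intro hbot
    have hmem : tr one ∈ V := Submodule.subset_span ⟨one, rfl⟩
    have h2 : (⟨tr one, hmem⟩ : V) ∈ (⊤ : Submodule κ V) := Submodule.mem_top
    rw [hbot, Submodule.mem_bot] at h2
    have h3 : tr one = 0 := congrArg Subtype.val h2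
    have hIX : CG2.GalL_X m₀ I := ⟨hI0, hI1⟩
    let I' : UCH_X m₀ := ⟨I, hIX⟩
    have h4 : a' (UCH_mul I' one) = 0 := congrFun h3 I'
    apply hI2
    rw [hmul1] at h4
    exact h4
  obtain ⟨f, -, hf0, hfe⟩ := UCH_common A hA ⊤ htop (fun _ _ _ => Submodule.mem_top)
  choose X hX using hfe
  have hfX : ∀ I J : UCH_X m₀, f.1 (UCH_mul I J) = X J * f.1 I := by
    intro I J
    have h2 := congrArg Subtype.val (hX J)
    have h3 := congrFun h2 I
    exact h3
  have hf1 : f.1 one ≠ 0 := by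
    intro h2
    apply hf0
    refine Subtype.ext (funext fun I => ?_)
    have h3 := hfX one I
    rw [h1mul, h2, mul_zero] at h3
    exact h3
  have hXmul : ∀ I J : UCH_X m₀, X (UCH_mul I J) = X I * X J := by
    intro I J
    have h2 : f.1 (UCH_mul I J) = X J * f.1 I := hfX I J
    have h3 : f.1 (UCH_mul one (UCH_mul I J)) = X (UCH_mul I J) * f.1 one := hfX _ _
    have h4 : f.1 (UCH_mul one I) = X I * f.1 one := hfX _ _
    rw [h1mul] at h3 h4
    rw [h3, h4] at h2
    refine mul_right_cancel₀ hf1 ?_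
    rw [h2]; ring
  have hXone : X one = 1 := by
    have h2 := hfX one one
    rw [hmul1] at h2
    refine mul_right_cancel₀ hf1 ?_
    rw [← h2, one_mul]
  -- relations
  have hrel : ∀ R : Submodule κ (UCH_X m₀ → κ), (∀ J, tr J ∈ R) → f.1 ∈ R := by
    intro R hR
    have h2 : V ≤ R := Submodule.span_le.2 (by rintro _ ⟨J, rfl⟩; exact hR J)
    exact h2 f.2
  have hXray : ∀ J : UCH_X m₀, InRay m₀ J.1 → X J = 1 := by
    intro J hJ
    let R : Submodule κ (UCH_X m₀ → κ) :=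
      { carrier := {g | ∀ I, g (UCH_mul I J) = g I}
        add_mem' := by
          intro g g' hg hg' I
          rw [Pi.add_apply, Pi.add_apply, hg, hg']
        zero_mem' := fun I => rfl
        smul_mem' := by
          intro c g hg I
          rw [Pi.smul_apply, Pi.smul_apply, hg] }
    have h2 : f.1 ∈ R := by
      refine hrel R fun K I => ?_
      change a (I.1 * J.1 * K.1) = a (I.1 * K.1)
      have hIK := CG2.GalL_X_mul I.2 K.2
      have h3 : I.1 * J.1 * K.1 = I.1 * K.1 * J.1 := by ring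
      rw [h3]
      exact hray _ _ hIK.1 hIK.2 hJ
    have h3 := h2 one
    rw [hfX] at h3
    refine mul_right_cancel₀ hf1 ?_
    rw [h3, one_mul]
  have hXne : ∀ J : UCH_X m₀, X J ≠ 0 := by
    intro J hJ
    obtain ⟨I, hI, hIJ⟩ := CG2.GalL_inv hm J.2
    have h2 := hXmul ⟨I, hI⟩ J
    rw [hJ, mul_zero, hXray (UCH_mul ⟨I, hI⟩ J) hIJ] at h2
    exact one_ne_zero h2
  let χ : Pl L → κ := fun w => if h : CG2.GalL_X m₀ w.asIdeal then X ⟨w.asIdeal, h⟩ else 1
  have hχ : ∀ (w : Pl L) (h : CG2.GalL_X m₀ w.asIdeal), χ w = X ⟨w.asIdeal, h⟩ :=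
    fun w h => dif_pos h
  have hext : ∀ J : Ideal (𝓞 L), ∀ hJ : CG2.GalL_X m₀ J,
      ∏ᶠ w : Pl L, χ w ^ expo w J = X ⟨J, hJ⟩ := by
    intro J
    induction J using UniqueFactorizationMonoid.induction_on_prime with
    | h₁ => intro hJ; exact absurd rfl hJ.1
    | h₂ I hI =>
      intro hJ
      have h2 : I = ⊤ := by rwa [Ideal.isUnit_iff] at hI
      subst h2
      rw [UCH_ext_top]
      exact hXone.symm
    | h₃ I P hI hP ih =>
      intro hJ
      have hPX : CG2.GalL_X m₀ P := CG2.GalL_X_left hJ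
      have hIX : CG2.GalL_X m₀ I := CG2.GalL_X_right hJ
      have hPp : P.IsPrime := Ideal.isPrime_of_prime hP
      let v : Pl L := ⟨P, hPp, hPX.1⟩
      have h2 := UCH_ext_mul χ (I := P) (J := I) hPX.1 hIX.1
      have h3 : ∏ᶠ w : Pl L, χ w ^ expo w P = χ v := UCH_ext_prime χ v
      rw [h2, ih hIX, h3, hχ v hPX]
      exact (hXmul ⟨P, hPX⟩ ⟨I, hIX⟩).symm
  refine ⟨χ, ?_, ?_, ?_, ?_⟩
  · intro w
    by_cases h : CG2.GalL_X m₀ w.asIdeal
    · rw [hχ w h]; exact hXne _
    · have h2 : χ w = 1 := dif_neg h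
      rw [h2]; exact one_ne_zero
  · intro J hJ
    have hJX := CG2.GalL_X_of_ray hJ
    rw [hext J hJX]
    exact hXray ⟨J, hJX⟩ hJ
  · intro w w' l hw hw' h
    have hwX := UCH_X_prime w hw
    have hwX' := UCH_X_prime w' hw'
    let W : UCH_X m₀ := ⟨w.asIdeal, hwX⟩
    let W' : UCH_X m₀ := ⟨w'.asIdeal, hwX'⟩
    let R : Submodule κ (UCH_X m₀ → κ) :=
      { carrier := {g | ∀ I, g (UCH_mul I W) + g (UCH_mul I W') = l * g I}
        add_mem' := by
          intro g g' hg hg' I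
          have e1 := hg I
          have e2 := hg' I
          simp only [Pi.add_apply]
          linear_combination e1 + e2
        zero_mem' := fun I => by simp
        smul_mem' := by
          intro c g hg I
          have e1 := hg I
          simp only [Pi.smul_apply, smul_eq_mul]
          linear_combination c * e1 }
    have h2 : f.1 ∈ R := by
      refine hrel R fun K I => ?_
      have hIK := CG2.GalL_X_mul I.2 K.2
      have h3 := h (I.1 * K.1) hIK.1 hIK.2
      change a (I.1 * w.asIdeal * K.1) + a (I.1 * w'.asIdeal * K.1) = l * a (I.1 * K.1)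
      rw [mul_right_comm I.1 w.asIdeal K.1, mul_right_comm I.1 w'.asIdeal K.1]
      exact h3
    have h3 : f.1 (UCH_mul one W) + f.1 (UCH_mul one W') = l * f.1 one := h2 one
    rw [hfX, hfX] at h3
    rw [hχ w hwX, hχ w' hwX']
    refine mul_right_cancel₀ hf1 ?_
    rw [add_mul]
    exact h3
  · intro w w' l hw hw' h
    have hwX := UCH_X_prime w hw
    have hwX' := UCH_X_prime w' hw'
    let W : UCH_X m₀ := ⟨w.asIdeal, hwX⟩
    let W' : UCH_X m₀ := ⟨w'.asIdeal, hwX'⟩
    let R : Submodule κ (UCH_X m₀ → κ) :=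
      { carrier := {g | ∀ I, g (UCH_mul (UCH_mul I W) W') = l * g I}
        add_mem' := by
          intro g g' hg hg' I
          have e1 := hg I
          have e2 := hg' I
          simp only [Pi.add_apply]
          linear_combination e1 + e2
        zero_mem' := fun I => by simp
        smul_mem' := by
          intro c g hg I
          have e1 := hg I
          simp only [Pi.smul_apply, smul_eq_mul]
          linear_combination c * e1 }
    have h2 : f.1 ∈ R := by
      refine hrel R fun K I => ?_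
      have hIK := CG2.GalL_X_mul I.2 K.2
      have h3 := h (I.1 * K.1) hIK.1 hIK.2
      change a (I.1 * w.asIdeal * w'.asIdeal * K.1) = l * a (I.1 * K.1)
      have h4 : I.1 * w.asIdeal * w'.asIdeal * K.1 = I.1 * K.1 * w.asIdeal * w'.asIdeal := by ring
      rw [h4]
      exact h3
    have h3 : f.1 (UCH_mul (UCH_mul one W) W') = l * f.1 one := h2 one
    rw [hfX, hfX] at h3
    rw [hχ w hwX, hχ w' hwX']
    refine mul_right_cancel₀ hf1 ?_
    change X W * X W' * f.1 one = l * f.1 one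
    rw [← h3]; ring

end Pool.Agent.CGQ
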