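import Pool.Agent.CGQ.URD

/-!
# The unit trick: signs
-/

noncomputable section

namespace Pool.Agent.CGQ

open NumberField IsDedekindDomain Matrix
open Pool.Agent.CG2 (Pl Fv Ov GQ GZ expo InRay IsRay TotPos)
open Pool.Agent.CG2.GalFinAux (below actP)

variable {F : Type} [Field F] [NumberField F] {L : Type} [Field L] [NumberField L] [Algebra F L]

private theorem urs_gal (hdeg : Module.finrank F L = 2) : IsGalois F L := by
  have h : Algebra.IsQuadraticExtension F L := { finrank_eq_two' := hdeg }
  infer_instance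

private theorem urs_sq (hdeg : Module.finrank F L = 2) (c : Gal(L/F)) (y : L) : c (c y) = y := by
  have hG := urs_gal hdeg
  have h1 : Nat.card Gal(L/F) = 2 := by rw [IsGalois.card_aut_eq_finrank, hdeg]
  have h2 : c ^ Nat.card Gal(L/F) = 1 := pow_card_eq_one'
  rw [h1, pow_two] at h2
  have h3 : (c * c) y = y := by rw [h2]; rfl
  exact h3

private theorem urs_fixed (hdeg : Module.finrank F L = 2) {c : Gal(L/F)} (hc : c ≠ 1) {x : L}
    (hx : c x = x) : ∃ a : F, algebraMap F L a = x := by
  have hG := urs_gal hdeg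
  have h1 : Nat.card Gal(L/F) = 2 := by rw [IsGalois.card_aut_eq_finrank, hdeg]
  have hfd : FiniteDimensional F L := Module.finite_of_finrank_pos (by omega)
  refine (IsGalois.mem_range_algebraMap_iff_fixed x).2 fun σ => ?_
  by_cases h : σ = 1
  · rw [h]
    rfl
  · obtain ⟨y, -, hy⟩ := (Nat.card_eq_two_iff' (1 : Gal(L/F))).1 h1
    rw [(hy σ h).trans (hy c hc).symm]
    exact hx

/-- **URS.** Signs: the reduced norm of a totally positive element of `L` is positive at all real
places of `F`.
PROOF. By `nrd_ι` it is `x * c x` = the norm of `x`. Let `σ : F →+* ℝ` be the embedding of the real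
place; extend it to `σ' : L →+* ℂ` (`IsAlgClosed.lift` / `Algebra.IsAlgebraic`). If the image of `L`
is real then `σ'` and `σ' ∘ c` are real embeddings (of real places of `L`), both positive at `x`.
Otherwise `σ' ∘ c` is the complex conjugate of `σ'` (the two extensions of `σ` are permuted by
complex conjugation), so `σ' (x * c x) = ‖σ' x‖ ^ 2 > 0`. -/
theorem nrd_pos {q : Qd F} (hdeg : Module.finrank F L = 2) (ι : L →ₐ[F] DF q) (c : Gal(L/F))
    (hc : c ≠ 1) {x : 𝓞 L} (hx : x ≠ 0) (hpos : TotPos x) (w : InfinitePlace F)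
    (hw : w.IsReal) : 0 < InfinitePlace.embedding_of_isReal hw (nrd (ι (x : L))) := by
  have hx0 : (x : L) ≠ 0 := fun h => hx (RingOfIntegers.ext h)
  -- the embedding of `L`
  let alg : Algebra F ℂ := w.embedding.toAlgebra
  have hfd : FiniteDimensional F L := Module.finite_of_finrank_pos (by omega)
  have halg : Algebra.IsAlgebraic F L := Algebra.IsAlgebraic.of_finite F L
  let ρ : L →ₐ[F] ℂ := IsAlgClosed.lift
  have hρ : ∀ a : F, ρ (algebraMap F L a) = w.embedding a := fun a => ρ.commutes a
  have hwr : ∀ a : F, ((InfinitePlace.embedding_of_isReal hw a : ℝ) : ℂ) = w.embedding a :=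
    fun a => InfinitePlace.embedding_of_isReal_apply hw a
  have hr : ∀ a : F, (starRingEnd ℂ) (w.embedding a) = w.embedding a := by
    intro a
    rw [← hwr, Complex.conj_ofReal]
  have hsq : ∀ y : L, c (c y) = y := urs_sq hdeg c
  -- conjugates
  have hconj : ∀ y : L, (starRingEnd ℂ) (ρ y) = ρ y ∨ (starRingEnd ℂ) (ρ y) = ρ (c y) := by
    intro y
    obtain ⟨s, hs⟩ := urs_fixed hdeg hc (x := y + c y) (by rw [map_add, hsq, add_comm])
    obtain ⟨n, hn⟩ := urs_fixed hdeg hc (x := y * c y) (by rw [map_mul, hsq, mul_comm])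
    have h1 : ρ y * ρ y - w.embedding s * ρ y + w.embedding n = 0 := by
      rw [← hρ, ← hρ, hs, hn, map_add, map_mul]
      ring
    have h2 := congrArg (starRingEnd ℂ) h1
    rw [map_add, map_sub, map_mul, map_mul, map_zero, hr, hr] at h2
    have h3 : ((starRingEnd ℂ) (ρ y) - ρ y) * ((starRingEnd ℂ) (ρ y) - ρ (c y)) = 0 := by
      rw [← hρ, ← hρ, hs, hn, map_add, map_mul] at h2
      linear_combination h2
    rcases mul_eq_zero.1 h3 with h4 | h4
    · exact Or.inl (sub_eq_zero.1 h4)
    · exact Or.inr (sub_eq_zero.1 h4)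
  have hprod : ((InfinitePlace.embedding_of_isReal hw (nrd (ι (x : L))) : ℝ) : ℂ) =
      ρ (x : L) * ρ (c (x : L)) := by
    rw [hwr, ← hρ, nrd_ι hdeg ι c hc, map_mul]
  by_cases hreal : ∀ y : L, (starRingEnd ℂ) (ρ y) = ρ y
  · -- both extensions are real
    have key : ∀ θ : L →+* ℂ, (∀ y : L, (starRingEnd ℂ) (θ y) = θ y) →
        ∃ r : ℝ, 0 < r ∧ θ (x : L) = (r : ℂ) := by
      intro θ hθ
      have hθ' : ComplexEmbedding.IsReal θ := by
        refine RingHom.ext fun y => ?_
        exact hθ y
      have hw' : (InfinitePlace.mk θ).IsReal := ⟨θ, hθ', rfl⟩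
      refine ⟨InfinitePlace.embedding_of_isReal hw' (x : L), hpos ⟨_, hw'⟩, ?_⟩
      rw [InfinitePlace.embedding_of_isReal_apply, InfinitePlace.embedding_mk_eq_of_isReal hθ']
    obtain ⟨r₁, hr₁, h₁⟩ := key (ρ : L →+* ℂ) hreal
    obtain ⟨r₂, hr₂, h₂⟩ := key ((ρ : L →+* ℂ).comp (c : L →+* L)) (fun y => hreal (c y))
    have h₁' : ρ (x : L) = (r₁ : ℂ) := h₁
    have h₂' : ρ (c (x : L)) = (r₂ : ℂ) := h₂
    rw [h₁', h₂', ← Complex.ofReal_mul] at hprod
    rw [Complex.ofReal_injective hprod]
    exact mul_pos hr₁ hr₂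
  · -- complex conjugation is `c`
    push Not at hreal
    obtain ⟨z, hz⟩ := hreal
    have hall : (starRingEnd ℂ) (ρ (x : L)) = ρ (c (x : L)) := by
      rcases hconj (x : L) with h | h
      · rcases hconj ((x : L) + z) with h' | h'
        · exfalso
          rw [map_add, map_add, h] at h'
          exact hz (add_left_cancel h')
        · have h'' := (hconj z).resolve_left hz
          rw [map_add, map_add, map_add, map_add, h''] at h'
          exact add_right_cancel h'
      · exact h
    rw [← hall, Complex.mul_conj] at hprod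
    rw [Complex.ofReal_injective hprod]
    refine Complex.normSq_pos.2 fun h => hx0 ?_
    exact (map_eq_zero ρ).1 h

end Pool.Agent.CGQ
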