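import Pool.Agent.CGQ.URE
import Pool.Agent.CGQ.URS

/-!
# The unit trick: principal ideals
-/

noncomputable section

namespace Pool.Agent.CGQ

open NumberField IsDedekindDomain Matrix
open Pool.Agent.CG2 (Pl Fv Ov GQ GZ cosets alpha expo InRay IsRay TotPos HRd)
open Pool.Agent.CG2.GalFinAux (below actP)

variable {F : Type} [Field F] [NumberField F] {L : Type} [Field L] [NumberField L] [Algebra F L]
variable {q : Qd F} {S : Set (Pl F)} {φ : Spl q S} {K : Subgroup (sysD q).A}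

private theorem URK_exp_lt (γ : WithZero (Multiplicative ℤ)) (hγ : γ ≠ 0) :
    ∃ n : ℕ, WithZero.exp (-(n : ℤ)) < γ := by
  obtain ⟨m, rfl⟩ : ∃ m : ℤ, γ = WithZero.exp m := ⟨WithZero.log γ, (WithZero.exp_log hγ).symm⟩
  refine ⟨(1 - m).toNat, WithZero.exp_lt_exp.2 ?_⟩
  have := Int.self_le_toNat (1 - m)
  omega

/-- The basis of the neighbourhoods of a point of `F_v`. -/
private theorem URK_nhds (v : Pl F) (x : Fv v) {V : Set (Fv v)} (hV : V ∈ nhds x) :
    ∃ n : ℕ, ∀ y : Fv v, Valued.v (y - x) ≤ WithZero.exp (-(n : ℤ)) → y ∈ V := by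
  obtain ⟨γ, hγ⟩ := Valued.mem_nhds.1 hV
  have h0 : MonoidWithZeroHom.ValueGroup₀.embedding γ.1 ≠ 0 := by
    rw [map_ne_zero_iff _ (MonoidWithZeroHom.ValueGroup₀.embedding_strictMono.injective)]
    exact γ.ne_zero
  obtain ⟨n, hn⟩ := URK_exp_lt _ h0
  refine ⟨n, fun y hy => hγ ?_⟩
  change Valued.v.restrict (y - x) < γ.1
  rw [Valuation.restrict_lt_iff_lt_embedding]
  exact lt_of_le_of_lt hy hn

private theorem URK_exp_mono {m n : ℕ} (h : m ≤ n) {x : WithZero (Multiplicative ℤ)}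
    (hx : x ≤ WithZero.exp (-(n : ℤ))) : x ≤ WithZero.exp (-(m : ℤ)) :=
  hx.trans (WithZero.exp_le_exp.2 (by omega))

/-- The element with given coordinates. -/
private def URK_J (q : Qd F) (v : Pl F) (k : Fv v × Fv v × Fv v × Fv v) : DV q v :=
  ⟨k.1, k.2.1, k.2.2.1, k.2.2.2⟩

private theorem URK_J_cont (q : Qd F) (v : Pl F) : Continuous (URK_J q v) := by
  refine continuous_q ?_ ?_ ?_ ?_
  · exact continuous_fst
  · exact continuous_fst.comp continuous_snd
  · exact continuous_fst.comp (continuous_snd.comp continuous_snd)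
  · exact continuous_snd.comp (continuous_snd.comp continuous_snd)

/-- The coordinates of `x` are small. -/
private def URK_sm {q : Qd F} {v : Pl F} (n : ℕ) (x : DV q v) : Prop :=
  Valued.v x.re ≤ WithZero.exp (-(n : ℤ)) ∧ Valued.v x.imI ≤ WithZero.exp (-(n : ℤ)) ∧
    Valued.v x.imJ ≤ WithZero.exp (-(n : ℤ)) ∧ Valued.v x.imK ≤ WithZero.exp (-(n : ℤ))

private theorem URK_sm_add {q : Qd F} {v : Pl F} {n : ℕ} {x y : DV q v} (hx : URK_sm n x)
    (hy : URK_sm n y) : URK_sm n (x + y) :=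
  ⟨(Valuation.map_add _ _ _).trans (max_le hx.1 hy.1),
    (Valuation.map_add _ _ _).trans (max_le hx.2.1 hy.2.1),
    (Valuation.map_add _ _ _).trans (max_le hx.2.2.1 hy.2.2.1),
    (Valuation.map_add _ _ _).trans (max_le hx.2.2.2 hy.2.2.2)⟩

private theorem URK_sm_smul {q : Qd F} {v : Pl F} {n : ℕ} {x : DV q v} (hx : URK_sm n x)
    {c : Fv v} (hc : Valued.v c ≤ 1) : URK_sm n (c • x) := by
  have key : ∀ y : Fv v, Valued.v y ≤ WithZero.exp (-(n : ℤ)) →
      Valued.v (c * y) ≤ WithZero.exp (-(n : ℤ)) := by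
    intro y hy
    rw [map_mul]
    calc Valued.v c * Valued.v y ≤ 1 * Valued.v y := mul_le_mul_left hc _
      _ ≤ _ := by rw [one_mul]; exact hy
  exact ⟨key _ hx.1, key _ hx.2.1, key _ hx.2.2.1, key _ hx.2.2.2⟩

private theorem URK_sm_zero {q : Qd F} {v : Pl F} (n : ℕ) : URK_sm n (0 : DV q v) := by
  have h : Valued.v (0 : Fv v) ≤ WithZero.exp (-(n : ℤ)) := by
    rw [map_zero]
    exact zero_le
  exact ⟨h, h, h, h⟩

/-- Every element becomes small after multiplication by a high power of a uniformiser. -/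
private theorem URK_sm_ex {q : Qd F} {v : Pl F} (n : ℕ) (x : DV q v) : ∃ N : ℕ, ∀ c : Fv v,
    Valued.v c ≤ WithZero.exp (-(N : ℤ)) → URK_sm n (c • x) := by
  have key : ∀ y : Fv v, ∃ N : ℕ, ∀ c : Fv v, Valued.v c ≤ WithZero.exp (-(N : ℤ)) →
      Valued.v (c * y) ≤ WithZero.exp (-(n : ℤ)) := by
    intro y
    by_cases hy : Valued.v y = 0
    · refine ⟨0, fun c _ => ?_⟩
      rw [map_mul, hy, mul_zero]
      exact zero_le
    · obtain ⟨m, hm⟩ : ∃ m : ℤ, Valued.v y = WithZero.exp m := ⟨WithZero.log (Valued.v y),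
        (WithZero.exp_log hy).symm⟩
      refine ⟨(n + m).toNat, fun c hc => ?_⟩
      rw [map_mul, hm]
      calc Valued.v c * WithZero.exp m ≤
            WithZero.exp (-(((n + m).toNat : ℕ) : ℤ)) * WithZero.exp m := mul_le_mul_left hc _
        _ = WithZero.exp (-(((n + m).toNat : ℕ) : ℤ) + m) := (WithZero.exp_add _ _).symm
        _ ≤ _ := WithZero.exp_le_exp.2 (by
            have := Int.self_le_toNat ((n : ℤ) + m)
            omega)
  obtain ⟨N0, h0⟩ := key x.re
  obtain ⟨N1, h1⟩ := key x.imI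
  obtain ⟨N2, h2⟩ := key x.imJ
  obtain ⟨N3, h3⟩ := key x.imK
  refine ⟨max (max N0 N1) (max N2 N3), fun c hc => ⟨h0 c (URK_exp_mono ?_ hc),
    h1 c (URK_exp_mono ?_ hc), h2 c (URK_exp_mono ?_ hc), h3 c (URK_exp_mono ?_ hc)⟩⟩ <;> omega

/-- The basis of the neighbourhoods of the unit element of the group of units. -/
private theorem URK_unit_nhds (q : Qd F) (v : Pl F) {V : Set (DV q v)ˣ}
    (hV : V ∈ nhds (1 : (DV q v)ˣ)) :
    ∃ n : ℕ, ∀ y : (DV q v)ˣ, URK_sm n (y.1 - 1) → y ∈ V := by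
  rw [Units.isInducing_embedProduct.nhds_eq_comap] at hV
  obtain ⟨T, hT, hTV⟩ := hV
  let d : Fv v × Fv v × Fv v × Fv v → Fv v := fun k => nrd (URK_J q v k)
  let J' : Fv v × Fv v × Fv v × Fv v → DV q v := fun k =>
    URK_J q v ((d k)⁻¹ * k.1, -((d k)⁻¹ * k.2.1), -((d k)⁻¹ * k.2.2.1), -((d k)⁻¹ * k.2.2.2))
  let h : Fv v × Fv v × Fv v × Fv v → DV q v × (DV q v)ᵐᵒᵖ := fun k =>
    (URK_J q v k, MulOpposite.op (J' k))
  let k0 : Fv v × Fv v × Fv v × Fv v := (1, 0, 0, 0)
  have hd : Continuous d := by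
    change Continuous fun k : Fv v × Fv v × Fv v × Fv v => k.1 ^ 2 - _ * k.2.1 ^ 2 -
      _ * k.2.2.1 ^ 2 + _ * _ * k.2.2.2 ^ 2
    fun_prop
  have hJ0 : URK_J q v k0 = 1 := rfl
  have hd0 : d k0 = 1 := by
    change nrd (URK_J q v k0) = 1
    rw [hJ0, nrd_one]
  have hinv : ContinuousAt (fun k => (d k)⁻¹) k0 :=
    hd.continuousAt.inv₀ (by rw [hd0]; exact one_ne_zero)
  have hJ' : ContinuousAt J' k0 := by
    refine (URK_J_cont q v).continuousAt.comp ?_
    refine ContinuousAt.prodMk (hinv.mul continuous_fst.continuousAt) (ContinuousAt.prodMk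
      (hinv.mul (continuous_fst.comp continuous_snd).continuousAt).neg (ContinuousAt.prodMk
      (hinv.mul (continuous_fst.comp (continuous_snd.comp continuous_snd)).continuousAt).neg
      (hinv.mul (continuous_snd.comp (continuous_snd.comp continuous_snd)).continuousAt).neg))
  have hh : ContinuousAt h k0 :=
    (URK_J_cont q v).continuousAt.prodMk (MulOpposite.continuous_op.continuousAt.comp hJ')
  have hinvu : ∀ y : (DV q v)ˣ, ∀ k : Fv v × Fv v × Fv v × Fv v, URK_J q v k = y.1 →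
      ((y⁻¹ : (DV q v)ˣ).1) = J' k := by
    intro y k hk
    have hn : nrd y.1 ≠ 0 := (isUnit_iff_nrd y.1).1 y.isUnit
    apply Units.inv_eq_of_mul_eq_one_right
    have h1 : J' k = (nrd y.1)⁻¹ • star y.1 := by
      have hdk : d k = nrd y.1 := by
        change nrd (URK_J q v k) = _
        rw [hk]
      change URK_J q v ((d k)⁻¹ * k.1, -((d k)⁻¹ * k.2.1), -((d k)⁻¹ * k.2.2.1),
        -((d k)⁻¹ * k.2.2.2)) = _
      rw [hdk]
      apply QuaternionAlgebra.ext
      · change (nrd y.1)⁻¹ * k.1 = (nrd y.1)⁻¹ * (star y.1).re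
        rw [← hk, QuaternionAlgebra.re_star, zero_mul, add_zero]
        rfl
      · change -((nrd y.1)⁻¹ * k.2.1) = (nrd y.1)⁻¹ * (star y.1).imI
        rw [← hk, QuaternionAlgebra.imI_star, mul_neg]
        rfl
      · change -((nrd y.1)⁻¹ * k.2.2.1) = (nrd y.1)⁻¹ * (star y.1).imJ
        rw [← hk, QuaternionAlgebra.imJ_star, mul_neg]
        rfl
      · change -((nrd y.1)⁻¹ * k.2.2.2) = (nrd y.1)⁻¹ * (star y.1).imK
        rw [← hk, QuaternionAlgebra.imK_star, mul_neg]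
        rfl
    rw [h1, mul_smul_comm, mul_star_nrd]
    apply QuaternionAlgebra.ext
    · change (nrd y.1)⁻¹ * nrd y.1 = 1
      exact inv_mul_cancel₀ hn
    · exact mul_zero _
    · exact mul_zero _
    · exact mul_zero _
  have hT0 : T ∈ nhds (h k0) := by
    have h1 : Units.embedProduct (DV q v) 1 = h k0 := by
      have h2 := hinvu 1 k0 hJ0
      refine Prod.ext ?_ ?_
      · exact hJ0.symm
      · exact congrArg MulOpposite.op h2
    rw [← h1]
    exact hT
  have hmem := hh hT0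
  rw [Filter.mem_map] at hmem
  obtain ⟨A0, hA0, B0, hB0, hs0⟩ := mem_nhds_prod_iff.1 hmem
  obtain ⟨A1, hA1, B1, hB1, hs1⟩ := mem_nhds_prod_iff.1 hB0
  obtain ⟨A2, hA2, A3, hA3, hs2⟩ := mem_nhds_prod_iff.1 hB1
  obtain ⟨n0, h0⟩ := URK_nhds v _ hA0
  obtain ⟨n1, h1⟩ := URK_nhds v _ hA1
  obtain ⟨n2, h2⟩ := URK_nhds v _ hA2
  obtain ⟨n3, h3⟩ := URK_nhds v _ hA3
  refine ⟨max (max n0 n1) (max n2 n3), fun y hy => hTV ?_⟩
  let k : Fv v × Fv v × Fv v × Fv v := (y.1.re, y.1.imI, y.1.imJ, y.1.imK)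
  have hk : URK_J q v k = y.1 := rfl
  have hyr : (y.1 - 1).re = y.1.re - 1 := rfl
  have hyi : (y.1 - 1).imI = y.1.imI - 0 := rfl
  have hyj : (y.1 - 1).imJ = y.1.imJ - 0 := rfl
  have hyk : (y.1 - 1).imK = y.1.imK - 0 := rfl
  have hkm : k ∈ h ⁻¹' T := by
    apply hs0
    refine ⟨h0 _ (URK_exp_mono ?_ (hyr ▸ hy.1)), hs1 ⟨h1 _ (URK_exp_mono ?_ (hyi ▸ hy.2.1)),
      hs2 ⟨h2 _ (URK_exp_mono ?_ (hyj ▸ hy.2.2.1)), h3 _ (URK_exp_mono ?_ (hyk ▸ hy.2.2.2))⟩⟩⟩ <;>
      omega
  have h4 : Units.embedProduct (DV q v) y = h k := by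
    refine Prod.ext ?_ ?_
    · exact hk.symm
    · exact congrArg MulOpposite.op (hinvu y k hk)
  change Units.embedProduct (DV q v) y ∈ T
  rw [h4]
  exact hkm

/-- The bad places. -/
private theorem URK_bad (X : Tor q φ K L) (v : Pl F) : ∃ I : Ideal (𝓞 L), I ≠ ⊥ ∧
    ∀ (e : 𝓞 L) (he : e ≠ 0), e - 1 ∈ I →
      (X.y.2.1 v)⁻¹ * (sysD q).loc v (X.u (Units.mk0 (e : L) (by simpa using he))) *
        X.y.2.1 v ∈ X.U v := by
  classical
  let g : (DV q v)ˣ := X.y.2.1 v
  obtain ⟨n, hn⟩ := URK_unit_nhds q v (V := {y : (DV q v)ˣ | g⁻¹ * y * g ∈ X.U v})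
    (by
      have h1 : IsOpen {y : (DV q v)ˣ | g⁻¹ * y * g ∈ X.U v} :=
        (X.U_open v).preimage ((continuous_const.mul continuous_id).mul continuous_const)
      refine h1.mem_nhds ?_
      change g⁻¹ * 1 * g ∈ X.U v
      rw [mul_one, inv_mul_cancel]
      exact (X.U v).one_mem)
  obtain ⟨s, hs⟩ := (Module.Finite.fg_top : (⊤ : Submodule (𝓞 F) (𝓞 L)).FG)
  let D : 𝓞 L → DV q v := fun x => dloc q v (X.ι (x : L))
  have hDadd : ∀ x y, D (x + y) = D x + D y := by
    intro x y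
    change dloc q v (X.ι ((x + y : 𝓞 L) : L)) = _
    rw [show ((x + y : 𝓞 L) : L) = (x : L) + (y : L) from rfl, map_add, map_add]
  have hDsmul : ∀ (r : 𝓞 F) (x : 𝓞 L), D (r • x) = ((r : F) : Fv v) • D x := by
    intro r x
    change dloc q v (X.ι ((r • x : 𝓞 L) : L)) = _
    have h1 : ((r • x : 𝓞 L) : L) = (r : F) • (x : L) := by
      rw [Algebra.smul_def, Algebra.smul_def]
      rfl
    rw [h1, map_smul]
    apply QuaternionAlgebra.ext
    · exact map_mul (algebraMap F (Fv v)) _ _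
    · exact map_mul (algebraMap F (Fv v)) _ _
    · exact map_mul (algebraMap F (Fv v)) _ _
    · exact map_mul (algebraMap F (Fv v)) _ _
  have hval : ∀ r : 𝓞 F, Valued.v ((r : F) : Fv v) = v.intValuation r := by
    intro r
    rw [HeightOneSpectrum.adicCompletion.valued_coe]
    exact HeightOneSpectrum.valuation_of_algebraMap v r
  choose N hN using fun b : 𝓞 L => URK_sm_ex n (D b)
  obtain ⟨ϖ, hϖ⟩ := v.intValuation_exists_uniformizer
  let M : ℕ := s.sup N
  have hϖM : Valued.v (((ϖ ^ M : 𝓞 F) : F) : Fv v) = WithZero.exp (-(M : ℤ)) := by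
    rw [hval, map_pow, hϖ, ← WithZero.exp_nsmul]
    congr 1
    simp
  have hϖ0 : ϖ ≠ 0 := by
    rintro rfl
    rw [map_zero] at hϖ
    exact WithZero.exp_ne_zero hϖ.symm
  refine ⟨Ideal.span {algebraMap (𝓞 F) (𝓞 L) (ϖ ^ M)}, ?_, fun e he hI => ?_⟩
  · rw [Ne, Ideal.span_singleton_eq_bot, map_eq_zero_iff _ (FaithfulSMul.algebraMap_injective _ _)]
    exact pow_ne_zero _ hϖ0
  · obtain ⟨y, hy⟩ := Ideal.mem_span_singleton'.1 hI
    have hsm : ∀ y : 𝓞 L, URK_sm n (D ((ϖ ^ M : 𝓞 F) • y)) := by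
      intro y
      have hy : y ∈ Submodule.span (𝓞 F) (s : Set (𝓞 L)) := by
        rw [hs]
        trivial
      induction hy using Submodule.span_induction with
      | mem b hb =>
        rw [hDsmul]
        refine hN b _ ?_
        rw [hϖM]
        exact WithZero.exp_le_exp.2 (by
          have : N b ≤ M := Finset.le_sup (f := N) hb
          omega)
      | zero =>
        rw [smul_zero]
        have h1 : D 0 = 0 := by
          change dloc q v (X.ι ((0 : 𝓞 L) : L)) = 0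
          rw [show ((0 : 𝓞 L) : L) = 0 from rfl, map_zero, map_zero]
        rw [h1]
        exact URK_sm_zero n
      | add x y _ _ hx hy =>
        rw [smul_add, hDadd]
        exact URK_sm_add hx hy
      | smul r x _ hx =>
        rw [smul_comm, hDsmul]
        refine URK_sm_smul hx ?_
        rw [hval]
        exact v.intValuation_le_one r
    refine hn ((sysD q).loc v (X.u (Units.mk0 (e : L) (by simpa using he)))) ?_
    have h1 : ((sysD q).loc v (X.u (Units.mk0 (e : L) (by simpa using he))) : (DV q v)ˣ).1 - 1 =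
        D ((ϖ ^ M : 𝓞 F) • y) := by
      have h2 : (ϖ ^ M : 𝓞 F) • y = e - 1 := by
        rw [Algebra.smul_def, mul_comm]
        exact hy
      rw [h2]
      change dloc q v (X.ι (e : L)) - 1 = dloc q v (X.ι ((e - 1 : 𝓞 L) : L))
      rw [show ((e - 1 : 𝓞 L) : L) = (e : L) - 1 from rfl, map_sub, map_sub, map_one, map_one]
    rw [h1]
    exact hsm y

/-- **URK.** Principal ideals. There is an ideal `m₁ ≠ ⊥` such that the representatives of the ideals
`(e)`, `e ≡ 1` modulo `m₁` and totally positive, act like `e`.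
PROOF. `lt t X.y` and `act (u e) X.y` have the same sign component, because the signs of
`nrd (ι e)` are positive (`nrd_pos`, definition of `dsgn`; `SPl` are real places). On the component
in `A`: `k = y⁻¹ diag(u e)⁻¹ t y`. At a good `v` the component is `g⁻¹ loc (u (e⁻¹ x)) g` with
`w x = w e` for all `w` above `v` (`expo w (e)` and `w.valuation e`: `intValuation_eq`...), in `U v`
by `unit_mem`. At the finitely many bad `v` it is `g⁻¹ loc (u e)⁻¹ g`, and the set of `e` in `D_v` with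
this in the open subgroup `U v` is a neighbourhood of `1`; `loc (u e) - 1` is small if `e - 1` is
in a high power of `v 𝓞 L`: with a basis `b_j` of `L` over `F` (or `𝓞 L` as a finitely generated
`𝓞 F`-module) `e - 1 = ϖ^N * e'`, `ϖ` in `v`, `e'` in `𝓞 L`, and the coordinates of `ι e'` in `D` are
bounded at `v` (`𝓞 L` is finitely generated over `𝓞 F`, `ι` is linear). Take for `m₁` the product
over the bad `v` of `(v ^ N_v) 𝓞 L` (as ideal `Ideal.map`); for `e - 1 ∈ v^N 𝓞 L` the coordinates of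
`ι (e - 1)` are in `v^N` times a fixed fractional ideal. -/
theorem Tor.principal (X : Tor q φ K L) : ∃ m₁ : Ideal (𝓞 L), m₁ ≠ ⊥ ∧
    ∀ (e : 𝓞 L) (he : e ≠ 0), e - 1 ∈ m₁ → TotPos e → ∀ t, X.IsRep (Ideal.span {e}) t →
      mkK K (lt t X.y) = mkK K (act (X.u (Units.mk0 (e : L) (by simpa using he))) X.y) := by
  classical
  choose J hJ0 hJ using URK_bad X
  refine ⟨∏ v ∈ X.T_fin.toFinset, J v, ?_, fun e he h1 hpos t ht => ?_⟩
  · rw [← Ideal.zero_eq_bot]
    exact Finset.prod_ne_zero_iff.2 fun v _ => hJ0 v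
  · set x : Lˣ := Units.mk0 (e : L) (by simpa using he) with hx
    rw [mkK_eq]
    refine ⟨X.y.2⁻¹ * t⁻¹ * diag (X.u x) * X.y.2, X.U_le _ fun v => ?_, ?_⟩
    · by_cases hv : v ∈ X.T
      · have h2 : (X.y.2⁻¹ * t⁻¹ * diag (X.u x) * X.y.2).1 v =
            (X.y.2.1 v)⁻¹ * (sysD q).loc v (X.u x) * X.y.2.1 v := by
          change (X.y.2.1 v)⁻¹ * (t.1 v)⁻¹ * (sysD q).loc v (X.u x) * X.y.2.1 v = _
          rw [ht.1 v hv, inv_one, mul_one]
        rw [h2]
        refine hJ v e he ?_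
        exact Ideal.le_of_dvd (Finset.dvd_prod_of_mem J ((Set.Finite.mem_toFinset _).2 hv)) h1
      · obtain ⟨z, hz1, hz2⟩ := ht.2 v hv
        have h2 : (X.y.2⁻¹ * t⁻¹ * diag (X.u x) * X.y.2).1 v =
            (X.y.2.1 v)⁻¹ * (sysD q).loc v (X.u (z⁻¹ * x)) * X.y.2.1 v := by
          change (X.y.2.1 v)⁻¹ * (t.1 v)⁻¹ * (sysD q).loc v (X.u x) * X.y.2.1 v = _
          have h3 : X.u (z⁻¹ * x) = (X.u z)⁻¹ * X.u x := by
            rw [X.u_mul, show X.u z⁻¹ = (X.u z)⁻¹ from map_inv X.uHom z]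
          rw [hz1, h3, map_mul, map_inv]
          simp only [mul_assoc]
        rw [h2]
        refine X.unit_mem v hv _ fun w hw => ?_
        rw [Units.val_mul, Units.val_inv_eq_inv_val, map_mul, map_inv₀, hz2 w hw]
        have h4 : w.valuation L (x : L) = WithZero.exp (-(expo w (Ideal.span {e}) : ℤ)) := by
          rw [hx, Units.val_mk0]
          change w.valuation L (algebraMap (𝓞 L) L e) = _
          rw [HeightOneSpectrum.valuation_of_algebraMap, HeightOneSpectrum.intValuation_if_neg _ he]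
          rfl
        rw [h4, inv_mul_cancel₀ WithZero.exp_ne_zero]
    · refine Prod.ext ?_ ?_
      · change (sysD q).sgn (X.u x) * X.y.1 = X.y.1
        have h2 : (sysD q).sgn (X.u x) = 1 := by
          funext w
          change (if 0 < w.emb (nrd (X.ι (e : L))) then (1 : ℤˣ) else -1) = 1
          rw [if_pos]
          exact nrd_pos X.deg X.ι X.c X.c_ne he hpos w.1 w.2.choose
        rw [h2, one_mul]
      · change diag (X.u x) * X.y.2 = t * X.y.2 * (X.y.2⁻¹ * t⁻¹ * diag (X.u x) * X.y.2)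
        simp only [mul_assoc, mul_inv_cancel_left]

end Pool.Agent.CGQ
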