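import Pool.Agent.CGQ.URF

/-!
# The unit trick: existence of representatives
-/

noncomputable section

namespace Pool.Agent.CGQ

open NumberField IsDedekindDomain Matrix
open Pool.Agent.CG2 (Pl Fv Ov GQ GZ cosets alpha expo InRay IsRay TotPos HRd)
open Pool.Agent.CG2.GalFinAux (below actP)

variable {F : Type} [Field F] [NumberField F] {L : Type} [Field L] [NumberField L] [Algebra F L]
variable {q : Qd F} {S : Set (Pl F)} {φ : Spl q S} {K : Subgroup (sysD q).A}

/-- **URG.** Representatives exist.
PROOF. `exists_elt` for every good `v`, but take `x = 1` if no place above `v` divides `I`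
(`expo w I = 0` for all `w` above `v`; all but finitely many `v`, `I ≠ ⊥`), so that the family is in
`A`. -/
theorem Tor.exists_rep (X : Tor q φ K L) {I : Ideal (𝓞 L)} (hI : I ≠ ⊥) : ∃ t, X.IsRep I t := by
  classical
  choose x hx using fun v : Pl F => exists_elt (L := L) v I
  let P : Pl F → Prop := fun v => v ∈ X.T ∨ ∀ w : Pl L, below F w = v → expo w I = 0
  let g : ∀ v, (sysD q).L v := fun v => if P v then 1 else (sysD q).loc v (X.u (x v))
  have hg1 : ∀ v, P v → g v = 1 := fun v h => if_pos h
  have hg2 : ∀ v, ¬ P v → g v = (sysD q).loc v (X.u (x v)) := fun v h => if_neg h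
  have hfin : {v | g v ∉ (sysD q).B v}.Finite := by
    refine ((Ideal.finite_factors hI).image (below F)).subset ?_
    intro v hv
    by_contra hc
    apply hv
    have hP : P v := Or.inr fun w hw => by
      by_contra h
      exact hc ⟨w, (Pool.Agent.CG2.GalL_expo_ne_zero w hI).1 h, hw⟩
    rw [hg1 v hP]
    exact ((sysD q).B v).one_mem
  refine ⟨⟨g, hfin⟩, fun v hv => hg1 v (Or.inl hv), fun v hv => ?_⟩
  by_cases h : ∀ w : Pl L, below F w = v → expo w I = 0
  · refine ⟨1, ?_, ?_⟩
    · have h1 : X.u 1 = 1 := map_one X.uHom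
      rw [h1, map_one]
      exact hg1 v (Or.inr h)
    · intro w hw
      rw [h w hw]
      simp
  · exact ⟨x v, hg2 v (by rintro (h1 | h1); exacts [hv h1, h h1]), hx v⟩

end Pool.Agent.CGQ
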