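import Pool.Agent.CGQ.UDefs

/-!
# The unit trick: products
-/

noncomputable section

namespace Pool.Agent.CGQ

open NumberField IsDedekindDomain Matrix
open Pool.Agent.CG2 (Pl Fv Ov GQ GZ cosets alpha expo InRay IsRay TotPos HRd)
open Pool.Agent.CG2.GalFinAux (below actP)

variable {F : Type} [Field F] [NumberField F] {L : Type} [Field L] [NumberField L] [Algebra F L]
variable {q : Qd F} {S : Set (Pl F)} {φ : Spl q S} {K : Subgroup (sysD q).A}

/-- **URI.** Products of representatives (`CG2.GalL_expo_mul`). -/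
theorem Tor.rep_mul (X : Tor q φ K L) {I J : Ideal (𝓞 L)} (hI : I ≠ ⊥) (hJ : J ≠ ⊥)
    {t t' : (sysD q).A} (ht : X.IsRep I t) (ht' : X.IsRep J t') : X.IsRep (I * J) (t * t') := by
  refine ⟨?_, ?_⟩
  · intro v hv
    change t.1 v * t'.1 v = 1
    rw [ht.1 v hv, ht'.1 v hv, mul_one]
  · intro v hv
    obtain ⟨x, hx, hx'⟩ := ht.2 v hv
    obtain ⟨x', hy, hy'⟩ := ht'.2 v hv
    refine ⟨x * x', ?_, ?_⟩
    · change t.1 v * t'.1 v = _
      rw [hx, hy, X.u_mul, map_mul]
    · intro w hw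
      rw [Units.val_mul, map_mul, hx' w hw, hy' w hw, ← WithZero.exp_add,
        CG2.GalL_expo_mul w hI hJ]
      congr 1
      push_cast
      ring

theorem Tor.rep_top (X : Tor q φ K L) : X.IsRep ⊤ 1 := by
  refine ⟨fun v _ => rfl, ?_⟩
  intro v _
  refine ⟨1, ?_, ?_⟩
  · have h : X.u 1 = 1 := map_one X.uHom
    rw [h, map_one]
    rfl
  · intro w _
    rw [Units.val_one, map_one, CG2.GalL_expo_top]
    rfl

end Pool.Agent.CGQ
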