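import Pool.Agent.CGQ.URH
import Pool.Agent.CGQ.URI
import Pool.Agent.CGQ.URG

/-!
# The unit trick: the operator `R_v`
-/

noncomputable section

namespace Pool.Agent.CGQ

open NumberField IsDedekindDomain Matrix
open Pool.Agent.CG2 (Pl Fv Ov GQ GZ cosets alpha expo InRay IsRay TotPos HRd)
open Pool.Agent.CG2.GalFinAux (below actP)

variable {F : Type} [Field F] [NumberField F] {L : Type} [Field L] [NumberField L] [Algebra F L]
variable {q : Qd F} {S : Set (Pl F)} {φ : Spl q S} {K : Subgroup (sysD q).A}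

private theorem URR_unram (hdeg : Module.finrank F L = 2) {w w' : Pl L} {v : Pl F}
    (hw : below F w = v) (hw' : below F w' = v) (hne : w' ≠ w) (x : F) :
    w.valuation L (algebraMap F L x) = v.valuation F x := by
  classical
  have hlo : w.asIdeal.LiesOver v.asIdeal :=
    CG2.GalFinAux.liesOver_of_lies (CG2.GalFinAux.lies_iff.2 hw)
  have hlo' : w'.asIdeal.LiesOver v.asIdeal :=
    CG2.GalFinAux.liesOver_of_lies (CG2.GalFinAux.lies_iff.2 hw')
  rw [← HeightOneSpectrum.valuation_liesOver L v w x]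
  have hmax : v.asIdeal.IsMaximal := v.isMaximal
  have hsum := Ideal.sum_ramification_inertia (𝓞 L) F L (p := v.asIdeal) v.ne_bot
  rw [hdeg] at hsum
  have hmem : ∀ u : Pl L, u.asIdeal.LiesOver v.asIdeal →
      u.asIdeal ∈ IsDedekindDomain.primesOverFinset v.asIdeal (𝓞 L) := by
    intro u hu
    rw [IsDedekindDomain.mem_primesOverFinset_iff v.ne_bot]
    exact ⟨u.isPrime, hu⟩
  have hpos : ∀ u : Pl L, u.asIdeal.LiesOver v.asIdeal →
      1 ≤ Ideal.ramificationIdx' v.asIdeal u.asIdeal * Ideal.inertiaDeg' v.asIdeal u.asIdeal := by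
    intro u hu
    have h1 : Ideal.ramificationIdx' v.asIdeal u.asIdeal ≠ 0 :=
      Ideal.IsDedekindDomain.ramificationIdx'_ne_zero_of_liesOver u.asIdeal v.ne_bot
    have h2 : 0 < Ideal.inertiaDeg' v.asIdeal u.asIdeal := Ideal.inertiaDeg'_pos _ _
    exact Nat.mul_pos (Nat.pos_of_ne_zero h1) h2
  have h1 : Ideal.ramificationIdx' v.asIdeal w.asIdeal * Ideal.inertiaDeg' v.asIdeal w.asIdeal +
      Ideal.ramificationIdx' v.asIdeal w'.asIdeal * Ideal.inertiaDeg' v.asIdeal w'.asIdeal ≤ 2 := by
    rw [← hsum]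
    have hne' : w.asIdeal ≠ w'.asIdeal := fun h => hne (HeightOneSpectrum.ext h.symm)
    rw [← Finset.sum_pair hne' (f := fun P => Ideal.ramificationIdx' v.asIdeal P *
      Ideal.inertiaDeg' v.asIdeal P)]
    apply Finset.sum_le_sum_of_subset
    intro P hP
    simp only [Finset.mem_insert, Finset.mem_singleton] at hP
    rcases hP with rfl | rfl
    · exact hmem w hlo
    · exact hmem w' hlo'
  have h2 := hpos w hlo
  have h3 := hpos w' hlo'
  have h4 : Ideal.ramificationIdx' v.asIdeal w.asIdeal *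
      Ideal.inertiaDeg' v.asIdeal w.asIdeal = 1 := by omega
  rw [Nat.eq_one_of_mul_eq_one_right h4, pow_one]

private theorem URR_places (hdeg : Module.finrank F L = 2) {c : Gal(L/F)} (hc : c ≠ 1) {w w' : Pl L}
    {v : Pl F} (hw : below F w = v) (hw' : below F w' = v) : w' = w ∨ w' = actP c w := by
  have hq : Algebra.IsQuadraticExtension F L := ⟨hdeg⟩
  have hG : IsGalois F L := { }
  obtain ⟨σ, hσ⟩ := CG2.GalFinAux.exists_actP (hw.trans hw'.symm)
  have hcard : Nat.card Gal(L/F) = 2 := by rw [IsGalois.card_aut_eq_finrank, hdeg]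
  by_cases h1 : σ = 1
  · left
    rw [hσ, h1, CG2.GalFinAux.actP_one]
  · right
    obtain ⟨y, -, hy⟩ := (Nat.card_eq_two_iff' (1 : Gal(L/F))).1 hcard
    rw [hσ, hy σ h1, hy c hc]

private theorem URR_dloc (q : Qd F) (v : Pl F) (x : F) :
    dloc q v (algebraMap F (DF q) x) = algebraMap (Fv v) (DV q v) (algebraMap F (Fv v) x) := by
  apply QuaternionAlgebra.ext
  · rfl
  · exact map_zero (algebraMap F (Fv v))
  · exact map_zero (algebraMap F (Fv v))
  · exact map_zero (algebraMap F (Fv v))

/-- **URR.** The operator `R_v`.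
PROOF. `alpha v 1` is the scalar `π`, so `sg Φ v (alpha v 1) = single v π`, `π` a scalar of `D_v`,
which commutes with everything: `rt (lt t y) (sg ..) = lt (t * single v (loc (u π))) y`, and
`single v (loc (u π))`, `π` in `F` a uniformiser, represents `w * c w` (`w π = exp (-1)` at both
places: unramified). -/
theorem Tor.central (X : Tor q φ K L) (v : {v : Pl F // v ∉ S}) (hv : v.1 ∉ X.T) {w : Pl L}
    (hw : below F w = v.1) (hcw : actP X.c w ≠ w) {I : Ideal (𝓞 L)} (hI : I ≠ ⊥)
    {t t' : (sysD q).A} (ht : X.IsRep I t)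
    (ht' : X.IsRep (I * w.asIdeal * (actP X.c w).asIdeal) t') :
    mkK K (rt (lt t X.y) (sg (chartD φ) v (alpha v.1 1))) = mkK K (lt t' X.y) := by
  classical
  set πL : Lˣ := Units.map (algebraMap F L : F →* L)
    (Units.mk0 (CG2.pi v.1) (CG2.pi_ne v.1)) with hπL
  have hπ : (πL : L) = algebraMap F L (CG2.pi v.1) := rfl
  have hval : dloc q v.1 (X.ι (πL : L)) =
      algebraMap (Fv v.1) (DV q v.1) (algebraMap F (Fv v.1) (CG2.pi v.1)) := by
    rw [hπ, AlgHom.commutes, URR_dloc]
  set s : (sysD q).A := single v.1 ((sysD q).loc v.1 (X.u πL)) with hs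
  have hsg : sg (chartD φ) v (alpha v.1 1) = s := by
    rw [sg_apply, hs]
    congr 1
    rw [MulEquiv.symm_apply_eq]
    apply Units.ext
    change ((alpha v.1 1 : GQ v.1) : Matrix (Fin 2) (Fin 2) (Fv v.1)) =
      φ v (dloc q v.1 (X.ι (πL : L)))
    rw [hval, AlgEquiv.commutes]
    ext i j
    fin_cases i <;> fin_cases j <;>
      simp [alpha, CG2.loc, CG2.dg, Matrix.algebraMap_matrix_apply]
  have hcomm : ∀ a : (sysD q).A, a * s = s * a := by
    intro a
    apply Subtype.ext
    funext r
    simp only [Subgroup.coe_mul, Pi.mul_apply]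
    by_cases hr : r = v.1
    · subst hr
      rw [hs, single_same]
      apply Units.ext
      change (a.1 v.1 : (DV q v.1)ˣ).1 * dloc q v.1 (X.ι (πL : L)) =
        dloc q v.1 (X.ι (πL : L)) * (a.1 v.1 : (DV q v.1)ˣ).1
      rw [hval]
      exact (Algebra.commutes _ _).symm
    · rw [hs, single_ne hr, mul_one, one_mul]
  have hrt : rt (lt t X.y) s = lt (t * s) X.y := by
    refine Prod.ext rfl ?_
    change t * X.y.2 * s = t * s * X.y.2
    rw [mul_assoc, hcomm, mul_assoc]
  rw [hsg, hrt]
  apply X.rep_unique (I := I * w.asIdeal * (actP X.c w).asIdeal) _ ht'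
  have hwne : w.asIdeal ≠ ⊥ := w.ne_bot
  have hcne : (actP X.c w).asIdeal ≠ ⊥ := (actP X.c w).ne_bot
  have hIw : I * w.asIdeal ≠ ⊥ := mul_ne_zero hI hwne
  have hcw' : below F (actP X.c w) = v.1 := by rw [CG2.GalFinAux.below_actP, hw]
  have hexpo : ∀ r : Pl L, expo r (I * w.asIdeal * (actP X.c w).asIdeal) =
      expo r I + expo r w.asIdeal + expo r (actP X.c w).asIdeal := by
    intro r
    rw [CG2.GalL_expo_mul r hIw hcne, CG2.GalL_expo_mul r hI hwne]
  refine ⟨?_, ?_⟩
  · intro r hr
    have hrv : r ≠ v.1 := fun h => hv (h ▸ hr)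
    rw [Subgroup.coe_mul, Pi.mul_apply, ht.1 r hr, hs, single_ne hrv, mul_one]
  · intro r hr
    obtain ⟨x, hx, hx'⟩ := ht.2 r hr
    by_cases hrv : r = v.1
    · subst hrv
      refine ⟨x * πL, ?_, ?_⟩
      · rw [Subgroup.coe_mul, Pi.mul_apply, hx, hs, single_same, X.u_mul, map_mul]
      · intro w' hw'
        rw [Units.val_mul, map_mul, hx' w' hw', hexpo, hπ]
        have hu : w'.valuation L (algebraMap F L (CG2.pi v.1)) = WithZero.exp (-1 : ℤ) := by
          rw [← CG2.pi_spec v.1]
          rcases URR_places X.deg X.c_ne hw hw' with h | h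
          · rw [h]
            exact URR_unram X.deg hw hcw' hcw _
          · rw [h]
            exact URR_unram X.deg hcw' hw hcw.symm _
        have he : expo w' w.asIdeal + expo w' (actP X.c w).asIdeal = 1 := by
          rcases URR_places X.deg X.c_ne hw hw' with h | h
          · rw [h, CG2.GalL_expo_self, CG2.GalL_expo_other hcw.symm]
          · rw [h, CG2.GalL_expo_self, CG2.GalL_expo_other hcw]
        rw [hu, ← WithZero.exp_add]
        congr 1
        have he' : (expo w' w.asIdeal : ℤ) + (expo w' (actP X.c w).asIdeal : ℤ) = 1 := by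
          exact_mod_cast he
        push_cast
        linarith
    · refine ⟨x, ?_, ?_⟩
      · rw [Subgroup.coe_mul, Pi.mul_apply, hx, hs, single_ne hrv, mul_one]
      · intro w' hw'
        rw [hx' w' hw', hexpo]
        have h1 : w' ≠ w := by
          rintro rfl
          exact hrv (hw'.symm.trans hw)
        have h2 : w' ≠ actP X.c w := by
          rintro rfl
          exact hrv (hw'.symm.trans hcw')
        rw [CG2.GalL_expo_other h1, CG2.GalL_expo_other h2, add_zero, add_zero]

end Pool.Agent.CGQ
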