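import Pool.Agent.CGQ.URT
import Pool.Agent.CGQ.URK
import Pool.Agent.CGQ.URR
import Pool.Agent.CGQ.UChar

/-!
# The unit trick: the unit trick
-/

noncomputable section

namespace Pool.Agent.CGQ

open NumberField IsDedekindDomain Matrix
open Pool.Agent.CG2 (Pl Fv Ov GQ GZ cosets alpha expo InRay IsRay TotPos HRd)
open Pool.Agent.CG2.GalFinAux (below actP)

variable {F : Type} [Field F] [NumberField F] {L : Type} [Field L] [NumberField L] [Algebra F L]
variable {q : Qd F} {S : Set (Pl F)} {φ : Spl q S} {K : Subgroup (sysD q).A}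

/-- The point of a product of a representative and of an element of `L`. -/
private theorem UMA_lt_act (X : Tor q φ K L) {I : Ideal (𝓞 L)} {t : (sysD q).A}
    (ht : X.IsRep I t) (x : Lˣ) : lt t (act (X.u x) X.y) = act (X.u x) (lt t X.y) := by
  refine Prod.ext rfl ?_
  change t * (diag (X.u x) * X.y.2) = diag (X.u x) * (t * X.y.2)
  rw [← mul_assoc, ← mul_assoc, X.rep_comm ht]

private theorem UMA_lt_congr {t : (sysD q).A} {y y' : (sysD q).Pt} (h : mkK K y = mkK K y') :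
    mkK K (lt t y) = mkK K (lt t y') := by
  obtain ⟨k, hk, rfl⟩ := mkK_eq.1 h
  rw [lt_rt, mkK_rt _ hk]

/-- **UMA. The unit trick.**
PROOF. Put `a I = E.h (lt t X.y) 1` for a representative `t` of `I` (`exists_rep`; `0` for
`I = ⊥`), well defined by `rep_unique`, `EigFam.congr`. Let `m₁` be the ideal of `principal`,
`m₀ = m₁ * ∏ w` over the finitely many `w` above `X.T`. `a ⊤ = E.h X.y 1 ≠ 0` (`rep_top`). For `I`
prime to `m₀` and `J = (e)` in the ray (`CG2.InRay`): `t`, `t'` representatives of `I`, `J`, then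
`t * t'` represents `I * J`, `lt (t * t') y = lt t (lt t' y) = lt t (act (u e) y κ) =
act (u e) (lt t y) κ` (`rep_comm`), so `a (I * J) = η (u e) a I = a I` by `E.h_act` (`u e` commutes
with `X.uu u`) and `hηP`. Apply `exists_ray_char`; `two_terms`, `central` + `E.h_r` (`X.uu u` is in the
stabiliser of `lt t y` by `stab_rep`) give the relations; places `w` above good `v` do not contain
`m₀` may fail for finitely many `w`, so enlarge the exceptional set: `T'` = the places `v` such that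
`m₀ ≤ w` for some `w` above `v`, together with `X.T`. -/
theorem unit_trick (X : Tor q φ K L) {κ : Type} [Field κ] [IsAlgClosed κ] {p : ℕ}
    [hp : Fact p.Prime] [CharP κ p] {η : (sysD q).G →* ℤˣ} {lam r : {v : Pl F // v ∉ S} → κ}
    (u e : (𝓞 L)ˣ) (E : EigFam K (chartD φ) κ η (X.uu u) lam r) (h0 : E.h X.y 1 ≠ 0)
    (hu : X.uu u ∈ Stab K X.y) (he : X.uu e ∈ Stab K X.y)
    (hηu : η (X.uu u) = 1) (hηe : η (X.uu e) = 1)
    (hηP : ∀ (e : 𝓞 L) (he : e ≠ 0), TotPos e →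
      η (X.u (Units.mk0 (e : L) (by simpa using he))) = 1) :
    ∃ (T' : Set (Pl F)) (χ : Pl L → κ), T'.Finite ∧ X.T ⊆ T' ∧
      IsRay {w : Pl L | below F w ∈ X.T} χ ∧
      ∀ (v : {v : Pl F // v ∉ S}) (w : Pl L), v.1 ∉ T' → below F w = v.1 → actP X.c w ≠ w →
      ∀ M : ℕ, PPow w (p ^ M) (ratio X.c u) → ¬ PPow w (p ^ M) (ratio X.c e) →
        lam v = χ w + χ (actP X.c w) ∧ r v = χ w * χ (actP X.c w) := by
  classical
  obtain ⟨m₁, hm₁, hprin⟩ := X.principal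
  -- the value at an ideal
  let a : Ideal (𝓞 L) → κ := fun I =>
    if h : I ≠ ⊥ then E.h (lt (X.exists_rep h).choose X.y) 1 else 0
  have ha : ∀ (I : Ideal (𝓞 L)) (t : (sysD q).A), I ≠ ⊥ → X.IsRep I t →
      a I = E.h (lt t X.y) 1 := by
    intro I t hI ht
    have h1 : a I = E.h (lt (X.exists_rep hI).choose X.y) 1 := dif_pos hI
    rw [h1]
    exact E.congr (X.rep_unique (X.exists_rep hI).choose_spec ht) 1
  -- the modulus
  let P : Ideal (𝓞 L) := ∏ v ∈ X.T_fin.toFinset, v.asIdeal.map (algebraMap (𝓞 F) (𝓞 L))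
  have hinj : Function.Injective (algebraMap (𝓞 F) (𝓞 L)) :=
    FaithfulSMul.algebraMap_injective _ _
  have hP0 : P ≠ ⊥ := by
    rw [← Ideal.zero_eq_bot]
    refine Finset.prod_ne_zero_iff.2 fun v _ => ?_
    rw [Ideal.zero_eq_bot, Ne, Ideal.map_eq_bot_iff_of_injective hinj]
    exact v.ne_bot
  let m₀ : Ideal (𝓞 L) := m₁ * P
  have hm₀ : m₀ ≠ ⊥ := by
    rw [← Ideal.zero_eq_bot] at hm₁ hP0 ⊢
    exact mul_ne_zero hm₁ hP0
  have hle1 : m₀ ≤ m₁ := Ideal.mul_le_left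
  have hle2 : m₀ ≤ P := Ideal.mul_le_right
  clear_value m₀
  have hPw : ∀ w : Pl L, below F w ∈ X.T → m₀ ≤ w.asIdeal := by
    intro w hw
    have h1 : P ≤ (below F w).asIdeal.map (algebraMap (𝓞 F) (𝓞 L)) := by
      refine Ideal.le_of_dvd (Finset.dvd_prod_of_mem
        (fun v : Pl F => v.asIdeal.map (algebraMap (𝓞 F) (𝓞 L))) ?_)
      rw [Set.Finite.mem_toFinset]
      exact hw
    refine hle2.trans (h1.trans ?_)
    rw [Ideal.map_le_iff_le_comap]
    exact le_rfl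
  have hstab : ∀ {I : Ideal (𝓞 L)} {t : (sysD q).A}, X.IsRep I t →
      X.uu u ∈ Stab K (lt t X.y) := fun ht => X.stab_rep ht _ hu
  -- the hypotheses of the character theorem
  have htop : ∃ I : Ideal (𝓞 L), I ≠ ⊥ ∧ IsCoprime I m₀ ∧ a I ≠ 0 := by
    refine ⟨⊤, top_ne_bot, ?_, ?_⟩
    · rw [← Ideal.one_eq_top]
      exact isCoprime_one_left
    · rw [ha ⊤ 1 top_ne_bot X.rep_top, lt_one]
      exact h0
  have hray : ∀ I J : Ideal (𝓞 L), I ≠ ⊥ → IsCoprime I m₀ → InRay m₀ J → a (I * J) = a I := by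
    rintro I _ hI - ⟨x, hx0, hx1, hx2, rfl⟩
    have hJ : Ideal.span {x} ≠ (⊥ : Ideal (𝓞 L)) := by
      rw [Ne, Ideal.span_singleton_eq_bot]
      exact hx0
    obtain ⟨t, ht⟩ := X.exists_rep hI
    obtain ⟨t', ht'⟩ := X.exists_rep hJ
    have hIJ : I * Ideal.span {x} ≠ ⊥ := by
      rw [← Ideal.zero_eq_bot] at hI hJ ⊢
      exact mul_ne_zero hI hJ
    rw [ha _ _ hIJ (X.rep_mul hI hJ ht ht'), ha _ _ hI ht, lt_mul]
    have h1 := hprin x hx0 (hle1 hx1) hx2 t' ht'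
    rw [E.congr (UMA_lt_congr (t := t) h1) 1, UMA_lt_act X ht, E.h_act _ _ 1 (X.u_comm _ _),
      hηP x hx0 hx2]
    simp
  obtain ⟨χ, hχ0, hχ1, hχ2, hχ3⟩ := exists_ray_char m₀ hm₀ a htop hray
  have hfin : {w : Pl L | m₀ ≤ w.asIdeal}.Finite := by
    refine (Ideal.finite_factors (I := m₀) (by rw [Ideal.zero_eq_bot]; exact hm₀)).subset ?_
    intro w hw
    exact Ideal.dvd_iff_le.2 hw
  refine ⟨X.T ∪ (below F) '' {w : Pl L | m₀ ≤ w.asIdeal}, χ, X.T_fin.union (hfin.image _),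
    Set.subset_union_left, ⟨hχ0, m₀, hm₀, fun w hw => hPw w hw, fun b hb0 hb1 hb2 =>
      hχ1 _ ⟨b, hb0, hb1, hb2, rfl⟩⟩, ?_⟩
  intro v w hv hw hcw M hPu hPe
  have hvT : v.1 ∉ X.T := fun h => hv (Or.inl h)
  have hnw : ∀ w' : Pl L, below F w' = v.1 → ¬ m₀ ≤ w'.asIdeal := by
    intro w' h1 h2
    exact hv (Or.inr ⟨w', h2, h1⟩)
  have hbc : below F (actP X.c w) = v.1 := by
    rw [Pool.Agent.CG2.GalFinAux.below_actP, hw]
  have hmul : ∀ (I : Ideal (𝓞 L)) (w' : Pl L), I ≠ ⊥ → I * w'.asIdeal ≠ ⊥ := by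
    intro I w' hI
    have h1 := w'.ne_bot
    rw [← Ideal.zero_eq_bot] at hI h1 ⊢
    exact mul_ne_zero hI h1
  constructor
  · refine (hχ2 w (actP X.c w) (lam v) (hnw w hw) (hnw _ hbc) fun I hI _ => ?_).symm
    obtain ⟨t, ht⟩ := X.exists_rep hI
    obtain ⟨t1, ht1⟩ := X.exists_rep (hmul I w hI)
    obtain ⟨t2, ht2⟩ := X.exists_rep (hmul I (actP X.c w) hI)
    rw [ha _ _ hI ht, ha _ _ (hmul I w hI) ht1, ha _ _ (hmul I (actP X.c w) hI) ht2]
    exact X.two_terms v hvT hw hcw u e E hu he hηu hηe M hPu hPe hI ht ht1 ht2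
  · refine (hχ3 w (actP X.c w) (r v) (hnw w hw) (hnw _ hbc) fun I hI _ => ?_).symm
    obtain ⟨t, ht⟩ := X.exists_rep hI
    obtain ⟨t1, ht1⟩ := X.exists_rep (hmul _ (actP X.c w) (hmul I w hI))
    rw [ha _ _ hI ht, ha _ _ (hmul _ (actP X.c w) (hmul I w hI)) ht1,
      ← E.congr (X.central v hvT hw hcw hI ht ht1) 1]
    exact E.h_r v _ (hstab ht)

end Pool.Agent.CGQ
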