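import Pool.Agent.CGQ.UDefs

/-!
# The unit trick: existence of the auxiliary data
-/

noncomputable section

namespace Pool.Agent.CGQ

open NumberField IsDedekindDomain Matrix
open Pool.Agent.CG2 (Pl Fv Ov GQ GZ)
open Pool.Agent.CG2.GalFinAux (below actP)

variable {F : Type} [Field F] [NumberField F] {L : Type} [Field L] [NumberField L] [Algebra F L]
variable {q : Qd F} {S : Set (Pl F)} {φ : Spl q S} {K : Subgroup (sysD q).A}

omit [NumberField F] in
private theorem utx_tau (c : Gal(L/F)) (hc : c ≠ 1) : ∃ τ : 𝓞 L, c • τ ≠ τ := by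
  by_contra h
  push Not at h
  apply hc
  apply AlgEquiv.ext
  intro x
  obtain ⟨a, b, -, rfl⟩ := IsFractionRing.div_surjective (A := 𝓞 L) x
  have ha : c (algebraMap (𝓞 L) L a) = algebraMap (𝓞 L) L a :=
    congrArg (algebraMap (𝓞 L) L) (h a)
  have hb : c (algebraMap (𝓞 L) L b) = algebraMap (𝓞 L) L b :=
    congrArg (algebraMap (𝓞 L) L) (h b)
  rw [map_div₀, ha, hb]
  rfl

private theorem utx_fin {x : 𝓞 L} (hx : x ≠ 0) : {w : Pl L | x ∈ w.asIdeal}.Finite := by
  have h0 : Ideal.span {x} ≠ (0 : Ideal (𝓞 L)) := by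
    rw [Ne, Ideal.zero_eq_bot, Ideal.span_singleton_eq_bot]
    exact hx
  refine (Ideal.finite_factors h0).subset ?_
  intro w hw
  exact Ideal.dvd_span_singleton.2 hw

/-- **UTX.** Existence of the auxiliary data.
PROOF. `U` from `hK.op` (for `sysD q`: `(sysD q).L v = (DV q v)ˣ`, `(sysD q).B = BZ q`). `τ` an element of
`𝓞 L` with `c τ ≠ τ` (some element of `L` is moved by `c`, multiply by a nonzero integer); `τ ≠ 0`. `T` is
the union of `S`, the finite set where not `BZ q v ≤ U v`, the set of the places below the finitely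
many primes which contain `τ - c τ ≠ 0`, the finite set of the `v` where `y.2.1 v ∉ BZ q v`, and the
finite set of the `v` where the localisation of the unit `ι τ` of `DF q` is not in `BZ q v`
(`(sysD q).fin`). For `v` outside `T` the element `g⁻¹ ι(τ) g`, `g = y.2.1 v`, is in `BZ q v`, so its
image under `φ v` is in `GZ v` by `hstd` (`Std (chartD φ)`), and elements of `GZ v` have entries of
valuation `≤ 1`. -/
theorem exists_tor (hS : S.Finite) (hK : OC K) (hΦ : HypOff K (chartD φ))
    (hstd : Std (chartD φ)) (ι : L →ₐ[F] DF q) (hdeg : Module.finrank F L = 2) (c : Gal(L/F))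
    (hc : c ≠ 1) (y : (sysD q).Pt) :
    ∃ X : Tor q φ K L, X.ι = ι ∧ X.c = c ∧ X.y = y := by
  obtain ⟨U, hU1, hU2, hU3⟩ := hK.op
  obtain ⟨τ, hτ⟩ := utx_tau c hc
  have hτ0 : (τ : L) ≠ 0 := by
    intro h
    apply hτ
    have h1 : τ = 0 := RingOfIntegers.ext h
    rw [h1, smul_zero]
  have hd : τ - c • τ ≠ 0 := fun h => hτ (sub_eq_zero.1 h).symm
  let γ : (sysD q).G := (Units.map (ι : L →* DF q) : Lˣ →* (DF q)ˣ) (Units.mk0 (τ : L) hτ0)
  let T : Set (Pl F) := S ∪ ({v | ¬ (sysD q).B v ≤ U v} ∪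
    ((fun w : Pl L => below F w) '' {w | τ - c • τ ∈ w.asIdeal} ∪
      ({v | y.2.1 v ∉ (sysD q).B v} ∪ {v | (sysD q).loc v γ ∉ (sysD q).B v})))
  have hT : T.Finite := hS.union (hU2.union (((utx_fin hd).image _).union
    (y.2.2.union ((sysD q).fin γ))))
  refine ⟨{ ι := ι
            deg := hdeg
            c := c
            c_ne := hc
            y := y
            U := U
            U_open := hU1
            U_le := hU3
            T := T
            T_fin := hT
            S_le := Set.subset_union_left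
            U_good := ?_
            hyp := hΦ
            std := hstd
            τ := τ
            τ_disc := ?_
            τ_int := ?_ }, rfl, rfl, rfl⟩
  · intro v hv
    by_contra h
    exact hv (Or.inr (Or.inl h))
  · intro w hw h
    exact hw (Or.inr (Or.inr (Or.inl ⟨w, h, rfl⟩)))
  · intro v hv i j
    have h1 : y.2.1 v.1 ∈ (sysD q).B v.1 := by
      by_contra h
      exact hv (Or.inr (Or.inr (Or.inr (Or.inl h))))
    have h2 : (sysD q).loc v.1 γ ∈ (sysD q).B v.1 := by
      by_contra h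
      exact hv (Or.inr (Or.inr (Or.inr (Or.inr h))))
    have h3 : (y.2.1 v.1)⁻¹ * (sysD q).loc v.1 γ * y.2.1 v.1 ∈ (sysD q).B v.1 :=
      ((sysD q).B v.1).mul_mem (((sysD q).B v.1).mul_mem (((sysD q).B v.1).inv_mem h1) h2) h1
    have h4 := (hstd v _).2 h3
    exact ((Pool.Agent.CG2.mem_GZ_iff v.1 _).1 h4).1 i j

end Pool.Agent.CGQ
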