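import Pool.Agent.CGQ.SDefs
import Pool.Agent.CGQ.EDefs
import Pool.Agent.CGQ.UMA
import Pool.Agent.CGQ.UTX

/-!
# Assembly: from an eigenfamily to the Galois representation
-/

noncomputable section

namespace Pool.Agent.CGQ

open NumberField IsDedekindDomain Matrix
open Pool.Agent.CG2 (Pl Fv Ov GQ GZ GalF Fbar Zbar Over IsInertia IsFrob NonEisenstein Nm IsRay
  TotPos expo)
open Pool.Agent.CG2.GalFinAux (below actP)

variable {F : Type} [Field F] [NumberField F]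

/-- The representation `ρ` has the traces `lam` and the determinants `N(v) r` at the Frobenius
elements (`e` a sign). -/
def FrobEq {S : Set (Pl F)} {k : Type} [Field k] (lam r : {v : Pl F // v ∉ S} → k) (e : ℤˣ)
    (ρ : GalF F →* GL (Fin 2) k) : Prop :=
  ∀ (v : {v : Pl F // v ∉ S}) (Q : Ideal (Zbar F)), Over v.1 Q → ∀ σ : GalF F, IsFrob v.1 Q σ →
    (ρ (σ ^ (e : ℤ)) : Matrix (Fin 2) (Fin 2) k).trace = lam v ∧
    (ρ (σ ^ (e : ℤ)) : Matrix (Fin 2) (Fin 2) k).det = ((Nm v.1 : ℕ) : k) * r v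

/-- **AGA1.** Removing the twist.
PROOF. `ρ' g = (ω (g ^ e))⁻¹ • ρ g` (`e * e = 1`, so `ρ' (σ ^ e) = (ω σ)⁻¹ • ρ (σ ^ e)`): a homomorphism since
scalar matrices are central and `g ↦ ω (g ^ e)` is a homomorphism to a commutative group (`e = ± 1`).
Its kernel contains `ker ρ ⊓ ker ω` (open). Stable subspaces of `ρ'` and `ρ` are the same.
Characteristic polynomial of a `2 × 2` matrix: `X² - trace X + det` (`Matrix.charpoly_fin_two`), compare
coefficients. -/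
theorem exists_twist {S : Set (Pl F)} {O : Type} [CommRing O] {m : Ideal (HeckeAlg S O)} {k : Type}
    [Field k] [Algebra (HeckeAlg S O ⧸ m) k] {ρ : GalF F →* GL (Fin 2) k}
    (hA : AttachedQ m k ρ) :
    ∃ (e : ℤˣ) (ρ' : GalF F →* GL (Fin 2) k), IsOpen (ρ'.ker : Set (GalF F)) ∧
      (NonEisenstein ρ → NonEisenstein ρ') ∧
      FrobEq (fun v => eig m k (v, 0)) (fun v => eig m k (v, 1)) e ρ' := by
  obtain ⟨hopen, e, ω, hω, h⟩ := hA
  -- the scalar matrices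
  let sc : kˣ →* GL (Fin 2) k := Units.map (algebraMap k (Matrix (Fin 2) (Fin 2) k) : k →* _)
  have hsc : ∀ (a : kˣ) (M : GL (Fin 2) k), sc a * M = M * sc a := by
    intro a M
    apply Units.ext
    exact Algebra.commutes (a : k) (M : Matrix (Fin 2) (Fin 2) k)
  have hscv : ∀ a : kˣ, ((sc a : GL (Fin 2) k) : Matrix (Fin 2) (Fin 2) k) =
      algebraMap k (Matrix (Fin 2) (Fin 2) k) (a : k) := fun a => rfl
  let ψ : GalF F →* kˣ := (zpowGroupHom (e : ℤ)).comp ω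
  have hψ : ∀ g, ψ g = (ω g) ^ (e : ℤ) := fun g => rfl
  let ρ' : GalF F →* GL (Fin 2) k :=
    { toFun := fun g => sc (ψ g)⁻¹ * ρ g
      map_one' := by simp
      map_mul' := by
        intro g g'
        rw [map_mul ψ, map_mul ρ, mul_inv, map_mul sc]
        have h1 := hsc (ψ g')⁻¹ (ρ g)
        calc sc (ψ g)⁻¹ * sc (ψ g')⁻¹ * (ρ g * ρ g')
            = sc (ψ g)⁻¹ * (sc (ψ g')⁻¹ * ρ g) * ρ g' := by simp only [mul_assoc]
          _ = sc (ψ g)⁻¹ * (ρ g * sc (ψ g')⁻¹) * ρ g' := by rw [h1]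
          _ = _ := by simp only [mul_assoc] }
  have hρ' : ∀ g, ρ' g = sc (ψ g)⁻¹ * ρ g := fun g => rfl
  have hρm : ∀ g, (ρ' g : Matrix (Fin 2) (Fin 2) k) =
      (((ψ g)⁻¹ : kˣ) : k) • (ρ g : Matrix (Fin 2) (Fin 2) k) := by
    intro g
    rw [hρ', Units.val_mul, hscv, Algebra.smul_def]
  refine ⟨e, ρ', ?_, ?_, ?_⟩
  · have h1 : ρ.ker ⊓ ω.ker ≤ ρ'.ker := by
      intro g hg
      have hg1 : ρ g = 1 := (Subgroup.mem_inf.1 hg).1
      have hg2 : ω g = 1 := (Subgroup.mem_inf.1 hg).2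
      rw [MonoidHom.mem_ker, hρ', hψ, hg1, hg2]
      simp
    refine Subgroup.isOpen_mono h1 ?_
    exact hopen.inter hω
  · intro hne k' _ _ hfin V hV
    refine hne k' hfin V fun g v hv => ?_
    have h1 := hV g v hv
    have h2 : ((ρ' g : Matrix (Fin 2) (Fin 2) k).map (algebraMap k k')).mulVec v =
        algebraMap k k' (((ψ g)⁻¹ : kˣ) : k) •
          ((ρ g : Matrix (Fin 2) (Fin 2) k).map (algebraMap k k')).mulVec v := by
      rw [hρm, ← Matrix.smul_mulVec]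
      congr 1
      ext i j
      simp [Matrix.map_apply, Matrix.smul_apply]
    rw [h2] at h1
    have h3 := V.smul_mem (algebraMap k k' ((ψ g : kˣ) : k)) h1
    rw [smul_smul, ← map_mul, Units.mul_inv, map_one, one_smul] at h3
    exact h3
  · intro v Q hQ σ hσ
    have hee : (e : ℤ) * (e : ℤ) = 1 := by
      rcases Int.units_eq_one_or e with h1 | h1 <;> rw [h1] <;> simp
    have h1 : ψ (σ ^ (e : ℤ)) = ω σ := by
      rw [hψ, map_zpow, ← _root_.zpow_mul, hee, zpow_one]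
    have h2 := (h v.1 v.2 Q hQ).2 σ hσ
    rw [Matrix.charpoly_fin_two] at h2
    set A : Matrix (Fin 2) (Fin 2) k := (ρ (σ ^ (e : ℤ)) : Matrix (Fin 2) (Fin 2) k) with hA
    have h3 : A.trace = (ω σ : k) * eig m k (v, 0) := by
      have h4 := congrArg (fun P => Polynomial.coeff P 1) h2
      simp only [Polynomial.coeff_add, Polynomial.coeff_sub, Polynomial.coeff_X_pow,
        Polynomial.coeff_C_mul, Polynomial.coeff_X_one, Polynomial.coeff_C_succ] at h4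
      simp at h4
      exact h4
    have h5 : A.det = (ω σ : k) ^ 2 * ((Nm v.1 : ℕ) : k) * eig m k (v, 1) := by
      have h4 := congrArg (fun P => Polynomial.coeff P 0) h2
      simp only [Polynomial.coeff_add, Polynomial.coeff_sub, Polynomial.coeff_X_pow,
        Polynomial.coeff_C_mul, Polynomial.coeff_X_zero, Polynomial.coeff_C_zero] at h4
      simp at h4
      exact h4
    have hωσ : (((ω σ)⁻¹ : kˣ) : k) * (ω σ : k) = 1 := Units.inv_mul _
    rw [hρm, h1]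
    constructor
    · rw [Matrix.trace_smul, ← hA, h3, smul_eq_mul, ← mul_assoc, hωσ, one_mul]
    · rw [Matrix.det_smul, ← hA, h5, Fintype.card_fin]
      calc (((ω σ)⁻¹ : kˣ) : k) ^ 2 * ((ω σ : k) ^ 2 * ((Nm v.1 : ℕ) : k) * eig m k (v, 1))
          = ((((ω σ)⁻¹ : kˣ) : k) * (ω σ : k)) ^ 2 * (((Nm v.1 : ℕ) : k) * eig m k (v, 1)) := by ring
        _ = _ := by rw [hωσ, one_pow, one_mul]

/-- **AGA2.** The inverse of a ray class character. PROOF. `finprod_inv_distrib`, `inv_pow`. (See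
GalMain.lean, `hχ'`.) -/
theorem isRay_inv {κ : Type} [Field κ] {S : Set (Pl F)} {χ : Pl F → κ} (h : IsRay S χ) :
    IsRay S (fun w => (χ w)⁻¹) := by
  obtain ⟨h0, m₀, hm, hS, hr⟩ := h
  refine ⟨fun v => inv_ne_zero (h0 v), m₀, hm, hS, fun a ha ha1 hp => ?_⟩
  have h1 := hr a ha ha1 hp
  have h2 : ∏ᶠ v : Pl F, (χ v)⁻¹ ^ expo v (Ideal.span {a}) =
      (∏ᶠ v : Pl F, χ v ^ expo v (Ideal.span {a}))⁻¹ := by
    rw [← finprod_inv_distrib]
    exact finprod_congr fun v => inv_pow _ _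
  rw [h2, h1, inv_one]

variable {L : Type} [Field L] [NumberField L] [Algebra F L]

/-- The unit `u / c u`. -/
def ratioU (c : Gal(L/F)) (u : (𝓞 L)ˣ) : (𝓞 L)ˣ where
  val := ratio c u
  inv := c • (u : 𝓞 L) * ((u⁻¹ : (𝓞 L)ˣ) : 𝓞 L)
  val_inv := by
    have h1 : (c • (((u⁻¹ : (𝓞 L)ˣ) : 𝓞 L)) * c • (u : 𝓞 L) : 𝓞 L) = 1 := by
      rw [← smul_mul', Units.inv_mul, smul_one]
    calc _ = ((u : 𝓞 L) * ((u⁻¹ : (𝓞 L)ˣ) : 𝓞 L)) *
        (c • (((u⁻¹ : (𝓞 L)ˣ) : 𝓞 L)) * c • (u : 𝓞 L)) := by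
          rw [ratio]
          ring
      _ = 1 := by rw [h1, Units.mul_inv, mul_one]
  inv_val := by
    have h1 : (c • (((u⁻¹ : (𝓞 L)ˣ) : 𝓞 L)) * c • (u : 𝓞 L) : 𝓞 L) = 1 := by
      rw [← smul_mul', Units.inv_mul, smul_one]
    calc _ = ((u : 𝓞 L) * ((u⁻¹ : (𝓞 L)ˣ) : 𝓞 L)) *
        (c • (((u⁻¹ : (𝓞 L)ˣ) : 𝓞 L)) * c • (u : 𝓞 L)) := by
          rw [ratio]
          ring
      _ = 1 := by rw [h1, Units.mul_inv, mul_one]

private theorem AGA3_val (c : Gal(L/F)) (u : (𝓞 L)ˣ) :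
    (((ratioU c u : (𝓞 L)ˣ) : 𝓞 L) : L) = ((u : 𝓞 L) : L) / c ((u : 𝓞 L) : L) := by
  have h1 : (((u⁻¹ : (𝓞 L)ˣ) : 𝓞 L) : L) = (((u : 𝓞 L) : L))⁻¹ := by
    apply eq_inv_of_mul_eq_one_left
    have h2 : ((u⁻¹ : (𝓞 L)ˣ) : 𝓞 L) * (u : 𝓞 L) = 1 := Units.inv_mul u
    have h3 := congrArg (algebraMap (𝓞 L) L) h2
    rw [map_mul, map_one] at h3
    exact h3
  have h2 : (((ratioU c u : (𝓞 L)ˣ) : 𝓞 L) : L) =
      ((u : 𝓞 L) : L) * c (((u⁻¹ : (𝓞 L)ˣ) : 𝓞 L) : L) :=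
    map_mul (algebraMap (𝓞 L) L) (u : 𝓞 L) (c • (((u⁻¹ : (𝓞 L)ˣ) : 𝓞 L)))
  rw [h2, h1, map_inv₀, div_eq_mul_inv]

private theorem AGA3_card (hL : Module.finrank F L = 2) : Nat.card Gal(L/F) = 2 := by
  have h : Algebra.IsQuadraticExtension F L := { finrank_eq_two' := hL }
  have hG : IsGalois F L := inferInstance
  rw [IsGalois.card_aut_eq_finrank, hL]

/-- **AGA3.** PROOF. `c (c x) = x` since `L` has degree two over `F` (see `urs_sq` in URS.lean). -/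
theorem ratioU_conj (hL : Module.finrank F L = 2) (c : Gal(L/F)) (u : (𝓞 L)ˣ) :
    c (((ratioU c u : (𝓞 L)ˣ) : 𝓞 L) : L) * (((ratioU c u : (𝓞 L)ˣ) : 𝓞 L) : L) = 1 := by
  have hu0 : ((u : 𝓞 L) : L) ≠ 0 := by
    intro h
    exact u.ne_zero (RingOfIntegers.coe_eq_zero_iff.1 h)
  have hcu : c ((u : 𝓞 L) : L) ≠ 0 := fun h => hu0 ((map_eq_zero c).1 h)
  have hcc : c (c ((u : 𝓞 L) : L)) = ((u : 𝓞 L) : L) := by
    have h2 : c ^ Nat.card Gal(L/F) = 1 := pow_card_eq_one'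
    rw [AGA3_card hL, pow_two] at h2
    have h3 : (c * c) ((u : 𝓞 L) : L) = ((u : 𝓞 L) : L) := by rw [h2]; rfl
    exact h3
  rw [AGA3_val, map_div₀, hcc]
  field_simp

/-- **AGA4.** PROOF. The value of `ratioU c u` in `L` is `u / c u`. -/
theorem ratioU_indep (c : Gal(L/F)) (u e : (𝓞 L)ˣ)
    (h : ∀ a b : ℤ, (((e : 𝓞 L) : L) / c ((e : 𝓞 L) : L)) ^ a =
      (((u : 𝓞 L) : L) / c ((u : 𝓞 L) : L)) ^ b → a = 0) (a b : ℤ)
    (hab : ratioU c e ^ a = ratioU c u ^ b) : a = 0 := by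
  apply h a b
  rw [← AGA3_val, ← AGA3_val]
  have h1 := congrArg (Units.map (algebraMap (𝓞 L) L : 𝓞 L →* L)) hab
  rw [map_zpow, map_zpow] at h1
  have h2 := congrArg Units.val h1
  rw [Units.val_zpow_eq_zpow_val, Units.val_zpow_eq_zpow_val] at h2
  exact h2

/-- **AGA5.** PROOF. Finitely many places above each place (`finite_below` or
`Set.Finite.biUnion` with the finiteness of the places dividing `v.asIdeal.map ≠ ⊥`; see UMA.lean or
GalUn.lean). -/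
theorem finite_above {T : Set (Pl F)} (hT : T.Finite) : {w : Pl L | below F w ∈ T}.Finite := by
  have hinj : Function.Injective (algebraMap (𝓞 F) (𝓞 L)) :=
    FaithfulSMul.algebraMap_injective _ _
  have h1 : {w : Pl L | below F w ∈ T} ⊆ ⋃ v ∈ T, {w : Pl L |
      v.asIdeal.map (algebraMap (𝓞 F) (𝓞 L)) ≤ w.asIdeal} := by
    intro w hw
    refine Set.mem_biUnion (x := below F w) hw ?_
    change (below F w).asIdeal.map (algebraMap (𝓞 F) (𝓞 L)) ≤ w.asIdeal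
    rw [Ideal.map_le_iff_le_comap]
    exact le_rfl
  refine (hT.biUnion fun v _ => ?_).subset h1
  have h2 : v.asIdeal.map (algebraMap (𝓞 F) (𝓞 L)) ≠ ⊥ := by
    rw [Ne, Ideal.map_eq_bot_iff_of_injective hinj]
    exact v.ne_bot
  refine (Ideal.finite_factors (I := v.asIdeal.map (algebraMap (𝓞 F) (𝓞 L)))
    (by rw [Ideal.zero_eq_bot]; exact h2)).subset ?_
  intro w hw
  exact Ideal.dvd_iff_le.2 hw

private theorem AGA6_trace {k : Type} [Field k] (ρ : GalF F →* GL (Fin 2) k) (g : GalF F) :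
    (rhobar ρ g : Matrix (Fin 2) (Fin 2) (AlgebraicClosure k)).trace =
      algebraMap k _ ((ρ g : Matrix (Fin 2) (Fin 2) k).trace) := by
  rw [Matrix.trace_fin_two, Matrix.trace_fin_two, map_add]
  rfl

private theorem AGA6_det {k : Type} [Field k] (ρ : GalF F →* GL (Fin 2) k) (g : GalF F) :
    (rhobar ρ g : Matrix (Fin 2) (Fin 2) (AlgebraicClosure k)).det =
      algebraMap k _ ((ρ g : Matrix (Fin 2) (Fin 2) k).det) := by
  rw [Matrix.det_fin_two, Matrix.det_fin_two, map_sub, map_mul, map_mul]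
  rfl

private theorem AGA6_ppow (w : Pl L) (n : ℕ) (x : 𝓞 L) :
    (∃ y : 𝓞 L, x - y ^ n ∈ w.asIdeal) ↔ PPow w n x := by
  unfold PPow
  refine exists_congr fun y => ?_
  rw [← Ideal.neg_mem_iff, neg_sub]

/-- **AGA6.** The hypothesis of the Galois side from the conclusion of the unit trick.
PROOF. Let `w`, `M` be as in `HypE`, `v = below F w ∉ T'`, so `v ∉ S` (`hST`). `M ≠ 0` since otherwise
`y = ratio c e` is excluded. `p ∣ p ^ M ∣ Nm v - 1`, `Nm v ≥ 1`, so `(Nm v : k) = 1`. The relation `hχ` at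
`v`, `w`, `M` (`PPow`: signs: `y ^ n - x ∈ w ↔ x - y ^ n ∈ w`, `Ideal.neg_mem_iff`). Trace and determinant of
`rhobar ρ g` are the images of those of `ρ g` (`Matrix.trace`, `Matrix.det_fin_two`,
`RingHom.map_det`). In the first case of `hlr` the claim is immediate (`χ' = χ`); in the second
`χ' = χ⁻¹`: `(χ w)⁻¹ + (χ cw)⁻¹ = (χ w + χ cw) / (χ w * χ cw) = lam' / r' = lam`. -/
theorem exists_hypE {S : Set (Pl F)} {k : Type} [Field k] {p : ℕ} [hp : Fact p.Prime] [CharP k p]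
    (lam r : {v : Pl F // v ∉ S} → k) (lam' r' : {v : Pl F // v ∉ S} → AlgebraicClosure k)
    (hlr : (∀ v, lam' v = algebraMap k _ (lam v) ∧ r' v = algebraMap k _ (r v)) ∨
      (∀ v, lam' v * algebraMap k _ (r v) = algebraMap k _ (lam v) ∧
        r' v * algebraMap k _ (r v) = 1)) (ε : ℤˣ) (ρ : GalF F →* GL (Fin 2) k)
    (hρ : FrobEq lam r ε ρ) (c : Gal(L/F)) (u e : (𝓞 L)ˣ) {T T' : Set (Pl F)} (hST : S ⊆ T')
    (χ : Pl L → AlgebraicClosure k) (hray : IsRay {w : Pl L | below F w ∈ T} χ)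
    (hχ : ∀ (v : {v : Pl F // v ∉ S}) (w : Pl L), v.1 ∉ T' → below F w = v.1 → actP c w ≠ w →
      ∀ M : ℕ, PPow w (p ^ M) (ratio c u) → ¬ PPow w (p ^ M) (ratio c e) →
        lam' v = χ w + χ (actP c w) ∧ r' v = χ w * χ (actP c w)) :
    ∃ χ' : Pl L → AlgebraicClosure k, IsRay {w : Pl L | below F w ∈ T} χ' ∧
      HypE ε p (rhobar ρ) c (ratioU c u) (ratioU c e) χ' T' := by
  have key : ∀ w : Pl L, below F w ∉ T' → actP c w ≠ w → ∀ M : ℕ, p ^ M ∣ Nm (below F w) - 1 →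
      (∃ y : 𝓞 L, (ratioU c u : 𝓞 L) - y ^ (p ^ M) ∈ w.asIdeal) →
      (¬ ∃ y : 𝓞 L, (ratioU c e : 𝓞 L) - y ^ (p ^ M) ∈ w.asIdeal) →
      ∀ Q : Ideal (Zbar F), Over (below F w) Q → ∀ g : GalF F, IsFrob (below F w) Q g →
      ∃ hv : below F w ∉ S,
        (rhobar ρ (g ^ (ε : ℤ)) : Matrix (Fin 2) (Fin 2) (AlgebraicClosure k)).trace =
          algebraMap k _ (lam ⟨below F w, hv⟩) ∧
        (rhobar ρ (g ^ (ε : ℤ)) : Matrix (Fin 2) (Fin 2) (AlgebraicClosure k)).det =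
          algebraMap k _ (r ⟨below F w, hv⟩) ∧
        lam' ⟨below F w, hv⟩ = χ w + χ (actP c w) ∧
        r' ⟨below F w, hv⟩ = χ w * χ (actP c w) := by
    intro w h1 h2 M h3 h4 h5 Q h6 g h7
    have hv : below F w ∉ S := fun h => h1 (hST h)
    refine ⟨hv, ?_⟩
    obtain ⟨f1, f2⟩ := hρ ⟨below F w, hv⟩ Q h6 g h7
    -- `M ≠ 0`
    have hM : M ≠ 0 := by
      rintro rfl
      apply h5
      refine ⟨(ratioU c e : 𝓞 L), ?_⟩
      rw [pow_zero, pow_one, sub_self]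
      exact Submodule.zero_mem _
    have hN1 : 1 ≤ Nm (below F w) := by
      have : Nm (below F w) ≠ 0 := by
        intro h
        exact (below F w).ne_bot (Ideal.absNorm_eq_zero_iff.1 h)
      omega
    have hN : ((Nm (below F w) : ℕ) : k) = 1 := by
      have h8 : p ∣ Nm (below F w) - 1 := (dvd_pow_self p hM).trans h3
      have h9 : ((Nm (below F w) - 1 : ℕ) : k) = 0 := (CharP.cast_eq_zero_iff k p _).2 h8
      rw [Nat.cast_sub hN1, Nat.cast_one, sub_eq_zero] at h9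
      exact h9
    have h10 := hχ ⟨below F w, hv⟩ w h1 rfl h2 M ((AGA6_ppow w _ _).1 h4)
      (fun h => h5 ((AGA6_ppow w _ _).2 h))
    refine ⟨?_, ?_, h10.1, h10.2⟩
    · rw [AGA6_trace, f1]
    · rw [AGA6_det, f2]
      change algebraMap k _ (((Nm (below F w) : ℕ) : k) * r ⟨below F w, hv⟩) = _
      rw [hN, one_mul]
  rcases hlr with hlr | hlr
  · refine ⟨χ, hray, ?_⟩
    intro w h1 h2 M h3 h4 h5 Q h6 g h7
    obtain ⟨hv, k1, k2, k3, k4⟩ := key w h1 h2 M h3 h4 h5 Q h6 g h7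
    rw [k1, k2, ← k3, ← k4, (hlr _).1, (hlr _).2]
    exact ⟨rfl, rfl⟩
  · refine ⟨fun w => (χ w)⁻¹, isRay_inv hray, ?_⟩
    intro w h1 h2 M h3 h4 h5 Q h6 g h7
    obtain ⟨hv, k1, k2, k3, k4⟩ := key w h1 h2 M h3 h4 h5 Q h6 g h7
    obtain ⟨m1, m2⟩ := hlr ⟨below F w, hv⟩
    have n1 : χ w ≠ 0 := hray.1 w
    have n2 : χ (actP c w) ≠ 0 := hray.1 _
    rw [k3] at m1
    rw [k4] at m2
    rw [k1, k2]
    have m3 : algebraMap k (AlgebraicClosure k) (r ⟨below F w, hv⟩) =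
        (χ w)⁻¹ * (χ (actP c w))⁻¹ := by
      rw [← mul_inv]
      exact eq_inv_of_mul_eq_one_right m2
    refine ⟨?_, m3⟩
    rw [← m1, m3]
    field_simp
    ring

variable {q : Qd F} {S : Set (Pl F)} {φ : Spl q S} {K : Subgroup (sysD q).A}

/-- **AGA7.** From an eigenfamily at the generic unit to the Galois side.
PROOF. `c ≠ 1` in `Gal(L/F)` (the group has order two: `IsGalois` for quadratic extensions, see
`urs_gal` in URS.lean). `exists_tor` for `y`, `c`; `unit_trick` (`X.uu u = uD ι u` by definition);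
`hηP` is `hη` with `nrd_pos` (the definition of `dsgn`; `SPl.emb` is `embedding_of_isReal`);
`exists_hypE`; `galois_final` for `ratioU c u`, `ratioU c e` (`ratioU_conj`, `ratioU_indep`,
`finite_above`). -/
theorem not_ne_of_eig {k : Type} [Field k] {p : ℕ} [hp : Fact p.Prime] [CharP k p]
    (hS : S.Finite) (hK : OC K) (hΦ : HypOff K (chartD φ)) (hstd : Std (chartD φ))
    (lam r : {v : Pl F // v ∉ S} → k) (lam' r' : {v : Pl F // v ∉ S} → AlgebraicClosure k)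
    (hlr : (∀ v, lam' v = algebraMap k _ (lam v) ∧ r' v = algebraMap k _ (r v)) ∨
      (∀ v, lam' v * algebraMap k _ (r v) = algebraMap k _ (lam v) ∧
        r' v * algebraMap k _ (r v) = 1)) (ε : ℤˣ) (ρ : GalF F →* GL (Fin 2) k)
    (hρo : IsOpen (ρ.ker : Set (GalF F))) (hρ : FrobEq lam r ε ρ) {D : Finset F}
    (hD : ∀ (L : Type) [Field L] [Algebra F L], Module.finrank F L = 2 →
        (∀ d ∈ D, ¬ IsSquare (algebraMap F L d)) → ∀ (ι : L →ₐ[F] Fbar F) (M : ℕ),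
        ∃ g : GalF F, ρ g = 1 ∧ (∀ z : Fbar F, z ^ (p ^ M) = 1 → g z = z) ∧
          ∃ x : L, g (ι x) ≠ ι x)
    (hL : Module.finrank F L = 2) (hLD : ∀ d ∈ D, ¬ IsSquare (algebraMap F L d))
    (ι : L →ₐ[F] DF q) (u e : (𝓞 L)ˣ) (y : (sysD q).Pt) (hu : uD ι u ∈ Stab K y)
    (he : uD ι e ∈ Stab K y)
    (hind : ∀ c : Gal(L/F), c ≠ 1 → ∀ a b : ℤ,
        (((e : 𝓞 L) : L) / c ((e : 𝓞 L) : L)) ^ a = (((u : 𝓞 L) : L) / c ((u : 𝓞 L) : L)) ^ b →
          a = 0)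
    (η : (sysD q).G →* ℤˣ) (hηS : ∀ γ ∈ Stab K y, η γ = 1)
    (hη : ∀ γ, (sysD q).sgn γ = 1 → η γ = 1)
    (E : EigFam K (chartD φ) (AlgebraicClosure k) η (uD ι u) lam' r') (h0 : E.h y 1 ≠ 0) :
    ¬ NonEisenstein ρ := by
  have hchar : CharP (AlgebraicClosure k) p :=
    charP_of_injective_algebraMap (algebraMap k (AlgebraicClosure k)).injective p
  obtain ⟨c, hc⟩ : ∃ c : Gal(L/F), c ≠ 1 := by
    obtain ⟨c, hc, -⟩ := (Nat.card_eq_two_iff' (1 : Gal(L/F))).1 (AGA3_card hL)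
    exact ⟨c, hc⟩
  obtain ⟨X, hXι, hXc, hXy⟩ := exists_tor hS hK hΦ hstd ι hL c hc y
  subst hXι hXc hXy
  obtain ⟨T', χ, hT', hTT', hray, hrel⟩ := unit_trick X u e E h0 hu he (hηS _ hu) (hηS _ he)
    (fun x hx hpos => hη _ (by
      funext w
      have h1 := nrd_pos hL X.ι X.c hc hx hpos w.1 w.2.choose
      exact if_pos h1))
  obtain ⟨χ', hray', hH⟩ := exists_hypE lam r lam' r' hlr ε ρ hρ X.c u e
    (X.S_le.trans hTT') χ hray hrel
  exact galois_final hp.out hL hc ρ hρo ε (ratioU X.c u) (ratioU X.c e) (ratioU_conj hL X.c u)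
    (ratioU_conj hL X.c e) (ratioU_indep X.c u e (hind X.c hc)) (finite_above X.T_fin) χ' hray'
    hT' hH hD hLD

end Pool.Agent.CGQ
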