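import Pool.Agent.CGQ.EFin

/-!
# The generic element when there is only one unramified archimedean place
-/

noncomputable section

set_option linter.unusedSectionVars false

namespace Pool.Agent.CGQ

open NumberField IsDedekindDomain
open Pool.Agent.CG2 (Pl Fv Ov)

variable {F : Type} [Field F] [NumberField F] {q : Qd F}

/-- An embedding `F → ℂ` at which `D` is not ramified, from the number of the places. -/
theorem exists_emb1 (hr : 1 ≤ Nat.card (SPl q) + InfinitePlace.nrComplexPlaces F) :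
    ∃ φ : F →+* ℂ, ¬ RamE q φ := by
  classical
  by_cases h : 1 ≤ Nat.card (SPl q)
  · have h1 : Nat.card (SPl q) ≠ 0 := by omega
    obtain ⟨⟨w, hw, hw'⟩⟩ : Nonempty (SPl q) := (Nat.card_ne_zero.1 h1).1
    refine ⟨w.embedding, ?_⟩
    rintro ⟨ψ, e1, e2, e3⟩
    have e4 : ∀ x, InfinitePlace.embedding_of_isReal hw x = ψ x := by
      intro x
      have := (InfinitePlace.embedding_of_isReal_apply hw x).trans (e1 x)
      exact_mod_cast this
    rw [e4, e4] at hw'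
    exact hw' ⟨e2, e3⟩
  · have h1 : Fintype.card {w : InfinitePlace F // w.IsComplex} ≠ 0 := by
      have h2 : InfinitePlace.nrComplexPlaces F = Fintype.card {w : InfinitePlace F // w.IsComplex} :=
        rfl
      omega
    obtain ⟨⟨w, hw⟩⟩ := Fintype.card_pos_iff.1 (Nat.pos_of_ne_zero h1)
    refine ⟨w.embedding, ?_⟩
    rintro ⟨ψ, e1, e2, e3⟩
    apply InfinitePlace.isComplex_iff.1 hw
    rw [ComplexEmbedding.isReal_iff]
    ext x
    rw [ComplexEmbedding.conjugate_coe_eq, e1, Complex.conj_ofReal]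

/-- **ELR.** A generic subfield with a unit of infinite order modulo `F` in the stabiliser. -/
theorem exists_generic0 (hdiv : ∀ x : DF q, x ≠ 0 → IsUnit x)
    (hr : 1 ≤ Nat.card (SPl q) + InfinitePlace.nrComplexPlaces F)
    {K : Subgroup (sysD q).A} (hK : OC K) (y : (sysD q).Pt) (D : Finset F)
    (hD : ∀ d ∈ D, ¬ IsSquare d) :
    ∃ (L : Type) (_ : Field L) (_ : NumberField L) (_ : Algebra F L) (ι : L →ₐ[F] DF q)
      (e : (𝓞 L)ˣ), Module.finrank F L = 2 ∧ (∀ d ∈ D, ¬ IsSquare (algebraMap F L d)) ∧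
      uD ι e ∈ Stab K y ∧
      ∀ c : Gal(L/F), c ≠ 1 → ∀ a : ℤ,
        (((e : 𝓞 L) : L) / c ((e : 𝓞 L) : L)) ^ a = 1 → a = 0 := by
  classical
  have hp2 : Fact (Nat.Prime 2) := ⟨Nat.prime_two⟩
  obtain ⟨φ₁, hφ1⟩ := exists_emb1 hr
  let h : (sysD q).G → ZMod 2 := fun _ => 0
  have hh : ∀ a ∈ Stab K y, ∀ b ∈ Stab K y, h (a * b) = h a + h b :=
    fun _ _ _ _ => (add_zero 0).symm
  obtain ⟨c₁, hc1, hc2, hc3⟩ := exists_noncentral (h := h) (p := 2) hdiv ⟨φ₁, hφ1⟩ hK y hh 1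
    (Stab K y).one_mem
  obtain ⟨c, hc4, hc5, hc6, hc7, hc8⟩ := exists_generic_elt (h := h) (p := 2) hdiv ⟨φ₁, hφ1⟩ hK y
    hh c₁ hc1 hc3 D (fun d hd h0 => hD d hd (by rw [h0]; exact ⟨0, by simp⟩))
  have : Fact (¬ IsSquare (dsc c.1)) := ⟨not_isSquare_dsc hdiv c.1 hc6⟩
  obtain ⟨e, he⟩ := exists_hyp_unit (dsc c.1) (fun φ => φ = φ₁)
    (fun φ hφ => by rw [hφ]; exact hc8 φ₁ hφ1)
  obtain ⟨m, hm, hmem⟩ := exists_pow_mem_stab hK y (embC c.1)
  refine ⟨QE (dsc c.1), inferInstance, inferInstance, inferInstance, embC c.1, e ^ m,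
    QuadraticAlgebra.finrank_eq_two _ _, fun d hd => not_isSquare_transfer (hD d hd) (hc7 d hd),
    ?_, ?_⟩
  · rw [uD_pow]
    exact hmem e
  · intro g hg a hab
    obtain ⟨Ψ, hΨ⟩ := exists_ext (dsc c.1) φ₁
    have h0 := he Ψ hΨ
    rw [gal_eq_star g hg] at hab
    have he0 : ((e : 𝓞 (QE (dsc c.1))) : QE (dsc c.1)) ≠ 0 := fun h => e.ne_zero
      (RingOfIntegers.ext h)
    have hs0 : star ((e : 𝓞 (QE (dsc c.1))) : QE (dsc c.1)) ≠ 0 := by
      intro h
      apply he0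
      have := congrArg star h
      rwa [star_star, star_zero] at this
    rw [coeU_pow, star_pow, ← div_pow, ← zpow_natCast, ← zpow_mul] at hab
    have h1 := congrArg (fun z => ‖Ψ z‖) hab
    simp only [map_zpow₀, map_div₀, norm_zpow, norm_div, map_one, norm_one] at h1
    have h2 : 0 < ‖Ψ ((e : 𝓞 (QE (dsc c.1))) : QE (dsc c.1))‖ :=
      norm_pos_iff.2 ((map_ne_zero Ψ).2 he0)
    have h3 : 0 < ‖Ψ (star ((e : 𝓞 (QE (dsc c.1))) : QE (dsc c.1)))‖ :=
      norm_pos_iff.2 ((map_ne_zero Ψ).2 hs0)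
    by_contra ha
    have h4 := (zpow_eq_one_iff_right₀ (div_pos h2 h3).le
      (fun h => h0 ((div_eq_one_iff_eq h3.ne').1 h))).1 h1
    have h5 : ((m : ℕ) : ℤ) ≠ 0 := by exact_mod_cast hm.ne'
    exact (mul_ne_zero h5 ha) h4

end Pool.Agent.CGQ
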