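import Pool.Agent.CGQ.LDefs

/-!
# From the families to the eigenfamilies of the unit trick
-/

noncomputable section

namespace Pool.Agent.CGQ

open NumberField IsDedekindDomain
open Pool.Agent.CG2 (Pl GQ GZ cosets cosets_finite alpha cosetsInv cosetsInv_finite)

variable {F : Type} [Field F] [NumberField F] {𝒟 : Sys F} {S : Set (Pl F)} {Φ : Chart 𝒟 S}
variable {K : Subgroup 𝒟.A} {κ : Type} [Field κ] {η : 𝒟.G →* ℤˣ}
  {lam r : {v : Pl F // v ∉ S} → κ}

private theorem LEA_locZ_one (Φ : Chart 𝒟 S) (v : {v : Pl F // v ∉ S}) (y : 𝒟.Pt) :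
    locZ Φ v y 1 = 1 := by
  rw [locZ, map_one, mul_one, inv_mul_cancel, map_one]

private theorem LEA_locZ_pow (Φ : Chart 𝒟 S) (v : {v : Pl F // v ∉ S}) (y : 𝒟.Pt) (γ : 𝒟.G)
    (n : ℕ) : locZ Φ v y (γ ^ n) = locZ Φ v y γ ^ n := by
  induction n with
  | zero => rw [pow_zero, pow_zero, LEA_locZ_one]
  | succ n ih =>
    rw [pow_succ, pow_succ, ← ih, locZ, locZ, locZ, ← map_mul, map_mul (𝒟.loc v.1)]
    congr 1
    simp only [mul_assoc, mul_inv_cancel_left]

private theorem LEA_central (Φ : Chart 𝒟 S) (v : {v : Pl F // v ∉ S}) (k : 𝒟.A) :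
    k * sg Φ v (alpha v.1 1) = sg Φ v (alpha v.1 1) * k := by
  apply Subtype.ext
  funext q
  rw [Subgroup.coe_mul, Subgroup.coe_mul, Pi.mul_apply, Pi.mul_apply, sg_apply]
  by_cases h : q = v.1
  · subst h
    rw [single_same]
    apply (Φ.e v).injective
    rw [map_mul, map_mul, MulEquiv.apply_symm_apply]
    exact (Pool.Agent.CG2.HR_alpha_comm v.1 1 (by decide) _).symm
  · rw [single_ne h, mul_one, one_mul]

private theorem LEA_stab_act {K : Subgroup 𝒟.A} {y : 𝒟.Pt} {γ δ : 𝒟.G}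
    (h : δ * γ = γ * δ) : γ ∈ Stab K (act δ y) ↔ γ ∈ Stab K y := by
  rw [mem_Stab, mem_Stab]
  have h1 : mkK K (act γ (act δ y)) = δ • mkK K (act γ y) := by
    change mkK K (act γ (act δ y)) = mkK K (act δ (act γ y))
    rw [← act_mul, ← act_mul, h]
  have h2 : mkK K (act δ y) = δ • mkK K y := rfl
  rw [h1, h2]
  exact smul_left_cancel_iff δ

/-- **LEA1.** The eigenfamily of an eigenfunction, `γ = 1`, `h y n = E.h y`.
PROOF. `h_T`: `locZ Φ v y 1 = 1`, so the map is the identity, the minimal periods do not matter, and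
`R` is the whole set by `Reps.sub`, `Reps.ex` (iterates of the identity). -/
theorem PtFam.exists_eig (E : PtFam K Φ κ η lam r) :
    ∃ E' : EigFam K Φ κ η 1 lam r, ∀ y n, E'.h y n = E.h y := by
  refine ⟨⟨fun y _ => E.h y, fun y k hk _ => E.h_rt y k hk, fun y δ _ _ => E.h_act y δ,
    fun v y _ => E.h_r v y, fun v y _ R hR => ?_⟩, fun _ _ => rfl⟩
  have h1 : R = (cosets_finite v.1 0).toFinset := by
    apply Finset.Subset.antisymm hR.sub
    intro c hc
    obtain ⟨r', hr', n, hn⟩ := hR.ex c hc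
    have h2 : (fun c : GQ v.1 ⧸ GZ v.1 => locZ Φ v y 1 • c) = id := by
      funext c
      rw [LEA_locZ_one, one_smul]
      rfl
    rw [h2, Function.iterate_id] at hn
    rwa [← hn]
  rw [h1]
  exact E.h_T v y

/-- **LEA2.** The eigenfamily attached to an element `γ`:
`h y n = if γ ^ n ∈ Stab K y then E.h y (γ ^ n) else 0`.
PROOF. `h_rt`: `Stab_rt`. `h_act`: `δ` commutes with `γ`, so `δ γⁿ δ⁻¹ = γⁿ`, and
`γⁿ ∈ Stab K (act δ y) ↔ γⁿ ∈ Stab K y` (`mkK K (act γⁿ (act δ y)) = δ • mkK K (act γⁿ y)`).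
`h_r`: `alpha v.1 1` is central in `GQ v.1` (`CG2.HR_alpha_comm` or `HeckeComm_central`), so
`sg Φ v (alpha v.1 1)` commutes with every element of `𝒟.A` (components at `v`: through the chart;
elsewhere it is `1`), so it does not change the stabiliser. `h_T`: for `γ ∈ Stab K y` and
`n = minimalPeriod`, `γⁿ ∈ Stab K (nb Φ v y c)`: iterate `act_nb`, with
`locZ Φ v y (γⁿ) = (locZ Φ v y γ)ⁿ` (`locZ` is a homomorphism in `γ`) and
`(fun c => g • c)^[n] c = gⁿ • c` (`smul_iterate`), `Function.iterate_minimalPeriod`. Here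
`HypOff K Φ` is used. If the minimal period is `0` the set `R` is still finite and the orbit of `c`
is finite, so the period is positive (not needed: `γ ^ 0 = 1` is in every stabiliser). -/
theorem BigFam.exists_eig (hK : HypOff K Φ) (E : BigFam K Φ κ η lam r) (γ : 𝒟.G) :
    ∃ E' : EigFam K Φ κ η γ lam r, ∀ y n, γ ^ n ∈ Stab K y → E'.h y n = E.h y (γ ^ n) := by
  classical
  refine ⟨⟨fun y n => if γ ^ n ∈ Stab K y then E.h y (γ ^ n) else 0, ?_, ?_, ?_, ?_⟩, ?_⟩
  · intro y k hk n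
    rw [Stab_rt y hk, E.h_rt y k hk]
  · intro y δ n hδ
    have h0 : δ * γ ^ n = γ ^ n * δ := (Commute.pow_right (show Commute δ γ from hδ) n)
    simp only [LEA_stab_act h0]
    split_ifs with h1
    · have h2 := E.h_act y δ (γ ^ n) h1
      rwa [h0, mul_inv_cancel_right] at h2
    · rw [mul_zero]
  · intro v y hγ
    have h1 : γ ∈ Stab K (rt y (sg Φ v (alpha v.1 1))) := by
      rw [mem_Stab'] at hγ ⊢
      obtain ⟨k, hk, hy⟩ := hγ
      refine ⟨k, hk, ?_⟩
      rw [act_rt, hy, ← rt_mul, ← rt_mul, LEA_central]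
    rw [pow_one, if_pos h1, if_pos hγ]
    exact E.h_r v y γ hγ
  · intro v y hγ R hR
    rw [pow_one, if_pos hγ, ← E.h_T v y γ hγ R hR]
    refine Finset.sum_congr rfl fun c _ => ?_
    have h1 : γ ^ Function.minimalPeriod (fun c => locZ Φ v y γ • c) c ∈
        Stab K (nb Φ v y c) := by
      obtain ⟨n, hn⟩ : ∃ n, n = Function.minimalPeriod (fun c => locZ Φ v y γ • c) c := ⟨_, rfl⟩
      rw [← hn, mem_Stab, act_nb (hK v) (Subgroup.pow_mem _ hγ n), LEA_locZ_pow]
      have h2 : locZ Φ v y γ ^ n • c = c := by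
        have h3 := Function.iterate_minimalPeriod (f := fun c => locZ Φ v y γ • c) (x := c)
        rw [← hn, smul_iterate] at h3
        exact h3
      rw [h2]
    rw [if_pos h1]
  · intro y n h1
    exact if_pos h1

/-- **LEA3.** A homomorphism vanishes at `1`, and `h y γ⁻¹ = - h y γ`. -/
theorem BigFam.h_one (E : BigFam K Φ κ η lam r) (y : 𝒟.Pt) : E.h y 1 = 0 := by
  have h1 := E.h_mul y 1 (Subgroup.one_mem _) 1 (Subgroup.one_mem _)
  rw [mul_one] at h1
  exact left_eq_add.1 h1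

end Pool.Agent.CGQ
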