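import Pool.Agent.CGQ.LEB

/-!
# Degree zero
-/

noncomputable section

namespace Pool.Agent.CGQ

open NumberField IsDedekindDomain CategoryTheory
open Pool.Agent.CG2 (Pl GQ GZ cosets cosets_finite alpha)

variable {F : Type} [Field F] [NumberField F] {𝒟 : Sys F} {S : Set (Pl F)} {Φ : Chart 𝒟 S}
variable {K : Subgroup 𝒟.A} {O : Type} [CommRing O] {k : Type} [AddCommGroup k] [Module O k]

/-- The value at `y` of a class in degree zero. -/
def ev0 (K : Subgroup 𝒟.A) (O k : Type) [CommRing O] [AddCommGroup k] [Module O k] (y : 𝒟.Pt) :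
    groupCohomology (coeff K (triv K O k)) 0 →ₗ[O] k where
  toFun z := ((CG2.CellTop_h0 (coeff K (triv K O k)) z).1 : Forms K (triv K O k)).1 y
  map_add' a b := by
    rw [map_add]
    rfl
  map_smul' c a := by
    rw [map_smul]
    rfl

/-- The form attached to a class in degree zero. -/
private def fm0 (z : groupCohomology (coeff K (triv K O k)) 0) : Forms K (triv K O k) :=
  (CG2.CellTop_h0 (coeff K (triv K O k)) z).1

private theorem ev0_apply (y : 𝒟.Pt) (z : groupCohomology (coeff K (triv K O k)) 0) :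
    ev0 K O k y z = (fm0 z).1 y := rfl

private theorem fm0_hecke (hU : UnramOff K (triv K O k) Φ) (t : Idx S)
    (z : groupCohomology (coeff K (triv K O k)) 0) :
    fm0 (heckeCoh K (triv K O k) hU 0 t z) = heckeLin K (triv K O k) hU t (fm0 z) :=
  CG2.CellTop_h0_nat (heckeHom K (triv K O k) hU t) z

/-- **LEC1.** PROOF. `h_rt` of a form with trivial coefficients. -/
theorem ev0_rt (y : 𝒟.Pt) (κ : 𝒟.A) (hκ : κ ∈ K) : ev0 K O k (rt y κ) = ev0 K O k y := by
  apply LinearMap.ext
  intro z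
  rw [ev0_apply, ev0_apply]
  exact (fm0 z).2 y ⟨κ, hκ⟩

/-- **LEC2.** PROOF. Invariance of `CellTop_h0 z`. -/
theorem ev0_act (y : 𝒟.Pt) (δ : 𝒟.G) : ev0 K O k (act δ y) = ev0 K O k y := by
  apply LinearMap.ext
  intro z
  rw [ev0_apply, ev0_apply]
  have h1 : formsRep K (triv K O k) δ⁻¹ (fm0 z) = fm0 z :=
    (CG2.CellTop_h0 (coeff K (triv K O k)) z).2 δ⁻¹
  have h2 := congrArg (fun f : Forms K (triv K O k) => f.1 y) h1
  simp only [formsRep_apply, inv_inv] at h2
  exact h2

/-- **LEC3.** PROOF. `CG2.CellTop_h0_nat` for `heckeHom`, definition of `heckeLin`. -/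
theorem ev0_T (hU : UnramOff K (triv K O k) Φ) (v : {v : Pl F // v ∉ S}) (y : 𝒟.Pt) :
    ev0 K O k y ∘ₗ heckeCoh K (triv K O k) hU 0 (v, 0) =
      ∑ c ∈ (cosets_finite v.1 0).toFinset, ev0 K O k (nb Φ v y c) := by
  apply LinearMap.ext
  intro z
  rw [LinearMap.comp_apply, ev0_apply, fm0_hecke, LinearMap.sum_apply]
  rfl

/-- **LEC4.** PROOF. As `ev0_T`, with `HeckeComm_sum`. -/
theorem ev0_R (hU : UnramOff K (triv K O k) Φ) (v : {v : Pl F // v ∉ S}) (y : 𝒟.Pt) :
    ev0 K O k y ∘ₗ heckeCoh K (triv K O k) hU 0 (v, 1) =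
      ev0 K O k (rt y (sg Φ v (alpha v.1 1))) := by
  apply LinearMap.ext
  intro z
  rw [LinearMap.comp_apply, ev0_apply, fm0_hecke, ev0_apply]
  exact HeckeComm_sum (fm0 z) (hU v) 1 (by decide) y

/-- **LEC5.** PROOF. `CellTop_h0` is injective. -/
theorem ev0_sep (z : groupCohomology (coeff K (triv K O k)) 0) (h : ∀ y, ev0 K O k y z = 0) :
    z = 0 := by
  apply (CG2.CellTop_h0 (coeff K (triv K O k))).injective
  rw [map_zero]
  apply Subtype.ext
  change fm0 z = (0 : Forms K (triv K O k))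
  apply Subtype.ext
  funext y
  exact h y

/-- **LEC6.** PROOF. `exists_dual_eig` for `E = ev0`, `f = hact`, `t = X (v, j)` (`hact_X`);
`h y = φ (ev0 y)`. The hypothesis `¬ Dead` is `InSupport` after `push_neg`. -/
theorem exists_ptfam [IsLocalRing O] (hK : HypOff K Φ)
    (hfin : Module.Finite O (groupCohomology
      (coeff K (triv K O (IsLocalRing.ResidueField O))) 0))
    (m : Ideal (HeckeAlg S O)) [m.IsMaximal]
    (hm : ¬ Dead K (triv K O (IsLocalRing.ResidueField O)) (unram_triv hK) 0 m)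
    (κ : Type) [Field κ] [Algebra (HeckeAlg S O ⧸ m) κ] :
    ∃ E : PtFam K Φ κ 1 (fun v => eig m κ (v, 0)) (fun v => eig m κ (v, 1)),
      ∃ y, E.h y ≠ 0 := by
  have hU : UnramOff K (triv K O (IsLocalRing.ResidueField O)) Φ := unram_triv hK
  have hm' : ∃ z : groupCohomology (coeff K (triv K O (IsLocalRing.ResidueField O))) 0,
      ∀ t ∉ m, hact K (triv K O (IsLocalRing.ResidueField O)) hU 0 t z ≠ 0 := by
    by_contra hcon
    apply hm
    intro z
    by_contra h2
    apply hcon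
    refine ⟨z, fun t ht h0 => h2 ⟨t, ht, h0⟩⟩
  obtain ⟨φ, ⟨y, hy⟩, hφ⟩ := exists_dual_eig
    (M := groupCohomology (coeff K (triv K O (IsLocalRing.ResidueField O))) 0)
    (fun c hc z => coh_killed K 0 c hc z)
    (hact K (triv K O (IsLocalRing.ResidueField O)) hU 0) m hm' κ
    (fun y : 𝒟.Pt => ev0 K O (IsLocalRing.ResidueField O) y) (fun z h => ev0_sep z h)
  refine ⟨{ h := fun y => φ (ev0 K O (IsLocalRing.ResidueField O) y)
            h_rt := fun y κ hκ => by rw [ev0_rt y κ hκ]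
            h_act := fun y δ => by rw [ev0_act y δ]; simp
            h_r := fun v y => ?_
            h_T := fun v y => ?_ }, y, hy⟩
  · rw [← ev0_R hU v y, ← hact_X, hφ]
    rfl
  · rw [← map_sum, ← ev0_T hU v y, ← hact_X, hφ]
    rfl

end Pool.Agent.CGQ
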