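import Pool.Agent.CGQ.TBE
import Pool.Agent.CGQ.LEB
import Pool.Agent.CG2.HeckeReps

/-!
# The families of the eigenclasses in the top degrees
-/

noncomputable section

namespace Pool.Agent.CGQ

open NumberField IsDedekindDomain CategoryTheory
open Pool.Agent.CG2 (Pl GQ GZ cosets cosets_finite alpha cosetsInv cosetsInv_finite)

variable {F : Type} [Field F] [NumberField F] {𝒟 : Sys F} {S : Set (Pl F)} {Φ : Chart 𝒟 S}
variable {K : Subgroup 𝒟.A} {O : Type} [CommRing O]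

/-- **TCA1.** `R_v` is invertible.
PROOF. `heckeCoh (v, 1) * heckeCoh (v, 2) = 1` (`HeckeComm_sum`, `alpha v 2 = (alpha v 1)⁻¹`), so
`t = X (v, 1) * X (v, 2) - 1` acts as zero; if `t ∉ m` the localisation would be zero (`Dead`). So
`t ∈ m`. -/
theorem eig_one_mul {W : Type} [AddCommGroup W] [Module O W] {τ : Representation O K W}
    (hU : UnramOff K τ Φ) (i : ℕ) (m : Ideal (HeckeAlg S O)) (hm : ¬ Dead K τ hU i m)
    (κ : Type) [Field κ] [Algebra (HeckeAlg S O ⧸ m) κ] (v : {v : Pl F // v ∉ S}) :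
    eig m κ (v, 1) * eig m κ (v, 2) = 1 := by
  have h1 : heckeCoh K τ hU i (v, 1) * heckeCoh K τ hU i (v, 2) = 1 := by
    have h2 : heckeHom K τ hU (v, 2) ≫ heckeHom K τ hU (v, 1) = 𝟙 (coeff K τ) := by
      apply rep_hom_ext
      intro f
      apply Subtype.ext
      funext y
      have e1 : ∀ (g : Forms K τ) (y : 𝒟.Pt), (heckeLin K τ hU (v, 1) g).1 y =
          g.1 (rt y (sg Φ v (alpha v.1 1))) := fun g y => HeckeComm_sum g (hU _) 1 (by decide) y
      have e2 : ∀ (g : Forms K τ) (y : 𝒟.Pt), (heckeLin K τ hU (v, 2) g).1 y =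
          g.1 (rt y (sg Φ v (alpha v.1 2))) := fun g y => HeckeComm_sum g (hU _) 2 (by decide) y
      change (heckeLin K τ hU (v, 1) (heckeLin K τ hU (v, 2) f)).1 y = f.1 y
      rw [e1, e2, ← rt_mul, ← map_mul, Pool.Agent.CG2.HR_alpha_two, mul_inv_cancel, map_one,
        rt_one]
    have h3 := congrArg (fun a => ((groupCohomology.functor O 𝒟.G i).map a).hom) h2
    simp only [CategoryTheory.Functor.map_comp, ModuleCat.hom_comp,
      CategoryTheory.Functor.map_id] at h3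
    exact h3
  have h4 : hact K τ hU i (MvPolynomial.X (v, 1) * MvPolynomial.X (v, 2) - 1) = 0 := by
    rw [map_sub, map_mul, hact_X, hact_X, h1, map_one, sub_self]
  have h5 : MvPolynomial.X (v, 1) * MvPolynomial.X (v, 2) - 1 ∈ m := by
    by_contra h6
    apply hm
    intro z
    exact ⟨_, h6, by rw [h4]; rfl⟩
  have h7 := Ideal.Quotient.eq_zero_iff_mem.2 h5
  rw [map_sub, map_mul, map_one, sub_eq_zero] at h7
  have h8 := congrArg (algebraMap (HeckeAlg S O ⧸ m) κ) h7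
  rw [map_mul, map_one] at h8
  exact h8

/-- **TCA2.** The characteristic. PROOF. `C p` acts as zero (`coh_killed`), so `C p ∈ m`, else `Dead`;
`κ` has characteristic `p` since `p = 0` in it (`CharP` for a prime: `CharP.of_prime…` or
`charP_iff`). -/
theorem char_of_not_dead [IsLocalRing O] {p : ℕ} (hp : p.Prime)
    [CharP (IsLocalRing.ResidueField O) p] (hΦ : HypOff K Φ) (i : ℕ)
    (m : Ideal (HeckeAlg S O))
    (hm : ¬ Dead K (triv K O (IsLocalRing.ResidueField O)) (unram_triv hΦ) i m)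
    (κ : Type) [Field κ] [Algebra (HeckeAlg S O ⧸ m) κ] : CharP κ p := by
  have hpm : (p : O) ∈ IsLocalRing.maximalIdeal O := by
    rw [← IsLocalRing.residue_eq_zero_iff, map_natCast]
    exact CharP.cast_eq_zero _ p
  have h4 : ∀ z, hact K (triv K O (IsLocalRing.ResidueField O)) (unram_triv hΦ) i
      (algebraMap O (HeckeAlg S O) (p : O)) z = 0 := by
    intro z
    rw [AlgHom.commutes, Module.algebraMap_end_apply]
    exact coh_killed K i _ hpm z
  have h5 : algebraMap O (HeckeAlg S O) (p : O) ∈ m := by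
    by_contra h6
    apply hm
    intro z
    exact ⟨_, h6, h4 z⟩
  have h7 := Ideal.Quotient.eq_zero_iff_mem.2 h5
  have h8 := congrArg (algebraMap (HeckeAlg S O ⧸ m) κ) h7
  rw [map_natCast, map_natCast, map_natCast, map_zero] at h8
  exact (CharP.charP_iff_prime_eq_zero hp).2 h8

/-- **TCA3.** The orbits on the neighbours and on the inverse neighbours.
PROOF. `c ↦ (sc v)⁻¹ • c` (`CG2.HR_smul_mem`, `HR_smul_mem'`, `sc_comm`) is a bijection of `cosets v 0`
onto `cosetsInv v 0` which commutes with the action of `g = locZ Φ v y γ`; `sc v = alpha v 1`. -/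
theorem reps_inv {v : Pl F} (g : GQ v) (R : Finset (GQ v ⧸ GZ v))
    (hR : Reps (fun c => g • c) (cosets_finite v 0).toFinset R) :
    Reps (fun c => g • c) (cosetsInv_finite v 0).toFinset
      (R.map ⟨fun c => (alpha v 1)⁻¹ • c, MulAction.injective _⟩) ∧
    ∀ c : GQ v ⧸ GZ v, Function.minimalPeriod (fun c => g • c) ((alpha v 1)⁻¹ • c) =
      Function.minimalPeriod (fun c => g • c) c := by
  have hcm : ∀ a : GQ v, a * (alpha v 1)⁻¹ = (alpha v 1)⁻¹ * a := fun a =>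
    ((show Commute (alpha v 1) a from Pool.Agent.CG2.HR_alpha_comm v 1 (by decide) a).inv_left).eq.symm
  have hit : ∀ (n : ℕ) (c : GQ v ⧸ GZ v), (fun c => g • c)^[n] ((alpha v 1)⁻¹ • c) =
      (alpha v 1)⁻¹ • (fun c => g • c)^[n] c := by
    intro n c
    rw [smul_iterate]
    change g ^ n • ((alpha v 1)⁻¹ • c) = (alpha v 1)⁻¹ • (g ^ n • c)
    rw [smul_smul, smul_smul, hcm]
  refine ⟨⟨?_, ?_, ?_⟩, ?_⟩
  · intro c' hc'
    rw [Finset.mem_map] at hc'
    obtain ⟨c, hc, rfl⟩ := hc'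
    have h1 := hR.sub hc
    rw [Set.Finite.mem_toFinset] at h1 ⊢
    exact Pool.Agent.CG2.HR_smul_mem h1
  · intro c' hc'
    rw [Set.Finite.mem_toFinset] at hc'
    have h1 := Pool.Agent.CG2.HR_smul_mem' hc'
    obtain ⟨r, hr, n, hn⟩ := hR.ex _ ((Set.Finite.mem_toFinset _).2 h1)
    refine ⟨(alpha v 1)⁻¹ • r, Finset.mem_map.2 ⟨r, hr, rfl⟩, n, ?_⟩
    rw [hit, hn, inv_smul_smul]
  · intro r hr r' hr' n hn
    rw [Finset.mem_map] at hr hr'
    obtain ⟨a, ha, rfl⟩ := hr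
    obtain ⟨a', ha', rfl⟩ := hr'
    change (fun c => g • c)^[n] ((alpha v 1)⁻¹ • a) = (alpha v 1)⁻¹ • a' at hn
    rw [hit] at hn
    have h1 := hR.inj a ha a' ha' n (MulAction.injective _ hn)
    rw [h1]
  · intro c
    rw [Function.minimalPeriod_eq_minimalPeriod_iff]
    intro n
    change (fun c => g • c)^[n] ((alpha v 1)⁻¹ • c) = (alpha v 1)⁻¹ • c ↔
      (fun c => g • c)^[n] c = c
    rw [hit]
    exact (MulAction.injective (alpha v 1)⁻¹).eq_iff

/-- The eigenfunctional. -/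
private theorem TCA_phi [IsNoetherianRing O] [IsLocalRing O] (T : TSys K)
    (hΦ : HypOff K Φ) (n : ℕ) (m : Ideal (HeckeAlg S O)) [m.IsMaximal]
    (hm : ¬ Dead K (triv K O (IsLocalRing.ResidueField O)) (unram_triv hΦ) n m)
    (κ : Type) [Field κ] [Algebra (HeckeAlg S O ⧸ m) κ] :
    ∃ φ : groupCohomology (coeff K (triv K O (IsLocalRing.ResidueField O))) n →+ κ,
      (∃ z, φ z ≠ 0) ∧
      (∀ (c : O) z, φ z = 0 → φ (c • z) = 0) ∧
      ∀ (t : Idx S) z, φ (heckeCoh K (triv K O (IsLocalRing.ResidueField O))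
        (unram_triv hΦ) n t z) = eig m κ t * φ z := by
  have iO : Module.Finite O (IsLocalRing.ResidueField O) :=
    Module.Finite.of_surjective (Algebra.linearMap O (IsLocalRing.ResidueField O))
      IsLocalRing.residue_surjective
  have iH : Module.Finite O (groupCohomology
      (coeff K (triv K O (IsLocalRing.ResidueField O))) n) :=
    coeff_fg T n (IsLocalRing.ResidueField O) (triv K O (IsLocalRing.ResidueField O))
  have hm' : ∃ z, ∀ t ∉ m, hact K (triv K O (IsLocalRing.ResidueField O))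
      (unram_triv hΦ) n t z ≠ 0 := by
    by_contra hc
    push Not at hc
    exact hm hc
  obtain ⟨φ₀, hφ₀, hφt⟩ := Pool.Agent.CG2.exists_eigf _ m hm'
  let iFd : Field (HeckeAlg S O ⧸ m) := Ideal.Quotient.field m
  have hinj : Function.Injective (algebraMap (HeckeAlg S O ⧸ m) κ) :=
    (algebraMap (HeckeAlg S O ⧸ m) κ).injective
  refine ⟨(algebraMap (HeckeAlg S O ⧸ m) κ).toAddMonoidHom.comp φ₀, ?_, ?_, ?_⟩
  · by_contra hc
    push Not at hc
    apply hφ₀
    apply AddMonoidHom.ext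
    intro z
    apply hinj
    exact (hc z).trans (map_zero _).symm
  · intro c z hz
    have h1 : c • z = hact K (triv K O (IsLocalRing.ResidueField O))
        (unram_triv hΦ) n (algebraMap O (HeckeAlg S O) c) z := by
      rw [AlgHom.commutes, Module.algebraMap_end_apply]
    change algebraMap (HeckeAlg S O ⧸ m) κ (φ₀ (c • z)) = 0
    rw [h1, hφt, map_mul]
    rw [show algebraMap (HeckeAlg S O ⧸ m) κ (φ₀ z) = 0 from hz, mul_zero]
  · intro t z
    change algebraMap (HeckeAlg S O ⧸ m) κ (φ₀ _) = _ * algebraMap (HeckeAlg S O ⧸ m) κ (φ₀ z)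
    rw [← hact_X, hφt, map_mul]
    rfl

/-- a functional which vanishes on a spanning set is zero -/
private theorem TCA_span {M κ : Type} [AddCommGroup M] [Module O M] [Field κ] (φ : M →+ κ)
    (h : ∀ (c : O) z, φ z = 0 → φ (c • z) = 0) (X : Set M) (hX : ∀ x ∈ X, φ x = 0) (z : M)
    (hz : z ∈ Submodule.span O X) : φ z = 0 := by
  induction hz using Submodule.span_induction with
  | mem x hx => exact hX x hx
  | zero => exact map_zero φ
  | add x y _ _ hx hy => rw [map_add, hx, hy, add_zero]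
  | smul c x _ hx => exact h c x hx

private theorem TCA_central (Φ : Chart 𝒟 S) (v : {v : Pl F // v ∉ S}) (k : 𝒟.A) :
    k * sg Φ v (alpha v.1 1) = sg Φ v (alpha v.1 1) * k := by
  apply Subtype.ext
  funext q
  rw [Subgroup.coe_mul, Subgroup.coe_mul, Pi.mul_apply, Pi.mul_apply, sg_apply]
  by_cases h : q = v.1
  · subst h
    rw [single_same]
    apply (Φ.e v).injective
    rw [map_mul, map_mul, MulEquiv.apply_symm_apply]
    exact (Pool.Agent.CG2.HR_alpha_comm v.1 1 (by decide) _).symm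
  · rw [single_ne h, mul_one, one_mul]

private theorem TCA_stab_rt (Φ : Chart 𝒟 S) (v : {v : Pl F // v ∉ S}) {y : 𝒟.Pt} {γ : 𝒟.G}
    (hγ : γ ∈ Stab K y) : γ ∈ Stab K (rt y (sg Φ v (alpha v.1 1))) := by
  rw [mem_Stab'] at hγ ⊢
  obtain ⟨k, hk, hy⟩ := hγ
  refine ⟨k, hk, ?_⟩
  rw [act_rt, hy, ← rt_mul, ← rt_mul, TCA_central]

private theorem TCA_locZ_pow (Φ : Chart 𝒟 S) (v : {v : Pl F // v ∉ S}) (y : 𝒟.Pt) (γ : 𝒟.G)
    (n : ℕ) : locZ Φ v y (γ ^ n) = locZ Φ v y γ ^ n := by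
  induction n with
  | zero => rw [pow_zero, pow_zero, locZ, map_one, mul_one, inv_mul_cancel, map_one]
  | succ n ih =>
    rw [pow_succ, pow_succ, ← ih, locZ, locZ, locZ, ← map_mul, map_mul (𝒟.loc v.1)]
    congr 1
    simp only [mul_assoc, mul_inv_cancel_left]

private theorem TCA_stab_nb (hΦ : HypOff K Φ) (v : {v : Pl F // v ∉ S}) {y : 𝒟.Pt} {γ : 𝒟.G}
    (hγ : γ ∈ Stab K y) (c : GQ v.1 ⧸ GZ v.1) :
    γ ^ Function.minimalPeriod (fun c => locZ Φ v y γ • c) c ∈ Stab K (nb Φ v y c) := by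
  obtain ⟨n, hn⟩ : ∃ n, n = Function.minimalPeriod (fun c => locZ Φ v y γ • c) c := ⟨_, rfl⟩
  rw [← hn, mem_Stab, act_nb (hΦ v) (Subgroup.pow_mem _ hγ n), TCA_locZ_pow]
  have h2 : locZ Φ v y γ ^ n • c = c := by
    have h3 := Function.iterate_minimalPeriod (f := fun c => locZ Φ v y γ • c) (x := c)
    rw [← hn, smul_iterate] at h3
    exact h3
  rw [h2]

/-- The representative of the coset of `a`. -/
private theorem TCA_out {v : Pl F} (a : GQ v) (c : GQ v ⧸ GZ v)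
    (hc : c = ((a : GQ v) : GQ v ⧸ GZ v)) : ∃ k ∈ GZ v, Quotient.out c = a * k := by
  have h1 : ((Quotient.out c : GQ v) : GQ v ⧸ GZ v) = ((a : GQ v) : GQ v ⧸ GZ v) := by
    rw [← hc]
    exact Quotient.out_eq' _
  exact ⟨a⁻¹ * Quotient.out c, QuotientGroup.eq.1 h1.symm, (mul_inv_cancel_left _ _).symm⟩

/-- **TCA4.** The family in the top degree.
PROOF. `coeff_fg` gives finiteness, `CG2.exists_eigf` (with `¬ Dead` = the hypothesis after
`push_neg`) an additive `φ₀ : Hᵈ → HeckeAlg ⧸ m`, `φ₀ ≠ 0`, compose with `algebraMap` to `κ`: `φ`.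
`ω` from `exists_gen` (`k = ResidueField O`, surjective). `h y = φ (c_y)`,
`c_y = mapCoh (piHom y) n0 ω`. Some `h y ≠ 0` by `top_span` (`φ` is `O`-semilinear:
`φ (c • z) = (C c) φ z`). `h_rt`: `piHom_rt`. `h_act`: `rho_pi`, `hω.rho`:
`c_y = mapCoh (piHom (act δ y)) (mapCoh (rhoHom δ) ω) = ε δ • c_{act δ y}`. By `piHom_hecke` for
`j = 1` (`CG2.cosetsInv_scalar`): `r_v h y = h (rt y (sg ((alpha v 1)⁻¹)))`, so
`h (rt y (sg (alpha v 1))) = r_v⁻¹ h y`. For `j = 0`, `CG2.cosetsInv_zero` (`sc v = alpha v 1`):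
`λ_v h y = ∑_{c ∈ cosets} h (rt (nb y c) (sg (alpha v 1)⁻¹)) = r_v ∑_{c ∈ cosets} h (nb y c)`
(elements of `GZ` on the right do not change `h`: `h_rt`, `Hyp.sg_mem`). `r_v ≠ 0` by
`eig_one_mul`. -/
theorem exists_top_fam [IsNoetherianRing O] [IsLocalRing O] (T : TSys K) (hK : OC K)
    (hΦ : HypOff K Φ) (m : Ideal (HeckeAlg S O)) [m.IsMaximal]
    (hm : ¬ Dead K (triv K O (IsLocalRing.ResidueField O)) (unram_triv hΦ) T.C.n0 m)
    (κ : Type) [Field κ] [Algebra (HeckeAlg S O ⧸ m) κ] :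
    ∃ E : PtFam K Φ κ T.ε (fun v => eig m κ (v, 0) * (eig m κ (v, 1))⁻¹)
      (fun v => (eig m κ (v, 1))⁻¹), ∃ y, E.h y ≠ 0 := by
  obtain ⟨ω, hω⟩ := exists_gen (k := IsLocalRing.ResidueField O) T hK
    IsLocalRing.residue_surjective
  obtain ⟨φ, hφ0, hφs, hφt⟩ := TCA_phi T hΦ T.C.n0 m hm κ
  obtain ⟨h, hh⟩ : ∃ h : 𝒟.Pt → κ, h = fun y =>
      φ (mapCoh (piHom hK O (IsLocalRing.ResidueField O) y) T.C.n0 ω) := ⟨_, rfl⟩
  have h_rt : ∀ y, ∀ k ∈ K, h (rt y k) = h y := by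
    intro y k hk
    rw [hh]
    simp only
    rw [piHom_rt hK y hk]
  have h_act : ∀ y (δ : 𝒟.G), h (act δ y) = (((T.ε δ : ℤˣ) : ℤ) : κ) * h y := by
    intro y δ
    have e1 : h y = (((T.ε δ : ℤˣ) : ℤ) : κ) * h (act δ y) := by
      rw [hh]
      simp only
      rw [← rho_pi hK δ y, mapCoh_comp, hω.rho δ, map_zsmul, map_zsmul, zsmul_eq_mul]
    rw [e1, ← mul_assoc, ← Int.cast_mul, ← Units.val_mul, Int.units_mul_self, Units.val_one,
      Int.cast_one, one_mul]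
  have hr0 : ∀ v, eig m κ (v, 1) ≠ 0 := by
    intro v h0
    have h1 := eig_one_mul (unram_triv hΦ) T.C.n0 m hm κ v
    rw [h0, zero_mul] at h1
    exact zero_ne_one h1
  have hhecke : ∀ (t : Idx S) y, eig m κ t * h y =
      ∑ c ∈ (cosetsInv_finite t.1.1 t.2).toFinset, h (rt y (sg Φ t.1 (Quotient.out c))) := by
    intro t y
    rw [hh]
    simp only
    rw [← hφt, piHom_hecke hK hΦ, map_sum]
  have hGZ : ∀ (v : {v : Pl F // v ∉ S}) (y : 𝒟.Pt) (k : GQ v.1), k ∈ GZ v.1 →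
      h (rt y (sg Φ v k)) = h y := fun v y k hk =>
    h_rt y _ ((hΦ v).sg_mem hk)
  have hrinv : ∀ v y, h (rt y (sg Φ v (alpha v.1 1)⁻¹)) = eig m κ (v, 1) * h y := by
    intro v y
    have e1 := hhecke (v, 1) y
    have e2 : (cosetsInv_finite v.1 1).toFinset =
        {(((alpha v.1 1)⁻¹ : GQ v.1) : GQ v.1 ⧸ GZ v.1)} := by
      ext c
      rw [Set.Finite.mem_toFinset, Pool.Agent.CG2.cosetsInv_scalar v.1 1 (by decide)]
      simp
    rw [e1, e2, Finset.sum_singleton]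
    obtain ⟨k, hk, hout⟩ := TCA_out (alpha v.1 1)⁻¹ _ rfl
    rw [hout, map_mul, rt_mul, hGZ v _ k hk]
  refine ⟨⟨h, h_rt, h_act, ?_, ?_⟩, ?_⟩
  · intro v y
    have e1 := hrinv v (rt y (sg Φ v (alpha v.1 1)))
    rw [← rt_mul, ← map_mul, mul_inv_cancel, map_one, rt_one] at e1
    rw [e1, inv_mul_cancel_left₀ (hr0 v)]
  · intro v y
    have e1 := hhecke (v, 0) y
    have e2 := Pool.Agent.CG2.cosetsInv_zero v.1 κ (fun g => h (rt y (sg Φ v g)))
      (fun g k hk => by rw [map_mul, rt_mul, hGZ v _ k hk])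
    rw [e2] at e1
    have e3 : ∀ c : GQ v.1 ⧸ GZ v.1, h (rt y (sg Φ v (Quotient.out c * (alpha v.1 1)⁻¹))) =
        eig m κ (v, 1) * h (nb Φ v y c) := by
      intro c
      rw [map_mul, rt_mul]
      exact hrinv v _
    simp only [e3] at e1
    rw [← Finset.mul_sum] at e1
    rw [mul_comm (eig m κ (v, 0)), mul_assoc, e1, inv_mul_cancel_left₀ (hr0 v)]
  · by_contra hc
    push Not at hc
    obtain ⟨z, hz⟩ := hφ0
    apply hz
    refine TCA_span φ hφs _ ?_ z (top_span T hK ω hω z)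
    rintro _ ⟨y, rfl⟩
    have := hc y
    simp only at this
    rw [hh] at this
    exact this

/-- **TCA5.** The family one below the top degree. PROOF. As `exists_top_fam` with
`h y γ = φ (Br y γ)`: `Br_rt`, `Br_act`, `Br_mul`, `Br_span`, and `Br_hecke` for `j = 1` (`cosetsInv v 1` is
one point, its period is `1`) and for `j = 0` with `reps_inv`. -/
theorem exists_sub_fam [IsNoetherianRing O] [IsLocalRing O] (T : TSys K) (hK : OC K)
    (hTF : TorsionFree K) (hΦ : HypOff K Φ) (n : ℕ) (hn : n + 1 = T.C.n0)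
    (m : Ideal (HeckeAlg S O)) [m.IsMaximal]
    (hm : ¬ Dead K (triv K O (IsLocalRing.ResidueField O)) (unram_triv hΦ) n m)
    (κ : Type) [Field κ] [Algebra (HeckeAlg S O ⧸ m) κ] :
    ∃ E : BigFam K Φ κ T.ε (fun v => eig m κ (v, 0) * (eig m κ (v, 1))⁻¹)
      (fun v => (eig m κ (v, 1))⁻¹), ∃ y, ∃ γ ∈ Stab K y, E.h y γ ≠ 0 := by
  obtain ⟨ω, hω⟩ := exists_gen (k := IsLocalRing.ResidueField O) T hK
    IsLocalRing.residue_surjective
  obtain ⟨φ, hφ0, hφs, hφt⟩ := TCA_phi T hΦ n m hm κ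
  obtain ⟨h, hh⟩ : ∃ h : 𝒟.Pt → 𝒟.G → κ, h = fun y γ => φ (Br T hK ω hω n hn y γ) := ⟨_, rfl⟩
  have h_rt : ∀ y, ∀ k ∈ K, ∀ γ, h (rt y k) γ = h y γ := by
    intro y k hk γ
    rw [hh]
    simp only
    rw [Br_rt T hK hTF ω hω n hn y k hk γ]
  have hr0 : ∀ v, eig m κ (v, 1) ≠ 0 := by
    intro v h0
    have h1 := eig_one_mul (unram_triv hΦ) n m hm κ v
    rw [h0, zero_mul] at h1
    exact zero_ne_one h1
  have hhecke : ∀ (v : {v : Pl F // v ∉ S}) (j : Fin 3) y γ, γ ∈ Stab K y →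
      ∀ R : Finset (GQ v.1 ⧸ GZ v.1),
      Reps (fun c => locZ Φ v y γ • c) (cosetsInv_finite v.1 j).toFinset R →
      eig m κ (v, j) * h y γ = ∑ c ∈ R, h (nb Φ v y c)
        (γ ^ Function.minimalPeriod (fun c => locZ Φ v y γ • c) c) := by
    intro v j y γ hγ R hR
    rw [hh]
    simp only
    rw [← hφt, Br_hecke T hK hTF hΦ ω hω n hn v y γ hγ j R hR, map_sum]
  have hGZ : ∀ (v : {v : Pl F // v ∉ S}) (y : 𝒟.Pt) (γ : 𝒟.G) (k : GQ v.1), k ∈ GZ v.1 →
      h (rt y (sg Φ v k)) γ = h y γ := fun v y γ k hk =>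
    h_rt y _ ((hΦ v).sg_mem hk) γ
  have hrinv : ∀ v y γ, γ ∈ Stab K y →
      h (rt y (sg Φ v (alpha v.1 1)⁻¹)) γ = eig m κ (v, 1) * h y γ := by
    intro v y γ hγ
    obtain ⟨c0, hc0⟩ : ∃ c0 : GQ v.1 ⧸ GZ v.1,
      c0 = (((alpha v.1 1)⁻¹ : GQ v.1) : GQ v.1 ⧸ GZ v.1) := ⟨_, rfl⟩
    have e2 : (cosetsInv_finite v.1 1).toFinset = {c0} := by
      ext c
      rw [Set.Finite.mem_toFinset, Pool.Agent.CG2.cosetsInv_scalar v.1 1 (by decide), ← hc0]
      simp
    have e3 : locZ Φ v y γ • c0 = c0 := by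
      have e4 := locZ_mem (hΦ v) hγ
      rw [hc0]
      change ((locZ Φ v y γ * (alpha v.1 1)⁻¹ : GQ v.1) : GQ v.1 ⧸ GZ v.1) = _
      have hcm : locZ Φ v y γ * (alpha v.1 1)⁻¹ = (alpha v.1 1)⁻¹ * locZ Φ v y γ :=
        ((show Commute (alpha v.1 1) (locZ Φ v y γ) from
          Pool.Agent.CG2.HR_alpha_comm v.1 1 (by decide) _).inv_left).eq.symm
      rw [hcm, QuotientGroup.eq]
      have e5 : ((alpha v.1 1)⁻¹ * locZ Φ v y γ)⁻¹ * (alpha v.1 1)⁻¹ = (locZ Φ v y γ)⁻¹ := by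
        group
      rw [e5]
      exact (GZ v.1).inv_mem e4
    have hR : Reps (fun c => locZ Φ v y γ • c) (cosetsInv_finite v.1 1).toFinset {c0} := by
      rw [e2]
      refine ⟨subset_rfl, fun c hc => ⟨c, hc, 0, rfl⟩, ?_⟩
      intro r hr r' hr' _ _
      rw [Finset.mem_singleton] at hr hr'
      rw [hr, hr']
    have e1 := hhecke v 1 y γ hγ {c0} hR
    have e6 : Function.minimalPeriod (fun c => locZ Φ v y γ • c) c0 = 1 := by
      rw [Function.minimalPeriod_eq_one_iff_isFixedPt]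
      exact e3
    rw [e1, Finset.sum_singleton, e6, pow_one]
    obtain ⟨k, hk, hout⟩ := TCA_out (alpha v.1 1)⁻¹ c0 hc0
    rw [nb, hout, map_mul, rt_mul, hGZ v _ γ k hk]
  refine ⟨⟨h, h_rt, ?_, ?_, ?_, ?_⟩, ?_⟩
  · intro y δ γ hγ
    rw [hh]
    simp only
    rw [Br_act T hK hTF ω hω n hn y δ γ hγ, map_zsmul, zsmul_eq_mul]
  · intro y γ hγ γ' hγ'
    rw [hh]
    simp only
    rw [Br_mul T hK ω hω n hn hγ hγ', map_add]
  · intro v y γ hγ
    have e1 := hrinv v (rt y (sg Φ v (alpha v.1 1))) γ (TCA_stab_rt Φ v hγ)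
    rw [← rt_mul, ← map_mul, mul_inv_cancel, map_one, rt_one] at e1
    rw [e1, inv_mul_cancel_left₀ (hr0 v)]
  · intro v y γ hγ R hR
    obtain ⟨hR', hmp⟩ := reps_inv (locZ Φ v y γ) R hR
    have e1 := hhecke v 0 y γ hγ _ hR'
    rw [Finset.sum_map] at e1
    have e3 : ∀ c : GQ v.1 ⧸ GZ v.1,
        h (nb Φ v y ((alpha v.1 1)⁻¹ • c))
          (γ ^ Function.minimalPeriod (fun c => locZ Φ v y γ • c) ((alpha v.1 1)⁻¹ • c)) =
        eig m κ (v, 1) * h (nb Φ v y c)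
          (γ ^ Function.minimalPeriod (fun c => locZ Φ v y γ • c) c) := by
      intro c
      rw [hmp c, ← hrinv v _ _ (TCA_stab_nb hΦ v hγ c)]
      have e4 : ((alpha v.1 1)⁻¹ • c : GQ v.1 ⧸ GZ v.1) =
          ((Quotient.out c * (alpha v.1 1)⁻¹ : GQ v.1) : GQ v.1 ⧸ GZ v.1) := by
        have hcm : Quotient.out c * (alpha v.1 1)⁻¹ = (alpha v.1 1)⁻¹ * Quotient.out c :=
          ((show Commute (alpha v.1 1) (Quotient.out c) from
            Pool.Agent.CG2.HR_alpha_comm v.1 1 (by decide) _).inv_left).eq.symm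
        have e5 : ((Quotient.out c : GQ v.1) : GQ v.1 ⧸ GZ v.1) = c := Quotient.out_eq' _
        rw [hcm]
        conv_lhs => rw [← e5]
        rfl
      obtain ⟨k, hk, hout⟩ := TCA_out _ _ e4
      rw [nb, hout, map_mul, rt_mul, hGZ v _ _ k hk, map_mul, rt_mul]
      rfl
    change _ = ∑ c ∈ R, h (nb Φ v y ((alpha v.1 1)⁻¹ • c))
          (γ ^ Function.minimalPeriod (fun c => locZ Φ v y γ • c) ((alpha v.1 1)⁻¹ • c)) at e1
    simp only [e3] at e1
    rw [← Finset.mul_sum] at e1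
    rw [mul_comm (eig m κ (v, 0)), mul_assoc, e1, inv_mul_cancel_left₀ (hr0 v)]
  · by_contra hc
    push Not at hc
    obtain ⟨z, hz⟩ := hφ0
    apply hz
    refine TCA_span φ hφs _ ?_ z (Br_span T hK ω hω n hn z)
    rintro _ ⟨y, γ, hγ, rfl⟩
    have := hc y γ hγ
    simp only at this
    rw [hh] at this
    exact this

end Pool.Agent.CGQ
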