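import Pool.Agent.CGQ.AGA
import Pool.Agent.CGQ.EFin0
import Pool.Agent.CGQ.LEF
import Pool.Agent.CGQ.LEA
import Pool.Agent.CGQ.LEC
import Pool.Agent.CGQ.TCA

/-!
# Assembly: the localisations with trivial coefficients in the degrees `0, 1, d - 1, d`
-/

noncomputable section

namespace Pool.Agent.CGQ

open NumberField IsDedekindDomain Matrix
open Pool.Agent.CG2 (Pl Fv Ov GQ GZ GalF Fbar Zbar Over IsInertia IsFrob NonEisenstein Nm r1 r2)

variable {F : Type} [Field F] [NumberField F]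

/-- **AGB0.** The eigenvalue in the algebraic closure. -/
theorem eig_bar {S : Set (Pl F)} {O : Type} [CommRing O] (m : Ideal (HeckeAlg S O)) (k : Type)
    [Field k] [Algebra (HeckeAlg S O ⧸ m) k] (t : Idx S) :
    eig m (AlgebraicClosure k) t = algebraMap k (AlgebraicClosure k) (eig m k t) := by
  rw [eig, eig, IsScalarTower.algebraMap_apply (HeckeAlg S O ⧸ m) k (AlgebraicClosure k)]

variable {q : Qd F} {S : Set (Pl F)} {φ : Spl q S} {K : Subgroup (sysD q).A}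
  {O : Type} [CommRing O]

/-- **AGB1.** Degree zero.
PROOF. By contradiction: `¬ Dead`. `CharP k p` and `CharP (AlgebraicClosure k) p` by
`char_of_not_dead`. `exists_twist`, `exists_list` for `ρ'` (a subgroup `ρ'.ker` which is open);
`exists_ptfam` over `κ = AlgebraicClosure k`: `E`, `y`, `E.h y ≠ 0`. `exists_generic0` for `y`:
`L`, `ι`, `e`. `PtFam.exists_eig` is an eigenfamily for `γ = 1 = uD ι 1`; `not_ne_of_eig` with `u = 1`,
`η = 1`, first case of `hlr` by `eig_bar`; independence from that of `exists_generic0`. -/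
theorem dead_zero [IsLocalRing O] (hdiv : ∀ x : DF q, x ≠ 0 → IsUnit x)
    (hr : 1 ≤ Nat.card (SPl q) + r2 F) {p : ℕ} [Fact p.Prime] (hS : S.Finite)
    (hstd : Std (chartD φ)) (hK : OC K) (hΦ : HypOff K (chartD φ))
    [CharP (IsLocalRing.ResidueField O) p]
    (hfin : Module.Finite O (groupCohomology
      (coeff K (triv K O (IsLocalRing.ResidueField O))) 0))
    (m : Ideal (HeckeAlg S O)) [m.IsMaximal] (k : Type) [Field k]
    [Algebra (HeckeAlg S O ⧸ m) k] (ρ : GalF F →* GL (Fin 2) k) (hA : AttachedQ m k ρ)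
    (hne : NonEisenstein ρ) :
    Dead K (triv K O (IsLocalRing.ResidueField O)) (unram_triv hΦ) 0 m := by
  by_contra hm
  have hp : p.Prime := Fact.out
  have hc1 : CharP k p := char_of_not_dead hp hΦ 0 m hm k
  have hc2 : CharP (AlgebraicClosure k) p := char_of_not_dead hp hΦ 0 m hm (AlgebraicClosure k)
  obtain ⟨ε, ρ', hopen, hne', hfrob⟩ := exists_twist hA
  obtain ⟨D, hD1, hD2⟩ := exists_list ρ' hopen hp
  obtain ⟨E, y, hy⟩ := exists_ptfam hΦ hfin m hm (AlgebraicClosure k)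
  obtain ⟨L, iF, iN, iA, ι, e, hL, hLD, he, hind⟩ := exists_generic0 hdiv hr hK y D hD1
  have h1 : uD ι (1 : (𝓞 L)ˣ) = 1 := map_one _
  obtain ⟨E', hE'⟩ : ∃ E' : EigFam K (chartD φ) (AlgebraicClosure k) 1 (uD ι (1 : (𝓞 L)ˣ))
      (fun v => eig m (AlgebraicClosure k) (v, 0)) (fun v => eig m (AlgebraicClosure k) (v, 1)),
      ∀ y n, E'.h y n = E.h y := by
    rw [h1]
    exact E.exists_eig
  refine not_ne_of_eig (p := p) hS hK hΦ hstd (fun v => eig m k (v, 0)) (fun v => eig m k (v, 1))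
    _ _ (Or.inl fun v => ⟨eig_bar m k (v, 0), eig_bar m k (v, 1)⟩) ε ρ' hopen hfrob hD2 hL hLD ι 1 e
    y (by rw [h1]; exact (Stab K y).one_mem) he ?_ 1 (fun _ _ => rfl) (fun _ _ => rfl) E'
    (by rw [hE']; exact hy) (hne' hne)
  intro c hc a b hab
  refine hind c hc a ?_
  rw [hab]
  simp

/-- **AGB2.** Degree one. PROOF. As `dead_zero` with `exists_bigfam`: `E`, `y`, `γ ∈ Stab K y`,
`E.h y γ ≠ 0`; `exists_generic` with `h = E.h y`, `c₀ = γ`; `BigFam.exists_eig` for `uD ι u`,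
`E'.h y 1 = E.h y (uD ι u) = E.h y γ ≠ 0`. -/
theorem dead_one [IsLocalRing O] (hdiv : ∀ x : DF q, x ≠ 0 → IsUnit x)
    (hr : 2 ≤ Nat.card (SPl q) + r2 F) {p : ℕ} [Fact p.Prime] (hS : S.Finite)
    (hstd : Std (chartD φ)) (hK : OC K) (hΦ : HypOff K (chartD φ))
    [CharP (IsLocalRing.ResidueField O) p]
    (hfin : Module.Finite O (groupCohomology
      (coeff K (triv K O (IsLocalRing.ResidueField O))) 1))
    (m : Ideal (HeckeAlg S O)) [m.IsMaximal] (k : Type) [Field k]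
    [Algebra (HeckeAlg S O ⧸ m) k] (ρ : GalF F →* GL (Fin 2) k) (hA : AttachedQ m k ρ)
    (hne : NonEisenstein ρ) :
    Dead K (triv K O (IsLocalRing.ResidueField O)) (unram_triv hΦ) 1 m := by
  by_contra hm
  have hp : p.Prime := Fact.out
  have hc1 : CharP k p := char_of_not_dead hp hΦ 1 m hm k
  have hc2 : CharP (AlgebraicClosure k) p := char_of_not_dead hp hΦ 1 m hm (AlgebraicClosure k)
  obtain ⟨ε, ρ', hopen, hne', hfrob⟩ := exists_twist hA
  obtain ⟨D, hD1, hD2⟩ := exists_list ρ' hopen hp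
  obtain ⟨E, y, γ, hγ, hy⟩ := exists_bigfam hΦ hfin m hm (AlgebraicClosure k)
  obtain ⟨L, iF, iN, iA, ι, u, e, hL, hLD, hu, hhu, he, hhe, hind⟩ :=
    exists_generic hdiv hr hK y (p := p) (k := AlgebraicClosure k) (h := E.h y)
      (fun a ha b hb => E.h_mul y a ha b hb) γ hγ D hD1
  obtain ⟨E', hE'⟩ := E.exists_eig hΦ (uD ι u)
  refine not_ne_of_eig (p := p) hS hK hΦ hstd (fun v => eig m k (v, 0)) (fun v => eig m k (v, 1))
    _ _ (Or.inl fun v => ⟨eig_bar m k (v, 0), eig_bar m k (v, 1)⟩) ε ρ' hopen hfrob hD2 hL hLD ι u e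
    y hu he hind 1 (fun _ _ => rfl) (fun _ _ => rfl) E' ?_ (hne' hne)
  rw [hE' y 1 (by rw [pow_one]; exact hu), pow_one, hhu]
  exact hy

private theorem agb_lr [IsLocalRing O] (hΦ : HypOff K (chartD φ)) (i : ℕ)
    (m : Ideal (HeckeAlg S O)) [m.IsMaximal]
    (hm : ¬ Dead K (triv K O (IsLocalRing.ResidueField O)) (unram_triv hΦ) i m)
    (k : Type) [Field k] [Algebra (HeckeAlg S O ⧸ m) k] (v : {v : Pl F // v ∉ S}) :
    eig m (AlgebraicClosure k) (v, 0) * (eig m (AlgebraicClosure k) (v, 1))⁻¹ *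
        algebraMap k (AlgebraicClosure k) (eig m k (v, 1)) =
          algebraMap k (AlgebraicClosure k) (eig m k (v, 0)) ∧
      (eig m (AlgebraicClosure k) (v, 1))⁻¹ *
        algebraMap k (AlgebraicClosure k) (eig m k (v, 1)) = 1 := by
  have h1 := eig_one_mul (unram_triv hΦ) i m hm (AlgebraicClosure k) v
  have h2 : eig m (AlgebraicClosure k) (v, 1) ≠ 0 := left_ne_zero_of_mul_eq_one h1
  rw [← eig_bar m k (v, 1), ← eig_bar m k (v, 0)]
  exact ⟨by rw [mul_assoc, inv_mul_cancel₀ h2, mul_one], inv_mul_cancel₀ h2⟩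

/-- **AGB3.** The top degree. PROOF. As `dead_zero` with `exists_top_fam`, `η = T.ε` (`eps_stab`, `hε`), second
case of `hlr`: `eig (v, 1) ≠ 0` by `eig_one_mul`. -/
theorem dead_top [IsNoetherianRing O] [IsLocalRing O] (T : TSys K)
    (hε : ∀ γ, (sysD q).sgn γ = 1 → T.ε γ = 1) (hdiv : ∀ x : DF q, x ≠ 0 → IsUnit x)
    (hr : 1 ≤ Nat.card (SPl q) + r2 F) {p : ℕ} [Fact p.Prime] (hS : S.Finite)
    (hstd : Std (chartD φ)) (hK : OC K) (hΦ : HypOff K (chartD φ))
    [CharP (IsLocalRing.ResidueField O) p]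
    (m : Ideal (HeckeAlg S O)) [m.IsMaximal] (k : Type) [Field k]
    [Algebra (HeckeAlg S O ⧸ m) k] (ρ : GalF F →* GL (Fin 2) k) (hA : AttachedQ m k ρ)
    (hne : NonEisenstein ρ) :
    Dead K (triv K O (IsLocalRing.ResidueField O)) (unram_triv hΦ) T.C.n0 m := by
  by_contra hm
  have hp : p.Prime := Fact.out
  have hc1 : CharP k p := char_of_not_dead hp hΦ T.C.n0 m hm k
  have hc2 : CharP (AlgebraicClosure k) p :=
    char_of_not_dead hp hΦ T.C.n0 m hm (AlgebraicClosure k)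
  obtain ⟨ε, ρ', hopen, hne', hfrob⟩ := exists_twist hA
  obtain ⟨D, hD1, hD2⟩ := exists_list ρ' hopen hp
  obtain ⟨E, y, hy⟩ := exists_top_fam T hK hΦ m hm (AlgebraicClosure k)
  obtain ⟨L, iF, iN, iA, ι, e, hL, hLD, he, hind⟩ := exists_generic0 hdiv hr hK y D hD1
  have h1 : uD ι (1 : (𝓞 L)ˣ) = 1 := map_one _
  obtain ⟨E', hE'⟩ : ∃ E' : EigFam K (chartD φ) (AlgebraicClosure k) T.ε (uD ι (1 : (𝓞 L)ˣ))
      (fun v => eig m (AlgebraicClosure k) (v, 0) * (eig m (AlgebraicClosure k) (v, 1))⁻¹)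
      (fun v => (eig m (AlgebraicClosure k) (v, 1))⁻¹),
      ∀ y n, E'.h y n = E.h y := by
    rw [h1]
    exact E.exists_eig
  have hlr := agb_lr hΦ T.C.n0 m hm k
  refine not_ne_of_eig (p := p) hS hK hΦ hstd (fun v => eig m k (v, 0)) (fun v => eig m k (v, 1))
    _ _ (Or.inr hlr) ε ρ' hopen hfrob hD2 hL hLD ι 1 e
    y (by rw [h1]; exact (Stab K y).one_mem) he ?_ T.ε (fun _ h => eps_stab T h) hε E'
    (by rw [hE']; exact hy) (hne' hne)
  intro c hc a b hab
  refine hind c hc a ?_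
  rw [hab]
  simp

/-- **AGB4.** One below the top degree. PROOF. As `dead_one` with `exists_sub_fam`, and as
`dead_top`. -/
theorem dead_sub [IsNoetherianRing O] [IsLocalRing O] (T : TSys K)
    (hε : ∀ γ, (sysD q).sgn γ = 1 → T.ε γ = 1) (hdiv : ∀ x : DF q, x ≠ 0 → IsUnit x)
    (hr : 2 ≤ Nat.card (SPl q) + r2 F) {p : ℕ} [Fact p.Prime] (hS : S.Finite)
    (hstd : Std (chartD φ)) (hK : OC K) (hTF : TorsionFree K) (hΦ : HypOff K (chartD φ))
    [CharP (IsLocalRing.ResidueField O) p] (n : ℕ) (hn : n + 1 = T.C.n0)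
    (m : Ideal (HeckeAlg S O)) [m.IsMaximal] (k : Type) [Field k]
    [Algebra (HeckeAlg S O ⧸ m) k] (ρ : GalF F →* GL (Fin 2) k) (hA : AttachedQ m k ρ)
    (hne : NonEisenstein ρ) :
    Dead K (triv K O (IsLocalRing.ResidueField O)) (unram_triv hΦ) n m := by
  by_contra hm
  have hp : p.Prime := Fact.out
  have hc1 : CharP k p := char_of_not_dead hp hΦ n m hm k
  have hc2 : CharP (AlgebraicClosure k) p := char_of_not_dead hp hΦ n m hm (AlgebraicClosure k)
  obtain ⟨ε, ρ', hopen, hne', hfrob⟩ := exists_twist hA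
  obtain ⟨D, hD1, hD2⟩ := exists_list ρ' hopen hp
  obtain ⟨E, y, γ, hγ, hy⟩ := exists_sub_fam T hK hTF hΦ n hn m hm (AlgebraicClosure k)
  obtain ⟨L, iF, iN, iA, ι, u, e, hL, hLD, hu, hhu, he, hhe, hind⟩ :=
    exists_generic hdiv hr hK y (p := p) (k := AlgebraicClosure k) (h := E.h y)
      (fun a ha b hb => E.h_mul y a ha b hb) γ hγ D hD1
  obtain ⟨E', hE'⟩ := E.exists_eig hΦ (uD ι u)
  have hlr := agb_lr hΦ n m hm k
  refine not_ne_of_eig (p := p) hS hK hΦ hstd (fun v => eig m k (v, 0)) (fun v => eig m k (v, 1))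
    _ _ (Or.inr hlr) ε ρ' hopen hfrob hD2 hL hLD ι u e
    y hu he hind T.ε (fun _ h => eps_stab T h) hε E' ?_ (hne' hne)
  rw [hE' y 1 (by rw [pow_one]; exact hu), pow_one, hhu]
  exact hy

end Pool.Agent.CGQ
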