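import Pool.Agent.CGQ.CBase

/-!
# Devissage: induced modules
-/

noncomputable section

namespace Pool.Agent.CGQ

open CategoryTheory NumberField IsDedekindDomain
open Pool.Agent.CG2 (Pl GQ GZ subRep quoRep cosets_finite)

variable {F : Type} [Field F] [NumberField F] {𝒟 : Sys F} {S : Set (Pl F)} {Φ : Chart 𝒟 S}
variable {K K' : Subgroup 𝒟.A} {O : Type} [CommRing O]

/-- **CEB1.** The induced module is unramified.
PROOF. `k = single v k₀`, `Φ.e v k₀ ∈ GZ`: `(indRep τ k f) c = τ k (f (k⁻¹ • c))`, `τ k = 1` by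
`(hU v).triv`; `k⁻¹ • c = c`: take the representative `κ` of `c` with `κ.1.1 v = 1`
(`exists_rep` in SysTrace.lean, used as in `tr_hecke`), then `k⁻¹ κ = κ k⁻¹` (`single_comm'`) and
`k⁻¹ ∈ K'`. -/
theorem unram_ind {W : Type} [AddCommGroup W] [Module O W] (h : K' ≤ K)
    {τ : Representation O K W} (hU : UnramOff K τ Φ) (hK' : HypOff K' Φ) :
    UnramOff K (indRep K' τ) Φ := by
  intro v
  refine ⟨(hU v).hyp, fun k hk => ?_⟩
  apply LinearMap.ext
  intro f
  funext c
  obtain ⟨κ, rfl, hκ⟩ := exists_rep (K := K) (K' := K') (v := v.1)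
    (fun k hk => (hK' v).mem _ ((hU v).hyp.le k hk)) h c
  rw [indRep_apply, (hU v).triv k hk]
  change f ((((⟨single v.1 k, (hU v).hyp.mem k hk⟩ : K)⁻¹ * κ : K) : Qt K K')) =
    f ((κ : K) : Qt K K')
  congr 1
  apply QuotientGroup.eq.2
  change (((⟨single v.1 k, (hU v).hyp.mem k hk⟩ : K)⁻¹ * κ)⁻¹ * κ : K).1 ∈ K'
  have h1 : (((⟨single v.1 k, (hU v).hyp.mem k hk⟩ : K)⁻¹ * κ)⁻¹ * κ : K).1 = single v.1 k := by
    change ((single v.1 k)⁻¹ * κ.1)⁻¹ * κ.1 = single v.1 k
    rw [_root_.mul_inv_rev, inv_inv, mul_assoc, ← single_comm' k hκ, inv_mul_cancel_left]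
  rw [h1]
  exact (hK' v).mem k hk

/-- **CEB2.** The isomorphism `toInd` commutes with the Hecke operators. PROOF. As `tr_hecke` in
SysTrace.lean (which is the same without the sum over `c`). -/
theorem toInd_hecke {W : Type} [AddCommGroup W] [Module O W] (h : K' ≤ K)
    (τ : Representation O K W) (hU : UnramOff K τ Φ) (hU' : UnramOff K' (resRep h τ) Φ)
    (hUi : UnramOff K (indRep K' τ) Φ) (t : Idx S) :
    toInd h τ ≫ heckeHom K (indRep K' τ) hUi t =
      heckeHom K' (resRep h τ) hU' t ≫ toInd h τ := by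
  apply Rep.hom_ext
  apply Representation.IntertwiningMap.ext
  apply LinearMap.ext
  intro f
  apply Subtype.ext
  funext y c
  change (∑ a ∈ (cosets_finite t.1.1 t.2).toFinset,
      (fun c : Qt K K' => trTerm h τ f (rt y (sg Φ t.1 (Quotient.out a))) c)) c =
    trTerm h τ (heckeLin K' (resRep h τ) hU' t f) y c
  rw [Finset.sum_apply]
  obtain ⟨κ, rfl, hκ⟩ := exists_rep (K := K) (K' := K') (v := t.1.1)
    (fun k hk => (hU' t.1).hyp.mem _ ((hU t.1).hyp.le k hk)) h c
  rw [trTerm_mk]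
  change _ = τ κ (∑ a ∈ (cosets_finite t.1.1 t.2).toFinset,
    (f : Forms K' (resRep h τ)).1 (rt (rt y κ.1) (sg Φ t.1 (Quotient.out a))))
  rw [map_sum]
  refine Finset.sum_congr rfl fun a _ => ?_
  refine (trTerm_mk h τ (f : Forms K' (resRep h τ)) _ κ).trans ?_
  rw [← rt_mul, ← rt_mul, sg_apply, single_comm' _ hκ]

/-- **CEB3.** The localisation for the induced module. PROOF. `z = toInd (ofInd z)`
(`ofInd_toInd`, `mapCoh_comp`, `mapCoh_id`), `t (ofInd z) = 0`, `hact_comm` with `toInd_hecke`. -/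
theorem dead_ind {W : Type} [AddCommGroup W] [Module O W] (h : K' ≤ K)
    (τ : Representation O K W) (hU : UnramOff K τ Φ) (hU' : UnramOff K' (resRep h τ) Φ)
    (hUi : UnramOff K (indRep K' τ) Φ) (i : ℕ) (m : Ideal (HeckeAlg S O))
    (hd : Dead K' (resRep h τ) hU' i m) : Dead K (indRep K' τ) hUi i m := by
  intro z
  obtain ⟨t, ht, ht0⟩ := hd (mapCoh (ofInd h τ) i z)
  refine ⟨t, ht, ?_⟩
  have h1 : z = mapCoh (toInd h τ) i (mapCoh (ofInd h τ) i z) := by
    rw [← mapCoh_comp, ofInd_toInd, mapCoh_id]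
  rw [h1, ← hact_comm (resRep h τ) (indRep K' τ) hU' hUi (toInd h τ)
    (toInd_hecke h τ hU hU' hUi) i t, ht0, map_zero]

/-- **CEB4.** Constant coefficients killed by the maximal ideal. PROOF. `exists_coord` gives
`id = ∑ ι j ∘ π j`; for `z` choose `t j ∉ m` with `t j (π j z) = 0` and `t = ∏ t j`
(`Ideal.IsPrime`, as `Finset.prod`), `t z = ∑ ι j (t (π j z)) = 0` (`cohMap_id`, `cohMap_sum`,
`cohMap_comp`, `cohMap_hecke`); compare `top_const` in CG2/TopRed.lean. -/
theorem dead_const [IsLocalRing O] {V : Type} [AddCommGroup V] [Module O V] [Module.Finite O V]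
    (hV : ∀ a ∈ IsLocalRing.maximalIdeal O, ∀ v : V, a • v = 0) (hK : HypOff K Φ)
    (σ : Representation O K V) (hσ : ∀ k v, σ k v = v) (hU : UnramOff K σ Φ) (i : ℕ)
    (m : Ideal (HeckeAlg S O)) [m.IsPrime]
    (hd : Dead K (triv K O (IsLocalRing.ResidueField O)) (unram_triv hK) i m) :
    Dead K σ hU i m := by
  obtain ⟨r, ι, π, hrep⟩ := exists_coord (O := O) (V := V) hV
  have hι : ∀ j, ∀ (k : K) (w : IsLocalRing.ResidueField O),
      ι j ((triv K O (IsLocalRing.ResidueField O)) k w) = σ k (ι j w) := by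
    intro j k w
    rw [hσ]
    rfl
  have hπ : ∀ j, ∀ (k : K) (w : V),
      π j (σ k w) = (triv K O (IsLocalRing.ResidueField O)) k (π j w) := by
    intro j k w
    rw [hσ]
    rfl
  have hc : ∀ j, ∀ (k : K) (w : V), (ι j ∘ₗ π j) (σ k w) = σ k ((ι j ∘ₗ π j) w) := by
    intro j k w
    rw [hσ, hσ]
  have hid : ∀ (k : K) (w : V), (LinearMap.id : V →ₗ[O] V) (σ k w) =
      σ k ((LinearMap.id : V →ₗ[O] V) w) := fun k w => rfl
  intro z
  choose t ht ht0 using fun j => hd (cohMap σ (triv K O (IsLocalRing.ResidueField O)) (π j)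
    (hπ j) i z)
  have hz : z = ∑ j, cohMap (triv K O (IsLocalRing.ResidueField O)) σ (ι j) (hι j) i
      (cohMap σ (triv K O (IsLocalRing.ResidueField O)) (π j) (hπ j) i z) := by
    have h1 := cohMap_sum σ σ Finset.univ (fun j => ι j ∘ₗ π j) hc LinearMap.id hid
      (fun w => by
        rw [LinearMap.id_apply]
        exact hrep w) i z
    rw [cohMap_id] at h1
    refine h1.trans (Finset.sum_congr rfl fun j _ => ?_)
    exact cohMap_comp σ (triv K O (IsLocalRing.ResidueField O)) σ (π j) (hπ j) (ι j) (hι j)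
      (hc j) i z
  have hprod : ∀ j, hact K (triv K O (IsLocalRing.ResidueField O)) (unram_triv hK) i (∏ j, t j)
      (cohMap σ (triv K O (IsLocalRing.ResidueField O)) (π j) (hπ j) i z) = 0 := by
    intro j
    rw [← Finset.prod_erase_mul Finset.univ t (Finset.mem_univ j), map_mul,
      Module.End.mul_apply, ht0, map_zero]
  refine ⟨∏ j, t j, fun hmem => ?_, ?_⟩
  · obtain ⟨j, _, hj⟩ := (Ideal.IsPrime.prod_mem_iff (p := m)).1 hmem
    exact ht j hj
  · rw [hz, map_sum]
    refine Finset.sum_eq_zero fun j _ => ?_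
    rw [← cohMap_hecke _ _ (unram_triv hK) hU (ι j) (hι j), hprod j, map_zero]

end Pool.Agent.CGQ
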