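import Pool.Agent.CGQ.CBase

/-!
# Devissage: a normal subgroup which acts trivially
-/

noncomputable section

namespace Pool.Agent.CGQ

open CategoryTheory NumberField IsDedekindDomain
open Pool.Agent.CG2 (Pl GQ GZ subRep quoRep)

variable {F : Type} [Field F] [NumberField F] {𝒟 : Sys F} {S : Set (Pl F)} {Φ : Chart 𝒟 S}
variable {K K₀ : Subgroup 𝒟.A} {O : Type} [CommRing O]

private theorem cec_core {K L : Subgroup 𝒟.A} (hK : OC K) (hL : OC L) (hLK : L ≤ K) :
    ∃ K'' : Subgroup 𝒟.A, OC K'' ∧ ∀ k, k ∈ K'' ↔ ∀ κ ∈ K, κ⁻¹ * k * κ ∈ L := by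
  obtain ⟨Φ, hΦ, h⟩ := hK.cover hL 1
  obtain ⟨K'', h1, h2⟩ := AdFin_iInf hL (Φ ∩ K) (hΦ.subset Set.inter_subset_left)
  refine ⟨K'', h1, fun k => ?_⟩
  rw [h2]
  constructor
  · rintro ⟨_, h3⟩ κ hκ
    obtain ⟨φ, hφ, l, hl, hκφ⟩ := h κ hκ
    rw [mul_one] at hκφ
    have hφK : φ ∈ K := by
      have : φ = κ * l⁻¹ := by rw [hκφ]; group
      rw [this]
      exact K.mul_mem hκ (K.inv_mem (hLK hl))
    have h4 := h3 φ ⟨hφ, hφK⟩
    have h5 : κ⁻¹ * k * κ = l⁻¹ * (φ⁻¹ * k * φ) * l := by rw [hκφ]; group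
    rw [h5]
    exact L.mul_mem (L.mul_mem (L.inv_mem hl) h4) hl
  · intro h3
    refine ⟨?_, fun φ hφ => h3 φ hφ.2⟩
    have := h3 1 K.one_mem
    rwa [inv_one, one_mul, mul_one] at this

/-- the subgroup of the elements of `K ⊓ K₀` which act trivially -/
private def cec_ker {W : Type} [AddCommGroup W] [Module O W] (τ : Representation O K W)
    (K₀ : Subgroup 𝒟.A) : Subgroup 𝒟.A where
  carrier := {k | ∃ hk : k ∈ K, k ∈ K₀ ∧ τ ⟨k, hk⟩ = 1}
  mul_mem' := by
    rintro a b ⟨ha, ha', ha''⟩ ⟨hb, hb', hb''⟩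
    refine ⟨K.mul_mem ha hb, K₀.mul_mem ha' hb', ?_⟩
    have h1 : (⟨a * b, K.mul_mem ha hb⟩ : K) = ⟨a, ha⟩ * ⟨b, hb⟩ := rfl
    rw [h1, map_mul, ha'', hb'', mul_one]
  one_mem' := ⟨K.one_mem, K₀.one_mem, map_one τ⟩
  inv_mem' := by
    rintro a ⟨ha, ha', ha''⟩
    refine ⟨K.inv_mem ha, K₀.inv_mem ha', ?_⟩
    have h1 : (⟨a⁻¹, K.inv_mem ha⟩ : K) * ⟨a, ha⟩ = 1 := by
      apply Subtype.ext
      exact inv_mul_cancel a
    have h2 := congrArg τ h1
    rw [map_mul, ha'', mul_one, map_one] at h2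
    exact h2

/-- the elements of `L` with components in given subgroups -/
private def cec_cut (L : Subgroup 𝒟.A) (U : ∀ v : Pl F, Subgroup (𝒟.L v)) : Subgroup 𝒟.A where
  carrier := {k | k ∈ L ∧ ∀ v, k.1 v ∈ U v}
  mul_mem' := by
    rintro a b ⟨ha, ha'⟩ ⟨hb, hb'⟩
    exact ⟨L.mul_mem ha hb, fun v => (U v).mul_mem (ha' v) (hb' v)⟩
  one_mem' := ⟨L.one_mem, fun v => (U v).one_mem⟩
  inv_mem' := by
    rintro a ⟨ha, ha'⟩
    exact ⟨L.inv_mem ha, fun v => (U v).inv_mem (ha' v)⟩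

private theorem cec_cut_OC {L : Subgroup 𝒟.A} (hL : OC L) (U : ∀ v : Pl F, Subgroup (𝒟.L v))
    (hU : ∀ v, IsOpen (U v : Set (𝒟.L v))) (hUB : {v | ¬ 𝒟.B v ≤ U v}.Finite) :
    OC (cec_cut L U) := by
  obtain ⟨U', hU', hUS', hUK'⟩ := hL.op
  obtain ⟨C, hC, hCS, hCK⟩ := hL.cp
  refine ⟨⟨fun v => U v ⊓ U' v, fun v => ?_, ?_, fun k hk => ?_⟩,
    ⟨C, hC, hCS, fun k hk => ?_⟩⟩
  · rw [Subgroup.coe_inf]
    exact (hU v).inter (hU' v)
  · refine (hUB.union hUS').subset ?_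
    intro v hv
    by_contra h
    simp only [Set.mem_union, Set.mem_ofPred_eq, not_or, not_not] at h
    exact hv (le_inf h.1 h.2)
  · exact ⟨hUK' k fun v => (hk v).2, fun v => (hk v).1⟩
  · exact hCK k hk.1

/-- **CEC1.** A small normal subgroup which acts trivially.
PROOF. `L = {k ∈ K ⊓ K₀ | τ k = 1}` is open and compact by `OC.between` (it contains
`K ⊓ K₀ ∩ {k | ∀ v, k_v ∈ U v}`, `U` from `hsm`; for the lower bound define this subgroup, it is
`OC`), and contains `single v k` for `Φ.e v k ∈ GZ`. Now proceed as in `OC.core` (SysOC.lean): the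
core `K' = {k | ∀ κ ∈ K, κ⁻¹ k κ ∈ L}` is `OC` (`AdFin_iInf`, `OC.cover`). `HypOff K' Φ`: for `k`
with `Φ.e v k ∈ GZ` and `κ ∈ K`, `κ⁻¹ (single v k) κ = single v ((κ v)⁻¹ k (κ v))` and
`Φ.e v (κ v) ∈ GZ`. -/
theorem exists_ker {W : Type} [AddCommGroup W] [Module O W] (hK : OC K) (hK₀ : OC K₀)
    (hΦ : HypOff K Φ) (h₀ : ∀ (v : {v : Pl F // v ∉ S}) (k : 𝒟.L v.1), Φ.e v k ∈ GZ v.1 →
      single v.1 k ∈ K₀)
    (τ : Representation O K W) (hU : UnramOff K τ Φ) (hsm : Smooth K τ Φ) :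
    ∃ (K' : Subgroup 𝒟.A) (h : K' ≤ K), K' ≤ K₀ ∧ OC K' ∧ HypOff K' Φ ∧
      (∀ κ ∈ K, ∀ k ∈ K', κ⁻¹ * k * κ ∈ K') ∧ ∀ (k : K'), τ ⟨k.1, h k.2⟩ = 1 := by
  obtain ⟨U, hUo, hUB, hUG, hUt⟩ := hsm
  have hLK : cec_ker τ K₀ ≤ K := fun k hk => hk.1
  have hLOC : OC (cec_ker τ K₀) := by
    refine OC.between hK (cec_cut_OC (hK.inter hK₀) U hUo hUB) hLK ?_
    rintro k ⟨⟨hkK, hk₀⟩, hkU⟩
    refine ⟨hkK, hk₀, ?_⟩
    apply LinearMap.ext
    intro w
    have h1 := hUt ⟨k, hkK⟩ hkU w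
    rw [Submodule.bot_smul, Submodule.mem_bot, sub_eq_zero] at h1
    exact h1
  obtain ⟨K', hK'OC, hK'⟩ := cec_core hK hLOC hLK
  have hK'L : K' ≤ cec_ker τ K₀ := by
    intro k hk
    have h1 := (hK' k).1 hk 1 K.one_mem
    rwa [inv_one, one_mul, mul_one] at h1
  have hsingle : ∀ (v : {v : Pl F // v ∉ S}) (k : 𝒟.L v.1), Φ.e v k ∈ GZ v.1 →
      single v.1 k ∈ cec_ker τ K₀ := fun v k hk =>
    ⟨(hU v).hyp.mem k hk, h₀ v k hk, (hU v).triv k hk⟩
  refine ⟨K', fun k hk => hLK (hK'L hk), fun k hk => (hK'L hk).2.1, hK'OC, fun v => ⟨?_, ?_⟩,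
    ?_, fun k => ?_⟩
  · intro k hk
    exact (hΦ v).le k (hLK (hK'L hk))
  · intro k hk
    rw [hK']
    intro κ hκ
    have h1 : κ⁻¹ * single v.1 k * κ = single v.1 ((κ.1 v.1)⁻¹ * k * κ.1 v.1) := by
      apply Subtype.ext
      funext q
      by_cases hq : q = v.1
      · subst hq
        rw [single_same]
        change (κ.1 v.1)⁻¹ * (single v.1 k).1 v.1 * κ.1 v.1 = _
        rw [single_same]
      · rw [single_ne hq]
        change (κ.1 q)⁻¹ * (single v.1 k).1 q * κ.1 q = 1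
        rw [single_ne hq, mul_one, inv_mul_cancel]
    rw [h1]
    apply hsingle
    rw [map_mul, map_mul, map_inv]
    exact (GZ v.1).mul_mem ((GZ v.1).mul_mem ((GZ v.1).inv_mem ((hΦ v).le κ hκ)) hk)
      ((hΦ v).le κ hκ)
  · intro κ hκ k hk
    rw [hK'] at hk ⊢
    intro κ' hκ'
    have h1 := hk (κ * κ') (K.mul_mem hκ hκ')
    have h2 : κ'⁻¹ * (κ⁻¹ * k * κ) * κ' = (κ * κ')⁻¹ * k * (κ * κ') := by group
    rw [h2]
    exact h1
  · exact (hK'L k.2).2.2

/-- **CEC2.** A representation which is trivial on an open subgroup is smooth.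
PROOF. `K'.op` gives open `U₁ v`, almost all `⊇ B v`, with: all `k_v ∈ U₁ v` implies `k ∈ K'`. Take
`U v = {k | Φ.e v k ∈ GZ}` (the comap) for `v ∉ S` and `U v = U₁ v` for `v ∈ S`. Open: for `v ∉ S`
the comap contains `U₁ v ⊓ {x | single v x ∈ K'}`; simplest: `U₁ v ⊓ ...`; note `single v x ∈ K'` for
`x ∈ U₁ v` (all other components are `1`), so `U₁ v ≤` comap by `(hK' v).le`, and a subgroup
containing an open subgroup is open (`Subgroup.isOpen_mono`). Almost all contain `B v` for the same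
reason. If `k ∈ K` has all components in `U v`, then `k_v ∈ U₁ v` for almost all `v` (`k ∈ A` and
`B v ≤ U₁ v`); for the finitely many bad `v` (all `∉ S`) multiply `k` by `single v (k_v)⁻¹ ∈ K'`
(induction on the finite set of the bad places); the result has all components in `U₁`, so `k ∈ K'`
and `τ k = 1`. -/
theorem smooth_of_ker {W : Type} [AddCommGroup W] [Module O W] {K' : Subgroup 𝒟.A}
    (h : K' ≤ K) (hO : OC K') (hK' : HypOff K' Φ) (τ : Representation O K W)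
    (hτ : ∀ (k : K'), τ ⟨k.1, h k.2⟩ = 1) : Smooth K τ Φ := by
  classical
  obtain ⟨U₁, hU₁, hU₁S, hU₁K⟩ := hO.op
  let U : ∀ v : Pl F, Subgroup (𝒟.L v) := fun v =>
    if hv : v ∈ S then U₁ v else (GZ v).comap (Φ.e ⟨v, hv⟩).toMonoidHom
  have hUS : ∀ v, v ∈ S → U v = U₁ v := fun v hv => dif_pos hv
  have hUN : ∀ (v : {v : Pl F // v ∉ S}) (x : 𝒟.L v.1), x ∈ U v.1 ↔ Φ.e v x ∈ GZ v.1 := by
    intro v x
    have h1 : U v.1 = (GZ v.1).comap (Φ.e v).toMonoidHom := dif_neg v.2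
    rw [h1]
    rfl
  have hle : ∀ v, U₁ v ≤ U v := by
    intro v
    by_cases hv : v ∈ S
    · rw [hUS v hv]
    · intro x hx
      rw [hUN ⟨v, hv⟩ x]
      have h1 : single v x ∈ K' := by
        apply hU₁K
        intro q
        by_cases hq : q = v
        · subst hq
          rw [single_same]
          exact hx
        · rw [single_ne hq]
          exact (U₁ q).one_mem
      have h2 := (hK' ⟨v, hv⟩).le _ h1
      rwa [single_same] at h2
  have key : ∀ T : Finset (Pl F), ∀ k : 𝒟.A, (∀ v, k.1 v ∈ U v) →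
      (∀ v, k.1 v ∉ U₁ v → v ∈ T) → k ∈ K' := by
    intro T
    induction T using Finset.induction_on with
    | empty =>
      intro k _ hk
      apply hU₁K
      intro v
      by_contra hv
      exact absurd (hk v hv) (Finset.notMem_empty v)
    | insert v T hvT ih =>
      intro k hkU hk
      by_cases hv : v ∈ S
      · refine ih k hkU fun q hq => ?_
        rcases Finset.mem_insert.1 (hk q hq) with rfl | h
        · have h2 := hkU q
          rw [hUS q hv] at h2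
          exact absurd h2 hq
        · exact h
      · have hs : single v (k.1 v) ∈ K' :=
          (hK' ⟨v, hv⟩).mem (k.1 v) ((hUN ⟨v, hv⟩ _).1 (hkU v))
        have hcv : ((single v (k.1 v))⁻¹ * k : 𝒟.A).1 v = 1 := by
          change ((single v (k.1 v)).1 v)⁻¹ * k.1 v = 1
          rw [single_same, inv_mul_cancel]
        have hcq : ∀ q, q ≠ v → ((single v (k.1 v))⁻¹ * k : 𝒟.A).1 q = k.1 q := by
          intro q hq
          change ((single v (k.1 v)).1 q)⁻¹ * k.1 q = k.1 q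
          rw [single_ne hq, inv_one, one_mul]
        have h1 : (single v (k.1 v))⁻¹ * k ∈ K' := by
          refine ih _ (fun q => ?_) (fun q hq => ?_)
          · by_cases hq : q = v
            · subst hq
              rw [hcv]
              exact (U q).one_mem
            · rw [hcq q hq]
              exact hkU q
          · by_cases hq' : q = v
            · subst hq'
              rw [hcv] at hq
              exact absurd (U₁ q).one_mem hq
            · rw [hcq q hq'] at hq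
              rcases Finset.mem_insert.1 (hk q hq) with h | h
              · exact absurd h hq'
              · exact h
        have h2 := K'.mul_mem hs h1
        rwa [mul_inv_cancel_left] at h2
  refine ⟨U, fun v => Subgroup.isOpen_mono (hle v) (hU₁ v), ?_, ?_, ?_⟩
  · refine hU₁S.subset ?_
    intro v hv h1
    exact hv (h1.trans (hle v))
  · intro v k hk
    exact (hUN v k).2 hk
  · intro k hkU w
    have hfin : {v | k.1.1 v ∉ U₁ v}.Finite := by
      refine (hU₁S.union k.1.2).subset ?_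
      intro v hv
      by_contra h3
      simp only [Set.mem_union, Set.mem_ofPred_eq, not_or, not_not] at h3
      exact hv (h3.1 h3.2)
    have h1 : k.1 ∈ K' := key hfin.toFinset k.1 hkU (fun v hv => hfin.mem_toFinset.2 hv)
    have h2 : τ k = 1 := hτ ⟨k.1, h1⟩
    rw [h2, Submodule.bot_smul, Submodule.mem_bot]
    exact sub_self w

/-- **CEC3.** The normal subgroup acts trivially on the induced module. PROOF. `indRep_apply`;
`k⁻¹ • c = c` for `c = κ K'` since `κ⁻¹ k κ ∈ K'`. -/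
theorem ind_ker {W : Type} [AddCommGroup W] [Module O W] {K' : Subgroup 𝒟.A}
    (h : K' ≤ K) (τ : Representation O K W) (hn : ∀ κ ∈ K, ∀ k ∈ K', κ⁻¹ * k * κ ∈ K')
    (hτ : ∀ (k : K'), τ ⟨k.1, h k.2⟩ = 1) (k : K') : indRep K' τ ⟨k.1, h k.2⟩ = 1 := by
  apply LinearMap.ext
  intro f
  funext c
  induction c using QuotientGroup.induction_on with
  | H κ =>
    rw [indRep_apply, hτ k]
    change f ((((⟨k.1, h k.2⟩ : K)⁻¹ * κ : K) : Qt K K')) = f ((κ : K) : Qt K K')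
    congr 1
    apply QuotientGroup.eq.2
    change (((⟨k.1, h k.2⟩ : K)⁻¹ * κ)⁻¹ * κ : K).1 ∈ K'
    have h1 : (((⟨k.1, h k.2⟩ : K)⁻¹ * κ)⁻¹ * κ : K).1 = κ.1⁻¹ * k.1 * κ.1 := by
      change (k.1⁻¹ * κ.1)⁻¹ * κ.1 = _
      rw [_root_.mul_inv_rev, inv_inv]
    rw [h1]
    exact hn κ.1 κ.2 k.1 k.2

end Pool.Agent.CGQ
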