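import Pool.Agent.CG2.Hecke

/-!
# Quaternion algebras over topological rings
-/

noncomputable section

namespace Pool.Agent.CGQ

section top

variable {R : Type} [TopologicalSpace R] {a b c : R}

/-- The topology given by the coordinates. -/
instance topQ : TopologicalSpace (QuaternionAlgebra R a b c) :=
  TopologicalSpace.induced (QuaternionAlgebra.equivTuple a b c) inferInstance

theorem continuous_coord (i : Fin 4) :
    Continuous fun x : QuaternionAlgebra R a b c => QuaternionAlgebra.equivTuple a b c x i :=
  (continuous_apply i).comp continuous_induced_dom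

theorem continuous_re : Continuous fun x : QuaternionAlgebra R a b c => x.re :=
  continuous_coord 0

theorem continuous_imI : Continuous fun x : QuaternionAlgebra R a b c => x.imI :=
  continuous_coord 1

theorem continuous_imJ : Continuous fun x : QuaternionAlgebra R a b c => x.imJ :=
  continuous_coord 2

theorem continuous_imK : Continuous fun x : QuaternionAlgebra R a b c => x.imK :=
  continuous_coord 3

theorem continuous_q {X : Type} [TopologicalSpace X] {f : X → QuaternionAlgebra R a b c}
    (h0 : Continuous fun x => (f x).re) (h1 : Continuous fun x => (f x).imI)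
    (h2 : Continuous fun x => (f x).imJ) (h3 : Continuous fun x => (f x).imK) :
    Continuous f := by
  refine continuous_induced_rng.2 (continuous_pi fun i => ?_)
  fin_cases i
  · exact h0
  · exact h1
  · exact h2
  · exact h3

/-- The coordinates as a homeomorphism. -/
def homeoTuple (a b c : R) : QuaternionAlgebra R a b c ≃ₜ (Fin 4 → R) where
  toEquiv := QuaternionAlgebra.equivTuple a b c
  continuous_toFun := continuous_induced_dom
  continuous_invFun := by
    refine continuous_q ?_ ?_ ?_ ?_
    · exact continuous_apply 0
    · exact continuous_apply 1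
    · exact continuous_apply 2
    · exact continuous_apply 3

instance [T2Space R] : T2Space (QuaternionAlgebra R a b c) := (homeoTuple a b c).symm.t2Space

instance [CompactSpace R] : CompactSpace (QuaternionAlgebra R a b c) :=
  (homeoTuple a b c).symm.compactSpace

end top

section topring

variable {R : Type} [CommRing R] [TopologicalSpace R] [IsTopologicalRing R] {a b c : R}

instance : ContinuousMul (QuaternionAlgebra R a b c) where
  continuous_mul := by
    have e : ∀ (g : QuaternionAlgebra R a b c → R), Continuous g →
        Continuous fun x : QuaternionAlgebra R a b c × QuaternionAlgebra R a b c => g x.1 :=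
      fun g hg => hg.comp continuous_fst
    have e' : ∀ (g : QuaternionAlgebra R a b c → R), Continuous g →
        Continuous fun x : QuaternionAlgebra R a b c × QuaternionAlgebra R a b c => g x.2 :=
      fun g hg => hg.comp continuous_snd
    have a0 := e _ continuous_re
    have a1 := e _ continuous_imI
    have a2 := e _ continuous_imJ
    have a3 := e _ continuous_imK
    have b0 := e' _ continuous_re
    have b1 := e' _ continuous_imI
    have b2 := e' _ continuous_imJ
    have b3 := e' _ continuous_imK
    refine continuous_q ?_ ?_ ?_ ?_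
    · simp only [QuaternionAlgebra.re_mul]
      fun_prop
    · simp only [QuaternionAlgebra.imI_mul]
      fun_prop
    · simp only [QuaternionAlgebra.imJ_mul]
      fun_prop
    · simp only [QuaternionAlgebra.imK_mul]
      fun_prop

end topring

section map

variable {R S : Type} [CommRing R] [CommRing S] (f : R →+* S) (a b : R)

/-- The homomorphism of quaternion algebras given by a homomorphism of the rings of scalars. -/
def qmap : QuaternionAlgebra R a 0 b →+* QuaternionAlgebra S (f a) 0 (f b) where
  toFun x := ⟨f x.re, f x.imI, f x.imJ, f x.imK⟩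
  map_one' := by ext <;> simp
  map_zero' := by ext <;> simp
  map_add' x y := by ext <;> simp
  map_mul' x y := by ext <;> simp

@[simp] theorem qmap_re (x : QuaternionAlgebra R a 0 b) : (qmap f a b x).re = f x.re := rfl
@[simp] theorem qmap_imI (x : QuaternionAlgebra R a 0 b) : (qmap f a b x).imI = f x.imI := rfl
@[simp] theorem qmap_imJ (x : QuaternionAlgebra R a 0 b) : (qmap f a b x).imJ = f x.imJ := rfl
@[simp] theorem qmap_imK (x : QuaternionAlgebra R a 0 b) : (qmap f a b x).imK = f x.imK := rfl

end map

section nrd

variable {R : Type} [CommRing R] {a b : R}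

/-- The reduced norm. -/
def nrd (x : QuaternionAlgebra R a 0 b) : R :=
  x.re ^ 2 - a * x.imI ^ 2 - b * x.imJ ^ 2 + a * b * x.imK ^ 2

/-- The reduced trace. -/
def trd (x : QuaternionAlgebra R a 0 b) : R := 2 * x.re

theorem nrd_mul (x y : QuaternionAlgebra R a 0 b) : nrd (x * y) = nrd x * nrd y := by
  simp only [nrd, QuaternionAlgebra.re_mul, QuaternionAlgebra.imI_mul, QuaternionAlgebra.imJ_mul,
    QuaternionAlgebra.imK_mul]
  ring

@[simp] theorem nrd_one : nrd (1 : QuaternionAlgebra R a 0 b) = 1 := by simp [nrd]

@[simp] theorem nrd_zero : nrd (0 : QuaternionAlgebra R a 0 b) = 0 := by simp [nrd]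

theorem mul_star_nrd (x : QuaternionAlgebra R a 0 b) :
    x * star x = ((nrd x : R) : QuaternionAlgebra R a 0 b) := by
  ext <;> simp only [QuaternionAlgebra.re_mul, QuaternionAlgebra.imI_mul,
    QuaternionAlgebra.imJ_mul, QuaternionAlgebra.imK_mul, QuaternionAlgebra.re_star,
    QuaternionAlgebra.imI_star, QuaternionAlgebra.imJ_star, QuaternionAlgebra.imK_star,
    QuaternionAlgebra.re_coe, QuaternionAlgebra.imI_coe, QuaternionAlgebra.imJ_coe,
    QuaternionAlgebra.imK_coe, nrd] <;> ring

theorem star_mul_nrd (x : QuaternionAlgebra R a 0 b) :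
    star x * x = ((nrd x : R) : QuaternionAlgebra R a 0 b) := by
  ext <;> simp only [QuaternionAlgebra.re_mul, QuaternionAlgebra.imI_mul,
    QuaternionAlgebra.imJ_mul, QuaternionAlgebra.imK_mul, QuaternionAlgebra.re_star,
    QuaternionAlgebra.imI_star, QuaternionAlgebra.imJ_star, QuaternionAlgebra.imK_star,
    QuaternionAlgebra.re_coe, QuaternionAlgebra.imI_coe, QuaternionAlgebra.imJ_coe,
    QuaternionAlgebra.imK_coe, nrd] <;> ring

/-- The reduced norm as a homomorphism. -/
def nrdHom : QuaternionAlgebra R a 0 b →* R where
  toFun := nrd
  map_one' := nrd_one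
  map_mul' := nrd_mul

theorem isUnit_iff_nrd {K : Type} [Field K] {a b : K} (x : QuaternionAlgebra K a 0 b) :
    IsUnit x ↔ nrd x ≠ 0 := by
  constructor
  · intro h
    exact (h.map (nrdHom (a := a) (b := b))).ne_zero
  · intro h
    refine ⟨⟨x, ((nrd x)⁻¹ : K) • star x, ?_, ?_⟩, rfl⟩
    · rw [mul_smul_comm, mul_star_nrd]
      ext <;> simp [h]
    · rw [smul_mul_assoc, star_mul_nrd]
      ext <;> simp [h]

end nrd

end Pool.Agent.CGQ
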