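import Pool.Agent.CGQ.Sys
import Pool.Agent.CGQ.QAlg

/-!
# The multiplicative group of a quaternion algebra over a number field
-/

noncomputable section

namespace Pool.Agent.CGQ

open NumberField IsDedekindDomain
open Pool.Agent.CG2 (Pl Fv Ov)

/-- Two non-zero integers `a`, `b` of the number field `F`: the data of the quaternion algebra
with basis `1, i, j, ij` and `i² = a`, `j² = b`, `ij = -ji`. -/
structure Qd (F : Type) [Field F] [NumberField F] where
  /-- the square of `i` -/
  a : 𝓞 F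
  /-- the square of `j` -/
  b : 𝓞 F
  a_ne : a ≠ 0
  b_ne : b ≠ 0

variable {F : Type} [Field F] [NumberField F]

/-- The quaternion algebra over the `𝓞 F`-algebra `R`. -/
abbrev QA (q : Qd F) (R : Type) [CommRing R] [Algebra (𝓞 F) R] :=
  QuaternionAlgebra R (algebraMap (𝓞 F) R q.a) 0 (algebraMap (𝓞 F) R q.b)

/-- The quaternion algebra `D` over `F`. -/
abbrev DF (q : Qd F) := QA q F

/-- The quaternion algebra `D_v = D ⊗ F_v`. -/
abbrev DV (q : Qd F) (v : Pl F) := QA q (Fv v)

/-- Functoriality in `R`. -/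
def qam (q : Qd F) {R S : Type} [CommRing R] [CommRing S] [Algebra (𝓞 F) R] [Algebra (𝓞 F) S]
    (f : R →ₐ[𝓞 F] S) : QA q R →+* QA q S where
  toFun x := ⟨f x.re, f x.imI, f x.imJ, f x.imK⟩
  map_one' := by ext <;> simp
  map_zero' := by ext <;> simp
  map_add' x y := by ext <;> simp
  map_mul' x y := by ext <;> simp

section qam

variable (q : Qd F) {R S : Type} [CommRing R] [CommRing S] [Algebra (𝓞 F) R] [Algebra (𝓞 F) S]
  (f : R →ₐ[𝓞 F] S)

@[simp] theorem qam_re (x : QA q R) : (qam q f x).re = f x.re := rfl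
@[simp] theorem qam_imI (x : QA q R) : (qam q f x).imI = f x.imI := rfl
@[simp] theorem qam_imJ (x : QA q R) : (qam q f x).imJ = f x.imJ := rfl
@[simp] theorem qam_imK (x : QA q R) : (qam q f x).imK = f x.imK := rfl

theorem nrd_qam (x : QA q R) : nrd (qam q f x) = f (nrd x) := by
  simp [nrd]

end qam

/-- The embedding of `D` in `D_v`. -/
def dloc (q : Qd F) (v : Pl F) : DF q →+* DV q v := qam q (IsScalarTower.toAlgHom (𝓞 F) F (Fv v))

/-- The inclusion of `O_v` in `F_v`. -/
def ovHom (v : Pl F) : Ov v →ₐ[𝓞 F] Fv v :=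
  { algebraMap (Ov v) (Fv v) with commutes' := fun _ => rfl }

theorem ovHom_inj (v : Pl F) : Function.Injective (ovHom v) := Subtype.val_injective

/-- The embedding of the standard order over `O_v` in `D_v`. -/
def dint (q : Qd F) (v : Pl F) : QA q (Ov v) →+* DV q v := qam q (ovHom v)

/-- The unit group of the standard order with basis `1, i, j, ij` over `O_v`. -/
def BZ (q : Qd F) (v : Pl F) : Subgroup (DV q v)ˣ := (Units.map (dint q v : QA q (Ov v) →* DV q v)).range

/-- The coordinates of `x` are in `O_v`. -/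
def IntQ (q : Qd F) (v : Pl F) (x : DV q v) : Prop :=
  Valued.v x.re ≤ 1 ∧ Valued.v x.imI ≤ 1 ∧ Valued.v x.imJ ≤ 1 ∧ Valued.v x.imK ≤ 1

theorem dint_inj (q : Qd F) (v : Pl F) : Function.Injective (dint q v) := by
  intro x y h
  have h0 := congrArg QuaternionAlgebra.re h
  have h1 := congrArg QuaternionAlgebra.imI h
  have h2 := congrArg QuaternionAlgebra.imJ h
  have h3 := congrArg QuaternionAlgebra.imK h
  apply QuaternionAlgebra.ext
  · exact ovHom_inj v h0
  · exact ovHom_inj v h1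
  · exact ovHom_inj v h2
  · exact ovHom_inj v h3

theorem intQ_iff (q : Qd F) (v : Pl F) (x : DV q v) : IntQ q v x ↔ ∃ y, dint q v y = x := by
  constructor
  · rintro ⟨h0, h1, h2, h3⟩
    exact ⟨⟨⟨_, h0⟩, ⟨_, h1⟩, ⟨_, h2⟩, ⟨_, h3⟩⟩, rfl⟩
  · rintro ⟨y, rfl⟩
    exact ⟨y.re.2, y.imI.2, y.imJ.2, y.imK.2⟩

theorem mem_BZ_iff (q : Qd F) (v : Pl F) (g : (DV q v)ˣ) :
    g ∈ BZ q v ↔ IntQ q v g.1 ∧ IntQ q v (g⁻¹ : (DV q v)ˣ).1 := by
  constructor
  · rintro ⟨u, rfl⟩
    constructor
    · exact (intQ_iff q v _).2 ⟨u.1, rfl⟩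
    · rw [← map_inv]
      exact (intQ_iff q v _).2 ⟨(u⁻¹).1, rfl⟩
  · rintro ⟨h1, h2⟩
    obtain ⟨x, hx⟩ := (intQ_iff q v _).1 h1
    obtain ⟨y, hy⟩ := (intQ_iff q v _).1 h2
    refine ⟨⟨x, y, ?_, ?_⟩, ?_⟩
    · apply dint_inj q v
      rw [map_mul, hx, hy, map_one, Units.mul_inv]
    · apply dint_inj q v
      rw [map_mul, hx, hy, map_one, Units.inv_mul]
    · exact Units.ext hx

theorem isOpen_BZ (q : Qd F) (v : Pl F) : IsOpen (BZ q v : Set (DV q v)ˣ) := by
  have hb : IsOpen {x : Fv v | Valued.v x ≤ 1} := CG2.isOpen_val_le v 1 one_ne_zero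
  have h0 : IsOpen {x : DV q v | IntQ q v x} := by
    have h : {x : DV q v | IntQ q v x} = {x | Valued.v x.re ≤ 1} ∩ ({x | Valued.v x.imI ≤ 1} ∩
      ({x | Valued.v x.imJ ≤ 1} ∩ {x | Valued.v x.imK ≤ 1})) := by
      ext x
      rfl
    rw [h]
    exact (hb.preimage continuous_re).inter ((hb.preimage continuous_imI).inter
      ((hb.preimage continuous_imJ).inter (hb.preimage continuous_imK)))
  have h : (BZ q v : Set (DV q v)ˣ) = (fun g : (DV q v)ˣ => g.1) ⁻¹' {x | IntQ q v x} ∩
      (fun g : (DV q v)ˣ => (g⁻¹ : (DV q v)ˣ).1) ⁻¹' {x | IntQ q v x} := by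
    ext g
    exact mem_BZ_iff q v g
  rw [h]
  exact (h0.preimage Units.continuous_val).inter
    (h0.preimage (Units.continuous_val.comp continuous_inv))

theorem isCompact_BZ (q : Qd F) (v : Pl F) : IsCompact (BZ q v : Set (DV q v)ˣ) := by
  have h0 : CompactSpace (Ov v) := inferInstance
  have h1 : CompactSpace (QA q (Ov v)) := inferInstance
  have h2 : CompactSpace (QA q (Ov v))ˣ := inferInstance
  have h3 : (BZ q v : Set (DV q v)ˣ) =
      Set.range (Units.map (dint q v : QA q (Ov v) →* DV q v)) := rfl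
  rw [h3]
  have hc : Continuous (dint q v) := by
    have hcast : Continuous (ovHom v) := continuous_subtype_val
    exact continuous_q (hcast.comp continuous_re) (hcast.comp continuous_imI)
      (hcast.comp continuous_imJ) (hcast.comp continuous_imK)
  exact isCompact_range (Continuous.units_map _ hc)

theorem dloc_fin (q : Qd F) (x : DF q) : {v : Pl F | ¬ IntQ q v (dloc q v x)}.Finite := by
  have h := ((CG2.finite_val_gt x.re).union (CG2.finite_val_gt x.imI)).union
    ((CG2.finite_val_gt x.imJ).union (CG2.finite_val_gt x.imK))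
  refine h.subset ?_
  intro v hv
  by_contra hc
  simp only [Set.mem_union, Set.mem_ofPred_eq, not_or, not_not] at hc
  exact hv ⟨hc.1.1, hc.1.2, hc.2.1, hc.2.2⟩

/-- The real places of `F` where `D` is split. -/
def SPl (q : Qd F) : Type := {w : InfinitePlace F // ∃ h : w.IsReal,
  ¬ (InfinitePlace.embedding_of_isReal h (q.a : F) < 0 ∧
    InfinitePlace.embedding_of_isReal h (q.b : F) < 0)}

/-- The embedding given by such a place. -/
def SPl.emb {q : Qd F} (w : SPl q) : F →+* ℝ := InfinitePlace.embedding_of_isReal w.2.choose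

instance (q : Qd F) : Finite (SPl q) := Subtype.finite

theorem nrd_ne (q : Qd F) (γ : (DF q)ˣ) : nrd γ.1 ≠ 0 := (isUnit_iff_nrd γ.1).1 γ.isUnit

/-- The signs of the reduced norm at the real places where `D` is split. -/
def dsgn (q : Qd F) : (DF q)ˣ →* (SPl q → ℤˣ) where
  toFun γ w := if 0 < w.emb (nrd γ.1) then 1 else -1
  map_one' := by
    funext w
    simp
  map_mul' x y := by
    funext w
    have hx : w.emb (nrd x.1) ≠ 0 := fun h => nrd_ne q x ((map_eq_zero _).1 h)
    have hy : w.emb (nrd y.1) ≠ 0 := fun h => nrd_ne q y ((map_eq_zero _).1 h)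
    simp only [Units.val_mul, nrd_mul, map_mul, Pi.mul_apply]
    rcases lt_or_gt_of_ne hx with h1 | h1 <;> rcases lt_or_gt_of_ne hy with h2 | h2
    · rw [if_pos (mul_pos_of_neg_of_neg h1 h2), if_neg (not_lt.2 h1.le), if_neg (not_lt.2 h2.le)]
      simp
    · rw [if_neg (not_lt.2 (mul_nonpos_of_nonpos_of_nonneg h1.le h2.le)), if_neg (not_lt.2 h1.le),
        if_pos h2]
      simp
    · rw [if_neg (not_lt.2 (mul_nonpos_of_nonneg_of_nonpos h1.le h2.le)), if_pos h1,
        if_neg (not_lt.2 h2.le)]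
      simp
    · rw [if_pos (mul_pos h1 h2), if_pos h1, if_pos h2]
      simp

/-- The system of groups attached to `D`. -/
def sysD (q : Qd F) : Sys F where
  G := (DF q)ˣ
  grpG := inferInstance
  L v := (DV q v)ˣ
  grpL _ := inferInstance
  topL _ := inferInstance
  tgL _ := inferInstance
  B := BZ q
  isOpen_B := isOpen_BZ q
  isCompact_B := isCompact_BZ q
  loc v := Units.map (dloc q v : DF q →* DV q v)
  fin γ := by
    refine ((dloc_fin q γ.1).union (dloc_fin q (γ⁻¹ : (DF q)ˣ).1)).subset ?_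
    intro v hv
    by_contra hc
    simp only [Set.mem_union, Set.mem_ofPred_eq, not_or, not_not] at hc
    exact hv ((mem_BZ_iff q v _).2 hc)
  Sg := SPl q → ℤˣ
  grpS := inferInstance
  finS := inferInstance
  sgn := dsgn q

end Pool.Agent.CGQ
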