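import Pool.Agent.CGQ.EDefs

/-!
# The generic element: powers of units are in the stabilisers
-/

noncomputable section

set_option linter.unusedSectionVars false

namespace Pool.Agent.CGQ

open NumberField IsDedekindDomain
open Pool.Agent.CG2 (Pl Fv Ov)

variable {F : Type} [Field F] [NumberField F] {q : Qd F} {L : Type} [Field L] [NumberField L]
  [Algebra F L]

private theorem ELM_exp_lt (γ : WithZero (Multiplicative ℤ)) (hγ : γ ≠ 0) :
    ∃ n : ℕ, WithZero.exp (-(n : ℤ)) < γ := by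
  obtain ⟨m, rfl⟩ : ∃ m : ℤ, γ = WithZero.exp m := ⟨WithZero.log γ, (WithZero.exp_log hγ).symm⟩
  refine ⟨(1 - m).toNat, WithZero.exp_lt_exp.2 ?_⟩
  have := Int.self_le_toNat (1 - m)
  omega

/-- The neighbourhoods of a point of `F_v`. -/
private theorem ELM_nhds (v : Pl F) (x : Fv v) {V : Set (Fv v)} (hV : V ∈ nhds x) :
    ∃ n : ℕ, ∀ y : Fv v, Valued.v (y - x) ≤ WithZero.exp (-(n : ℤ)) → y ∈ V := by
  obtain ⟨γ, hγ⟩ := Valued.mem_nhds.1 hV
  have h0 : MonoidWithZeroHom.ValueGroup₀.embedding γ.1 ≠ 0 := by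
    rw [map_ne_zero_iff _ (MonoidWithZeroHom.ValueGroup₀.embedding_strictMono.injective)]
    exact γ.ne_zero
  obtain ⟨n, hn⟩ := ELM_exp_lt _ h0
  refine ⟨n, fun y hy => hγ ?_⟩
  change Valued.v.restrict (y - x) < γ.1
  rw [Valuation.restrict_lt_iff_lt_embedding]
  exact lt_of_le_of_lt hy hn

/-- The coordinates of `x` have valuation at most `r`. -/
private def ELM_B (v : Pl F) (r : WithZero (Multiplicative ℤ)) (x : DV q v) : Prop :=
  Valued.v x.re ≤ r ∧ Valued.v x.imI ≤ r ∧ Valued.v x.imJ ≤ r ∧ Valued.v x.imK ≤ r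

/-- The neighbourhoods of a point of `D_v`. -/
private theorem ELM_nhdsD (v : Pl F) (x : DV q v) {V : Set (DV q v)} (hV : V ∈ nhds x) :
    ∃ n : ℕ, ∀ y : DV q v, ELM_B v (WithZero.exp (-(n : ℤ))) (y - x) → y ∈ V := by
  rw [nhds_induced, Filter.mem_comap] at hV
  obtain ⟨T, hT, hTV⟩ := hV
  rw [nhds_pi, Filter.mem_pi'] at hT
  obtain ⟨I, t, ht, hIt⟩ := hT
  choose n hn using fun i => ELM_nhds v _ (ht i)
  refine ⟨∑ i, n i, fun y hy => hTV (hIt ?_)⟩
  have hle : ∀ i, WithZero.exp (-((∑ j, n j : ℕ) : ℤ)) ≤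
      (WithZero.exp (-(n i : ℤ)) : WithZero (Multiplicative ℤ)) := by
    intro i
    rw [WithZero.exp_le_exp]
    have : n i ≤ ∑ j, n j := Finset.single_le_sum (fun _ _ => Nat.zero_le _) (Finset.mem_univ i)
    have : (n i : ℤ) ≤ ((∑ j, n j : ℕ) : ℤ) := by exact_mod_cast this
    omega
  intro i _
  obtain ⟨h0, h1, h2, h3⟩ := hy
  apply hn i
  refine le_trans ?_ (hle i)
  fin_cases i
  · exact h0
  · exact h1
  · exact h2
  · exact h3

/-- The neighbourhoods of `1` in the units. -/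
private theorem ELM_nhdsU (v : Pl F) (W : Subgroup (DV q v)ˣ) (hW : IsOpen (W : Set (DV q v)ˣ)) :
    ∃ n : ℕ, ∀ g : (DV q v)ˣ, ELM_B v (WithZero.exp (-(n : ℤ))) (g.1 - 1) →
      ELM_B v (WithZero.exp (-(n : ℤ))) ((g⁻¹ : (DV q v)ˣ).1 - 1) → g ∈ W := by
  have h1 : (W : Set (DV q v)ˣ) ∈ nhds (1 : (DV q v)ˣ) := hW.mem_nhds W.one_mem
  rw [Units.isEmbedding_embedProduct.isInducing.nhds_eq_comap, Filter.mem_comap] at h1
  obtain ⟨T, hT, hTW⟩ := h1
  rw [map_one] at hT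
  obtain ⟨V1, hV1, V2, hV2, h12⟩ := mem_nhds_prod_iff.1 hT
  have hV2' : MulOpposite.op ⁻¹' V2 ∈ nhds (1 : DV q v) :=
    MulOpposite.continuous_op.continuousAt.preimage_mem_nhds hV2
  obtain ⟨n1, h1⟩ := ELM_nhdsD v _ hV1
  obtain ⟨n2, h2⟩ := ELM_nhdsD v _ hV2'
  have hm : ∀ (a b : ℕ) (x : DV q v), b ≤ a → ELM_B v (WithZero.exp (-(a : ℤ))) x →
      ELM_B v (WithZero.exp (-(b : ℤ))) x := by
    intro a b x hab hx
    have hle : (WithZero.exp (-(a : ℤ)) : WithZero (Multiplicative ℤ)) ≤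
        WithZero.exp (-(b : ℤ)) := WithZero.exp_le_exp.2 (by omega)
    exact ⟨hx.1.trans hle, hx.2.1.trans hle, hx.2.2.1.trans hle, hx.2.2.2.trans hle⟩
  refine ⟨max n1 n2, fun g hg hg' => hTW (h12 ⟨?_, ?_⟩)⟩
  · exact h1 _ (hm _ _ _ (le_max_left _ _) hg)
  · exact h2 _ (hm _ _ _ (le_max_right _ _) hg')

/-- The elements of `D` whose coordinates have valuation at most `r`. -/
private def ELM_P (q : Qd F) (v : Pl F) (r : WithZero (Multiplicative ℤ)) : AddSubgroup (DF q) where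
  carrier := {x | v.valuation F x.re ≤ r ∧ v.valuation F x.imI ≤ r ∧ v.valuation F x.imJ ≤ r ∧
    v.valuation F x.imK ≤ r}
  zero_mem' := by
    simp only [Set.mem_ofPred_eq, QuaternionAlgebra.re_zero, QuaternionAlgebra.imI_zero,
      QuaternionAlgebra.imJ_zero, QuaternionAlgebra.imK_zero, map_zero, zero_le, and_self]
  add_mem' := by
    intro x y hx hy
    exact ⟨(Valuation.map_add _ _ _).trans (max_le hx.1 hy.1),
      (Valuation.map_add _ _ _).trans (max_le hx.2.1 hy.2.1),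
      (Valuation.map_add _ _ _).trans (max_le hx.2.2.1 hy.2.2.1),
      (Valuation.map_add _ _ _).trans (max_le hx.2.2.2 hy.2.2.2)⟩
  neg_mem' := by
    intro x hx
    refine ⟨?_, ?_, ?_, ?_⟩
    · rw [QuaternionAlgebra.re_neg, Valuation.map_neg]; exact hx.1
    · rw [QuaternionAlgebra.imI_neg, Valuation.map_neg]; exact hx.2.1
    · rw [QuaternionAlgebra.imJ_neg, Valuation.map_neg]; exact hx.2.2.1
    · rw [QuaternionAlgebra.imK_neg, Valuation.map_neg]; exact hx.2.2.2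

/-- A bound for one element. -/
private theorem ELM_one (v : Pl F) (x : DF q) : ∃ n : ℕ, x ∈ ELM_P q v (WithZero.exp (n : ℤ)) := by
  have key : ∀ z : F, ∃ n : ℕ, v.valuation F z ≤ WithZero.exp (n : ℤ) := by
    intro z
    by_cases h0 : v.valuation F z = 0
    · exact ⟨0, by rw [h0]; exact zero_le⟩
    · obtain ⟨m, hm⟩ : ∃ m : ℤ, v.valuation F z = WithZero.exp m :=
        ⟨WithZero.log (v.valuation F z), (WithZero.exp_log h0).symm⟩
      refine ⟨m.toNat, ?_⟩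
      rw [hm, WithZero.exp_le_exp]
      exact Int.self_le_toNat m
  obtain ⟨n0, h0⟩ := key x.re
  obtain ⟨n1, h1⟩ := key x.imI
  obtain ⟨n2, h2⟩ := key x.imJ
  obtain ⟨n3, h3⟩ := key x.imK
  have hle : ∀ k, k ≤ n0 + n1 + n2 + n3 → (WithZero.exp (k : ℤ) : WithZero (Multiplicative ℤ)) ≤
      WithZero.exp ((n0 + n1 + n2 + n3 : ℕ) : ℤ) := by
    intro k hk
    rw [WithZero.exp_le_exp]
    exact_mod_cast hk
  exact ⟨n0 + n1 + n2 + n3, h0.trans (hle _ (by omega)), h1.trans (hle _ (by omega)),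
    h2.trans (hle _ (by omega)), h3.trans (hle _ (by omega))⟩

private theorem ELM_mono (v : Pl F) {a b : ℕ} (hab : a ≤ b) :
    ELM_P q v (WithZero.exp (a : ℤ)) ≤ ELM_P q v (WithZero.exp (b : ℤ)) := by
  have hle : (WithZero.exp (a : ℤ) : WithZero (Multiplicative ℤ)) ≤ WithZero.exp (b : ℤ) := by
    rw [WithZero.exp_le_exp]
    exact_mod_cast hab
  intro x hx
  exact ⟨hx.1.trans hle, hx.2.1.trans hle, hx.2.2.1.trans hle, hx.2.2.2.trans hle⟩

/-- A bound for the integers of `L`. -/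
private theorem ELM_bdd (v : Pl F) (ι : L →ₐ[F] DF q) :
    ∃ n : ℕ, ∀ z : 𝓞 L, ι (z : L) ∈ ELM_P q v (WithZero.exp (n : ℤ)) := by
  obtain ⟨S, hS⟩ := (Module.Finite.fg_top (R := ℤ) (M := 𝓞 L))
  choose n hn using fun z : 𝓞 L => ELM_one (q := q) v (ι (z : L))
  refine ⟨S.sup n, fun z => ?_⟩
  let f : 𝓞 L →+ DF q := (ι : L →+* DF q).toAddMonoidHom.comp
    (algebraMap (𝓞 L) L).toAddMonoidHom
  have hz : z ∈ Submodule.span ℤ (S : Set (𝓞 L)) := by
    rw [hS]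
    exact Submodule.mem_top
  refine Submodule.span_induction (p := fun z _ => f z ∈ ELM_P q v (WithZero.exp ((S.sup n : ℕ) : ℤ)))
    ?_ ?_ ?_ ?_ hz
  · intro x hx
    exact ELM_mono v (Finset.le_sup (f := n) hx) (hn x)
  · rw [map_zero]
    exact zero_mem _
  · intro x y _ _ hx hy
    rw [map_add]
    exact add_mem hx hy
  · intro m x _ hx
    rw [map_zsmul]
    exact zsmul_mem hx m

private theorem ELM_N (v : Pl F) (k : ℕ) :
    ∃ N : ℕ, N ≠ 0 ∧ v.valuation F (N : F) ≤ WithZero.exp (-(k : ℤ)) := by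
  set p : ℕ := Ideal.absNorm v.asIdeal with hp
  have hp0 : p ≠ 0 := by
    rw [hp]
    intro h
    exact v.ne_bot (Ideal.absNorm_eq_zero_iff.1 h)
  have h1 : v.valuation F (p : F) < 1 := by
    have h2 : ((p : ℕ) : 𝓞 F) ∈ v.asIdeal := Ideal.absNorm_mem v.asIdeal
    have h3 := (v.valuation_lt_one_iff_mem (K := F) _).2 h2
    simpa using h3
  have h2 : v.valuation F (p : F) ≤ WithZero.exp (-1 : ℤ) := by
    have h0 : v.valuation F (p : F) ≠ 0 := by
      rw [Valuation.ne_zero_iff]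
      exact_mod_cast hp0
    obtain ⟨m, hm⟩ : ∃ m : ℤ, v.valuation F (p : F) = WithZero.exp m :=
      ⟨WithZero.log (v.valuation F (p : F)), (WithZero.exp_log h0).symm⟩
    rw [hm] at h1 ⊢
    rw [← WithZero.exp_zero, WithZero.exp_lt_exp] at h1
    rw [WithZero.exp_le_exp]
    omega
  refine ⟨p ^ k, pow_ne_zero k hp0, ?_⟩
  push_cast
  rw [map_pow]
  refine (pow_le_pow_left₀ zero_le h2 k).trans (le_of_eq ?_)
  rw [← WithZero.exp_nsmul]
  congr 1
  simp

/-- **ELM.** The local statement.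
PROOF. (1) There is a neighbourhood of `1` in `(DV q v)ˣ` in `W`; by the definition of the topology of the units
(`Units.continuous_val`, embedding in `M × Mᵐᵒᵖ`: `Units.isEmbedding_embedProduct`) and of `DV q v` (`topQ`, `homeoTuple`: product topology of the four coordinates;
the valued topology of `Fv v`) there is `γ : ℤᵐ⁰` (`≠ 0`) such that every unit `g` for which all coordinates of `g - 1` and of
`g⁻¹ - 1` have valuation `≤ γ` is in `W`. (2) `𝓞 L` is a finitely generated `ℤ`-module (`Module.Finite ℤ (𝓞 L)`): the coordinates of `ι z`,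
`z : 𝓞 L`, in `F` have `v`-valuations `≤ R` for some `R` (maximum over generators, ultrametric inequality,
integers have valuation `≤ 1`). (3) There is a natural number `N ≥ 1` with `v N * R ≤ γ` (a power of `Nm v`, or of any nonzero natural number in
`v.asIdeal`). (4) The ring `𝓞 L ⧸ (N)` is finite, so there is `m > 0` (the cardinality of its units) such that
`ε ^ m - 1`, `ε⁻¹ ^ m - 1 ∈ (N)` for all units `ε`; `ε ^ m - 1 = N z`: the coordinates of `ι (ε ^ m) - 1 = N ι z` have valuation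
`≤ v N * R ≤ γ`. -/
theorem exists_pow_loc (ι : L →ₐ[F] DF q) (v : Pl F) (W : Subgroup (DV q v)ˣ)
    (hW : IsOpen (W : Set (DV q v)ˣ)) :
    ∃ m : ℕ, 0 < m ∧ ∀ ε : (𝓞 L)ˣ, ((sysD q).loc v (uD ι ε) : (DV q v)ˣ) ^ m ∈ W := by
  obtain ⟨n, hn⟩ := ELM_nhdsU v W hW
  obtain ⟨k, hk⟩ := ELM_bdd v ι
  obtain ⟨N, hN0, hN⟩ := ELM_N v (n + k)
  set I : Ideal (𝓞 L) := Ideal.span {(N : 𝓞 L)} with hI
  have hI0 : I ≠ ⊥ := by
    rw [hI, Ne, Ideal.span_singleton_eq_bot]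
    exact_mod_cast hN0
  have hfin : Finite (𝓞 L ⧸ I) := Ideal.finiteQuotientOfFreeOfNeBot I hI0
  have hfinU : Finite (𝓞 L ⧸ I)ˣ := inferInstance
  -- the powers of the units
  have key : ∀ ε : (𝓞 L)ˣ, ELM_B v (WithZero.exp (-(n : ℤ)))
      (dloc q v (ι (((ε ^ Nat.card (𝓞 L ⧸ I)ˣ : (𝓞 L)ˣ) : 𝓞 L) : L)) - 1) := by
    intro ε
    have h1 : (Units.map (Ideal.Quotient.mk I : 𝓞 L →* 𝓞 L ⧸ I) ε) ^ Nat.card (𝓞 L ⧸ I)ˣ = 1 :=
      pow_card_eq_one'
    rw [← map_pow] at h1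
    have h2 : Ideal.Quotient.mk I ((ε ^ Nat.card (𝓞 L ⧸ I)ˣ : (𝓞 L)ˣ) : 𝓞 L) =
        Ideal.Quotient.mk I 1 := (congrArg Units.val h1).trans (map_one _).symm
    rw [Ideal.Quotient.eq, hI, Ideal.mem_span_singleton] at h2
    obtain ⟨z, hz⟩ := h2
    have h3 : (((ε ^ Nat.card (𝓞 L ⧸ I)ˣ : (𝓞 L)ˣ) : 𝓞 L) : L) = 1 + (N : L) * (z : L) := by
      have h4 : ((ε ^ Nat.card (𝓞 L ⧸ I)ˣ : (𝓞 L)ˣ) : 𝓞 L) = 1 + (N : 𝓞 L) * z := by
        rw [← hz]
        ring
      rw [h4]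
      simp
    have h5 : dloc q v (ι (((ε ^ Nat.card (𝓞 L ⧸ I)ˣ : (𝓞 L)ˣ) : 𝓞 L) : L)) - 1 =
        dloc q v ((N : F) • ι (z : L)) := by
      rw [h3, map_add, map_one, map_add, map_one, add_sub_cancel_left, map_mul, map_natCast]
      congr 1
      rw [Algebra.smul_def, map_natCast]
    rw [h5]
    have h6 := hk z
    have h7 : ∀ x : F, v.valuation F x ≤ WithZero.exp (k : ℤ) →
        Valued.v (IsScalarTower.toAlgHom (𝓞 F) F (Fv v) ((N : F) * x)) ≤
          WithZero.exp (-(n : ℤ)) := by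
      intro x hx
      have h8 : Valued.v (IsScalarTower.toAlgHom (𝓞 F) F (Fv v) ((N : F) * x)) =
          v.valuation F ((N : F) * x) := HeightOneSpectrum.adicCompletion.valued_coe ..
      rw [h8, map_mul]
      refine (mul_le_mul' hN hx).trans (le_of_eq ?_)
      rw [← WithZero.exp_add]
      congr 1
      push_cast
      ring
    exact ⟨h7 _ h6.1, h7 _ h6.2.1, h7 _ h6.2.2.1, h7 _ h6.2.2.2⟩
  have hpow : ∀ (ε : (𝓞 L)ˣ) (m : ℕ), (((ε ^ m : (𝓞 L)ˣ) : 𝓞 L) : L) = ((ε : 𝓞 L) : L) ^ m := by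
    intro ε m
    rw [Units.val_pow_eq_pow_val]
    exact map_pow (algebraMap (𝓞 L) L) _ _
  have main : ∀ ε : (𝓞 L)ˣ, ∀ g : (DV q v)ˣ, g.1 = dloc q v (ι ((ε : 𝓞 L) : L)) →
      (g⁻¹ : (DV q v)ˣ).1 = dloc q v (ι (((ε⁻¹ : (𝓞 L)ˣ) : 𝓞 L) : L)) →
      g ^ Nat.card (𝓞 L ⧸ I)ˣ ∈ W := by
    intro ε g hg hg'
    apply hn
    · have h1 : (g ^ Nat.card (𝓞 L ⧸ I)ˣ : (DV q v)ˣ).1 =
          dloc q v (ι (((ε ^ Nat.card (𝓞 L ⧸ I)ˣ : (𝓞 L)ˣ) : 𝓞 L) : L)) := by
        rw [Units.val_pow_eq_pow_val, hg, hpow, map_pow, map_pow]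
      rw [h1]
      exact key ε
    · have h1 : ((g ^ Nat.card (𝓞 L ⧸ I)ˣ)⁻¹ : (DV q v)ˣ).1 =
          dloc q v (ι (((ε⁻¹ ^ Nat.card (𝓞 L ⧸ I)ˣ : (𝓞 L)ˣ) : 𝓞 L) : L)) := by
        rw [← inv_pow, Units.val_pow_eq_pow_val, hg', hpow, map_pow, map_pow]
      rw [h1]
      exact key ε⁻¹
  exact ⟨Nat.card (𝓞 L ⧸ I)ˣ, Nat.card_pos, fun ε => main ε _ rfl rfl⟩

/-- **ELMa.** At almost all places the units of `L` are in the base subgroups.
PROOF. Generators `ω₁, …, ω_n` of the `ℤ`-module `𝓞 L`; outside the finite set of the places where some `ι ω_i` is not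
integral (`dloc_fin`) all `ι z`, `z : 𝓞 L`, are integral (`IntQ`), in particular `ι ε` and `ι ε⁻¹`, use `mem_BZ_iff`. -/
theorem finite_not_mem_BZ (ι : L →ₐ[F] DF q) :
    ∃ T : Set (Pl F), T.Finite ∧ ∀ v, v ∉ T → ∀ ε : (𝓞 L)ˣ, (sysD q).loc v (uD ι ε) ∈ BZ q v := by
  classical
  obtain ⟨s, hs⟩ := (Module.finite_def (R := ℤ) (M := 𝓞 L)).1 inferInstance
  refine ⟨⋃ ω ∈ s, {v : Pl F | ¬ IntQ q v (dloc q v (ι (ω : L)))}, ?_, ?_⟩
  · exact Set.Finite.biUnion s.finite_toSet fun ω _ => dloc_fin q _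
  · intro v hv ε
    simp only [Set.mem_iUnion, Set.mem_ofPred_eq, not_exists, not_not] at hv
    have hall : ∀ z : 𝓞 L, IntQ q v (dloc q v (ι (z : L))) := by
      intro z
      rw [intQ_iff]
      let f : 𝓞 L →+* DV q v := (dloc q v).comp ((ι : L →+* DF q).comp (algebraMap (𝓞 L) L))
      change f z ∈ (dint q v).range
      have hz : z ∈ Submodule.span ℤ (s : Set (𝓞 L)) := by rw [hs]; trivial
      induction hz using Submodule.span_induction with
      | mem x hx => exact (intQ_iff q v _).1 (hv x hx)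
      | zero => rw [map_zero]; exact (dint q v).range.zero_mem
      | add x y _ _ hx hy => rw [map_add]; exact (dint q v).range.add_mem hx hy
      | smul n x _ hx => rw [map_zsmul]; exact (dint q v).range.zsmul_mem hx n
    apply (mem_BZ_iff q v _).2
    refine ⟨hall (ε : 𝓞 L), ?_⟩
    exact hall ((ε⁻¹ : (𝓞 L)ˣ) : 𝓞 L)

/-- **ELMb.** A power of every unit of `L` is in `Stab K y`.
PROOF. `y = (s, g)`, `U` from `hK.op`. `T` = the places where `¬ B v ≤ U v`, or `g v ∉ B v`, or in the set of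
`finite_not_mem_BZ`: finite. For `v ∈ T` let `m_v` be the number of `exists_pow_loc` for `W = g v U v (g v)⁻¹`
(`(U v).map (MulAut.conj (g v))` or the preimage under `x ↦ (g v)⁻¹ x g v`; open). Put `m = 2 * ∏ m_v`. For a unit `ε`,
`γ = uD ι ε ^ m`: `sgn γ = 1` (a square in a group of exponent two) and `κ = g⁻¹ * diag γ * g` has all its
components in `U v` (`v ∉ T`: all factors are in `B v`; `v ∈ T`: `m_v ∣ m`), so `κ ∈ K` and `act γ y = rt y κ`: `mem_Stab'`. -/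
theorem exists_pow_mem_stab {K : Subgroup (sysD q).A} (hK : OC K) (y : (sysD q).Pt)
    (ι : L →ₐ[F] DF q) :
    ∃ m : ℕ, 0 < m ∧ ∀ ε : (𝓞 L)ˣ, uD ι ε ^ m ∈ Stab K y := by
  classical
  obtain ⟨U, hUo, hUf, hUK⟩ := hK.op
  obtain ⟨T₀, hT₀, hT₀'⟩ := finite_not_mem_BZ (F := F) (q := q) ι
  have hg : {v : Pl F | y.2.1 v ∉ (sysD q).B v}.Finite := y.2.2
  have hfin : ({v : Pl F | ¬ (sysD q).B v ≤ U v} ∪ {v : Pl F | y.2.1 v ∉ (sysD q).B v} ∪
    T₀).Finite := (hUf.union hg).union hT₀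
  set T : Finset (Pl F) := hfin.toFinset with hT
  have hloc : ∀ v : Pl F, ∃ m : ℕ, 0 < m ∧ ∀ ε : (𝓞 L)ˣ,
      (y.2.1 v)⁻¹ * ((sysD q).loc v (uD ι ε)) ^ m * y.2.1 v ∈ U v := by
    intro v
    let c : (sysD q).L v →* (sysD q).L v := (MulAut.conj (y.2.1 v)⁻¹).toMonoidHom
    have hc : ∀ x, c x = (y.2.1 v)⁻¹ * x * y.2.1 v := by
      intro x
      simp [c]
    have hcont : Continuous c := by
      have : (c : (sysD q).L v → (sysD q).L v) = fun x => (y.2.1 v)⁻¹ * x * y.2.1 v := funext hc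
      rw [this]
      exact (continuous_const.mul continuous_id).mul continuous_const
    obtain ⟨m, hm, h⟩ := exists_pow_loc ι v ((U v).comap c) ((hUo v).preimage hcont)
    refine ⟨m, hm, fun ε => ?_⟩
    rw [← hc]
    exact h ε
  choose m hm hmU using hloc
  refine ⟨2 * ∏ v ∈ T, m v, Nat.mul_pos two_pos (Finset.prod_pos fun v _ => hm v), fun ε => ?_⟩
  set M := 2 * ∏ v ∈ T, m v with hM
  rw [mem_Stab']
  refine ⟨y.2⁻¹ * diag (uD ι ε ^ M) * y.2, ?_, ?_⟩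
  · apply hUK
    intro v
    have e1 : (y.2⁻¹ * diag (uD ι ε ^ M) * y.2).1 v =
        (y.2.1 v)⁻¹ * ((sysD q).loc v (uD ι ε)) ^ M * y.2.1 v := by
      rw [← map_pow]
      rfl
    rw [e1]
    by_cases hv : v ∈ T
    · obtain ⟨k, hk⟩ : m v ∣ M := (Finset.dvd_prod_of_mem m hv).trans (Dvd.intro_left 2 rfl)
      have h1 := (U v).pow_mem (hmU v ε) k
      have h2 : ((y.2.1 v)⁻¹ * ((sysD q).loc v (uD ι ε)) ^ m v * y.2.1 v) ^ k =
          (y.2.1 v)⁻¹ * ((sysD q).loc v (uD ι ε)) ^ M * y.2.1 v := by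
        have h3 := conj_pow (i := k) (a := (y.2.1 v)⁻¹) (b := ((sysD q).loc v (uD ι ε)) ^ m v)
        rw [inv_inv] at h3
        rw [h3, ← pow_mul, ← hk]
      rw [← h2]
      exact h1
    · rw [hT, Set.Finite.mem_toFinset] at hv
      simp only [Set.mem_union, Set.mem_ofPred_eq, not_or, not_not] at hv
      obtain ⟨⟨hv1, hv2⟩, hv3⟩ := hv
      apply hv1
      exact ((sysD q).B v).mul_mem (((sysD q).B v).mul_mem (((sysD q).B v).inv_mem hv2)
        (((sysD q).B v).pow_mem (hT₀' v hv3 ε) M)) hv2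
  · refine Prod.ext ?_ ?_
    · change (sysD q).sgn (uD ι ε ^ M) * y.1 = y.1
      have h1 : (sysD q).sgn (uD ι ε ^ M) = 1 := by
        rw [hM, pow_mul, map_pow, map_pow]
        have h2 : ((sysD q).sgn (uD ι ε)) ^ 2 = 1 := by
          funext w
          exact Int.units_sq _
        rw [h2, one_pow]
      rw [h1, one_mul]
    · change diag (uD ι ε ^ M) * y.2 = y.2 * (y.2⁻¹ * diag (uD ι ε ^ M) * y.2)
      rw [← mul_assoc, ← mul_assoc, mul_inv_cancel, one_mul]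

end Pool.Agent.CGQ
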