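import Mathlib

/-!
# The generic element: signs
-/

noncomputable section

namespace Pool.Agent.CGQ

open NumberField

/-- **ELK.** PROOF. By weak approximation (`NumberField.InfinitePlace.denseRange_algebraMap_pi`: the image of `F` in
`Π w, WithAbs w.1` is dense) there is for every natural number `M` an element `θ` of `F` with
`w (θ - M) < 1` for the places `w` in `W = {w real : a > 0 at w}` and `w θ < 1 / M` for all other `w`.
Take `M` large (finitely many places): if `ψ a > 0` then `|ψ θ| ≥ M - 1` so `ψ (a θ^2 + b) ≥ ψ a (M-1)^2 + ψ b > 0`; if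
`ψ a < 0` then (hypothesis) `ψ b > 0` and `ψ (a θ^2 + b) ≥ ψ b - |ψ a| / M ^ 2 > 0`. Here `|ψ x| = w x` for
`w = mk (Complex.ofRealHom.comp ψ)`; two real embeddings with the same place are equal, or simply define `W` as the
set of the places `w` such that there is `ψ` with `w = mk (ofRealHom.comp ψ)` and `0 < ψ a` and use that
`mk φ = mk φ'` for `φ, φ'` real implies `φ = φ'` (`InfinitePlace.mk_eq_iff`). -/
theorem exists_theta {F : Type} [Field F] [NumberField F] (a b : F) (ha : a ≠ 0) (hb : b ≠ 0) :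
    ∃ θ : F, ∀ ψ : F →+* ℝ, ¬ (ψ a < 0 ∧ ψ b < 0) → 0 < ψ (a * θ ^ 2 + b) := by
  classical
  -- finiteness of the real embeddings
  have hinj : Function.Injective fun ψ : F →+* ℝ => Complex.ofRealHom.comp ψ := by
    intro ψ ψ' h
    refine RingHom.ext fun x => ?_
    have h1 := RingHom.congr_fun h x
    exact Complex.ofReal_injective h1
  have hfin : Finite (F →+* ℝ) := Finite.of_injective _ hinj
  have := Fintype.ofFinite (F →+* ℝ)
  have habs : ∀ (ψ : F →+* ℝ) (x : F),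
      InfinitePlace.mk (Complex.ofRealHom.comp ψ) x = |ψ x| := by
    intro ψ x
    rw [InfinitePlace.apply]
    change ‖((ψ x : ℝ) : ℂ)‖ = _
    rw [Complex.norm_real, Real.norm_eq_abs]
  have hmk : ∀ ψ ψ' : F →+* ℝ, InfinitePlace.mk (Complex.ofRealHom.comp ψ)
      = InfinitePlace.mk (Complex.ofRealHom.comp ψ') → ψ = ψ' := by
    intro ψ ψ' h
    rcases InfinitePlace.mk_eq_iff.1 h with h1 | h1
    · exact hinj h1
    · refine RingHom.ext fun x => ?_
      have h2 := RingHom.congr_fun h1 x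
      rw [ComplexEmbedding.conjugate_coe_eq] at h2
      change (starRingEnd ℂ) ((ψ x : ℝ) : ℂ) = ((ψ' x : ℝ) : ℂ) at h2
      rw [Complex.conj_ofReal] at h2
      exact Complex.ofReal_injective h2
  have hne : ∀ (ψ : F →+* ℝ) {x : F}, x ≠ 0 → 0 < |ψ x| := fun ψ x hx =>
    abs_pos.2 (by rw [Ne, map_eq_zero]; exact hx)
  -- the bound
  obtain ⟨R, hR⟩ : ∃ R : ℝ, ∀ ψ : F →+* ℝ, |ψ b| / |ψ a| ≤ R ∧ |ψ a| / |ψ b| ≤ R := by
    refine ⟨∑ ψ : F →+* ℝ, (|ψ b| / |ψ a| + |ψ a| / |ψ b|), fun ψ => ?_⟩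
    have h1 : |ψ b| / |ψ a| + |ψ a| / |ψ b| ≤
        ∑ ψ : F →+* ℝ, (|ψ b| / |ψ a| + |ψ a| / |ψ b|) :=
      Finset.single_le_sum (f := fun ψ : F →+* ℝ => |ψ b| / |ψ a| + |ψ a| / |ψ b|)
        (fun i _ => by positivity) (Finset.mem_univ ψ)
    have h2 : 0 ≤ |ψ b| / |ψ a| := by positivity
    have h3 : 0 ≤ |ψ a| / |ψ b| := by positivity
    constructor <;> linarith
  obtain ⟨M, hM⟩ := exists_nat_gt (R + 2)
  by_cases hne0 : Nonempty (F →+* ℝ)
  swap
  · exact ⟨0, fun ψ => absurd ⟨ψ⟩ hne0⟩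
  obtain ⟨ψ0⟩ := hne0
  have hR0 : 0 ≤ R := le_trans (by positivity) (hR ψ0).1
  have hM2 : (2 : ℝ) < M := by linarith
  have hM0 : (0 : ℝ) < M := by linarith
  -- weak approximation
  let x0 : (w : InfinitePlace F) → WithAbs w.1 := fun w =>
    if ∃ ψ : F →+* ℝ, w = InfinitePlace.mk (Complex.ofRealHom.comp ψ) ∧ 0 < ψ a then
      WithAbs.toAbs w.1 (M : F) else WithAbs.toAbs w.1 0
  obtain ⟨θ, hθ⟩ := (InfinitePlace.denseRange_algebraMap_pi F).exists_dist_lt x0
    (ε := 1 / M) (by positivity)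
  rw [dist_pi_lt_iff (by positivity)] at hθ
  have hθ1 : ∀ ψ : F →+* ℝ, 0 < ψ a → |M - ψ θ| < 1 / M := by
    intro ψ hψ
    have h1 := hθ (InfinitePlace.mk (Complex.ofRealHom.comp ψ))
    have h2 : x0 (InfinitePlace.mk (Complex.ofRealHom.comp ψ)) = WithAbs.toAbs _ (M : F) :=
      if_pos ⟨ψ, rfl, hψ⟩
    rw [h2, dist_eq_norm, WithAbs.norm_eq_apply_ofAbs] at h1
    have h3 : (InfinitePlace.mk (Complex.ofRealHom.comp ψ)) ((M : F) - θ) < 1 / M := h1
    rw [habs, map_sub, map_natCast] at h3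
    exact h3
  have hθ2 : ∀ ψ : F →+* ℝ, ψ a < 0 → |ψ θ| < 1 / M := by
    intro ψ hψ
    have h1 := hθ (InfinitePlace.mk (Complex.ofRealHom.comp ψ))
    have h2 : x0 (InfinitePlace.mk (Complex.ofRealHom.comp ψ)) = WithAbs.toAbs _ 0 := by
      refine if_neg ?_
      rintro ⟨ψ', h3, h4⟩
      rw [hmk _ _ h3] at hψ
      linarith
    rw [h2, dist_eq_norm, WithAbs.norm_eq_apply_ofAbs] at h1
    have h3 : (InfinitePlace.mk (Complex.ofRealHom.comp ψ)) ((0 : F) - θ) < 1 / M := h1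
    rw [habs, map_sub, map_zero, zero_sub, abs_neg] at h3
    exact h3
  refine ⟨θ, fun ψ hψ => ?_⟩
  obtain ⟨hR1, hR2⟩ := hR ψ
  have ha' := hne ψ ha
  have hb' := hne ψ hb
  rw [div_le_iff₀ ha'] at hR1
  rw [div_le_iff₀ hb'] at hR2
  rw [map_add, map_mul, map_pow]
  have hM1 : 1 / (M : ℝ) < 1 := by
    rw [div_lt_one hM0]
    linarith
  rcases lt_or_ge (ψ a) 0 with h1 | h1
  · have h2 : 0 < ψ b := by
      have h3 : ¬ ψ b < 0 := fun h => hψ ⟨h1, h⟩
      have h4 : ψ b ≠ 0 := by rw [Ne, map_eq_zero]; exact hb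
      exact lt_of_le_of_ne (not_lt.1 h3) (Ne.symm h4)
    have h5 := hθ2 ψ h1
    rw [abs_of_neg h1] at hR2
    rw [abs_of_pos h2] at hR2
    have h6 : ψ θ ^ 2 < 1 / M := by
      have h7 : ψ θ ^ 2 = |ψ θ| * |ψ θ| := by rw [← abs_mul, ← pow_two, abs_of_nonneg (sq_nonneg _)]
      rw [h7]
      nlinarith [abs_nonneg (ψ θ)]
    have h8 : - ψ a < M * ψ b := by nlinarith
    have h9 : - ψ a * ψ θ ^ 2 < ψ b := by
      calc - ψ a * ψ θ ^ 2 ≤ - ψ a * (1 / M) := by
            apply mul_le_mul_of_nonneg_left h6.le; linarith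
        _ < M * ψ b * (1 / M) := by
            apply mul_lt_mul_of_pos_right h8; positivity
        _ = ψ b := by field_simp
    linarith
  · have h2 : 0 < ψ a := lt_of_le_of_ne h1 (by
      intro h
      rw [← h, abs_zero] at ha'
      exact lt_irrefl _ ha')
    have h5 := hθ1 ψ h2
    rw [abs_lt] at h5
    rw [abs_of_pos h2] at hR1
    have h6 : R + 1 < ψ θ := by linarith
    have h7 : R < ψ θ ^ 2 := by nlinarith
    have h8 : - ψ b ≤ |ψ b| := neg_le_abs _
    nlinarith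

end Pool.Agent.CGQ
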