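import Pool.Agent.CGQ.EDefs
import Pool.Agent.CGQ.EPos

/-!
# The generic element: a generic pure quaternion
-/

noncomputable section

set_option linter.unusedSectionVars false

namespace Pool.Agent.CGQ

open NumberField

variable {F : Type} [Field F] [NumberField F] {q : Qd F}

private theorem ELL_lin (u w : F) (h : u ≠ 0 ∨ w ≠ 0) :
    ∀ᶠ M : ℕ in Filter.atTop, u + (M : F) * w ≠ 0 := by
  by_cases hw : w = 0
  · subst hw
    refine Filter.Eventually.of_forall fun M => ?_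
    rcases h with h | h
    · simpa using h
    · exact absurd rfl h
  · by_cases he : ∃ M₀ : ℕ, u + (M₀ : F) * w = 0
    · obtain ⟨M₀, h0⟩ := he
      filter_upwards [Filter.eventually_gt_atTop M₀] with M hM h1
      have h2 : ((M : F) - (M₀ : F)) * w = 0 := by linear_combination h1 - h0
      rcases mul_eq_zero.1 h2 with h3 | h3
      · have h4 : (M : F) = (M₀ : F) := sub_eq_zero.1 h3
        have h5 : M = M₀ := Nat.cast_injective h4
        omega
      · exact hw h3
    · push Not at he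
      exact Filter.Eventually.of_forall he

private theorem ELL_mk_re (c : DF q) (x1 x2 x3 : F) :
    (c * (⟨0, x1, x2, x3⟩ : DF q)).re = (q.a : F) * c.imI * x1 + (q.b : F) * c.imJ * x2 -
      (q.a : F) * (q.b : F) * c.imK * x3 := by
  simp only [QuaternionAlgebra.re_mul]
  ring

private theorem ELL_mk_J (c : DF q) (x1 x2 x3 : F) :
    (c * (⟨0, x1, x2, x3⟩ : DF q) - (⟨0, x1, x2, x3⟩ : DF q) * c).imJ =
      2 * (q.a : F) * (c.imI * x3 - c.imK * x1) := by
  simp only [QuaternionAlgebra.imJ_mul, QuaternionAlgebra.imJ_sub]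
  ring

private theorem ELL_mk_K (c : DF q) (x1 x2 x3 : F) :
    (c * (⟨0, x1, x2, x3⟩ : DF q) - (⟨0, x1, x2, x3⟩ : DF q) * c).imK =
      2 * (c.imI * x2 - c.imJ * x1) := by
  simp only [QuaternionAlgebra.imK_mul, QuaternionAlgebra.imK_sub]
  ring

private theorem ELL_y (c : DF q) (hc : ¬ (c.imI = 0 ∧ c.imJ = 0 ∧ c.imK = 0)) :
    ∃ y : DF q, y.re = 0 ∧ (c * y).re ≠ 0 ∧
      ((c * y - y * c).imJ ≠ 0 ∨ (c * y - y * c).imK ≠ 0) := by
  have ha : (q.a : F) ≠ 0 := fun h => q.a_ne (RingOfIntegers.coe_eq_zero_iff.1 h)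
  have hb : (q.b : F) ≠ 0 := fun h => q.b_ne (RingOfIntegers.coe_eq_zero_iff.1 h)
  have h2 : (2 : F) ≠ 0 := two_ne_zero
  by_cases h1 : c.imI = 0
  · by_cases h3 : c.imJ = 0
    · have h4 : c.imK ≠ 0 := fun h => hc ⟨h1, h3, h⟩
      obtain ⟨M, e1, e2⟩ := ((ELL_lin (F := F) (-((q.a : F) * (q.b : F) * c.imK))
        ((q.a : F) * c.imI) (Or.inl (neg_ne_zero.2 (mul_ne_zero (mul_ne_zero ha hb) h4)))).and
        (ELL_lin (F := F) (c.imI) (-c.imK) (Or.inr (neg_ne_zero.2 h4)))).exists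
      refine ⟨⟨0, M, 0, 1⟩, rfl, ?_, Or.inl ?_⟩
      · rw [ELL_mk_re]
        intro h
        apply e1
        linear_combination h
      · rw [ELL_mk_J]
        refine mul_ne_zero (mul_ne_zero h2 ha) ?_
        intro h
        apply e2
        linear_combination h
    · obtain ⟨M, e1, e2⟩ := ((ELL_lin (F := F) ((q.b : F) * c.imJ)
        ((q.a : F) * c.imI) (Or.inl (mul_ne_zero hb h3))).and
        (ELL_lin (F := F) (c.imI) (-c.imJ) (Or.inr (neg_ne_zero.2 h3)))).exists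
      refine ⟨⟨0, M, 1, 0⟩, rfl, ?_, Or.inr ?_⟩
      · rw [ELL_mk_re]
        intro h
        apply e1
        linear_combination h
      · rw [ELL_mk_K]
        refine mul_ne_zero h2 ?_
        intro h
        apply e2
        linear_combination h
  · obtain ⟨M, e1, e2⟩ := ((ELL_lin (F := F) ((q.a : F) * c.imI)
      ((q.b : F) * c.imJ) (Or.inl (mul_ne_zero ha h1))).and
      (ELL_lin (F := F) (-c.imJ) (c.imI) (Or.inr h1))).exists
    refine ⟨⟨0, 1, M, 0⟩, rfl, ?_, Or.inr ?_⟩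
    · rw [ELL_mk_re]
      intro h
      apply e1
      linear_combination h
    · rw [ELL_mk_K]
      refine mul_ne_zero h2 ?_
      intro h
      apply e2
      linear_combination h

private theorem ELL_ev (u w : F) (hw : w ≠ 0) :
    ∀ᶠ M : ℕ in Filter.atTop, u + (1 / ((M : F) + 1)) * w ≠ 0 := by
  have h : u + w ≠ 0 ∨ u ≠ 0 := by
    by_cases hu : u = 0
    · left
      rwa [hu, zero_add]
    · exact Or.inr hu
  filter_upwards [ELL_lin (u + w) u h] with M hM h1
  apply hM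
  have h2 : (M : F) + 1 ≠ 0 := Nat.cast_add_one_ne_zero M
  field_simp at h1
  linear_combination h1

private theorem ELL_pos (θ : F) (y : DF q) (ψ : F →+* ℝ)
    (h : 0 < ψ ((q.a : F) * θ ^ 2 + (q.b : F))) :
    ∀ᶠ M : ℕ in Filter.atTop,
      0 < ψ (-nrd ((⟨0, θ, 1, 0⟩ : DF q) + (1 / ((M : F) + 1)) • (⟨0, y.imI, y.imJ, y.imK⟩ : DF q))) := by
  let g : ℝ → ℝ := fun t => ψ (q.a : F) * (ψ θ + t * ψ y.imI) ^ 2 +
    ψ (q.b : F) * (1 + t * ψ y.imJ) ^ 2 - ψ (q.a : F) * ψ (q.b : F) * (t * ψ y.imK) ^ 2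
  have hg : Continuous g := by fun_prop
  have hg0 : 0 < g 0 := by
    have : g 0 = ψ ((q.a : F) * θ ^ 2 + (q.b : F)) := by
      simp only [g, map_add, map_mul, map_pow]
      ring
    rw [this]
    exact h
  have ht : Filter.Tendsto (fun M : ℕ => g (1 / ((M : ℝ) + 1))) Filter.atTop (nhds (g 0)) :=
    (hg.tendsto 0).comp tendsto_one_div_add_atTop_nhds_zero_nat
  filter_upwards [ht.eventually (lt_mem_nhds hg0)] with M hM
  have e : ψ (-nrd ((⟨0, θ, 1, 0⟩ : DF q) + (1 / ((M : F) + 1)) • (⟨0, y.imI, y.imJ, y.imK⟩ : DF q))) =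
      g (1 / ((M : ℝ) + 1)) := by
    simp only [nrd, g, QuaternionAlgebra.re_add, QuaternionAlgebra.imI_add,
      QuaternionAlgebra.imJ_add, QuaternionAlgebra.imK_add, QuaternionAlgebra.re_smul,
      QuaternionAlgebra.imI_smul, QuaternionAlgebra.imJ_smul, QuaternionAlgebra.imK_smul,
      smul_eq_mul, map_neg, map_add, map_sub, map_mul, map_pow, map_div₀, map_one, map_natCast,
      map_zero]
    ring
  rw [e]
  exact hM

/-- **ELL.** A pure quaternion `x` whose square is positive at the real places where `D` is split,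
generic with respect to `c`.
PROOF. Let `x₀ = θ i + j` with `θ` from `exists_theta` (`a`, `b`): `- nrd x₀ = a θ² + b`. `f₁ x = (c * x).re` is a linear form
in the coordinates of the pure quaternion `x`, with the values `a c₁`, `b c₂`, `- a b c₃` at `i, j, k`: not zero.
`f₂ x` := one of the coordinates of `c * x - x * c` such that it is not zero: for `c₁ ≠ 0` or `c₃ ≠ 0` take `x = j`: the
coordinates of `c j - j c` are `2 c₁` (at `k`) and a non zero multiple of `c₃` (at `i`); for `c₂ ≠ 0` take `x = i`. So there are pure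
`y₁`, `y₂` with `f₁ y₁ ≠ 0`, `f₂ y₂ ≠ 0`, and one of `y₁, y₂, y₁ + y₂` works for both (`y`). Put
`x = x₀ + (1 / M) y` for a large natural number `M`: `f₁ x`, `f₂ x` vanish for at most one `M` each, and `ψ (- nrd x)`
is a polynomial in `1 / M` with the constant term `ψ (- nrd x₀) > 0`, so it is positive for all large `M` (finitely
many `ψ`: `F →+* ℝ` is finite, it embeds in `F →+* ℂ`). -/
theorem exists_pure (c : DF q) (hc : ¬ (c.imI = 0 ∧ c.imJ = 0 ∧ c.imK = 0)) :
    ∃ x : DF q, x.re = 0 ∧ (c * x).re ≠ 0 ∧ c * x ≠ x * c ∧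
      ∀ ψ : F →+* ℝ, ¬ (ψ (q.a : F) < 0 ∧ ψ (q.b : F) < 0) → 0 < ψ (-nrd x) := by
  have ha : (q.a : F) ≠ 0 := fun h => q.a_ne (RingOfIntegers.coe_eq_zero_iff.1 h)
  have hb : (q.b : F) ≠ 0 := fun h => q.b_ne (RingOfIntegers.coe_eq_zero_iff.1 h)
  obtain ⟨θ, hθ⟩ := exists_theta (q.a : F) (q.b : F) ha hb
  obtain ⟨y, hy0, hy1, hy2⟩ := ELL_y c hc
  have hy : y = (⟨0, y.imI, y.imJ, y.imK⟩ : DF q) := by
    ext
    · exact hy0
    · rfl
    · rfl
    · rfl
  have hfin : Finite (F →+* ℝ) := by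
    refine Finite.of_injective (β := F →+* ℂ) (fun ψ => Complex.ofRealHom.comp ψ) ?_
    intro ψ ψ' h
    ext x
    have := congrArg (fun f : F →+* ℂ => f x) h
    simpa using this
  have h3 : ∀ᶠ M : ℕ in Filter.atTop, ∀ ψ : F →+* ℝ, ¬ (ψ (q.a : F) < 0 ∧ ψ (q.b : F) < 0) →
      0 < ψ (-nrd ((⟨0, θ, 1, 0⟩ : DF q) + (1 / ((M : F) + 1)) • (⟨0, y.imI, y.imJ, y.imK⟩ : DF q))) := by
    rw [Filter.eventually_all]
    intro ψ
    by_cases h : ψ (q.a : F) < 0 ∧ ψ (q.b : F) < 0
    · exact Filter.Eventually.of_forall fun M hM => absurd h hM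
    · exact (ELL_pos θ y ψ (hθ ψ h)).mono fun M hM _ => hM
  rw [← hy] at h3
  have h1 := ELL_ev (c * (⟨0, θ, 1, 0⟩ : DF q)).re (c * y).re hy1
  have h2 : ∀ᶠ M : ℕ in Filter.atTop,
      c * ((⟨0, θ, 1, 0⟩ : DF q) + (1 / ((M : F) + 1)) • y) ≠
        ((⟨0, θ, 1, 0⟩ : DF q) + (1 / ((M : F) + 1)) • y) * c := by
    have e : ∀ M : ℕ, c * ((⟨0, θ, 1, 0⟩ : DF q) + (1 / ((M : F) + 1)) • y) -
        ((⟨0, θ, 1, 0⟩ : DF q) + (1 / ((M : F) + 1)) • y) * c =
        (c * (⟨0, θ, 1, 0⟩ : DF q) - (⟨0, θ, 1, 0⟩ : DF q) * c) +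
          (1 / ((M : F) + 1)) • (c * y - y * c) := by
      intro M
      rw [mul_add, add_mul, mul_smul_comm, smul_mul_assoc, smul_sub]
      abel
    rcases hy2 with h | h
    · filter_upwards [ELL_ev (c * (⟨0, θ, 1, 0⟩ : DF q) - (⟨0, θ, 1, 0⟩ : DF q) * c).imJ
        (c * y - y * c).imJ h] with M hM h4
      apply hM
      have h5 := congrArg QuaternionAlgebra.imJ (e M)
      rw [sub_eq_zero.2 h4, QuaternionAlgebra.imJ_add, QuaternionAlgebra.imJ_smul,
        smul_eq_mul] at h5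
      rw [← h5]
      rfl
    · filter_upwards [ELL_ev (c * (⟨0, θ, 1, 0⟩ : DF q) - (⟨0, θ, 1, 0⟩ : DF q) * c).imK
        (c * y - y * c).imK h] with M hM h4
      apply hM
      have h5 := congrArg QuaternionAlgebra.imK (e M)
      rw [sub_eq_zero.2 h4, QuaternionAlgebra.imK_add, QuaternionAlgebra.imK_smul,
        smul_eq_mul] at h5
      rw [← h5]
      rfl
  obtain ⟨M, k1, k2, k3⟩ := (h1.and (h2.and h3)).exists
  refine ⟨(⟨0, θ, 1, 0⟩ : DF q) + (1 / ((M : F) + 1)) • y, ?_, ?_, k2, k3⟩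
  · rw [QuaternionAlgebra.re_add, QuaternionAlgebra.re_smul, hy0]
    simp
  · rw [mul_add, mul_smul_comm, QuaternionAlgebra.re_add, QuaternionAlgebra.re_smul, smul_eq_mul]
    exact k1

/-- **ELLa.** PROOF. Put `n = -nrd x` (`≠ 0`, as `D` is a division algebra, `x ≠ 0`), `m = (c * x).re / n`,
`w = c - c.re - m x`. One computes `nrd w = nrd c - (c.re ^ 2 - (c * x).re ^ 2 / n)` (`field_simp`, `ring` on the
coordinates; `(c * x).re = a c₁ x₁ + b c₂ x₂ - a b c₃ x₃`, as `x.re = 0`). If this is `0` then `w = 0` (a unit has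
`nrd ≠ 0`: `isUnit_iff_nrd`), so `c = c.re + m x` commutes with `x`. -/
theorem nrd_ne_of_not_comm (hdiv : ∀ x : DF q, x ≠ 0 → IsUnit x) (c x : DF q) (hx : x.re = 0)
    (h : c * x ≠ x * c) : nrd c ≠ c.re ^ 2 - (c * x).re ^ 2 / (-nrd x) := by
  intro heq
  have hx0 : x ≠ 0 := by
    rintro rfl
    exact h (by rw [mul_zero, zero_mul])
  have hn : nrd x ≠ 0 := (isUnit_iff_nrd x).1 (hdiv x hx0)
  set m : F := (c * x).re / (-nrd x) with hm
  have hm' : m * (-nrd x) = (c * x).re := by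
    rw [hm, div_mul_cancel₀ _ (neg_ne_zero.2 hn)]
  have hm2 : (c * x).re ^ 2 / (-nrd x) = m ^ 2 * (-nrd x) := by
    rw [← hm', div_eq_iff (neg_ne_zero.2 hn)]
    ring
  set w : DF q := ⟨0, c.imI - m * x.imI, c.imJ - m * x.imJ, c.imK - m * x.imK⟩ with hw
  have h1 : (c * x).re = (q.a : F) * c.imI * x.imI + (q.b : F) * c.imJ * x.imJ -
      (q.a : F) * (q.b : F) * c.imK * x.imK := by
    simp only [QuaternionAlgebra.re_mul, hx]
    ring
  have h2 : nrd x = -(q.a : F) * x.imI ^ 2 - (q.b : F) * x.imJ ^ 2 +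
      (q.a : F) * (q.b : F) * x.imK ^ 2 := by
    simp only [nrd, hx]
    ring
  have h3 : nrd w = nrd c - (c.re ^ 2 - m ^ 2 * (-nrd x)) +
      2 * m * ((c * x).re - m * (-nrd x)) := by
    rw [h1, h2]
    simp only [nrd, hw]
    ring
  have h4 : nrd w = 0 := by
    rw [h3, heq, hm2, hm']
    ring
  have h5 : w = 0 := by
    by_contra h6
    exact (isUnit_iff_nrd w).1 (hdiv w h6) h4
  have e1 : c.imI = m * x.imI := by
    have := congrArg QuaternionAlgebra.imI h5
    simp only [hw, QuaternionAlgebra.imI_zero] at this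
    linear_combination this
  have e2 : c.imJ = m * x.imJ := by
    have := congrArg QuaternionAlgebra.imJ h5
    simp only [hw, QuaternionAlgebra.imJ_zero] at this
    linear_combination this
  have e3 : c.imK = m * x.imK := by
    have := congrArg QuaternionAlgebra.imK h5
    simp only [hw, QuaternionAlgebra.imK_zero] at this
    linear_combination this
  apply h
  ext <;> simp only [QuaternionAlgebra.re_mul, QuaternionAlgebra.imI_mul,
    QuaternionAlgebra.imJ_mul, QuaternionAlgebra.imK_mul, e1, e2, e3, hx] <;> ring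

end Pool.Agent.CGQ
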