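import Pool.Agent.CGQ.EDefs

/-!
# The generic element: integrality of the elements of the stabilisers
-/

noncomputable section

set_option linter.unusedSectionVars false

namespace Pool.Agent.CGQ

open NumberField IsDedekindDomain
open Pool.Agent.CG2 (Pl Fv Ov)

variable {F : Type} [Field F] [NumberField F] {q : Qd F}

private theorem ELN_bdd {v : Pl F} {C : Set (DV q v)ˣ} (hC : IsCompact C) (f : (DV q v)ˣ → Fv v)
    (hf : Continuous f) : ∃ n : ℕ, ∀ h ∈ C, Valued.v (f h) ≤ WithZero.exp (n : ℤ) := by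
  have hcov : C ⊆ ⋃ n : ℕ, {h | Valued.v (f h) < WithZero.exp (n : ℤ)} := by
    intro h _
    rw [Set.mem_iUnion]
    by_cases h0 : Valued.v (f h) = 0
    · refine ⟨0, ?_⟩
      rw [Set.mem_ofPred_eq, h0]
      exact WithZero.exp_pos
    · obtain ⟨m, hm⟩ : ∃ m : ℤ, Valued.v (f h) = WithZero.exp m :=
        ⟨WithZero.log (Valued.v (f h)), (WithZero.exp_log h0).symm⟩
      refine ⟨(m + 1).toNat, ?_⟩
      rw [Set.mem_ofPred_eq, hm, WithZero.exp_lt_exp]
      have := Int.self_le_toNat (m + 1)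
      omega
  have hdir : Directed (· ⊆ ·) (fun n : ℕ => {h | Valued.v (f h) < WithZero.exp (n : ℤ)}) := by
    refine Monotone.directed_le fun n m hnm => ?_
    intro h hh
    refine lt_of_lt_of_le hh (WithZero.exp_le_exp.2 ?_)
    exact_mod_cast hnm
  obtain ⟨n, hn⟩ := hC.elim_directed_cover _
    (fun n => (CG2.isOpen_val_lt v _ WithZero.exp_ne_zero).preimage hf) hcov hdir
  exact ⟨n, fun h hh => (hn hh).le⟩

private theorem ELN_trd_conj {v : Pl F} (g h : (DV q v)ˣ) :
    trd ((g⁻¹ * h * g : (DV q v)ˣ)).1 = trd h.1 := by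
  have h1 : ∀ x y : DV q v, trd (x * y) = trd (y * x) := by
    intro x y
    simp only [trd, QuaternionAlgebra.re_mul]
    ring
  rw [Units.val_mul, Units.val_mul, h1, ← mul_assoc, Units.mul_inv, one_mul]

private theorem ELN_nrd_conj {v : Pl F} (g h : (DV q v)ˣ) :
    nrd ((g⁻¹ * h * g : (DV q v)ˣ)).1 = nrd h.1 := by
  have h1 : nrd (g⁻¹ : (DV q v)ˣ).1 * nrd g.1 = 1 := by
    rw [← nrd_mul, Units.inv_mul, nrd_one]
  rw [Units.val_mul, Units.val_mul, nrd_mul, nrd_mul]
  linear_combination nrd h.1 * h1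

private theorem ELN_val (v : Pl F) (x : F) :
    Valued.v (IsScalarTower.toAlgHom (𝓞 F) F (Fv v) x) = v.valuation F x :=
  HeightOneSpectrum.adicCompletion.valued_coe ..

private theorem ELN_trd (v : Pl F) (x : DF q) : Valued.v (trd (dloc q v x)) =
    v.valuation F (trd x) := by
  have h : trd (qam q (IsScalarTower.toAlgHom (𝓞 F) F (Fv v)) x) =
      IsScalarTower.toAlgHom (𝓞 F) F (Fv v) (trd x) := by
    rw [trd, trd, map_mul (IsScalarTower.toAlgHom (𝓞 F) F (Fv v)), map_ofNat]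
    rfl
  rw [← ELN_val, dloc, h]

private theorem ELN_nrd (v : Pl F) (x : DF q) : Valued.v (nrd (dloc q v x)) =
    v.valuation F (nrd x) := by
  rw [← ELN_val, dloc, nrd_qam]

/-- **ELN.** Bounds for the traces and norms of all powers.
PROOF. `g = y.2.1 v`. For all `n`, `γ ^ n ∈ Stab K y` and `γ⁻¹ ^ n ∈ Stab K y`; by `mem_Stab'` `(g)⁻¹ * loc v (γ ^ n) * g` is the `v` component of an
element of `K`, so it is in the compact set `C v` of `hK.cp`. `trd (g⁻¹ h g) = trd h` and `nrd (g⁻¹ h g) = nrd h` (`nrd_mul`; for `trd`: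
`(x * y).re = (y * x).re`, `ring`). The functions `trd` and `nrd` are continuous on `(DV q v)ˣ` (`continuous_re`, ...), so their
valuations are bounded on the compact set `C v` (`Valued.v` is locally bounded; e.g. `IsCompact.exists_bound_of_continuousOn` is for norms; here:
the open sets `{h | v (trd h) < γ}` cover). -/
theorem exists_bound {K : Subgroup (sysD q).A} (hK : OC K) (y : (sysD q).Pt) (γ : (DF q)ˣ)
    (hγ : (show (sysD q).G from γ) ∈ Stab K y) (v : Pl F) :
    ∃ R : WithZero (Multiplicative ℤ), R ≠ 0 ∧ ∀ n : ℕ, v.valuation F (trd (γ.1 ^ n)) ≤ R ∧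
      v.valuation F (nrd (γ.1 ^ n)) ≤ R ∧ v.valuation F (nrd ((γ⁻¹ : (DF q)ˣ).1 ^ n)) ≤ R := by
  obtain ⟨C, hC, -, hCK⟩ := hK.cp
  have hct : Continuous fun h : (DV q v)ˣ => trd h.1 := by
    have : Continuous fun x : DV q v => trd x := continuous_const.mul continuous_re
    exact this.comp Units.continuous_val
  have hcn : Continuous fun h : (DV q v)ˣ => nrd h.1 := by
    have : Continuous fun x : DV q v => nrd x :=
      (((continuous_re.pow 2).sub (continuous_const.mul (continuous_imI.pow 2))).sub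
        (continuous_const.mul (continuous_imJ.pow 2))).add
        (continuous_const.mul (continuous_imK.pow 2))
    exact this.comp Units.continuous_val
  obtain ⟨n1, h1⟩ := ELN_bdd (hC v) _ hct
  obtain ⟨n2, h2⟩ := ELN_bdd (hC v) _ hcn
  -- the local components of the elements of the stabiliser
  have key : ∀ δ : (DF q)ˣ, (show (sysD q).G from δ) ∈ Stab K y →
      ∃ g : (DV q v)ˣ, (g⁻¹ * (Units.map (dloc q v : DF q →* DV q v) δ) * g : (DV q v)ˣ) ∈ C v := by
    intro δ hδ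
    obtain ⟨κ, hκ, h⟩ := mem_Stab'.1 hδ
    have h3 : diag (show (sysD q).G from δ) * y.2 = y.2 * κ := congrArg Prod.snd h
    have h4 : κ = y.2⁻¹ * diag (show (sysD q).G from δ) * y.2 := by
      rw [mul_assoc, h3, inv_mul_cancel_left]
    refine ⟨y.2.1 v, ?_⟩
    have h5 := hCK κ hκ v
    rw [h4] at h5
    exact h5
  have kt : ∀ δ : (DF q)ˣ, (show (sysD q).G from δ) ∈ Stab K y →
      v.valuation F (trd δ.1) ≤ WithZero.exp (n1 : ℤ) ∧
        v.valuation F (nrd δ.1) ≤ WithZero.exp (n2 : ℤ) := by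
    intro δ hδ
    obtain ⟨g, hg⟩ := key δ hδ
    have e1 := h1 _ hg
    have e2 := h2 _ hg
    simp only [ELN_trd_conj, ELN_nrd_conj] at e1 e2
    change Valued.v (trd (dloc q v δ.1)) ≤ _ at e1
    change Valued.v (nrd (dloc q v δ.1)) ≤ _ at e2
    rw [ELN_trd] at e1
    rw [ELN_nrd] at e2
    exact ⟨e1, e2⟩
  refine ⟨max (WithZero.exp (n1 : ℤ)) (WithZero.exp (n2 : ℤ)), ?_, fun n => ⟨?_, ?_, ?_⟩⟩
  · exact ne_of_gt (lt_max_of_lt_left WithZero.exp_pos)
  · have h3 := (kt (γ ^ n) (pow_mem hγ n)).1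
    rw [Units.val_pow_eq_pow_val] at h3
    exact h3.trans (le_max_left _ _)
  · have h3 := (kt (γ ^ n) (pow_mem hγ n)).2
    rw [Units.val_pow_eq_pow_val] at h3
    exact h3.trans (le_max_right _ _)
  · have h3 := (kt (γ⁻¹ ^ n) (pow_mem (inv_mem hγ) n)).2
    rw [Units.val_pow_eq_pow_val] at h3
    exact h3.trans (le_max_right _ _)

private theorem ELNa_le_one {x R : WithZero (Multiplicative ℤ)} (h : ∀ n : ℕ, x ^ (n + 1) ≤ R) :
    x ≤ 1 := by
  by_contra hx
  push Not at hx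
  obtain ⟨n, hn⟩ := MulArchimedean.arch R hx
  have h1 := h n
  have h2 : x ^ n < x ^ (n + 1) := pow_lt_pow_right₀ hx (Nat.lt_succ_self n)
  exact absurd (h1.trans hn) (not_le.2 h2)

private theorem ELNa_pow_nrd (x : DF q) (n : ℕ) : nrd (x ^ n) = nrd x ^ n := by
  induction n with
  | zero => simp
  | succ n ih => rw [pow_succ, nrd_mul, ih, pow_succ]

private theorem ELNa_rec (x : DF q) (n : ℕ) :
    trd (x ^ (n + 2)) = trd x * trd (x ^ (n + 1)) - nrd x * trd (x ^ n) := by
  have h : x ^ (n + 2) = x ^ n * (x * x) := by rw [pow_add, pow_two]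
  have h' : x ^ (n + 1) = x ^ n * x := pow_succ x n
  rw [h, h']
  set z := x ^ n
  simp only [trd, nrd, QuaternionAlgebra.re_mul, QuaternionAlgebra.imI_mul,
    QuaternionAlgebra.imJ_mul, QuaternionAlgebra.imK_mul]
  ring

private theorem ELNa_int {x : F} (h : ∀ v : Pl F, v.valuation F x ≤ 1) : IsIntegral ℤ x := by
  obtain ⟨y, hy⟩ := HeightOneSpectrum.mem_integers_of_valuation_le_one F x h
  rw [← hy]
  exact RingOfIntegers.isIntegral_coe y

/-- **ELNa.** Integrality of the trace and norm.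
PROOF. It is enough to show `v (trd γ) ≤ 1` and `v (nrd γ) ≤ 1`, `v (nrd γ)⁻¹ ≤ 1` for all `v`
(`HeightOneSpectrum.mem_integers_of_valuation_le_one`, then integral over `ℤ`). `v (nrd γ) ^ n = v (nrd (γ ^ n)) ≤ R` for all
`n` gives `v (nrd γ) ≤ 1`; the same for `γ⁻¹`; so it is `1`. Let `t = trd γ`, `t_n = trd (γ ^ n)`: `t_0 = 2`, `t_1 = t`,
`t_(n+2) = t t_(n+1) - nrd γ t_n` (from `γ ^ 2 = t γ - nrd γ`: `γ * γ - trd γ • γ + nrd γ = 0`, `ring` on coordinates). If `v t > 1` then by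
induction `v t_n = (v t) ^ n` for `n ≥ 1` (`v (t t_(n+1)) > v (nrd γ t_n)`; the case `n = 0` uses `v 2 ≤ 1`), which is not
bounded by `R`. -/
theorem stab_integral {K : Subgroup (sysD q).A} (hK : OC K) (y : (sysD q).Pt) (γ : (DF q)ˣ)
    (hγ : (show (sysD q).G from γ) ∈ Stab K y) :
    IsIntegral ℤ (trd γ.1) ∧ IsIntegral ℤ (nrd γ.1) ∧ IsIntegral ℤ (nrd γ.1)⁻¹ := by
  have hn : ∀ v : Pl F, v.valuation F (nrd γ.1) ≤ 1 := by
    intro v
    obtain ⟨R, -, hR⟩ := exists_bound hK y γ hγ v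
    apply ELNa_le_one (R := R)
    intro n
    rw [← map_pow, ← ELNa_pow_nrd]
    exact (hR (n + 1)).2.1
  have hn' : ∀ v : Pl F, v.valuation F (nrd (γ⁻¹ : (DF q)ˣ).1) ≤ 1 := by
    intro v
    obtain ⟨R, -, hR⟩ := exists_bound hK y γ hγ v
    apply ELNa_le_one (R := R)
    intro n
    rw [← map_pow, ← ELNa_pow_nrd]
    exact (hR (n + 1)).2.2
  have hinv : (nrd γ.1)⁻¹ = nrd (γ⁻¹ : (DF q)ˣ).1 := by
    symm
    apply eq_inv_of_mul_eq_one_right
    rw [← nrd_mul, Units.mul_inv, nrd_one]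
  refine ⟨ELNa_int fun v => ?_, ELNa_int hn, by rw [hinv]; exact ELNa_int hn'⟩
  obtain ⟨R, -, hR⟩ := exists_bound hK y γ hγ v
  by_contra ht
  push Not at ht
  have h2 : v.valuation F (2 : F) ≤ 1 := by
    have := v.valuation_le_one (K := F) (2 : 𝓞 F)
    exact this
  have key : ∀ n : ℕ, v.valuation F (trd (γ.1 ^ (n + 1))) = v.valuation F (trd γ.1) ^ (n + 1) ∧
      v.valuation F (trd (γ.1 ^ n)) ≤ v.valuation F (trd γ.1) ^ n := by
    intro n
    induction n with
    | zero =>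
      refine ⟨by simp, ?_⟩
      rw [pow_zero, pow_zero]
      have : trd (1 : DF q) = 2 := by simp [trd]
      rw [this]
      exact h2
    | succ n ih =>
      refine ⟨?_, ih.1.le⟩
      rw [ELNa_rec]
      have e1 : v.valuation F (trd γ.1 * trd (γ.1 ^ (n + 1))) =
          v.valuation F (trd γ.1) ^ (n + 1 + 1) := by
        rw [map_mul, ih.1, ← pow_succ']
      have e2 : v.valuation F (nrd γ.1 * trd (γ.1 ^ n)) <
          v.valuation F (trd γ.1 * trd (γ.1 ^ (n + 1))) := by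
        rw [e1, map_mul]
        calc v.valuation F (nrd γ.1) * v.valuation F (trd (γ.1 ^ n)) ≤
              1 * v.valuation F (trd γ.1) ^ n := mul_le_mul' (hn v) ih.2
          _ = v.valuation F (trd γ.1) ^ n := one_mul _
          _ < v.valuation F (trd γ.1) ^ (n + 1 + 1) :=
              pow_lt_pow_right₀ ht (by omega)
      rw [Valuation.map_sub_eq_of_lt_left _ e2, e1]
  apply absurd (ELNa_le_one (R := R) fun n => ?_) (not_le.2 ht)
  rw [← (key n).1]
  exact (hR (n + 1)).1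

end Pool.Agent.CGQ
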