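import Mathlib

/-!
# The generic element: estimates
-/

noncomputable section

namespace Pool.Agent.CGQ

open Filter Topology

/-- The sum of the two roots tends to infinity. -/
theorem exists_big (A A' l : ℂ) (hA : A ≠ 0) (hl : 1 < ‖l‖) (R : ℝ) :
    ∃ N₁ : ℕ, ∀ N ≥ N₁, R < ‖A * l ^ N + A' * (l⁻¹) ^ N‖ := by
  have h1 : Tendsto (fun N : ℕ => ‖A‖ * ‖l‖ ^ N) atTop atTop :=
    (tendsto_pow_atTop_atTop_of_one_lt hl).const_mul_atTop (norm_pos_iff.2 hA)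
  obtain ⟨N₁, hN₁⟩ := (h1.eventually_gt_atTop (R + ‖A'‖)).exists_forall_of_atTop
  refine ⟨N₁, fun N hN => ?_⟩
  have h2 := hN₁ N hN
  have h3 : ‖A' * (l⁻¹) ^ N‖ ≤ ‖A'‖ := by
    rw [norm_mul, norm_pow, norm_inv]
    refine mul_le_of_le_one_right (norm_nonneg _) (pow_le_one₀ (by positivity) ?_)
    exact inv_le_one_of_one_le₀ hl.le
  have h4 : ‖A * l ^ N‖ ≤ ‖A * l ^ N + A' * (l⁻¹) ^ N‖ + ‖A' * (l⁻¹) ^ N‖ := by
    have := norm_sub_le (A * l ^ N + A' * (l⁻¹) ^ N) (A' * (l⁻¹) ^ N)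
    simpa using this
  rw [norm_mul, norm_pow] at h4
  linarith

/-- The big root is close to `A l ^ N`. -/
theorem big_root_near (A A' l n : ℂ) (hA : A ≠ 0) (hl : 1 < ‖l‖) (η : ℝ) (hη : 0 < η) :
    ∃ N₁ : ℕ, ∀ N ≥ N₁, ∀ Z Z' : ℂ, Z + Z' = A * l ^ N + A' * (l⁻¹) ^ N → Z * Z' = n →
      ‖Z'‖ ≤ ‖Z‖ → ‖Z / (A * l ^ N) - 1‖ ≤ η := by
  have hA0 : 0 < ‖A‖ := norm_pos_iff.2 hA
  have h1 : Tendsto (fun N : ℕ => ‖A‖ * ‖l‖ ^ N) atTop atTop :=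
    (tendsto_pow_atTop_atTop_of_one_lt hl).const_mul_atTop hA0
  obtain ⟨N₁, hN₁⟩ := (h1.eventually_ge_atTop ((‖A'‖ + √‖n‖) / η)).exists_forall_of_atTop
  refine ⟨N₁, fun N hN Z Z' hs hp hle => ?_⟩
  have h2 := hN₁ N hN
  have h3 : ‖A' * (l⁻¹) ^ N‖ ≤ ‖A'‖ := by
    rw [norm_mul, norm_pow, norm_inv]
    refine mul_le_of_le_one_right (norm_nonneg _) (pow_le_one₀ (by positivity) ?_)
    exact inv_le_one_of_one_le₀ hl.le
  have h4 : ‖Z'‖ ≤ √‖n‖ := by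
    refine Real.le_sqrt_of_sq_le ?_
    rw [← hp, norm_mul, sq]
    exact mul_le_mul_of_nonneg_right hle (norm_nonneg _)
  have hl0 : l ≠ 0 := by
    rintro rfl
    simp at hl
    linarith
  have h5 : A * l ^ N ≠ 0 := mul_ne_zero hA (pow_ne_zero _ hl0)
  have h6 : Z / (A * l ^ N) - 1 = (A' * (l⁻¹) ^ N - Z') / (A * l ^ N) := by
    field_simp
    have : Z = A * l ^ N + A' * (l⁻¹) ^ N - Z' := by rw [← hs]; ring
    rw [this]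
    ring
  rw [h6, norm_div, norm_mul, norm_pow, div_le_iff₀ (by positivity)]
  have h7 : ‖A' * (l⁻¹) ^ N - Z'‖ ≤ ‖A'‖ + √‖n‖ := (norm_sub_le _ _).trans (add_le_add h3 h4)
  have h8 := (div_le_iff₀ hη).1 h2
  linarith

/-- **ELC.** The trace of `u = Z₀ Z₂ / Z₁²` is close to `2` when the `Z i` are the big roots.
PROOF. `big_root_near` with a small `η'` (`η' ≤ 1/10`, `100 * η'^2 ≤ η`): `Z i = A l^(N+is) (1 + e i)` with
`‖e i‖ ≤ η'`; as `Z' i = n / Z i`, the expression is `u + u⁻¹ - 2 = (u - 1)^2 / u`, where `u = Z 0 * Z 2 / Z 1 ^ 2 =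
(1 + e 0) (1 + e 2) / (1 + e 1)^2`; `‖u - 1‖ ≤ 6 η'` and `‖u‖ ≥ 1 / 2`. -/
theorem big_place (A A' l n : ℂ) (hA : A ≠ 0) (hl : 1 < ‖l‖) (hn : n ≠ 0) (η : ℝ) (hη : 0 < η) :
    ∃ N₁ : ℕ, ∀ N s : ℕ, N₁ ≤ N → ∀ Z Z' : Fin 3 → ℂ,
      (∀ i : Fin 3, Z i + Z' i = A * l ^ (N + i * s) + A' * (l⁻¹) ^ (N + i * s)) →
      (∀ i, Z i * Z' i = n) → (∀ i, ‖Z' i‖ ≤ ‖Z i‖) →
      ‖(Z 0 * Z 2 * Z' 1 ^ 2 + Z' 0 * Z' 2 * Z 1 ^ 2) / n ^ 2 - 2‖ ≤ η := by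
  obtain ⟨η', hη', h1, h2⟩ : ∃ η' : ℝ, 0 < η' ∧ η' ≤ 1 / 10 ∧ 100 * η' ^ 2 ≤ η := by
    refine ⟨min (1 / 10) (min 1 (η / 100)), by positivity, min_le_left _ _, ?_⟩
    set m := min (1 / 10 : ℝ) (min 1 (η / 100)) with hm
    have h0 : 0 < m := by positivity
    have h1 : m ≤ 1 := (min_le_right _ _).trans (min_le_left _ _)
    have h2 : m ≤ η / 100 := (min_le_right _ _).trans (min_le_right _ _)
    nlinarith
  obtain ⟨N₁, hN₁⟩ := big_root_near A A' l n hA hl η' hη'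
  refine ⟨N₁, fun N s hN Z Z' hs hp hle => ?_⟩
  have hl0 : l ≠ 0 := by
    rintro rfl
    simp at hl
    linarith
  have key : ∀ i : Fin 3, ∃ e : ℂ, Z i = A * l ^ (N + i * s) * (1 + e) ∧ ‖e‖ ≤ η' := by
    intro i
    have h5 : A * l ^ (N + (i : ℕ) * s) ≠ 0 := mul_ne_zero hA (pow_ne_zero _ hl0)
    refine ⟨Z i / (A * l ^ (N + (i : ℕ) * s)) - 1, ?_, ?_⟩
    · field_simp
      ring
    · exact hN₁ (N + i * s) (by omega) (Z i) (Z' i) (hs i) (hp i) (hle i)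
  obtain ⟨e0, h0, he0⟩ := key 0
  obtain ⟨e1, h1', he1⟩ := key 1
  obtain ⟨e2, h2', he2⟩ := key 2
  have hZ : ∀ i, Z i ≠ 0 := by
    intro i h
    apply hn
    rw [← hp i, h, zero_mul]
  have hZ' : ∀ i, Z' i = n / Z i := by
    intro i
    rw [eq_div_iff (hZ i), mul_comm]
    exact hp i
  set u : ℂ := (1 + e0) * (1 + e2) / (1 + e1) ^ 2 with hu
  have hne : ∀ e : ℂ, ‖e‖ ≤ η' → (9 : ℝ) / 10 ≤ ‖1 + e‖ ∧ ‖1 + e‖ ≤ 11 / 10 := by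
    intro e he
    have ha : ‖(1 : ℂ)‖ ≤ ‖1 + e‖ + ‖e‖ := by
      have := norm_sub_le (1 + e) e
      simpa using this
    have hb : ‖1 + e‖ ≤ ‖(1 : ℂ)‖ + ‖e‖ := norm_add_le _ _
    rw [norm_one] at ha hb
    constructor <;> linarith
  have hne0 : ∀ e : ℂ, ‖e‖ ≤ η' → 1 + e ≠ 0 := by
    intro e he h
    have := (hne e he).1
    rw [h, norm_zero] at this
    linarith
  have hu0 : u ≠ 0 := div_ne_zero (mul_ne_zero (hne0 _ he0) (hne0 _ he2))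
    (pow_ne_zero _ (hne0 _ he1))
  have e1ne := hne0 _ he1
  have e0ne := hne0 _ he0
  have e2ne := hne0 _ he2
  have hexp : (Z 0 * Z 2 * Z' 1 ^ 2 + Z' 0 * Z' 2 * Z 1 ^ 2) / n ^ 2 - 2 = (u - 1) ^ 2 / u := by
    have hL : (Z 0 * Z 2 * Z' 1 ^ 2 + Z' 0 * Z' 2 * Z 1 ^ 2) / n ^ 2 = u + u⁻¹ := by
      rw [hZ' 0, hZ' 1, hZ' 2]
      have hz0 := hZ 0
      have hz1 := hZ 1
      have hz2 := hZ 2
      have e3 : (Z 0 * Z 2 * (n / Z 1) ^ 2 + n / Z 0 * (n / Z 2) * Z 1 ^ 2) / n ^ 2 =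
          Z 0 * Z 2 / Z 1 ^ 2 + (Z 0 * Z 2 / Z 1 ^ 2)⁻¹ := by
        field_simp
      have e4 : Z 0 * Z 2 / Z 1 ^ 2 = u := by
        rw [h0, h1', h2', hu]
        have hp1 : l ^ (N + ((0 : Fin 3) : ℕ) * s) * l ^ (N + ((2 : Fin 3) : ℕ) * s) =
            (l ^ (N + ((1 : Fin 3) : ℕ) * s)) ^ 2 := by
          rw [← pow_add, ← pow_mul]
          congr 1
          simp
          ring
        have hlp : l ^ (N + ((1 : Fin 3) : ℕ) * s) ≠ 0 := pow_ne_zero _ hl0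
        rw [div_eq_div_iff (by
          exact pow_ne_zero _ (mul_ne_zero (mul_ne_zero hA hlp) e1ne)) (pow_ne_zero _ e1ne)]
        calc A * l ^ (N + ((0 : Fin 3) : ℕ) * s) * (1 + e0) *
              (A * l ^ (N + ((2 : Fin 3) : ℕ) * s) * (1 + e2)) * (1 + e1) ^ 2
            = A ^ 2 * (l ^ (N + ((0 : Fin 3) : ℕ) * s) * l ^ (N + ((2 : Fin 3) : ℕ) * s)) *
              ((1 + e0) * (1 + e2)) * (1 + e1) ^ 2 := by ring
          _ = _ := by rw [hp1]; ring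
      rw [e3, e4]
    rw [hL]
    field_simp
    ring
  rw [hexp, norm_div, norm_pow]
  have hub : ‖u - 1‖ ≤ 6 * η' := by
    have e5 : u - 1 = (e0 + e2 + e0 * e2 - 2 * e1 - e1 ^ 2) / (1 + e1) ^ 2 := by
      rw [hu]
      field_simp
      ring
    rw [e5, norm_div, norm_pow, div_le_iff₀ (by
      have := (hne e1 he1).1
      positivity)]
    have e6 : ‖e0 + e2 + e0 * e2 - 2 * e1 - e1 ^ 2‖ ≤ ‖e0‖ + ‖e2‖ + ‖e0‖ * ‖e2‖ + 2 * ‖e1‖ + ‖e1‖ ^ 2 := by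
      calc ‖e0 + e2 + e0 * e2 - 2 * e1 - e1 ^ 2‖ ≤ ‖e0 + e2 + e0 * e2 - 2 * e1‖ + ‖e1 ^ 2‖ :=
            norm_sub_le _ _
        _ ≤ ‖e0 + e2 + e0 * e2‖ + ‖2 * e1‖ + ‖e1 ^ 2‖ := by gcongr; exact norm_sub_le _ _
        _ ≤ ‖e0 + e2‖ + ‖e0 * e2‖ + ‖2 * e1‖ + ‖e1 ^ 2‖ := by gcongr; exact norm_add_le _ _
        _ ≤ ‖e0‖ + ‖e2‖ + ‖e0 * e2‖ + ‖2 * e1‖ + ‖e1 ^ 2‖ := by gcongr; exact norm_add_le _ _
        _ = _ := by rw [norm_mul, norm_mul, norm_pow]; simp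
    have e7 := (hne e1 he1).1
    have e8 : (4 : ℝ) / 5 ≤ ‖1 + e1‖ ^ 2 := by nlinarith
    have e9 := norm_nonneg e0
    have e10 := norm_nonneg e1
    have e11 := norm_nonneg e2
    have e12 : ‖e0‖ * ‖e2‖ ≤ 1 / 10 * η' :=
      mul_le_mul (he0.trans h1) he2 e11 (by norm_num)
    have e13 : ‖e1‖ ^ 2 ≤ 1 / 10 * η' := by
      rw [sq]
      exact mul_le_mul (he1.trans h1) he1 e10 (by norm_num)
    nlinarith
  have hulb : (1 : ℝ) / 2 ≤ ‖u‖ := by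
    rw [hu, norm_div, norm_mul, norm_pow, le_div_iff₀ (by
      have := (hne e1 he1).1
      positivity)]
    have a0 := (hne e0 he0).1
    have a1 := (hne e1 he1).2
    have a1' := (hne e1 he1).1
    have a2 := (hne e2 he2).1
    nlinarith
  have hup : 0 < ‖u‖ := norm_pos_iff.2 hu0
  rw [div_le_iff₀ hup]
  have := norm_nonneg (u - 1)
  nlinarith

/-- **ELD.** The bound at the other places.
PROOF. `(Z i - Z' i)^2 = τ i^2 - 4 n ≤ 0` is real, so `Z i = (τ i + y I) / 2`, `Z' i = (τ i - y I) / 2` with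
`y` real and `‖Z i‖ = ‖Z' i‖`, `‖Z i‖ ^ 2 = ‖n‖`. So `‖Z 0 * Z 2 * Z' 1 ^ 2‖ = ‖n‖ ^ 2`, the same for the
other term. -/
theorem small_place (τ : Fin 3 → ℝ) (n : ℝ) (hn : n ≠ 0) (hτ : ∀ i, τ i ^ 2 ≤ 4 * n)
    (Z Z' : Fin 3 → ℂ) (h1 : ∀ i, Z i + Z' i = τ i) (h2 : ∀ i, Z i * Z' i = n) :
    ‖(Z 0 * Z 2 * Z' 1 ^ 2 + Z' 0 * Z' 2 * Z 1 ^ 2) / (n : ℂ) ^ 2 - 2‖ ≤ 4 := by
  have key : ∀ i, ‖Z i‖ ^ 2 = |n| ∧ ‖Z' i‖ ^ 2 = |n| := by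
    intro i
    have hsq : (Z i - Z' i) ^ 2 = ((τ i ^ 2 - 4 * n : ℝ) : ℂ) := by
      have : (Z i - Z' i) ^ 2 = (Z i + Z' i) ^ 2 - 4 * (Z i * Z' i) := by ring
      rw [this, h1, h2]
      push_cast
      ring
    set w := Z i - Z' i with hw
    have hre : w.re = 0 := by
      have h3 := congrArg Complex.re hsq
      have h4 := congrArg Complex.im hsq
      rw [sq, Complex.mul_re, Complex.ofReal_re] at h3
      rw [sq, Complex.mul_im, Complex.ofReal_im] at h4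
      have h5 := hτ i
      have h6 : w.re * w.im = 0 := by linarith
      rcases mul_eq_zero.1 h6 with h | h
      · exact h
      · rw [h] at h3
        nlinarith [sq_nonneg w.re]
    have hZ : Z i = (τ i + w) / 2 := by rw [← h1, hw]; ring
    have hZ' : Z' i = (τ i - w) / 2 := by rw [← h1, hw]; ring
    have hconj : (starRingEnd ℂ) (Z i) = Z' i := by
      have hw' : (starRingEnd ℂ) w = -w := by apply Complex.ext <;> simp [hre]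
      rw [hZ, hZ', map_div₀, map_add, hw', Complex.conj_ofReal, map_ofNat]
      ring
    have e1 : ‖Z i‖ = ‖Z' i‖ := by rw [← hconj, Complex.norm_conj]
    have e2 : ‖Z i‖ * ‖Z' i‖ = |n| := by rw [← norm_mul, h2, Complex.norm_real, Real.norm_eq_abs]
    rw [← e1] at e2
    refine ⟨by rw [sq, e2], by rw [← e1, sq, e2]⟩
  have hn' : 0 < |n| := abs_pos.2 hn
  have hz : ∀ i, ‖Z i‖ = √|n| ∧ ‖Z' i‖ = √|n| := by
    intro i
    rw [← (key i).1, Real.sqrt_sq (norm_nonneg _)]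
    refine ⟨rfl, ?_⟩
    have := (key i).1.trans (key i).2.symm
    exact ((pow_left_inj₀ (norm_nonneg _) (norm_nonneg _) two_ne_zero).1 this).symm
  have hs : √|n| * √|n| = |n| := Real.mul_self_sqrt hn'.le
  have t1 : ‖Z 0 * Z 2 * Z' 1 ^ 2‖ = |n| ^ 2 := by
    rw [norm_mul, norm_mul, norm_pow, (hz 0).1, (hz 2).1, (hz 1).2, hs, sq, hs]
    ring
  have t2 : ‖Z' 0 * Z' 2 * Z 1 ^ 2‖ = |n| ^ 2 := by
    rw [norm_mul, norm_mul, norm_pow, (hz 0).2, (hz 2).2, (hz 1).1, hs, sq, hs]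
    ring
  have t3 : ‖(n : ℂ) ^ 2‖ = |n| ^ 2 := by rw [norm_pow, Complex.norm_real, Real.norm_eq_abs]
  calc ‖(Z 0 * Z 2 * Z' 1 ^ 2 + Z' 0 * Z' 2 * Z 1 ^ 2) / (n : ℂ) ^ 2 - 2‖
      ≤ ‖(Z 0 * Z 2 * Z' 1 ^ 2 + Z' 0 * Z' 2 * Z 1 ^ 2) / (n : ℂ) ^ 2‖ + ‖(2 : ℂ)‖ := norm_sub_le _ _
    _ ≤ 2 + 2 := by
        gcongr
        · rw [norm_div, t3, div_le_iff₀ (by positivity)]
          refine (norm_add_le _ _).trans ?_
          rw [t1, t2]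
          linarith
        · simp
    _ = 4 := by norm_num

end Pool.Agent.CGQ
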