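import Mathlib

/-!
# The generic element: integral elements of small norm, the algebraic end of the argument
-/

noncomputable section

namespace Pool.Agent.CGQ

open NumberField

/-- **ELE.** An integral element which is very small at some embeddings and bounded at the others is
zero. -/
theorem eq_zero_of_small {F : Type} [Field F] [NumberField F] (x : F) (hx : IsIntegral ℤ x)
    (big : (F →+* ℂ) → Prop) (hbig : ∃ φ, big φ)
    (h1 : ∀ φ, big φ → ‖φ x‖ ≤ (1 / 5) ^ (Module.finrank ℚ F))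
    (h2 : ∀ φ, ¬ big φ → ‖φ x‖ ≤ 4) : x = 0 := by
  classical
  by_contra hne
  set n := Module.finrank ℚ F with hn
  have hn0 : 0 < n := Module.finrank_pos
  have hnorm : 1 ≤ |Algebra.norm ℚ x| := by
    obtain ⟨z, hz⟩ := IsIntegrallyClosed.isIntegral_iff.1 (Algebra.isIntegral_norm ℚ hx)
    have hz0 : z ≠ 0 := by
      rintro rfl
      apply hne
      rw [← Algebra.norm_eq_zero_iff (R := ℚ), ← hz]
      simp
    rw [← hz, eq_intCast]
    have : (1 : ℤ) ≤ |z| := Int.one_le_abs hz0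
    exact_mod_cast this
  have hprod : ((|Algebra.norm ℚ x| : ℚ) : ℝ) = ∏ φ : F →+* ℂ, ‖φ x‖ := by
    have h := Algebra.norm_eq_prod_embeddings ℚ ℂ x
    have h3 : ‖(algebraMap ℚ ℂ) (Algebra.norm ℚ x)‖ = ((|Algebra.norm ℚ x| : ℚ) : ℝ) := by
      simp
    rw [← h3, h, norm_prod]
    exact Fintype.prod_equiv (RingHom.equivRatAlgHom (R := F) (S := ℂ)).symm _ _ (fun σ => rfl)
  have hcard : Fintype.card (F →+* ℂ) = n := NumberField.Embeddings.card F ℂ
  have hlt : ∏ φ : F →+* ℂ, ‖φ x‖ < 1 := by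
    obtain ⟨φ₀, hφ₀⟩ := hbig
    rw [← Finset.mul_prod_erase Finset.univ _ (Finset.mem_univ φ₀)]
    have hb : ∏ φ ∈ Finset.univ.erase φ₀, ‖φ x‖ ≤ 4 ^ (n - 1) := by
      have h5 : ∏ φ ∈ Finset.univ.erase φ₀, ‖φ x‖ ≤ ∏ φ ∈ Finset.univ.erase φ₀, (4 : ℝ) := by
        refine Finset.prod_le_prod (fun _ _ => norm_nonneg _) fun φ _ => ?_
        by_cases hb : big φ
        · refine (h1 φ hb).trans ((pow_le_one₀ (by norm_num) (by norm_num)).trans (by norm_num))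
        · exact h2 φ hb
      rw [Finset.prod_const, Finset.card_erase_of_mem (Finset.mem_univ _), Finset.card_univ,
        hcard] at h5
      exact h5
    have hp : 0 ≤ ∏ φ ∈ Finset.univ.erase φ₀, ‖φ x‖ := Finset.prod_nonneg fun _ _ => norm_nonneg _
    calc ‖φ₀ x‖ * ∏ φ ∈ Finset.univ.erase φ₀, ‖φ x‖
        ≤ (1 / 5) ^ n * 4 ^ (n - 1) :=
          mul_le_mul (h1 φ₀ hφ₀) hb hp (by positivity)
      _ ≤ (1 / 5) ^ n * 4 ^ n := by
          gcongr
          · norm_num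
          · omega
      _ = (4 / 5) ^ n := by rw [← mul_pow]; norm_num
      _ < 1 := pow_lt_one₀ (by norm_num) (by norm_num) hn0.ne'
  rw [← hprod] at hlt
  have : (|Algebra.norm ℚ x| : ℚ) < 1 := by exact_mod_cast hlt
  linarith

/-- **ELF.** The algebraic end. -/
theorem end_alg {Ω : Type} [Field Ω] {ν α α' Δ : Ω} {Z Z' : Fin 3 → Ω} {N s : ℕ} (hν : ν ≠ 0)
    (hΔ : Δ ≠ 0) (hs : Δ ^ (2 * s) ≠ 1)
    (h1 : ∀ i : Fin 3, Z i + Z' i = α * Δ ^ (N + i * s) + α' * (Δ⁻¹) ^ (N + i * s))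
    (h2 : ∀ i, Z i * Z' i = ν)
    (hT : (Z 0 * Z 2 * Z' 1 ^ 2 + Z' 0 * Z' 2 * Z 1 ^ 2) / ν ^ 2 = 2) (ht : Z 1 + Z' 1 ≠ 0) :
    ν = α * α' := by
  have hZ : ∀ i, Z i ≠ 0 := by
    intro i h
    apply hν
    rw [← h2 i, h, zero_mul]
  have hZ' : ∀ i, Z' i ≠ 0 := by
    intro i h
    apply hν
    rw [← h2 i, h, mul_zero]
  have hT' : Z 0 * Z 2 * Z' 1 ^ 2 + Z' 0 * Z' 2 * Z 1 ^ 2 = 2 * ν ^ 2 := by
    rw [div_eq_iff (pow_ne_zero 2 hν)] at hT
    exact hT
  -- the two terms have product `ν ^ 4`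
  have hX : (Z 0 * Z 2 * Z' 1 ^ 2 - ν ^ 2) ^ 2 = 0 := by
    have hp : (Z 0 * Z 2 * Z' 1 ^ 2) * (Z' 0 * Z' 2 * Z 1 ^ 2) = ν ^ 4 := by
      have : (Z 0 * Z 2 * Z' 1 ^ 2) * (Z' 0 * Z' 2 * Z 1 ^ 2) =
        (Z 0 * Z' 0) * (Z 2 * Z' 2) * (Z 1 * Z' 1) ^ 2 := by ring
      rw [this, h2, h2, h2]
      ring
    linear_combination (Z 0 * Z 2 * Z' 1 ^ 2) * hT' - hp
  have hX' : Z 0 * Z 2 * Z' 1 ^ 2 = ν ^ 2 := sub_eq_zero.1 (pow_eq_zero_iff two_ne_zero |>.1 hX)
  have hX'' : Z' 0 * Z' 2 * Z 1 ^ 2 = ν ^ 2 := by linear_combination hT' - hX'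
  have hZZ : Z 0 * Z 2 = Z 1 ^ 2 := by
    have : (Z 0 * Z 2 - Z 1 ^ 2) * Z' 1 ^ 2 = 0 := by
      have h3 : Z 1 ^ 2 * Z' 1 ^ 2 = ν ^ 2 := by rw [← mul_pow, h2]
      linear_combination hX' - h3
    exact sub_eq_zero.1 ((mul_eq_zero.1 this).resolve_right (pow_ne_zero _ (hZ' 1)))
  have hZZ' : Z' 0 * Z' 2 = Z' 1 ^ 2 := by
    have : (Z' 0 * Z' 2 - Z' 1 ^ 2) * Z 1 ^ 2 = 0 := by
      have h3 : Z 1 ^ 2 * Z' 1 ^ 2 = ν ^ 2 := by rw [← mul_pow, h2]
      linear_combination hX'' - h3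
    exact sub_eq_zero.1 ((mul_eq_zero.1 this).resolve_right (pow_ne_zero _ (hZ 1)))
  set m := Z 1 / Z 0 with hm
  set m' := Z' 1 / Z' 0 with hm'
  have e1 : Z 1 = Z 0 * m := by rw [hm]; field_simp [hZ 0]
  have e2 : Z 2 = Z 0 * m ^ 2 := by
    rw [hm]
    have := hZ 0
    field_simp
    linear_combination hZZ
  have e1' : Z' 1 = Z' 0 * m' := by rw [hm']; field_simp [hZ' 0]
  have e2' : Z' 2 = Z' 0 * m' ^ 2 := by
    rw [hm']
    have := hZ' 0
    field_simp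
    linear_combination hZZ'
  have hmm : m * m' = 1 := by
    rw [hm, hm', div_mul_div_comm, h2, h2, div_self hν]
  have hm0 : m ≠ 0 := left_ne_zero_of_mul_eq_one hmm
  have hm0' : m' ≠ 0 := right_ne_zero_of_mul_eq_one hmm
  set D := Δ ^ s with hD
  set D' := (Δ⁻¹) ^ s with hD'
  have hDD : D * D' = 1 := by rw [hD, hD', ← mul_pow, mul_inv_cancel₀ hΔ, one_pow]
  set a := α * Δ ^ N with ha
  set a' := α' * (Δ⁻¹) ^ N with ha'
  have t0 : Z 0 + Z' 0 = a + a' := by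
    have := h1 0
    simpa [ha, ha'] using this
  have t1 : Z 0 * m + Z' 0 * m' = a * D + a' * D' := by
    have := h1 1
    rw [e1, e1'] at this
    rw [this, ha, ha', hD, hD', pow_add, pow_add]
    simp
    ring
  have t2 : Z 0 * m ^ 2 + Z' 0 * m' ^ 2 = a * D ^ 2 + a' * D' ^ 2 := by
    have := h1 2
    rw [e2, e2'] at this
    rw [this, ha, ha', hD, hD', pow_add, pow_add]
    simp
    ring
  have ht1 : Z 0 * m + Z' 0 * m' ≠ 0 := by rw [← e1, ← e1']; exact ht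
  have hsum : m + m' = D + D' := by
    have h3 : (m + m') * (Z 0 * m + Z' 0 * m') = (D + D') * (Z 0 * m + Z' 0 * m') := by
      have l1 : (m + m') * (Z 0 * m + Z' 0 * m') = Z 0 * m ^ 2 + Z' 0 * m' ^ 2 + (Z 0 + Z' 0) := by
        linear_combination (Z 0 + Z' 0) * hmm
      have l2 : (D + D') * (a * D + a' * D') = a * D ^ 2 + a' * D' ^ 2 + (a + a') := by
        linear_combination (a + a') * hDD
      rw [l1, t2, t0, t1, l2]
    exact mul_right_cancel₀ ht1 h3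
  have hcase : (m = D ∧ m' = D') ∨ (m = D' ∧ m' = D) := by
    have h3 : (m - D) * (m - D') = 0 := by
      have : m' = D + D' - m := by linear_combination hsum
      rw [this] at hmm
      linear_combination hDD - hmm
    rcases mul_eq_zero.1 h3 with h | h
    · have h4 : m = D := sub_eq_zero.1 h
      refine Or.inl ⟨h4, ?_⟩
      linear_combination hsum - h4
    · have h4 : m = D' := sub_eq_zero.1 h
      refine Or.inr ⟨h4, ?_⟩
      linear_combination hsum - h4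
  have hDne : D - D' ≠ 0 := by
    intro h
    apply hs
    have h3 : D = D' := sub_eq_zero.1 h
    have h4 : D * D = 1 := by
      nth_rewrite 2 [h3]
      exact hDD
    rw [hD, ← pow_add] at h4
    rw [← h4]
    congr 1
    ring
  have haa : a * a' = α * α' := by
    rw [ha, ha']
    have : Δ ^ N * (Δ⁻¹) ^ N = 1 := by rw [← mul_pow, mul_inv_cancel₀ hΔ, one_pow]
    linear_combination (α * α') * this
  rcases hcase with ⟨h3, h4⟩ | ⟨h3, h4⟩
  · rw [h3, h4] at t1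
    have h5 : (Z 0 - a) * (D - D') = 0 := by linear_combination t1 - D' * t0
    have h6 : Z 0 = a := sub_eq_zero.1 ((mul_eq_zero.1 h5).resolve_right hDne)
    have h7 : Z' 0 = a' := by linear_combination t0 - h6
    rw [← h2 0, h6, h7, haa]
  · rw [h3, h4] at t1
    have h5 : (Z' 0 - a) * (D - D') = 0 := by linear_combination t1 - D' * t0
    have h6 : Z' 0 = a := sub_eq_zero.1 ((mul_eq_zero.1 h5).resolve_right hDne)
    have h7 : Z 0 = a' := by linear_combination t0 - h6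
    rw [← h2 0, h6, h7, ← haa]
    ring

end Pool.Agent.CGQ
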