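import Pool.Agent.CGQ.EAvd
import Pool.Agent.CGQ.EEst
import Pool.Agent.CGQ.ENrm

/-!
# The generic element: the fields generated by the elements of a progression
-/

noncomputable section

namespace Pool.Agent.CGQ

open NumberField

/-- A root of a monic quadratic polynomial with integral coefficients. -/
theorem isIntegral_quad {Ω : Type} [Field Ω] {x t n : Ω} (ht : IsIntegral ℤ t)
    (hn : IsIntegral ℤ n) (h : x ^ 2 - t * x + n = 0) : IsIntegral ℤ x := by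
  set S := integralClosure ℤ Ω with hS
  have h1 : IsIntegral S x := by
    refine ⟨Polynomial.X ^ 2 - Polynomial.C (⟨t, ht⟩ : S) * Polynomial.X +
      Polynomial.C (⟨n, hn⟩ : S), ?_, ?_⟩
    · monicity!
    · simp only [Polynomial.eval₂_add, Polynomial.eval₂_sub, Polynomial.eval₂_mul,
        Polynomial.eval₂_pow, Polynomial.eval₂_X, Polynomial.eval₂_C]
      exact h
  exact isIntegral_trans x h1

/-- The estimate at a big embedding. -/
theorem big_emb {A A' l n : ℂ} (hA : A ≠ 0) (hA' : A' ≠ 0) (hl0 : l ≠ 0) (hl : ‖l‖ ≠ 1)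
    (hn : n ≠ 0) (η : ℝ) (hη : 0 < η) :
    ∃ N₁ : ℕ, (∀ N ≥ N₁, A * l ^ N + A' * (l⁻¹) ^ N ≠ 0) ∧
      ∀ N s : ℕ, N₁ ≤ N → ∀ Z Z' : Fin 3 → ℂ,
      (∀ i : Fin 3, Z i + Z' i = A * l ^ (N + i * s) + A' * (l⁻¹) ^ (N + i * s)) →
      (∀ i, Z i * Z' i = n) → (∀ i, ‖Z' i‖ ≤ ‖Z i‖) →
      ‖(Z 0 * Z 2 * Z' 1 ^ 2 + Z' 0 * Z' 2 * Z 1 ^ 2) / n ^ 2 - 2‖ ≤ η := by
  rcases lt_or_gt_of_ne hl with h | h
  · have h' : 1 < ‖l⁻¹‖ := by
      rw [norm_inv]
      exact (one_lt_inv₀ (norm_pos_iff.2 hl0)).2 h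
    obtain ⟨N₁, hN₁⟩ := big_place A' A l⁻¹ n hA' h' hn η hη
    obtain ⟨N₂, hN₂⟩ := exists_big A' A l⁻¹ hA' h' 0
    refine ⟨max N₁ N₂, fun N hN h0 => ?_, fun N s hN Z Z' h1 h2 h3 => ?_⟩
    · have := hN₂ N ((le_max_right _ _).trans hN)
      rw [inv_inv, add_comm, h0, norm_zero] at this
      exact lt_irrefl _ this
    · refine hN₁ N s ((le_max_left _ _).trans hN) Z Z' (fun i => ?_) h2 h3
      rw [h1 i, inv_inv, add_comm]
  · obtain ⟨N₁, hN₁⟩ := big_place A A' l n hA h hn η hη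
    obtain ⟨N₂, hN₂⟩ := exists_big A A' l hA h 0
    refine ⟨max N₁ N₂, fun N hN h0 => ?_, fun N s hN Z Z' h1 h2 h3 => ?_⟩
    · have := hN₂ N ((le_max_right _ _).trans hN)
      rw [h0, norm_zero] at this
      exact lt_irrefl _ this
    · exact hN₁ N s ((le_max_left _ _).trans hN) Z Z' h1 h2 h3

/-- **ELO.** The main step. -/
theorem vdW_main {F : Type} [Field F] [NumberField F] {Ω : Type} [Field Ω] [Algebra F Ω]
    [IsAlgClosed Ω] (big : (F →+* ℂ) → Prop) (hbig : ∃ φ, big φ)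
    (α α' Δ : Ω) (hα : α ≠ 0) (hα' : α' ≠ 0) (hΔ : Δ ≠ 0) (ν : F) (hν0 : ν ≠ 0)
    (hν : algebraMap F Ω ν ≠ α * α') (hνi : IsIntegral ℤ ν) (hνi' : IsIntegral ℤ ν⁻¹)
    (t : ℕ → F) (ht : ∀ N, algebraMap F Ω (t N) = α * Δ ^ N + α' * (Δ⁻¹) ^ N)
    (hti : ∀ N, IsIntegral ℤ (t N))
    (E : (F →+* ℂ) → (Ω →+* ℂ)) (hE : ∀ φ x, E φ (algebraMap F Ω x) = φ x)
    (hB : ∀ φ, big φ → ‖E φ Δ‖ ≠ 1)
    (hR : ∀ φ, ¬ big φ → ∀ N, ∃ τ n : ℝ, φ (t N) = τ ∧ φ ν = n ∧ τ ^ 2 ≤ 4 * n)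
    (D : Finset F) (hD : ∀ d ∈ D, d ≠ 0) (N₀ : ℕ) :
    ∃ N, N₀ ≤ N ∧ ∀ d ∈ D, ¬ IsSquare (d * (t N ^ 2 - 4 * ν)) := by
  classical
  by_contra hcon
  push Not at hcon
  have hinj : Function.Injective (algebraMap F Ω) := (algebraMap F Ω).injective
  -- the data
  have hdata : ∀ N, N₀ ≤ N → ∃ d : D, ∃ s : F, t N ^ 2 - 4 * ν = d * s ^ 2 := by
    intro N hN
    obtain ⟨d, hd, s', hs'⟩ := hcon N hN
    refine ⟨⟨d, hd⟩, s' / d, ?_⟩
    have := hD d hd
    field_simp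
    linear_combination hs'
  -- thresholds
  set η : ℝ := (1 / 5) ^ (Module.finrank ℚ F) with hη
  have hη0 : 0 < η := by positivity
  have hthr : ∀ φ : F →+* ℂ, ∃ N₁ : ℕ, big φ → (∀ N ≥ N₁, φ (t N) ≠ 0) ∧
      ∀ N s : ℕ, N₁ ≤ N → ∀ Z Z' : Fin 3 → ℂ,
      (∀ i : Fin 3, Z i + Z' i = φ (t (N + i * s))) →
      (∀ i, Z i * Z' i = φ ν) → (∀ i, ‖Z' i‖ ≤ ‖Z i‖) →
      ‖(Z 0 * Z 2 * Z' 1 ^ 2 + Z' 0 * Z' 2 * Z 1 ^ 2) / (φ ν) ^ 2 - 2‖ ≤ η := by
    intro φ
    by_cases hφ : big φ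
    · obtain ⟨N₁, hN₁, hN₁'⟩ := big_emb (A := E φ α) (A' := E φ α') (l := E φ Δ) (n := φ ν)
        (by simpa using hα) (by simpa using hα') (by simpa using hΔ) (hB φ hφ)
        (by simpa using hν0) η hη0
      have htφ : ∀ N, φ (t N) = E φ α * E φ Δ ^ N + E φ α' * ((E φ Δ)⁻¹) ^ N := by
        intro N
        rw [← hE, ht]
        simp
      refine ⟨N₁, fun _ => ⟨fun N hN => ?_, fun N s hN Z Z' h1 h2 h3 => ?_⟩⟩
      · rw [htφ]
        exact hN₁ N hN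
      · exact hN₁' N s hN Z Z' (fun i => by rw [h1 i, htφ]) h2 h3
    · exact ⟨0, fun h => absurd h hφ⟩
  choose Nφ hNφ using hthr
  set N₁ : ℕ := max N₀ (Finset.univ.sup Nφ) with hN₁
  have hN₁0 : N₀ ≤ N₁ := le_max_left _ _
  have hN₁φ : ∀ φ, Nφ φ ≤ N₁ := fun φ => (Finset.le_sup (Finset.mem_univ φ)).trans (le_max_right _ _)
  have hdata' : ∀ M : ℕ, ∃ d : D, ∃ s : F, t (N₁ + M) ^ 2 - 4 * ν = d * s ^ 2 := fun M =>
    hdata (N₁ + M) (by omega)
  choose dM sM hdM using hdata'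
  have hroot : ∀ d : F, ∃ r : Ω, r ^ 2 = algebraMap F Ω d := fun d =>
    IsAlgClosed.exists_pow_nat_eq _ two_pos
  choose r hr using hroot
  have h2 : (2 : Ω) ≠ 0 := by
    have : (2 : F) ≠ 0 := two_ne_zero
    rw [← map_ofNat (algebraMap F Ω) 2]
    exact (map_ne_zero _).2 this
  set Z : ℕ → Ω := fun M => (algebraMap F Ω (t (N₁ + M)) + algebraMap F Ω (sM M) * r (dM M)) / 2
    with hZ
  set Z' : ℕ → Ω := fun M => (algebraMap F Ω (t (N₁ + M)) - algebraMap F Ω (sM M) * r (dM M)) / 2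
    with hZ'
  have hsum : ∀ M, Z M + Z' M = algebraMap F Ω (t (N₁ + M)) := by
    intro M
    simp only [hZ, hZ']
    field_simp
    ring
  have hmul : ∀ M, Z M * Z' M = algebraMap F Ω ν := by
    intro M
    have h4 : algebraMap F Ω (t (N₁ + M)) ^ 2 - 4 * algebraMap F Ω ν =
        (r (dM M)) ^ 2 * algebraMap F Ω (sM M) ^ 2 := by
      rw [hr, ← map_pow, ← map_pow, ← map_mul, ← hdM M, map_sub, map_mul, map_pow, map_ofNat]
    have h5 : (4 : Ω) ≠ 0 := by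
      have : (4 : Ω) = 2 * 2 := by norm_num
      rw [this]
      exact mul_ne_zero h2 h2
    have h6 : 4 * (Z M * Z' M) = 4 * algebraMap F Ω ν := by
      simp only [hZ, hZ']
      field_simp
      linear_combination h4
    exact mul_left_cancel₀ h5 h6
  -- the colouring
  set col : ℕ → D × ((F →+* ℂ) → Bool) := fun M =>
    (dM M, fun φ => decide (‖E φ (Z' M)‖ ≤ ‖E φ (Z M)‖)) with hcol
  obtain ⟨M, s, -, hs, hc1, hc2⟩ := exists_ap3 col 0
  have hd1 : dM M = dM (M + s) := congrArg Prod.fst hc1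
  have hd2 : dM M = dM (M + 2 * s) := congrArg Prod.fst hc2
  have hφ1 : ∀ φ : F →+* ℂ, (‖E φ (Z' M)‖ ≤ ‖E φ (Z M)‖) = (‖E φ (Z' (M + s))‖ ≤ ‖E φ (Z (M + s))‖) := by
    intro φ
    have := congrFun (congrArg Prod.snd hc1) φ
    simpa [hcol] using this
  have hφ2 : ∀ φ : F →+* ℂ, (‖E φ (Z' M)‖ ≤ ‖E φ (Z M)‖) =
      (‖E φ (Z' (M + 2 * s))‖ ≤ ‖E φ (Z (M + 2 * s))‖) := by
    intro φ
    have := congrFun (congrArg Prod.snd hc2) φ
    simpa [hcol] using this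
  set W : Fin 3 → Ω := fun i => Z (M + i * s) with hW
  set W' : Fin 3 → Ω := fun i => Z' (M + i * s) with hW'
  have hWs : ∀ i, W i + W' i = algebraMap F Ω (t (N₁ + M + i * s)) := by
    intro i
    have := hsum (M + i * s)
    simpa only [hW, hW', add_assoc] using this
  have hWm : ∀ i, W i * W' i = algebraMap F Ω ν := fun i => hmul _
  have hdW : ∀ i : Fin 3, dM (M + i * s) = dM M := by
    intro i
    fin_cases i
    · simp
    · simp [← hd1]
    · simp [← hd2]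
  -- the trace of the unit
  set t₀ := t (N₁ + M)
  set t₁ := t (N₁ + (M + s))
  set t₂ := t (N₁ + (M + 2 * s))
  set s₀ := sM M
  set s₁ := sM (M + s)
  set s₂ := sM (M + 2 * s)
  set d : F := (dM M : F) with hd
  have hνΩ : algebraMap F Ω ν ≠ 0 := (map_ne_zero _).2 hν0
  set T : F := ((t₀ * t₂ + s₀ * s₂ * d) * (t₁ ^ 2 + s₁ ^ 2 * d) -
    (t₀ * s₂ + t₂ * s₀) * (2 * t₁ * s₁) * d) / (8 * ν ^ 2) with hT
  have hW0 : W 0 = (algebraMap F Ω t₀ + algebraMap F Ω s₀ * r d) / 2 := by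
    simp [hW, hZ, t₀, s₀, hd]
  have hW0' : W' 0 = (algebraMap F Ω t₀ - algebraMap F Ω s₀ * r d) / 2 := by
    simp [hW', hZ', t₀, s₀, hd]
  have hW1 : W 1 = (algebraMap F Ω t₁ + algebraMap F Ω s₁ * r d) / 2 := by
    simp [hW, hZ, t₁, s₁, hd, hd1]
  have hW1' : W' 1 = (algebraMap F Ω t₁ - algebraMap F Ω s₁ * r d) / 2 := by
    simp [hW', hZ', t₁, s₁, hd, hd1]
  have hW2 : W 2 = (algebraMap F Ω t₂ + algebraMap F Ω s₂ * r d) / 2 := by
    simp [hW, hZ, t₂, s₂, hd, hd2]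
  have hW2' : W' 2 = (algebraMap F Ω t₂ - algebraMap F Ω s₂ * r d) / 2 := by
    simp [hW', hZ', t₂, s₂, hd, hd2]
  have h8 : (8 : Ω) ≠ 0 := by
    have : (8 : Ω) = 2 * 2 * 2 := by norm_num
    rw [this]
    exact mul_ne_zero (mul_ne_zero h2 h2) h2
  have hTΩ : algebraMap F Ω T =
      (W 0 * W 2 * W' 1 ^ 2 + W' 0 * W' 2 * W 1 ^ 2) / (algebraMap F Ω ν) ^ 2 := by
    rw [hW0, hW0', hW1, hW1', hW2, hW2', hT]
    simp only [map_div₀, map_sub, map_mul, map_add, map_pow, map_ofNat]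
    have hrr := hr d
    rw [← hrr]
    field_simp
    ring
  have hint : IsIntegral ℤ T := by
    have hti' : ∀ N, IsIntegral ℤ (algebraMap F Ω (t N)) := fun N =>
      (hti N).map (algebraMap F Ω).toIntAlgHom
    have hνΩi : IsIntegral ℤ (algebraMap F Ω ν) := hνi.map (algebraMap F Ω).toIntAlgHom
    have hνΩi' : IsIntegral ℤ (algebraMap F Ω ν)⁻¹ := by
      rw [← map_inv₀]
      exact hνi'.map (algebraMap F Ω).toIntAlgHom
    have hWi : ∀ i, IsIntegral ℤ (W i) := fun i => by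
      refine isIntegral_quad (hti' (N₁ + M + i * s)) hνΩi ?_
      rw [← hWs i, ← hWm i]
      ring
    have hWi' : ∀ i, IsIntegral ℤ (W' i) := fun i => by
      refine isIntegral_quad (hti' (N₁ + M + i * s)) hνΩi ?_
      rw [← hWs i, ← hWm i]
      ring
    have h9 : IsIntegral ℤ (algebraMap F Ω T) := by
      rw [hTΩ, div_eq_mul_inv, ← inv_pow]
      exact ((((hWi 0).mul (hWi 2)).mul ((hWi' 1).pow 2)).add
        (((hWi' 0).mul (hWi' 2)).mul ((hWi 1).pow 2))).mul (hνΩi'.pow 2)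
    exact (isIntegral_algebraMap_iff hinj).1 h9
  have hT2 : T - 2 = 0 := by
    have hi2 : IsIntegral ℤ (2 : F) := by
      have := isIntegral_algebraMap (R := ℤ) (A := F) (x := (2 : ℤ))
      rwa [eq_intCast, Int.cast_ofNat] at this
    refine eq_zero_of_small (T - 2) (hint.sub hi2) big hbig ?_ ?_
    · intro φ hφ
      have e1 : φ (T - 2) = (E φ (W 0) * E φ (W 2) * E φ (W' 1) ^ 2 +
          E φ (W' 0) * E φ (W' 2) * E φ (W 1) ^ 2) / (φ ν) ^ 2 - 2 := by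
        rw [← hE φ (T - 2), map_sub, hTΩ, map_ofNat, map_sub, map_ofNat, map_div₀, map_pow, hE,
          map_add, map_mul, map_mul, map_mul, map_mul, map_pow, map_pow]
      rw [e1]
      have hs' : ∀ i : Fin 3, E φ (W i) + E φ (W' i) = φ (t (N₁ + M + i * s)) := by
        intro i
        rw [← map_add, hWs, hE]
      have hm' : ∀ i : Fin 3, E φ (W i) * E φ (W' i) = φ ν := by
        intro i
        rw [← map_mul, hWm, hE]
      by_cases hle : ‖E φ (Z' M)‖ ≤ ‖E φ (Z M)‖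
      · refine (hNφ φ hφ).2 (N₁ + M) s ((hN₁φ φ).trans (by omega)) (fun i => E φ (W i))
          (fun i => E φ (W' i)) hs' hm' ?_
        intro i
        fin_cases i
        · simpa [hW, hW'] using hle
        · have := (hφ1 φ) ▸ hle
          simpa [hW, hW'] using this
        · have := (hφ2 φ) ▸ hle
          simpa [hW, hW'] using this
      · have h10 := (hNφ φ hφ).2 (N₁ + M) s ((hN₁φ φ).trans (by omega)) (fun i => E φ (W' i))
          (fun i => E φ (W i)) (fun i => by rw [add_comm]; exact hs' i)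
          (fun i => by rw [mul_comm]; exact hm' i) ?_
        · rw [add_comm (E φ (W 0) * E φ (W 2) * E φ (W' 1) ^ 2)]
          exact h10
        intro i
        fin_cases i
        · simpa [hW, hW'] using (not_le.1 hle).le
        · have : ¬ (‖E φ (Z' (M + s))‖ ≤ ‖E φ (Z (M + s))‖) := (hφ1 φ) ▸ hle
          simpa [hW, hW'] using (not_le.1 this).le
        · have : ¬ (‖E φ (Z' (M + 2 * s))‖ ≤ ‖E φ (Z (M + 2 * s))‖) := (hφ2 φ) ▸ hle
          simpa [hW, hW'] using (not_le.1 this).le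
    · intro φ hφ
      have e1 : φ (T - 2) = (E φ (W 0) * E φ (W 2) * E φ (W' 1) ^ 2 +
          E φ (W' 0) * E φ (W' 2) * E φ (W 1) ^ 2) / (φ ν) ^ 2 - 2 := by
        rw [← hE φ (T - 2), map_sub, hTΩ, map_ofNat, map_sub, map_ofNat, map_div₀, map_pow, hE,
          map_add, map_mul, map_mul, map_mul, map_mul, map_pow, map_pow]
      rw [e1]
      have hRR := hR φ hφ
      choose τ n h11 h12 h13 using hRR
      have hn : ∀ N, n N = n 0 := by
        intro N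
        have := (h12 N).symm.trans (h12 0)
        exact_mod_cast this
      have hn0 : n 0 ≠ 0 := by
        intro h
        have := h12 0
        rw [h] at this
        exact hν0 (by simpa using this)
      have := small_place (fun i => τ (N₁ + M + i * s)) (n 0) hn0
        (fun i => by rw [← hn (N₁ + M + i * s)]; exact h13 _) (fun i => E φ (W i))
        (fun i => E φ (W' i)) (fun i => by rw [← map_add, hWs, hE, h11])
        (fun i => by rw [← map_mul, hWm, hE, h12 0])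
      rw [← h12 0] at this
      exact this
  -- the end
  have hT2' : T = 2 := sub_eq_zero.1 hT2
  obtain ⟨φ₀, hφ₀⟩ := hbig
  refine hν (end_alg (Δ := Δ) (α := α) (α' := α') (Z := W) (Z' := W') (N := N₁ + M) (s := s)
    hνΩ hΔ ?_ (fun i => by rw [hWs, ht]) hWm ?_ ?_)
  · intro h
    have h14 : ‖E φ₀ Δ‖ ^ (2 * s) = 1 := by rw [← norm_pow, ← map_pow, h, map_one, norm_one]
    exact hB φ₀ hφ₀ ((pow_eq_one_iff_of_nonneg (norm_nonneg _) (by omega)).1 h14)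
  · rw [← hTΩ, hT2']
    exact map_ofNat _ 2
  · rw [hWs]
    refine (map_ne_zero _).2 ?_
    intro h
    refine (hNφ φ₀ hφ₀).1 (N₁ + M + ((1 : Fin 3) : ℕ) * s) ((hN₁φ φ₀).trans (by omega)) ?_
    rw [h, map_zero]

end Pool.Agent.CGQ
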