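import Pool.Agent.CGQ.EHY
import Pool.Agent.CGQ.EGen
import Pool.Agent.CGQ.ECg
import Pool.Agent.CGQ.EInt
import Pool.Agent.CGQ.EMain

/-!
# The generic element: existence
-/

noncomputable section

set_option linter.unusedSectionVars false

namespace Pool.Agent.CGQ

open NumberField IsDedekindDomain
open Pool.Agent.CG2 (Pl Fv Ov)

variable {F : Type} [Field F] [NumberField F] {q : Qd F}

/-! ### Homomorphisms on a subgroup -/

section hom

variable {G : Type} [Group G] {Γ : Subgroup G} {k : Type} [Field k] {h : G → k}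

theorem hom_one (hh : ∀ a ∈ Γ, ∀ b ∈ Γ, h (a * b) = h a + h b) : h 1 = 0 := by
  have := hh 1 Γ.one_mem 1 Γ.one_mem
  rw [one_mul] at this
  exact left_eq_add.1 this

theorem hom_pow (hh : ∀ a ∈ Γ, ∀ b ∈ Γ, h (a * b) = h a + h b) {g : G} (hg : g ∈ Γ) (n : ℕ) :
    h (g ^ n) = n * h g := by
  induction n with
  | zero => simp [hom_one hh]
  | succ n ih =>
    rw [pow_succ, hh _ (Γ.pow_mem hg n) _ hg, ih]
    push_cast
    ring

theorem hom_pow_char (hh : ∀ a ∈ Γ, ∀ b ∈ Γ, h (a * b) = h a + h b) {g : G} (hg : g ∈ Γ)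
    (p : ℕ) [CharP k p] : h (g ^ p) = 0 := by
  rw [hom_pow hh hg, CharP.cast_eq_zero, zero_mul]

end hom

theorem uD_pow {L : Type} [Field L] [NumberField L] [Algebra F L] (ι : L →ₐ[F] DF q)
    (u : (𝓞 L)ˣ) (n : ℕ) : uD ι (u ^ n) = uD ι u ^ n := map_pow (Units.map _) _ _

theorem coeU_pow {L : Type} [Field L] [NumberField L] (u : (𝓞 L)ˣ) (n : ℕ) :
    (((u ^ n : (𝓞 L)ˣ) : 𝓞 L) : L) = ((u : 𝓞 L) : L) ^ n := by
  rw [Units.val_pow_eq_pow_val]
  exact map_pow (algebraMap (𝓞 L) L) _ _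

/-! ### The totally hyperbolic unit -/

theorem not_isSquare_of_pure (hdiv : ∀ x : DF q, x ≠ 0 → IsUnit x) (x : DF q) (hx : x.re = 0)
    (hx0 : x ≠ 0) : ¬ IsSquare (-nrd x) := by
  rintro ⟨r, hr⟩
  refine not_isSquare_dsc hdiv x ?_ ⟨2 * r, ?_⟩
  · intro h
    apply hx0
    have h1 := congrArg QuaternionAlgebra.imI h
    have h2 := congrArg QuaternionAlgebra.imJ h
    have h3 := congrArg QuaternionAlgebra.imK h
    simp only [QuaternionAlgebra.imI_star, QuaternionAlgebra.imJ_star,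
      QuaternionAlgebra.imK_star] at h1 h2 h3
    ext
    · exact hx
    · exact self_eq_neg.1 h1
    · exact self_eq_neg.1 h2
    · exact self_eq_neg.1 h3
  · simp only [dsc, trd, hx]
    linear_combination 4 * hr

/-- The totally hyperbolic unit of norm one in the stabiliser. -/
theorem exists_delta {K : Subgroup (sysD q).A} (hK : OC K) (y : (sysD q).Pt) {k : Type} [Field k]
    {p : ℕ} [hp : Fact p.Prime] [CharP k p] {h : (sysD q).G → k}
    (hh : ∀ a ∈ Stab K y, ∀ b ∈ Stab K y, h (a * b) = h a + h b) (x : DF q) (hx : x.re = 0)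
    [Fact (¬ IsSquare (-nrd x))]
    (hpos : ∀ ψ : F →+* ℝ, ¬ (ψ (q.a : F) < 0 ∧ ψ (q.b : F) < 0) → 0 < ψ (-nrd x)) :
    ∃ δ : (𝓞 (QE (-nrd x)))ˣ, uD (embX x hx) δ ∈ Stab K y ∧ h (uD (embX x hx) δ) = 0 ∧
      ((δ : 𝓞 (QE (-nrd x))) : QE (-nrd x)) * star ((δ : 𝓞 (QE (-nrd x))) : QE (-nrd x)) = 1 ∧
      ∀ Ψ : QE (-nrd x) →+* ℂ, ¬ RamE q (Ψ.comp (algebraMap F (QE (-nrd x)))) →
        ‖Ψ ((δ : 𝓞 (QE (-nrd x))) : QE (-nrd x))‖ ≠ 1 := by
  obtain ⟨ε, hε⟩ := exists_hyp_unit (-nrd x) (fun φ => ¬ RamE q φ) (by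
    rintro φ hφ ⟨ψ, h1, h2⟩
    refine absurd (hpos ψ ?_) (not_lt.2 h2.le)
    rintro ⟨h3, h4⟩
    exact hφ ⟨ψ, h1, h3, h4⟩)
  obtain ⟨m, hm, hmem⟩ := exists_pow_mem_stab hK y (embX x hx)
  set δ₀ : (𝓞 (QE (-nrd x)))ˣ := ε * (conjU (-nrd x) ε)⁻¹ with hδ₀
  have hval : ((δ₀ : 𝓞 (QE (-nrd x))) : QE (-nrd x)) * star ((ε : 𝓞 (QE (-nrd x))) : QE (-nrd x)) =
      ((ε : 𝓞 (QE (-nrd x))) : QE (-nrd x)) := by
    rw [← conjU_val, ← map_mul, ← Units.val_mul, hδ₀, inv_mul_cancel_right]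
  have hε0 : ((ε : 𝓞 (QE (-nrd x))) : QE (-nrd x)) ≠ 0 := by
    intro h0
    exact ε.ne_zero (RingOfIntegers.ext h0)
  have hε0' : star ((ε : 𝓞 (QE (-nrd x))) : QE (-nrd x)) ≠ 0 := by
    intro h0
    apply hε0
    rw [← star_star ((ε : 𝓞 (QE (-nrd x))) : QE (-nrd x)), h0, star_zero]
  have hval' : ((δ₀ : 𝓞 (QE (-nrd x))) : QE (-nrd x)) =
      ((ε : 𝓞 (QE (-nrd x))) : QE (-nrd x)) / star ((ε : 𝓞 (QE (-nrd x))) : QE (-nrd x)) := by
    rw [eq_div_iff hε0', hval]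
  have hp0 : 0 < p := hp.out.pos
  refine ⟨δ₀ ^ (m * p), ?_, ?_, ?_, ?_⟩
  · rw [uD_pow, pow_mul]
    exact (Stab K y).pow_mem (hmem δ₀) p
  · rw [uD_pow, pow_mul]
    exact hom_pow_char hh (hmem δ₀) p
  · rw [coeU_pow, star_pow, ← mul_pow]
    have h1 : ((δ₀ : 𝓞 (QE (-nrd x))) : QE (-nrd x)) *
        star ((δ₀ : 𝓞 (QE (-nrd x))) : QE (-nrd x)) = 1 := by
      have h2 : star ((δ₀ : 𝓞 (QE (-nrd x))) : QE (-nrd x)) =
          conjQ (-nrd x) (((ε : 𝓞 (QE (-nrd x))) : QE (-nrd x)) /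
            star ((ε : 𝓞 (QE (-nrd x))) : QE (-nrd x))) := by
        rw [← hval', conjQ_apply]
      rw [h2, map_div₀, conjQ_apply, conjQ_apply, star_star, hval', div_mul_div_comm,
        mul_comm, div_self (mul_ne_zero hε0' hε0)]
    rw [h1, one_pow]
  · intro Ψ hΨ h1
    rw [coeU_pow, map_pow, norm_pow] at h1
    have h2 := (pow_eq_one_iff_of_nonneg (norm_nonneg _) (Nat.mul_pos hm hp0).ne').1 h1
    rw [hval', map_div₀, norm_div] at h2
    refine hε Ψ hΨ ?_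
    rw [div_eq_one_iff_eq] at h2
    · exact h2
    · rw [norm_ne_zero_iff]
      exact (map_ne_zero _).2 hε0'

/-! ### The generic element -/

/-- The element `A` of `F(x)` with `trd (c z) = Tr (A z)`. -/
def projX (c x : DF q) : QE (-nrd x) := ⟨c.re, (c * x).re / (-nrd x)⟩

theorem trd_embX (c x : DF q) (hx : x.re = 0) (hn : -nrd x ≠ 0) (z : QE (-nrd x)) :
    algebraMap F (QE (-nrd x)) (trd (c * embX x hx z)) =
      projX c x * z + star (projX c x * z) := by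
  have hn' : nrd x ≠ 0 := neg_ne_zero.1 hn
  have h1 : (c * embX x hx z).re = z.re * c.re + z.im * (c * x).re := by
    rw [embX_apply, mul_add, mul_smul_comm, mul_smul_comm, mul_one]
    simp
  ext
  · simp only [trd, projX, QuadraticAlgebra.algebraMap_re, QuadraticAlgebra.re_add,
      QuadraticAlgebra.re_mul, star_re, h1]
    field_simp
    ring
  · simp only [trd, projX, QuadraticAlgebra.algebraMap_im, QuadraticAlgebra.im_add,
      QuadraticAlgebra.im_mul, star_im]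
    ring

theorem projX_mul_star (c x : DF q) (hn : -nrd x ≠ 0) :
    projX c x * star (projX c x) =
      algebraMap F (QE (-nrd x)) (c.re ^ 2 - (c * x).re ^ 2 / (-nrd x)) := by
  have hn' : nrd x ≠ 0 := neg_ne_zero.1 hn
  ext
  · simp only [projX, QuadraticAlgebra.algebraMap_re, QuadraticAlgebra.re_mul, star_re, star_im]
    field_simp
    ring
  · simp only [projX, QuadraticAlgebra.algebraMap_im, QuadraticAlgebra.im_mul, star_re, star_im]
    ring

theorem nrd_embX (x : DF q) (hx : x.re = 0) (z : QE (-nrd x)) :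
    algebraMap F (QE (-nrd x)) (nrd (embX x hx z)) = z * star z := by
  have h1 : nrd (embX x hx z) = z.re ^ 2 + nrd x * z.im ^ 2 := by
    rw [embX_apply]
    simp only [nrd, QuaternionAlgebra.re_add, QuaternionAlgebra.imI_add, QuaternionAlgebra.imJ_add,
      QuaternionAlgebra.imK_add, QuaternionAlgebra.re_smul, QuaternionAlgebra.imI_smul,
      QuaternionAlgebra.imJ_smul, QuaternionAlgebra.imK_smul, QuaternionAlgebra.re_one,
      QuaternionAlgebra.imI_one, QuaternionAlgebra.imJ_one, QuaternionAlgebra.imK_one,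
      smul_eq_mul, hx]
    ring
  ext
  · simp only [QuadraticAlgebra.algebraMap_re, QuadraticAlgebra.re_mul, star_re, star_im, h1]
    ring
  · simp only [QuadraticAlgebra.algebraMap_im, QuadraticAlgebra.im_mul, star_re, star_im]
    ring

/-- At a ramified embedding the discriminant is not positive. -/
theorem ram_disc {φ : F →+* ℂ} (hφ : RamE q φ) (c : DF q) :
    ∃ τ n : ℝ, φ (trd c) = τ ∧ φ (nrd c) = n ∧ τ ^ 2 ≤ 4 * n := by
  obtain ⟨ψ, h1, h2, h3⟩ := hφ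
  refine ⟨ψ (trd c), ψ (nrd c), h1 _, h1 _, ?_⟩
  simp only [trd, nrd, map_mul, map_add, map_sub, map_pow, map_ofNat]
  have e1 := mul_nonneg (neg_nonneg.2 h2.le) (sq_nonneg (ψ c.imI))
  have e2 := mul_nonneg (neg_nonneg.2 h3.le) (sq_nonneg (ψ c.imJ))
  have e3 := mul_nonneg (mul_nonneg (neg_nonneg.2 h2.le) (neg_nonneg.2 h3.le))
    (sq_nonneg (ψ c.imK))
  have e4 : ψ ((algebraMap (𝓞 F) F) q.a) = ψ (q.a : F) := rfl
  have e5 : ψ ((algebraMap (𝓞 F) F) q.b) = ψ (q.b : F) := rfl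
  rw [e4, e5]
  nlinarith

theorem exists_extΩ (φ : F →+* ℂ) : ∃ Φ : AlgebraicClosure F →+* ℂ,
    ∀ x, Φ (algebraMap F (AlgebraicClosure F) x) = φ x := by
  let : Algebra F ℂ := φ.toAlgebra
  let Φ : AlgebraicClosure F →ₐ[F] ℂ := IsAlgClosed.lift
  exact ⟨Φ.toRingHom, fun x => Φ.commutes x⟩

/-- **ELP.** The generic element, first form. -/
theorem exists_generic_elt (hdiv : ∀ x : DF q, x ≠ 0 → IsUnit x) (hram : ∃ φ, ¬ RamE q φ)
    {K : Subgroup (sysD q).A} (hK : OC K) (y : (sysD q).Pt) {k : Type} [Field k]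
    {p : ℕ} [hp : Fact p.Prime] [CharP k p] {h : (sysD q).G → k}
    (hh : ∀ a ∈ Stab K y, ∀ b ∈ Stab K y, h (a * b) = h a + h b) (c₀ : (DF q)ˣ)
    (hc₀ : (show (sysD q).G from c₀) ∈ Stab K y)
    (hnc : ¬ (c₀.1.imI = 0 ∧ c₀.1.imJ = 0 ∧ c₀.1.imK = 0)) (D : Finset F)
    (hD : ∀ d ∈ D, d ≠ 0) :
    ∃ c : (DF q)ˣ, (show (sysD q).G from c) ∈ Stab K y ∧
      h (show (sysD q).G from c) = h (show (sysD q).G from c₀) ∧ c.1 ≠ star c.1 ∧
      (∀ d ∈ D, ¬ IsSquare (d * dsc c.1)) ∧ ∀ φ : F →+* ℂ, ¬ RamE q φ → ¬ NegE (dsc c.1) φ := by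
  classical
  obtain ⟨x, hx, hcx, hcomm, hpos⟩ := exists_pure c₀.1 hnc
  have hx0 : x ≠ 0 := by
    rintro rfl
    apply hcx
    simp
  have : Fact (¬ IsSquare (-nrd x)) := ⟨not_isSquare_of_pure hdiv x hx hx0⟩
  have hn : -nrd x ≠ 0 := by
    intro h0
    refine Fact.out (p := ¬ IsSquare (-nrd x)) ?_
    rw [h0]
    exact ⟨0, by simp⟩
  obtain ⟨δ, hδ1, hδ2, hδ3, hδ4⟩ := exists_delta hK y hh x hx hpos
  set dl : QE (-nrd x) := ((δ : 𝓞 (QE (-nrd x))) : QE (-nrd x)) with hdl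
  -- the elements
  set cN : ℕ → (DF q)ˣ := fun N => c₀ * (show (DF q)ˣ from uD (embX x hx) δ) ^ N with hcN
  have hcmem : ∀ N, (show (sysD q).G from cN N) ∈ Stab K y := fun N =>
    (Stab K y).mul_mem hc₀ ((Stab K y).pow_mem hδ1 N)
  have hch : ∀ N, h (show (sysD q).G from cN N) = h (show (sysD q).G from c₀) := by
    intro N
    have h1 : h (show (sysD q).G from cN N) =
        h (show (sysD q).G from c₀) + h (uD (embX x hx) δ ^ N) :=
      hh _ hc₀ _ ((Stab K y).pow_mem hδ1 N)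
    rw [h1, hom_pow hh hδ1, hδ2, mul_zero, add_zero]
  have hcval : ∀ N, (cN N).1 = c₀.1 * embX x hx (dl ^ N) := by
    intro N
    simp only [hcN, Units.val_mul, Units.val_pow_eq_pow_val]
    rw [map_pow, uD_val]
  have hdl0 : dl ≠ 0 := by
    intro h0
    rw [h0, zero_mul] at hδ3
    exact zero_ne_one hδ3
  have hstar : star dl = dl⁻¹ := eq_inv_of_mul_eq_one_right hδ3
  -- the embedding in the algebraic closure
  let Ω := AlgebraicClosure F
  let j : QE (-nrd x) →ₐ[F] Ω := IsAlgClosed.lift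
  choose E hE using fun φ : F →+* ℂ => exists_extΩ φ
  set A := projX c₀.1 x with hA
  have hAA : A * star A = algebraMap F (QE (-nrd x)) (c₀.1.re ^ 2 - (c₀.1 * x).re ^ 2 / (-nrd x)) :=
    projX_mul_star c₀.1 x hn
  have hA0 : A ≠ 0 := by
    intro h0
    have := congrArg QuadraticAlgebra.im h0
    simp only [hA, projX, QuadraticAlgebra.im_zero, div_eq_zero_iff] at this
    rcases this with h1 | h1
    · exact hcx h1
    · exact hn h1
  have hA0' : star A ≠ 0 := by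
    intro h0
    apply hA0
    rw [← star_star A, h0, star_zero]
  set t : ℕ → F := fun N => trd (cN N).1 with ht
  have htE : ∀ N, algebraMap F (QE (-nrd x)) (t N) = A * dl ^ N + star A * (dl⁻¹) ^ N := by
    intro N
    simp only [ht]
    rw [hcval, trd_embX c₀.1 x hx hn, ← hA, ← hstar, star_mul, star_pow, mul_comm (star dl ^ N)]
  have htΩ : ∀ N, algebraMap F Ω (t N) = j A * j dl ^ N + j (star A) * ((j dl)⁻¹) ^ N := by
    intro N
    rw [← j.commutes, htE]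
    simp
  have hnrd : ∀ N, nrd (cN N).1 = nrd c₀.1 := by
    intro N
    have h1 : nrd (embX x hx (dl ^ N)) = 1 := by
      apply (algebraMap F (QE (-nrd x))).injective
      rw [nrd_embX, star_pow, ← mul_pow, hδ3, one_pow, map_one]
    rw [hcval, nrd_mul, h1, mul_one]
  set ν : F := nrd c₀.1 with hν
  obtain ⟨-, hi2, hi3⟩ := stab_integral hK y c₀ hc₀
  have hν0 : ν ≠ 0 := nrd_ne q c₀
  have hνne : algebraMap F Ω ν ≠ j A * j (star A) := by
    rw [← map_mul, hAA, j.commutes]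
    intro h0
    exact nrd_ne_of_not_comm hdiv c₀.1 x hx hcomm ((algebraMap F Ω).injective h0)
  have hB : ∀ φ, ¬ RamE q φ → ‖E φ (j dl)‖ ≠ 1 := by
    intro φ hφ
    refine hδ4 ((E φ).comp (j : QE (-nrd x) →+* Ω)) ?_
    convert hφ using 2
    ext z
    rw [← hE φ z, ← j.commutes]
    rfl
  -- the threshold for the signs
  have hthr : ∀ φ : F →+* ℂ, ∃ N₁, ¬ RamE q φ → ∀ N ≥ N₁, ¬ NegE (t N ^ 2 - 4 * ν) φ := by
    intro φ
    by_cases hφ : RamE q φ
    · exact ⟨0, fun h0 => absurd hφ h0⟩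
    have hbig : ∃ N₁, ∀ N ≥ N₁, 2 * (‖φ ν‖ + 1) < ‖φ (t N)‖ := by
      have htφ : ∀ N, φ (t N) = E φ (j A) * E φ (j dl) ^ N +
          E φ (j (star A)) * ((E φ (j dl))⁻¹) ^ N := by
        intro N
        rw [← hE, htΩ]
        simp
      have hjA : E φ (j A) ≠ 0 := (map_ne_zero _).2 ((map_ne_zero _).2 hA0)
      have hjA' : E φ (j (star A)) ≠ 0 := (map_ne_zero _).2 ((map_ne_zero _).2 hA0')
      have hjd : E φ (j dl) ≠ 0 := (map_ne_zero _).2 ((map_ne_zero _).2 hdl0)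
      rcases lt_or_gt_of_ne (hB φ hφ) with h1 | h1
      · have h2 : 1 < ‖(E φ (j dl))⁻¹‖ := by
          rw [norm_inv]
          exact (one_lt_inv₀ (norm_pos_iff.2 hjd)).2 h1
        obtain ⟨N₁, hN₁⟩ := exists_big _ (E φ (j A)) _ hjA' h2 (2 * (‖φ ν‖ + 1))
        refine ⟨N₁, fun N hN => ?_⟩
        have := hN₁ N hN
        rw [inv_inv] at this
        rw [htφ, add_comm (E φ (j A) * _)]
        exact this
      · obtain ⟨N₁, hN₁⟩ := exists_big _ (E φ (j (star A))) _ hjA h1 (2 * (‖φ ν‖ + 1))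
        refine ⟨N₁, fun N hN => ?_⟩
        have := hN₁ N hN
        rw [htφ]
        exact this
    obtain ⟨N₁, hN₁⟩ := hbig
    refine ⟨N₁, fun _ N hN => ?_⟩
    rintro ⟨ψ, h1, h2⟩
    have h3 := hN₁ N hN
    rw [h1, h1, Complex.norm_real, Complex.norm_real, Real.norm_eq_abs, Real.norm_eq_abs] at h3
    rw [map_sub, map_mul, map_pow, map_ofNat] at h2
    have h4 : ψ ν ≤ |ψ ν| := le_abs_self _
    have h5 : |ψ (t N)| ^ 2 = ψ (t N) ^ 2 := sq_abs _
    have h6 := abs_nonneg (ψ ν)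
    nlinarith
  choose Nφ hNφ using hthr
  obtain ⟨N, hN, hN'⟩ := vdW_main (Ω := Ω) (fun φ => ¬ RamE q φ) hram (j A) (j (star A)) (j dl)
    ((map_ne_zero _).2 hA0) ((map_ne_zero _).2 hA0') ((map_ne_zero _).2 hdl0) ν hν0 hνne hi2 hi3 t
    htΩ (fun N => (stab_integral hK y (cN N) (hcmem N)).1) E hE hB (by
      intro φ hφ N
      obtain ⟨τ, n, e1, e2, e3⟩ := ram_disc (not_not.1 hφ) (cN N).1
      exact ⟨τ, n, e1, by rw [← e2, hnrd], e3⟩) (insert 1 D) (by
      intro d hd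
      rcases Finset.mem_insert.1 hd with rfl | hd
      · exact one_ne_zero
      · exact hD d hd) (Finset.univ.sup Nφ)
  have hdsc : dsc (cN N).1 = t N ^ 2 - 4 * ν := by rw [dsc, hnrd]
  refine ⟨cN N, hcmem N, hch N, ?_, fun d hd => ?_, fun φ hφ => ?_⟩
  · intro h0
    refine hN' 1 (Finset.mem_insert_self _ _) ?_
    rw [one_mul, ← hdsc]
    have h1 : (cN N).1.imI = 0 := by
      have := congrArg QuaternionAlgebra.imI h0
      simp only [QuaternionAlgebra.imI_star] at this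
      exact self_eq_neg.1 this
    have h2 : (cN N).1.imJ = 0 := by
      have := congrArg QuaternionAlgebra.imJ h0
      simp only [QuaternionAlgebra.imJ_star] at this
      exact self_eq_neg.1 this
    have h3 : (cN N).1.imK = 0 := by
      have := congrArg QuaternionAlgebra.imK h0
      simp only [QuaternionAlgebra.imK_star] at this
      exact self_eq_neg.1 this
    refine ⟨0, ?_⟩
    simp only [dsc, trd, nrd, h1, h2, h3]
    ring
  · rw [hdsc]
    exact hN' d (Finset.mem_insert_of_mem hd)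
  · rw [hdsc]
    exact hNφ φ hφ N ((Finset.le_sup (Finset.mem_univ φ)).trans hN)

end Pool.Agent.CGQ
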