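import Pool.Agent.CGQ.EAsm

/-!
# The generic element: final form
-/

noncomputable section

set_option linter.unusedSectionVars false

namespace Pool.Agent.CGQ

open NumberField IsDedekindDomain
open Pool.Agent.CG2 (Pl Fv Ov)

variable {F : Type} [Field F] [NumberField F] {q : Qd F}

theorem not_isSquare_transfer {d d' : F} [Fact (¬ IsSquare d)] (h1 : ¬ IsSquare d')
    (h2 : ¬ IsSquare (d' * d)) : ¬ IsSquare (algebraMap F (QE d) d') := by
  rintro ⟨z, hz⟩
  have e1 := congrArg QuadraticAlgebra.re hz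
  have e2 := congrArg QuadraticAlgebra.im hz
  simp only [QuadraticAlgebra.algebraMap_re, QuadraticAlgebra.re_mul,
    QuadraticAlgebra.algebraMap_im, QuadraticAlgebra.im_mul, zero_mul, add_zero] at e1 e2
  have e3 : z.re * z.im = 0 := by
    have h : (2 : F) * (z.re * z.im) = 0 := by linear_combination -e2
    exact (mul_eq_zero.1 h).resolve_left two_ne_zero
  rcases mul_eq_zero.1 e3 with h | h
  · refine h2 ⟨d * z.im, ?_⟩
    rw [e1, h]
    ring
  · refine h1 ⟨z.re, ?_⟩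
    rw [e1, h]
    ring

theorem gal_eq_star {d : F} [Fact (¬ IsSquare d)] (c : Gal(QE d/F)) (hc : c ≠ 1) (z : QE d) :
    c z = star z := by
  set w : QE d := QuadraticAlgebra.omega with hw
  have hw2 : w * w = algebraMap F (QE d) d := by
    rw [hw, QuadraticAlgebra.omega_mul_omega_eq_mk]
    rfl
  have h1 : (c w - w) * (c w + w) = 0 := by
    have h2 : c w * c w = w * w := by rw [← map_mul, hw2, AlgEquiv.commutes]
    linear_combination h2
  have h3 : c w = -w := by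
    rcases mul_eq_zero.1 h1 with h | h
    · exfalso
      apply hc
      have h4 : (c : QE d →ₐ[F] QE d) = AlgHom.id F (QE d) := by
        apply QuadraticAlgebra.algHom_ext
        exact sub_eq_zero.1 h
      ext1 x
      exact DFunLike.congr_fun h4 x
    · exact eq_neg_of_add_eq_zero_left h
  have h5 : (c : QE d →ₐ[F] QE d) = conjQ d := by
    apply QuadraticAlgebra.algHom_ext
    change c w = star w
    rw [h3]
    ext <;> simp [hw]
  exact DFunLike.congr_fun h5 z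

theorem embC_half (c : DF q) : embC c ⟨trd c / 2, 1 / 2⟩ = c := by
  rw [embC_apply]
  ext <;> simp [trd] <;> ring

theorem quad_id {d t n : F} (h : d = t ^ 2 - 4 * n) :
    (⟨t / 2, 1 / 2⟩ : QE d) ^ 2 - algebraMap F (QE d) t * ⟨t / 2, 1 / 2⟩ + algebraMap F (QE d) n = 0 := by
  rw [sq]
  ext
  · simp only [QuadraticAlgebra.re_add, QuadraticAlgebra.re_sub,
      QuadraticAlgebra.re_mul, QuadraticAlgebra.algebraMap_re, QuadraticAlgebra.algebraMap_im,
      QuadraticAlgebra.re_zero]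
    rw [h]
    ring
  · simp only [QuadraticAlgebra.im_add, QuadraticAlgebra.im_sub,
      QuadraticAlgebra.im_mul, QuadraticAlgebra.algebraMap_re, QuadraticAlgebra.algebraMap_im,
      QuadraticAlgebra.im_zero]
    ring

/-- The element `c` of `D` as a unit of the integers of `F(c)`. -/
theorem exists_unitC (c : (DF q)ˣ) [Fact (¬ IsSquare (dsc c.1))] (h1 : IsIntegral ℤ (trd c.1))
    (h2 : IsIntegral ℤ (nrd c.1)) (h3 : IsIntegral ℤ (nrd c.1)⁻¹) :
    ∃ u : (𝓞 (QE (dsc c.1)))ˣ, uD (embC c.1) u = (show (sysD q).G from c) := by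
  set U : QE (dsc c.1) := ⟨trd c.1 / 2, 1 / 2⟩ with hU
  set t : QE (dsc c.1) := algebraMap F _ (trd c.1) with ht
  set n : QE (dsc c.1) := algebraMap F _ (nrd c.1) with hn
  have ht1 : IsIntegral ℤ t := h1.map (algebraMap F (QE (dsc c.1))).toIntAlgHom
  have hn1 : IsIntegral ℤ n := h2.map (algebraMap F (QE (dsc c.1))).toIntAlgHom
  have hn2 : IsIntegral ℤ n⁻¹ := by
    rw [hn, ← map_inv₀]
    exact h3.map (algebraMap F (QE (dsc c.1))).toIntAlgHom
  have hn0 : n ≠ 0 := (map_ne_zero _).2 (nrd_ne q c)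
  have hchar : U ^ 2 - t * U + n = 0 := quad_id rfl
  have hUi : IsIntegral ℤ U := isIntegral_quad ht1 hn1 hchar
  set V : QE (dsc c.1) := (t - U) * n⁻¹ with hV
  have hVi : IsIntegral ℤ V := (ht1.sub hUi).mul hn2
  have hUV : U * V = 1 := by
    have h4 : U * (t - U) = n := by linear_combination -hchar
    rw [hV, ← mul_assoc, h4, mul_inv_cancel₀ hn0]
  let u : (𝓞 (QE (dsc c.1)))ˣ := ⟨⟨U, hUi⟩, ⟨V, hVi⟩, RingOfIntegers.ext hUV,
    RingOfIntegers.ext (by rw [mul_comm] at hUV; exact hUV)⟩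
  refine ⟨u, Units.ext ?_⟩
  exact embC_half c.1

/-- An element of the stabiliser which is not central, with the same value of `h`. -/
theorem exists_noncentral (hdiv : ∀ x : DF q, x ≠ 0 → IsUnit x) (hram : ∃ φ, ¬ RamE q φ)
    {K : Subgroup (sysD q).A} (hK : OC K) (y : (sysD q).Pt) {k : Type} [Field k]
    {p : ℕ} [hp : Fact p.Prime] [CharP k p] {h : (sysD q).G → k}
    (hh : ∀ a ∈ Stab K y, ∀ b ∈ Stab K y, h (a * b) = h a + h b) (c₀ : (DF q)ˣ)
    (hc₀ : (show (sysD q).G from c₀) ∈ Stab K y) :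
    ∃ c : (DF q)ˣ, (show (sysD q).G from c) ∈ Stab K y ∧
      h (show (sysD q).G from c) = h (show (sysD q).G from c₀) ∧
      ¬ (c.1.imI = 0 ∧ c.1.imJ = 0 ∧ c.1.imK = 0) := by
  by_cases hnc : c₀.1.imI = 0 ∧ c₀.1.imJ = 0 ∧ c₀.1.imK = 0
  swap
  · exact ⟨c₀, hc₀, rfl, hnc⟩
  -- any pure quaternion with positive square
  obtain ⟨x, hx, hcx, -, hpos⟩ := exists_pure (q := q) ⟨0, 1, 0, 0⟩ (by simp)
  have hx0 : x ≠ 0 := by
    rintro rfl
    apply hcx
    simp
  have : Fact (¬ IsSquare (-nrd x)) := ⟨not_isSquare_of_pure hdiv x hx hx0⟩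
  obtain ⟨δ, hδ1, hδ2, hδ3, hδ4⟩ := exists_delta hK y hh x hx hpos
  set dl : QE (-nrd x) := ((δ : 𝓞 (QE (-nrd x))) : QE (-nrd x)) with hdl
  refine ⟨c₀ * (show (DF q)ˣ from uD (embX x hx) δ), (Stab K y).mul_mem hc₀ hδ1, ?_, ?_⟩
  · have h1 : h (show (sysD q).G from c₀ * (show (DF q)ˣ from uD (embX x hx) δ)) =
        h (show (sysD q).G from c₀) + h (uD (embX x hx) δ) := hh _ hc₀ _ hδ1
    rw [h1, hδ2, add_zero]
  · -- `δ` is not in `F`
    have him : dl.im ≠ 0 := by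
      intro h0
      obtain ⟨φ, hφ⟩ := hram
      obtain ⟨Ψ, hΨ⟩ := exists_ext (-nrd x) φ
      refine hδ4 Ψ (by rw [hΨ]; exact hφ) ?_
      have h1 : star dl = dl := by ext <;> simp [h0]
      rw [h1] at hδ3
      have h2 : ‖Ψ dl‖ ^ 2 = 1 := by
        rw [← norm_pow, ← map_pow, sq, hδ3, map_one, norm_one]
      exact (pow_eq_one_iff_of_nonneg (norm_nonneg _) two_ne_zero).1 h2
    rw [Units.val_mul, uD_val, ← hdl, embX_apply]
    have hc0 : c₀.1 = ((c₀.1.re : F) : DF q) := by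
      ext
      · simp
      · simpa using hnc.1
      · simpa using hnc.2.1
      · simpa using hnc.2.2
    have hre : c₀.1.re ≠ 0 := by
      intro h0
      apply c₀.ne_zero
      rw [hc0, h0]
      simp
    have hxx : ¬ (x.imI = 0 ∧ x.imJ = 0 ∧ x.imK = 0) := by
      rintro ⟨e1, e2, e3⟩
      apply hx0
      ext <;> simp [hx, e1, e2, e3]
    intro h0
    apply hxx
    rw [hc0] at h0
    simp [hre, him] at h0
    exact h0

/-- The embeddings `F → ℂ` at which `D` is not ramified, from the number of the places. -/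
theorem exists_two (hr : 2 ≤ Nat.card (SPl q) + InfinitePlace.nrComplexPlaces F) :
    ∃ φ₁ φ₂ : F →+* ℂ, InfinitePlace.mk φ₁ ≠ InfinitePlace.mk φ₂ ∧ ¬ RamE q φ₁ ∧ ¬ RamE q φ₂ := by
  classical
  -- the places which are complex or split
  set A : Set (InfinitePlace F) := {w | w.IsComplex} with hA
  set B : Set (InfinitePlace F) := {w | ∃ h : w.IsReal,
    ¬ (InfinitePlace.embedding_of_isReal h (q.a : F) < 0 ∧
      InfinitePlace.embedding_of_isReal h (q.b : F) < 0)} with hB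
  have hdisj : Disjoint A B := by
    rw [Set.disjoint_left]
    rintro w hw ⟨h, -⟩
    exact InfinitePlace.not_isReal_iff_isComplex.2 hw h
  have hcA : A.ncard = InfinitePlace.nrComplexPlaces F := by
    rw [InfinitePlace.nrComplexPlaces, ← Nat.card_coe_set_eq, Nat.card_eq_fintype_card]
    rfl
  have hcB : B.ncard = Nat.card (SPl q) := rfl
  have hcard : 1 < (A ∪ B).ncard := by
    rw [Set.ncard_union_eq hdisj (Set.toFinite _) (Set.toFinite _), hcA, hcB]
    omega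
  obtain ⟨w₁, h1, w₂, h2, hne⟩ := Set.one_lt_ncard_iff_nontrivial.1 hcard
  have key : ∀ w ∈ A ∪ B, ¬ RamE q w.embedding := by
    rintro w hw ⟨ψ, e1, e2, e3⟩
    rcases hw with hw | ⟨hw, hw'⟩
    · apply InfinitePlace.isComplex_iff.1 hw
      rw [ComplexEmbedding.isReal_iff]
      ext x
      rw [ComplexEmbedding.conjugate_coe_eq, e1, Complex.conj_ofReal]
    · have e4 : ∀ x, InfinitePlace.embedding_of_isReal hw x = ψ x := by
        intro x
        have := (InfinitePlace.embedding_of_isReal_apply hw x).trans (e1 x)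
        exact_mod_cast this
      rw [e4, e4] at hw'
      exact hw' ⟨e2, e3⟩
  exact ⟨w₁.embedding, w₂.embedding, by simpa using hne, key w₁ h1, key w₂ h2⟩

/-- **ELQ. Existence of the generic element.** -/
theorem exists_generic (hdiv : ∀ x : DF q, x ≠ 0 → IsUnit x)
    (hr : 2 ≤ Nat.card (SPl q) + InfinitePlace.nrComplexPlaces F)
    {K : Subgroup (sysD q).A} (hK : OC K) (y : (sysD q).Pt) {k : Type} [Field k]
    {p : ℕ} [hp : Fact p.Prime] [CharP k p] {h : (sysD q).G → k}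
    (hh : ∀ a ∈ Stab K y, ∀ b ∈ Stab K y, h (a * b) = h a + h b) (c₀ : (sysD q).G)
    (hc₀ : c₀ ∈ Stab K y) (D : Finset F) (hD : ∀ d ∈ D, ¬ IsSquare d) :
    ∃ (L : Type) (_ : Field L) (_ : NumberField L) (_ : Algebra F L) (ι : L →ₐ[F] DF q)
      (u e : (𝓞 L)ˣ), Module.finrank F L = 2 ∧ (∀ d ∈ D, ¬ IsSquare (algebraMap F L d)) ∧
      uD ι u ∈ Stab K y ∧ h (uD ι u) = h c₀ ∧ uD ι e ∈ Stab K y ∧ h (uD ι e) = 0 ∧
      ∀ c : Gal(L/F), c ≠ 1 → ∀ a b : ℤ,
        (((e : 𝓞 L) : L) / c ((e : 𝓞 L) : L)) ^ a = (((u : 𝓞 L) : L) / c ((u : 𝓞 L) : L)) ^ b →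
          a = 0 := by
  classical
  obtain ⟨φ₁, φ₂, h12, hφ1, hφ2⟩ := exists_two hr
  obtain ⟨c₁, hc1, hc2, hc3⟩ := exists_noncentral hdiv ⟨φ₁, hφ1⟩ hK y hh c₀ hc₀
  obtain ⟨c, hc4, hc5, hc6, hc7, hc8⟩ := exists_generic_elt hdiv ⟨φ₁, hφ1⟩ hK y hh c₁ hc1 hc3 D
    (fun d hd h0 => hD d hd (by rw [h0]; exact ⟨0, by simp⟩))
  have : Fact (¬ IsSquare (dsc c.1)) := ⟨not_isSquare_dsc hdiv c.1 hc6⟩
  obtain ⟨hi1, hi2, hi3⟩ := stab_integral hK y c hc4
  obtain ⟨u, hu⟩ := exists_unitC c hi1 hi2 hi3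
  obtain ⟨e, he⟩ := exists_indep_unit (dsc c.1) φ₁ φ₂ h12 (hc8 φ₁ hφ1) (hc8 φ₂ hφ2) u
  obtain ⟨m, hm, hmem⟩ := exists_pow_mem_stab hK y (embC c.1)
  refine ⟨QE (dsc c.1), inferInstance, inferInstance, inferInstance, embC c.1, u, e ^ (m * p),
    QuadraticAlgebra.finrank_eq_two _ _, fun d hd => not_isSquare_transfer (hD d hd) (hc7 d hd), ?_,
    ?_, ?_, ?_, ?_⟩
  · rw [hu]
    exact hc4
  · rw [hu]
    exact hc5.trans hc2
  · rw [uD_pow, pow_mul]
    exact (Stab K y).pow_mem (hmem e) p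
  · rw [uD_pow, pow_mul]
    exact hom_pow_char hh (hmem e) p
  · intro g hg a b hab
    rw [gal_eq_star g hg, gal_eq_star g hg, coeU_pow, star_pow, ← div_pow, ← zpow_natCast,
      ← zpow_mul] at hab
    have h1 := he _ _ hab
    have h2 : ((m * p : ℕ) : ℤ) ≠ 0 := by
      exact_mod_cast (Nat.mul_pos hm hp.out.pos).ne'
    exact (mul_eq_zero.1 h1).resolve_left h2

end Pool.Agent.CGQ
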