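import Pool.Agent.CGQ.EQP
import Pool.Agent.CGQ.EUL
import Pool.Agent.CGQ.EAvd

/-!
# The generic element: units of `F(√d)`
-/

noncomputable section

set_option linter.unusedSectionVars false

namespace Pool.Agent.CGQ

open NumberField

variable {F : Type} [Field F] [NumberField F] (d : F) [Fact (¬ IsSquare d)]

private theorem ELI_log_mul {K : Type} [Field K] (Ψ : K →+* ℂ) {x y : K} (hx : x ≠ 0) (hy : y ≠ 0) :
    Real.log ‖Ψ (x * y)‖ = Real.log ‖Ψ x‖ + Real.log ‖Ψ y‖ := by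
  rw [map_mul, norm_mul, Real.log_mul]
  · exact norm_ne_zero_iff.2 ((map_ne_zero _).2 hx)
  · exact norm_ne_zero_iff.2 ((map_ne_zero _).2 hy)

private theorem ELI_star_ne {z : QE d} (hz : z ≠ 0) : star z ≠ 0 := by
  intro h
  apply hz
  have := congrArg star h
  rwa [star_star, star_zero] at this

private theorem ELI_unit_ne (u : (𝓞 (QE d))ˣ) : ((u : 𝓞 (QE d)) : QE d) ≠ 0 := by
  intro h
  exact u.ne_zero (RingOfIntegers.ext h)

/-- **ELI.** A totally hyperbolic unit.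
PROOF. `exists_forall_ne_zero` (`EAvd.lean`) for the group of the units, the finite index type
`{Ψ : QE d →+* ℂ // big (Ψ.comp (algebraMap F _))}` and
`l Ψ u = Real.log ‖Ψ u‖ - Real.log ‖Ψ (star u)‖` (additive as `Ψ u ≠ 0`). For fixed `Ψ` apply
`exists_unit_sum_ne` (`EUL.lean`) with `c w = 1` for `w = mk Ψ`, `-1` for `w = mk (Ψ ∘ conjQ)` (they are
different: `mk_ne`, `hbig`), `0` otherwise: `c w * mult w' > 0 > c w' * mult w`
(`InfinitePlace.apply : mk Ψ x = ‖Ψ x‖`). Finally `Real.log ‖Ψ ε‖ ≠ Real.log ‖Ψ (star ε)‖` gives the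
claim. -/
theorem exists_hyp_unit (big : (F →+* ℂ) → Prop) (hbig : ∀ φ, big φ → ¬ NegE d φ) :
    ∃ ε : (𝓞 (QE d))ˣ, ∀ Ψ : QE d →+* ℂ, big (Ψ.comp (algebraMap F (QE d))) →
      ‖Ψ ((ε : 𝓞 (QE d)) : QE d)‖ ≠ ‖Ψ (star ((ε : 𝓞 (QE d)) : QE d))‖ := by
  classical
  obtain ⟨ε, hε⟩ := exists_forall_ne_zero (G := (𝓞 (QE d))ˣ)
    (ι := {Ψ : QE d →+* ℂ // big (Ψ.comp (algebraMap F (QE d)))})
    (fun Ψ u => Real.log ‖Ψ.1 ((u : 𝓞 (QE d)) : QE d)‖ -
      Real.log ‖Ψ.1 (star ((u : 𝓞 (QE d)) : QE d))‖)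
    (by
      intro Ψ a b
      have e1 : (((a * b : (𝓞 (QE d))ˣ) : 𝓞 (QE d)) : QE d) =
          ((a : 𝓞 (QE d)) : QE d) * ((b : 𝓞 (QE d)) : QE d) := by
        rw [Units.val_mul]
        exact map_mul (algebraMap (𝓞 (QE d)) (QE d)) _ _
      change Real.log ‖Ψ.1 (((a * b : (𝓞 (QE d))ˣ) : 𝓞 (QE d)) : QE d)‖ -
        Real.log ‖Ψ.1 (star (((a * b : (𝓞 (QE d))ˣ) : 𝓞 (QE d)) : QE d))‖ = _
      rw [e1, ELI_log_mul _ (ELI_unit_ne d a) (ELI_unit_ne d b), star_mul,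
        ELI_log_mul _ (ELI_star_ne d (ELI_unit_ne d b)) (ELI_star_ne d (ELI_unit_ne d a))]
      ring)
    (by
      rintro ⟨Ψ, hΨ⟩
      have hne := mk_ne d Ψ (hbig _ hΨ)
      set w := InfinitePlace.mk Ψ with hw
      set w' := InfinitePlace.mk (Ψ.comp (conjQ d : QE d →+* QE d)) with hw'
      obtain ⟨u, hu⟩ := exists_unit_sum_ne (K := QE d)
        (fun v => if v = w then 1 else if v = w' then -1 else 0) ⟨w, w', by
          simp only [if_true, if_neg hne.symm]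
          have h1 : (0 : ℝ) < w.mult := by exact_mod_cast w.mult_pos
          have h2 : (0 : ℝ) < w'.mult := by exact_mod_cast w'.mult_pos
          intro h
          linarith⟩
      refine ⟨u, ?_⟩
      have e2 : ∑ v : InfinitePlace (QE d), (if v = w then (1 : ℝ) else if v = w' then -1 else 0) *
          Real.log (v ((u : 𝓞 (QE d)) : QE d)) =
          Real.log (w ((u : 𝓞 (QE d)) : QE d)) - Real.log (w' ((u : 𝓞 (QE d)) : QE d)) := by
        have e3 : ∀ v : InfinitePlace (QE d), (if v = w then (1 : ℝ) else if v = w' then -1 else 0) *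
            Real.log (v ((u : 𝓞 (QE d)) : QE d)) =
            (if v = w then Real.log (v ((u : 𝓞 (QE d)) : QE d)) else 0) -
            (if v = w' then Real.log (v ((u : 𝓞 (QE d)) : QE d)) else 0) := by
          intro v
          by_cases h1 : v = w
          · have h2 : v ≠ w' := fun h => hne (h1 ▸ h)
            simp [h1, hne]
          · by_cases h2 : v = w'
            · simp [h2, hne.symm]
            · simp [h1, h2]
        rw [Finset.sum_congr rfl fun v _ => e3 v, Finset.sum_sub_distrib, Finset.sum_ite_eq',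
          Finset.sum_ite_eq', if_pos (Finset.mem_univ _), if_pos (Finset.mem_univ _)]
      rw [e2] at hu
      exact hu)
  refine ⟨ε, fun Ψ hΨ h => hε ⟨Ψ, hΨ⟩ ?_⟩
  change Real.log ‖Ψ _‖ - Real.log ‖Ψ _‖ = 0
  rw [h, sub_self]

private theorem ELJ_sum {ι : Type*} [Fintype ι] [DecidableEq ι] (w₁ w₁' w₂ w₂' : ι) (h1 : w₁ ≠ w₁')
    (h2 : w₁ ≠ w₂) (h3 : w₁ ≠ w₂') (h4 : w₁' ≠ w₂) (h5 : w₁' ≠ w₂') (h6 : w₂ ≠ w₂') (α β : ℝ)
    (l : ι → ℝ) :
    ∑ v, (if v = w₁ then β else if v = w₁' then -β else if v = w₂ then -α else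
      if v = w₂' then α else 0) * l v = β * (l w₁ - l w₁') - α * (l w₂ - l w₂') := by
  have e : ∀ v, (if v = w₁ then β else if v = w₁' then -β else if v = w₂ then -α else
      if v = w₂' then α else 0) * l v = (if v = w₁ then β * l v else 0) +
      (if v = w₁' then -β * l v else 0) + (if v = w₂ then -α * l v else 0) +
      (if v = w₂' then α * l v else 0) := by
    intro v
    by_cases e1 : v = w₁
    · subst e1
      simp [h1, h2, h3]
    · by_cases e2 : v = w₁'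
      · subst e2
        simp [e1, h4, h5]
      · by_cases e3 : v = w₂
        · subst e3
          simp [e1, e2, h6]
        · by_cases e4 : v = w₂'
          · subst e4
            simp [e1, e2, e3]
          · simp [e1, e2, e3, e4]
  rw [Finset.sum_congr rfl fun v _ => e v]
  simp only [Finset.sum_add_distrib, Finset.sum_ite_eq', Finset.mem_univ, if_true]
  ring

private theorem ELJ_log (Ψ : QE d →+* ℂ) (e u : (𝓞 (QE d))ˣ) (a b : ℤ)
    (h : (((e : 𝓞 (QE d)) : QE d) / star ((e : 𝓞 (QE d)) : QE d)) ^ a =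
        (((u : 𝓞 (QE d)) : QE d) / star ((u : 𝓞 (QE d)) : QE d)) ^ b) :
    (a : ℝ) * (Real.log ‖Ψ ((e : 𝓞 (QE d)) : QE d)‖ -
      Real.log ‖Ψ (star ((e : 𝓞 (QE d)) : QE d))‖) =
    (b : ℝ) * (Real.log ‖Ψ ((u : 𝓞 (QE d)) : QE d)‖ -
      Real.log ‖Ψ (star ((u : 𝓞 (QE d)) : QE d))‖) := by
  have key : ∀ (x : (𝓞 (QE d))ˣ) (n : ℤ),
      Real.log ‖Ψ ((((x : 𝓞 (QE d)) : QE d) / star ((x : 𝓞 (QE d)) : QE d)) ^ n)‖ =
      (n : ℝ) * (Real.log ‖Ψ ((x : 𝓞 (QE d)) : QE d)‖ -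
        Real.log ‖Ψ (star ((x : 𝓞 (QE d)) : QE d))‖) := by
    intro x n
    rw [map_zpow₀, norm_zpow, Real.log_zpow, map_div₀, norm_div, Real.log_div]
    · exact norm_ne_zero_iff.2 ((map_ne_zero _).2 (ELI_unit_ne d x))
    · exact norm_ne_zero_iff.2 ((map_ne_zero _).2 (ELI_star_ne d (ELI_unit_ne d x)))
  rw [← key, ← key, h]

/-- **ELJ.** A unit which is independent of a given one.
PROOF. Take `Ψ₁`, `Ψ₂` above `φ₁`, `φ₂` (`exists_ext`) and `w₁ = mk Ψ₁`, `w₁' = mk (Ψ₁ ∘ conjQ)`, `w₂`, `w₂'`: four different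
places (`mk_ne`; the places `w₁`, `w₁'` restrict to `mk φ₁` on `F` (`InfinitePlace.comap_mk`), `w₂`, `w₂'`
to `mk φ₂`). For a unit `e` put `ℓ i e = log (wᵢ e) - log (wᵢ' e)`. Let `α = ℓ 1 u`, `β = ℓ 2 u`; if both are `0`
replace them by `α = 0, β = 1`. `exists_unit_sum_ne` for the form `β * ℓ 1 - α * ℓ 2` (coefficients `β` at `w₁`, `-β` at
`w₁'`, `-α` at `w₂`, `α` at `w₂'`; if `β ≠ 0` use `w₁`, `w₁'` in `hc`, otherwise `w₂`, `w₂'`): there is `e` with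
`β * ℓ 1 e - α * ℓ 2 e ≠ 0`. If `(e / ē)^a = (u / ū)^b` then (norm of `Ψᵢ` of it, logarithm)
`a * ℓ i e = b * ℓ i u` for `i = 1, 2`. If `(ℓ 1 u, ℓ 2 u) = (α, β)`: `a * (β * ℓ 1 e - α * ℓ 2 e) = b * (β * α - α * β) = 0`;
if they are both `0`: `a * ℓ 1 e = 0` and `ℓ 1 e ≠ 0`. So `a = 0`. -/
theorem exists_indep_unit (φ₁ φ₂ : F →+* ℂ) (h12 : InfinitePlace.mk φ₁ ≠ InfinitePlace.mk φ₂)
    (h1 : ¬ NegE d φ₁) (h2 : ¬ NegE d φ₂) (u : (𝓞 (QE d))ˣ) :
    ∃ e : (𝓞 (QE d))ˣ, ∀ a b : ℤ,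
      (((e : 𝓞 (QE d)) : QE d) / star ((e : 𝓞 (QE d)) : QE d)) ^ a =
        (((u : 𝓞 (QE d)) : QE d) / star ((u : 𝓞 (QE d)) : QE d)) ^ b → a = 0 := by
  classical
  obtain ⟨Ψ₁, hΨ₁⟩ := exists_ext d φ₁
  obtain ⟨Ψ₂, hΨ₂⟩ := exists_ext d φ₂
  have hcj : ∀ Ψ : QE d →+* ℂ, (Ψ.comp (conjQ d : QE d →+* QE d)).comp (algebraMap F (QE d)) =
      Ψ.comp (algebraMap F (QE d)) := by
    intro Ψ
    ext x
    change Ψ (conjQ d (algebraMap F (QE d) x)) = Ψ (algebraMap F (QE d) x)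
    rw [AlgHom.commutes]
  set w₁ := InfinitePlace.mk Ψ₁ with hw₁
  set w₁' := InfinitePlace.mk (Ψ₁.comp (conjQ d : QE d →+* QE d)) with hw₁'
  set w₂ := InfinitePlace.mk Ψ₂ with hw₂
  set w₂' := InfinitePlace.mk (Ψ₂.comp (conjQ d : QE d →+* QE d)) with hw₂'
  have c₁ : w₁.comap (algebraMap F (QE d)) = InfinitePlace.mk φ₁ := by
    rw [hw₁, InfinitePlace.comap_mk, hΨ₁]
  have c₁' : w₁'.comap (algebraMap F (QE d)) = InfinitePlace.mk φ₁ := by
    rw [hw₁', InfinitePlace.comap_mk, hcj, hΨ₁]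
  have c₂ : w₂.comap (algebraMap F (QE d)) = InfinitePlace.mk φ₂ := by
    rw [hw₂, InfinitePlace.comap_mk, hΨ₂]
  have c₂' : w₂'.comap (algebraMap F (QE d)) = InfinitePlace.mk φ₂ := by
    rw [hw₂', InfinitePlace.comap_mk, hcj, hΨ₂]
  have n11 : w₁ ≠ w₁' := mk_ne d Ψ₁ (by rw [hΨ₁]; exact h1)
  have n22 : w₂ ≠ w₂' := mk_ne d Ψ₂ (by rw [hΨ₂]; exact h2)
  have n12 : w₁ ≠ w₂ := fun h => h12 (by rw [← c₁, ← c₂, h])
  have n12' : w₁ ≠ w₂' := fun h => h12 (by rw [← c₁, ← c₂', h])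
  have n1'2 : w₁' ≠ w₂ := fun h => h12 (by rw [← c₁', ← c₂, h])
  have n1'2' : w₁' ≠ w₂' := fun h => h12 (by rw [← c₁', ← c₂', h])
  set A : ℝ := Real.log ‖Ψ₁ ((u : 𝓞 (QE d)) : QE d)‖ -
    Real.log ‖Ψ₁ (star ((u : 𝓞 (QE d)) : QE d))‖ with hA
  set B : ℝ := Real.log ‖Ψ₂ ((u : 𝓞 (QE d)) : QE d)‖ -
    Real.log ‖Ψ₂ (star ((u : 𝓞 (QE d)) : QE d))‖ with hB
  -- the coefficients
  obtain ⟨α, β, hαβ, hAB⟩ : ∃ α β : ℝ, (α ≠ 0 ∨ β ≠ 0) ∧ β * A = α * B ∧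
      (A = 0 → B = 0 → True) := by
    by_cases h : A = 0 ∧ B = 0
    · exact ⟨0, 1, Or.inr one_ne_zero, by rw [h.1, h.2]; ring, fun _ _ => trivial⟩
    · refine ⟨A, B, ?_, by ring, fun _ _ => trivial⟩
      by_contra hc
      push Not at hc
      exact h hc
  obtain ⟨e, he⟩ := exists_unit_sum_ne (K := QE d)
    (fun v => if v = w₁ then β else if v = w₁' then -β else if v = w₂ then -α else
      if v = w₂' then α else 0) (by
      have m1 : (0 : ℝ) < w₁.mult := by exact_mod_cast w₁.mult_pos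
      have m1' : (0 : ℝ) < w₁'.mult := by exact_mod_cast w₁'.mult_pos
      have m2 : (0 : ℝ) < w₂.mult := by exact_mod_cast w₂.mult_pos
      have m2' : (0 : ℝ) < w₂'.mult := by exact_mod_cast w₂'.mult_pos
      by_cases hβ : β = 0
      · have hα : α ≠ 0 := hαβ.resolve_right (not_not.2 hβ)
        refine ⟨w₂, w₂', ?_⟩
        simp only [if_neg n12.symm, if_neg n1'2.symm, if_true, if_neg n12'.symm, if_neg n1'2'.symm,
          if_neg n22.symm]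
        intro h
        have : α * ((w₂.mult : ℝ) + w₂'.mult) = 0 := by linarith
        rcases mul_eq_zero.1 this with h | h
        · exact hα h
        · linarith
      · refine ⟨w₁, w₁', ?_⟩
        simp only [if_true, if_neg n11.symm]
        intro h
        have : β * ((w₁.mult : ℝ) + w₁'.mult) = 0 := by linarith
        rcases mul_eq_zero.1 this with h | h
        · exact hβ h
        · linarith)
  rw [ELJ_sum w₁ w₁' w₂ w₂' n11 n12 n12' n1'2 n1'2' n22] at he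
  refine ⟨e, fun a b hab => ?_⟩
  have l1 := ELJ_log d Ψ₁ e u a b hab
  have l2 := ELJ_log d Ψ₂ e u a b hab
  rw [← hA] at l1
  rw [← hB] at l2
  have e1 : Real.log (w₁ ((e : 𝓞 (QE d)) : QE d)) - Real.log (w₁' ((e : 𝓞 (QE d)) : QE d)) =
      Real.log ‖Ψ₁ ((e : 𝓞 (QE d)) : QE d)‖ - Real.log ‖Ψ₁ (star ((e : 𝓞 (QE d)) : QE d))‖ := rfl
  have e2 : Real.log (w₂ ((e : 𝓞 (QE d)) : QE d)) - Real.log (w₂' ((e : 𝓞 (QE d)) : QE d)) =
      Real.log ‖Ψ₂ ((e : 𝓞 (QE d)) : QE d)‖ - Real.log ‖Ψ₂ (star ((e : 𝓞 (QE d)) : QE d))‖ := rfl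
  rw [e1, e2] at he
  have h0 : (a : ℝ) * (β * (Real.log ‖Ψ₁ ((e : 𝓞 (QE d)) : QE d)‖ -
      Real.log ‖Ψ₁ (star ((e : 𝓞 (QE d)) : QE d))‖) - α * (Real.log ‖Ψ₂ ((e : 𝓞 (QE d)) : QE d)‖ -
      Real.log ‖Ψ₂ (star ((e : 𝓞 (QE d)) : QE d))‖)) = 0 := by
    have : (a : ℝ) * (β * (Real.log ‖Ψ₁ ((e : 𝓞 (QE d)) : QE d)‖ -
      Real.log ‖Ψ₁ (star ((e : 𝓞 (QE d)) : QE d))‖) - α * (Real.log ‖Ψ₂ ((e : 𝓞 (QE d)) : QE d)‖ -
      Real.log ‖Ψ₂ (star ((e : 𝓞 (QE d)) : QE d))‖)) = β * ((b : ℝ) * A) - α * ((b : ℝ) * B) := by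
      rw [← l1, ← l2]
      ring
    rw [this]
    linear_combination (b : ℝ) * hAB.1
  rcases mul_eq_zero.1 h0 with h | h
  · exact_mod_cast h
  · exact absurd h he

end Pool.Agent.CGQ
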