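import Pool.Agent.CGQ.EDefs

/-!
# The generic element: embeddings of `F(√d)`
-/

noncomputable section

set_option linter.unusedSectionVars false

namespace Pool.Agent.CGQ

open NumberField

variable {F : Type} [Field F] [NumberField F] (d : F) [Fact (¬ IsSquare d)]

/-- **ELH.** The two embeddings of `F(√d)` over `φ` belong to different places if `φ` is complex or
if `d` is positive at `φ`.
PROOF. Otherwise (`InfinitePlace.mk_eq_iff`) `Ψ ∘ conj = Ψ` or `conj ∘ Ψ = Ψ ∘ conjQ` (up to order). With `ω = √d`
(`QuadraticAlgebra.omega`): `star ω = -ω`, `Ψ ω ≠ 0` (`Ψ ω ^ 2 = φ d`, `d ≠ 0`), so the first is impossible. The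
second: for `x : F` the number `Ψ x = Ψ (star x)` is equal to its complex conjugate, so `φ` is real: there is
`ψ : F →+* ℝ` with `φ x = ψ x` (e.g. `ψ x = (φ x).re`); and `conj (Ψ ω) = -Ψ ω` so `Ψ ω = y * I` with `y` real
and non zero and `ψ d = (Ψ ω)^2 = - y ^ 2 < 0`: `NegE d φ`. -/
theorem mk_ne (Ψ : QE d →+* ℂ) (h : ¬ NegE d (Ψ.comp (algebraMap F (QE d)))) :
    InfinitePlace.mk Ψ ≠ InfinitePlace.mk (Ψ.comp (conjQ d : QE d →+* QE d)) := by
  intro heq
  have hω0 : Ψ QuadraticAlgebra.omega ≠ 0 := by
    intro h0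
    have h1 : (QuadraticAlgebra.omega : QE d) = 0 := (map_eq_zero Ψ).1 h0
    have h2 := congrArg QuadraticAlgebra.im h1
    simp at h2
  have hconj : (Ψ.comp (conjQ d : QE d →+* QE d)) QuadraticAlgebra.omega =
      -Ψ QuadraticAlgebra.omega := by
    change Ψ (star QuadraticAlgebra.omega) = _
    rw [← map_neg]
    congr 1
    ext <;> simp
  have hsq : Ψ QuadraticAlgebra.omega * Ψ QuadraticAlgebra.omega =
      Ψ (algebraMap F (QE d) d) := by
    rw [← map_mul, QuadraticAlgebra.omega_mul_omega_eq_mk]
    congr 1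
  rcases InfinitePlace.mk_eq_iff.1 heq with h1 | h1
  · have h2 := RingHom.congr_fun h1 QuadraticAlgebra.omega
    rw [hconj] at h2
    apply hω0
    have h3 : (2 : ℂ) * Ψ QuadraticAlgebra.omega = 0 := by
      linear_combination h2
    rcases mul_eq_zero.1 h3 with h4 | h4
    · norm_num at h4
    · exact h4
  · have hreal : ComplexEmbedding.IsReal (Ψ.comp (algebraMap F (QE d))) := by
      ext x
      have h2 := RingHom.congr_fun h1 (algebraMap F (QE d) x)
      change (starRingEnd ℂ) (Ψ (algebraMap F (QE d) x)) = Ψ (star (algebraMap F (QE d) x)) at h2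
      change (starRingEnd ℂ) (Ψ (algebraMap F (QE d) x)) = Ψ (algebraMap F (QE d) x)
      rw [h2]
      congr 1
      exact (conjQ d).commutes x
    apply h
    refine ⟨hreal.embedding, fun x => (hreal.coe_embedding_apply x).symm, ?_⟩
    have h2 := RingHom.congr_fun h1 QuadraticAlgebra.omega
    rw [hconj] at h2
    change (starRingEnd ℂ) (Ψ QuadraticAlgebra.omega) = -Ψ QuadraticAlgebra.omega at h2
    set z := Ψ QuadraticAlgebra.omega with hz
    have hre : z.re = 0 := by
      have h3 := congrArg Complex.re h2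
      rw [Complex.conj_re, Complex.neg_re] at h3
      linarith
    have him : z.im ≠ 0 := by
      intro h3
      exact hω0 (Complex.ext hre h3)
    have h4 := hreal.coe_embedding_apply d
    change ((hreal.embedding d : ℝ) : ℂ) = Ψ (algebraMap F (QE d) d) at h4
    rw [← hsq] at h4
    have h5 := congrArg Complex.re h4
    rw [Complex.ofReal_re, Complex.mul_re, hre] at h5
    rw [h5]
    have := mul_self_pos.2 him
    linarith

/-- **ELHa.** Extension of embeddings. PROOF. `Complex` is algebraically closed and `QE d` is algebraic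
over `F` (e.g. `IsAlgClosed.lift` with the algebra structure `φ.toAlgebra`; or
`QuadraticAlgebra.lift` with a square root of `φ d`). -/
theorem exists_ext (φ : F →+* ℂ) : ∃ Ψ : QE d →+* ℂ, Ψ.comp (algebraMap F (QE d)) = φ := by
  let _ : Algebra F ℂ := φ.toAlgebra
  have hfd : FiniteDimensional F (QE d) := inferInstance
  have halg : Algebra.IsAlgebraic F (QE d) := inferInstance
  let Ψ : QE d →ₐ[F] ℂ := IsAlgClosed.lift
  refine ⟨Ψ.toRingHom, ?_⟩
  ext x
  exact Ψ.commutes x


end Pool.Agent.CGQ
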