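import Pool.Agent.CGQ.GalDefs

/-!
# Split places
-/

noncomputable section

set_option linter.unusedSectionVars false

namespace Pool.Agent.CGQ

open NumberField IsDedekindDomain Pool.Agent.CG2 Pool.Agent.CG2.GalFinAux
  Pool.Agent.CG2.GalInfAux

variable {F : Type} [Field F] [NumberField F]

/-- **FS**. A place fixed by an automorphism, with trivial Frobenius element in `L`, is ramified.

PROOF. `w` over `v`, `Nm w = Nm v` because the restriction of the Frobenius element `g` to `L` is
trivial: `FrobAt v w 1` (apply `IsFrob` to `inc F L x`), `absNorm_eq_of_frob` (`K := L`) or directly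
`x ≡ x ^ Nm v`. If `actP cL w = w` then `decomp_mem` (with `K := L`) shows that `cL` is the
restriction of scalars of an element of `Gal(L/L)`, so `cL = 1`. -/
theorem actP_ne {L : Type} [Field L] [NumberField L] [Algebra F L] [IsGalois F L]
    [Algebra L (Fbar F)] [IsScalarTower F L (Fbar F)] {cL : Gal(L/F)} (hcL : cL ≠ 1)
    {v : Pl F} (hun : UnramAt L v) {Q : Ideal (Zbar F)} (hQ : Over v Q) {g : GalF F}
    (hg : IsFrob v Q g) (hgL : ∀ x : L, g (algebraMap L (Fbar F) x) = algebraMap L (Fbar F) x)
    {w : Pl L} (hw : Q.comap (inc F L) = w.asIdeal) :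
    actP cL w ≠ w ∧ Nm w = Nm v := by
  have hQp : Q.IsPrime := hQ.1
  have hbel : below F w = v := by
    apply HeightOneSpectrum.ext
    change w.asIdeal.comap (algebraMap (𝓞 F) (𝓞 L)) = v.asIdeal
    rw [← hw, Ideal.comap_comap, ← comap_prime_eq hQ]
    congr 1
    ext x
    change ((algebraMap L (Fbar F)) ((algebraMap (𝓞 F) (𝓞 L) x : 𝓞 L) : L) : Fbar F) =
      algebraMap F (Fbar F) (x : F)
    exact (IsScalarTower.algebraMap_apply F L (Fbar F) (x : F)).symm
  have hF : FrobAt v w (1 : Gal(L/F)) := by
    refine ⟨GalFinAux.lies_iff.2 hbel, fun x => ?_⟩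
    rw [one_smul, ← hw, Ideal.mem_comap, map_sub, map_pow]
    exact hg (inc F L x) (inc F L x) (hgL (x : L)).symm
  have hN : Nm w = Nm v := by
    have h1 := absNorm_eq_of_frob (F := F) (K := L) (L := L) hF (fun y => rfl)
    have h2 : below L w = w := by
      apply HeightOneSpectrum.ext
      rfl
    rw [h2] at h1
    exact h1
  refine ⟨fun h => hcL ?_, hN⟩
  have h2 : below L w = w := by
    apply HeightOneSpectrum.ext
    rfl
  obtain ⟨c, hc⟩ := decomp_mem (F := F) (K := L) (L := L) hun (GalFinAux.lies_iff.2 hbel)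
    (by rw [h2]; exact hN) cL h
  rw [hc]
  apply AlgEquiv.ext
  intro x
  exact c.commutes x

end Pool.Agent.CGQ
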