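import Pool.Agent.CGQ.GalGG

/-!
# The group theoretic conclusion
-/

noncomputable section

set_option linter.unusedSectionVars false

namespace Pool.Agent.CGQ

open Matrix

variable {κ : Type} [Field κ] {G : Type} [Group G]

/-- **GC**. Cyclic modulo scalars.

PROOF. `κ` is algebraically closed: take an eigenvector of `ρ t`; for `g = t ^ i * s`, `ρ s` scalar. -/
theorem hasLine_of_cyclic [IsAlgClosed κ] (ρ : G →* GL (Fin 2) κ) (t : G)
    (h : ∀ g : G, ∃ i : ℤ, IsScal (ρ (t ^ i)⁻¹ * ρ g)) : HasLine ρ := by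
  obtain ⟨μ, hμ⟩ := Module.End.exists_eigenvalue
    (Matrix.toLin' (ρ t : Matrix (Fin 2) (Fin 2) κ))
  obtain ⟨x, hx⟩ := hμ.exists_hasEigenvector
  have hx1 : (ρ t : Matrix (Fin 2) (Fin 2) κ).mulVec x = μ • x := by
    have h1 := hx.apply_eq_smul
    rwa [Matrix.toLin'_apply] at h1
  have hμ0 : μ ≠ 0 := by
    rintro rfl
    rw [zero_smul] at hx1
    apply hx.2
    have h1 : ((ρ t)⁻¹ : Matrix (Fin 2) (Fin 2) κ).mulVec
        ((ρ t : Matrix (Fin 2) (Fin 2) κ).mulVec x) = x := by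
      rw [Matrix.mulVec_mulVec, Matrix.inv_mul_of_invertible]
      exact Matrix.one_mulVec x
    rw [hx1, Matrix.mulVec_zero] at h1
    exact h1.symm
  have hti : ∀ i : ℤ, ∃ b : κ, (ρ (t ^ i) : Matrix (Fin 2) (Fin 2) κ).mulVec x = b • x := by
    have hn : ∀ n : ℕ, (ρ (t ^ n) : Matrix (Fin 2) (Fin 2) κ).mulVec x = μ ^ n • x := by
      intro n
      induction n with
      | zero => simp
      | succ n ih =>
        rw [pow_succ, map_mul, GeneralLinearGroup.coe_mul, ← Matrix.mulVec_mulVec, hx1,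
          Matrix.mulVec_smul, ih, smul_smul, pow_succ, mul_comm]
    intro i
    obtain ⟨n, rfl | rfl⟩ := i.eq_nat_or_neg
    · exact ⟨μ ^ n, by rw [zpow_natCast]; exact hn n⟩
    · refine ⟨(μ ^ n)⁻¹, ?_⟩
      have h1 : x = (μ ^ n)⁻¹ • (ρ (t ^ n) : Matrix (Fin 2) (Fin 2) κ).mulVec x := by
        rw [hn, smul_smul, inv_mul_cancel₀ (pow_ne_zero n hμ0), one_smul]
      conv_lhs => rw [h1]
      rw [Matrix.mulVec_smul, Matrix.mulVec_mulVec, ← GeneralLinearGroup.coe_mul, ← map_mul,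
        _root_.zpow_neg, zpow_natCast, inv_mul_cancel, map_one]
      simp
  refine ⟨x, hx.2, fun g => ?_⟩
  obtain ⟨i, b, hb⟩ := h g
  obtain ⟨c, hc⟩ := hti i
  refine ⟨b * c, ?_⟩
  have h1 : (ρ g : Matrix (Fin 2) (Fin 2) κ) = (ρ (t ^ i) : Matrix (Fin 2) (Fin 2) κ) *
      Matrix.scalar (Fin 2) b := by
    rw [← hb, ← GeneralLinearGroup.coe_mul]
    congr 1
    rw [← mul_assoc, ← map_mul, mul_inv_cancel, map_one, one_mul]
  rw [h1, ← Matrix.mulVec_mulVec, Matrix.scalar_apply]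
  have h4 : (Matrix.diagonal fun _ : Fin 2 => b).mulVec x = b • x := by
    ext i
    rw [Matrix.mulVec_diagonal]
    rfl
  rw [h4, Matrix.mulVec_smul, hc, smul_smul]

private theorem gd_coprime {Δ : Type} [Group Δ] {S : Subgroup Δ} {x : Δ} {a b : ℕ}
    (ha : x ^ a ∈ S) (hb : x ^ b ∈ S) (hab : Nat.Coprime a b) : x ∈ S := by
  have h1 : (Nat.gcd a b : ℤ) = a * Nat.gcdA a b + b * Nat.gcdB a b := Nat.gcd_eq_gcd_ab a b
  rw [hab] at h1
  have h2 : x = (x ^ a) ^ (Nat.gcdA a b) * (x ^ b) ^ (Nat.gcdB a b) := by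
    rw [← zpow_natCast x a, ← zpow_natCast x b, ← _root_.zpow_mul, ← _root_.zpow_mul, ← _root_.zpow_add, ← h1]
    simp
  rw [h2]
  exact S.mul_mem (S.zpow_mem ha _) (S.zpow_mem hb _)

/-- **GD**. The conclusion. `H₂ ≤ H₁ ≤ G₀ ≤ G`: in the application `G = GalF F`, `G₀` the elements
trivial on `ζ_{p^M}`, `H₁` those which are moreover trivial on `L`, `H₂` those which are trivial on
`Z`, and `c` is the element `c~`.

PROOF. By `hH2` and `scal_or_line` (`H₂` normal) we may assume that `ρ x` is scalar for all `x ∈ H₂`.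
For `x ∈ H₁`: `ρ x ^ 2` is scalar, because `c * x * c⁻¹ * x ∈ H₂` and `ρ c = 1`; and
`ρ x ^ n` is scalar (`hpow`), `n = p ^ M`.
`p ≠ 2`: `ρ x` is scalar for `x ∈ H₁` (`2` and `n` are coprime). For `y ∈ G₀`: `y ∈ H₁` or `c * y ∈ H₁`
(`hH1`), `ρ y = ρ (c * y)`: scalar. So `f` is injective modulo `G₀`: `f : G →* C`, `C` cyclic, kernel `G₀`:
choose `t` with `f t` generating the cyclic group `f.range`; `hasLine_of_cyclic`.
`p = 2`: `ρ y ^ n` is scalar for `y ∈ G₀` (as above, `n` is a power of 2; `ρ y = ρ (c * y)`), and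
`g ^ (n')` lies in `G₀` for `g ∈ G`, `n'` a power of `2` (`hC2`). So `ρ g ^ (n n')` is scalar for all
`g`: if `ρ g ^ m = 1` with `m` odd then `ρ g` is scalar. `scal_or_line` with `H = ⊤`: either a common
line, or all `ρ g` are scalar and every vector is an eigenvector. -/
theorem hasLine_final [IsAlgClosed κ] {p M : ℕ} [CharP κ p] (hp : p.Prime)
    (ρ : G →* GL (Fin 2) κ) [Finite ρ.range] (G₀ H₁ H₂ : Subgroup G) [H₂.Normal]
    (hH2 : ∀ x ∈ H₂, ∀ m : ℕ, p.Coprime m → ρ x ^ m = 1 → IsScal (ρ x))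
    (c : G) (hc : ρ c = 1) (hH1 : ∀ y ∈ G₀, y ∈ H₁ ∨ c * y ∈ H₁)
    (hconj : ∀ x ∈ H₁, c * x * c⁻¹ * x ∈ H₂) (hpow : ∀ x ∈ H₁, x ^ (p ^ M) ∈ H₂)
    {C : Type} [CommGroup C] [Finite C] (f : G →* C) (hf : ∀ g, f g = 1 → g ∈ G₀)
    (hC1 : p ≠ 2 → IsCyclic C) (hC2 : p = 2 → ∃ k : ℕ, ∀ x : C, x ^ (2 ^ k) = 1) :
    HasLine ρ := by
  rcases scal_or_line hp ρ H₂ hH2 with hs | hl
  swap
  · exact hl
  have hsq : ∀ x ∈ H₁, ρ x ^ 2 ∈ scalSub κ := by
    intro x hx
    have h1 := hs _ (hconj x hx)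
    rw [map_mul, map_mul, map_mul, map_inv, hc, one_mul, inv_one, mul_one, ← pow_two] at h1
    exact h1
  have hpw : ∀ x ∈ H₁, ρ x ^ (p ^ M) ∈ scalSub κ := by
    intro x hx
    have h1 := hs _ (hpow x hx)
    rw [map_pow] at h1
    exact h1
  by_cases hp2 : p = 2
  · subst hp2
    obtain ⟨k, hk⟩ := hC2 rfl
    have hG0 : ∀ y ∈ G₀, ρ y ^ (2 ^ M) ∈ scalSub κ := by
      intro y hy
      rcases hH1 y hy with h1 | h1
      · exact hpw y h1
      · have h2 := hpw _ h1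
        rw [map_mul, hc, one_mul] at h2
        exact h2
    have hG : ∀ g : G, ρ g ^ (2 ^ (k + M)) ∈ scalSub κ := by
      intro g
      have h1 : g ^ (2 ^ k) ∈ G₀ := hf _ (by rw [map_pow, hk])
      have h2 := hG0 _ h1
      rw [map_pow, ← pow_mul, ← pow_add] at h2
      exact h2
    rcases scal_or_line hp ρ (⊤ : Subgroup G) (fun x _ m hm hxm => by
      have h1 : (scalSub κ) ≤ scalSub κ := le_rfl
      refine gd_coprime (hG x) ?_ ((Nat.Coprime.pow_left (k + M) hm))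
      rw [hxm]
      exact (scalSub κ).one_mem) with h1 | h1
    · refine ⟨fun _ => 1, fun h2 => one_ne_zero (congrFun h2 0), fun g => ?_⟩
      obtain ⟨b, hb⟩ := h1 g trivial
      refine ⟨b, ?_⟩
      rw [hb, Matrix.scalar_apply]
      ext i
      rw [Matrix.mulVec_diagonal]
      rfl
    · exact h1
  · have hcop : Nat.Coprime 2 (p ^ M) :=
      Nat.Coprime.pow_right M ((Nat.coprime_primes Nat.prime_two hp).2 (Ne.symm hp2))
    have h1 : ∀ x ∈ H₁, ρ x ∈ scalSub κ := fun x hx => gd_coprime (hsq x hx) (hpw x hx) hcop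
    have h0 : ∀ y ∈ G₀, ρ y ∈ scalSub κ := by
      intro y hy
      rcases hH1 y hy with h2 | h2
      · exact h1 y h2
      · have h3 := h1 _ h2
        rw [map_mul, hc, one_mul] at h3
        exact h3
    have := hC1 hp2
    obtain ⟨⟨_, t, rfl⟩, ht⟩ := IsCyclic.exists_generator (α := f.range)
    refine hasLine_of_cyclic ρ t fun g => ?_
    obtain ⟨i, hi⟩ := Subgroup.mem_zpowers_iff.1 (ht ⟨f g, ⟨g, rfl⟩⟩)
    refine ⟨i, ?_⟩
    rw [← map_mul]
    apply h0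
    apply hf
    have h2 : f t ^ i = f g := congrArg Subtype.val hi
    rw [map_mul, map_inv, map_zpow, h2, inv_mul_cancel]

end Pool.Agent.CGQ
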