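import Pool.Agent.CGQ.GalCore
import Pool.Agent.CGQ.GalKum
import Pool.Agent.CGQ.GalGD
import Pool.Agent.CGQ.GalLC
import Pool.Agent.CGQ.GalSC
import Pool.Agent.CGQ.GalSQ

/-!
# The Galois side for arithmetic Frobenius elements
-/

noncomputable section

set_option linter.unusedSectionVars false

namespace Pool.Agent.CGQ

open NumberField IsDedekindDomain Matrix Pool.Agent.CG2 Pool.Agent.CG2.GalFinAux
  Pool.Agent.CG2.GalInfAux

variable {F : Type} [Field F] [NumberField F] {L : Type} [Field L] [NumberField L] [Algebra F L]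
  {κ : Type} [Field κ]

private theorem ARI_actsL_inv [Algebra L (Fbar F)] [IsScalarTower F L (Fbar F)] {cL : Gal(L/F)}
    {c : GalF F} (h : ActsL cL c) (x : L) :
    c⁻¹ (algebraMap L (Fbar F) x) = algebraMap L (Fbar F) (cL⁻¹ x) := by
  have h1 := h (cL⁻¹ x)
  have h2 : cL (cL⁻¹ x) = x := by
    rw [← AlgEquiv.mul_apply, mul_inv_cancel]
    rfl
  rw [h2] at h1
  rw [← h1, ← AlgEquiv.mul_apply, inv_mul_cancel]
  rfl

private theorem ARI_root_mem [Algebra L (Fbar F)] [IsScalarTower F L (Fbar F)] {n : ℕ} {t : L}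
    {a : GalF F} (haL : TrivL L a) {x : Fbar F} (hx : x ^ n = algebraMap L (Fbar F) t) :
    (a x) ^ n = algebraMap L (Fbar F) t := by
  rw [← map_pow, hx, haL]

private theorem ARI_pow_root [Algebra L (Fbar F)] [IsScalarTower F L (Fbar F)] {n : ℕ} (hn : 0 < n)
    {t : L} {a : GalF F} (haL : TrivL L a) (haμ : TrivMu n a) {x : Fbar F}
    (hx : x ^ n = algebraMap L (Fbar F) t) : (a ^ n) x = x := by
  rcases eq_or_ne x 0 with rfl | hx0
  · rw [map_zero]
  · set ξ := a x / x with hξ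
    have h1 : a x = ξ * x := by rw [hξ, div_mul_cancel₀ _ hx0]
    have h2 : ξ ^ n = 1 := by
      rw [hξ, div_pow, ARI_root_mem haL hx, hx]
      apply div_self
      rw [← hx]
      exact pow_ne_zero _ hx0
    have h3 : ∀ k : ℕ, (a ^ k) x = ξ ^ k * x := by
      intro k
      induction k with
      | zero => simp
      | succ k ih =>
        rw [pow_succ', AlgEquiv.mul_apply, ih, map_mul, map_pow, haμ ξ h2, h1]
        ring
    rw [h3, h2, one_mul]

/-- The case of arithmetic Frobenius elements and of a fixed embedding.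

PROOF. Let `B = Nat.card ρ.range` (finite because `ρ.ker` is open in the compact group `GalF F`), `M, α, θ, σ₀`
by `kummer_step`, `c` from `hNL` for this `M`: it acts on `L` as `cL` (`trivL_or_actsL`). Apply
`hasLine_final` with `G₀ = HMu F n`, `H₁ = HOne L n`, `H₂ = HZ n u e`, `n = p ^ M`, `C = (ZMod n)ˣ`,
`f` the cyclotomic character (`modularCyclotomicCharacter`): `hH2` is `core_scalar` (`ρ x` of
order `m` prime to `p`); `hH1`: `trivL_or_actsL` (if `y` acts as `cL` then `c * y` is trivial on `L`, because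
`cL * cL = 1`); `hconj`: `conj_root` for `u` and `e` (`c x c⁻¹ x` acts on a root `y` of `X ^ n - u` by:
`x y = ξ y`, `(c x c⁻¹) (ξ y) = ξ x⁻¹ y = y`); `hpow`: `x y = ξ y` with `ξ ^ n = 1`. `hC1`:
`(ZMod (p ^ M))ˣ` is cyclic for `p ≠ 2` (`ZMod.isCyclic_units_of_prime_pow`), `hC2`: it has `2 ^ (M - 1)`
elements for `p = 2`. -/
theorem galois_arith [IsAlgClosed κ] {p : ℕ} (hp : p.Prime) [CharP κ p]
    [Algebra L (Fbar F)] [IsScalarTower F L (Fbar F)]
    (hL : Module.finrank F L = 2) {cL : Gal(L/F)} (hcL : cL ≠ 1)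
    (ρ : GalF F →* GL (Fin 2) κ) (hρ : IsOpen (ρ.ker : Set (GalF F))) (u e : (𝓞 L)ˣ)
    (hu : cL ((u : 𝓞 L) : L) * ((u : 𝓞 L) : L) = 1)
    (he : cL ((e : 𝓞 L) : L) * ((e : 𝓞 L) : L) = 1)
    (hind : ∀ a b : ℤ, e ^ a = u ^ b → a = 0) {S : Set (Pl L)} (hS : S.Finite)
    (χ : Pl L → κ) (hχ : IsRay S χ) {T : Set (Pl F)} (hT : T.Finite)
    (hH : HypH p ρ cL u e χ T)
    (hNL : ∀ M : ℕ, ∃ g : GalF F, ρ g = 1 ∧ TrivMu (p ^ M) g ∧ ¬ TrivL L g) : HasLine ρ := by
  classical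
  have hfinQ : Finite (GalF F ⧸ ρ.ker) := Subgroup.quotient_finite_of_isOpen ρ.ker hρ
  have hfin : Finite ρ.range :=
    Finite.of_equiv _ (QuotientGroup.quotientKerEquivRange ρ).toEquiv
  have hB : 0 < Nat.card ρ.range := Nat.card_pos
  have hρB : ∀ s : GalF F, ρ s ^ Nat.card ρ.range = 1 := by
    intro s
    have h1 : (⟨ρ s, s, rfl⟩ : ρ.range) ^ Nat.card ρ.range = 1 := pow_card_eq_one'
    exact congrArg Subtype.val h1
  obtain ⟨M, α, θ, σ₀, hM, hα, hθ, hσ₀, hσL, hσμ, hσα, hσθ, hσp⟩ :=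
    kummer_step hp ρ hB hρB u e hind
  have hn : 0 < p ^ M := pow_pos hp.pos M
  have : NeZero (p ^ M) := ⟨hn.ne'⟩
  obtain ⟨c, hc, hcμ, hcL'⟩ := hNL M
  have hcA : ActsL cL c := (trivL_or_actsL hL hcL c).resolve_left hcL'
  obtain ⟨f, hf⟩ := exists_cyc F (p ^ M) hn
  have hnorm : (HZ (F := F) (p ^ M) ((u : 𝓞 L) : L) ((e : 𝓞 L) : L)).Normal :=
    HZ_normal hL hcL hu he
  refine hasLine_final (M := M) hp ρ (HMu F (p ^ M)) (HOne (F := F) L (p ^ M))
    (HZ (F := F) (p ^ M) ((u : 𝓞 L) : L) ((e : 𝓞 L) : L)) ?_ c hc ?_ ?_ ?_ f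
    (fun g hg => (hf g).1 hg) ?_ ?_
  · intro x hx m hpm hxm
    exact core_scalar hp hpm hL hcL hρ hu he hS hχ hT hH hα hθ hσ₀ hσL hσμ hσα hσθ hσp hc hcμ hcA
      hx hxm
  · intro y hy
    rcases trivL_or_actsL hL hcL y with h1 | h1
    · exact Or.inl ⟨h1, hy⟩
    · right
      refine ⟨?_, (HMu F (p ^ M)).mul_mem hcμ hy⟩
      rcases trivL_or_actsL hL hcL (c * y) with h2 | h2
      · exact h2
      · exfalso
        apply hcL
        ext x
        have h3 := h2 x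
        rw [AlgEquiv.mul_apply, h1 x, hcA] at h3
        exact cL.injective ((algebraMap L (Fbar F)).injective h3)
  · rintro x ⟨hxL, hxμ⟩
    have hconjL : TrivL L (c * x * c⁻¹) := by
      intro y
      rw [AlgEquiv.mul_apply, AlgEquiv.mul_apply, ARI_actsL_inv hcA, hxL, hcA]
      congr 1
      rw [← AlgEquiv.mul_apply, mul_inv_cancel]
      rfl
    have hconjμ : TrivMu (p ^ M) (c * x * c⁻¹) :=
      (HMu F (p ^ M)).mul_mem ((HMu F (p ^ M)).mul_mem hcμ hxμ) ((HMu F (p ^ M)).inv_mem hcμ)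
    have hroot : ∀ t : L, cL t * t = 1 → TrivRoot (p ^ M) t (c * x * c⁻¹ * x) := by
      intro t ht y hy
      rw [AlgEquiv.mul_apply, conj_root hn ht hcA hcμ hxL hxμ (ARI_root_mem hxL hy),
        ← AlgEquiv.mul_apply, inv_mul_cancel]
      rfl
    exact ⟨fun y => by rw [AlgEquiv.mul_apply, hxL, hconjL],
      (HMu F (p ^ M)).mul_mem hconjμ hxμ, hroot _ hu, hroot _ he⟩
  · rintro x ⟨hxL, hxμ⟩
    have h1 : x ^ (p ^ M) ∈ HOne (F := F) L (p ^ M) :=
      (HOne (F := F) L (p ^ M)).pow_mem ⟨hxL, hxμ⟩ _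
    exact ⟨h1.1, h1.2, fun y hy => ARI_pow_root hn hxL hxμ hy,
      fun y hy => ARI_pow_root hn hxL hxμ hy⟩
  · intro hp2
    exact ZMod.isCyclic_units_of_prime_pow p hp hp2 M
  · intro hp2
    subst hp2
    refine ⟨M - 1, fun x => ?_⟩
    have h1 : Fintype.card (ZMod (2 ^ M))ˣ = 2 ^ (M - 1) := by
      rw [ZMod.card_units_eq_totient, Nat.totient_prime_pow Nat.prime_two hM]
      simp
    rw [← h1]
    exact pow_card_eq_one

end Pool.Agent.CGQ
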