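import Pool.Agent.CGQ.GalDefG

/-!
# Matrices with one eigenvalue
-/

noncomputable section

set_option linter.unusedSectionVars false

namespace Pool.Agent.CGQ

open Matrix

variable {κ : Type} [Field κ] {G : Type} [Group G]

private theorem gs_ch (A : Matrix (Fin 2) (Fin 2) κ) :
    A * A = A.trace • A - A.det • (1 : Matrix (Fin 2) (Fin 2) κ) := by
  rw [Matrix.trace_fin_two, Matrix.det_fin_two]
  ext i j
  fin_cases i <;> fin_cases j <;>
    simp [Matrix.mul_apply, Fin.sum_univ_two, Matrix.sub_apply, Matrix.smul_apply] <;> ring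

private theorem gs_sq {A : Matrix (Fin 2) (Fin 2) κ} {b : κ} (htr : A.trace = 2 * b)
    (hdet : A.det = b ^ 2) : (A - b • 1) * (A - b • 1) = 0 := by
  have h := gs_ch A
  rw [htr, hdet] at h
  have h2 : (A - b • 1) * (A - b • 1) = A * A - (2 * b) • A + (b ^ 2) • (1 : Matrix (Fin 2) (Fin 2) κ) := by
    rw [sub_mul, mul_sub, mul_sub, smul_mul_assoc, smul_mul_assoc, one_mul, one_mul, mul_smul_comm,
      mul_one, smul_smul, two_mul, add_smul, pow_two]
    abel
  rw [h2, h]
  abel

private theorem gs_pow {A : Matrix (Fin 2) (Fin 2) κ} {b : κ}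
    (hN : (A - b • 1) * (A - b • 1) = 0) (m : ℕ) :
    A ^ (m + 1) = (b ^ (m + 1)) • 1 + (((m + 1 : ℕ) : κ) * b ^ m) • (A - b • 1) := by
  induction m with
  | zero => simp
  | succ m ih =>
    have hA : A = b • 1 + (A - b • 1) := by abel
    set N := A - b • (1 : Matrix (Fin 2) (Fin 2) κ) with hNd
    rw [pow_succ, ih]
    conv_lhs => rw [hA]
    rw [add_mul, mul_add, mul_add]
    simp only [smul_mul_assoc, mul_smul_comm, one_mul, mul_one, hN, smul_zero, add_zero, smul_smul]
    rw [add_assoc, ← add_smul]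
    congr 1
    · congr 1; ring
    · congr 1; push_cast; ring

/-- **GS**. An element of finite order prime to the characteristic with one eigenvalue is scalar.

PROOF. Cayley–Hamilton: `(A - b) ^ 2 = 0` for `A = ρ`. `N = A - b`, `N ^ 2 = 0`,
`1 = A ^ m = b ^ m + m b ^ (m - 1) N` (`Commute.add_pow` or induction), so
`m b ^ (m - 1) N = 1 - b ^ m` is a scalar `c` with `c ^ 2 = 0` (square of the left side), `c = 0`;
`m ≠ 0` in `κ`, `b ≠ 0` (`det A = b ^ 2`): `N = 0`. -/
theorem isScal_of_one_eig {p m : ℕ} [CharP κ p] (hp : p.Prime) (hpm : p.Coprime m)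
    (A : GL (Fin 2) κ) (hA : A ^ m = 1) (b : κ)
    (htr : (A : Matrix (Fin 2) (Fin 2) κ).trace = 2 * b)
    (hdet : (A : Matrix (Fin 2) (Fin 2) κ).det = b ^ 2) : IsScal A := by
  have hN := gs_sq htr hdet
  have hb : b ≠ 0 := by
    intro hb
    rw [hb, zero_pow two_ne_zero] at hdet
    have h1 := (Matrix.isUnit_iff_isUnit_det _).1 A.isUnit
    rw [hdet] at h1
    exact not_isUnit_zero h1
  have hm0 : m ≠ 0 := by
    rintro rfl
    rw [Nat.coprime_zero_right] at hpm
    exact hp.one_lt.ne' hpm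
  have hmk : (m : κ) ≠ 0 := by
    rw [Ne, CharP.cast_eq_zero_iff κ p]
    exact (Nat.Prime.coprime_iff_not_dvd hp).1 hpm
  obtain ⟨k, rfl⟩ : ∃ k, m = k + 1 := ⟨m - 1, by omega⟩
  have h1 : (A : Matrix (Fin 2) (Fin 2) κ) ^ (k + 1) = 1 := by
    have := congrArg (fun B : GL (Fin 2) κ => (B : Matrix (Fin 2) (Fin 2) κ)) hA
    simpa using this
  rw [gs_pow hN] at h1
  set N := (A : Matrix (Fin 2) (Fin 2) κ) - b • (1 : Matrix (Fin 2) (Fin 2) κ) with hNd
  have h2 : (((k + 1 : ℕ) : κ) * b ^ k) • N = (1 - b ^ (k + 1)) • (1 : Matrix (Fin 2) (Fin 2) κ) := by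
    rw [sub_smul, one_smul, eq_sub_iff_add_eq, add_comm]
    exact h1
  have hc : (((k + 1 : ℕ) : κ) * b ^ k) ≠ 0 := mul_ne_zero hmk (pow_ne_zero _ hb)
  have h3 : (1 - b ^ (k + 1)) = 0 := by
    have h4 : ((((k + 1 : ℕ) : κ) * b ^ k) • N) * ((((k + 1 : ℕ) : κ) * b ^ k) • N) = 0 := by
      rw [smul_mul_smul_comm, hN, smul_zero]
    rw [h2, smul_mul_smul_comm, mul_one] at h4
    have h5 := congrFun (congrFun h4 0) 0
    simp only [Matrix.smul_apply, Matrix.one_apply_eq, smul_eq_mul, mul_one, Matrix.zero_apply] at h5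
    exact mul_self_eq_zero.1 h5
  rw [h3, zero_smul] at h2
  have h6 : N = 0 := (smul_eq_zero.1 h2).resolve_left hc
  refine ⟨b, ?_⟩
  rw [Matrix.scalar_apply, ← Matrix.smul_one_eq_diagonal]
  exact sub_eq_zero.1 h6

/-- **GE**. An element of `GL₂` of finite order some `p`-power of which is scalar, but which is not scalar
itself, has exactly one eigenline.

PROOF. `κ` algebraically closed: `A` has an eigenvalue `b`, and the other one `b'` satisfies
`b' ^ (p ^ k) = b ^ (p ^ k)`, so `b' = b` (`Frobenius` injective). `N = A - b ≠ 0`, `N ^ 2 = 0`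
(Cayley–Hamilton): the eigenvectors of `A` are the non zero elements of the kernel of `N`, a line. -/
theorem unique_line [IsAlgClosed κ] {p k : ℕ} [CharP κ p] (hp : p.Prime)
    (A : GL (Fin 2) κ) (hA : IsScal (A ^ (p ^ k))) (hA' : ¬ IsScal A) :
    ∃ x : Fin 2 → κ, x ≠ 0 ∧ (∃ b : κ, (A : Matrix (Fin 2) (Fin 2) κ).mulVec x = b • x) ∧
      ∀ y : Fin 2 → κ, (∃ b : κ, (A : Matrix (Fin 2) (Fin 2) κ).mulVec y = b • y) →
        ∃ r : κ, y = r • x := by
  have : Fact p.Prime := ⟨hp⟩
  have hpk : p ^ k ≠ 0 := pow_ne_zero _ hp.ne_zero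
  obtain ⟨c, hc⟩ := hA
  set B : Matrix (Fin 2) (Fin 2) κ := (A : Matrix (Fin 2) (Fin 2) κ) with hB
  have hBp : B ^ (p ^ k) = c • 1 := by
    have : ((A ^ (p ^ k) : GL (Fin 2) κ) : Matrix (Fin 2) (Fin 2) κ) = B ^ (p ^ k) := by
      simp [hB]
    rw [← this, hc, Matrix.scalar_apply, ← Matrix.smul_one_eq_diagonal]
  -- all eigenvalues satisfy `b ^ (p ^ k) = c`
  have heig : ∀ (x : Fin 2 → κ) (b : κ), x ≠ 0 → B.mulVec x = b • x → b ^ (p ^ k) = c := by
    intro x b hx hbx
    have h1 : ∀ j : ℕ, (B ^ j).mulVec x = b ^ j • x := by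
      intro j
      induction j with
      | zero => simp
      | succ j ih => rw [pow_succ, ← Matrix.mulVec_mulVec, hbx, Matrix.mulVec_smul, ih, smul_smul,
          pow_succ']
    have h2 := h1 (p ^ k)
    rw [hBp, Matrix.smul_mulVec, Matrix.one_mulVec] at h2
    exact (smul_left_injective κ hx h2).symm
  obtain ⟨b, hb⟩ := Module.End.exists_eigenvalue (Matrix.toLin' B)
  obtain ⟨x, hx⟩ := hb.exists_hasEigenvector
  have hx0 : x ≠ 0 := hx.2
  have hbx : B.mulVec x = b • x := by
    have := hx.apply_eq_smul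
    rwa [Matrix.toLin'_apply] at this
  refine ⟨x, hx0, ⟨b, hbx⟩, ?_⟩
  rintro y ⟨b', hy⟩
  by_cases hy0 : y = 0
  · exact ⟨0, by rw [hy0, zero_smul]⟩
  have hbb : b' = b := by
    have h1 : b' ^ (p ^ k) = b ^ (p ^ k) := by rw [heig y b' hy0 hy, heig x b hx0 hbx]
    have h2 : (b' - b) ^ (p ^ k) = 0 := by rw [sub_pow_char_pow, h1, sub_self]
    exact sub_eq_zero.1 ((pow_eq_zero_iff hpk).1 h2)
  rw [hbb] at hy
  -- if `x, y` are independent then `B = b`
  by_contra hcon
  push Not at hcon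
  apply hA'
  refine ⟨b, ?_⟩
  rw [Matrix.scalar_apply, ← Matrix.smul_one_eq_diagonal]
  have hdet : x 0 * y 1 - x 1 * y 0 ≠ 0 := by
    intro hd
    rcases eq_or_ne (x 0) 0 with h0 | h0
    · have h1 : x 1 ≠ 0 := by
        intro h1
        apply hx0
        funext i
        fin_cases i <;> simp [h0, h1]
      rw [h0, zero_mul, zero_sub, neg_eq_zero] at hd
      have h2 : y 0 = 0 := (mul_eq_zero.1 hd).resolve_left h1
      refine hcon (y 1 / x 1) ?_
      funext i
      fin_cases i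
      · simp [h0, h2]
      · simp [h1]
    · refine hcon (y 0 / x 0) ?_
      funext i
      fin_cases i
      · simp [h0]
      · simp only [Pi.smul_apply, smul_eq_mul]
        change y 1 = y 0 / x 0 * x 1
        field_simp
        linear_combination hd
  have e1 : B 0 0 * x 0 + B 0 1 * x 1 = b * x 0 := by
    have := congrFun hbx 0
    simpa [Matrix.mulVec, dotProduct, Fin.sum_univ_two] using this
  have e2 : B 1 0 * x 0 + B 1 1 * x 1 = b * x 1 := by
    have := congrFun hbx 1
    simpa [Matrix.mulVec, dotProduct, Fin.sum_univ_two] using this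
  have e3 : B 0 0 * y 0 + B 0 1 * y 1 = b * y 0 := by
    have := congrFun hy 0
    simpa [Matrix.mulVec, dotProduct, Fin.sum_univ_two] using this
  have e4 : B 1 0 * y 0 + B 1 1 * y 1 = b * y 1 := by
    have := congrFun hy 1
    simpa [Matrix.mulVec, dotProduct, Fin.sum_univ_two] using this
  have d1 : B 0 0 = b := mul_right_cancel₀ hdet (by linear_combination y 1 * e1 - x 1 * e3)
  have d2 : B 0 1 = 0 := by
    have : B 0 1 * (x 0 * y 1 - x 1 * y 0) = 0 := by linear_combination x 0 * e3 - y 0 * e1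
    exact (mul_eq_zero.1 this).resolve_right hdet
  have d3 : B 1 0 = 0 := by
    have : B 1 0 * (x 0 * y 1 - x 1 * y 0) = 0 := by linear_combination y 1 * e2 - x 1 * e4
    exact (mul_eq_zero.1 this).resolve_right hdet
  have d4 : B 1 1 = b := mul_right_cancel₀ hdet (by linear_combination x 0 * e4 - y 0 * e2)
  change B = _
  ext i j
  fin_cases i <;> fin_cases j
  · simpa using d1
  · simpa using d2
  · simpa using d3
  · simpa using d4

end Pool.Agent.CGQ
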