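import Pool.Agent.CGQ.GalKey

/-!
# One eigenvalue
-/

noncomputable section

set_option linter.unusedSectionVars false

namespace Pool.Agent.CGQ

open NumberField IsDedekindDomain Pool.Agent.CG2 Pool.Agent.CG2.GalFinAux
  Pool.Agent.CG2.GalInfAux

section aux

variable {F L N : Type} [Field F] [NumberField F] [Field L] [NumberField L] [Field N]
    [NumberField N] [Algebra F L] [Algebra F N] [Algebra L N] [IsScalarTower F L N]

/-- An automorphism trivial on `L`, over `L`. -/
private def gone_lift (τ : Gal(N/F)) (hτL : ∀ x : L, τ (algebraMap L N x) = algebraMap L N x) :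
    Gal(N/L) :=
  AlgEquiv.ofRingEquiv (f := τ.toRingEquiv) hτL

private theorem gone_lift_apply (τ : Gal(N/F))
    (hτL : ∀ x : L, τ (algebraMap L N x) = algebraMap L N x) (x : N) :
    gone_lift τ hτL x = τ x := rfl

private theorem gone_pow (τ : Gal(N/F))
    (hτL : ∀ x : L, τ (algebraMap L N x) = algebraMap L N x) (i : ℕ) (x : N) :
    (gone_lift τ hτL ^ i) x = (τ ^ i) x := by
  induction i generalizing x with
  | zero => rfl
  | succ i ih =>
    rw [pow_succ, pow_succ, AlgEquiv.mul_apply, AlgEquiv.mul_apply, ih]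
    rfl

private theorem gone_smul (τ : Gal(N/F))
    (hτL : ∀ x : L, τ (algebraMap L N x) = algebraMap L N x) (i : ℕ) (x : 𝓞 N) :
    (gone_lift τ hτL ^ i) • x = (τ ^ i) • x := by
  apply RingOfIntegers.ext
  exact gone_pow τ hτL i (x : N)

private theorem gone_order (τ : Gal(N/F))
    (hτL : ∀ x : L, τ (algebraMap L N x) = algebraMap L N x) :
    orderOf (gone_lift τ hτL) = orderOf τ := by
  rw [orderOf_eq_orderOf_iff]
  intro n
  constructor
  · intro h
    ext x
    rw [← gone_pow τ hτL, h]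
    rfl
  · intro h
    ext x
    rw [gone_pow τ hτL, h]
    rfl

private theorem gone_frob_iff (τ : Gal(N/F))
    (hτL : ∀ x : L, τ (algebraMap L N x) = algebraMap L N x) (i : ℕ) {v : Pl F} {P : Pl N}
    (hP : Lies P v) (hN : Nm (below L P) = Nm v) :
    FrobAt (below L P) P (gone_lift τ hτL ^ i) ↔ FrobAt v P (τ ^ i) := by
  have hN' : Ideal.absNorm (below L P).asIdeal = Ideal.absNorm v.asIdeal := hN
  constructor
  · rintro ⟨_, h⟩
    refine ⟨hP, fun x => ?_⟩
    have h1 := h x
    rw [gone_smul, hN'] at h1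
    exact h1
  · rintro ⟨_, h⟩
    refine ⟨lies_below P, fun x => ?_⟩
    rw [gone_smul, hN']
    exact h x

private theorem gone_pow_fix (τ : Gal(N/F))
    (hτL : ∀ x : L, τ (algebraMap L N x) = algebraMap L N x) (i : ℕ) (y : 𝓞 L) :
    (τ ^ i) • algebraMap (𝓞 L) (𝓞 N) y = algebraMap (𝓞 L) (𝓞 N) y := by
  apply RingOfIntegers.ext
  change (τ ^ i) (algebraMap L N (y : L)) = algebraMap L N (y : L)
  induction i with
  | zero => rfl
  | succ i ih =>
    rw [pow_succ, AlgEquiv.mul_apply, hτL, ih]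

end aux

/-- The exponent of another generator is prime to the order. -/
private theorem gone_coprime {G : Type*} [Group G] {τ : G} {n : ℕ} (hn : 0 < n)
    (hτ : orderOf τ = n) {k : ℕ} (hk : orderOf (τ ^ k) = n) : k.Coprime n := by
  have hτ0 : IsOfFinOrder τ := by
    rw [← orderOf_pos_iff, hτ]
    exact hn
  rw [hτ0.orderOf_pow, hτ] at hk
  have h1 : n.gcd k ∣ n := Nat.gcd_dvd_left _ _
  have h2 : 0 < n.gcd k := Nat.gcd_pos_of_pos_left _ hn
  have h3 : n = n.gcd k * (n / n.gcd k) := (Nat.mul_div_cancel' h1).symm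
  rw [hk] at h3
  have h4 : n.gcd k = 1 := Nat.eq_of_mul_eq_mul_right hn (by rw [one_mul]; exact h3.symm)
  rw [Nat.Coprime, Nat.gcd_comm]
  exact h4

/-- **OE**. There is a place with a Frobenius element generating the cyclic group of `τ`, at which
`χ` and its conjugate under `c` agree. -/
theorem one_eig {F L N : Type} [Field F] [NumberField F] [Field L] [NumberField L] [Field N]
    [NumberField N] [Algebra F L] [Algebra F N] [Algebra L N] [IsScalarTower F L N]
    [IsGalois F N] {κ : Type} [Field κ] {p m q : ℕ} [CharP κ p] (hp : p.Prime)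
    (hq : q.Prime) (hm : 0 < m) (τ c : Gal(N/F))
    (hτL : ∀ x : L, τ (algebraMap L N x) = algebraMap L N x) (hτ : orderOf τ = p * m)
    (hpm : p.Coprime m) {ζ : N} (hζ : IsPrimitiveRoot ζ q)
    (hτζ : ∀ i : ℕ, (τ ^ i) ζ = ζ ↔ m ∣ i) (j : ℕ) (hc : c * τ * c⁻¹ = τ ^ j)
    {S : Set (Pl L)} (hS : S.Finite) (χ : Pl L → κ)
    (hχ : IsRay S χ) {T : Set (Pl F)} (hT : T.Finite)
    (H : ∀ (P : Pl N) (v : Pl F) (i : ℕ), v ∉ T → FrobAt v P (τ ^ i) → m ∣ i → ¬ p ∣ i →
      χ (below L P) = 1) :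
    ∃ (P : Pl N) (v : Pl F) (i : ℕ), v ∉ T ∧ UnramAt N v ∧ i.Coprime (p * m) ∧
      FrobAt v P (τ ^ i) ∧ χ (below L P) = χ (below L (actP c P)) := by
  classical
  have hGal : IsGalois L N := IsGalois.tower_top_of_isGalois F L N
  have hpm0 : 0 < p * m := Nat.mul_pos hp.pos hm
  -- the places of `L` over `T`
  have hTL : {w : Pl L | below F w ∈ T}.Finite := by
    refine (hT.biUnion fun v _ => GalFin2Aux.finite_above (K := L) v).subset fun w hw => ?_
    exact Set.mem_biUnion hw (lies_below w)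
  obtain ⟨T', hT', hkey⟩ := key (L := L) (N := N) hp hq hm (gone_lift τ hτL)
    ((gone_order τ hτL).trans hτ) hpm hζ (fun i => by rw [gone_pow]; exact hτζ i) hS χ hχ hTL
    (by
      intro w hw hwp P i hP hmi hpi
      have h1 : below L P = w := lies_iff.1 hP.1
      subst h1
      have h2 : Nm (below L P) = Nm (below F P) := by
        have h3 := GalFin2Aux.absNorm_eq_of_prime (lies_below (F := F) (below L P)) hwp
        rw [below_below] at h3
        exact h3
      refine H P (below F P) i ?_ ((gone_frob_iff τ hτL i (lies_below P) h2).1 hP) hmi hpi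
      intro h4
      apply hw
      change below F (below L P) ∈ T
      rw [below_below]
      exact h4)
  -- the finite set of places which one avoids
  set T'' : Set (Pl F) := T ∪ {v | ¬ UnramAt N v} ∪ (below F) '' T' with hT''def
  have hT'' : T''.Finite := (hT.union (unram_cofinite F N)).union (hT'.image _)
  -- the conjugates of the generators
  let A : Set Gal(N/F) := {g | ∃ (i : ℕ) (x : Gal(N/F)), i.Coprime (p * m) ∧ g = x * τ ^ i * x⁻¹}
  have hA : ∀ g ∈ A, ∀ g' : Gal(N/F), Subgroup.zpowers g' = Subgroup.zpowers g → g' ∈ A := by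
    rintro g ⟨i, x, hi, rfl⟩ g' hg'
    have h1 : g' ∈ Subgroup.zpowers (x * τ ^ i * x⁻¹) := by
      rw [← hg']
      exact Subgroup.mem_zpowers g'
    rw [← mem_powers_iff_mem_zpowers] at h1
    obtain ⟨k, hk⟩ := h1
    have hk' : g' = x * τ ^ (i * k) * x⁻¹ := by
      rw [← hk]
      change (x * τ ^ i * x⁻¹) ^ k = _
      rw [conj_pow, pow_mul]
    refine ⟨i * k, x, ?_, hk'⟩
    apply gone_coprime hpm0 hτ
    have h2 : orderOf g' = orderOf (x * τ ^ i * x⁻¹) := by
      rw [← Nat.card_zpowers, ← Nat.card_zpowers, hg']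
    have h3 : ∀ y : Gal(N/F), orderOf (x * y * x⁻¹) = orderOf y := fun y =>
      orderOf_injective (MulAut.conj x).toMonoidHom (MulAut.conj x).injective y
    rw [hk', h3, h3] at h2
    rw [h2, (isOfFinOrder_of_finite τ).orderOf_pow, hτ, Nat.gcd_comm, hi, Nat.div_one]
  have hA' : ∀ g ∈ A, ∀ x : Gal(N/F), x * g * x⁻¹ ∈ A := by
    rintro g ⟨i, y, hi, rfl⟩ x
    exact ⟨i, x * y, hi, by group⟩
  have hden := frob_density_fin (L := N) T'' hT'' (fun v hv => by
    by_contra h
    exact hv (Or.inl (Or.inr h))) A hA hA'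
  have hpos : (0 : ℝ) < (Nat.card A : ℝ) / Nat.card Gal(N/F) := by
    have h1 : Nonempty A := ⟨⟨τ, 1, 1, Nat.coprime_one_left _, by simp⟩⟩
    have h2 : 0 < Nat.card A := Nat.card_pos
    have h3 : 0 < Nat.card Gal(N/F) := Nat.card_pos
    positivity
  obtain ⟨v, ⟨hv, P', σ, ⟨i, x, hi, rfl⟩, hfr⟩, -⟩ := exists_of_hasDen hpos hden Set.finite_empty
  have hP : FrobAt v (actP x⁻¹ P') (τ ^ i) := by
    have h1 := frob_conj hfr x⁻¹
    have h2 : x⁻¹ * (x * τ ^ i * x⁻¹) * x⁻¹⁻¹ = τ ^ i := by group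
    rwa [h2] at h1
  set P : Pl N := actP x⁻¹ P' with hPdef
  have hP2 : FrobAt v (actP c P) (τ ^ (j * i)) := by
    have h1 := frob_conj hP c
    rwa [← conj_pow, hc, ← pow_mul] at h1
  have hN1 : Nm (below L P) = Nm v := absNorm_eq_of_frob hP (gone_pow_fix τ hτL i)
  have hN2 : Nm (below L (actP c P)) = Nm v :=
    absNorm_eq_of_frob hP2 (gone_pow_fix τ hτL (j * i))
  have hbelow : ∀ Q : Pl N, Lies Q v → below L Q ∉ T' := by
    intro Q hQ h
    apply hv
    refine Or.inr ⟨below L Q, h, ?_⟩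
    rw [below_below]
    exact lies_iff.1 hQ
  refine ⟨P, v, i, fun h => hv (Or.inl (Or.inl h)), ?_, hi, hP, ?_⟩
  · by_contra h
    exact hv (Or.inl (Or.inr h))
  · exact hkey (below L P) (below L (actP c P)) (hbelow P hP.1) (hbelow _ hP2.1) P (actP c P) i
      (j * i) ((gone_frob_iff τ hτL i hP.1 hN1).2 hP)
      ((gone_frob_iff τ hτL (j * i) hP2.1 hN2).2 hP2) (hN1.trans hN2.symm)

end Pool.Agent.CGQ
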