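import Pool.Agent.CGQ.GalHyp
import Pool.Agent.CGQ.GalTau
import Pool.Agent.CGQ.GalOne
import Pool.Agent.CGQ.GalLift
import Pool.Agent.CGQ.GalGS

/-!
# The core: elements of order prime to p which are trivial on Z act as scalars
-/

noncomputable section

set_option linter.unusedSectionVars false

namespace Pool.Agent.CGQ

open NumberField IsDedekindDomain Matrix Pool.Agent.CG2 Pool.Agent.CG2.GalFinAux
  Pool.Agent.CG2.GalInfAux

variable {F : Type} [Field F] [NumberField F] {L : Type} [Field L] [NumberField L] [Algebra F L]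
  {κ : Type} [Field κ] [Algebra L (Fbar F)] [IsScalarTower F L (Fbar F)]

/-- **CO**. Elements of `HZ` of order prime to `p` under `ρ` act as scalars.

PROOF. Take `q, ζ, τ, c', j` from `exists_tau` (`G = GL (Fin 2) κ`), `T'` from `hyp_apply`. Let
`H = ρ.ker ⊓ HZ n u e ⊓ HMu F q`, open and normal, `N` its fixed field (`fixedField_open`): a number
field, Galois over `F`, `restrictNormalHom N g = 1` iff `g ∈ H`. `L` maps to `N` (its elements are fixed
by `H`): make `N` an `L`-algebra, compatible with the maps to `Fbar F`. `ζ ∈ N`, and for the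
elements `x = τ ^ (p m)`, `c' τ c'⁻¹ τ^(-j)`: `x ∈ H` because `x ζ = ζ` implies that `x` is trivial on all
`q`-th roots of unity. Put `τN = restrictNormalHom N τ`, `cN = restrictNormalHom N c'`: `orderOf τN = p m`
(`τN ^ (p m) = 1`; if `τN ^ i = 1` then `τ ^ i ∈ H` fixes `ζ` and `θ`, so `m ∣ i`, `p ∣ i`),
`cN τN cN⁻¹ = τN ^ j`. Apply `one_eig` with `T := T' ∪ {v | ¬ UnramAt N v}`. Its hypothesis `H`: let
`FrobAt v P (τN ^ i)`, `m ∣ i`, `¬ p ∣ i`. `lift_frob` gives `Q` and `g'` with `IsFrob v Q g'` and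
`g' = τ ^ i h`, `h ∈ H`. `g'` is trivial on `L`, `TrivMu`, fixes `α`, moves `θ`, and `ρ g' = ρ s ^ i = 1`.
`w = below L P` satisfies `Q.comap (inc F L) = w.asIdeal`. `hyp_apply`: `2 = χ w + χ (cL w)`,
`1 = χ w * χ (cL w)`, so `(χ w - 1) ^ 2 = 0`, `χ w = 1`.
Conclusion of `one_eig`: `P, v, i`, `i` prime to `p m`, `χ (below L P) = χ (below L (actP cN P))`, and
`below L (actP cN P) = actP cL (below L P)` (`c'` acts on `L` as `cL`). As before, for the lift
`g' = τ ^ i h` of the Frobenius element: `trace (ρ g') = 2 b`, `det (ρ g') = b ^ 2`, `b = χ w`, and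
`ρ g' = ρ s ^ i`. `isScal_of_one_eig`: `ρ s ^ i` is scalar; `ρ s ^ m = 1` is scalar and `i` is prime to
`m`: `ρ s` is scalar (`scalSub`). -/
theorem core_scalar {p m M : ℕ} (hp : p.Prime) [CharP κ p] (hpm : p.Coprime m)
    (hL : Module.finrank F L = 2) {cL : Gal(L/F)} (hcL : cL ≠ 1)
    {ρ : GalF F →* GL (Fin 2) κ} (hρ : IsOpen (ρ.ker : Set (GalF F))) {u e : (𝓞 L)ˣ}
    (hu : cL ((u : 𝓞 L) : L) * ((u : 𝓞 L) : L) = 1)
    (he : cL ((e : 𝓞 L) : L) * ((e : 𝓞 L) : L) = 1) {S : Set (Pl L)} (hS : S.Finite)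
    {χ : Pl L → κ} (hχ : IsRay S χ) {T : Set (Pl F)} (hT : T.Finite)
    (hH : HypH p ρ cL u e χ T) {α θ : Fbar F}
    (hα : α ^ (p ^ M) = algebraMap L (Fbar F) ((u : 𝓞 L) : L))
    (hθ : θ ^ (p ^ M) = algebraMap L (Fbar F) ((e : 𝓞 L) : L)) {σ₀ c : GalF F} (hσ₀ : ρ σ₀ = 1)
    (hσL : TrivL L σ₀) (hσμ : TrivMu (p ^ M) σ₀) (hσα : σ₀ α = α) (hσθ : σ₀ θ ≠ θ)
    (hσp : (σ₀ ^ p) θ = θ) (hc : ρ c = 1) (hcμ : TrivMu (p ^ M) c) (hcL' : ActsL cL c)
    {s : GalF F} (hs : s ∈ HZ (F := F) (p ^ M) ((u : 𝓞 L) : L) ((e : 𝓞 L) : L))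
    (hsm : ρ s ^ m = 1) : IsScal (ρ s) := by
  classical
  have hm : 0 < m := by
    rcases Nat.eq_zero_or_pos m with rfl | h
    · exact absurd ((Nat.coprime_zero_right p).1 hpm) hp.ne_one
    · exact h
  obtain ⟨T', hT'f, -, hyp⟩ := hyp_apply hp hL hcL hT hH
  obtain ⟨q, ζ, τ, c', j, hq, hζ, hτs, hτL, hτμ, hτα, hτζ, hτθ, h1, h2, h3, hc'L, h4, h5, h6⟩ :=
    exists_tau hp hm hpm hL hcL ρ hρ hu he hα hθ hσ₀ hσL hσμ hσα hσθ hσp hc hcμ hcL' hs hsm
  have hn : 0 < p ^ M := pow_pos hp.pos _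
  have hq0 : NeZero q := ⟨hq.ne_zero⟩
  have hZn : (HZ (F := F) (p ^ M) ((u : 𝓞 L) : L) ((e : 𝓞 L) : L)).Normal :=
    HZ_normal hL hcL hu he
  have hZo := HZ_open (F := F) hn ((u : 𝓞 L) : L) ((e : 𝓞 L) : L)
  have hMn : (HMu F q).Normal := by
    refine ⟨fun g hg x z hz => ?_⟩
    have hz' : (x⁻¹ z) ^ q = 1 := by rw [← map_pow, hz, map_one]
    change x (g (x⁻¹ z)) = z
    rw [hg _ hz']
    exact x.apply_symm_apply z
  have hMo := HMu_open (F := F) hq.pos
  set H : Subgroup (GalF F) := ρ.ker ⊓ HZ (F := F) (p ^ M) ((u : 𝓞 L) : L) ((e : 𝓞 L) : L) ⊓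
    HMu F q with hHdef
  have hHn : H.Normal := by
    have : (ρ.ker ⊓ HZ (F := F) (p ^ M) ((u : 𝓞 L) : L) ((e : 𝓞 L) : L)).Normal :=
      Subgroup.normal_inf_normal _ _
    exact Subgroup.normal_inf_normal _ _
  have hHo : IsOpen (H : Set (GalF F)) := (hρ.inter hZo).inter hMo
  obtain ⟨hfd, hgal, hfix, hmem⟩ := fixedField_open H hHo
  set N : IntermediateField F (Fbar F) := IntermediateField.fixedField H with hN
  have hNF : NumberField N :=
    { to_charZero := inferInstance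
      to_finiteDimensional := FiniteDimensional.trans ℚ F N }
  have hnor : Normal F N := inferInstance
  have hHker : ∀ g : GalF F, AlgEquiv.restrictNormalHom N g = 1 ↔ g ∈ H := by
    intro g
    rw [ker_restrict, hfix]
  have hHmem : ∀ g : GalF F, ρ g = 1 → g ∈ HZ (F := F) (p ^ M) ((u : 𝓞 L) : L) ((e : 𝓞 L) : L) →
      g ζ = ζ → g ∈ H := by
    intro g hg1 hg2 hg3
    refine ⟨⟨hg1, hg2⟩, fun z hz => ?_⟩
    obtain ⟨k, -, rfl⟩ := hζ.eq_pow_of_pow_eq_one hz
    rw [map_pow, hg3]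
  have hHL : ∀ g ∈ H, TrivL L g := fun g hg => (mem_HZ.1 hg.1.2).1
  -- the algebra structure
  have hLN : ∀ x : L, algebraMap L (Fbar F) x ∈ N := by
    intro x
    rw [hN, IntermediateField.mem_fixedField_iff]
    intro g hg
    exact hHL g hg x
  let iL : L →+* N :=
    { toFun := fun x => ⟨algebraMap L (Fbar F) x, hLN x⟩
      map_one' := Subtype.ext (map_one _)
      map_mul' := fun x y => Subtype.ext (map_mul _ _ _)
      map_zero' := Subtype.ext (map_zero _)
      map_add' := fun x y => Subtype.ext (map_add _ _ _) }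
  let _ : Algebra L N := iL.toAlgebra
  have hiL : ∀ x : L, ((algebraMap L N x : N) : Fbar F) = algebraMap L (Fbar F) x := fun x => rfl
  have hST : IsScalarTower F L N := IsScalarTower.of_algebraMap_eq fun x => by
    apply Subtype.ext
    rw [hiL]
    exact IsScalarTower.algebraMap_apply F L (Fbar F) x
  have hcoe : ∀ (g : GalF F) (x : N), ((AlgEquiv.restrictNormalHom N g x : N) : Fbar F) =
      g (x : Fbar F) := fun g x => AlgEquiv.restrictNormal_commutes g N x
  -- tau and zeta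
  have hpow : ∀ i : ℕ, (AlgEquiv.restrictNormalHom N τ) ^ i =
      AlgEquiv.restrictNormalHom N (τ ^ i) := fun i => (map_pow _ _ _).symm
  have hord : orderOf (AlgEquiv.restrictNormalHom N τ) = p * m := by
    apply Nat.dvd_antisymm
    · rw [orderOf_dvd_iff_pow_eq_one, hpow, hHker]
      exact hHmem _ h1 h2 h3
    · have h7 : (AlgEquiv.restrictNormalHom N τ) ^ orderOf (AlgEquiv.restrictNormalHom N τ) = 1 :=
        pow_orderOf_eq_one _
      rw [hpow, hHker] at h7
      refine Nat.Coprime.mul_dvd_of_dvd_of_dvd hpm ?_ ?_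
      · rw [← hτθ]
        exact (mem_HZ.1 h7.1.2).2.2.2 θ hθ
      · rw [← hτζ]
        exact h7.2 ζ hζ.pow_eq_one
  have hζN : ζ ∈ N := by
    rw [hN, IntermediateField.mem_fixedField_iff]
    intro g hg
    exact hg.2 ζ hζ.pow_eq_one
  have hζ' : IsPrimitiveRoot (⟨ζ, hζN⟩ : N) q :=
    IsPrimitiveRoot.of_map_of_injective (f := algebraMap N (Fbar F)) (by exact hζ)
      (algebraMap N (Fbar F)).injective
  have hτζ' : ∀ i : ℕ, ((AlgEquiv.restrictNormalHom N τ) ^ i) (⟨ζ, hζN⟩ : N) = ⟨ζ, hζN⟩ ↔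
      m ∣ i := by
    intro i
    rw [hpow, ← hτζ, Subtype.ext_iff, hcoe]
  have hτL' : ∀ x : L, (AlgEquiv.restrictNormalHom N τ) (algebraMap L N x) = algebraMap L N x := by
    intro x
    apply Subtype.ext
    rw [hcoe, hiL]
    exact hτL x
  have hconj : AlgEquiv.restrictNormalHom N c' * AlgEquiv.restrictNormalHom N τ *
      (AlgEquiv.restrictNormalHom N c')⁻¹ = (AlgEquiv.restrictNormalHom N τ) ^ j := by
    have h7 := (hHker _).2 (hHmem _ h4 h5 h6)
    rw [map_mul, map_mul, map_mul, map_inv, map_inv, ← hpow] at h7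
    exact mul_inv_eq_one.1 h7
  -- the places
  have hcomap : ∀ (P : Pl N) (Q : Ideal (Zbar F)), Q.comap (inc F N) = P.asIdeal →
      Q.comap (inc F L) = (below L P).asIdeal := by
    intro P Q hQ
    change _ = P.asIdeal.comap (algebraMap (𝓞 L) (𝓞 N))
    rw [← hQ, Ideal.comap_comap]
    rfl
  have hlift : ∀ (P : Pl N) (v : Pl F) (i : ℕ), v ∉ T' → UnramAt N v →
      FrobAt v P ((AlgEquiv.restrictNormalHom N τ) ^ i) → ¬ p ∣ i →
      ((ρ s ^ i : GL (Fin 2) κ) : Matrix (Fin 2) (Fin 2) κ).trace =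
        χ (below L P) + χ (actP cL (below L P)) ∧
      ((ρ s ^ i : GL (Fin 2) κ) : Matrix (Fin 2) (Fin 2) κ).det =
        χ (below L P) * χ (actP cL (below L P)) := by
    intro P v i hv hun hF hpi
    rw [hpow] at hF
    obtain ⟨Q, hQ, hQP, g, hg, hgr⟩ := lift_frob N hun hF
    have hgH : (τ ^ i)⁻¹ * g ∈ H := by
      rw [← hHker, map_mul, map_inv, hgr, inv_mul_cancel]
    have hgeq : g = τ ^ i * ((τ ^ i)⁻¹ * g) := by rw [mul_inv_cancel_left]
    set h := (τ ^ i)⁻¹ * g with hh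
    have hτi : TrivL L (τ ^ i) ∧ TrivMu (p ^ M) (τ ^ i) := by
      have : τ ∈ HOne (F := F) L (p ^ M) := ⟨hτL, hτμ⟩
      exact (HOne (F := F) L (p ^ M)).pow_mem this i
    have hτiα : (τ ^ i) α = α := by
      have : ∀ k : ℕ, (τ ^ k) α = α := by
        intro k
        induction k with
        | zero => rfl
        | succ k ih =>
          rw [pow_succ]
          change (τ ^ k) (τ α) = α
          rw [hτα, ih]
      exact this i
    have hhZ := mem_HZ.1 hgH.1.2
    have e1 : TrivL L g := by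
      intro x
      rw [hgeq]
      change (τ ^ i) (h _) = _
      rw [hhZ.1 x, hτi.1 x]
    have e2 : TrivMu (p ^ M) g := by
      intro z hz
      rw [hgeq]
      change (τ ^ i) (h _) = _
      rw [hhZ.2.1 z hz, hτi.2 z hz]
    have e3 : g α = α := by
      rw [hgeq]
      change (τ ^ i) (h _) = _
      rw [hhZ.2.2.1 α hα, hτiα]
    have e4 : g θ ≠ θ := by
      rw [hgeq]
      change (τ ^ i) (h _) ≠ _
      rw [hhZ.2.2.2 θ hθ, Ne, hτθ]
      exact hpi
    have e5 : ρ g = ρ s ^ i := by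
      rw [hgeq, map_mul, map_pow, hτs, (MonoidHom.mem_ker.1 hgH.1.1), mul_one]
    have := hyp M α θ hα hθ v hv Q hQ g hg e1 e2 e3 e4 (below L P) (hcomap P Q hQP)
    rw [e5] at this
    exact this
  obtain ⟨P, v, i, hv, hun, hi, hF, heq⟩ := one_eig (L := L) (κ := κ) hp hq hm
    (AlgEquiv.restrictNormalHom N τ) (AlgEquiv.restrictNormalHom N c') hτL' hord hpm hζ' hτζ' j
    hconj hS χ hχ (T := T' ∪ {v | ¬ UnramAt N v}) (hT'f.union (unram_cofinite F N)) (by
      intro P v i hv hF hmi hpi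
      have hv1 : v ∉ T' := fun h => hv (Or.inl h)
      have hv2 : UnramAt N v := by
        by_contra h
        exact hv (Or.inr h)
      obtain ⟨a1, a2⟩ := hlift P v i hv1 hv2 hF hpi
      obtain ⟨k, rfl⟩ := hmi
      rw [pow_mul, hsm, one_pow, Units.val_one, Matrix.trace_one, Fintype.card_fin] at a1
      rw [pow_mul, hsm, one_pow, Units.val_one, Matrix.det_one] at a2
      have a3 : (χ (below L P) - 1) ^ 2 = 0 := by
        push_cast at a1
        linear_combination χ (below L P) * (-a1) + a2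
      have a4 := pow_eq_zero_iff (two_ne_zero) |>.1 a3
      exact sub_eq_zero.1 a4)
  have hip : i.Coprime p := Nat.Coprime.coprime_mul_right_right hi
  have him : i.Coprime m := Nat.Coprime.coprime_mul_left_right hi
  have hpi : ¬ p ∣ i := by
    intro h
    have := Nat.dvd_gcd h (dvd_refl p)
    rw [hip] at this
    exact hp.one_lt.ne' (Nat.dvd_one.1 this)
  have hact : below L (actP (AlgEquiv.restrictNormalHom N c') P) = actP cL (below L P) := by
    apply HeightOneSpectrum.ext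
    ext x
    change algebraMap (𝓞 L) (𝓞 N) x ∈ (actP (AlgEquiv.restrictNormalHom N c') P).asIdeal ↔ _
    rw [mem_actP, mem_actP]
    change _ ↔ algebraMap (𝓞 L) (𝓞 N) (cL⁻¹ • x) ∈ P.asIdeal
    have : (AlgEquiv.restrictNormalHom N c')⁻¹ • algebraMap (𝓞 L) (𝓞 N) x =
        algebraMap (𝓞 L) (𝓞 N) (cL⁻¹ • x) := by
      rw [inv_smul_eq_iff]
      apply RingOfIntegers.ext
      apply Subtype.ext
      have b1 : (cL (((cL⁻¹ • x : 𝓞 L)) : L)) = (x : L) := by
        change cL (cL⁻¹ (x : L)) = _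
        exact cL.apply_symm_apply _
      have b2 := hc'L (((cL⁻¹ • x : 𝓞 L)) : L)
      rw [b1] at b2
      exact ((hcoe c' _).trans b2).symm
    rw [this]
  have hv1 : v ∉ T' := fun h => hv (Or.inl h)
  obtain ⟨a1, a2⟩ := hlift P v i hv1 hun hF hpi
  rw [← hact, ← heq] at a1 a2
  have hsi : IsScal (ρ s ^ i) := by
    refine isScal_of_one_eig hp hpm (ρ s ^ i) ?_ (χ (below L P)) ?_ ?_
    · rw [← pow_mul, mul_comm, pow_mul, hsm, one_pow]
    · rw [a1]
      ring
    · rw [a2]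
      ring
  have hsm' : ρ s ^ m ∈ scalSub κ := by
    rw [hsm]
    exact one_mem _
  have hsi' : ρ s ^ i ∈ scalSub κ := hsi
  have hbez : (1 : ℤ) = i * Nat.gcdA i m + m * Nat.gcdB i m := by
    have := Nat.gcd_eq_gcd_ab i m
    rw [him] at this
    exact_mod_cast this
  have hfin : ρ s = (ρ s ^ i) ^ (Nat.gcdA i m) * (ρ s ^ m) ^ (Nat.gcdB i m) := by
    rw [← _root_.zpow_natCast, ← _root_.zpow_natCast, ← _root_.zpow_mul, ← _root_.zpow_mul,
      ← _root_.zpow_add, ← hbez, _root_.zpow_one]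
  rw [← mem_scalSub, hfin]
  exact mul_mem (zpow_mem hsi' _) (zpow_mem hsm' _)

end Pool.Agent.CGQ
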