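import Mathlib

/-!
# Scalar matrices and common eigenvectors
-/

noncomputable section

set_option linter.unusedSectionVars false

namespace Pool.Agent.CGQ

open Matrix

variable {κ : Type} [Field κ] {G : Type} [Group G]

/-- The matrix `A` is scalar. -/
def IsScal (A : GL (Fin 2) κ) : Prop := ∃ b : κ, (A : Matrix (Fin 2) (Fin 2) κ) = Matrix.scalar (Fin 2) b

/-- There is a common eigenvector of all `ρ g`. -/
def HasLine (ρ : G →* GL (Fin 2) κ) : Prop :=
  ∃ x : Fin 2 → κ, x ≠ 0 ∧ ∀ g : G, ∃ b : κ,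
    (ρ g : Matrix (Fin 2) (Fin 2) κ).mulVec x = b • x

/-- Scalar matrices form a subgroup. -/
def scalSub (κ : Type) [Field κ] : Subgroup (GL (Fin 2) κ) where
  carrier := {A | IsScal A}
  one_mem' := ⟨1, by simp⟩
  mul_mem' := by
    rintro A B ⟨a, ha⟩ ⟨b, hb⟩
    exact ⟨a * b, by rw [GeneralLinearGroup.coe_mul, ha, hb, map_mul]⟩
  inv_mem' := by
    rintro A ⟨a, ha⟩
    have ha0 : a ≠ 0 := by
      rintro rfl
      have h1 := A.isUnit.ne_zero
      rw [ha, map_zero] at h1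
      exact h1 rfl
    refine ⟨a⁻¹, ?_⟩
    rw [GeneralLinearGroup.coe_inv, ha]
    apply Matrix.inv_eq_left_inv
    rw [← map_mul, inv_mul_cancel₀ ha0, map_one]

theorem mem_scalSub (A : GL (Fin 2) κ) : A ∈ scalSub κ ↔ IsScal A := Iff.rfl

end Pool.Agent.CGQ
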