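import Pool.Agent.CG2.GalMain
import Pool.Agent.CG2.GalInf
import Pool.Agent.CGQ.GalDefG

/-!
# Definitions for the Galois side of the unit trick
-/

noncomputable section

set_option linter.unusedSectionVars false

namespace Pool.Agent.CGQ

open NumberField IsDedekindDomain Matrix Pool.Agent.CG2 Pool.Agent.CG2.GalFinAux
  Pool.Agent.CG2.GalInfAux

section Ray

variable {K : Type} [Field K] [NumberField K]

/-- The function `ψ` on the finite places of `K` with values in the commutative group `V` is a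
ray class function outside `S`. -/
def RayFn {V : Type} [CommGroup V] (S : Set (Pl K)) (ψ : Pl K → V) : Prop :=
  ∃ m₀ : Ideal (𝓞 K), m₀ ≠ ⊥ ∧ (∀ v ∈ S, m₀ ≤ v.asIdeal) ∧
    ∀ a : 𝓞 K, a ≠ 0 → a - 1 ∈ m₀ → TotPos a → GalChar.ex ψ (Ideal.span {a}) = 1

/-- The residue degree of the place `u` of `K` over `L`. -/
def rdeg (L : Type) [Field L] [NumberField L] [Algebra L K] (u : Pl K) : ℕ :=
  u.asIdeal.inertiaDeg (𝓞 L)

/-- The composite of a function on the places of `L` with the norm of ideals from `K` to `L`. -/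
def cn (L : Type) [Field L] [NumberField L] [Algebra L K] {V : Type} [CommGroup V]
    (χ : Pl L → V) (u : Pl K) : V := χ (below L u) ^ rdeg L u

/-- The absolute norm modulo the prime number `q`. -/
def nq (q : ℕ) [Fact q.Prime] (u : Pl K) : (ZMod q)ˣ :=
  if h : ((Nm u : ℕ) : ZMod q) = 0 then 1 else Units.mk0 _ h

end Ray

section Sub

variable {F : Type} [Field F] [NumberField F]

/-- `g` is trivial on the `n`-th roots of unity. -/
def TrivMu (n : ℕ) (g : GalF F) : Prop := ∀ z : Fbar F, z ^ n = 1 → g z = z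

/-- The subgroup of all elements which are trivial on the `n`-th roots of unity. -/
def HMu (F : Type) [Field F] [NumberField F] (n : ℕ) : Subgroup (GalF F) where
  carrier := {g | TrivMu n g}
  one_mem' := fun z _ => rfl
  mul_mem' := by
    intro a b ha hb z hz
    change a (b z) = z
    rw [hb z hz, ha z hz]
  inv_mem' := by
    intro a ha z hz
    change a.symm z = z
    rw [AlgEquiv.symm_apply_eq, ha z hz]

theorem mem_HMu {n : ℕ} {g : GalF F} : g ∈ HMu F n ↔ ∀ z : Fbar F, z ^ n = 1 → g z = z := Iff.rfl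

section L

variable (L : Type) [Field L] [NumberField L] [Algebra F L] [Algebra L (Fbar F)]
  [IsScalarTower F L (Fbar F)]

/-- `g` is trivial on `L`. -/
def TrivL (g : GalF F) : Prop :=
  ∀ x : L, g (algebraMap L (Fbar F) x) = algebraMap L (Fbar F) x

variable {L} in
/-- `g` is trivial on the `n`-th roots of `t`. -/
def TrivRoot (n : ℕ) (t : L) (g : GalF F) : Prop :=
  ∀ x : Fbar F, x ^ n = algebraMap L (Fbar F) t → g x = x

/-- The elements trivial on `L` and on the `n`-th roots of unity. -/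
def HOne (n : ℕ) : Subgroup (GalF F) where
  carrier := {g | TrivL L g ∧ TrivMu n g}
  one_mem' := ⟨fun _ => rfl, fun z _ => rfl⟩
  mul_mem' := by
    rintro a b ⟨ha, ha'⟩ ⟨hb, hb'⟩
    refine ⟨fun x => ?_, fun z hz => ?_⟩
    · change a (b _) = _
      rw [hb x, ha x]
    · change a (b z) = z
      rw [hb' z hz, ha' z hz]
  inv_mem' := by
    rintro a ⟨ha, ha'⟩
    refine ⟨fun x => ?_, fun z hz => ?_⟩
    · change a.symm _ = _
      rw [AlgEquiv.symm_apply_eq, ha x]
    · change a.symm z = z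
      rw [AlgEquiv.symm_apply_eq, ha' z hz]

theorem mem_HOne {n : ℕ} {g : GalF F} : g ∈ HOne (F := F) L n ↔ TrivL L g ∧ TrivMu n g := Iff.rfl

variable {L} in
/-- The elements trivial on `L`, on the `n`-th roots of unity and on the `n`-th roots of `u`
and `e`: the Galois group of `Z`. -/
def HZ (n : ℕ) (u e : L) : Subgroup (GalF F) where
  carrier := {g | TrivL L g ∧ TrivMu n g ∧ TrivRoot n u g ∧ TrivRoot n e g}
  one_mem' := ⟨fun _ => rfl, fun z _ => rfl, fun z _ => rfl, fun z _ => rfl⟩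
  mul_mem' := by
    rintro a b ⟨ha, ha', ha2, ha3⟩ ⟨hb, hb', hb2, hb3⟩
    refine ⟨fun x => ?_, fun z hz => ?_, fun z hz => ?_, fun z hz => ?_⟩
    · change a (b _) = _
      rw [hb x, ha x]
    · change a (b z) = z
      rw [hb' z hz, ha' z hz]
    · change a (b z) = z
      rw [hb2 z hz, ha2 z hz]
    · change a (b z) = z
      rw [hb3 z hz, ha3 z hz]
  inv_mem' := by
    rintro a ⟨ha, ha', ha2, ha3⟩
    refine ⟨fun x => ?_, fun z hz => ?_, fun z hz => ?_, fun z hz => ?_⟩
    · change a.symm _ = _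
      rw [AlgEquiv.symm_apply_eq, ha x]
    · change a.symm z = z
      rw [AlgEquiv.symm_apply_eq, ha' z hz]
    · change a.symm z = z
      rw [AlgEquiv.symm_apply_eq, ha2 z hz]
    · change a.symm z = z
      rw [AlgEquiv.symm_apply_eq, ha3 z hz]

variable {L} in
theorem mem_HZ {n : ℕ} {u e : L} {g : GalF F} : g ∈ HZ n u e ↔
    TrivL L g ∧ TrivMu n g ∧ TrivRoot n u g ∧ TrivRoot n e g := Iff.rfl

end L

variable {L : Type} [Field L] [NumberField L] [Algebra F L] [Algebra L (Fbar F)]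
  [IsScalarTower F L (Fbar F)]

/-- `g` acts on `L` as `cL`. -/
def ActsL (cL : Gal(L/F)) (g : GalF F) : Prop :=
  ∀ x : L, g (algebraMap L (Fbar F) x) = algebraMap L (Fbar F) (cL x)

end Sub

section Hyp

variable {F : Type} [Field F] [NumberField F] {L : Type} [Field L] [NumberField L] [Algebra F L]
  {κ : Type} [Field κ]

/-- The hypothesis on the Frobenius elements (produced by the unit trick): `χ` is a function on
the places of the quadratic extension `L` of `F`, `cL` the non trivial automorphism. At the places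
`w` of `L` which are not fixed by `cL`, not above `T`, with `Nm v ≡ 1` modulo `p ^ M` (`v = w|F`), at
which `u` is a `p ^ M`-th power and `e` is not, the Frobenius elements have the eigenvalues `χ w` and
`χ (cL w)`. -/
def HypH (p : ℕ) (ρ : GalF F →* GL (Fin 2) κ) (cL : Gal(L/F)) (u e : (𝓞 L)ˣ) (χ : Pl L → κ)
    (T : Set (Pl F)) : Prop :=
  ∀ w : Pl L, below F w ∉ T → actP cL w ≠ w → ∀ M : ℕ, p ^ M ∣ Nm (below F w) - 1 →
    (∃ y : 𝓞 L, (u : 𝓞 L) - y ^ (p ^ M) ∈ w.asIdeal) →
    (¬ ∃ y : 𝓞 L, (e : 𝓞 L) - y ^ (p ^ M) ∈ w.asIdeal) →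
    ∀ Q : Ideal (Zbar F), Over (below F w) Q → ∀ g : GalF F, IsFrob (below F w) Q g →
      (ρ g : Matrix (Fin 2) (Fin 2) κ).trace = χ w + χ (actP cL w) ∧
      (ρ g : Matrix (Fin 2) (Fin 2) κ).det = χ w * χ (actP cL w)

/-- `HypH` with a sign: arithmetic (`ε = 1`) or geometric (`ε = -1`) Frobenius elements. -/
def HypE (ε : ℤˣ) (p : ℕ) (ρ : GalF F →* GL (Fin 2) κ) (cL : Gal(L/F)) (u e : (𝓞 L)ˣ)
    (χ : Pl L → κ) (T : Set (Pl F)) : Prop :=
  ∀ w : Pl L, below F w ∉ T → actP cL w ≠ w → ∀ M : ℕ, p ^ M ∣ Nm (below F w) - 1 →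
    (∃ y : 𝓞 L, (u : 𝓞 L) - y ^ (p ^ M) ∈ w.asIdeal) →
    (¬ ∃ y : 𝓞 L, (e : 𝓞 L) - y ^ (p ^ M) ∈ w.asIdeal) →
    ∀ Q : Ideal (Zbar F), Over (below F w) Q → ∀ g : GalF F, IsFrob (below F w) Q g →
      (ρ (g ^ (ε : ℤ)) : Matrix (Fin 2) (Fin 2) κ).trace = χ w + χ (actP cL w) ∧
      (ρ (g ^ (ε : ℤ)) : Matrix (Fin 2) (Fin 2) κ).det = χ w * χ (actP cL w)

end Hyp

end Pool.Agent.CGQ
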