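import Pool.Agent.CGQ.GalDefs

/-!
# The commuting lemma
-/

noncomputable section

set_option linter.unusedSectionVars false

namespace Pool.Agent.CGQ

open NumberField IsDedekindDomain Pool.Agent.CG2 Pool.Agent.CG2.GalFinAux
  Pool.Agent.CG2.GalInfAux

variable {F : Type} [Field F] [NumberField F] {L : Type} [Field L] [NumberField L] [Algebra F L]
  [Algebra L (Fbar F)] [IsScalarTower F L (Fbar F)]

/-- **FL**. An element of `Fbar` fixed by all automorphisms over `L` lies in `L`.

PROOF. Infinite Galois theory: `Fbar F` is Galois over `L` (it is an algebraic closure of `L`, characteristic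
zero), `InfiniteGalois.fixedField_bot` or `IsGalois`: an element fixed by `Fbar ≃ₐ[L] Fbar` is in the
range of `algebraMap L`; an element of `Fbar ≃ₐ[L] Fbar` restricts to an element of `GalF F`. -/
theorem mem_of_fixed {x : Fbar F} (h : ∀ g : GalF F,
    (∀ y : L, g (algebraMap L (Fbar F) y) = algebraMap L (Fbar F) y) → g x = x) :
    x ∈ Set.range (algebraMap L (Fbar F)) := by
  have : IsGalois L (Fbar F) := IsGalois.tower_top_of_isGalois F L (Fbar F)
  rw [InfiniteGalois.mem_range_algebraMap_iff_fixed]
  intro f
  exact h (f.restrictScalars F) fun y => f.commutes y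

/-- **KD**. The commuting lemma: if `y` is fixed by all automorphisms which are trivial on `L` and
on the `n`-th roots of unity, and `y ^ n = t ∈ L`, and `g` acts on the `n`-th roots of unity by the
`a`-th power, then `t / t ^ a` is an `n`-th power in `L`.

PROOF. Put `y' = g y / y ^ a`. Then `y' ^ n = g t / t ^ a = t / t ^ a`. Let `s` be trivial on `L`:
`s y = z y` with `z ^ n = 1`. The commutator `s⁻¹ g⁻¹ s g` is trivial on `L` and on the `n`-th roots of
unity (on which every automorphism acts by a power, `IsPrimitiveRoot`), so it fixes `y` and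
`s (g y) = g (s y) = g (z y) = z ^ a * g y`; so `s y' = (z ^ a * g y) / (z y) ^ a = y'`. By
`mem_of_fixed` `y' ∈ L`. -/
theorem root_descent {n : ℕ} (hn : 0 < n) {y : Fbar F} {t : L} (ht : t ≠ 0)
    (hy : y ^ n = algebraMap L (Fbar F) t)
    (hfix : ∀ s : GalF F, (∀ x : L, s (algebraMap L (Fbar F) x) = algebraMap L (Fbar F) x) →
      (∀ z : Fbar F, z ^ n = 1 → s z = z) → s y = y)
    {g : GalF F} (hg : ∀ x : L, g (algebraMap L (Fbar F) x) = algebraMap L (Fbar F) x) {a : ℕ}
    (hga : ∀ z : Fbar F, z ^ n = 1 → g z = z ^ a) : ∃ y' : L, y' ^ n * t ^ a = t := by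
  have hinj : Function.Injective (algebraMap L (Fbar F)) := (algebraMap L (Fbar F)).injective
  have ht' : algebraMap L (Fbar F) t ≠ 0 := fun h0 => ht (hinj (by rw [h0, map_zero]))
  have hy0 : y ≠ 0 := by
    rintro rfl
    rw [zero_pow hn.ne'] at hy
    exact ht' hy.symm
  have hgy0 : g y ≠ 0 := fun h0 => hy0 (by
    have := g.injective (h0.trans (map_zero g).symm)
    exact this)
  have hmem : g y / y ^ a ∈ Set.range (algebraMap L (Fbar F)) := by
    apply mem_of_fixed
    intro s hs
    set z : Fbar F := s y / y with hz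
    have hsy : s y = z * y := by
      rw [hz, div_mul_cancel₀ _ hy0]
    have hzn : z ^ n = 1 := by
      rw [hz, div_pow, ← map_pow, hy, hs, div_self ht']
    have hgz : g z = z ^ a := hga z hzn
    -- the commutator
    have hk : (s⁻¹ * g⁻¹ * s * g) y = y := by
      apply hfix
      · intro x
        have e1 : g (algebraMap L (Fbar F) x) = algebraMap L (Fbar F) x := hg x
        have e2 : s (algebraMap L (Fbar F) x) = algebraMap L (Fbar F) x := hs x
        have e3 : g⁻¹ (algebraMap L (Fbar F) x) = algebraMap L (Fbar F) x := by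
          change g.symm _ = _
          rw [AlgEquiv.symm_apply_eq, e1]
        have e4 : s⁻¹ (algebraMap L (Fbar F) x) = algebraMap L (Fbar F) x := by
          change s.symm _ = _
          rw [AlgEquiv.symm_apply_eq, e2]
        change s⁻¹ (g⁻¹ (s (g _))) = _
        rw [e1, e2, e3, e4]
      · intro ξ hξ
        have e1 : (s ξ) ^ n = 1 := by
          rw [← map_pow, hξ, map_one]
        change s.symm (g.symm (s (g ξ))) = ξ
        rw [AlgEquiv.symm_apply_eq, AlgEquiv.symm_apply_eq, hga ξ hξ, map_pow, hga _ e1]
    have hk' : s (g y) = g (s y) := by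
      have : s.symm (g.symm (s (g y))) = y := hk
      rwa [AlgEquiv.symm_apply_eq, AlgEquiv.symm_apply_eq] at this
    have hz0 : z ≠ 0 := by
      intro h0
      rw [h0, zero_pow hn.ne'] at hzn
      exact zero_ne_one hzn
    rw [map_div₀, map_pow, hk', hsy, map_mul, hgz, mul_pow,
      mul_div_mul_left _ _ (pow_ne_zero a hz0)]
  obtain ⟨y', hy'⟩ := hmem
  refine ⟨y', hinj ?_⟩
  rw [map_mul, map_pow, map_pow, hy', div_pow, ← map_pow, hy, hg, ← pow_mul, mul_comm a n, pow_mul, hy]
  field_simp

end Pool.Agent.CGQ
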