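import Pool.Agent.CGQ.GalDefs

/-!
# The values of a ray class function generate a finite group
-/

noncomputable section

set_option linter.unusedSectionVars false

namespace Pool.Agent.CGQ

open NumberField IsDedekindDomain Pool.Agent.CG2 Pool.Agent.CG2.GalFinAux
  Pool.Agent.CG2.GalInfAux

variable {K : Type} [Field K] [NumberField K] {V : Type} [CommGroup V]

/-- **FC**. The group generated by the values of a ray class function is finite.

PROOF. `exists_reps m₀ hm₀` (file `CG2/GalL.lean`) gives finitely many ideals `b` such that for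
every ideal `I ≠ 0` prime to `m₀` there is `b` with `InRay m₀ (I * b)`, so
`ex Ψ I = (ex Ψ b)⁻¹`; the ideals prime to `m₀` are closed under products (`GalChar.ex_mul`), so
the finite set of the `(ex Ψ b)⁻¹` contains a finite set closed under products and inverses which
contains all `Ψ v`, `¬ m₀ ≤ v` (`GalChar.ex_prime`). See the proof of `char_density` in
`CG2/GalChar.lean` (the subgroup `H` there and `hHfin`). -/
theorem fin_closure (Ψ : Pl K → V) (m₀ : Ideal (𝓞 K)) (hm₀ : m₀ ≠ ⊥)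
    (hray : ∀ a : 𝓞 K, a ≠ 0 → a - 1 ∈ m₀ → TotPos a → GalChar.ex Ψ (Ideal.span {a}) = 1) :
    Finite (Subgroup.closure {x : V | ∃ v : Pl K, ¬ m₀ ≤ v.asIdeal ∧ x = Ψ v}) := by
  have hInRay : ∀ J : Ideal (𝓞 K), InRay m₀ J → GalChar.ex Ψ J = 1 := by
    rintro J ⟨a, ha, ha1, hapos, rfl⟩
    exact hray a ha ha1 hapos
  obtain ⟨reps, hr1, hr2, -⟩ := exists_reps m₀ hm₀
  have hinv : ∀ I : Ideal (𝓞 K), I ≠ ⊥ → IsCoprime I m₀ →
      ∃ b ∈ reps, GalChar.ex Ψ I * GalChar.ex Ψ b = 1 := by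
    intro I hI hc
    obtain ⟨b, hb, hIb⟩ := hr2 I hI hc
    refine ⟨b, hb, ?_⟩
    rw [← GalChar.ex_mul Ψ hI (hr1 b hb).1]
    exact hInRay _ hIb
  let H : Subgroup V :=
    { carrier := {x | ∃ I : Ideal (𝓞 K), I ≠ ⊥ ∧ IsCoprime I m₀ ∧ x = GalChar.ex Ψ I}
      mul_mem' := by
        rintro x y ⟨I, hI, hIc, rfl⟩ ⟨J, hJ, hJc, rfl⟩
        exact ⟨I * J, mul_ne_zero hI hJ, hIc.mul_left hJc, (GalChar.ex_mul Ψ hI hJ).symm⟩
      one_mem' := by
        refine ⟨⊤, top_ne_bot, ?_, (GalChar.ex_top Ψ).symm⟩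
        rw [Ideal.isCoprime_iff_sup_eq, top_sup_eq]
      inv_mem' := by
        rintro x ⟨I, hI, hIc, rfl⟩
        obtain ⟨b, hb, hIb⟩ := hinv I hI hIc
        exact ⟨b, (hr1 b hb).1, (hr1 b hb).2, inv_eq_of_mul_eq_one_right hIb⟩ }
  have hHmem : ∀ x : V, x ∈ H ↔ ∃ I : Ideal (𝓞 K), I ≠ ⊥ ∧ IsCoprime I m₀ ∧
      x = GalChar.ex Ψ I := fun x => Iff.rfl
  have hfin : (H : Set V).Finite := by
    refine (reps.finite_toSet.image fun b => (GalChar.ex Ψ b)⁻¹).subset ?_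
    intro x hx
    obtain ⟨I, hI, hIc, rfl⟩ := (hHmem x).1 hx
    obtain ⟨b, hb, hIb⟩ := hinv I hI hIc
    exact ⟨b, hb, (eq_inv_of_mul_eq_one_left hIb).symm⟩
  have hle : Subgroup.closure {x : V | ∃ v : Pl K, ¬ m₀ ≤ v.asIdeal ∧ x = Ψ v} ≤ H := by
    rw [Subgroup.closure_le]
    rintro x ⟨v, hv, rfl⟩
    refine (hHmem _).2 ⟨v.asIdeal, v.ne_bot, ?_, (GalChar.ex_prime Ψ v).symm⟩
    rw [Ideal.isCoprime_iff_sup_eq]
    by_contra h
    have h1 : v.asIdeal = v.asIdeal ⊔ m₀ := v.isMaximal.eq_of_le h le_sup_left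
    exact hv (h1 ▸ le_sup_right)
  exact (hfin.subset hle).to_subtype

end Pool.Agent.CGQ
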