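import Pool.Agent.CGQ.GalLT

/-!
# Finitely many quadratic characters
-/

noncomputable section

set_option linter.unusedSectionVars false

namespace Pool.Agent.CGQ

/-- Characters which are trivial on the kernel of a homomorphism with a finite image. -/
private theorem LF_card {G A : Type} [Group G] [Group A] (f : G →* A) (n : ℕ)
    (hfin : Finite (f.range →* ℤˣ)) (hn : Nat.card (f.range →* ℤˣ) ≤ n)
    (s : Finset (G →* ℤˣ)) (hs : ∀ χ ∈ s, ∀ g, f g = 1 → χ g = 1) : s.card ≤ n := by
  classical
  have hk : ∀ χ : s, f.rangeRestrict.ker ≤ (χ : G →* ℤˣ).ker := by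
    rintro ⟨χ, hχ⟩ g hg
    rw [MonoidHom.mem_ker] at hg ⊢
    apply hs χ hχ
    have := congrArg (fun y : f.range => (y : A)) hg
    simpa using this
  let F : s → (f.range →* ℤˣ) := fun χ =>
    MonoidHom.liftOfSurjective f.rangeRestrict (MonoidHom.rangeRestrict_surjective f)
      ⟨(χ : G →* ℤˣ), hk χ⟩
  have hF : Function.Injective F := by
    intro χ χ' h
    have h1 := (MonoidHom.liftOfSurjective f.rangeRestrict
      (MonoidHom.rangeRestrict_surjective f)).injective h
    have h2 := congrArg Subtype.val h1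
    exact Subtype.ext h2
  have h1 : Nat.card s ≤ Nat.card (f.range →* ℤˣ) := Nat.card_le_card_of_injective F hF
  have h2 : Nat.card s = s.card := by simp
  omega

/-- **LF**. PROOF. Let `X_M` be the set of the `χ` which are trivial on
`N ⊓ ker (f M)`, `N = ρ.ker`: `X_M ⊆ X_(M+1)` (`hf`). The restriction `χ|N` of `χ ∈ X_M` is `ψ ∘ f M`
for a homomorphism `ψ : A → ℤˣ`, `A = f M (N)`: at most 4 restrictions (`card_chars_le`). Two `χ` with
the same restriction to `N` differ by a homomorphism trivial on `N`, that is by one from the finite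
group `ρ.range` to `ℤˣ`: there are at most `D` of these, `D` independent of `M`. So `card X_M ≤ 4 D`, and
the union of an increasing sequence of sets with at most `4 D` elements is finite. -/
theorem finite_chars {G Δ : Type} [Group G] [Group Δ] (ρ : G →* Δ) [Finite ρ.range] {p : ℕ}
    (hp : p.Prime) (f : ∀ M : ℕ, G →* (ZMod (p ^ M))ˣ)
    (hf : ∀ (M : ℕ) (g : G), f (M + 1) g = 1 → f M g = 1) :
    {χ : G →* ℤˣ | ∃ M : ℕ, ∀ g : G, ρ g = 1 → f M g = 1 → χ g = 1}.Finite := by
  classical
  have hmono : ∀ (M N : ℕ), M ≤ N → ∀ g : G, f N g = 1 → f M g = 1 := by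
    intro M N h
    induction N, h using Nat.le_induction with
    | base => exact fun g hg => hg
    | succ N _ ih => exact fun g hg => ih g (hf N g hg)
  have hfinΔ : Finite (ρ.range →* ℤˣ) :=
    Finite.of_injective (fun χ => (χ : ρ.range → ℤˣ)) DFunLike.coe_injective
  set D := Nat.card (ρ.range →* ℤˣ) with hD
  -- the bound for one M
  have key : ∀ (M : ℕ) (s : Finset (G →* ℤˣ)),
      (∀ χ ∈ s, ∀ g, ρ g = 1 → f M g = 1 → χ g = 1) → s.card ≤ D * 4 := by
    intro M s hs
    let f' : ρ.ker →* (ZMod (p ^ M))ˣ := (f M).comp ρ.ker.subtype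
    have h4 := card_chars_le hp f'.range
    let res : (G →* ℤˣ) → (ρ.ker →* ℤˣ) := fun χ => χ.comp ρ.ker.subtype
    have h1 : (s.image res).card ≤ 4 := by
      apply LF_card f' 4 h4.1 h4.2
      intro χ hχ g hg
      obtain ⟨ψ, hψ, rfl⟩ := Finset.mem_image.1 hχ
      exact hs ψ hψ g g.2 hg
    have h2 : ∀ a ∈ s.image res, (s.filter (fun χ => res χ = a)).card ≤ D := by
      intro a ha
      obtain ⟨χ₀, hχ₀, rfl⟩ := Finset.mem_image.1 ha
      have h3 : ((s.filter (fun χ => res χ = res χ₀)).image (fun χ => χ * χ₀⁻¹)).card =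
          (s.filter (fun χ => res χ = res χ₀)).card := by
        apply Finset.card_image_of_injective
        intro x y hxy
        exact mul_right_cancel hxy
      rw [← h3]
      apply LF_card ρ D hfinΔ le_rfl
      intro χ hχ g hg
      obtain ⟨ψ, hψ, rfl⟩ := Finset.mem_image.1 hχ
      have h5 := (Finset.mem_filter.1 hψ).2
      have h6 : ψ g = χ₀ g := DFunLike.congr_fun h5 (⟨g, hg⟩ : ρ.ker)
      rw [MonoidHom.mul_apply, MonoidHom.inv_apply, h6, mul_inv_cancel]
    calc s.card ≤ D * (s.image res).card := Finset.card_le_mul_card_image s D h2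
      _ ≤ D * 4 := Nat.mul_le_mul_left D h1
  by_contra hinf
  obtain ⟨s, hs, hcard⟩ := Set.Infinite.exists_subset_card_eq hinf (D * 4 + 1)
  -- a common M
  have hM : ∀ χ ∈ s, ∃ M : ℕ, ∀ g : G, ρ g = 1 → f M g = 1 → χ g = 1 := fun χ hχ => hs hχ
  choose! m hm using hM
  have := key (s.sup m) s (fun χ hχ g h1 h2 =>
    hm χ hχ g h1 (hmono _ _ (Finset.le_sup hχ) g h2))
  omega

end Pool.Agent.CGQ
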