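import Pool.Agent.CGQ.GalDefs
import Pool.Agent.CGQ.GalLF
import Pool.Agent.CGQ.GalLC

/-!
# The finite list of quadratic extensions to be avoided
-/

noncomputable section

set_option linter.unusedSectionVars false

namespace Pool.Agent.CGQ

open NumberField IsDedekindDomain Pool.Agent.CG2 Pool.Agent.CG2.GalFinAux
  Pool.Agent.CG2.GalInfAux

variable {F : Type} [Field F] [NumberField F]

private theorem ll_gen {L : Type} [Field L] [Algebra F L] (h2 : Module.finrank F L = 2) :
    ∃ (x₀ : L) (d₀ : F), x₀ ^ 2 = algebraMap F L d₀ ∧ ∀ c : F, x₀ ≠ algebraMap F L c := by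
  have hfd : FiniteDimensional F L := Module.finite_of_finrank_pos (by rw [h2]; norm_num)
  have hch : CharZero F := inferInstance
  have h20 : (2 : F) ≠ 0 := two_ne_zero
  -- an element outside `F`
  obtain ⟨z, hz⟩ : ∃ z : L, ∀ c : F, z ≠ algebraMap F L c := by
    by_contra hcon
    push Not at hcon
    have hsurj : Function.Surjective (Algebra.linearMap F L) := fun z => by
      obtain ⟨c, hc⟩ := hcon z
      exact ⟨c, hc.symm⟩
    have h3 := LinearMap.finrank_le_finrank_of_surjective hsurj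
    rw [h2, Module.finrank_self] at h3
    omega
  -- a quadratic relation
  have hli : ¬ LinearIndependent F ![(1 : L), z, z ^ 2] := by
    intro hli
    have h3 := hli.fintype_card_le_finrank
    rw [h2, Fintype.card_fin] at h3
    omega
  rw [Fintype.not_linearIndependent_iff] at hli
  obtain ⟨g, hg, i, hi⟩ := hli
  simp only [Fin.sum_univ_three, Matrix.cons_val_zero, Matrix.cons_val_one,
    Matrix.cons_val] at hg
  have hg2 : g 2 ≠ 0 := by
    intro h0
    rw [h0, zero_smul, add_zero] at hg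
    by_cases h1 : g 1 = 0
    · rw [h1, zero_smul, add_zero, Algebra.smul_def, mul_one] at hg
      have h00 : g 0 = 0 := (map_eq_zero (algebraMap F L)).1 hg
      fin_cases i
      · exact hi h00
      · exact hi h1
      · exact hi h0
    · apply hz (-(g 0) / g 1)
      have h4 : algebraMap F L (g 1) ≠ 0 := (map_ne_zero _).2 h1
      rw [Algebra.smul_def, Algebra.smul_def, mul_one] at hg
      rw [map_div₀, map_neg, eq_div_iff h4]
      linear_combination hg
  -- complete the square
  have h4 : algebraMap F L (g 2) ≠ 0 := (map_ne_zero _).2 hg2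
  have h5 : algebraMap F L 2 ≠ 0 := (map_ne_zero _).2 h20
  rw [Algebra.smul_def, Algebra.smul_def, Algebra.smul_def, mul_one] at hg
  refine ⟨algebraMap F L (g 2) * algebraMap F L 2 * z + algebraMap F L (g 1),
    g 1 ^ 2 - 4 * g 2 * g 0, ?_, ?_⟩
  · rw [map_sub, map_mul, map_mul, map_pow]
    have h6 : algebraMap F L 4 = algebraMap F L 2 * algebraMap F L 2 := by
      rw [← map_mul]; norm_num
    have h7 : algebraMap F L 2 = 2 := map_ofNat _ 2
    rw [h6, h7]
    linear_combination 4 * algebraMap F L (g 2) * hg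
  · intro c hc
    apply hz ((c - g 1) / (g 2 * 2))
    rw [map_div₀, map_sub, map_mul, eq_div_iff (mul_ne_zero h4 h5)]
    linear_combination hc

/-- **LL**. The list.

PROOF. Let `𝒳` be the finite set of characters of `finite_chars` (`f` from `exists_cyc`; `ρ.range` is finite
because `ρ.ker` is open in the compact group `GalF F`). For `χ ∈ 𝒳` such that there are a non square `d` of
`F` and `y : Fbar F` with `y ^ 2 = d`, `g y = χ g * y` for all `g`, choose one such `d`; `D` is the finite set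
of these `d`. Let `L` be quadratic over `F`, `ι : L → Fbar F`, and suppose that for some `M` all `g` with
`ρ g = 1`, trivial on the `p ^ M`-th roots of unity, are trivial on `ι(L)`. `L = F(x₀)` with `x₀ ^ 2 = d₀ ∈ F` (degree 2,
characteristic 0: complete the square for a generator), `d₀` not a square in `F`. `χ₀` from
`exists_sqrt_char` for `y₀ = ι x₀`: it lies in `𝒳`, so there is `d ∈ D` with `y ^ 2 = d`, `g y = χ₀ g * y`:
`y / y₀` is fixed by all `g`, so it is in `F`, and `y ∈ F(y₀) = ι(L)`: `d` is a square in `L`,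
contradiction. -/
theorem exists_list {Δ : Type} [Group Δ] (ρ : GalF F →* Δ) (hρ : IsOpen (ρ.ker : Set (GalF F)))
    {p : ℕ} (hp : p.Prime) :
    ∃ D : Finset F, (∀ d ∈ D, ¬ IsSquare d) ∧
      ∀ (L : Type) [Field L] [Algebra F L], Module.finrank F L = 2 →
        (∀ d ∈ D, ¬ IsSquare (algebraMap F L d)) → ∀ (ι : L →ₐ[F] Fbar F) (M : ℕ),
        ∃ g : GalF F, ρ g = 1 ∧ (∀ z : Fbar F, z ^ (p ^ M) = 1 → g z = z) ∧
          ∃ x : L, g (ι x) ≠ ι x := by
  classical
  have hpos : ∀ M : ℕ, 0 < p ^ M := fun M => pow_pos hp.pos M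
  choose f hf using fun M : ℕ => exists_cyc F (p ^ M) (hpos M)
  have hf' : ∀ (M : ℕ) (g : GalF F), f (M + 1) g = 1 → f M g = 1 := by
    intro M g hg
    rw [hf] at hg ⊢
    intro z hz
    exact hg z (by rw [pow_succ, pow_mul, hz, one_pow])
  have hfinQ : Finite (GalF F ⧸ ρ.ker) := Subgroup.quotient_finite_of_isOpen ρ.ker hρ
  have hfinR : Finite ρ.range := Finite.of_equiv _ (QuotientGroup.quotientKerEquivRange ρ).toEquiv
  have hfin := finite_chars ρ hp f hf'
  set X : Set (GalF F →* ℤˣ) := {χ | ∃ M : ℕ, ∀ g : GalF F, ρ g = 1 → f M g = 1 → χ g = 1} with hX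
  let Q : (GalF F →* ℤˣ) → F → Prop := fun χ d => ¬ IsSquare d ∧
    ∃ y : Fbar F, y ^ 2 = algebraMap F (Fbar F) d ∧ ∀ g : GalF F, g y = ((χ g : ℤ) : Fbar F) * y
  let D : Finset F := hfin.toFinset.biUnion fun χ =>
    if h : ∃ d, Q χ d then {h.choose} else ∅
  refine ⟨D, ?_, ?_⟩
  · intro d hd
    obtain ⟨χ, _, hχ⟩ := Finset.mem_biUnion.1 hd
    by_cases h : ∃ d, Q χ d
    · rw [dif_pos h, Finset.mem_singleton] at hχ
      rw [hχ]
      exact h.choose_spec.1
    · rw [dif_neg h] at hχ
      exact absurd hχ (Finset.notMem_empty _)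
  · intro L _ _ h2 hD ι M
    by_contra hcon
    push Not at hcon
    obtain ⟨x₀, d₀, hx₀, hx₀'⟩ := ll_gen h2
    have hx00 : x₀ ≠ 0 := fun h => hx₀' 0 (by rw [h, map_zero])
    have hy0 : ι x₀ ≠ 0 := (map_ne_zero ι).2 hx00
    have hyd : (ι x₀) ^ 2 = algebraMap F (Fbar F) d₀ := by
      rw [← map_pow, hx₀, AlgHom.commutes]
    obtain ⟨χ₀, hχ₀⟩ := exists_sqrt_char (ι x₀) hy0 d₀ hyd
    have hχX : χ₀ ∈ X := by
      refine ⟨M, fun g hg hgM => ?_⟩
      rw [hf] at hgM
      have h3 := hcon g hg hgM x₀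
      rw [hχ₀ g] at h3
      have h4 : ((χ₀ g : ℤ) : Fbar F) = 1 := by
        have := mul_right_cancel₀ hy0 (h3.trans (one_mul _).symm)
        exact this
      have h5 : (χ₀ g : ℤ) = 1 := by exact_mod_cast h4
      exact Units.ext h5
    have hd₀ : ¬ IsSquare d₀ := by
      rintro ⟨c, hc⟩
      have h3 : (x₀ - algebraMap F L c) * (x₀ + algebraMap F L c) = 0 := by
        have h4 : x₀ ^ 2 = algebraMap F L c * algebraMap F L c := by rw [hx₀, hc, map_mul]
        linear_combination h4
      rcases mul_eq_zero.1 h3 with h | h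
      · exact hx₀' c (sub_eq_zero.1 h)
      · exact hx₀' (-c) (by rw [map_neg]; exact eq_neg_of_add_eq_zero_left h)
    have hQ : ∃ d, Q χ₀ d := ⟨d₀, hd₀, ι x₀, hyd, hχ₀⟩
    obtain ⟨hdns, y, hy, hgy⟩ := hQ.choose_spec
    have hdD : hQ.choose ∈ D := by
      refine Finset.mem_biUnion.2 ⟨χ₀, hfin.mem_toFinset.2 hχX, ?_⟩
      rw [dif_pos hQ, Finset.mem_singleton]
    have hfixed : ∀ g : Gal(Fbar F/F), g (y / ι x₀) = y / ι x₀ := by
      intro g
      have h3 : ((χ₀ g : ℤ) : Fbar F) ≠ 0 := by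
        rcases Int.units_eq_one_or (χ₀ g) with h | h <;> rw [h] <;> simp
      rw [map_div₀]
      have h4 := hgy g
      have h5 := hχ₀ g
      change g y / g (ι x₀) = _
      rw [h4, h5, mul_div_mul_left _ _ h3]
    have hgal : IsGalois F (Fbar F) := inferInstance
    obtain ⟨c, hc⟩ := (InfiniteGalois.mem_range_algebraMap_iff_fixed (k := F) (y / ι x₀)).2 hfixed
    apply hD _ hdD
    refine ⟨algebraMap F L c * x₀, ?_⟩
    have hinj : Function.Injective (fun x : L => ι x) := (ι : L →+* Fbar F).injective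
    apply hinj
    change ι (algebraMap F L hQ.choose) = ι (algebraMap F L c * x₀ * (algebraMap F L c * x₀))
    rw [AlgHom.commutes, map_mul, map_mul, AlgHom.commutes, hc, div_mul_cancel₀ _ hy0, ← pow_two]
    exact hy.symm

end Pool.Agent.CGQ
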