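import Pool.Agent.CGQ.GalDefG
import Pool.Agent.CG2.Statement

/-!
# A common eigenvector over the algebraic closure contradicts `NonEisenstein`
-/

noncomputable section

set_option linter.unusedSectionVars false

namespace Pool.Agent.CGQ

open Matrix Pool.Agent.CG2

/-- A representation which has a common eigenvector over the algebraic closure has one over a
finite extension: it is not non-Eisenstein. -/
theorem not_nonEisenstein {F : Type} [Field F] [NumberField F] {k : Type} [Field k]
    (ρ : GalF F →* GL (Fin 2) k)
    (h : HasLine ((GeneralLinearGroup.map (n := Fin 2)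
      (algebraMap k (AlgebraicClosure k))).comp ρ)) : ¬ NonEisenstein ρ := by
  intro hNE
  obtain ⟨x, hx0, hx⟩ := h
  obtain ⟨i0, hi0⟩ : ∃ i, x i ≠ 0 := by
    by_contra hcon
    push Not at hcon
    exact hx0 (funext hcon)
  set v : Fin 2 → AlgebraicClosure k := fun i => x i / x i0 with hv
  have hvi0 : v i0 = 1 := div_self hi0
  have hvx : v = (x i0)⁻¹ • x := by
    funext i
    rw [hv, Pi.smul_apply, smul_eq_mul]
    exact div_eq_inv_mul _ _
  let k' : IntermediateField k (AlgebraicClosure k) :=
    IntermediateField.adjoin k (Set.range v)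
  have hfd : FiniteDimensional k k' := by
    apply IntermediateField.finiteDimensional_adjoin
    intro y _
    exact Algebra.IsIntegral.isIntegral y
  have hvmem : ∀ i, v i ∈ k' := fun i => IntermediateField.subset_adjoin k _ ⟨i, rfl⟩
  let v' : Fin 2 → k' := fun i => ⟨v i, hvmem i⟩
  have hv'0 : v' ≠ 0 := by
    intro h
    have h1 := congrArg Subtype.val (congrFun h i0)
    change v i0 = 0 at h1
    rw [hvi0] at h1
    exact one_ne_zero h1
  have hstab : ∀ (g : GalF F), ∀ w ∈ Submodule.span k' {v'},
      ((ρ g : Matrix (Fin 2) (Fin 2) k).map (algebraMap k k')).mulVec w ∈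
        Submodule.span k' {v'} := by
    intro g w hw
    obtain ⟨a, rfl⟩ := Submodule.mem_span_singleton.1 hw
    rw [Matrix.mulVec_smul]
    refine Submodule.smul_mem _ _ ?_
    obtain ⟨c, hc⟩ := hx g
    have hcv : (((GeneralLinearGroup.map (n := Fin 2) (algebraMap k (AlgebraicClosure k))).comp ρ
        g : GL (Fin 2) (AlgebraicClosure k)) :
        Matrix (Fin 2) (Fin 2) (AlgebraicClosure k)).mulVec v = c • v := by
      rw [hvx, Matrix.mulVec_smul, hc, smul_comm]
    have h1 : ∀ i, ((((ρ g : Matrix (Fin 2) (Fin 2) k).map (algebraMap k k')).mulVec v' i : k') :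
        AlgebraicClosure k) = c * v i := by
      intro i
      have h2 := congrFun hcv i
      rw [Pi.smul_apply, smul_eq_mul] at h2
      rw [← h2]
      simp only [Matrix.mulVec, dotProduct, Fin.sum_univ_two]
      rfl
    have hcmem : c ∈ k' := by
      have h3 : c = ((((ρ g : Matrix (Fin 2) (Fin 2) k).map (algebraMap k k')).mulVec v' i0 : k') :
          AlgebraicClosure k) := by
        rw [h1 i0, hvi0, mul_one]
      rw [h3]
      exact Subtype.mem _
    refine Submodule.mem_span_singleton.2 ⟨⟨c, hcmem⟩, ?_⟩
    funext i
    apply Subtype.ext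
    rw [h1 i]
    rfl
  rcases hNE k' hfd (Submodule.span k' {v'}) hstab with h | h
  · rw [Submodule.span_singleton_eq_bot] at h
    exact hv'0 h
  · have h1 := finrank_span_singleton (K := k') hv'0
    rw [h, finrank_top, Module.finrank_fintype_fun_eq_card, Fintype.card_fin] at h1
    norm_num at h1

end Pool.Agent.CGQ
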