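import Pool.Agent.CGQ.GalMain
import Pool.Agent.CGQ.GalNE
import Pool.Agent.CGQ.GalList

/-!
# The Galois side of the unit trick, for representations over an arbitrary field
-/

noncomputable section

set_option linter.unusedSectionVars false

namespace Pool.Agent.CGQ

open NumberField IsDedekindDomain Matrix Pool.Agent.CG2 Pool.Agent.CG2.GalFinAux
  Pool.Agent.CG2.GalInfAux

/-- The representation over the algebraic closure. -/
def rhobar {F : Type} [Field F] [NumberField F] {k : Type} [Field k]
    (ρ : GalF F →* GL (Fin 2) k) : GalF F →* GL (Fin 2) (AlgebraicClosure k) :=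
  (GeneralLinearGroup.map (n := Fin 2) (algebraMap k (AlgebraicClosure k))).comp ρ

theorem rhobar_eq_one {F : Type} [Field F] [NumberField F] {k : Type} [Field k]
    (ρ : GalF F →* GL (Fin 2) k) (g : GalF F) : rhobar ρ g = 1 ↔ ρ g = 1 := by
  constructor
  · intro h
    apply Units.ext
    ext i j
    have h1 := congrArg (fun A : GL (Fin 2) (AlgebraicClosure k) =>
      (A : Matrix (Fin 2) (Fin 2) (AlgebraicClosure k)) i j) h
    change algebraMap k (AlgebraicClosure k) ((ρ g : Matrix (Fin 2) (Fin 2) k) i j) =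
      (1 : Matrix (Fin 2) (Fin 2) (AlgebraicClosure k)) i j at h1
    rw [Matrix.one_apply] at h1
    change (ρ g : Matrix (Fin 2) (Fin 2) k) i j = (1 : Matrix (Fin 2) (Fin 2) k) i j
    rw [Matrix.one_apply]
    apply (algebraMap k (AlgebraicClosure k)).injective
    rw [h1]
    split_ifs <;> simp
  · intro h
    change GeneralLinearGroup.map _ (ρ g) = 1
    rw [h, map_one]

/-- The final statement: if the Frobenius elements at the places selected by the unit trick have
the eigenvalues given by a ray class character of a quadratic extension `L` outside the list, the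
representation is not non-Eisenstein. -/
theorem galois_final {F : Type} [Field F] [NumberField F] {L : Type} [Field L] [NumberField L]
    [Algebra F L] {k : Type} [Field k] {p : ℕ} (hp : p.Prime) [CharP k p]
    (hL : Module.finrank F L = 2) {cL : Gal(L/F)} (hcL : cL ≠ 1)
    (ρ : GalF F →* GL (Fin 2) k) (hρ : IsOpen (ρ.ker : Set (GalF F))) (ε : ℤˣ) (u e : (𝓞 L)ˣ)
    (hu : cL ((u : 𝓞 L) : L) * ((u : 𝓞 L) : L) = 1)
    (he : cL ((e : 𝓞 L) : L) * ((e : 𝓞 L) : L) = 1)
    (hind : ∀ a b : ℤ, e ^ a = u ^ b → a = 0) {S : Set (Pl L)} (hS : S.Finite)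
    (χ : Pl L → AlgebraicClosure k) (hχ : IsRay S χ) {T : Set (Pl F)} (hT : T.Finite)
    (hH : HypE ε p (rhobar ρ) cL u e χ T) {D : Finset F}
    (hD : ∀ (L : Type) [Field L] [Algebra F L], Module.finrank F L = 2 →
        (∀ d ∈ D, ¬ IsSquare (algebraMap F L d)) → ∀ (ι : L →ₐ[F] Fbar F) (M : ℕ),
        ∃ g : GalF F, ρ g = 1 ∧ (∀ z : Fbar F, z ^ (p ^ M) = 1 → g z = z) ∧
          ∃ x : L, g (ι x) ≠ ι x)
    (hLD : ∀ d ∈ D, ¬ IsSquare (algebraMap F L d)) : ¬ NonEisenstein ρ := by
  have hchar : CharP (AlgebraicClosure k) p :=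
    charP_of_injective_algebraMap (algebraMap k (AlgebraicClosure k)).injective p
  have hfd : FiniteDimensional F L := Module.finite_of_finrank_pos (by rw [hL]; norm_num)
  have halg : Algebra.IsAlgebraic F L := inferInstance
  let ι : L →ₐ[F] Fbar F := IsAlgClosed.lift
  have hker : (rhobar ρ).ker = ρ.ker := by
    ext g
    rw [MonoidHom.mem_ker, MonoidHom.mem_ker, rhobar_eq_one]
  refine not_nonEisenstein ρ ?_
  refine galois_unit hp ι hL hcL (rhobar ρ) (by rw [hker]; exact hρ) ε u e hu he hind hS χ hχ hT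
    hH fun M => ?_
  obtain ⟨g, h1, h2, h3⟩ := hD L hL hLD ι M
  exact ⟨g, (rhobar_eq_one ρ g).2 h1, h2, h3⟩

end Pool.Agent.CGQ
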