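import Pool.Agent.CGQ.GalGS

/-!
# Normal subgroups whose elements of order prime to p are scalars
-/

noncomputable section

set_option linter.unusedSectionVars false

namespace Pool.Agent.CGQ

open Matrix

variable {κ : Type} [Field κ] {G : Type} [Group G]

private theorem gg_normal : (scalSub κ).Normal := by
  constructor
  rintro A ⟨a, ha⟩ B
  refine ⟨a, ?_⟩
  have h1 : B * A * B⁻¹ = A := by
    have h2 : B * A = A * B := by
      apply Units.ext
      rw [Units.val_mul, Units.val_mul]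
      change (B : Matrix (Fin 2) (Fin 2) κ) * (A : Matrix (Fin 2) (Fin 2) κ)
        = (A : Matrix (Fin 2) (Fin 2) κ) * (B : Matrix (Fin 2) (Fin 2) κ)
      rw [ha]
      exact (Matrix.scalar_commute a (fun r => mul_comm _ _) _).symm
    rw [h2, mul_assoc, mul_inv_cancel, mul_one]
  rw [h1, ha]

private theorem gg_pow {p : ℕ} (hp : p.Prime) (ρ : G →* GL (Fin 2) κ) [Finite ρ.range]
    (x : G) (h : ∀ k m : ℕ, p.Coprime m → ρ (x ^ (p ^ k)) ^ m = 1 → IsScal (ρ (x ^ (p ^ k)))) :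
    ∃ k : ℕ, IsScal (ρ x ^ (p ^ k)) := by
  have h1 : IsOfFinOrder (ρ x) := by
    have h2 : IsOfFinOrder (⟨ρ x, ⟨x, rfl⟩⟩ : ρ.range) := isOfFinOrder_of_finite _
    rw [isOfFinOrder_iff_pow_eq_one] at h2 ⊢
    obtain ⟨n, hn, hn'⟩ := h2
    refine ⟨n, hn, ?_⟩
    have h3 := congrArg (Subtype.val) hn'
    rw [Subgroup.coe_pow] at h3
    exact h3
  have h2 := h1.orderOf_pos
  obtain ⟨k, m, hm, hkm⟩ := Nat.exists_eq_pow_mul_and_not_dvd h2.ne' p hp.ne_one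
  refine ⟨k, ?_⟩
  rw [← map_pow]
  refine h k m ((Nat.Prime.coprime_iff_not_dvd hp).2 hm) ?_
  rw [map_pow, ← pow_mul, ← hkm, pow_orderOf_eq_one]

/-- **GG**. Group theory.

PROOF (`H` normal). Let `P` be the group `ρ(H) / scalars` (the image of `H` in
`GL₂ ⧸ scalSub κ`, `scalSub` is normal). For `h ∈ H`, `ρ h` has finite order `p ^ k * m'`, `m'` prime to
`p`; `ρ (h ^ (p ^ k))` has order prime to `p`, so it is scalar: `P` is a finite `p`-group
(`IsPGroup`). If `P` is trivial we are in the first case. Otherwise its centre is not trivial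
(`IsPGroup.center_nontrivial`): there is `z ∈ H` with `ρ z` not scalar, and for all `h ∈ H`:
`ρ h ρ z (ρ h)⁻¹ = λ ρ z`, `λ : κ`. `ρ z ^ (p ^ k)` is scalar, so by `unique_line` `ρ z` has exactly one
eigenline `⟨x⟩`; `ρ h x` is an eigenvector of `λ ρ z` (conjugate), hence of `ρ z`: `ρ h x ∈ ⟨x⟩`. So `⟨x⟩` is
stable under `ρ(H)`, and it is the only line stable under `ρ(H)` (even under `ρ z`). For `g ∈ G`,
`ρ g ⟨x⟩` is stable under `ρ (g H g⁻¹) = ρ H`, so `ρ g ⟨x⟩ = ⟨x⟩`. -/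
theorem scal_or_line [IsAlgClosed κ] {p : ℕ} [CharP κ p] (hp : p.Prime)
    (ρ : G →* GL (Fin 2) κ) [Finite ρ.range] (H : Subgroup G) [H.Normal]
    (h : ∀ x ∈ H, ∀ m : ℕ, p.Coprime m → ρ x ^ m = 1 → IsScal (ρ x)) :
    (∀ x ∈ H, IsScal (ρ x)) ∨ HasLine ρ := by
  classical
  have hN : (scalSub κ).Normal := gg_normal
  have : Fact p.Prime := ⟨hp⟩
  by_cases hall : ∀ x ∈ H, IsScal (ρ x)
  · exact Or.inl hall
  right
  have hpow : ∀ x ∈ H, ∃ k : ℕ, IsScal (ρ x ^ (p ^ k)) := fun x hx =>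
    gg_pow hp ρ x fun k m hm h1 => h _ (H.pow_mem hx _) m hm h1
  obtain ⟨φ, hφ⟩ : ∃ φ : H →* GL (Fin 2) κ ⧸ scalSub κ,
      φ = (QuotientGroup.mk' (scalSub κ)).comp (ρ.comp H.subtype) := ⟨_, rfl⟩
  have hφ1 : ∀ x : H, φ x = 1 ↔ IsScal (ρ x) := by
    intro x
    rw [hφ]
    exact QuotientGroup.eq_one_iff _
  have hfin : Finite φ.range := by
    have h1 : Set.Finite (Set.range φ) := by
      have h2 : Set.range φ ⊆ (fun A : GL (Fin 2) κ => (QuotientGroup.mk' (scalSub κ)) A) ''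
          (ρ.range : Set (GL (Fin 2) κ)) := by
        rintro _ ⟨x, rfl⟩
        refine ⟨ρ x, ⟨x, rfl⟩, ?_⟩
        rw [hφ]
        rfl
      exact (Set.Finite.image _ (Set.toFinite (ρ.range : Set (GL (Fin 2) κ)))).subset h2
    exact h1.to_subtype
  have hP : IsPGroup p φ.range := by
    rintro ⟨_, x, rfl⟩
    obtain ⟨k, hk⟩ := hpow x x.2
    refine ⟨k, ?_⟩
    apply Subtype.ext
    rw [Subgroup.coe_pow, Subgroup.coe_one]
    change φ x ^ p ^ k = 1
    rw [← map_pow, hφ1, Subgroup.coe_pow, map_pow]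
    exact hk
  have hnt : Nontrivial φ.range := by
    push Not at hall
    obtain ⟨x, hx, hx'⟩ := hall
    refine ⟨⟨⟨φ ⟨x, hx⟩, ⟨x, hx⟩, rfl⟩, 1, ?_⟩⟩
    intro h1
    have h2 : φ ⟨x, hx⟩ = 1 := congrArg Subtype.val h1
    exact hx' ((hφ1 _).1 h2)
  have hc := hP.center_nontrivial
  obtain ⟨⟨⟨_, z, rfl⟩, hz⟩, hz1⟩ := exists_ne (1 : Subgroup.center φ.range)
  have hz2 : ¬ IsScal (ρ z) := by
    intro h1
    apply hz1
    apply Subtype.ext
    apply Subtype.ext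
    exact (hφ1 z).2 h1
  obtain ⟨k, hk⟩ := hpow z z.2
  obtain ⟨x, hx0, ⟨μ, hμ⟩, huniq⟩ := unique_line hp (ρ z) hk hz2
  have hH : ∀ y ∈ H, ∃ r : κ, (ρ y : Matrix (Fin 2) (Fin 2) κ).mulVec x = r • x := by
    intro y hy
    apply huniq
    have h1 : φ z * φ ⟨y, hy⟩ = φ ⟨y, hy⟩ * φ z := by
      have h2 := Subgroup.mem_center_iff.1 hz ⟨φ ⟨y, hy⟩, ⟨y, hy⟩, rfl⟩
      exact (congrArg Subtype.val h2).symm
    have h2 : φ ((⟨y, hy⟩ * z)⁻¹ * (z * ⟨y, hy⟩)) = 1 := by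
      rw [map_mul, map_inv, map_mul, map_mul, h1, inv_mul_cancel]
    obtain ⟨b, hb⟩ := (hφ1 _).1 h2
    have h3 : (ρ z : Matrix (Fin 2) (Fin 2) κ) * (ρ y : Matrix (Fin 2) (Fin 2) κ) =
        (ρ y : Matrix (Fin 2) (Fin 2) κ) * (ρ z : Matrix (Fin 2) (Fin 2) κ) *
          Matrix.scalar (Fin 2) b := by
      rw [← hb, ← GeneralLinearGroup.coe_mul, ← GeneralLinearGroup.coe_mul,
        ← GeneralLinearGroup.coe_mul]
      congr 1
      rw [← map_mul, ← map_mul, ← map_mul]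
      congr 1
      push_cast
      group
    refine ⟨b * μ, ?_⟩
    rw [Matrix.mulVec_mulVec, h3, Matrix.scalar_apply, ← Matrix.mulVec_mulVec,
      ← Matrix.mulVec_mulVec]
    have h4 : (Matrix.diagonal fun _ : Fin 2 => b).mulVec x = b • x := by
      ext i
      rw [Matrix.mulVec_diagonal]
      rfl
    rw [h4, Matrix.mulVec_smul, hμ, Matrix.mulVec_smul, Matrix.mulVec_smul, smul_smul]
  refine ⟨x, hx0, fun g => ?_⟩
  apply huniq
  obtain ⟨s, hs⟩ := hH (g⁻¹ * z * g) (by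
    have := Subgroup.Normal.conj_mem ‹H.Normal› z z.2 g⁻¹
    rwa [inv_inv] at this)
  refine ⟨s, ?_⟩
  rw [← Matrix.mulVec_smul, ← hs, Matrix.mulVec_mulVec, Matrix.mulVec_mulVec,
    ← GeneralLinearGroup.coe_mul, ← GeneralLinearGroup.coe_mul, ← map_mul, ← map_mul]
  congr 3
  group

end Pool.Agent.CGQ
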