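import Pool.Agent.CGQ.GalUn
import Pool.Agent.CGQ.GalPR
import Pool.Agent.CGQ.GalActP

/-!
# The hypothesis in terms of Frobenius elements
-/

noncomputable section

set_option linter.unusedSectionVars false

namespace Pool.Agent.CGQ

open NumberField IsDedekindDomain Pool.Agent.CG2 Pool.Agent.CG2.GalFinAux
  Pool.Agent.CG2.GalInfAux

variable {F : Type} [Field F] [NumberField F] {L : Type} [Field L] [NumberField L] [Algebra F L]
  {κ : Type} [Field κ] [Algebra L (Fbar F)] [IsScalarTower F L (Fbar F)]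

/-- **HA**. The hypothesis in terms of Frobenius elements.

PROOF. `T' = T ∪ {v | Above p v} ∪ {v | ¬ UnramAt L v}` (`unram_cofinite`; finitely many places above
`p`: `Ideal.finite_factors`). For `v ∉ T'`, `w` with `Q.comap (inc F L) = w.asIdeal`: `below F w = v`
(`lies_iff` is for intermediate fields; directly: `inc F L ∘ algebraMap = inc F F`, `comap_prime_eq`);
`actP_ne`: `actP cL w ≠ w`, `Nm w = Nm v`; `power_residues` with `n = p ^ M` (`(p ^ M : 𝓞 F) ∉ v`). -/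
theorem hyp_apply {p : ℕ} (hp : p.Prime) (hL : Module.finrank F L = 2) {cL : Gal(L/F)}
    (hcL : cL ≠ 1) {ρ : GalF F →* GL (Fin 2) κ} {u e : (𝓞 L)ˣ} {χ : Pl L → κ} {T : Set (Pl F)}
    (hT : T.Finite) (hH : HypH p ρ cL u e χ T) :
    ∃ T' : Set (Pl F), T'.Finite ∧ T ⊆ T' ∧ ∀ (M : ℕ) (α θ : Fbar F),
      α ^ (p ^ M) = algebraMap L (Fbar F) ((u : 𝓞 L) : L) →
      θ ^ (p ^ M) = algebraMap L (Fbar F) ((e : 𝓞 L) : L) →
      ∀ v : Pl F, v ∉ T' → ∀ Q : Ideal (Zbar F), Over v Q → ∀ g : GalF F, IsFrob v Q g →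
      TrivL L g → TrivMu (p ^ M) g → g α = α → g θ ≠ θ →
      ∀ w : Pl L, Q.comap (inc F L) = w.asIdeal →
      (ρ g : Matrix (Fin 2) (Fin 2) κ).trace = χ w + χ (actP cL w) ∧
      (ρ g : Matrix (Fin 2) (Fin 2) κ).det = χ w * χ (actP cL w) := by
  classical
  have hfd : FiniteDimensional F L := Module.finite_of_finrank_pos (by rw [hL]; norm_num)
  have hquad : Algebra.IsQuadraticExtension F L := ⟨hL⟩
  have hgal : IsGalois F L := inferInstance
  have hp0 : (Ideal.span {((p : ℕ) : 𝓞 F)}) ≠ ⊥ := by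
    rw [Ne, Ideal.span_singleton_eq_bot]
    exact_mod_cast hp.ne_zero
  have hpf : {v : Pl F | ((p : ℕ) : 𝓞 F) ∈ v.asIdeal}.Finite := by
    refine (Ideal.finite_factors hp0).subset fun w hw => ?_
    exact Ideal.dvd_span_singleton.2 hw
  refine ⟨T ∪ {v : Pl F | ((p : ℕ) : 𝓞 F) ∈ v.asIdeal} ∪ {v | ¬ UnramAt L v},
    (hT.union hpf).union (unram_cofinite F L), fun v hv => Or.inl (Or.inl hv), ?_⟩
  intro M α θ hα hθ v hv Q hQ g hg hgL hgμ hgα hgθ w hw
  have hvT : v ∉ T := fun h => hv (Or.inl (Or.inl h))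
  have hvp : ((p : ℕ) : 𝓞 F) ∉ v.asIdeal := fun h => hv (Or.inl (Or.inr h))
  have hun : UnramAt L v := by
    by_contra h
    exact hv (Or.inr h)
  have hbel : below F w = v := by
    apply HeightOneSpectrum.ext
    change w.asIdeal.comap (algebraMap (𝓞 F) (𝓞 L)) = v.asIdeal
    rw [← hw, Ideal.comap_comap, ← comap_prime_eq hQ]
    congr 1
    ext x
    change ((algebraMap L (Fbar F)) ((algebraMap (𝓞 F) (𝓞 L) x : 𝓞 L) : L) : Fbar F) =
      algebraMap F (Fbar F) (x : F)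
    exact (IsScalarTower.algebraMap_apply F L (Fbar F) (x : F)).symm
  obtain ⟨h1, h2⟩ := actP_ne hcL hun hQ hg hgL hw
  have hpM : ((p ^ M : ℕ) : 𝓞 F) ∉ v.asIdeal := by
    intro h
    rw [Nat.cast_pow] at h
    exact hvp (v.isPrime.mem_of_pow_mem _ h)
  obtain ⟨h3, h4, h5⟩ := power_residues (pow_pos hp.pos M) u e hpM hQ hg hgμ hα hgα hθ
    (by rw [hθ]; exact hgL _) hgθ hw h2
  exact hH w (by rw [hbel]; exact hvT) h1 M (by rw [hbel]; exact h3) h4 h5 Q
    (by rw [hbel]; exact hQ) g (by rw [hbel]; exact hg)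

end Pool.Agent.CGQ
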