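import Pool.Agent.CGQ.GalDefs
import Pool.Agent.CGQ.GalFirst
import Pool.Agent.CGQ.GalRFa
import Pool.Agent.CGQ.GalRFb
import Pool.Agent.CGQ.GalRFc
import Pool.Agent.CGQ.GalUn
import Pool.Agent.CGQ.GalGr
import Pool.Agent.CGQ.GalFZ

/-!
# The key lemma
-/

noncomputable section

set_option linter.unusedSectionVars false

namespace Pool.Agent.CGQ

open NumberField IsDedekindDomain Pool.Agent.CG2 Pool.Agent.CG2.GalFinAux
  Pool.Agent.CG2.GalInfAux

variable {L N : Type} [Field L] [NumberField L] [Field N] [NumberField N] [Algebra L N]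

/-- **KY**. The key lemma.

PROOF. Let `T'` be so large that it contains `T`, `S`, the places above `q`, the places which are
not `UnramAt N` (`unram_cofinite`); enlarge it once more below.
`τ ζ = ζ ^ γ`, `γ : (ZMod q)ˣ` of order `m` by `hτζ`.
Let `K = IntermediateField.fixedField (Subgroup.zpowers τ) : IntermediateField L N`, so that `N` is
Galois over `K` with group (isomorphic by restriction of scalars to) `zpowers τ`, of order `p m`.
Put `Ψ u = (nq q u, cn L χ' u) : (ZMod q)ˣ × κˣ`, `χ' w = Units.mk0 (χ w) _`. By `rayFn_nq`,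
`RayFn.cn`, `RayFn.prod`, `RayFn.enlarge`, `Ψ` is a ray class function: there is `m₀ ≠ ⊥` contained in
all places `u` over `T'` and with the ray condition. Let `V` be the subgroup generated by the `Ψ u`,
`¬ m₀ ≤ u.asIdeal`; finite by `fin_closure`. Now let `T'` also contain all `w` such that some `u`
over `w` satisfies `m₀ ≤ u.asIdeal`.
(a) Let `¬ m₀ ≤ u.asIdeal`, `P` over `u` in `N`, `φ ∈ Gal(N/K)` a Frobenius element
(`exists_frob_above`); `φ = τ ^ i`, and `frob_zeta` (over `K`) gives `nq q u = γ ^ i`. So the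
first projection of `V` is contained in `zpowers γ`. By `frob_density_fin` over `K` and
`exists_of_hasDen` there are such `u` for which `φ` generates `Gal(N/K)`, so `i` is prime to `m`
and the first projection of `V` is `zpowers γ`, of order `m`.
(b) Let `A` be the set of all `u` with `¬ m₀ ≤ u.asIdeal`, `Nm u` prime and a Frobenius element in
`zpowers (τ ^ m)` minus `1` (`p - 1` elements, closed under the generators of the same cyclic
group): `HasDen A ((p - 1) / (p m))` by `frob_density_fin` over `K`, `HasDen.prime_norm` (and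
`HasDen.congr` to remove finitely many places). For `u ∈ A`: `φ = τ ^ i`, `m ∣ i`, `¬ p ∣ i`,
`w = below L u` has `Nm w = Nm u` (`absNorm_eq_of_prime`), so `FrobAt w P (τ ^ i)` holds over `L`
too, `w ∉ T`, and `H` gives `χ w = 1`; and `nq q u = γ ^ i = 1`. So `Ψ u = 1`. `first_ineq'`:
`(p - 1) / (p m) * card V ≤ 1`.
(c) `graph_of_card`: `(1, y) ∈ V` implies `y = 1`. For `w, w' ∉ T'` as in the statement let
`u = below K P`, `u' = below K P'`. `absNorm_eq_of_frob` (tower `L ⊂ K ⊂ N`): `Nm u = Nm w`,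
`Nm u' = Nm w'`, so `nq q u = nq q u'` and (`rdeg_eq_one`) `cn L χ' u = χ' w`, `cn L χ' u' = χ' w'`.
`Ψ u * (Ψ u')⁻¹ = (1, χ' w / χ' w') ∈ V`. -/
theorem key [IsGalois L N] {κ : Type} [Field κ] {p m q : ℕ} [CharP κ p] (hp : p.Prime)
    (hq : q.Prime) (hm : 0 < m) (τ : Gal(N/L)) (hτ : orderOf τ = p * m)
    (hpm : p.Coprime m) {ζ : N} (hζ : IsPrimitiveRoot ζ q)
    (hτζ : ∀ i : ℕ, (τ ^ i) ζ = ζ ↔ m ∣ i) {S T : Set (Pl L)} (hS : S.Finite) (χ : Pl L → κ)
    (hχ : IsRay S χ) (hT : T.Finite)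
    (H : ∀ w : Pl L, w ∉ T → (Nm w).Prime → ∀ (P : Pl N) (i : ℕ), FrobAt w P (τ ^ i) →
      m ∣ i → ¬ p ∣ i → χ w = 1) :
    ∃ T' : Set (Pl L), T'.Finite ∧ ∀ w w' : Pl L, w ∉ T' → w' ∉ T' → ∀ (P P' : Pl N) (i i' : ℕ),
      FrobAt w P (τ ^ i) → FrobAt w' P' (τ ^ i') → Nm w = Nm w' → χ w = χ w' := by
  classical
  have hqF : Fact q.Prime := ⟨hq⟩
  have hq0 : NeZero q := ⟨hq.ne_zero⟩
  have hpm0 : 0 < p * m := Nat.mul_pos hp.pos hm
  -- the exponent `γ`
  obtain ⟨γ0, -, hγ0⟩ := hζ.eq_pow_of_pow_eq_one (ξ := τ ζ) (by rw [← map_pow, hζ.pow_eq_one, map_one])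
  have hτi : ∀ i : ℕ, (τ ^ i) ζ = ζ ^ (γ0 ^ i) := by
    intro i
    induction i with
    | zero => simp
    | succ i ih =>
      rw [pow_succ]
      change (τ ^ i) (τ ζ) = _
      rw [← hγ0, map_pow, ih, ← pow_mul, pow_succ]
  have hζfin : IsOfFinOrder ζ := isOfFinOrder_iff_pow_eq_one.2 ⟨q, hq.pos, hζ.pow_eq_one⟩
  have hζeq : ∀ a b : ℕ, ζ ^ a = ζ ^ b → ((a : ℕ) : ZMod q) = ((b : ℕ) : ZMod q) := by
    intro a b h
    rw [hζfin.pow_eq_pow_iff_modEq, ← hζ.eq_orderOf] at h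
    exact (ZMod.natCast_eq_natCast_iff a b q).2 h
  have hζeq' : ∀ a b : ℕ, ((a : ℕ) : ZMod q) = ((b : ℕ) : ZMod q) → ζ ^ a = ζ ^ b := by
    intro a b h
    rw [hζfin.pow_eq_pow_iff_modEq, ← hζ.eq_orderOf]
    exact (ZMod.natCast_eq_natCast_iff a b q).1 h
  have hγne : ((γ0 : ℕ) : ZMod q) ≠ 0 := by
    intro h
    have h1 : ζ ^ γ0 = ζ ^ 0 := hζeq' _ _ (by rw [h, Nat.cast_zero])
    rw [pow_zero, hγ0] at h1
    have h2 : ζ = 1 := τ.injective (by rw [h1, map_one])
    exact hζ.ne_one hq.one_lt h2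
  set γ : (ZMod q)ˣ := Units.mk0 _ hγne with hγ
  have hγi : ∀ i : ℕ, ((γ ^ i : (ZMod q)ˣ) : ZMod q) = ((γ0 ^ i : ℕ) : ZMod q) := by
    intro i
    rw [Units.val_pow_eq_pow_val, hγ, Units.val_mk0, Nat.cast_pow]
  have hγ1 : ∀ i : ℕ, γ ^ i = 1 ↔ m ∣ i := by
    intro i
    rw [← hτζ, hτi]
    constructor
    · intro h
      have h1 : ζ ^ (γ0 ^ i) = ζ ^ 1 := by
        apply hζeq'
        rw [← hγi, h, Units.val_one, Nat.cast_one]
      rw [h1, pow_one]
    · intro h
      have h1 : ((γ0 ^ i : ℕ) : ZMod q) = ((1 : ℕ) : ZMod q) := hζeq _ _ (by rw [h, pow_one])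
      apply Units.ext
      rw [hγi, h1, Nat.cast_one, Units.val_one]
  have hγord : orderOf γ = m := by
    apply Nat.dvd_antisymm
    · exact orderOf_dvd_of_pow_eq_one ((hγ1 m).2 (dvd_refl m))
    · exact (hγ1 _).1 (pow_orderOf_eq_one γ)
  -- the field `K`
  set K : IntermediateField L N := IntermediateField.fixedField (Subgroup.zpowers τ) with hK
  have hfixK : K.fixingSubgroup = Subgroup.zpowers τ :=
    IntermediateField.fixingSubgroup_fixedField _
  have hτK : τ ∈ K.fixingSubgroup := by rw [hfixK]; exact Subgroup.mem_zpowers τ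
  let φ₀ : Gal(N/K) := IntermediateField.fixingSubgroupEquiv K ⟨τ, hτK⟩
  have hφ₀ : ∀ (i : ℕ) (x : N), (φ₀ ^ i) x = (τ ^ i) x := by
    intro i
    induction i with
    | zero => intro x; rfl
    | succ i ih =>
      intro x
      rw [pow_succ, pow_succ]
      exact ih (τ x)
  have hφ₀' : ∀ (i : ℕ) (x : 𝓞 N), (φ₀ ^ i) • x = (τ ^ i) • x := by
    intro i x
    apply RingOfIntegers.ext
    exact hφ₀ i (x : N)
  have hφpow : ∀ i : ℕ, φ₀ ^ i = 1 ↔ τ ^ i = 1 := by
    intro i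
    constructor
    · intro h
      apply AlgEquiv.ext
      intro x
      rw [← hφ₀, h]
      rfl
    · intro h
      apply AlgEquiv.ext
      intro x
      rw [hφ₀, h]
      rfl
  have hφord : orderOf φ₀ = p * m := by
    rw [← hτ]
    apply Nat.dvd_antisymm
    · exact orderOf_dvd_of_pow_eq_one ((hφpow _).2 (pow_orderOf_eq_one τ))
    · exact orderOf_dvd_of_pow_eq_one ((hφpow _).1 (pow_orderOf_eq_one φ₀))
  have hφtop : ∀ φ : Gal(N/K), ∃ i : ℕ, φ = φ₀ ^ i := by
    intro φ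
    have h1 : φ.restrictScalars L ∈ K.fixingSubgroup := by
      intro x
      exact φ.commutes x
    rw [hfixK, mem_zpowers_iff_mem_range_orderOf, Finset.mem_image] at h1
    obtain ⟨i, -, hi⟩ := h1
    refine ⟨i, ?_⟩
    apply AlgEquiv.ext
    intro x
    rw [hφ₀, hi]
    rfl
  have hφz : Subgroup.zpowers φ₀ = ⊤ := by
    rw [eq_top_iff]
    intro φ _
    obtain ⟨i, rfl⟩ := hφtop φ
    exact Subgroup.pow_mem _ (Subgroup.mem_zpowers φ₀) i
  have hcardG : Nat.card Gal(N/K) = p * m := by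
    rw [← hφord, ← Nat.card_zpowers, hφz, Subgroup.card_top]
  have hcomm : ∀ x g : Gal(N/K), x * g * x⁻¹ = g := by
    intro x g
    obtain ⟨i, rfl⟩ := hφtop x
    obtain ⟨j, rfl⟩ := hφtop g
    rw [← pow_add, add_comm, pow_add, mul_inv_cancel_right]
  -- the ray class function
  let χ' : Pl L → κˣ := fun w => Units.mk0 (χ w) (hχ.1 w)
  let Ψ : Pl K → (ZMod q)ˣ × κˣ := fun u => (nq q u, cn L χ' u)
  set TL : Set (Pl L) := T ∪ {w | ¬ UnramAt N w} ∪ {w | Above q w} with hTL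
  have hqfin : ∀ (E : Type) [Field E] [NumberField E], {w : Pl E | Above q w}.Finite := by
    intro E _ _
    have h1 : (Ideal.span {((q : ℕ) : 𝓞 E)}) ≠ ⊥ := by
      rw [Ne, Ideal.span_singleton_eq_bot]
      exact_mod_cast hq.ne_zero
    refine (Ideal.finite_factors h1).subset fun w hw => ?_
    exact Ideal.dvd_span_singleton.2 hw
  have hTLf : TL.Finite := (hT.union (unram_cofinite L N)).union (hqfin L)
  have hTKf : ({u : Pl K | below L u ∈ TL} ∪ {u | ¬ UnramAt N u} : Set (Pl K)).Finite := by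
    refine Set.Finite.union ?_ (unram_cofinite K N)
    refine (hTLf.biUnion (t := fun v => {w : Pl K | Lies w v}) fun v _ => GalFin2Aux.finite_above v).subset ?_
    intro u hu
    simp only [Set.mem_iUnion, exists_prop]
    exact ⟨below L u, hu, lies_below u⟩
  have R4 := ((rayFn_nq (K := K) q).prod ((rayFn_of_isRay hχ).cn (K := K))).enlarge hTKf
  obtain ⟨m₀, hm₀, hbad, hray⟩ := R4
  have hBf : {u : Pl K | m₀ ≤ u.asIdeal}.Finite :=
    (Ideal.finite_factors (R := 𝓞 K) hm₀).subset fun v hv => Ideal.dvd_iff_le.2 hv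
  have hbadK : ∀ u : Pl K, ¬ m₀ ≤ u.asIdeal → below L u ∉ TL ∧ UnramAt N u ∧ ¬ Above q u := by
    intro u hu
    refine ⟨fun h => hu (hbad u (Or.inr (Or.inl h))), ?_, fun h => hu (hbad u (Or.inl (Or.inl h)))⟩
    by_contra h
    exact hu (hbad u (Or.inr (Or.inr h)))
  have hun : ∀ u : Pl K, u ∉ {u : Pl K | m₀ ≤ u.asIdeal} → UnramAt N u :=
    fun u hu => (hbadK u hu).2.1
  -- (a)
  have hnq : ∀ u : Pl K, ¬ m₀ ≤ u.asIdeal → ∀ (P : Pl N) (i : ℕ), FrobAt u P (φ₀ ^ i) →
      nq q u = γ ^ i := by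
    intro u hu P i hF
    have h1 := frob_zeta hq hζ hF (hbadK u hu).2.2
    rw [hφ₀, hτi] at h1
    have h2 := hζeq _ _ h1
    rw [← hγi] at h2
    unfold nq
    rw [dif_neg]
    · apply Units.ext
      rw [Units.val_mk0, ← h2]
    · rw [← h2]
      exact Units.ne_zero _
  set V0 := Subgroup.closure {x : (ZMod q)ˣ × κˣ | ∃ v : Pl K, ¬ m₀ ≤ v.asIdeal ∧ x = Ψ v} with hV0
  have hV0f : Finite V0 := fin_closure Ψ m₀ hm₀ hray
  have hmap : V0.map (MonoidHom.fst (ZMod q)ˣ κˣ) = Subgroup.zpowers γ := by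
    apply le_antisymm
    · rw [hV0, MonoidHom.map_closure, Subgroup.closure_le]
      rintro _ ⟨_, ⟨u, hu, rfl⟩, rfl⟩
      obtain ⟨P, hP⟩ := exists_above (L := N) u
      obtain ⟨φ, hφ⟩ := exists_frob_above hP
      obtain ⟨i, rfl⟩ := hφtop φ
      change nq q u ∈ _
      rw [hnq u hu P i hφ]
      exact Subgroup.pow_mem _ (Subgroup.mem_zpowers γ) i
    · rw [Subgroup.zpowers_le]
      have hden := frob_density_fin (F := K) (L := N) {u : Pl K | m₀ ≤ u.asIdeal} hBf hun
        {φ | Subgroup.zpowers φ = ⊤} (fun g hg g' hg' => by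
          change Subgroup.zpowers g' = ⊤
          rw [hg']; exact hg) (fun g hg x => by
          rw [hcomm]; exact hg)
      obtain ⟨u, ⟨hu, P, σ, hσ, hF⟩, -⟩ := exists_of_hasDen (by
        have h1 : Nonempty {φ : Gal(N/K) | Subgroup.zpowers φ = ⊤} := ⟨⟨φ₀, hφz⟩⟩
        have h2 : 0 < Nat.card {φ : Gal(N/K) | Subgroup.zpowers φ = ⊤} := Nat.card_pos
        have h3 : 0 < Nat.card Gal(N/K) := Nat.card_pos
        positivity) hden Set.finite_empty
      obtain ⟨i, rfl⟩ := hφtop σ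
      have h1 : orderOf (φ₀ ^ i) = p * m := by
        rw [← Nat.card_zpowers, hσ, Subgroup.card_top, hcardG]
      have h2 : (p * m).Coprime i := by
        have h3 := orderOf_pow φ₀ (n := i)
        rw [h1, hφord] at h3
        have h4 : (p * m).gcd i ∣ p * m := Nat.gcd_dvd_left _ _
        have h5 := Nat.div_mul_cancel h4
        rw [← h3] at h5
        exact Nat.eq_of_mul_eq_mul_left hpm0 (by rw [h5, mul_one])
      have h6 : (orderOf γ).Coprime i := by
        rw [hγord]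
        exact Nat.Coprime.coprime_mul_left h2
      have h7 : γ ^ i ∈ V0.map (MonoidHom.fst (ZMod q)ˣ κˣ) := by
        rw [← hnq u hu P i hF]
        exact ⟨Ψ u, Subgroup.subset_closure ⟨u, hu, rfl⟩, rfl⟩
      obtain ⟨k, hk⟩ := exists_pow_eq_self_of_coprime h6.symm
      rw [← hk]
      exact Subgroup.pow_mem _ h7 k
  have hcardmap : Nat.card (V0.map (MonoidHom.fst (ZMod q)ˣ κˣ)) = m := by
    rw [hmap, Nat.card_zpowers, hγord]
  -- (b)
  let A0 : Set Gal(N/K) := {σ | σ ∈ Subgroup.zpowers (φ₀ ^ m) ∧ σ ≠ 1}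
  have hA0card : Nat.card A0 = p - 1 := by
    have h1 : orderOf (φ₀ ^ m) = p := by
      rw [orderOf_pow, hφord, Nat.gcd_mul_left_left, Nat.mul_div_cancel _ hm]
    have h2 : A0 = ((Subgroup.zpowers (φ₀ ^ m) : Subgroup Gal(N/K)) : Set Gal(N/K)) \ {1} := by
      ext σ
      simp [A0]
    rw [h2, Nat.card_coe_set_eq, Set.ncard_sdiff_singleton_of_mem (one_mem _)]
    congr 1
    rw [← Nat.card_coe_set_eq]
    exact (Nat.card_zpowers _).trans h1
  have hdenA := frob_density_fin (F := K) (L := N) {u : Pl K | m₀ ≤ u.asIdeal} hBf hun A0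
    (fun g hg g' hg' => by
      constructor
      · have h1 : g' ∈ Subgroup.zpowers g := by
          rw [← hg']
          exact Subgroup.mem_zpowers g'
        exact (Subgroup.zpowers_le.2 hg.1) h1
      · rintro rfl
        apply hg.2
        have h1 : g ∈ Subgroup.zpowers (1 : Gal(N/K)) := by
          rw [hg']
          exact Subgroup.mem_zpowers g
        rw [Subgroup.zpowers_one_eq_bot, Subgroup.mem_bot] at h1
        exact h1)
    (fun g hg x => by rw [hcomm]; exact hg)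
  have hineq := first_ineq' Ψ m₀ hm₀ hray (A := _) ?_ (HasDen.prime_norm hdenA)
  swap
  · rintro u ⟨⟨hu, P, σ, ⟨hσ1, hσ2⟩, hF⟩, hpr⟩
    refine ⟨hu, ?_⟩
    have h1 : σ ∈ Submonoid.powers (φ₀ ^ m) := by
      rw [mem_powers_iff_mem_zpowers]
      exact hσ1
    obtain ⟨k, hk0⟩ := h1
    change (φ₀ ^ m) ^ k = σ at hk0
    subst hk0
    rw [← pow_mul] at hσ2 hF
    have hk : ¬ p ∣ m * k := by
      intro h
      have h2 : p ∣ k := hpm.dvd_of_dvd_mul_left h
      apply hσ2
      obtain ⟨k', rfl⟩ := h2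
      rw [← mul_assoc, mul_comm m p, pow_mul, ← hφord, pow_orderOf_eq_one, one_pow]
    have hNw := GalFin2Aux.absNorm_eq_of_prime (lies_below (F := L) u) hpr
    have hbu : below K P = u := GalFinAux.lies_iff.1 hF.1
    have hF' : FrobAt (below L u) P (τ ^ (m * k)) := by
      refine ⟨?_, fun x => ?_⟩
      · rw [GalFinAux.lies_iff, ← hbu, below_below]
      · rw [← hφ₀', ← hNw]
        exact hF.2 x
    have hw1 : χ (below L u) = 1 := by
      refine H (below L u) (fun h => (hbadK u hu).1 (Or.inl (Or.inl h))) ?_ P (m * k) hF'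
        (dvd_mul_right m k) hk
      change (Ideal.absNorm (below L u).asIdeal).Prime
      rw [← hNw]
      exact hpr
    have hw2 : χ' (below L u) = 1 := Units.ext hw1
    have h3 : nq q u = 1 := by
      rw [hnq u hu P (m * k) hF, hγ1]
      exact dvd_mul_right m k
    change (nq q u, cn L χ' u) = 1
    rw [h3]
    unfold cn
    rw [hw2, one_pow]
    rfl
  have hnat : (p - 1) * Nat.card V0 ≤ p * m := by
    rw [hA0card, hcardG, div_mul_eq_mul_div, div_le_one (by exact_mod_cast hpm0)] at hineq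
    exact_mod_cast hineq
  -- (c)
  have hgraph := graph_of_card hp hm V0 hcardmap hnat
  refine ⟨TL ∪ below L '' {u : Pl K | m₀ ≤ u.asIdeal}, hTLf.union (hBf.image _), ?_⟩
  intro w w' hw hw' P P' i i' hF hF' hN
  have key1 : ∀ (w : Pl L) (P : Pl N) (i : ℕ), w ∉ TL ∪ below L '' {u : Pl K | m₀ ≤ u.asIdeal} →
      FrobAt w P (τ ^ i) → ¬ m₀ ≤ (below K P).asIdeal ∧ Nm (below K P) = Nm w ∧
        cn L χ' (below K P) = χ' w := by
    intro w P i hw hF
    have hbw : below L (below K P) = w := by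
      rw [below_below]
      exact GalFinAux.lies_iff.1 hF.1
    have h1 : Nm (below K P) = Nm w := by
      refine absNorm_eq_of_frob hF fun y => ?_
      rw [← hφ₀']
      exact smul_alg (φ₀ ^ i) y
    refine ⟨fun h => hw (Or.inr ⟨below K P, h, hbw⟩), h1, ?_⟩
    unfold cn
    rw [rdeg_eq_one (by rw [h1, hbw]), pow_one, hbw]
  obtain ⟨b1, b2, b3⟩ := key1 w P i hw hF
  obtain ⟨c1, c2, c3⟩ := key1 w' P' i' hw' hF'
  have hmemV : Ψ (below K P) * (Ψ (below K P'))⁻¹ ∈ V0 :=
    mul_mem (Subgroup.subset_closure ⟨_, b1, rfl⟩) (inv_mem (Subgroup.subset_closure ⟨_, c1, rfl⟩))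
  have hval : Ψ (below K P) * (Ψ (below K P'))⁻¹ = (1, χ' w * (χ' w')⁻¹) := by
    have h1 : nq q (below K P) = nq q (below K P') := by
      unfold nq
      rw [b2, c2, hN]
    change (nq q (below K P) * (nq q (below K P'))⁻¹, cn L χ' (below K P) *
      (cn L χ' (below K P'))⁻¹) = _
    rw [h1, mul_inv_cancel, b3, c3]
  rw [hval] at hmemV
  have hfin := hgraph _ hmemV
  have h2 : χ' w = χ' w' := mul_inv_eq_one.1 hfin
  exact congrArg Units.val h2

end Pool.Agent.CGQ
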