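import Mathlib

/-!
# Quadratic characters of groups of units modulo prime powers
-/

noncomputable section

set_option linter.unusedSectionVars false

namespace Pool.Agent.CGQ

private theorem LT_sq_one_mem {p M : ℕ} (hp : p.Prime) (x : ZMod (p ^ M)) (hx : x ^ 2 = 1) :
    x ∈ ({1, -1, 1 + (p : ZMod (p ^ M)) ^ (M - 1), -1 + (p : ZMod (p ^ M)) ^ (M - 1)} :
      Finset (ZMod (p ^ M))) := by
  obtain ⟨a, rfl⟩ := ZMod.intCast_surjective x
  have hp' : Prime (p : ℤ) := Nat.prime_iff_prime_int.1 hp
  have h1 : ((p ^ M : ℕ) : ℤ) ∣ (a - 1) * (a + 1) := by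
    rw [← ZMod.intCast_zmod_eq_zero_iff_dvd]
    push_cast
    linear_combination hx
  push_cast at h1
  simp only [Finset.mem_insert, Finset.mem_singleton]
  -- helper: 
  have e1 : (p : ℤ) ^ M ∣ a - 1 → (a : ZMod (p ^ M)) = 1 := by
    intro h
    have h' : ((p ^ M : ℕ) : ℤ) ∣ a - 1 := by exact_mod_cast h
    rw [← ZMod.intCast_zmod_eq_zero_iff_dvd] at h'
    push_cast at h'
    linear_combination h'
  have e2 : (p : ℤ) ^ M ∣ a + 1 → (a : ZMod (p ^ M)) = -1 := by
    intro h
    have h' : ((p ^ M : ℕ) : ℤ) ∣ a + 1 := by exact_mod_cast h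
    rw [← ZMod.intCast_zmod_eq_zero_iff_dvd] at h'
    push_cast at h'
    linear_combination h'
  by_cases h2 : (p : ℤ) ∣ a - 1
  · by_cases h3 : (p : ℤ) ∣ a + 1
    · -- p = 2
      have h4 : (p : ℤ) ∣ 2 := by
        have := dvd_sub h3 h2
        have e : a + 1 - (a - 1) = 2 := by ring
        rwa [e] at this
      have h5 : p = 2 := by
        have h6 : p ∣ 2 := by exact_mod_cast h4
        exact (Nat.prime_dvd_prime_iff_eq hp Nat.prime_two).1 h6
      subst h5
      rcases Nat.eq_zero_or_pos M with hM | hM
      · subst hM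
        left
        apply e1
        simp
      · obtain ⟨N, rfl⟩ : ∃ N, M = N + 1 := ⟨M - 1, by omega⟩
        obtain ⟨b, hb⟩ := h2
        have ha : a = 2 * b + 1 := by
          push_cast at hb
          linarith
        have h7 : (2 : ℤ) ^ N ∣ b * (2 * (b + 1)) := by
          obtain ⟨c, hc⟩ := h1
          refine ⟨c, ?_⟩
          rw [ha] at hc
          push_cast at hc
          rw [pow_succ] at hc
          have : (2 : ℤ) * (b * (2 * (b + 1))) = 2 * (2 ^ N * c) := by linarith
          exact mul_left_cancel₀ (by norm_num) this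
        have key : (2 : ℤ) ^ N ∣ a - 1 ∨ (2 : ℤ) ^ N ∣ a + 1 := by
          by_cases h8 : (2 : ℤ) ∣ b
          · have h9 : ¬ (2 : ℤ) ∣ (b + 1) := by omega
            left
            have h10 : (2 : ℤ) ^ N ∣ (b + 1) * (2 * b) := by
              have e : (b + 1) * (2 * b) = b * (2 * (b + 1)) := by ring
              rw [e]
              exact h7
            have := Prime.pow_dvd_of_dvd_mul_left Int.prime_two N h9 h10
            rw [ha]
            simpa using this
          · right
            have := Prime.pow_dvd_of_dvd_mul_left Int.prime_two N h8 h7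
            have e : a + 1 = 2 * (b + 1) := by rw [ha]; ring
            rw [e]
            exact this
        simp only [Nat.add_sub_cancel]
        rcases key with ⟨c, hc⟩ | ⟨c, hc⟩
        · rcases Int.even_or_odd' c with ⟨d, hd | hd⟩
          · left
            apply e1
            refine ⟨d, ?_⟩
            rw [hc, hd]
            push_cast
            ring
          · right; right; left
            have h11 : ((2 ^ (N + 1) : ℕ) : ℤ) ∣ a - (1 + 2 ^ N) := by
              refine ⟨d, ?_⟩
              push_cast
              rw [hd] at hc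
              linear_combination hc
            rw [← ZMod.intCast_zmod_eq_zero_iff_dvd] at h11
            push_cast at h11
            push_cast
            linear_combination h11
        · rcases Int.even_or_odd' c with ⟨d, hd | hd⟩
          · right; left
            apply e2
            refine ⟨d, ?_⟩
            rw [hc, hd]
            push_cast
            ring
          · right; right; right
            have h11 : ((2 ^ (N + 1) : ℕ) : ℤ) ∣ a - (-1 + 2 ^ N) := by
              refine ⟨d, ?_⟩
              push_cast
              rw [hd] at hc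
              linear_combination hc
            rw [← ZMod.intCast_zmod_eq_zero_iff_dvd] at h11
            push_cast at h11
            push_cast
            linear_combination h11
    · left
      apply e1
      exact Prime.pow_dvd_of_dvd_mul_right hp' M h3 h1
  · right; left
    apply e2
    exact Prime.pow_dvd_of_dvd_mul_left hp' M h2 h1

private theorem LT_roots : HasEnoughRootsOfUnity ℤ 2 where
  prim := ⟨-1, IsPrimitiveRoot.neg_one 0 (by norm_num)⟩
  cyc := by infer_instance

/-- **LT**. PROOF. `A` finite commutative: `Nat.card (A →* ℤˣ) = card (A ⧸ A²) = card A[2]` (the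
homomorphisms to `ℤˣ` are those of `A ⧸ A²`; squaring on `A` has kernel `A[2]` and image `A²`), at most
the number of solutions of `x ^ 2 = 1` in `ZMod (p ^ M)`, which is at most `4`: `p` odd: `p` divides only
one of `x - 1`, `x + 1`, so `x = ± 1`; `p = 2`: one of `x - 1`, `x + 1` is divisible by `2 ^ (M - 1)`.
(Instead of the exact formula: `Nat.card (A →* ℤˣ) ≤ card A[2]` suffices, or any bound independent of
`M`.) -/
theorem card_chars_le {p M : ℕ} (hp : p.Prime) (A : Subgroup (ZMod (p ^ M))ˣ) :
    Finite (A →* ℤˣ) ∧ Nat.card (A →* ℤˣ) ≤ 4 := by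
  have : NeZero (p ^ M) := ⟨pow_ne_zero _ hp.ne_zero⟩
  have hfin : Finite (A →* ℤˣ) := inferInstance
  refine ⟨hfin, ?_⟩
  -- the quotient by squares
  let sq : A →* A := powMonoidHom 2
  let B := A ⧸ sq.range
  have h1 : Nat.card B = Nat.card sq.ker := by
    have e1 : Nat.card A = Nat.card B * Nat.card sq.range :=
      Subgroup.card_eq_card_quotient_mul_card_subgroup sq.range
    have e2 : Nat.card A = Nat.card (A ⧸ sq.ker) * Nat.card sq.ker :=
      Subgroup.card_eq_card_quotient_mul_card_subgroup sq.ker
    have e3 : Nat.card (A ⧸ sq.ker) = Nat.card sq.range :=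
      Nat.card_congr (QuotientGroup.quotientKerEquivRange sq).toEquiv
    rw [e3] at e2
    have e4 : 0 < Nat.card sq.range := Nat.card_pos
    have e5 : Nat.card B * Nat.card sq.range = Nat.card sq.ker * Nat.card sq.range := by
      rw [← e1, e2, mul_comm]
    exact Nat.eq_of_mul_eq_mul_right e4 e5
  have h2 : Nat.card sq.ker ≤ 4 := by
    let T : Finset (ZMod (p ^ M)) :=
      {1, -1, 1 + (p : ZMod (p ^ M)) ^ (M - 1), -1 + (p : ZMod (p ^ M)) ^ (M - 1)}
    have hT : T.card ≤ 4 := Finset.card_le_four
    have hmem : ∀ x : sq.ker, (((x : A) : (ZMod (p ^ M))ˣ) : ZMod (p ^ M)) ∈ T := by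
      intro x
      apply LT_sq_one_mem hp
      have := x.2
      rw [MonoidHom.mem_ker] at this
      have h3 : (((x : A) : (ZMod (p ^ M))ˣ)) ^ 2 = 1 := by
        have h4 := congrArg (fun y : A => (y : (ZMod (p ^ M))ˣ)) this
        simpa [sq] using h4
      have h5 := congrArg (fun y : (ZMod (p ^ M))ˣ => (y : ZMod (p ^ M))) h3
      simpa using h5
    have hinj : Function.Injective (fun x : sq.ker => (⟨_, hmem x⟩ : T)) := by
      intro x y hxy
      simp only [Subtype.mk.injEq] at hxy
      exact Subtype.ext (Subtype.ext (Units.ext hxy))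
    calc Nat.card sq.ker ≤ Nat.card T := Nat.card_le_card_of_injective _ hinj
      _ = T.card := by simp
      _ ≤ 4 := hT
  -- homs
  have h3 : Nat.card (A →* ℤˣ) ≤ Nat.card (B →* ℤˣ) := by
    have hk : ∀ χ : A →* ℤˣ, sq.range ≤ χ.ker := by
      rintro χ x ⟨y, rfl⟩
      rw [MonoidHom.mem_ker]
      change χ (y ^ 2) = 1
      rw [map_pow]
      exact Int.units_sq _
    have : Finite B := inferInstance
    have : Finite (B →* ℤˣ) := Finite.of_injective (fun χ => (χ : B → ℤˣ)) DFunLike.coe_injective
    refine Nat.card_le_card_of_injective (fun χ => QuotientGroup.lift sq.range χ (hk χ)) ?_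
    intro χ χ' h
    ext1 x
    have := congrArg (fun ψ : B →* ℤˣ => ψ (QuotientGroup.mk x)) h
    exact this
  have h4 : Nat.card (B →* ℤˣ) = Nat.card B := by
    have hex : Monoid.exponent B ∣ 2 := by
      apply Monoid.exponent_dvd_of_forall_pow_eq_one
      intro b
      obtain ⟨a, rfl⟩ := QuotientGroup.mk_surjective b
      rw [← QuotientGroup.mk_pow, QuotientGroup.eq_one_iff]
      exact ⟨a, rfl⟩
    haveI : HasEnoughRootsOfUnity ℤ 2 := LT_roots
    have : HasEnoughRootsOfUnity ℤ (Monoid.exponent B) :=
      HasEnoughRootsOfUnity.of_dvd ℤ hex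
    exact CommGroup.card_monoidHom_of_hasEnoughRootsOfUnity B ℤ
  omega

end Pool.Agent.CGQ
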