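import Pool.Agent.CGQ.GalArith

/-!
# The Galois side of the unit trick
-/

noncomputable section

set_option linter.unusedSectionVars false

namespace Pool.Agent.CGQ

open NumberField IsDedekindDomain Matrix Pool.Agent.CG2 Pool.Agent.CG2.GalFinAux
  Pool.Agent.CG2.GalInfAux

variable {F : Type} [Field F] [NumberField F] {L : Type} [Field L] [NumberField L] [Algebra F L]
  {κ : Type} [Field κ]

/-- **G**. The Galois side of the unit trick. -/
theorem galois_unit [IsAlgClosed κ] {p : ℕ} (hp : p.Prime) [CharP κ p]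
    (ι : L →ₐ[F] Fbar F) (hL : Module.finrank F L = 2) {cL : Gal(L/F)} (hcL : cL ≠ 1)
    (ρ : GalF F →* GL (Fin 2) κ) (hρ : IsOpen (ρ.ker : Set (GalF F))) (ε : ℤˣ) (u e : (𝓞 L)ˣ)
    (hu : cL ((u : 𝓞 L) : L) * ((u : 𝓞 L) : L) = 1)
    (he : cL ((e : 𝓞 L) : L) * ((e : 𝓞 L) : L) = 1)
    (hind : ∀ a b : ℤ, e ^ a = u ^ b → a = 0) {S : Set (Pl L)} (hS : S.Finite)
    (χ : Pl L → κ) (hχ : IsRay S χ) {T : Set (Pl F)} (hT : T.Finite)
    (hH : HypE ε p ρ cL u e χ T)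
    (hNL : ∀ M : ℕ, ∃ g : GalF F, ρ g = 1 ∧ (∀ z : Fbar F, z ^ (p ^ M) = 1 → g z = z) ∧
      ∃ x : L, g (ι x) ≠ ι x) : HasLine ρ := by
  let : Algebra L (Fbar F) := ι.toRingHom.toAlgebra
  have : IsScalarTower F L (Fbar F) := IsScalarTower.of_algebraMap_eq fun x => (ι.commutes x).symm
  have hNL' : ∀ M : ℕ, ∃ g : GalF F, ρ g = 1 ∧ TrivMu (p ^ M) g ∧ ¬ TrivL L g := by
    intro M
    obtain ⟨g, h1, h2, x, hx⟩ := hNL M
    exact ⟨g, h1, h2, fun h => hx (h x)⟩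
  rcases Int.units_eq_one_or ε with rfl | rfl
  · refine galois_arith hp hL hcL ρ hρ u e hu he hind hS χ hχ hT ?_ hNL'
    intro w h1 h2 M h3 h4 h5 Q h6 g h7
    have := hH w h1 h2 M h3 h4 h5 Q h6 g h7
    simpa using this
  · have hχ' : IsRay S (fun w => (χ w)⁻¹) := by
      obtain ⟨h0, m₀, hm, hS, hr⟩ := hχ
      refine ⟨fun v => inv_ne_zero (h0 v), m₀, hm, hS, fun a ha ha1 hp => ?_⟩
      have h1 := hr a ha ha1 hp
      have h2 : ∏ᶠ v : Pl L, (χ v)⁻¹ ^ expo v (Ideal.span {a}) =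
          (∏ᶠ v : Pl L, χ v ^ expo v (Ideal.span {a}))⁻¹ := by
        rw [← finprod_inv_distrib]
        exact finprod_congr fun v => inv_pow _ _
      rw [h2, h1, inv_one]
    refine galois_arith hp hL hcL ρ hρ u e hu he hind hS _ hχ' hT ?_ hNL'
    intro w h1 h2 M h3 h4 h5 Q h6 g h7
    obtain ⟨h8, h9⟩ := hH w h1 h2 M h3 h4 h5 Q h6 g h7
    have hw := hχ.1 w
    have hw' := hχ.1 (actP cL w)
    have h10 : ((-1 : ℤˣ) : ℤ) = -1 := rfl
    rw [h10, _root_.zpow_neg_one, map_inv] at h8 h9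
    set A := ρ g with hA
    have hdet : ((A⁻¹ : GL (Fin 2) κ) : Matrix (Fin 2) (Fin 2) κ).det *
        (A : Matrix (Fin 2) (Fin 2) κ).det = 1 := by
      rw [← Matrix.det_mul, ← GeneralLinearGroup.coe_mul, inv_mul_cancel]
      simp
    have hAd : (A : Matrix (Fin 2) (Fin 2) κ).det = (χ w)⁻¹ * (χ (actP cL w))⁻¹ := by
      rw [h9] at hdet
      rw [← mul_inv]
      exact eq_inv_of_mul_eq_one_right hdet
    refine ⟨?_, hAd⟩
    have h12 : (A : Matrix (Fin 2) (Fin 2) κ).det ≠ 0 := by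
      rw [hAd]
      exact mul_ne_zero (inv_ne_zero hw) (inv_ne_zero hw')
    have h13 : ((A⁻¹ : GL (Fin 2) κ) : Matrix (Fin 2) (Fin 2) κ).trace =
        (A : Matrix (Fin 2) (Fin 2) κ).det⁻¹ * (A : Matrix (Fin 2) (Fin 2) κ).trace := by
      rw [GeneralLinearGroup.coe_inv, Matrix.inv_def, Matrix.trace_smul, Matrix.adjugate_fin_two,
        Matrix.trace_fin_two, Matrix.trace_fin_two, Ring.inverse_eq_inv', smul_eq_mul]
      simp [add_comm]
    have h14 : (A : Matrix (Fin 2) (Fin 2) κ).trace = (A : Matrix (Fin 2) (Fin 2) κ).det *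
        (χ w + χ (actP cL w)) := by
      rw [← h8, h13, mul_inv_cancel_left₀ h12]
    rw [h14, hAd]
    field_simp
    ring

end Pool.Agent.CGQ
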