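import Pool.Agent.CGQ.GalDefs

/-!
# Norms: congruences
-/

noncomputable section

set_option linter.unusedSectionVars false

namespace Pool.Agent.CGQ

open NumberField IsDedekindDomain Pool.Agent.CG2 Pool.Agent.CG2.GalFinAux
  Pool.Agent.CG2.GalInfAux

variable {L K : Type} [Field L] [NumberField L] [Field K] [NumberField K] [Algebra L K]

/-- **NR1**.

PROOF. Write `a = 1 + n b`, `b ∈ 𝓞 K`. `Algebra.algebraMap_intNorm` (or the description as
`Algebra.norm L (a : K)`) and `Algebra.norm_eq_prod_embeddings` (in an algebraic closure `E` of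
`K` over `L`): the norm is `∏_σ (1 + n σ b) = 1 + n z` with an algebraic integer `z ∈ E` (expand
the product, or induct over the finset of embeddings: a product of elements of
`{1 + n z | z integral over ℤ}` is of this form). So `(norm - 1) / n ∈ L` is integral over `ℤ`. -/
theorem intNorm_sub_one (a : 𝓞 K) (n : ℕ) (hn : n ≠ 0) (h : a - 1 ∈ Ideal.span {(n : 𝓞 K)}) :
    Algebra.intNorm (𝓞 L) (𝓞 K) a - 1 ∈ Ideal.span {(n : 𝓞 L)} := by
  classical
  obtain ⟨b, hb⟩ := Ideal.mem_span_singleton'.1 h
  have ha : (a : K) = 1 + n * (b : K) := by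
    have h1 : (a : K) - 1 = (b : K) * n := by
      have := congrArg (fun t : 𝓞 K => (t : K)) hb
      simpa using this.symm
    linear_combination h1
  let E := AlgebraicClosure L
  have key : ∃ z : E, IsIntegral ℤ z ∧
      algebraMap L E (Algebra.norm L (a : K)) = 1 + n * z := by
    rw [Algebra.norm_eq_prod_embeddings L E (a : K)]
    refine Finset.prod_induction (fun σ : K →ₐ[L] E => σ (a : K))
      (fun x => ∃ z : E, IsIntegral ℤ z ∧ x = 1 + n * z) ?_ ?_ ?_
    · rintro x y ⟨z, hz, rfl⟩ ⟨w, hw, rfl⟩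
      refine ⟨z + w + n * (z * w), ?_, by ring⟩
      have hn' : IsIntegral ℤ (n : E) := by
        have := isIntegral_algebraMap (R := ℤ) (A := E) (x := (n : ℤ))
        simpa using this
      exact (hz.add hw).add (hn'.mul (hz.mul hw))
    · exact ⟨0, isIntegral_zero, by ring⟩
    · intro σ _
      refine ⟨σ (b : K), ?_, ?_⟩
      · have hbi : IsIntegral ℤ (b : K) := b.isIntegral_coe
        exact map_isIntegral_int (σ : K →+* E) hbi
      · rw [ha, map_add, map_one, map_mul, map_natCast]
  obtain ⟨z, hz, hz1⟩ := key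
  have hn0 : (n : L) ≠ 0 := by exact_mod_cast hn
  have hnE : (n : E) ≠ 0 := by exact_mod_cast hn
  set y : L := (Algebra.norm L (a : K) - 1) / n with hy
  have hyz : algebraMap L E y = z := by
    rw [hy, map_div₀, map_sub, hz1, map_one, map_natCast, add_sub_cancel_left,
      mul_div_cancel_left₀ _ hnE]
  have hyi : IsIntegral ℤ y := by
    rw [← isIntegral_algebraMap_iff (algebraMap L E).injective, hyz]
    exact hz
  let y' : 𝓞 L := ⟨y, hyi⟩
  rw [Ideal.mem_span_singleton']
  refine ⟨y', ?_⟩
  apply RingOfIntegers.coe_injective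
  have h2 : algebraMap (𝓞 L) L (Algebra.intNorm (𝓞 L) (𝓞 K) a) = Algebra.norm L (a : K) :=
    Algebra.algebraMap_intNorm (A := 𝓞 L) (K := L) (L := K) (B := 𝓞 K) a
  have h3 : algebraMap (𝓞 L) L (y' * (n : 𝓞 L)) = y * n := by
    rw [map_mul, map_natCast]
    rfl
  have h4 : algebraMap (𝓞 L) L (Algebra.intNorm (𝓞 L) (𝓞 K) a - 1) =
      Algebra.norm L (a : K) - 1 := by
    rw [map_sub, map_one, h2]
  rw [h3, h4, hy, div_mul_cancel₀ _ hn0]

end Pool.Agent.CGQ
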