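import Pool.Agent.CGQ.KFD

/-!
# Equivariant families of polyhedra: the orientation
-/

noncomputable section

namespace Pool.Agent.CGQ

open NumberField IsDedekindDomain Pool.Agent.CG3
open Pool.Agent.CG2 (Pl PolySys CellSys Asc)

variable {F : Type} [Field F] [NumberField F]

namespace PFam

variable {𝒟 : Sys F} {K1 : Subgroup 𝒟.A} {E V : Type} [MulAction 𝒟.G E] [DecidableEq E]
  [NormedAddCommGroup V] [NormedSpace ℝ V] [FiniteDimensional ℝ V] (X : PFam 𝒟 K1 E V)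

private theorem KFA_out {K : Subgroup 𝒟.A} (γ : 𝒟.G) (b : PtK K) :
    ∃ κ ∈ K, outK (γ • b) = rt (Pool.Agent.CGQ.act γ (outK b)) κ := by
  have h1 : mkK K (outK (γ • b)) = mkK K (Pool.Agent.CGQ.act γ (outK b)) := by
    rw [mkK_outK]
    conv_lhs => rw [← mkK_outK b]
    rfl
  exact mkK_eq.1 h1.symm

private theorem KFA_sq (s : ℤˣ) : (s : ℤ) * (s : ℤ) = 1 := by
  rcases Int.units_eq_one_or s with h | h <;> rw [h] <;> rfl

private theorem KFA_sdet (X : PFam 𝒟 K1 E V) (g : 𝒟.A) (t : Fin (X.n0 + 1) → E) :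
    X.sdet t = (X.P g).sg X.bas t := by
  rw [sdet, PolySys.sg, PolySys.dt, X.hq g]

private theorem KFA_det (X : PFam 𝒟 K1 E V) (γ : 𝒟.G) (t : Fin (X.n0 + 1) → E) :
    Matrix.det (Matrix.of fun i j => X.q (γ • t i) (X.bas j)) *
      LinearMap.det (X.act γ : V →ₗ[ℝ] V) =
    Matrix.det (Matrix.of fun i j => X.q (t i) (X.bas j)) := by
  have h1 : Matrix.det (Matrix.of fun i j => X.q (t i) (X.bas j)) =
      Matrix.det ((Matrix.of fun i j => X.q (γ • t i) (X.bas j)) *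
        (LinearMap.toMatrix X.bas X.bas (X.act γ : V →ₗ[ℝ] V))) := by
    congr 1
    ext i j
    rw [Matrix.mul_apply, Matrix.of_apply, ← X.act_q γ (t i) (X.bas j)]
    have h4 : X.act γ (X.bas j) =
        ∑ k, (LinearMap.toMatrix X.bas X.bas (X.act γ : V →ₗ[ℝ] V)) k j • X.bas k := by
      have h3 := X.bas.sum_repr ((X.act γ : V →ₗ[ℝ] V) (X.bas j))
      change (X.act γ : V →ₗ[ℝ] V) (X.bas j) = _
      rw [← h3]
      refine Finset.sum_congr rfl fun k _ => ?_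
      rw [LinearMap.toMatrix_apply]
    rw [h4, map_sum]
    refine Finset.sum_congr rfl fun k _ => ?_
    rw [map_smul, smul_eq_mul, mul_comm]
    rfl
  rw [h1, Matrix.det_mul, LinearMap.det_toMatrix]

private theorem KFA_sign (a b : ℝ) (e : ℤˣ) (hb : 0 < b * ((e : ℤ) : ℝ)) :
    ((SignType.sign a : SignType) : ℤ) * (e : ℤ) = ((SignType.sign (a * b) : SignType) : ℤ) := by
  rcases Int.units_eq_one_or e with h | h
  · rw [h] at hb ⊢
    have : 0 < b := by simpa using hb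
    rw [sign_mul, sign_pos this]
    simp
  · rw [h] at hb ⊢
    have : b < 0 := by simpa using hb
    rw [sign_mul, sign_neg this]
    simp

private theorem KFA_cell_mul (X : PFam 𝒟 K1 E V) (g : 𝒟.A) {k : 𝒟.A} (hk : k ∈ K1)
    (R : Finset E) : (X.P (g * k)).Cell R ↔ (X.P g).Cell R := by
  rw [X.cell_iff, X.cell_iff, X.face_mul g k hk]

private theorem KFA_mp_ne (γ : 𝒟.G) (R : Finset E) :
    (Sel.mp (MulAction.toPerm γ) R).Nonempty ↔ R.Nonempty := by
  rw [Sel.mp, Finset.map_nonempty]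

/-- **KFA.** PROOF. Port of `CG2.KoeCell_eqv` (`face_smul`, `face_mul`, `cell_iff`; `R` is non
empty iff `Sel.mp _ R` is). -/
theorem ori_eqv {K : Subgroup 𝒟.A} (hK : K ≤ K1) (γ : 𝒟.G) (b : PtK K) (R : Finset E) :
    (X.P (outK (γ • b)).2).Cell (Sel.mp (MulAction.toPerm γ) R) ↔ (X.P (outK b).2).Cell R := by
  obtain ⟨κ, hκ, h⟩ := KFA_out γ b
  rw [h]
  change (X.P (diag γ * (outK b).2 * κ)).Cell _ ↔ _
  rw [KFA_cell_mul X _ (hK hκ), X.cell_iff, X.cell_iff, X.face_smul, KFA_mp_ne]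

/-- **KFB.** PROOF. Port of the corresponding parts of `CG2.exists_cellSys`. -/
theorem ori_free {K : Subgroup 𝒟.A} (hK : K ≤ K1) (γ : 𝒟.G) (b : PtK K) (R : Finset E)
    (hR : (X.P (outK b).2).Cell R) (hb : γ • b = b) (hf : Sel.mp (MulAction.toPerm γ) R = R) :
    γ = 1 := by
  obtain ⟨κ, hκ, h⟩ := KFA_out γ b
  rw [hb] at h
  have h2 : (outK b).2 = diag γ * (outK b).2 * κ := congrArg Prod.snd h
  refine X.free γ (outK b).2 κ⁻¹ (K1.inv_mem (hK hκ)) ?_ R hR hf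
  rw [eq_mul_inv_iff_mul_eq]
  exact h2.symm

/-- **KFC.** -/
theorem ori_alt {K : Subgroup 𝒟.A} (b : PtK K) :
    Sel.Altc (X.P (outK b).2).Cell (X.ori b) := by
  refine ⟨fun t ht => ?_, fun t π => ?_⟩
  · by_contra h
    exact ht (if_neg h)
  · have h1 : Sel.ctc (X.P (outK b).2).Cell (t ∘ π) ↔
        Sel.ctc (X.P (outK b).2).Cell t := by
      rw [Sel.ctc, Sel.ctc, Sel.im_perm, Sel.inj_perm]
    by_cases h : Sel.ctc (X.P (outK b).2).Cell t
    · have h2 : X.sdet (t ∘ π) = (Equiv.Perm.sign π : ℤ) * X.sdet t := by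
        rw [KFA_sdet X (outK b).2, KFA_sdet X (outK b).2, PolySys.sg, PolySys.sg,
          PolySys.dt_perm, sign_mul]
        rcases Int.units_eq_one_or (Equiv.Perm.sign π) with h | h <;> rw [h] <;> simp
      have e1 : X.ori b (t ∘ π) = ((X.sg (outK b).1 : ℤˣ) : ℤ) * X.sdet (t ∘ π) :=
        if_pos (h1.2 h)
      have e2 : X.ori b t = ((X.sg (outK b).1 : ℤˣ) : ℤ) * X.sdet t := if_pos h
      rw [e1, e2, h2, smul_eq_mul]
      ring
    · have e1 : X.ori b (t ∘ π) = 0 := if_neg fun h' => h (h1.1 h')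
      have e2 : X.ori b t = 0 := if_neg h
      rw [e1, e2, smul_zero]

/-- **KFD.** -/
theorem ori_unit {K : Subgroup 𝒟.A} (b : PtK K) (t : Fin (X.n0 + 1) → E)
    (ht : Sel.ctc (X.P (outK b).2).Cell t) : X.ori b t * X.ori b t = 1 := by
  have h1 : X.ori b t = ((X.sg (outK b).1 : ℤˣ) : ℤ) * X.sdet t := if_pos ht
  have h2 : X.sdet t * X.sdet t = 1 := by
    have h3 := PolySys.dt_ne (X.P (outK b).2) X.bas t ⟨ht.1, ht.2.1⟩
    rw [KFA_sdet X (outK b).2]
    rcases lt_or_gt_of_ne h3 with h | h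
    · simp [PolySys.sg, sign_neg h]
    · simp [PolySys.sg, sign_pos h]
  rw [h1]
  have h3 := KFA_sq (X.sg (outK b).1)
  linear_combination (((X.sg (outK b).1 : ℤˣ) : ℤ) * ((X.sg (outK b).1 : ℤˣ) : ℤ)) * h2 + h3

/-- **KFE.** -/
theorem ori_smul {K : Subgroup 𝒟.A} (hK : K ≤ K1) (γ : 𝒟.G) (b : PtK K)
    (t : Fin (X.n0 + 1) → E) : X.ori (γ • b) (fun i => γ • t i) = X.ori b t := by
  have h1 : Sel.ctc (X.P (outK (γ • b)).2).Cell (fun i => γ • t i) ↔
      Sel.ctc (X.P (outK b).2).Cell t := by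
    have h1 : (fun i => γ • t i) = (MulAction.toPerm γ : Equiv.Perm E) ∘ t := rfl
    rw [h1, Sel.ctc, Sel.ctc, Sel.comp_inj, Sel.im_comp, X.ori_eqv hK]
  by_cases h : Sel.ctc (X.P (outK b).2).Cell t
  · have h2 : X.ori b t = ((X.sg (outK b).1 : ℤˣ) : ℤ) * X.sdet t := if_pos h
    have h3 : X.ori (γ • b) (fun i => γ • t i) =
      ((X.sg (outK (γ • b)).1 : ℤˣ) : ℤ) * X.sdet (fun i => γ • t i) := if_pos (h1.2 h)
    rw [h2, h3]
    obtain ⟨κ, hκ, h4⟩ := KFA_out γ b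
    have h5 : (outK (γ • b)).1 = 𝒟.sgn γ * (outK b).1 := by rw [h4]; rfl
    rw [h5, map_mul]
    have h6 : X.sdet (fun i => γ • t i) * ((X.sg (𝒟.sgn γ) : ℤˣ) : ℤ) = X.sdet t := by
      rw [sdet, sdet, KFA_sign _ _ _ (X.act_det γ), KFA_det X γ t]
    rw [← h6]
    push_cast
    ring
  · have h2 : X.ori b t = 0 := if_neg h
    have h3 : X.ori (γ • b) (fun i => γ • t i) = 0 := if_neg fun h' => h (h1.1 h')
    rw [h2, h3]

/-- **KFF.** -/
theorem ori_cl {K : Subgroup 𝒟.A} (b : PtK K) (t : Fin X.n0 → E) :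
    Sel.dc (X.P (outK b).2).Cell (X.ori b) t = 0 := by
  unfold Sel.dc
  split_ifs with h
  · have h1 : ∀ ρ ∈ Sel.nb (X.P (outK b).2).Cell (Sel.im t),
        X.ori b (Fin.cons ρ t) = ((X.sg (outK b).1 : ℤˣ) : ℤ) *
          (X.P (outK b).2).sg X.bas (Fin.cons ρ t) := by
      intro ρ hρ
      rw [← KFA_sdet X (outK b).2]
      refine if_pos ?_
      have h2 : ((X.P (outK b).2).cx).ct t := by
        refine ⟨h.1, ?_⟩
        rw [PolySys.cx_cell]
        exact h.2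
      have h3 := (((X.P (outK b).2).cx).ct_cons h2 (ρ := ρ)).2
      rw [Sel.Cx.ct, PolySys.cx_cell] at h3
      apply h3
      exact hρ
    rw [Finset.sum_congr rfl h1, ← Finset.mul_sum, PolySys.sum_sg _ X.bas t h, mul_zero]
  · rfl

end PFam

end Pool.Agent.CGQ
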