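import Pool.Agent.CGQ.KYA

/-!
# A bound for the lattices which contain `1`
-/

noncomputable section

namespace Pool.Agent.CGQ

open NumberField IsDedekindDomain Pool.Agent.CG3
open Pool.Agent.CG2 (Pl Fv Ov PolySys)

variable {F : Type} [Field F] [NumberField F] {q : Qd F}

private theorem kna_co_sub (x y : DF q) (i : Fin 4) : co (x - y) i = co x i - co y i := by
  fin_cases i <;> rfl

private theorem kna_co_nat (N : ℕ) (x : DF q) (i : Fin 4) :
    co (((N : ℕ) : DF q) * x) i = ((N : ℕ) : F) * co x i := by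
  rw [← nsmul_eq_mul, ← nsmul_eq_mul]
  fin_cases i <;> rfl

/-- The standard order. -/
private theorem kna_one_int {y : DF q} (hy : y ∈ Lat (1 : (sysD q).A)) :
    ∃ r : Fin 4 → 𝓞 F, y = mkD q (fun i => ((r i : 𝓞 F) : F)) := by
  have h1 : ∀ i, ∃ a : 𝓞 F, ((a : 𝓞 F) : F) = co y i := by
    intro i
    have h2 : ∀ v : Pl F, v.valuation F (co y i) ≤ 1 := by
      intro v
      rw [← HeightOneSpectrum.adicCompletion.valued_coe]
      have h3 := (intQ_iff_co q v _).1 (hy v) i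
      have h4 : iq (1 : (sysD q).A) y v = dloc q v y := by
        rw [iq, gv_one, inv_one, Units.val_one, one_mul]
      rw [h4, co_dloc] at h3
      exact h3
    obtain ⟨a, ha⟩ := HeightOneSpectrum.mem_integers_of_valuation_le_one F _ h2
    exact ⟨a, ha⟩
  choose r hr using h1
  refine ⟨r, ?_⟩
  ext1
  · exact (hr 0).symm
  · exact (hr 1).symm
  · exact (hr 2).symm
  · exact (hr 3).symm

/-- **KNA.** PROOF. Let `o` be the standard order `{mkD r | r i in 𝓞 F}`; it is contained in `Lat g` since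
`1` is (`Lat_right`). By `lat_coc` for `g = 1` there are `R`, and for `x` in `Lat g`, `n : ℕ`, an element
`a_n` of `o` (`Lat 1 = o`) with `sz (n x - a_n) ≤ R` (in `D ⊗ ℝ`); `y_n = n x - a_n` is in `Lat g`. By
`q_psd_le` `P.q y h ≤ C₀ sz y (9 / 8)`, so `P.q y h < 1` if `sz y ≤ ε`, and then `y = 0` for `y` in
`Lat g`. `exists_close` gives `B` (independent of `g`) and `i < j ≤ B` with `y_i = y_j`, i.e. `(j - i) x` in
`o`. Take `M = B!`. -/
theorem one_bound (hD : IsDiv q) : ∃ M : ℕ, 0 < M ∧ ∀ g : (sysD q).A,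
    (∃ h : (PAI q).V, (∀ e ∈ LatE g, 1 ≤ qe q e h) ∧ qe q 1 h ≤ 9 / 8) → (1 : DF q) ∈ Lat g →
    ∀ x ∈ Lat g, ∀ i, ∃ a : 𝓞 F, ((M : ℕ) : F) * co x i = a := by
  obtain ⟨R, hR⟩ := (isLat (1 : (sysD q).A)).coc
  obtain ⟨C, hC0, hC⟩ := (PAI q).q_psd_le
  obtain ⟨B, hB⟩ := (PAI q).exists_close R (1 / (2 * (C * (9 / 8) + 1))) (by positivity)
  refine ⟨B.factorial, Nat.factorial_pos B, ?_⟩
  rintro g ⟨h, hh, h1h⟩ h1 x hx i
  have hpsd := (ks_pd g hD h hh).psd
  have hq1 : (PAI q).q 1 h ≤ 9 / 8 := by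
    have h2 : theta q (uK (1 : (sysD q).G)).1 = 1 := by
      have h3 : (uK (1 : (sysD q).G)).1 = 1 := rfl
      rw [h3, map_one]
    rw [qe, h2] at h1h
    exact h1h
  have hsub : ∀ y ∈ Lat (1 : (sysD q).A), y ∈ Lat g := by
    intro y hy
    obtain ⟨r, rfl⟩ := kna_one_int hy
    have h2 := Lat_right g h1 r
    rwa [one_mul] at h2
  choose z hzL hz using fun n : ℕ => hR (((n : ℕ) : AInf q) * theta q x)
  choose a haL ha using fun n : ℕ => mem_LatI.1 (hzL n)
  obtain ⟨m, n, hmn, hnB, hclose⟩ := hB (fun n => ((n : ℕ) : AInf q) * theta q x - z n)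
    (fun n _ => hz n)
  -- the difference
  have hy : ((n : ℕ) : AInf q) * theta q x - z n - (((m : ℕ) : AInf q) * theta q x - z m)
      = theta q (((n - m : ℕ) : DF q) * x - (a n - a m)) := by
    rw [map_sub, map_mul, map_natCast, map_sub, ha, ha, Nat.cast_sub hmn.le, sub_mul]
    abel
  have hyL : ((n - m : ℕ) : DF q) * x - (a n - a m) ∈ Lat g := by
    refine (Lat g).sub_mem ?_ ((Lat g).sub_mem (hsub _ (haL n)) (hsub _ (haL m)))
    rw [← nsmul_eq_mul]
    exact (Lat g).nsmul_mem hx _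
  have hy0 : ((n - m : ℕ) : DF q) * x - (a n - a m) = 0 := by
    by_contra hne
    have hu := hD _ hne
    have he := hh (hu.unit : (DF q)ˣ) (by
      change (uK (hu.unit : (DF q)ˣ)).1 ∈ Lat g
      exact hyL)
    have h2 : qe q (hu.unit : (DF q)ˣ) h
        = (PAI q).q (theta q (((n - m : ℕ) : DF q) * x - (a n - a m))) h := rfl
    rw [h2, ← hy] at he
    have h3 := hC h hpsd (((n : ℕ) : AInf q) * theta q x - z n
      - (((m : ℕ) : AInf q) * theta q x - z m))
    have h4 := (PAI q).sz_nonneg (((n : ℕ) : AInf q) * theta q x - z n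
      - (((m : ℕ) : AInf q) * theta q x - z m))
    have h5 : C * (PAI q).sz (((n : ℕ) : AInf q) * theta q x - z n
        - (((m : ℕ) : AInf q) * theta q x - z m)) * (PAI q).q 1 h
        ≤ C * (1 / (2 * (C * (9 / 8) + 1))) * (9 / 8) := by
      have h6 : C * (PAI q).sz (((n : ℕ) : AInf q) * theta q x - z n
        - (((m : ℕ) : AInf q) * theta q x - z m)) ≤ C * (1 / (2 * (C * (9 / 8) + 1))) :=
        mul_le_mul_of_nonneg_left hclose hC0
      exact mul_le_mul h6 hq1 (hpsd 1) (by positivity)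
    have h6 : C * (1 / (2 * (C * (9 / 8) + 1))) * (9 / 8) < 1 := by
      have h7 : C * (1 / (2 * (C * (9 / 8) + 1))) * (9 / 8)
          = (C * (9 / 8)) / (2 * (C * (9 / 8) + 1)) := by ring
      rw [h7, div_lt_one (by positivity)]
      have : 0 ≤ C * (9 / 8) := by positivity
      linarith
    linarith
  -- integrality
  have hint : ∃ b : 𝓞 F, ((n - m : ℕ) : F) * co x i = b := by
    obtain ⟨r, hr⟩ := kna_one_int (haL n)
    obtain ⟨s, hs⟩ := kna_one_int (haL m)
    refine ⟨r i - s i, ?_⟩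
    have h2 : ((n - m : ℕ) : DF q) * x = a n - a m := sub_eq_zero.1 hy0
    have h3 : co (((n - m : ℕ) : DF q) * x) i = co (a n - a m) i := by rw [h2]
    rw [kna_co_nat, kna_co_sub, hr, hs, co_mkD, co_mkD] at h3
    rw [h3]
    rfl
  obtain ⟨b, hb⟩ := hint
  have hdvd : (n - m) ∣ B.factorial := Nat.dvd_factorial (by omega) (by omega)
  obtain ⟨k, hk⟩ := hdvd
  refine ⟨(k : 𝓞 F) * b, ?_⟩
  have h3 : (((k : 𝓞 F) : 𝓞 F) : F) = (k : F) := map_natCast (algebraMap (𝓞 F) F) k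
  have h2 : (((k : 𝓞 F) * b : 𝓞 F) : F) = (k : F) * (b : F) := by
    rw [← h3]
    rfl
  rw [hk, h2, ← hb, Nat.cast_mul]
  ring

end Pool.Agent.CGQ
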