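import Pool.Agent.CGQ.KNB

/-!
# Approximation
-/

noncomputable section

namespace Pool.Agent.CGQ

open NumberField IsDedekindDomain
open Pool.Agent.CG2 (Pl Fv Ov)

variable {F : Type} [Field F] [NumberField F] {q : Qd F}

private theorem knd_co_nat {R : Type} [CommRing R] {a b : R} (N : ℕ)
    (x : QuaternionAlgebra R a 0 b) (i : Fin 4) :
    co (((N : ℕ) : QuaternionAlgebra R a 0 b) * x) i = ((N : ℕ) : R) * co x i := by
  rw [← nsmul_eq_mul, ← nsmul_eq_mul]
  fin_cases i <;> rfl

private theorem knd_co_sub {v : Pl F} (x y : DV q v) (i : Fin 4) :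
    co (x - y) i = co x i - co y i := by
  fin_cases i <;> rfl

/-- **KND.** PROOF. Port of `CG2.KoeFin_local`: `g_v⁻¹ = iq g 1 v` is integral for all `v`; approximate
the coordinates of `g_v` by elements of `F` which are integral outside of `v` (`CG2.exists_sub_lt`,
`CG2.approx`), giving `x` in `Lat g` close to `g_v`. -/
theorem DMq_local (g : (sysD q).A) (M : ℕ) (h1 : (1 : DF q) ∈ Lat g)
    (hM : ∀ x ∈ Lat g, ∀ i, ∃ a : 𝓞 F, ((M : ℕ) : F) * co x i = a) (v : Pl F) :
    gv g v ∈ DMq q M v := by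
  classical
  -- the inverse is integral
  have hinv : ∀ w : Pl F, IntQ q w ((gv g w)⁻¹ : (DV q w)ˣ).1 := by
    intro w
    have h2 := h1 w
    rwa [iq, map_one, mul_one] at h2
  -- approximation of the coordinates
  have happ : ∀ i : Fin 4, ∃ y : F,
      Valued.v (((y : F) : Fv v) - co (gv g v).1 i) ≤ 1 ∧
      ∀ w, w ≠ v → Valued.v ((y : F) : Fv w) ≤ 1 := by
    intro i
    obtain ⟨a, ha⟩ := CG2.exists_sub_lt v (co (gv g v).1 i) 1 one_ne_zero
    obtain ⟨y, hy1, hy2⟩ := CG2.approx {v} (fun _ => a) (fun _ => 0)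
    refine ⟨y, ?_, fun w hw => ?_⟩
    · have h1 := hy1 v (Finset.mem_singleton_self v)
      rw [CG2.Ge, neg_zero, WithZero.exp_zero,
        ← HeightOneSpectrum.adicCompletion.valued_coe] at h1
      have h2 : (((y - a : F)) : Fv v) = ((y : F) : Fv v) - ((a : F) : Fv v) :=
        map_sub (algebraMap F (Fv v)) y a
      rw [h2] at h1
      have h3 : ((y : F) : Fv v) - co (gv g v).1 i =
          (((y : F) : Fv v) - ((a : F) : Fv v)) - (co (gv g v).1 i - ((a : F) : Fv v)) := by ring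
      rw [h3]
      exact (Valuation.map_sub _ _ _).trans (max_le h1 ha.le)
    · have h1 := hy2 w (by rwa [Finset.mem_singleton])
      rw [CG2.Ge, neg_zero, WithZero.exp_zero] at h1
      rw [HeightOneSpectrum.adicCompletion.valued_coe]
      exact h1
  choose y hy1 hy2 using happ
  have hd : IntQ q v (dloc q v (mkD q y) - (gv g v).1) := by
    refine (intQ_iff_co q v _).2 fun i => ?_
    rw [knd_co_sub, co_dloc, co_mkD]
    exact hy1 i
  have hyL : mkD q y ∈ Lat g := by
    intro w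
    by_cases hw : w = v
    · subst hw
      have h2 : iq g (mkD q y) w = ((gv g w)⁻¹ : (DV q w)ˣ).1 *
          (dloc q w (mkD q y) - (gv g w).1) + 1 := by
        rw [iq, mul_sub, Units.inv_mul, sub_add_cancel]
      rw [h2]
      exact intQ_add (intQ_mul (hinv w) hd) ((intQ_iff q w 1).2 ⟨1, map_one _⟩)
    · refine intQ_mul (hinv w) ((intQ_iff_co q w _).2 fun i => ?_)
      rw [co_dloc, co_mkD]
      exact hy2 i w hw
  refine ⟨(intQ_iff_co q v _).2 fun i => ?_, hinv v⟩
  obtain ⟨a, ha⟩ := hM _ hyL i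
  rw [co_mkD] at ha
  have h2 := congrArg (algebraMap F (Fv v)) ha
  rw [map_mul, map_natCast] at h2
  have h3 : (((a : 𝓞 F) : F) : Fv v) = ((M : ℕ) : Fv v) * ((y i : F) : Fv v) := h2.symm
  have h4 : ((M : ℕ) : Fv v) * co (gv g v).1 i =
      (((a : 𝓞 F) : F) : Fv v) - ((M : ℕ) : Fv v) *
        (((y i : F) : Fv v) - co (gv g v).1 i) := by
    rw [h3]
    ring
  rw [knd_co_nat, h4]
  refine (Valuation.map_sub _ _ _).trans (max_le (CG2.KoeLat_val_coe_le v a) ?_)
  rw [map_mul]
  exact mul_le_one' (CG2.KoeLat_val_natCast_le v M) (hy1 i)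

end Pool.Agent.CGQ
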