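import Pool.Agent.CGQ.KPA
import Pool.Agent.CGQ.DDefs

/-!
# The real algebra attached to `D` and its positive involution
-/

noncomputable section

namespace Pool.Agent.CGQ

open NumberField IsDedekindDomain

variable {F : Type} [Field F] [NumberField F]

/-- The real algebra `F ⊗ ℝ`. -/
abbrev Rinf (F : Type) [Field F] [NumberField F] : Type := mixedEmbedding.mixedSpace F

/-- The signs of `c` at the real places. -/
def epsR (c : F) : Rinf F :=
  (fun w => if InfinitePlace.embedding_of_isReal w.2 c < 0 then -1 else 1, fun _ => 1)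

theorem epsR_mul_self (c : F) : epsR c * epsR c = 1 := by
  refine Prod.ext (funext fun w => ?_) (funext fun w => ?_)
  · change (if _ then (-1 : ℝ) else 1) * (if _ then (-1 : ℝ) else 1) = 1
    split_ifs <;> norm_num
  · change (1 : ℂ) * 1 = 1
    norm_num

theorem star_epsR (c : F) : star (epsR c) = epsR c := by
  refine Prod.ext (funext fun w => ?_) (funext fun w => ?_)
  · rfl
  · change star (1 : ℂ) = 1
    simp

/-- `c` is a square up to its signs. -/
theorem exists_rtR (c : F) : ∃ α : Rinf F, epsR c * (α * α) = mixedEmbedding F c := by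
  choose g hg using fun w : {w : InfinitePlace F // w.IsComplex} =>
    IsAlgClosed.exists_pow_nat_eq (w.1.embedding c) (n := 2) (by norm_num)
  refine ⟨(fun w => Real.sqrt |InfinitePlace.embedding_of_isReal w.2 c|, g),
    Prod.ext (funext fun w => ?_) (funext fun w => ?_)⟩
  · change (if _ then (-1 : ℝ) else 1) * (Real.sqrt _ * Real.sqrt _) =
      InfinitePlace.embedding_of_isReal w.2 c
    rw [Real.mul_self_sqrt (abs_nonneg _)]
    split_ifs with h
    · rw [abs_of_neg h]
      ring
    · rw [abs_of_nonneg (not_lt.1 h)]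
      ring
  · change (1 : ℂ) * (g w * g w) = w.1.embedding c
    rw [← hg w]
    ring

/-- A square root of `c` up to its signs. -/
def rtR (c : F) : Rinf F := (exists_rtR c).choose

theorem rtR_spec (c : F) : epsR c * (rtR c * rtR c) = mixedEmbedding F c :=
  (exists_rtR c).choose_spec

/-- The real algebra `D ⊗ ℝ`, in normal form. -/
abbrev AInf (q : Qd F) : Type := QuaternionAlgebra (Rinf F) (epsR (q.a : F)) 0 (epsR (q.b : F))

/-- The embedding of `D` in `D ⊗ ℝ`. -/
def theta (q : Qd F) : DF q →+* AInf q where
  toFun x := ⟨mixedEmbedding F x.re, rtR (q.a : F) * mixedEmbedding F x.imI,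
    rtR (q.b : F) * mixedEmbedding F x.imJ,
    rtR (q.a : F) * rtR (q.b : F) * mixedEmbedding F x.imK⟩
  map_one' := by ext1 <;> simp
  map_zero' := by ext1 <;> simp
  map_add' x y := by
    ext1
    · exact map_add (mixedEmbedding F) _ _
    · change _ * mixedEmbedding F (x.imI + y.imI) = _ * _ + _ * _
      rw [map_add]; ring
    · change _ * mixedEmbedding F (x.imJ + y.imJ) = _ * _ + _ * _
      rw [map_add]; ring
    · change _ * mixedEmbedding F (x.imK + y.imK) = _ * _ + _ * _
      rw [map_add]; ring
  map_mul' x y := by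
    have ha := rtR_spec (q.a : F)
    have hb := rtR_spec (q.b : F)
    ext1
    · simp only [QuaternionAlgebra.re_mul, map_add, map_sub, map_mul, zero_mul, add_zero]
      linear_combination (-(mixedEmbedding F x.imI * mixedEmbedding F y.imI)) * ha -
        (mixedEmbedding F x.imJ * mixedEmbedding F y.imJ) * hb +
        (mixedEmbedding F x.imK * mixedEmbedding F y.imK) *
          (epsR (q.a : F) * (rtR (q.a : F) * rtR (q.a : F)) * hb + mixedEmbedding F (q.b : F) * ha)
    · simp only [QuaternionAlgebra.imI_mul, map_add, map_sub, map_mul, zero_mul, add_zero]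
      linear_combination (rtR (q.a : F) *
        (mixedEmbedding F x.imJ * mixedEmbedding F y.imK -
          mixedEmbedding F x.imK * mixedEmbedding F y.imJ)) * hb
    · simp only [QuaternionAlgebra.imJ_mul, map_add, map_sub, map_mul, zero_mul, add_zero]
      linear_combination (rtR (q.b : F) *
        (mixedEmbedding F x.imK * mixedEmbedding F y.imI -
          mixedEmbedding F x.imI * mixedEmbedding F y.imK)) * ha
    · simp only [QuaternionAlgebra.imK_mul, map_add, map_sub, map_mul, zero_mul, add_zero]
      ring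

open Classical in
/-- The trace of `F ⊗ ℝ`. -/
def trR (F : Type) [Field F] [NumberField F] : Rinf F →ₗ[ℝ] ℝ where
  toFun r := ∑ w, r.1 w + ∑ w, (r.2 w).re
  map_add' a b := by
    simp only [Prod.fst_add, Prod.snd_add, Pi.add_apply, Complex.add_re, Finset.sum_add_distrib]
    ring
  map_smul' c a := by
    simp only [Prod.smul_fst, Prod.smul_snd, Pi.smul_apply, Complex.real_smul,
      Complex.re_ofReal_mul, RingHom.id_apply, smul_eq_mul, ← Finset.mul_sum]
    ring

/-- The involution of `D ⊗ ℝ`. -/
def invI (q : Qd F) : AInf q →ₗ[ℝ] AInf q where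
  toFun x := ⟨star x.re, epsR (q.a : F) * star x.imI, epsR (q.b : F) * star x.imJ,
    -(epsR (q.a : F) * epsR (q.b : F) * star x.imK)⟩
  map_add' x y := by
    ext1 <;> simp <;> ring
  map_smul' c x := by
    ext1 <;> simp

@[simp] theorem invI_re (q : Qd F) (x : AInf q) : (invI q x).re = star x.re := rfl
@[simp] theorem invI_imI (q : Qd F) (x : AInf q) :
    (invI q x).imI = epsR (q.a : F) * star x.imI := rfl
@[simp] theorem invI_imJ (q : Qd F) (x : AInf q) :
    (invI q x).imJ = epsR (q.b : F) * star x.imJ := rfl
@[simp] theorem invI_imK (q : Qd F) (x : AInf q) :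
    (invI q x).imK = -(epsR (q.a : F) * epsR (q.b : F) * star x.imK) := rfl

theorem invI_mul (q : Qd F) (x y : AInf q) : invI q (x * y) = invI q y * invI q x := by
  have ha := epsR_mul_self (q.a : F)
  have hb := epsR_mul_self (q.b : F)
  have hc := star_epsR (q.a : F)
  have hd := star_epsR (q.b : F)
  ext1
  · simp only [invI_re, invI_imI, invI_imJ, invI_imK, QuaternionAlgebra.re_mul, star_add, star_sub,
      star_mul', hc, hd, zero_mul, add_zero]
    linear_combination (-(epsR (q.a : F) * star x.imI * star y.imI)) * ha -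
      (epsR (q.b : F) * star x.imJ * star y.imJ) * hb +
      (epsR (q.a : F) * epsR (q.b : F) * star x.imK * star y.imK) *
        (epsR (q.a : F) * epsR (q.a : F) * hb + ha)
  · simp only [invI_re, invI_imI, invI_imJ, invI_imK, QuaternionAlgebra.imI_mul, star_add,
      star_sub, star_mul', hd, zero_mul, add_zero]
    linear_combination (epsR (q.a : F) * epsR (q.b : F) *
      (star x.imJ * star y.imK - star x.imK * star y.imJ)) * hb
  · simp only [invI_re, invI_imI, invI_imJ, invI_imK, QuaternionAlgebra.imJ_mul, star_add,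
      star_sub, star_mul', hc, zero_mul, add_zero]
    linear_combination (-(epsR (q.a : F) * epsR (q.b : F) *
      (star x.imI * star y.imK - star x.imK * star y.imI))) * ha
  · simp only [invI_re, invI_imI, invI_imJ, invI_imK, QuaternionAlgebra.imK_mul, star_add,
      star_sub, star_mul', zero_mul, add_zero]
    ring

theorem invI_invI (q : Qd F) (x : AInf q) : invI q (invI q x) = x := by
  have ha := epsR_mul_self (q.a : F)
  have hb := epsR_mul_self (q.b : F)
  have hc := star_epsR (q.a : F)
  have hd := star_epsR (q.b : F)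
  ext1
  · simp only [invI_re, star_star]
  · simp only [invI_imI, star_mul', star_star, hc]
    linear_combination x.imI * ha
  · simp only [invI_imJ, star_mul', star_star, hd]
    linear_combination x.imJ * hb
  · simp only [invI_imK, star_neg, star_mul', star_star, hc, hd]
    linear_combination (x.imK * (epsR (q.a : F) * epsR (q.a : F))) * hb + x.imK * ha

/-- The trace of `D ⊗ ℝ`. -/
def tauI (q : Qd F) : AInf q →ₗ[ℝ] ℝ where
  toFun x := trR F x.re
  map_add' x y := map_add (trR F) x.re y.re
  map_smul' c x := map_smul (trR F) c x.re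

theorem tauI_apply (q : Qd F) (x : AInf q) : tauI q x = trR F x.re := rfl

theorem tauI_comm (q : Qd F) (x y : AInf q) : tauI q (x * y) = tauI q (y * x) := by
  rw [tauI_apply, tauI_apply]
  congr 1
  simp only [QuaternionAlgebra.re_mul]
  ring

theorem trR_star (r : Rinf F) : trR F (star r) = trR F r := by
  classical
  change ∑ w, star (r.1 w) + ∑ w, (star (r.2 w)).re = ∑ w, r.1 w + ∑ w, (r.2 w).re
  congr 1

theorem tauI_inv (q : Qd F) (x : AInf q) : tauI q (invI q x) = tauI q x := by
  rw [tauI_apply, tauI_apply, invI_re, trR_star]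

/-- The sum of the squares of the absolute values of the coordinates. -/
theorem tauI_sz (q : Qd F) (x : AInf q) : tauI q (x * invI q x) =
    trR F (x.re * star x.re + x.imI * star x.imI + x.imJ * star x.imJ + x.imK * star x.imK) := by
  have ha := epsR_mul_self (q.a : F)
  have hb := epsR_mul_self (q.b : F)
  rw [tauI_apply]
  congr 1
  simp only [QuaternionAlgebra.re_mul, invI_re, invI_imI, invI_imJ, invI_imK]
  linear_combination (x.imI * star x.imI) * ha + (x.imJ * star x.imJ) * hb +
    (x.imK * star x.imK) * (epsR (q.a : F) * epsR (q.a : F) * hb + ha)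

theorem trR_mul_star (r : Rinf F) : 0 ≤ trR F (r * star r) ∧ (trR F (r * star r) = 0 → r = 0) := by
  classical
  have h1 : trR F (r * star r) = ∑ w, r.1 w * r.1 w + ∑ w, Complex.normSq (r.2 w) := by
    change ∑ w, r.1 w * star (r.1 w) + ∑ w, (r.2 w * star (r.2 w)).re = _
    congr 1
    refine Finset.sum_congr rfl fun w _ => ?_
    rw [Complex.star_def, Complex.mul_conj, Complex.ofReal_re]
  have h2 : 0 ≤ ∑ w, r.1 w * r.1 w := Finset.sum_nonneg fun w _ => mul_self_nonneg _
  have h3 : 0 ≤ ∑ w, Complex.normSq (r.2 w) := Finset.sum_nonneg fun w _ => Complex.normSq_nonneg _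
  rw [h1]
  refine ⟨add_nonneg h2 h3, fun h => ?_⟩
  have h4 := (add_eq_zero_iff_of_nonneg h2 h3).1 h
  refine Prod.ext (funext fun w => ?_) (funext fun w => ?_)
  · have h5 := (Finset.sum_eq_zero_iff_of_nonneg fun w _ => mul_self_nonneg _).1 h4.1 w
      (Finset.mem_univ w)
    exact mul_self_eq_zero.1 h5
  · have h5 := (Finset.sum_eq_zero_iff_of_nonneg fun w _ => Complex.normSq_nonneg _).1 h4.2 w
      (Finset.mem_univ w)
    exact Complex.normSq_eq_zero.1 h5

theorem tauI_pos (q : Qd F) (x : AInf q) (hx : x ≠ 0) : 0 < tauI q (x * invI q x) := by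
  obtain ⟨a1, a2⟩ := trR_mul_star x.re
  obtain ⟨b1, b2⟩ := trR_mul_star x.imI
  obtain ⟨c1, c2⟩ := trR_mul_star x.imJ
  obtain ⟨d1, d2⟩ := trR_mul_star x.imK
  rw [tauI_sz, map_add, map_add, map_add]
  refine lt_of_le_of_ne (by positivity) fun h => hx ?_
  ext1
  · exact a2 (by linarith)
  · exact b2 (by linarith)
  · exact c2 (by linarith)
  · exact d2 (by linarith)

/-- The positive involution of `D ⊗ ℝ`. -/
def PAI (q : Qd F) : PA (AInf q) where
  inv := invI q
  inv_mul := invI_mul q
  inv_inv := invI_invI q
  tau := tauI q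
  tau_comm := tauI_comm q
  tau_inv := tauI_inv q
  tau_pos := tauI_pos q

instance (q : Qd F) : FiniteDimensional ℝ (AInf q) :=
  Module.Finite.trans (Rinf F) (AInf q)

theorem isUnit_rtR {c : F} (hc : c ≠ 0) : IsUnit (rtR c) := by
  have h1 : IsUnit (mixedEmbedding F c) := (isUnit_iff_ne_zero.2 hc).map (mixedEmbedding F)
  rw [← rtR_spec c] at h1
  exact isUnit_of_mul_isUnit_left (isUnit_of_mul_isUnit_right h1)

theorem theta_inj (q : Qd F) : Function.Injective (theta q) := by
  have ha : (q.a : F) ≠ 0 := fun h => q.a_ne (by exact_mod_cast h)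
  have hb : (q.b : F) ≠ 0 := fun h => q.b_ne (by exact_mod_cast h)
  have hua := isUnit_rtR ha
  have hub := isUnit_rtR hb
  have hinj := mixedEmbedding_injective F
  intro x y h
  ext1
  · exact hinj (congrArg QuaternionAlgebra.re h)
  · exact hinj (hua.mul_left_cancel (congrArg QuaternionAlgebra.imI h))
  · exact hinj (hub.mul_left_cancel (congrArg QuaternionAlgebra.imJ h))
  · exact hinj ((hua.mul hub).mul_left_cancel (congrArg QuaternionAlgebra.imK h))

/-- The action of `D^×`. -/
def thU (q : Qd F) : (DF q)ˣ →* (AInf q)ˣ := Units.map (theta q : DF q →* AInf q)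

end Pool.Agent.CGQ
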