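import Pool.Agent.CGQ.KLat
import Pool.Agent.CGQ.SysOC

/-!
# The principal congruence subgroups
-/

noncomputable section

namespace Pool.Agent.CGQ

open NumberField IsDedekindDomain
open Pool.Agent.CG2 (Pl Fv Ov)

variable {F : Type} [Field F] [NumberField F] {q : Qd F}

/-- The local component of `KNq`. -/
private def KLI_U (q : Qd F) (N : ℕ) (v : Pl F) : Subgroup (DV q v)ˣ where
  carrier := {k | k ∈ BZ q v ∧ DivQ q N v (k.1 - 1)}
  mul_mem' := by
    intro a b ha hb
    refine ⟨(BZ q v).mul_mem ha.1 hb.1, ?_⟩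
    have h : (a * b).1 - 1 = a.1 * (b.1 - 1) + (a.1 - 1) := by
      rw [Units.val_mul, mul_sub, mul_one]
      abel
    rw [h]
    exact divQ_add (divQ_mul_left ((mem_BZ_iff q v _).1 ha.1).1 hb.2) ha.2
  one_mem' := by
    refine ⟨(BZ q v).one_mem, ?_⟩
    rw [Units.val_one, sub_self]
    exact divQ_zero
  inv_mem' := by
    intro a ha
    refine ⟨(BZ q v).inv_mem ha.1, ?_⟩
    have h : (a⁻¹).1 - 1 = (a⁻¹ : (DV q v)ˣ).1 * (-(a.1 - 1)) := by
      rw [neg_sub, mul_sub, mul_one, Units.inv_mul]
    rw [h]
    exact divQ_mul_left ((mem_BZ_iff q v _).1 ha.1).2 (divQ_neg ha.2)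

/-- **KLI.** PROOF. Port of `CG2.oc_KN` (file `Iface`?); `B = BZ` is compact, `KNq` is open:
`U v = {g in BZ, g - 1 divisible by N}` equals `BZ q v` for almost all `v` (`CG2.KoeCls_fin`). -/
theorem oc_KNq (N : ℕ) (hN : N ≠ 0) : OC (KNq q N) := by
  constructor
  · refine ⟨KLI_U q N, ?_, ?_, ?_⟩
    · intro v
      have hb : IsOpen {x : Fv v | Valued.v x ≤ Valued.v ((N : ℕ) : Fv v)} :=
        CG2.isOpen_val_le v _ (CG2.KoeLat_val_natCast_ne v hN)
      have hU : (KLI_U q N v : Set (DV q v)ˣ) = (BZ q v : Set (DV q v)ˣ) ∩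
          ((fun g : (DV q v)ˣ => g.1.re - 1) ⁻¹' {x | Valued.v x ≤ Valued.v ((N : ℕ) : Fv v)} ∩
          ((fun g : (DV q v)ˣ => g.1.imI) ⁻¹' {x | Valued.v x ≤ Valued.v ((N : ℕ) : Fv v)} ∩
          ((fun g : (DV q v)ˣ => g.1.imJ) ⁻¹' {x | Valued.v x ≤ Valued.v ((N : ℕ) : Fv v)} ∩
          (fun g : (DV q v)ˣ => g.1.imK) ⁻¹' {x | Valued.v x ≤ Valued.v ((N : ℕ) : Fv v)}))) := by
        ext g
        have e1 : ((g.1 - 1 : DV q v)).re = g.1.re - 1 := by simp
        have e2 : ((g.1 - 1 : DV q v)).imI = g.1.imI := by simp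
        have e3 : ((g.1 - 1 : DV q v)).imJ = g.1.imJ := by simp
        have e4 : ((g.1 - 1 : DV q v)).imK = g.1.imK := by simp
        constructor
        · rintro ⟨h1, h2⟩
          have h20 := h2 0
          have h21 := h2 1
          have h22 := h2 2
          have h23 := h2 3
          rw [co_zero, e1] at h20
          rw [co_one, e2] at h21
          rw [co_two, e3] at h22
          rw [co_three, e4] at h23
          exact ⟨h1, h20, h21, h22, h23⟩
        · rintro ⟨h1, h20, h21, h22, h23⟩
          refine ⟨h1, fun i => ?_⟩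
          fin_cases i
          · change Valued.v ((g.1 - 1 : DV q v)).re ≤ _
            rw [e1]
            exact h20
          · change Valued.v ((g.1 - 1 : DV q v)).imI ≤ _
            rw [e2]
            exact h21
          · change Valued.v ((g.1 - 1 : DV q v)).imJ ≤ _
            rw [e3]
            exact h22
          · change Valued.v ((g.1 - 1 : DV q v)).imK ≤ _
            rw [e4]
            exact h23
      have hop : IsOpen (KLI_U q N v : Set (DV q v)ˣ) := by
        rw [hU]
        exact (isOpen_BZ q v).inter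
          ((hb.preimage ((continuous_re.comp Units.continuous_val).sub continuous_const)).inter
          ((hb.preimage (continuous_imI.comp Units.continuous_val)).inter
          ((hb.preimage (continuous_imJ.comp Units.continuous_val)).inter
          (hb.preimage (continuous_imK.comp Units.continuous_val)))))
      exact hop
    · refine (CG2.KoeCls_fin F N hN).subset ?_
      intro v hv h1
      apply hv
      intro g hg
      refine ⟨hg, fun i => ?_⟩
      rw [h1]
      have hg1 : IntQ q v (g.1 - 1) := by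
        rw [sub_eq_add_neg]
        refine intQ_add ((mem_BZ_iff q v _).1 hg).1 (intQ_neg ?_)
        have h2 := ((mem_BZ_iff q v _).1 (BZ q v).one_mem).1
        rwa [Units.val_one] at h2
      exact (intQ_iff_co q v _).1 hg1 i
    · intro k hk v
      exact hk v
  · refine ⟨fun v => (BZ q v : Set (DV q v)ˣ), fun v => isCompact_BZ q v, ?_, ?_⟩
    · refine Set.finite_empty.subset ?_
      intro v hv
      exact hv (Set.Subset.refl _)
    · intro k hk v
      exact (hk v).1

end Pool.Agent.CGQ
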