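import Pool.Agent.CGQ.KLL

/-!
# Lattices are cocompact
-/

noncomputable section

namespace Pool.Agent.CGQ

open NumberField IsDedekindDomain
open Pool.Agent.CG2 (Pl Fv Ov)

variable {F : Type} [Field F] [NumberField F] {q : Qd F}

open Classical in
private theorem KLM_near (F : Type) [Field F] [NumberField F] : ∃ R : ℝ, 0 ≤ R ∧
    ∀ m : Rinf F, ∃ a : 𝓞 F, ‖m - mixedEmbedding F (a : F)‖ ≤ R := by
  classical
  let b := mixedEmbedding.latticeBasis F
  refine ⟨∑ i, ‖b i‖, Finset.sum_nonneg fun _ _ => norm_nonneg _, fun m => ?_⟩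
  have h1 := ZSpan.norm_fract_le b m
  have h2 : ((ZSpan.floor b m : Submodule.span ℤ (Set.range b)) : mixedEmbedding.mixedSpace F) ∈
      mixedEmbedding.integerLattice F :=
    (mixedEmbedding.mem_span_latticeBasis F).1 (ZSpan.floor b m).2
  obtain ⟨a, ha⟩ := h2
  have ha' : mixedEmbedding F (a : F) =
      ((ZSpan.floor b m : Submodule.span ℤ (Set.range b)) : mixedEmbedding.mixedSpace F) := ha
  refine ⟨a, ?_⟩
  rwa [ZSpan.fract_apply, ← ha'] at h1

/-- **KLM.** PROOF. As `CG2.Lat_cocompact`, `CG2.KoeLat_cocompact` (the lattice `𝓞 F` is cocompact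
in the space of the coordinates; use `ZSpan` and `mixedEmbedding.latticeBasis` directly in
`Rinf F`). The coordinates of `z` divided by `rtR a`, `rtR b`, `rtR a * rtR b` and `N` are close to integers. -/
theorem lat_coc (g : (sysD q).A) : ∃ R : ℝ, ∀ z : AInf q, ∃ x ∈ LatI g,
    (PAI q).sz (z - x) ≤ R := by
  classical
  obtain ⟨N, hN, h1, -⟩ := Lat_bounds g
  obtain ⟨R, hR0, hR⟩ := KLM_near F
  obtain ⟨n, hn0, hn⟩ := KLL_tr_norm F
  have hN' : (0 : ℝ) < N := Nat.cast_pos.2 hN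
  refine ⟨∑ i : Fin 4, n * (‖(KLL_s q i : Rinf F)‖ * (N * R)) ^ 2, fun z => ?_⟩
  have key : ∀ i : Fin 4, ∃ a : 𝓞 F,
      ‖co z i - KLL_s q i * mixedEmbedding F (((N : ℕ) : F) * (a : F))‖ ≤
        ‖(KLL_s q i : Rinf F)‖ * (N * R) := by
    intro i
    obtain ⟨u, hu⟩ := KLL_s_unit q i
    obtain ⟨a, ha⟩ := hR ((N : ℝ)⁻¹ • ((u⁻¹ : (Rinf F)ˣ).1 * co z i))
    refine ⟨a, ?_⟩
    have h2 : co z i - KLL_s q i * mixedEmbedding F (((N : ℕ) : F) * (a : F)) =
        KLL_s q i * ((N : ℝ) • ((N : ℝ)⁻¹ • ((u⁻¹ : (Rinf F)ˣ).1 * co z i) -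
          mixedEmbedding F (a : F))) := by
      rw [smul_sub, smul_smul, mul_inv_cancel₀ hN'.ne', one_smul, mul_sub, ← hu, ← mul_assoc,
        Units.mul_inv, one_mul, map_mul, map_natCast]
      congr 2
    rw [h2]
    refine (norm_mul_le _ _).trans (mul_le_mul_of_nonneg_left ?_ (norm_nonneg _))
    rw [norm_smul, Real.norm_natCast]
    exact mul_le_mul_of_nonneg_left ha hN'.le
  choose a ha using key
  refine ⟨_, ⟨_, h1 a, rfl⟩, ?_⟩
  rw [KLL_sz]
  refine Finset.sum_le_sum fun i _ => ?_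
  refine (hn _).trans (mul_le_mul_of_nonneg_left ?_ hn0)
  refine pow_le_pow_left₀ (norm_nonneg _) ?_ 2
  have h3 : co (z - (theta q).toAddMonoidHom (((N : ℕ) : DF q) *
      mkD q (fun i => ((a i : 𝓞 F) : F)))) i =
      co z i - KLL_s q i * mixedEmbedding F (((N : ℕ) : F) * ((a i : 𝓞 F) : F)) := by
    have h4 : co (((N : ℕ) : DF q) * mkD q (fun i => ((a i : 𝓞 F) : F))) i =
        ((N : ℕ) : F) * ((a i : 𝓞 F) : F) := by
      rw [← nsmul_eq_mul]
      have h5 : ∀ y : DF q, co (N • y) i = N • co y i := by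
        intro y
        fin_cases i
        · exact map_nsmul (QuaternionAlgebra.reₗ _ _ _ : DF q →ₗ[F] F) N y
        · exact map_nsmul (QuaternionAlgebra.imIₗ _ _ _ : DF q →ₗ[F] F) N y
        · exact map_nsmul (QuaternionAlgebra.imJₗ _ _ _ : DF q →ₗ[F] F) N y
        · exact map_nsmul (QuaternionAlgebra.imKₗ _ _ _ : DF q →ₗ[F] F) N y
      rw [h5, co_mkD, nsmul_eq_mul]
    rw [← h4, ← KLL_co]
    fin_cases i <;> rfl
  rw [h3]
  exact ha i

theorem isLat (g : (sysD q).A) : (PAI q).IsLat (LatI g) := ⟨lat_disc g, lat_coc g⟩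

end Pool.Agent.CGQ
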