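import Pool.Agent.CGQ.KLat

/-!
# Lattices in `D`: elementary properties
-/

noncomputable section

namespace Pool.Agent.CGQ

open NumberField IsDedekindDomain
open Pool.Agent.CG2 (Pl Fv Ov)

variable {F : Type} [Field F] [NumberField F] {q : Qd F}

private theorem klc_iq_mul (g k : (sysD q).A) (x : DF q) (v : Pl F) :
    iq (g * k) x v = ((gv k v)⁻¹ : (DV q v)ˣ).1 * iq g x v := by
  rw [iq, iq, gv_mul, mul_inv_rev, Units.val_mul, mul_assoc]

private theorem klc_le (g : (sysD q).A) {k : (sysD q).A} (hk : ∀ v, gv k v ∈ BZ q v) :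
    Lat g ≤ Lat (g * k) := by
  intro x hx v
  rw [klc_iq_mul]
  exact intQ_mul ((mem_BZ_iff q v _).1 (hk v)).2 (hx v)

/-- **KLC.** PROOF. Port of `CG2.Lat_mul`; `(g k)⁻¹ x = k⁻¹ (g⁻¹ x)`, `intQ_mul`, `mem_BZ_iff`. -/
theorem Lat_mul (g : (sysD q).A) {k : (sysD q).A} (hk : ∀ v, gv k v ∈ BZ q v) :
    Lat (g * k) = Lat g := by
  refine le_antisymm ?_ (klc_le g hk)
  have h1 := klc_le (g * k) (k := k⁻¹) (fun v => by
    rw [gv_inv]
    exact (BZ q v).inv_mem (hk v))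
  rwa [mul_assoc, mul_inv_cancel, mul_one] at h1

/-- **KLD.** PROOF. `(γ g)⁻¹ γ x = g⁻¹ x`. -/
theorem iq_diag (γ : (sysD q).G) (g : (sysD q).A) (x : DF q) :
    iq (diag γ * g) ((uK γ).1 * x) = iq g x := by
  funext v
  have h1 : ((gv (diag γ) v)⁻¹ : (DV q v)ˣ).1 * dloc q v (uK γ).1 = 1 := by
    rw [← gv_diag, Units.inv_mul]
  rw [iq, iq, gv_mul, mul_inv_rev, Units.val_mul, map_mul, mul_assoc,
    ← mul_assoc (((gv (diag γ) v)⁻¹ : (DV q v)ˣ).1), h1, one_mul]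

theorem mem_Lat_diag (γ : (sysD q).G) (g : (sysD q).A) (x : DF q) :
    (uK γ).1 * x ∈ Lat (diag γ * g) ↔ x ∈ Lat g := by
  rw [mem_Lat, mem_Lat, iq_diag]

private theorem klc_co_add {v : Pl F} (x y : DV q v) (i : Fin 4) :
    co (x + y) i = co x i + co y i := by
  fin_cases i <;> rfl

private theorem klc_isCls_mul (N : ℕ) (g : (sysD q).A) {k : (sysD q).A} (hk : k ∈ KNq q N)
    {x : DF q} (hx : x ∈ Lat g) (r : Fin 4 → 𝓞 F) (h : IsCls4 N g x r) :
    IsCls4 N (g * k) x r := by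
  intro v i
  have h1 := ((KNq q N).inv_mem hk v).2
  have h2 := divQ_mul_right h1 (hx v) i
  have h3 : iq (g * k) x v = ((gv k⁻¹ v).1 - 1) * iq g x v + iq g x v := by
    rw [klc_iq_mul, gv_inv, sub_mul, one_mul, sub_add_cancel]
  have h4 : co (iq (g * k) x v) i - (((r i : 𝓞 F) : F) : Fv v) =
      co (((gv k⁻¹ v).1 - 1) * iq g x v) i + (co (iq g x v) i - (((r i : 𝓞 F) : F) : Fv v)) := by
    rw [h3, klc_co_add, add_sub_assoc]
  rw [h4]
  exact (Valuation.map_add _ _ _).trans (max_le h2 (h v i))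

private theorem klc_congr (N : ℕ) (g g' : (sysD q).A) (x x' : DF q)
    (h : ∀ r, IsCls4 N g x r ↔ IsCls4 N g' x' r) : cls4 N g x = cls4 N g' x' := by
  have h1 : IsCls4 N g x = IsCls4 N g' x' := funext fun r => propext (h r)
  unfold cls4
  rw [h1]

/-- **KLG.** PROOF. Port of `CG2.cls_mul`: `k⁻¹ y - r = (k⁻¹ - 1) y + (y - r)` for `y = g⁻¹ x`,
`divQ_mul_right`. -/
theorem cls4_mul (N : ℕ) (hN : N ≠ 0) (g : (sysD q).A) {k : (sysD q).A} (hk : k ∈ KNq q N)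
    {x : DF q} (hx : x ∈ Lat g) : cls4 N (g * k) x = cls4 N g x := by
  refine klc_congr N _ _ _ _ fun r => ⟨fun h => ?_, klc_isCls_mul N g hk hx r⟩
  have h1 := klc_isCls_mul N (g * k) (k := k⁻¹) ((KNq q N).inv_mem hk) (x := x)
    (by rw [Lat_mul g fun v => (hk v).1]; exact hx) r h
  rwa [mul_assoc, mul_inv_cancel, mul_one] at h1

/-- **KLH.** PROOF. `iq_diag`. -/
theorem cls4_diag (N : ℕ) (γ : (sysD q).G) (g : (sysD q).A) (x : DF q) :
    cls4 N (diag γ * g) ((uK γ).1 * x) = cls4 N g x := by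
  refine klc_congr N _ _ _ _ fun r => ?_
  rw [IsCls4, IsCls4, iq_diag]

/-- **KLK.** PROOF. `intQ_mul`. -/
theorem Lat_right (g : (sysD q).A) {x : DF q} (hx : x ∈ Lat g) (r : Fin 4 → 𝓞 F) :
    x * mkD q (fun i => ((r i : 𝓞 F) : F)) ∈ Lat g := by
  intro v
  have h1 : iq g (x * mkD q (fun i => ((r i : 𝓞 F) : F))) v =
      iq g x v * dloc q v (mkD q (fun i => ((r i : 𝓞 F) : F))) := by
    rw [iq, iq, map_mul, mul_assoc]
  rw [h1]
  refine intQ_mul (hx v) ((intQ_iff_co q v _).2 fun i => ?_)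
  rw [co_dloc, co_mkD]
  exact CG2.KoeLat_val_coe_le v (r i)

end Pool.Agent.CGQ
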