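import Pool.Agent.CGQ.KPA

/-!
# Positive algebras: the parallelogram identity
-/

noncomputable section

namespace Pool.Agent.CGQ

namespace PA

variable {A : Type} [Ring A] [Algebra ℝ A] (P : PA A) [FiniteDimensional ℝ A]

/-- **KMA.** PROOF. Expand. -/
theorem q_par (x y : A) (h : P.V) :
    P.q (x - y) h + P.q (x + y) h = 2 * P.q x h + 2 * P.q y h := by
  simp only [q_apply, map_sub, map_add, mul_sub, sub_mul, mul_add, add_mul]
  ring

theorem sz_par (x y : A) : P.sz (x - y) + P.sz (x + y) = 2 * P.sz x + 2 * P.sz y := by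
  simp only [sz, map_sub, map_add, mul_sub, sub_mul, mul_add, add_mul]
  ring

theorem q_smul (r : ℝ) (x : A) (h : P.V) : P.q (r • x) h = r ^ 2 * P.q x h := by
  simp only [q_apply, map_smul, smul_mul_assoc, mul_smul_comm, smul_eq_mul]
  ring

theorem sz_smul (r : ℝ) (x : A) : P.sz (r • x) = r ^ 2 * P.sz x := by
  simp only [sz, map_smul, smul_mul_assoc, mul_smul_comm, smul_eq_mul]
  ring

private theorem kma_nat (n : ℕ) (x : A) : (n : A) * x = (n : ℝ) • x := by
  rw [Algebra.smul_def, map_natCast]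

theorem sz_natCast (n : ℕ) (x : A) : P.sz ((n : A) * x) = (n : ℝ) ^ 2 * P.sz x := by
  rw [kma_nat, sz_smul]

theorem q_natCast (n : ℕ) (x : A) (h : P.V) : P.q ((n : A) * x) h = (n : ℝ) ^ 2 * P.q x h := by
  rw [kma_nat, q_smul]

theorem sz_add_le (x y : A) : P.sz (x + y) ≤ 2 * P.sz x + 2 * P.sz y := by
  have h1 := P.sz_par x y
  have h2 := P.sz_nonneg (x - y)
  linarith

theorem sz_sub_le (x y : A) : P.sz (x - y) ≤ 2 * P.sz x + 2 * P.sz y := by
  have h1 := P.sz_par x y
  have h2 := P.sz_nonneg (x + y)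
  linarith

theorem q_one (x : A) (h : P.V) (hh : (P.el h : A) = 1) : P.q x h = P.sz x := by
  rw [q_apply, hh, one_mul, sz]

end PA

end Pool.Agent.CGQ
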