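import Pool.Agent.CGQ.KLB
import Pool.Agent.CGQ.KMA

/-!
# Lattices are discrete
-/

noncomputable section

namespace Pool.Agent.CGQ

open NumberField IsDedekindDomain
open Pool.Agent.CG2 (Pl Fv Ov)

variable {F : Type} [Field F] [NumberField F] {q : Qd F}

/-- The image of the lattice in `D ⊗ ℝ`. -/
def LatI (g : (sysD q).A) : AddSubgroup (AInf q) := (Lat g).map (theta q).toAddMonoidHom

theorem mem_LatI {g : (sysD q).A} {z : AInf q} : z ∈ LatI g ↔ ∃ x ∈ Lat g, theta q x = z :=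
  Iff.rfl

/-- The factors of the coordinates. -/
def KLL_s (q : Qd F) : Fin 4 → Rinf F :=
  ![1, rtR (q.a : F), rtR (q.b : F), rtR (q.a : F) * rtR (q.b : F)]

theorem KLL_co (q : Qd F) (x : DF q) (i : Fin 4) :
    co (theta q x) i = KLL_s q i * mixedEmbedding F (co x i) := by
  fin_cases i
  · exact (one_mul _).symm
  · rfl
  · rfl
  · rfl

theorem KLL_rt_unit (c : F) (hc : c ≠ 0) : IsUnit (rtR c) := by
  have h1 : mixedEmbedding F c * mixedEmbedding F c⁻¹ = 1 := by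
    rw [← map_mul, mul_inv_cancel₀ hc, map_one]
  have h2 := rtR_spec c
  refine IsUnit.of_mul_eq_one (epsR c * rtR c * mixedEmbedding F c⁻¹) ?_
  calc rtR c * (epsR c * rtR c * mixedEmbedding F c⁻¹)
      = (epsR c * (rtR c * rtR c)) * mixedEmbedding F c⁻¹ := by ring
    _ = 1 := by rw [h2, h1]

theorem KLL_s_unit (q : Qd F) (i : Fin 4) : IsUnit (KLL_s q i) := by
  have ha : IsUnit (rtR (q.a : F)) := KLL_rt_unit _ (fun h => q.a_ne (Subtype.ext h))
  have hb : IsUnit (rtR (q.b : F)) := KLL_rt_unit _ (fun h => q.b_ne (Subtype.ext h))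
  fin_cases i
  · exact isUnit_one
  · exact ha
  · exact hb
  · exact ha.mul hb

theorem KLL_sz (q : Qd F) (z : AInf q) :
    (PAI q).sz z = ∑ i : Fin 4, trR F (co z i * star (co z i)) := by
  have h : (PAI q).sz z = tauI q (z * invI q z) := rfl
  rw [h, tauI_sz, Fin.sum_univ_four, map_add, map_add, map_add]
  rfl

open Classical in
theorem KLL_tr_eq (u : Rinf F) : trR F (u * star u) = ∑ w, ‖u.1 w‖ ^ 2 + ∑ w, ‖u.2 w‖ ^ 2 := by
  have h : trR F (u * star u) = ∑ w, (u.1 w * star (u.1 w)) + ∑ w, (u.2 w * star (u.2 w)).re := rfl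
  rw [h]
  congr 1
  · refine Finset.sum_congr rfl fun w _ => ?_
    rw [Real.norm_eq_abs, sq_abs, star_trivial, sq]
  · refine Finset.sum_congr rfl fun w _ => ?_
    rw [Complex.sq_norm, Complex.normSq_apply]
    simp

theorem KLL_tr_nonneg (u : Rinf F) : 0 ≤ trR F (u * star u) := by
  rw [KLL_tr_eq]
  positivity

open Classical in
theorem KLL_tr_le (w : InfinitePlace F) (u : Rinf F) :
    mixedEmbedding.normAtPlace w u ^ 2 ≤ trR F (u * star u) := by
  rw [KLL_tr_eq]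
  rcases w.isReal_or_isComplex with hw | hw
  · rw [mixedEmbedding.normAtPlace_apply_of_isReal hw]
    have h1 : ‖u.1 ⟨w, hw⟩‖ ^ 2 ≤ ∑ w, ‖u.1 w‖ ^ 2 :=
      Finset.single_le_sum (f := fun w => ‖u.1 w‖ ^ 2) (fun _ _ => sq_nonneg _)
        (Finset.mem_univ _)
    have h2 : 0 ≤ ∑ w, ‖u.2 w‖ ^ 2 := Finset.sum_nonneg fun _ _ => sq_nonneg _
    linarith
  · rw [mixedEmbedding.normAtPlace_apply_of_isComplex hw]
    have h1 : ‖u.2 ⟨w, hw⟩‖ ^ 2 ≤ ∑ w, ‖u.2 w‖ ^ 2 :=
      Finset.single_le_sum (f := fun w => ‖u.2 w‖ ^ 2) (fun _ _ => sq_nonneg _)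
        (Finset.mem_univ _)
    have h2 : 0 ≤ ∑ w, ‖u.1 w‖ ^ 2 := Finset.sum_nonneg fun _ _ => sq_nonneg _
    linarith

open Classical in
theorem KLL_tr_norm (F : Type) [Field F] [NumberField F] :
    ∃ n : ℝ, 0 ≤ n ∧ ∀ u : Rinf F, trR F (u * star u) ≤ n * ‖u‖ ^ 2 := by
  refine ⟨(Fintype.card {w : InfinitePlace F // w.IsReal} : ℝ) +
    (Fintype.card {w : InfinitePlace F // w.IsComplex} : ℝ), by positivity, fun u => ?_⟩
  rw [KLL_tr_eq, add_mul]
  refine add_le_add ?_ ?_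
  · have h1 : ∑ w, ‖u.1 w‖ ^ 2 ≤ ∑ _w : {w : InfinitePlace F // w.IsReal}, ‖u‖ ^ 2 :=
      Finset.sum_le_sum fun w _ => pow_le_pow_left₀ (norm_nonneg _)
        ((norm_le_pi_norm _ _).trans (norm_fst_le u)) 2
    refine h1.trans (le_of_eq ?_)
    rw [Finset.sum_const, nsmul_eq_mul, Finset.card_univ]
  · have h1 : ∑ w, ‖u.2 w‖ ^ 2 ≤ ∑ _w : {w : InfinitePlace F // w.IsComplex}, ‖u‖ ^ 2 :=
      Finset.sum_le_sum fun w _ => pow_le_pow_left₀ (norm_nonneg _)
        ((norm_le_pi_norm _ _).trans (norm_snd_le u)) 2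
    refine h1.trans (le_of_eq ?_)
    rw [Finset.sum_const, nsmul_eq_mul, Finset.card_univ]

/-- The coordinates are bounded by the size. -/
theorem KLL_bd (q : Qd F) (C : ℝ) : ∃ D : ℝ, ∀ x : DF q, (PAI q).sz (theta q x) ≤ C →
    ∀ (w : InfinitePlace F) (i : Fin 4), w (co x i) ≤ D := by
  classical
  have h1 : ∀ p : InfinitePlace F × Fin 4, ∃ D : ℝ, 0 ≤ D ∧
      ∀ x : DF q, (PAI q).sz (theta q x) ≤ C → p.1 (co x p.2) ≤ D := by
    rintro ⟨w, i⟩
    have hpos : 0 < mixedEmbedding.normAtPlace w (KLL_s q i) := by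
      refine lt_of_le_of_ne (mixedEmbedding.normAtPlace_nonneg w _) (Ne.symm ?_)
      exact ((KLL_s_unit q i).map (mixedEmbedding.normAtPlace (K := F) w)).ne_zero
    refine ⟨Real.sqrt |C| / mixedEmbedding.normAtPlace w (KLL_s q i), by positivity,
      fun x hx => ?_⟩
    rw [le_div_iff₀ hpos]
    have h2 : mixedEmbedding.normAtPlace w (co (theta q x) i) ^ 2 ≤ |C| := by
      refine (KLL_tr_le w _).trans ?_
      have h3 : trR F (co (theta q x) i * star (co (theta q x) i)) ≤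
          ∑ i : Fin 4, trR F (co (theta q x) i * star (co (theta q x) i)) :=
        Finset.single_le_sum (f := fun i => trR F (co (theta q x) i * star (co (theta q x) i)))
          (fun _ _ => KLL_tr_nonneg _) (Finset.mem_univ _)
      rw [← KLL_sz] at h3
      exact h3.trans (hx.trans (le_abs_self C))
    rw [KLL_co, map_mul, mixedEmbedding.normAtPlace_apply] at h2
    have h4 := Real.le_sqrt_of_sq_le h2
    rw [mul_comm]
    exact h4
  choose D hD0 hD using h1
  refine ⟨∑ p, D p, fun x hx w i => ?_⟩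
  exact (hD (w, i) x hx).trans
    (Finset.single_le_sum (f := D) (fun _ _ => hD0 _) (Finset.mem_univ (w, i)))

/-- **KLL.** PROOF. `Lat_bounds` and `tauI_sz`: the coordinates `N x_i` are in `𝓞 F` and bounded at
all places (`|rtR a|` is positive at every place), so `Embeddings.finite_of_norm_le` as in
`CG2.Lat_finite`. -/
theorem lat_disc (g : (sysD q).A) (C : ℝ) :
    {x | x ∈ LatI g ∧ (PAI q).sz x ≤ C}.Finite := by
  obtain ⟨D, hD⟩ := KLL_bd q C
  obtain ⟨N, hN, -, h2⟩ := Lat_bounds g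
  have hfin := Embeddings.finite_of_norm_le F ℂ ((N : ℝ) * D)
  have hfin2 : (Set.pi (Set.univ : Set (Fin 4))
      fun _ => {x : F | IsIntegral ℤ x ∧ ∀ φ : F →+* ℂ, ‖φ x‖ ≤ (N : ℝ) * D}).Finite :=
    Set.Finite.pi fun _ => hfin
  have hN0 : ((N : ℕ) : F) ≠ 0 := Nat.cast_ne_zero.2 hN.ne'
  have hfin3 : {x : DF q | x ∈ Lat g ∧ (PAI q).sz (theta q x) ≤ C}.Finite := by
    refine Set.Finite.of_finite_image (f := fun x : DF q => (fun i => ((N : ℕ) : F) * co x i :
      Fin 4 → F)) (hfin2.subset ?_) ?_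
    · rintro _ ⟨x, ⟨hx1, hx2⟩, rfl⟩ i _
      obtain ⟨a, ha⟩ := h2 x hx1 i
      refine ⟨?_, fun φ => ?_⟩
      · change IsIntegral ℤ (((N : ℕ) : F) * co x i)
        rw [ha]
        exact a.isIntegral_coe
      · change ‖φ (((N : ℕ) : F) * co x i)‖ ≤ _
        rw [map_mul, map_natCast, norm_mul, Complex.norm_natCast]
        refine mul_le_mul_of_nonneg_left ?_ (Nat.cast_nonneg N)
        have := hD x hx2 (InfinitePlace.mk φ) i
        rwa [InfinitePlace.apply] at this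
    · intro x _ y _ hxy
      have h3 : ∀ i, co x i = co y i := by
        intro i
        exact mul_left_cancel₀ hN0 (congrFun hxy i)
      exact QuaternionAlgebra.ext (h3 0) (h3 1) (h3 2) (h3 3)
  refine (hfin3.image (theta q)).subset ?_
  rintro _ ⟨⟨x, hx, rfl⟩, hs⟩
  exact ⟨x, ⟨hx, hs⟩, rfl⟩

end Pool.Agent.CGQ
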