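import Pool.Agent.CGQ.KInf
import Pool.Agent.CG2.KoeCls

/-!
# Lattices in `D` and the principal congruence subgroups
-/

noncomputable section

namespace Pool.Agent.CGQ

open NumberField IsDedekindDomain
open Pool.Agent.CG2 (Pl Fv Ov)

variable {F : Type} [Field F] [NumberField F]

/-- `D` is a division algebra. -/
def IsDiv (q : Qd F) : Prop := ∀ x : DF q, x ≠ 0 → IsUnit x

/-- The coordinates. -/
def co {R : Type} {a b c : R} (x : QuaternionAlgebra R a b c) : Fin 4 → R :=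
  ![x.re, x.imI, x.imJ, x.imK]

@[simp] theorem co_zero {R : Type} {a b c : R} (x : QuaternionAlgebra R a b c) : co x 0 = x.re := rfl
@[simp] theorem co_one {R : Type} {a b c : R} (x : QuaternionAlgebra R a b c) : co x 1 = x.imI := rfl
@[simp] theorem co_two {R : Type} {a b c : R} (x : QuaternionAlgebra R a b c) : co x 2 = x.imJ := rfl
@[simp] theorem co_three {R : Type} {a b c : R} (x : QuaternionAlgebra R a b c) :
    co x 3 = x.imK := rfl

/-- The element of `D` with given coordinates. -/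
def mkD (q : Qd F) (r : Fin 4 → F) : DF q := ⟨r 0, r 1, r 2, r 3⟩

@[simp] theorem co_mkD (q : Qd F) (r : Fin 4 → F) : co (mkD q r) = r := by
  funext i
  fin_cases i <;> rfl

theorem intQ_iff_co (q : Qd F) (v : Pl F) (x : DV q v) :
    IntQ q v x ↔ ∀ i, Valued.v (co x i) ≤ 1 := by
  rw [IntQ]
  constructor
  · rintro ⟨h0, h1, h2, h3⟩ i
    fin_cases i
    · exact h0
    · exact h1
    · exact h2
    · exact h3
  · intro h
    exact ⟨h 0, h 1, h 2, h 3⟩

theorem co_dloc (q : Qd F) (v : Pl F) (x : DF q) (i : Fin 4) :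
    co (dloc q v x) i = ((co x i : F) : Fv v) := by
  fin_cases i <;> rfl

/-- The component at `v`. -/
def gv {q : Qd F} (g : (sysD q).A) (v : Pl F) : (DV q v)ˣ := g.1 v

theorem gv_mul {q : Qd F} (g k : (sysD q).A) (v : Pl F) : gv (g * k) v = gv g v * gv k v := rfl

theorem gv_one {q : Qd F} (v : Pl F) : gv (1 : (sysD q).A) v = 1 := rfl

theorem gv_inv {q : Qd F} (g : (sysD q).A) (v : Pl F) : gv g⁻¹ v = (gv g v)⁻¹ := rfl

/-- An element of the group of the rational points as a unit of `D`. -/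
def uK {q : Qd F} (γ : (sysD q).G) : (DF q)ˣ := γ

theorem gv_diag {q : Qd F} (γ : (sysD q).G) (v : Pl F) :
    (gv (diag γ) v).1 = dloc q v (uK γ).1 := rfl

/-- The component at `v` of the element `g⁻¹ x`. -/
def iq {q : Qd F} (g : (sysD q).A) (x : DF q) (v : Pl F) : DV q v :=
  ((gv g v)⁻¹ : (DV q v)ˣ).1 * dloc q v x

theorem iq_add {q : Qd F} (g : (sysD q).A) (x y : DF q) (v : Pl F) :
    iq g (x + y) v = iq g x v + iq g y v := by
  rw [iq, map_add, mul_add]
  rfl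

theorem iq_neg {q : Qd F} (g : (sysD q).A) (x : DF q) (v : Pl F) :
    iq g (-x) v = - iq g x v := by
  rw [iq, map_neg, mul_neg]
  rfl

theorem iq_zero {q : Qd F} (g : (sysD q).A) (v : Pl F) : iq g (0 : DF q) v = 0 := by
  rw [iq, map_zero, mul_zero]

theorem intQ_add {q : Qd F} {v : Pl F} {x y : DV q v} (hx : IntQ q v x) (hy : IntQ q v y) :
    IntQ q v (x + y) := by
  obtain ⟨a, rfl⟩ := (intQ_iff q v x).1 hx
  obtain ⟨b, rfl⟩ := (intQ_iff q v y).1 hy
  exact (intQ_iff q v _).2 ⟨a + b, map_add _ _ _⟩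

theorem intQ_mul {q : Qd F} {v : Pl F} {x y : DV q v} (hx : IntQ q v x) (hy : IntQ q v y) :
    IntQ q v (x * y) := by
  obtain ⟨a, rfl⟩ := (intQ_iff q v x).1 hx
  obtain ⟨b, rfl⟩ := (intQ_iff q v y).1 hy
  exact (intQ_iff q v _).2 ⟨a * b, map_mul _ _ _⟩

theorem intQ_neg {q : Qd F} {v : Pl F} {x : DV q v} (hx : IntQ q v x) : IntQ q v (-x) := by
  obtain ⟨a, rfl⟩ := (intQ_iff q v x).1 hx
  exact (intQ_iff q v _).2 ⟨-a, map_neg _ _⟩

theorem intQ_zero {q : Qd F} {v : Pl F} : IntQ q v (0 : DV q v) :=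
  (intQ_iff q v _).2 ⟨0, map_zero _⟩

/-- The lattice of the elements `x` of `D` with `g⁻¹ x` integral. -/
def Lat {q : Qd F} (g : (sysD q).A) : AddSubgroup (DF q) where
  carrier := {x | ∀ v, IntQ q v (iq g x v)}
  add_mem' := by
    intro a b ha hb v
    rw [iq_add]
    exact intQ_add (ha v) (hb v)
  zero_mem' := by
    intro v
    rw [iq_zero]
    exact intQ_zero
  neg_mem' := by
    intro a ha v
    rw [iq_neg]
    exact intQ_neg (ha v)

theorem mem_Lat {q : Qd F} {g : (sysD q).A} {x : DF q} :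
    x ∈ Lat g ↔ ∀ v, IntQ q v (iq g x v) := Iff.rfl

/-- The finite set of the classes `(O_F / N)⁴`. -/
abbrev Cls4 (F : Type) [Field F] [NumberField F] (N : ℕ) : Type :=
  Fin 4 → (𝓞 F ⧸ Ideal.span {((N : ℕ) : 𝓞 F)})

/-- `g⁻¹ x` is congruent to `r` modulo `N`. -/
def IsCls4 {q : Qd F} (N : ℕ) (g : (sysD q).A) (x : DF q) (r : Fin 4 → 𝓞 F) : Prop :=
  ∀ v i, Valued.v (co (iq g x v) i - (((r i : 𝓞 F) : F) : Fv v)) ≤ Valued.v ((N : ℕ) : Fv v)

open Classical in
/-- The class of `g⁻¹ x` modulo `N`. -/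
def cls4 {q : Qd F} (N : ℕ) (g : (sysD q).A) (x : DF q) : Cls4 F N :=
  if h : ∃ r, IsCls4 N g x r then fun i => Ideal.Quotient.mk _ (h.choose i) else 0

/-- `x` is divisible by `N`. -/
def DivQ (q : Qd F) (N : ℕ) (v : Pl F) (x : DV q v) : Prop :=
  ∀ i, Valued.v (co x i) ≤ Valued.v ((N : ℕ) : Fv v)

theorem co_natCast_mul {q : Qd F} {v : Pl F} (N : ℕ) (y : DV q v) (i : Fin 4) :
    co (((N : ℕ) : DV q v) * y) i = ((N : ℕ) : Fv v) * co y i := by
  fin_cases i
  · simp [co]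
  · simp [co]
  · simp [co]
  · simp [co]

/-- `x` is divisible by `N` iff `x = N y` with `y` integral. -/
theorem divQ_iff {q : Qd F} {N : ℕ} {v : Pl F} (x : DV q v) :
    DivQ q N v x ↔ ∃ y, IntQ q v y ∧ x = ((N : ℕ) : DV q v) * y := by
  constructor
  · intro h
    by_cases hN : N = 0
    · subst hN
      refine ⟨0, intQ_zero, ?_⟩
      have h0 : ∀ i, co x i = 0 := by
        intro i
        have h1 := h i
        rw [Nat.cast_zero, map_zero, le_zero_iff] at h1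
        exact (Valuation.zero_iff _).1 h1
      rw [mul_zero]
      ext1
      · exact h0 0
      · exact h0 1
      · exact h0 2
      · exact h0 3
    · have hv := CG2.KoeLat_val_natCast_ne v hN
      have hN0 : ((N : ℕ) : Fv v) ≠ 0 := by
        intro h1
        rw [h1, map_zero] at hv
        exact hv rfl
      refine ⟨⟨((N : ℕ) : Fv v)⁻¹ * x.re, ((N : ℕ) : Fv v)⁻¹ * x.imI,
        ((N : ℕ) : Fv v)⁻¹ * x.imJ, ((N : ℕ) : Fv v)⁻¹ * x.imK⟩, ?_, ?_⟩
      · have key : ∀ i, Valued.v (((N : ℕ) : Fv v)⁻¹ * co x i) ≤ 1 := by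
          intro i
          rw [map_mul, map_inv₀, inv_mul_le_one₀ (zero_lt_iff.2 hv)]
          exact h i
        exact ⟨key 0, key 1, key 2, key 3⟩
      · ext1
        · simp [hN0]
        · simp [hN0]
        · simp [hN0]
        · simp [hN0]
  · rintro ⟨y, hy, rfl⟩ i
    rw [co_natCast_mul, map_mul]
    calc _ ≤ Valued.v ((N : ℕ) : Fv v) * 1 :=
          mul_le_mul' le_rfl ((intQ_iff_co q v y).1 hy i)
      _ = _ := mul_one _

theorem divQ_add {q : Qd F} {N : ℕ} {v : Pl F} {x y : DV q v} (hx : DivQ q N v x)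
    (hy : DivQ q N v y) : DivQ q N v (x + y) := by
  rw [divQ_iff] at hx hy ⊢
  obtain ⟨a, ha, rfl⟩ := hx
  obtain ⟨b, hb, rfl⟩ := hy
  exact ⟨a + b, intQ_add ha hb, by rw [mul_add]⟩

theorem divQ_neg {q : Qd F} {N : ℕ} {v : Pl F} {x : DV q v} (hx : DivQ q N v x) :
    DivQ q N v (-x) := by
  rw [divQ_iff] at hx ⊢
  obtain ⟨a, ha, rfl⟩ := hx
  exact ⟨-a, intQ_neg ha, by rw [mul_neg]⟩

theorem divQ_zero {q : Qd F} {N : ℕ} {v : Pl F} : DivQ q N v (0 : DV q v) := by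
  rw [divQ_iff]
  exact ⟨0, intQ_zero, by rw [mul_zero]⟩

theorem divQ_mul_left {q : Qd F} {N : ℕ} {v : Pl F} {x y : DV q v} (hx : IntQ q v x)
    (hy : DivQ q N v y) : DivQ q N v (x * y) := by
  rw [divQ_iff] at hy ⊢
  obtain ⟨a, ha, rfl⟩ := hy
  refine ⟨x * a, intQ_mul hx ha, ?_⟩
  rw [← mul_assoc, ← mul_assoc, (Nat.cast_commute N x).eq]

theorem divQ_mul_right {q : Qd F} {N : ℕ} {v : Pl F} {x y : DV q v} (hx : DivQ q N v x)
    (hy : IntQ q v y) : DivQ q N v (x * y) := by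
  rw [divQ_iff] at hx ⊢
  obtain ⟨a, ha, rfl⟩ := hx
  exact ⟨a * y, intQ_mul ha hy, by rw [mul_assoc]⟩

/-- The principal congruence subgroup of level `N`. -/
def KNq (q : Qd F) (N : ℕ) : Subgroup (sysD q).A where
  carrier := {k | ∀ v, gv k v ∈ BZ q v ∧ DivQ q N v ((gv k v).1 - 1)}
  mul_mem' := by
    intro a b ha hb v
    refine ⟨(BZ q v).mul_mem (ha v).1 (hb v).1, ?_⟩
    have h : (gv (a * b) v).1 - 1 = (gv a v).1 * ((gv b v).1 - 1) + ((gv a v).1 - 1) := by
      rw [gv_mul, Units.val_mul, mul_sub, mul_one]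
      abel
    rw [h]
    exact divQ_add (divQ_mul_left ((mem_BZ_iff q v _).1 (ha v).1).1 (hb v).2) (ha v).2
  one_mem' := by
    intro v
    refine ⟨(BZ q v).one_mem, ?_⟩
    rw [gv_one, Units.val_one, sub_self]
    exact divQ_zero
  inv_mem' := by
    intro a ha v
    refine ⟨(BZ q v).inv_mem (ha v).1, ?_⟩
    have h : (gv a⁻¹ v).1 - 1 = ((gv a v)⁻¹ : (DV q v)ˣ).1 * (-((gv a v).1 - 1)) := by
      rw [gv_inv, neg_sub, mul_sub, mul_one, Units.inv_mul]
    rw [h]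
    exact divQ_mul_left ((mem_BZ_iff q v _).1 (ha v).1).2 (divQ_neg (ha v).2)

/-- The functional attached to an element of `D^×`. -/
def qe (q : Qd F) (e : (sysD q).G) : (PAI q).V →L[ℝ] ℝ := (PAI q).q (theta q (uK e).1)

/-- The weights `C` are between `1` and `9/8` and generic. -/
def GoodQ (q : Qd F) (N : ℕ) (C : Cls4 F N → ℝ) : Prop :=
  (∀ κ, 1 < C κ ∧ C κ < 9 / 8) ∧
  ∀ (S : Finset (sysD q).G) (f : (sysD q).G → Cls4 F N), Set.InjOn f S → ∀ h : (PAI q).V,
    (∀ x ∈ S, qe q x h = C (f x)) → LinearIndependent ℝ fun x : S => qe q x.1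

end Pool.Agent.CGQ
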