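import Pool.Agent.CGQ.KMA

/-!
# Positive algebras: bounds
-/

noncomputable section

namespace Pool.Agent.CGQ

namespace PA

variable {A : Type} [Ring A] [Algebra ℝ A] (P : PA A) [FiniteDimensional ℝ A]

private theorem kmb_bil (a : A) :
    ∃ B : (Fin (Module.finrank ℝ A) → ℝ) →L[ℝ] (Fin (Module.finrank ℝ A) → ℝ) →L[ℝ] ℝ,
      ∀ x y, B x y = P.tau (a * ((Module.finBasis ℝ A).equivFun.symm x *
        P.inv ((Module.finBasis ℝ A).equivFun.symm y))) := by
  let e := (Module.finBasis ℝ A).equivFun.symm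
  let B0 : (Fin (Module.finrank ℝ A) → ℝ) →ₗ[ℝ] (Fin (Module.finrank ℝ A) → ℝ) →ₗ[ℝ] ℝ :=
    LinearMap.mk₂ ℝ (fun x y => P.tau (a * (e x * P.inv (e y))))
      (by intro x x' y; rw [map_add, add_mul, mul_add, map_add])
      (by intro c x y; rw [map_smul, smul_mul_assoc, mul_smul_comm, map_smul])
      (by intro x y y'; rw [map_add, map_add, mul_add, mul_add, map_add])
      (by intro c x y; rw [map_smul, map_smul, mul_smul_comm, mul_smul_comm, map_smul])
  refine ⟨LinearMap.toContinuousLinearMap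
    ((LinearMap.toContinuousLinearMap : ((Fin (Module.finrank ℝ A) → ℝ) →ₗ[ℝ] ℝ) ≃ₗ[ℝ]
      ((Fin (Module.finrank ℝ A) → ℝ) →L[ℝ] ℝ)).toLinearMap ∘ₗ B0), fun x y => rfl⟩

/-- **KMB.** PROOF. Compactness of the sphere in the coordinates of `Module.finBasis ℝ A`: `sz` is
a continuous function of the coordinates, positive outside `0`, homogeneous of degree 2
(`sz_smul`). -/
theorem sz_lower : ∃ c : ℝ, 0 < c ∧ ∀ x : Fin (Module.finrank ℝ A) → ℝ,
    c * ‖x‖ ^ 2 ≤ P.sz ((Module.finBasis ℝ A).equivFun.symm x) := by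
  obtain ⟨B, hB⟩ := P.kmb_bil 1
  have hsz : ∀ x, P.sz ((Module.finBasis ℝ A).equivFun.symm x) = B x x := by
    intro x
    rw [hB, one_mul, sz]
  have hcont : Continuous fun x : Fin (Module.finrank ℝ A) → ℝ => B x x :=
    B.continuous.clm_apply continuous_id
  by_cases hne : (Metric.sphere (0 : Fin (Module.finrank ℝ A) → ℝ) 1).Nonempty
  · obtain ⟨x0, hx0, hmin⟩ := (isCompact_sphere (0 : Fin (Module.finrank ℝ A) → ℝ) 1).exists_isMinOn
      hne hcont.continuousOn
    refine ⟨B x0 x0, ?_, fun x => ?_⟩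
    · rw [← hsz]
      apply P.sz_pos
      intro h
      rw [LinearEquiv.map_eq_zero_iff] at h
      rw [h, mem_sphere_zero_iff_norm, norm_zero] at hx0
      exact zero_ne_one hx0
    · rw [hsz]
      by_cases hx : x = 0
      · rw [hx, norm_zero, map_zero]
        simp
      · have hn : ‖x‖ ≠ 0 := norm_ne_zero_iff.2 hx
        have h1 : x = ‖x‖ • (‖x‖⁻¹ • x) := by
          rw [smul_smul, mul_inv_cancel₀ hn, one_smul]
        have h2 : ‖x‖⁻¹ • x ∈ Metric.sphere (0 : Fin (Module.finrank ℝ A) → ℝ) 1 := by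
          rw [mem_sphere_zero_iff_norm, norm_smul, norm_inv, norm_norm, inv_mul_cancel₀ hn]
        have h3 : B x0 x0 ≤ B (‖x‖⁻¹ • x) (‖x‖⁻¹ • x) := hmin h2
        have h4 : B x x = ‖x‖ ^ 2 * B (‖x‖⁻¹ • x) (‖x‖⁻¹ • x) := by
          have h5 : ∀ (c : ℝ) (z : Fin (Module.finrank ℝ A) → ℝ),
              B (c • z) (c • z) = c ^ 2 * B z z := by
            intro c z
            simp only [map_smul, smul_apply, smul_eq_mul]
            ring
          rw [← h5, ← h1]
        rw [h4, mul_comm]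
        exact mul_le_mul_of_nonneg_left h3 (sq_nonneg _)
  · refine ⟨1, one_pos, fun x => ?_⟩
    have hx : x = 0 := by
      by_contra hx
      apply hne
      have hn : ‖x‖ ≠ 0 := norm_ne_zero_iff.2 hx
      refine ⟨‖x‖⁻¹ • x, ?_⟩
      rw [mem_sphere_zero_iff_norm, norm_smul, norm_inv, norm_norm, inv_mul_cancel₀ hn]
    rw [hx, norm_zero]
    have := P.sz_nonneg ((Module.finBasis ℝ A).equivFun.symm (0 : Fin (Module.finrank ℝ A) → ℝ))
    simpa using this

/-- **KMC.** PROOF. In the coordinates `x = ∑ x_i b_i`, `h = ∑ h_k e_k` (`P.V` is `Fin d → ℝ`) the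
number `P.q x h` is `∑ x_i x_j h_k c_ijk`, so its absolute value is at most `C ‖h‖ ‖x‖²`; then
`sz_lower`. -/
theorem q_le : ∃ C : ℝ, 0 ≤ C ∧ ∀ (h : P.V) (x : A), |P.q x h| ≤ C * ‖h‖ * P.sz x := by
  obtain ⟨c, hc, hcl⟩ := P.sz_lower
  have hB := fun k : Fin (Module.finrank ℝ P.sym) =>
    P.kmb_bil (P.el (Pi.single k (1 : ℝ)) : A)
  choose B hB' using hB
  refine ⟨(∑ k, ‖B k‖) / c, by positivity, fun h x => ?_⟩
  obtain ⟨y, hy⟩ := (Module.finBasis ℝ A).equivFun.symm.surjective x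
  have h1 : ∀ k, P.q x (Pi.single k (1 : ℝ)) = B k y y := by
    intro k
    rw [hB', q_apply, hy]
  have h2 : P.q x h = ∑ k, h k * B k y y := by
    have h3 : h = ∑ k, h k • (Pi.single k (1 : ℝ) : P.V) := by
      funext j
      rw [Finset.sum_apply]
      simp [Pi.single_apply]
    conv_lhs => rw [h3]
    rw [map_sum]
    refine Finset.sum_congr rfl fun k _ => ?_
    rw [map_smul, smul_eq_mul, h1]
  have h3 : ‖y‖ ^ 2 ≤ P.sz x / c := by
    rw [le_div_iff₀ hc, mul_comm, ← hy]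
    exact hcl y
  calc |P.q x h| = |∑ k, h k * B k y y| := by rw [h2]
    _ ≤ ∑ k, |h k * B k y y| := Finset.abs_sum_le_sum_abs _ _
    _ ≤ ∑ k, ‖h‖ * (‖B k‖ * ‖y‖ ^ 2) := by
        refine Finset.sum_le_sum fun k _ => ?_
        rw [abs_mul]
        refine mul_le_mul (norm_le_pi_norm h k) ?_ (abs_nonneg _) (norm_nonneg _)
        have h4 := (B k).le_opNorm₂ y y
        rw [Real.norm_eq_abs] at h4
        rw [sq, ← mul_assoc]
        exact h4
    _ = ‖h‖ * (∑ k, ‖B k‖) * ‖y‖ ^ 2 := by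
        rw [Finset.mul_sum, Finset.sum_mul]
        exact Finset.sum_congr rfl fun k _ => by ring
    _ ≤ ‖h‖ * (∑ k, ‖B k‖) * (P.sz x / c) := by
        refine mul_le_mul_of_nonneg_left h3 ?_
        positivity
    _ = (∑ k, ‖B k‖) / c * ‖h‖ * P.sz x := by ring

end PA

end Pool.Agent.CGQ
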