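import Pool.Agent.CGQ.KMB

/-!
# Positive algebras: compactness
-/

noncomputable section

namespace Pool.Agent.CGQ

namespace PA

variable {A : Type} [Ring A] [Algebra ℝ A] (P : PA A) [FiniteDimensional ℝ A]

private theorem kmd_sz_eq (y : Fin (Module.finrank ℝ A) → ℝ) :
    P.sz ((Module.finBasis ℝ A).equivFun.symm y) = ∑ i, ∑ j, y i * (y j *
      P.tau ((Module.finBasis ℝ A) i * P.inv ((Module.finBasis ℝ A) j))) := by
  rw [sz, Module.Basis.equivFun_symm_apply, map_sum, Finset.sum_mul, map_sum]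
  apply Finset.sum_congr rfl
  intro i _
  rw [Finset.mul_sum, map_sum]
  apply Finset.sum_congr rfl
  intro j _
  rw [map_smul, smul_mul_smul_comm, map_smul, smul_eq_mul, mul_assoc]

private theorem kmd_q_eq (h : P.V) (y : Fin (Module.finrank ℝ A) → ℝ) :
    P.q ((Module.finBasis ℝ A).equivFun.symm y) h = ∑ i, ∑ j, y i * (y j *
      P.tau ((P.el h : A) * ((Module.finBasis ℝ A) i * P.inv ((Module.finBasis ℝ A) j)))) := by
  rw [q_apply, Module.Basis.equivFun_symm_apply, map_sum, Finset.sum_mul, Finset.mul_sum, map_sum]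
  apply Finset.sum_congr rfl
  intro i _
  rw [Finset.mul_sum, Finset.mul_sum, map_sum]
  apply Finset.sum_congr rfl
  intro j _
  rw [map_smul, smul_mul_smul_comm, mul_smul_comm, map_smul, smul_eq_mul, mul_assoc]

private theorem kmd_sz_cont :
    Continuous (fun y : Fin (Module.finrank ℝ A) → ℝ =>
      P.sz ((Module.finBasis ℝ A).equivFun.symm y)) := by
  simp only [kmd_sz_eq]
  fun_prop

private theorem kmd_q_cont (h : P.V) :
    Continuous (fun y : Fin (Module.finrank ℝ A) → ℝ =>
      P.q ((Module.finBasis ℝ A).equivFun.symm y) h) := by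
  simp only [kmd_q_eq]
  fun_prop

/-- **KMD.** PROOF. By `sz_lower` the coordinates of the points with `sz ≤ R` are in a compact ball,
which is covered by finitely many, say `B`, balls so small that `sz (a - b) ≤ ε` for two points
of one ball (`sz` is at most a multiple of the square of the norm of the coordinates);
pigeonhole. -/
theorem exists_close (R ε : ℝ) (hε : 0 < ε) : ∃ B : ℕ, ∀ f : ℕ → A,
    (∀ i ≤ B, P.sz (f i) ≤ R) → ∃ i j, i < j ∧ j ≤ B ∧ P.sz (f j - f i) ≤ ε := by
  classical
  obtain ⟨c, hc, hlow⟩ := P.sz_lower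
  have hcont := P.kmd_sz_cont.continuousAt (x := 0)
  rw [Metric.continuousAt_iff] at hcont
  obtain ⟨δ, hδ, hδ2⟩ := hcont ε hε
  have hsm : ∀ a : A, ‖(Module.finBasis ℝ A).equivFun a‖ < δ → P.sz a ≤ ε := by
    intro a ha
    have h1 := hδ2 (x := (Module.finBasis ℝ A).equivFun a) (by rwa [dist_zero_right])
    rw [LinearEquiv.symm_apply_apply, map_zero, sz_zero, dist_zero_right, Real.norm_eq_abs] at h1
    exact (le_abs_self _).trans h1.le
  have htb := (isCompact_closedBall (0 : Fin (Module.finrank ℝ A) → ℝ)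
    (Real.sqrt (R / c))).totallyBounded
  rw [Metric.totallyBounded_iff] at htb
  obtain ⟨t, htf, ht⟩ := htb (δ / 2) (by linarith)
  refine ⟨htf.toFinset.card, fun f hf => ?_⟩
  have hmem : ∀ i ≤ htf.toFinset.card, ∃ y ∈ htf.toFinset,
      dist ((Module.finBasis ℝ A).equivFun (f i)) y < δ / 2 := by
    intro i hi
    have h1 : (Module.finBasis ℝ A).equivFun (f i) ∈
        Metric.closedBall (0 : Fin (Module.finrank ℝ A) → ℝ) (Real.sqrt (R / c)) := by
      rw [mem_closedBall_zero_iff]
      apply Real.le_sqrt_of_sq_le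
      rw [le_div_iff₀ hc]
      have h2 := hlow ((Module.finBasis ℝ A).equivFun (f i))
      rw [LinearEquiv.symm_apply_apply] at h2
      have h3 := hf i hi
      linarith
    have h2 := ht h1
    simp only [Set.mem_iUnion, Metric.mem_ball, exists_prop] at h2
    obtain ⟨y, hy, hy2⟩ := h2
    exact ⟨y, htf.mem_toFinset.mpr hy, hy2⟩
  choose! g hg hg2 using hmem
  obtain ⟨i, hi, j, hj, hij, hgij⟩ := Finset.exists_ne_map_eq_of_card_lt_of_maps_to
    (s := Finset.range (htf.toFinset.card + 1)) (t := htf.toFinset) (f := g)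
    (by rw [Finset.card_range]; exact Nat.lt_succ_self _)
    (by
      intro i hi
      have hi' : i ∈ Finset.range (htf.toFinset.card + 1) := hi
      rw [Finset.mem_range] at hi'
      exact hg i (by omega))
  rw [Finset.mem_range] at hi hj
  have hmain : ∀ a b : ℕ, a ≤ htf.toFinset.card → b ≤ htf.toFinset.card → g a = g b →
      P.sz (f b - f a) ≤ ε := by
    intro a b ha hb hab
    apply hsm
    rw [map_sub]
    have h1 := hg2 a ha
    have h2 := hg2 b hb
    rw [hab] at h1
    rw [← dist_eq_norm]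
    have h3 := dist_triangle_right ((Module.finBasis ℝ A).equivFun (f b))
      ((Module.finBasis ℝ A).equivFun (f a)) (g b)
    linarith
  rcases lt_or_gt_of_ne hij with h | h
  · exact ⟨i, j, h, by omega, hmain i j (by omega) (by omega) hgij⟩
  · exact ⟨j, i, h, by omega, hmain j i (by omega) (by omega) hgij.symm⟩

variable {P}

theorem PD.psd {h : P.V} (hh : P.PD h) : P.PSD h := by
  intro x
  by_cases hx : x = 0
  · rw [hx, q_apply, zero_mul, mul_zero, map_zero]
  · exact (hh x hx).le

private theorem kmd_q0 (h : P.V) : P.q 0 h = 0 := by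
  rw [q_apply, zero_mul, mul_zero, map_zero]

private theorem kmd_min {h : P.V} (hh : P.PD h) : ∃ m : ℝ, 0 < m ∧
    ∀ x : A, m * P.sz x ≤ P.q x h := by
  by_cases hne : (Metric.sphere (0 : Fin (Module.finrank ℝ A) → ℝ) 1).Nonempty
  · have hnz : ∀ y ∈ Metric.sphere (0 : Fin (Module.finrank ℝ A) → ℝ) 1,
        (Module.finBasis ℝ A).equivFun.symm y ≠ 0 := by
      intro y hy h0
      rw [LinearEquiv.map_eq_zero_iff] at h0
      rw [h0, mem_sphere_zero_iff_norm, norm_zero] at hy
      exact zero_ne_one hy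
    obtain ⟨y0, hy0, hmin⟩ := (isCompact_sphere (0 : Fin (Module.finrank ℝ A) → ℝ) 1).exists_isMinOn
      hne (f := fun y => P.q ((Module.finBasis ℝ A).equivFun.symm y) h /
        P.sz ((Module.finBasis ℝ A).equivFun.symm y))
      (ContinuousOn.div (P.kmd_q_cont h).continuousOn P.kmd_sz_cont.continuousOn
        (fun y hy => (P.sz_pos (hnz y hy)).ne'))
    refine ⟨_, div_pos (hh _ (hnz y0 hy0)) (P.sz_pos (hnz y0 hy0)), fun x => ?_⟩
    by_cases hx : x = 0
    · rw [hx, sz_zero, kmd_q0, mul_zero]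
    have hx' : (Module.finBasis ℝ A).equivFun x ≠ 0 := by
      rw [Ne, LinearEquiv.map_eq_zero_iff]
      exact hx
    have hr : 0 < ‖(Module.finBasis ℝ A).equivFun x‖ := norm_pos_iff.mpr hx'
    set r := ‖(Module.finBasis ℝ A).equivFun x‖ with hrdef
    set y := r⁻¹ • (Module.finBasis ℝ A).equivFun x with hy
    have hyS : y ∈ Metric.sphere (0 : Fin (Module.finrank ℝ A) → ℝ) 1 := by
      rw [mem_sphere_zero_iff_norm, hy, norm_smul, norm_inv, Real.norm_of_nonneg hr.le, ← hrdef,
        inv_mul_cancel₀ hr.ne']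
    have h1 := hmin hyS
    simp only [Set.mem_ofPred_eq] at h1
    rw [le_div_iff₀ (P.sz_pos (hnz y hyS))] at h1
    have h2 : x = r • (Module.finBasis ℝ A).equivFun.symm y := by
      rw [hy, map_smul, LinearEquiv.symm_apply_apply, smul_smul, mul_inv_cancel₀ hr.ne', one_smul]
    rw [h2, P.sz_smul, P.q_smul]
    have h3 := mul_le_mul_of_nonneg_left h1 (sq_nonneg r)
    linarith
  · refine ⟨1, one_pos, fun x => ?_⟩
    have hx : x = 0 := by
      by_contra hx
      apply hne
      have hx' : (Module.finBasis ℝ A).equivFun x ≠ 0 := by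
        rw [Ne, LinearEquiv.map_eq_zero_iff]
        exact hx
      have hr : 0 < ‖(Module.finBasis ℝ A).equivFun x‖ := norm_pos_iff.mpr hx'
      refine ⟨‖(Module.finBasis ℝ A).equivFun x‖⁻¹ • (Module.finBasis ℝ A).equivFun x, ?_⟩
      rw [mem_sphere_zero_iff_norm, norm_smul, norm_inv, norm_norm, inv_mul_cancel₀ hr.ne']
    rw [hx, sz_zero, kmd_q0, mul_zero]

/-- **KME.** PROOF. On the compact set of the coordinates `x` of norm one the continuous function
`P.q x h` has a positive minimum `m`; so `m ‖x‖² ≤ P.q x h`; `sz x` is at most a multiple of `‖x‖²`, so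
`P.q x h ≥ 2 ε sz x`; by `q_le` and linearity `P.q x h' ≥ P.q x h - C ‖h' - h‖ sz x`. If `A = 0` the
statement is trivial. -/
theorem PD.lower {h : P.V} (hh : P.PD h) : ∃ (ε : ℝ) (U : Set P.V), 0 < ε ∧ U ∈ nhds h ∧
    ∀ h' ∈ U, ∀ x : A, ε * P.sz x ≤ P.q x h' := by
  obtain ⟨m, hm, hlow⟩ := kmd_min hh
  obtain ⟨C, hC0, hC⟩ := P.q_le
  refine ⟨m / 2, Metric.ball h (m / (2 * (C + 1))), by linarith,
    Metric.ball_mem_nhds h (by positivity), ?_⟩
  intro h' hh' x
  rw [mem_ball_iff_norm] at hh'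
  have h1 : P.q x h' = P.q x h + P.q x (h' - h) := by
    rw [← map_add]
    congr 1
    abel
  have h2 := hC (h' - h) x
  have h3 := hlow x
  have h4 := P.sz_nonneg x
  have h5 : C * ‖h' - h‖ ≤ m / 2 := by
    have h6 : C * ‖h' - h‖ ≤ C * (m / (2 * (C + 1))) := mul_le_mul_of_nonneg_left hh'.le hC0
    have h7 : C * (m / (2 * (C + 1))) ≤ m / 2 := by
      rw [mul_div_assoc', div_le_div_iff₀ (by positivity) (by norm_num)]
      nlinarith
    linarith
  have h6 := mul_le_mul_of_nonneg_right h5 h4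
  rw [abs_le] at h2
  rw [h1]
  linarith [h2.1]

end PA

end Pool.Agent.CGQ
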