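import Pool.Agent.CGQ.KMD

/-!
# Positive algebras: positive functionals
-/

noncomputable section

namespace Pool.Agent.CGQ

namespace PA

variable {A : Type} [Ring A] [Algebra ℝ A] (P : PA A) [FiniteDimensional ℝ A]

/-- **KMF.** PROOF. Intersection of closed half spaces. -/
theorem psd_closed : IsClosed {h : P.V | P.PSD h} := by
  have h1 : {h : P.V | P.PSD h} = ⋂ x : A, {h : P.V | 0 ≤ P.q x h} := by
    ext h
    simp only [Set.mem_ofPred_eq, Set.mem_iInter]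
    rfl
  rw [h1]
  exact isClosed_iInter fun x => isClosed_le continuous_const (P.q x).continuous

theorem psd_smul {h : P.V} (hh : P.PSD h) {c : ℝ} (hc : 0 ≤ c) : P.PSD (c • h) := by
  intro x
  rw [map_smul, smul_eq_mul]
  exact mul_nonneg hc (hh x)

variable {P}

/-- **KMG.** PROOF. Copy of `CG2.KoePos_eps`. -/
theorem kpos_eps {l : P.V →L[ℝ] ℝ} (hl : l ∈ P.KPos) : ∃ ε : ℝ, 0 < ε ∧
    ∀ h : P.V, P.PSD h → ε * ‖h‖ ≤ l h := by
  have hcomp : IsCompact ({h : P.V | P.PSD h} ∩ Metric.sphere (0 : P.V) 1) :=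
    (isCompact_sphere (0 : P.V) 1).inter_left P.psd_closed
  by_cases hne : ({h : P.V | P.PSD h} ∩ Metric.sphere (0 : P.V) 1).Nonempty
  · obtain ⟨h0, ⟨hh0, hs0⟩, hmin⟩ := hcomp.exists_isMinOn hne l.continuous.continuousOn
    have h0ne : h0 ≠ 0 := by
      intro h
      rw [h, mem_sphere_zero_iff_norm, norm_zero] at hs0
      exact zero_ne_one hs0
    refine ⟨l h0, hl h0 hh0 h0ne, fun h hh => ?_⟩
    by_cases hz : h = 0
    · rw [hz, norm_zero, map_zero, mul_zero]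
    · have hn : ‖h‖ ≠ 0 := norm_ne_zero_iff.2 hz
      have h1 : ‖h‖⁻¹ • h ∈ {h : P.V | P.PSD h} ∩ Metric.sphere (0 : P.V) 1 := by
        refine ⟨P.psd_smul hh (by positivity), ?_⟩
        rw [mem_sphere_zero_iff_norm, norm_smul, norm_inv, norm_norm, inv_mul_cancel₀ hn]
      have h2 : l h0 ≤ l (‖h‖⁻¹ • h) := hmin h1
      have h3 : l h = ‖h‖ * l (‖h‖⁻¹ • h) := by
        rw [map_smul, smul_eq_mul, ← mul_assoc, mul_inv_cancel₀ hn, one_mul]
      rw [h3, mul_comm]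
      exact mul_le_mul_of_nonneg_left h2 (norm_nonneg _)
  · refine ⟨1, one_pos, fun h hh => ?_⟩
    have hz : h = 0 := by
      by_contra hz
      apply hne
      have hn : ‖h‖ ≠ 0 := norm_ne_zero_iff.2 hz
      refine ⟨‖h‖⁻¹ • h, P.psd_smul hh (by positivity), ?_⟩
      rw [mem_sphere_zero_iff_norm, norm_smul, norm_inv, norm_norm, inv_mul_cancel₀ hn]
    rw [hz, norm_zero, map_zero, mul_zero]

/-- **KMH.** PROOF. Copies of the theorems of `CG2.KoePos` with these names. -/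
theorem kpos_open : IsOpen P.KPos := by
  rw [Metric.isOpen_iff]
  intro l hl
  obtain ⟨ε, hε, hle⟩ := kpos_eps hl
  refine ⟨ε, hε, fun l' hl' h hh hz => ?_⟩
  rw [Metric.mem_ball, dist_eq_norm] at hl'
  have h1 := hle h hh
  have h2 : |(l' - l) h| ≤ ‖l' - l‖ * ‖h‖ := (l' - l).le_opNorm h
  have h3 : 0 < ‖h‖ := norm_pos_iff.2 hz
  rw [sub_apply] at h2
  have h4 := (abs_le.1 h2).1
  have h5 : ‖l' - l‖ * ‖h‖ < ε * ‖h‖ := mul_lt_mul_of_pos_right hl' h3
  linarith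

theorem kpos_add {l : P.V →L[ℝ] ℝ} (hl : l ∈ P.KPos) (x : A) {a : ℝ} (ha : 0 ≤ a) :
    l + a • P.q x ∈ P.KPos := by
  intro h hh hz
  rw [add_apply, smul_apply, smul_eq_mul]
  exact add_pos_of_pos_of_nonneg (hl h hh hz) (mul_nonneg ha (hh x))

theorem kpos_smul {l : P.V →L[ℝ] ℝ} (hl : l ∈ P.KPos) {a : ℝ} (ha : 0 < a) :
    a • l ∈ P.KPos := by
  intro h hh hz
  rw [smul_apply, smul_eq_mul]
  exact mul_pos ha (hl h hh hz)

theorem kpos_bounded {l : P.V →L[ℝ] ℝ} (hl : l ∈ P.KPos) (t : ℝ) :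
    Bornology.IsBounded {h : P.V | P.PSD h ∧ l h ≤ t} := by
  obtain ⟨ε, hε, hle⟩ := kpos_eps hl
  refine (Metric.isBounded_closedBall (x := (0 : P.V)) (r := t / ε)).subset ?_
  rintro h ⟨hh, ht⟩
  rw [mem_closedBall_zero_iff, le_div_iff₀ hε, mul_comm]
  exact (hle h hh).trans ht

end PA

end Pool.Agent.CGQ
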