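import Pool.Agent.CGQ.KMF

/-!
# Positive algebras: the functionals of the units
-/

noncomputable section

namespace Pool.Agent.CGQ

namespace PA

variable {A : Type} [Ring A] [Algebra ℝ A] (P : PA A) [FiniteDimensional ℝ A]

/-- **KMI.** PROOF. Let `h` be semidefinite with `P.q u h = 0`. For `v` in `A` and `t` real
`0 ≤ P.q (u + t v) h = 2 t tau (h v u*) + t² P.q v h` (`tau (h u v*) = tau (v u* h) = tau (h v u*)` by
`tau_inv`, `inv_mul`, `inv_el`, `tau_comm`), so `tau (h v u*) = 0`. Take `v = h (u*)⁻¹` (`P.invU`):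
`tau (h h) = tau (h h*) = 0`, so `h = 0` by `tau_pos`. -/
theorem unit_kpos (u : Aˣ) : P.q u.1 ∈ P.KPos := by
  intro h hh hz
  by_contra hcon
  have h0 : P.q u.1 h = 0 := le_antisymm (not_lt.1 hcon) (hh u.1)
  have key : ∀ v : A, P.tau ((P.el h : A) * (v * P.inv u.1)) = 0 := by
    intro v
    have hsym : P.tau ((P.el h : A) * (u.1 * P.inv v)) = P.tau ((P.el h : A) * (v * P.inv u.1)) := by
      rw [← P.tau_inv, P.inv_mul, P.inv_mul, P.inv_inv, P.inv_el, P.tau_comm]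
    have hexp : ∀ t : ℝ, P.q (u.1 + t • v) h =
        2 * t * P.tau ((P.el h : A) * (v * P.inv u.1)) + t ^ 2 * P.q v h := by
      intro t
      have h1 : P.q u.1 h = P.tau ((P.el h : A) * (u.1 * P.inv u.1)) := rfl
      rw [h0] at h1
      rw [q_apply, q_apply]
      simp only [map_add, map_smul, mul_add, add_mul, smul_mul_assoc, mul_smul_comm, smul_eq_mul]
      rw [← h1, hsym]
      ring
    set b := P.tau ((P.el h : A) * (v * P.inv u.1)) with hb
    set c := P.q v h with hc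
    have hc0 : 0 ≤ c := hh v
    by_contra hbne
    have h2 := hh (u.1 + (-b / (c + 1)) • v)
    rw [hexp] at h2
    have hc1 : (0 : ℝ) < c + 1 := by linarith
    have h3 : 2 * (-b / (c + 1)) * b + (-b / (c + 1)) ^ 2 * c = - (b ^ 2 * (c + 2)) / (c + 1) ^ 2 := by
      field_simp
      ring
    rw [h3] at h2
    have h4 : 0 < b ^ 2 * (c + 2) := by positivity
    have h5 : - (b ^ 2 * (c + 2)) / (c + 1) ^ 2 < 0 := div_neg_of_neg_of_pos (by linarith) (by positivity)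
    linarith
  have h1 := key ((P.el h : A) * ((P.invU u)⁻¹ : Aˣ).1)
  have h2 : (P.el h : A) * ((P.invU u)⁻¹ : Aˣ).1 * P.inv u.1 = P.inv (P.el h : A) := by
    have h3 : ((P.invU u)⁻¹ : Aˣ).1 * P.inv u.1 = 1 := (P.invU u).inv_mul
    rw [mul_assoc, h3, mul_one, P.inv_el]
  rw [h2] at h1
  have h3 : (P.el h : A) ≠ 0 := by
    intro h4
    apply hz
    apply P.el_inj
    rw [h4, map_zero]
    rfl
  exact (P.tau_pos _ h3).ne' h1

/-- **KMJ.** PROOF. `kpos_eps` for `P.q 1` (`unit_kpos 1`) and `q_le`. -/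
theorem q_psd_le : ∃ C : ℝ, 0 ≤ C ∧ ∀ h : P.V, P.PSD h → ∀ x : A,
    P.q x h ≤ C * P.sz x * P.q 1 h := by
  obtain ⟨ε, hε, hle⟩ := kpos_eps (P.unit_kpos 1)
  obtain ⟨C, hC, hq⟩ := P.q_le
  refine ⟨C / ε, by positivity, fun h hh x => ?_⟩
  have h1 : ‖h‖ ≤ P.q 1 h / ε := by
    rw [le_div_iff₀ hε, mul_comm]
    exact hle h hh
  calc P.q x h ≤ |P.q x h| := le_abs_self _
    _ ≤ C * ‖h‖ * P.sz x := hq h x
    _ ≤ C * (P.q 1 h / ε) * P.sz x :=
        mul_le_mul_of_nonneg_right (mul_le_mul_of_nonneg_left h1 hC) (P.sz_nonneg x)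
    _ = C / ε * P.sz x * P.q 1 h := by ring

/-- **KML.** PROOF. `h` = a large multiple of `1` (`exists_el`, `inv_one`): `P.q x h = c sz x`; the set of
the `x ≠ 0` of `L` with `sz x ≤ 1` is finite. -/
theorem exists_large {L : AddSubgroup A} (hL : P.IsLat L) : ∃ h : P.V, P.PD h ∧
    ∀ x ∈ L, x ≠ 0 → 2 ≤ P.q x h := by
  obtain ⟨h1, hh1⟩ := P.exists_el 1 P.inv_one
  have hfin := hL.disc 1
  have hm : ∃ m : ℝ, 0 < m ∧ ∀ x ∈ L, P.sz x ≤ 1 → x ≠ 0 → m ≤ P.sz x := by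
    have hfin2 : ({x | x ∈ L ∧ P.sz x ≤ 1} \ {0} : Set A).Finite := hfin.subset Set.sdiff_subset
    by_cases hne : ({x | x ∈ L ∧ P.sz x ≤ 1} \ {0} : Set A).Nonempty
    · obtain ⟨y, hy, hmin⟩ := Set.exists_min_image _ P.sz hfin2 hne
      exact ⟨P.sz y, P.sz_pos hy.2, fun x hx hx1 hx0 => hmin x ⟨⟨hx, hx1⟩, hx0⟩⟩
    · exact ⟨1, one_pos, fun x hx hx1 hx0 => absurd ⟨x, ⟨hx, hx1⟩, hx0⟩ hne⟩
  obtain ⟨m, hm0, hm⟩ := hm
  have hq : ∀ x, P.q x ((2 + 2 / m) • h1) = (2 + 2 / m) * P.sz x := by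
    intro x
    rw [map_smul, smul_eq_mul, P.q_one x h1 hh1]
  have hc : 0 < 2 + 2 / m := by positivity
  refine ⟨(2 + 2 / m) • h1, ?_, ?_⟩
  · intro x hx
    rw [hq]
    exact mul_pos hc (P.sz_pos hx)
  · intro x hx hx0
    rw [hq]
    by_cases h2 : P.sz x ≤ 1
    · have h3 := hm x hx h2 hx0
      have h4 : 2 / m * m = 2 := by field_simp
      have h5 : 2 / m * m ≤ 2 / m * P.sz x := mul_le_mul_of_nonneg_left h3 (by positivity)
      nlinarith [P.sz_nonneg x]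
    · have h3 : 1 < P.sz x := not_le.1 h2
      have h4 : 0 ≤ 2 / m * P.sz x := mul_nonneg (by positivity) (P.sz_nonneg x)
      nlinarith

end PA

end Pool.Agent.CGQ
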