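import Pool.Agent.CGQ.KOr

/-!
# The data of the top degrees and the systems of cells
-/

noncomputable section

namespace Pool.Agent.CGQ

open NumberField IsDedekindDomain Pool.Agent.CG3
open Pool.Agent.CG2 (Pl Fv Ov PolySys CellSys Asc)

variable {F : Type} [Field F] [NumberField F] {q : Qd F}

theorem dimV_ge (q : Qd F) (hr : 1 ≤ Nat.card (SPl q) + InfinitePlace.nrComplexPlaces F) :
    3 ≤ dimV q := by
  unfold dimV
  omega

instance (q : Qd F) : Countable (sysD q).G := by
  have h1 : Countable F :=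
    (Module.finBasis ℚ F).equivFun.toEquiv.countable_iff.2 inferInstance
  have h2 : Countable (DF q) := (QuaternionAlgebra.equivTuple _ _ _).countable_iff.2 inferInstance
  exact (Units.val_injective (α := DF q)).countable

/-- An element of `V` on which all functionals are positive. -/
theorem exists_hone (q : Qd F) : ∃ h : (PAI q).V, ∀ e : (sysD q).G, 0 < qe q e h := by
  obtain ⟨h, hh⟩ := (PAI q).exists_el 1 (PAI q).inv_one
  refine ⟨h, fun e => ?_⟩
  rw [qe, PA.q_one _ _ _ hh]
  exact (PAI q).sz_pos (thU q (uK e)).ne_zero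

/-- The representative of `γ b`. -/
theorem outK_smul {𝒟 : Sys F} {K : Subgroup 𝒟.A} (γ : 𝒟.G) (b : PtK K) :
    ∃ κ ∈ K, outK (γ • b) = rt (act γ (outK b)) κ := by
  have h1 : mkK K (outK (γ • b)) = mkK K (act γ (outK b)) := by
    rw [mkK_outK]
    conv_lhs => rw [← mkK_outK b]
    rfl
  exact mkK_eq.1 h1.symm

/-- The data of the top degrees. -/
theorem exists_tsys (hD : IsDiv q)
    (hr : 1 ≤ Nat.card (SPl q) + InfinitePlace.nrComplexPlaces F) {N : ℕ} (hN : 3 ≤ N)
    {K : Subgroup (sysD q).A} (hK : K ≤ KNq q N) (hO : OC K) :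
    ∃ X : TSys K, X.C.n0 + 1 = dimV q ∧ (∀ γ, X.ε γ = epsQ q ((sysD q).sgn γ)) ∧
      ∀ y : (sysD q).Pt, X.sg (mkK K y) = epsQ q y.1 := by
  obtain ⟨C, hC⟩ := exists_goodQ q N (by omega)
  obtain ⟨b, hb⟩ := (famQ hD N hN C hC).exists_genF
  obtain ⟨h, hh⟩ := exists_hone q
  have hd := dimV_ge q hr
  refine ⟨{ C := (famQ hD N hN C hC).cs hK
            two := by
              change 2 ≤ dimV q - 1
              omega
            min := (famQ hD N hN C hC).cs_min hK
            orb := orbQ hD N hN C hC hK hO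
            asc := (famQ hD N hN C hC).cs_asc hK
            om := (famQ hD N hN C hC).om b
            om_cyc := (famQ hD N hN C hC).om_cocycle b hb h hh
            om_fin := fun w x y => om_fin hD N hN C hC hK b hb y x w
            sg := fun x => epsQ q (outK x).1
            ε := (epsQ q).comp (sysD q).sgn
            sg_smul := ?_
            fan := (famQ hD N hN C hC).om_fan hK b hb }, ?_, fun γ => rfl, ?_⟩
  · intro γ x
    obtain ⟨κ, -, hκ⟩ := outK_smul γ x
    have h1 : (outK (γ • x)).1 = (sysD q).sgn γ * (outK x).1 := by rw [hκ]; rfl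
    change epsQ q (outK (γ • x)).1 = epsQ q ((sysD q).sgn γ) * epsQ q (outK x).1
    rw [h1, map_mul]
  · change dimV q - 1 + 1 = dimV q
    omega
  · intro y
    have h1 := mkK_outK (mkK K y)
    obtain ⟨κ, -, hκ⟩ := mkK_eq.1 h1.symm
    change epsQ q (outK (mkK K y)).1 = epsQ q y.1
    rw [hκ]
    rfl

/-- The systems of cells of torsion free groups. -/
theorem exists_prodQ (hD : IsDiv q) {K : Subgroup (sysD q).A} (hO : OC K)
    (hTF : TorsionFree K) : ∃ (E : Type) (_ : MulAction (sysD q).G E) (_ : DecidableEq E),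
      Nonempty (CellSys (sysD q).G (PtK K) E) := by
  obtain ⟨C, hC⟩ := exists_goodQ q 3 (by omega)
  exact (famQ hD 3 le_rfl C hC).exists_prodCell (oc_KNq 3 (by omega)) hO hTF

end Pool.Agent.CGQ
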