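import Pool.Agent.CGQ.KLat

/-!
# Compact sets
-/

noncomputable section

namespace Pool.Agent.CGQ

open NumberField IsDedekindDomain
open Pool.Agent.CG2 (Pl Fv Ov)

variable {F : Type} [Field F] [NumberField F] {q : Qd F}

/-- The elements `g` of `D_v^×` such that `M g` and `g⁻¹` are integral. -/
def DMq (q : Qd F) (M : ℕ) (v : Pl F) : Set (DV q v)ˣ :=
  {g | IntQ q v (((M : ℕ) : DV q v) * g.1) ∧ IntQ q v (g⁻¹ : (DV q v)ˣ).1}

private theorem knb_co_nat {R : Type} [CommRing R] {a b : R} (N : ℕ)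
    (x : QuaternionAlgebra R a 0 b) (i : Fin 4) :
    co (((N : ℕ) : QuaternionAlgebra R a 0 b) * x) i = ((N : ℕ) : R) * co x i := by
  rw [← nsmul_eq_mul, ← nsmul_eq_mul]
  fin_cases i <;> rfl

private theorem knb_cont (q : Qd F) (v : Pl F) : Continuous (dint q v) := by
  have hcast : Continuous (ovHom v) := continuous_subtype_val
  exact continuous_q (hcast.comp continuous_re) (hcast.comp continuous_imI)
    (hcast.comp continuous_imJ) (hcast.comp continuous_imK)

private theorem knb_csmul {v : Pl F} (c : Fv v) : Continuous fun x : DV q v => c • x :=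
  continuous_q (continuous_const.mul continuous_re) (continuous_const.mul continuous_imI)
    (continuous_const.mul continuous_imJ) (continuous_const.mul continuous_imK)

private theorem knb_smul_nat {v : Pl F} {M : ℕ} (hM0 : ((M : ℕ) : Fv v) ≠ 0) :
    ((M : ℕ) : Fv v)⁻¹ • ((M : ℕ) : DV q v) = 1 := by
  have h1 : ((M : ℕ) : DV q v) = ((M : ℕ) : Fv v) • (1 : DV q v) := by
    rw [Nat.cast_smul_eq_nsmul, nsmul_eq_mul, mul_one]
  rw [h1, smul_smul, inv_mul_cancel₀ hM0, one_smul]

/-- **KNB.** PROOF. Port of `CG2.KoeFin_D_compact` (`isCompact_BZ` in `DDefs` has the topology of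
`QA q (Ov v)`). -/
theorem DMq_compact (M : ℕ) (hM : M ≠ 0) (v : Pl F) : IsCompact (DMq q M v) := by
  have hM0 : ((M : ℕ) : Fv v) ≠ 0 := by
    intro h
    exact CG2.KoeLat_val_natCast_ne v hM (by rw [h, map_zero])
  have h0 : CompactSpace (Ov v) := inferInstance
  have hcO : CompactSpace (QA q (Ov v)) := inferInstance
  let P : Set (QA q (Ov v) × QA q (Ov v)) :=
    {p | p.1 * p.2 = ((M : ℕ) : QA q (Ov v)) ∧ p.2 * p.1 = ((M : ℕ) : QA q (Ov v))}
  have hP : IsClosed P := by
    have c1 : Continuous fun p : QA q (Ov v) × QA q (Ov v) => p.1 * p.2 :=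
      continuous_fst.mul continuous_snd
    have c2 : Continuous fun p : QA q (Ov v) × QA q (Ov v) => p.2 * p.1 :=
      continuous_snd.mul continuous_fst
    exact IsClosed.inter (isClosed_eq c1 continuous_const) (isClosed_eq c2 continuous_const)
  have hPc : CompactSpace P := isCompact_iff_compactSpace.1 hP.isCompact
  have hιc := knb_cont q v
  let f : P → (DV q v)ˣ := fun p =>
    ⟨((M : ℕ) : Fv v)⁻¹ • dint q v p.1.1, dint q v p.1.2, by
      rw [smul_mul_assoc, ← map_mul, p.2.1, map_natCast, knb_smul_nat hM0], by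
      rw [mul_smul_comm, ← map_mul, p.2.2, map_natCast, knb_smul_nat hM0]⟩
  have hf : Continuous f := by
    have c1 : Continuous fun p : P => p.1.1 := continuous_fst.comp continuous_subtype_val
    have c2 : Continuous fun p : P => p.1.2 := continuous_snd.comp continuous_subtype_val
    refine Units.continuous_iff.2 ⟨?_, ?_⟩
    · exact (knb_csmul (((M : ℕ) : Fv v)⁻¹)).comp (hιc.comp c1)
    · exact hιc.comp c2
  have hr : DMq q M v = Set.range f := by
    ext g
    constructor
    · rintro ⟨h1, h2⟩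
      obtain ⟨A, hA⟩ := (intQ_iff q v _).1 h1
      obtain ⟨B, hB⟩ := (intQ_iff q v _).1 h2
      have hAB : A * B = ((M : ℕ) : QA q (Ov v)) := by
        apply dint_inj q v
        rw [map_mul, hA, hB, map_natCast, mul_assoc, Units.mul_inv, mul_one]
      have hBA : B * A = ((M : ℕ) : QA q (Ov v)) := by
        apply dint_inj q v
        rw [map_mul, hA, hB, map_natCast, (Nat.cast_commute M g.1).eq, ← mul_assoc,
          Units.inv_mul, one_mul]
      refine ⟨⟨(A, B), hAB, hBA⟩, ?_⟩
      apply Units.ext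
      show ((M : ℕ) : Fv v)⁻¹ • dint q v A = _
      rw [hA, ← smul_mul_assoc, knb_smul_nat hM0, one_mul]
    · rintro ⟨p, rfl⟩
      refine ⟨?_, (intQ_iff q v _).2 ⟨p.1.2, rfl⟩⟩
      have h1 : ((M : ℕ) : DV q v) * (f p).1 = dint q v p.1.1 := by
        show ((M : ℕ) : DV q v) * (((M : ℕ) : Fv v)⁻¹ • dint q v p.1.1) = _
        rw [mul_smul_comm, ← smul_mul_assoc, knb_smul_nat hM0, one_mul]
      rw [h1]
      exact (intQ_iff q v _).2 ⟨_, rfl⟩
  rw [hr]
  exact isCompact_range hf

/-- **KNC.** PROOF. `CG2.KoeCls_fin`. -/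
theorem DMq_fin (M : ℕ) (hM : M ≠ 0) :
    {v : Pl F | ¬ DMq q M v ⊆ (BZ q v : Set (DV q v)ˣ)}.Finite := by
  refine (CG2.KoeCls_fin F M hM).subset ?_
  intro v hv h1
  apply hv
  rintro g ⟨h2, h3⟩
  refine (mem_BZ_iff q v g).2 ⟨(intQ_iff_co q v _).2 fun i => ?_, h3⟩
  have h4 := (intQ_iff_co q v _).1 h2 i
  rw [knb_co_nat, map_mul, h1, one_mul] at h4
  exact h4

end Pool.Agent.CGQ
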