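import Mathlib

/-!
# Real algebras with a positive involution
-/

noncomputable section

set_option linter.unusedSectionVars false

namespace Pool.Agent.CGQ

/-- A real algebra with a positive involution `inv` and a trace `tau`. -/
structure PA (A : Type) [Ring A] [Algebra ℝ A] where
  /-- the involution -/
  inv : A →ₗ[ℝ] A
  inv_mul : ∀ x y, inv (x * y) = inv y * inv x
  inv_inv : ∀ x, inv (inv x) = x
  /-- the trace -/
  tau : A →ₗ[ℝ] ℝ
  tau_comm : ∀ x y, tau (x * y) = tau (y * x)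
  tau_inv : ∀ x, tau (inv x) = tau x
  tau_pos : ∀ x, x ≠ 0 → 0 < tau (x * inv x)

namespace PA

variable {A : Type} [Ring A] [Algebra ℝ A] (P : PA A)

/-- The symmetric elements. -/
def sym : Submodule ℝ A where
  carrier := {h | P.inv h = h}
  add_mem' := by
    intro a b ha hb
    change P.inv (a + b) = a + b
    rw [map_add]
    exact congrArg₂ (· + ·) ha hb
  zero_mem' := map_zero _
  smul_mem' := by
    intro c a ha
    change P.inv (c • a) = c • a
    rw [map_smul]
    exact congrArg (c • ·) ha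

/-- A normed space with the dimension of the space of the symmetric elements. -/
abbrev V : Type := Fin (Module.finrank ℝ P.sym) → ℝ

theorem inv_one : P.inv 1 = 1 := by
  have h := P.inv_mul (P.inv 1) 1
  rw [mul_one, P.inv_inv, mul_one] at h
  exact h.symm

/-- The size of an element. -/
def sz (x : A) : ℝ := P.tau (x * P.inv x)

theorem sz_zero : P.sz 0 = 0 := by
  simp [sz]

theorem sz_nonneg (x : A) : 0 ≤ P.sz x := by
  by_cases h : x = 0
  · rw [h, sz_zero]
  · exact (P.tau_pos x h).le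

theorem sz_pos {x : A} (h : x ≠ 0) : 0 < P.sz x := P.tau_pos x h

/-- The involution of a unit. -/
def invU (u : Aˣ) : Aˣ where
  val := P.inv u.1
  inv := P.inv (u⁻¹ : Aˣ).1
  val_inv := by rw [← P.inv_mul, Units.inv_mul, P.inv_one]
  inv_val := by rw [← P.inv_mul, Units.mul_inv, P.inv_one]

variable [FiniteDimensional ℝ A]

/-- The parametrisation of the symmetric elements. -/
def el : P.V ≃ₗ[ℝ] P.sym := (Module.finBasis ℝ P.sym).equivFun.symm

theorem inv_el (h : P.V) : P.inv (P.el h : A) = P.el h := (P.el h).2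

theorem exists_el (z : A) (hz : P.inv z = z) : ∃ h : P.V, (P.el h : A) = z :=
  ⟨P.el.symm ⟨z, hz⟩, by rw [LinearEquiv.apply_symm_apply]⟩

theorem el_inj {h h' : P.V} (e : (P.el h : A) = P.el h') : h = h' :=
  P.el.injective (Subtype.ext e)

/-- The linear functional `h ↦ tau (h x x*)` on `V`. -/
def q (x : A) : P.V →L[ℝ] ℝ :=
  LinearMap.toContinuousLinearMap
    { toFun := fun h => P.tau ((P.el h : A) * (x * P.inv x))
      map_add' := by
        intro a b
        rw [map_add, Submodule.coe_add, add_mul, map_add]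
      map_smul' := by
        intro c a
        rw [map_smul, Submodule.coe_smul, smul_mul_assoc, map_smul, RingHom.id_apply] }

theorem q_apply (x : A) (h : P.V) : P.q x h = P.tau ((P.el h : A) * (x * P.inv x)) := rfl

/-- Positive semidefinite elements. -/
def PSD (h : P.V) : Prop := ∀ x : A, 0 ≤ P.q x h

/-- Positive definite elements. -/
def PD (h : P.V) : Prop := ∀ x : A, x ≠ 0 → 0 < P.q x h

/-- The functionals which are positive on the non-zero positive semidefinite elements. -/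
def KPos : Set (P.V →L[ℝ] ℝ) := {l | ∀ h : P.V, P.PSD h → h ≠ 0 → 0 < l h}

theorem q_mul (x : A) (h : P.V) : P.q x h = P.tau (P.inv x * ((P.el h : A) * x)) := by
  rw [q_apply, ← mul_assoc, P.tau_comm]

/-- The map `h ↦ u* h u` of the symmetric elements. -/
def cj (u : A) : P.sym →ₗ[ℝ] P.sym where
  toFun h := ⟨P.inv u * (h.1 * u), by
    have h1 : P.inv h.1 = h.1 := h.2
    have h2 : P.inv (P.inv u * (h.1 * u)) = P.inv u * (h.1 * u) := by
      rw [P.inv_mul, P.inv_mul, P.inv_inv, h1, mul_assoc]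
    exact h2⟩
  map_add' a b := by
    apply Subtype.ext
    change P.inv u * ((a.1 + b.1) * u) = P.inv u * (a.1 * u) + P.inv u * (b.1 * u)
    rw [add_mul, mul_add]
  map_smul' c a := by
    apply Subtype.ext
    change P.inv u * ((c • a.1) * u) = c • (P.inv u * (a.1 * u))
    rw [smul_mul_assoc, mul_smul_comm]

theorem cj_cj (u v : A) (h : P.sym) : P.cj u (P.cj v h) = P.cj (v * u) h := by
  apply Subtype.ext
  change P.inv u * (P.inv v * (h.1 * v) * u) = P.inv (v * u) * (h.1 * (v * u))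
  rw [P.inv_mul]
  simp only [mul_assoc]

theorem cj_one (h : P.sym) : P.cj 1 h = h := by
  apply Subtype.ext
  change P.inv 1 * (h.1 * 1) = h.1
  rw [P.inv_one, one_mul, mul_one]

/-- The action of the units on the symmetric elements: `h ↦ (u⁻¹)* h u⁻¹`. -/
def cjE (u : Aˣ) : P.sym ≃ₗ[ℝ] P.sym where
  toFun := P.cj (u⁻¹ : Aˣ).1
  map_add' := map_add _
  map_smul' := map_smul _
  invFun := P.cj u.1
  left_inv h := by rw [cj_cj, Units.inv_mul, cj_one]
  right_inv h := by rw [cj_cj, Units.mul_inv, cj_one]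

/-- The action of the units on `V`. -/
def hA (u : Aˣ) : P.V ≃ₗ[ℝ] P.V :=
  LinearEquiv.trans (LinearEquiv.trans P.el (P.cjE u)) P.el.symm

theorem el_hA (u : Aˣ) (h : P.V) :
    (P.el (P.hA u h) : A) = P.inv (u⁻¹ : Aˣ).1 * ((P.el h : A) * (u⁻¹ : Aˣ).1) := by
  have h1 : P.el (P.hA u h) = P.cj (u⁻¹ : Aˣ).1 (P.el h) := by
    rw [hA, LinearEquiv.trans_apply, LinearEquiv.apply_symm_apply]
    rfl
  rw [h1]
  rfl

theorem hA_q (u : Aˣ) (x : A) (h : P.V) : P.q (u.1 * x) (P.hA u h) = P.q x h := by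
  rw [q_mul, q_mul, el_hA, P.inv_mul]
  have h1 : P.inv u.1 * P.inv (u⁻¹ : Aˣ).1 = 1 := by rw [← P.inv_mul, Units.inv_mul, P.inv_one]
  have h2 : P.inv x * P.inv u.1 * (P.inv (u⁻¹ : Aˣ).1 * ((P.el h : A) * (u⁻¹ : Aˣ).1) *
      (u.1 * x)) = P.inv x * ((P.inv u.1 * P.inv (u⁻¹ : Aˣ).1) * ((P.el h : A) *
        (((u⁻¹ : Aˣ).1 * u.1) * x))) := by
    simp only [mul_assoc]
  rw [h2, h1, Units.inv_mul, one_mul, one_mul]

theorem hA_mul (u v : Aˣ) (h : P.V) : P.hA (u * v) h = P.hA u (P.hA v h) := by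
  apply P.el_inj
  rw [el_hA, el_hA, el_hA, _root_.mul_inv_rev, Units.val_mul, P.inv_mul]
  simp only [mul_assoc]

theorem hA_one (h : P.V) : P.hA 1 h = h := by
  apply P.el_inj
  rw [el_hA, _root_.inv_one, Units.val_one, P.inv_one, one_mul, mul_one]

theorem hA_psd (u : Aˣ) (h : P.V) : P.PSD h ↔ P.PSD (P.hA u h) := by
  constructor
  · intro hh x
    have h1 : x = u.1 * ((u⁻¹ : Aˣ).1 * x) := by rw [← mul_assoc, Units.mul_inv, one_mul]
    rw [h1, hA_q]
    exact hh _
  · intro hh x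
    rw [← P.hA_q u x h]
    exact hh _

/-- The determinant of the action. -/
def dt (u : Aˣ) : ℝ := LinearMap.det (P.hA u : P.V →ₗ[ℝ] P.V)

theorem dt_mul (u v : Aˣ) : P.dt (u * v) = P.dt u * P.dt v := by
  have h : (P.hA (u * v) : P.V →ₗ[ℝ] P.V) = (P.hA u : P.V →ₗ[ℝ] P.V) ∘ₗ (P.hA v : P.V →ₗ[ℝ] P.V) :=
    LinearMap.ext fun h => P.hA_mul u v h
  rw [dt, h, LinearMap.det_comp]
  rfl

theorem dt_of_fix {u : Aˣ} (h : ∀ h, P.hA u h = h) : P.dt u = 1 := by
  have h1 : (P.hA u : P.V →ₗ[ℝ] P.V) = LinearMap.id := LinearMap.ext h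
  rw [dt, h1, LinearMap.det_id]

theorem dt_ne (u : Aˣ) : P.dt u ≠ 0 := by
  intro h
  have h1 := P.dt_mul u u⁻¹
  rw [mul_inv_cancel, P.dt_of_fix P.hA_one, h, zero_mul] at h1
  exact one_ne_zero h1

theorem dt_sq_pos (u : Aˣ) : 0 < P.dt (u * u) := by
  rw [dt_mul]
  exact mul_self_pos.2 (P.dt_ne u)

/-- `L` is discrete and cocompact. -/
structure IsLat (L : AddSubgroup A) : Prop where
  disc : ∀ C : ℝ, {x | x ∈ L ∧ P.sz x ≤ C}.Finite
  coc : ∃ R : ℝ, ∀ z : A, ∃ x ∈ L, P.sz (z - x) ≤ R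

end PA

end Pool.Agent.CGQ
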