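import Mathlib

/-!
# The cocycle of a generic vector
-/

noncomputable section

namespace Pool.Agent.CGQ

section lin

/-- `b` is in the open cone of the `v i`. -/
def InCone {W : Type} [AddCommGroup W] [Module ℝ W] {m : ℕ} (b : W) (v : Fin m → W) : Prop :=
  ∃ x : Fin m → ℝ, (∀ i, 0 < x i) ∧ b = ∑ i, x i • v i

open Classical in
/-- The sign of the determinant if `b` is in the open cone, and `0` otherwise. -/
def cdet {m : ℕ} (b : Fin m → ℝ) (v : Fin m → Fin m → ℝ) : ℤ :=
  if InCone b v then SignType.sign (Matrix.det (Matrix.of v)) else 0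

private theorem kra_laplace {m : ℕ} (v : Fin (m + 1) → Fin m → ℝ) :
    ∑ i : Fin (m + 1), ((-1 : ℝ) ^ (i : ℕ) * Matrix.det (Matrix.of (v ∘ i.succAbove))) • v i
      = 0 := by
  funext k
  have h1 := Matrix.det_succ_column_zero
    (Matrix.of (fun i : Fin (m + 1) => (Fin.cons (v i k) (v i) : Fin (m + 1) → ℝ)))
  have h2 : Matrix.det
      (Matrix.of (fun i : Fin (m + 1) => (Fin.cons (v i k) (v i) : Fin (m + 1) → ℝ))) = 0 := by
    apply Matrix.det_zero_of_column_eq (i := 0) (j := k.succ)
    · exact (Fin.succ_ne_zero k).symm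
    · intro i
      simp
  rw [h2] at h1
  rw [Finset.sum_apply]
  simp only [Pi.smul_apply, Pi.zero_apply, smul_eq_mul]
  rw [h1]
  apply Finset.sum_congr rfl
  intro i _
  have h3 : (Matrix.of (fun i : Fin (m + 1) =>
      (Fin.cons (v i k) (v i) : Fin (m + 1) → ℝ))).submatrix i.succAbove Fin.succ
      = Matrix.of (v ∘ i.succAbove) := by
    ext a b
    simp
  rw [h3]
  simp only [Matrix.of_apply, Fin.cons_zero]
  ring

private theorem kra_ker {m : ℕ} (v : Fin (m + 1) → Fin m → ℝ) (l : Fin (m + 1) → ℝ)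
    (hl : ∑ i, l i • v i = 0) (k : Fin (m + 1)) (hk : l k ≠ 0)
    (hdet : Matrix.det (Matrix.of (v ∘ k.succAbove)) ≠ 0)
    (c : Fin (m + 1) → ℝ) (hc : ∑ i, c i • v i = 0) :
    ∀ i, c i = (c k / l k) * l i := by
  have hli : LinearIndependent ℝ (fun j : Fin m => v (k.succAbove j)) := by
    have := Matrix.linearIndependent_rows_of_det_ne_zero hdet
    exact this
  have h0 : ∑ i, (c i - (c k / l k) * l i) • v i = 0 := by
    have : ∑ i, (c i - (c k / l k) * l i) • v i
        = ∑ i, c i • v i - (c k / l k) • ∑ i, l i • v i := by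
      rw [Finset.smul_sum, ← Finset.sum_sub_distrib]
      apply Finset.sum_congr rfl
      intro i _
      rw [sub_smul, mul_smul]
    rw [this, hc, hl]
    simp
  rw [Fin.sum_univ_succAbove _ k] at h0
  have hkk : c k - (c k / l k) * l k = 0 := by
    field_simp
    ring
  rw [hkk, zero_smul, zero_add] at h0
  rw [Fintype.linearIndependent_iff] at hli
  have h1 := hli _ h0
  intro i
  rcases eq_or_ne i k with h | h
  · subst h
    linarith
  · obtain ⟨j, rfl⟩ := Fin.exists_succAbove_eq h
    have := h1 j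
    linarith

private theorem kra_comb {m : ℕ} (x l : Fin (m + 1) → ℝ) (hneg : ∃ j, l j < 0)
    (hone : ∀ t i j, x i + t * l i = 0 → x j + t * l j = 0 → i = j)
    (hp : ∃ i, 0 < l i ∧ ∀ j, j ≠ i → 0 < x j + (-x i / l i) * l j) :
    ∃ i, l i < 0 ∧ ∀ j, j ≠ i → 0 < x j + (-x i / l i) * l j := by
  classical
  obtain ⟨i, hi, hP⟩ := hp
  obtain ⟨j0, hj0⟩ := hneg
  obtain ⟨j1, hj1, hmin⟩ := Finset.exists_min_image
    (Finset.univ.filter (fun j => l j < 0)) (fun j => -x j / l j)
    ⟨j0, by simp [hj0]⟩
  simp only [Finset.mem_filter, Finset.mem_univ, true_and] at hj1 hmin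
  refine ⟨j1, hj1, ?_⟩
  have hne : j1 ≠ i := by
    intro h
    rw [h] at hj1
    linarith
  have hge : ∀ j, 0 ≤ x j + (-x i / l i) * l j := by
    intro j
    rcases eq_or_ne j i with h | h
    · subst h
      have : x j + -x j / l j * l j = 0 := by
        have : l j ≠ 0 := hi.ne'
        field_simp
        ring
      exact this.ge
    · exact (hP j h).le
  have ht : -x i / l i ≤ -x j1 / l j1 := by
    have := hge j1
    rw [le_div_iff_of_neg hj1]
    linarith
  have hz : x j1 + (-x j1 / l j1) * l j1 = 0 := by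
    have : l j1 ≠ 0 := hj1.ne
    field_simp
    ring
  have hall : ∀ j, 0 ≤ x j + (-x j1 / l j1) * l j := by
    intro j
    rcases lt_or_ge (l j) 0 with h | h
    · have h1 := hmin j h
      rw [le_div_iff_of_neg h] at h1
      linarith
    · have h1 := hge j
      have h2 := mul_le_mul_of_nonneg_right ht h
      linarith
  intro j hj
  rcases (hall j).lt_or_eq with h | h
  · exact h
  · exact absurd (hone _ _ _ h.symm hz) hj

private theorem kra_uniq {m : ℕ} (x l : Fin (m + 1) → ℝ) (i i' : Fin (m + 1))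
    (hi : 0 < l i) (hi' : 0 < l i')
    (hP : ∀ j, j ≠ i → 0 < x j + (-x i / l i) * l j)
    (hP' : ∀ j, j ≠ i' → 0 < x j + (-x i' / l i') * l j) : i = i' := by
  by_contra hne
  have h1 := hP i' (Ne.symm hne)
  have h2 := hP' i hne
  have h3 : x i = - (-x i / l i) * l i := by
    have : l i ≠ 0 := hi.ne'
    field_simp
  have h4 : x i' = - (-x i' / l i') * l i' := by
    have : l i' ≠ 0 := hi'.ne'
    field_simp
  set s := -x i / l i with hs
  set s' := -x i' / l i' with hs'
  rw [h4] at h1
  rw [h3] at h2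
  have h5 : 0 < (s - s') * l i' := by linarith
  have h6 : 0 < (s' - s) * l i := by linarith
  have h7 : 0 < s - s' := (pos_iff_pos_of_mul_pos h5).mpr hi'
  have h8 : 0 < s' - s := (pos_iff_pos_of_mul_pos h6).mpr hi
  linarith

open Classical in
private theorem kra_sum {m : ℕ} (x l : Fin (m + 1) → ℝ) (hneg : ∃ j, l j < 0)
    (hpos : ∃ j, 0 < l j)
    (hone : ∀ t i j, x i + t * l i = 0 → x j + t * l j = 0 → i = j) :
    ∑ i, (if (l i ≠ 0 ∧ ∀ j, j ≠ i → 0 < x j + (-x i / l i) * l j)
      then ((SignType.sign (l i) : SignType) : ℤ) else 0) = 0 := by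
  have hneg' : ∃ j, (fun j => - l j) j < 0 := by
    obtain ⟨j, hj⟩ := hpos
    exact ⟨j, by simpa using hj⟩
  have hone' : ∀ t i j, x i + t * (fun j => - l j) i = 0 → x j + t * (fun j => - l j) j = 0 →
      i = j := by
    intro t i j h1 h2
    apply hone (-t) i j
    · simp only at h1
      linarith
    · simp only at h2
      linarith
  have heq : ∀ i j, x j + (-x i / (fun j => - l j) i) * (fun j => - l j) j
      = x j + (-x i / l i) * l j := by
    intro i j
    simp only [div_neg]
    ring
  by_cases hex : ∃ i, 0 < l i ∧ ∀ j, j ≠ i → 0 < x j + (-x i / l i) * l j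
  · obtain ⟨i1, h1, hP1⟩ := kra_comb x l hneg hone hex
    obtain ⟨i0, h0, hP0⟩ := hex
    have hne : i0 ≠ i1 := by
      intro h
      rw [h] at h0
      linarith
    have hsub : ∀ i, i ∉ ({i0, i1} : Finset (Fin (m + 1))) →
        (if (l i ≠ 0 ∧ ∀ j, j ≠ i → 0 < x j + (-x i / l i) * l j)
          then ((SignType.sign (l i) : SignType) : ℤ) else 0) = 0 := by
      intro i hi
      rw [if_neg]
      rintro ⟨hi1, hi2⟩
      simp only [Finset.mem_insert, Finset.mem_singleton, not_or] at hi
      rcases lt_or_gt_of_ne hi1 with h | h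
      · apply hi.2
        apply kra_uniq x (fun j => - l j) i i1 (by simpa using h) (by simpa using h1)
        · intro j hj
          rw [heq]
          exact hi2 j hj
        · intro j hj
          rw [heq]
          exact hP1 j hj
      · exact hi.1 (kra_uniq x l i i0 h h0 hi2 hP0)
    rw [← Finset.sum_subset (Finset.subset_univ ({i0, i1} : Finset (Fin (m + 1))))
      (fun i _ hi => hsub i hi)]
    rw [Finset.sum_pair hne, if_pos ⟨h0.ne', hP0⟩, if_pos ⟨h1.ne, hP1⟩]
    rw [sign_pos h0, sign_neg h1]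
    simp
  · apply Finset.sum_eq_zero
    intro i _
    rw [if_neg]
    rintro ⟨hi1, hi2⟩
    rcases lt_or_gt_of_ne hi1 with h | h
    · apply hex
      obtain ⟨i2, h2, hP2⟩ := kra_comb x (fun j => - l j) hneg' hone'
        ⟨i, by simpa using h, fun j hj => by rw [heq]; exact hi2 j hj⟩
      refine ⟨i2, by simpa using h2, fun j hj => ?_⟩
      have := hP2 j hj
      rw [heq] at this
      exact this
    · exact hex ⟨i, h, hi2⟩

/-- **KRA.** PROOF. Let `Δ i` be the determinant of the `v j`, `j ≠ i`, and `λ i = (-1)^i Δ i`; then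
`∑ λ i v i = 0` (Laplace expansion). If all `Δ i = 0` the sum is `0`. Otherwise the `v i` span, `b = ∑ x i v i`,
and all solutions are `x + t λ` (the kernel is one dimensional). `λ` has both signs, since the `v i`
are positive on `h`. Let `T = {t | x + t λ ≥ 0}`, a compact interval or empty. For `t` in `T` at most
one coordinate of `x + t λ` vanishes (`hgen`). If `Δ i ≠ 0` then `b` is in the open cone of the `v j`,
`j ≠ i`, iff the unique `t` with `x i + t λ i = 0` is in `T`; so `T = ∅` gives `0`; otherwise `T = [t₀, t₁]`,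
`t₀ < t₁`, exactly one `i₀` with `λ i₀ > 0` vanishes at `t₀`, one `i₁` with `λ i₁ < 0` at `t₁`, and inside
no coordinate with `λ i ≠ 0` vanishes; the sum is `sign λ i₀ + sign λ i₁ = 0`. -/
theorem cdet_cocycle {m : ℕ} (hm : 0 < m) (b : Fin m → ℝ) (v : Fin (m + 1) → Fin m → ℝ)
    (h : (Fin m → ℝ) →ₗ[ℝ] ℝ) (hpos : ∀ i, 0 < h (v i))
    (hgen : ∀ T : Finset (Fin (m + 1)), T.card < m → b ∉ Submodule.span ℝ (v '' T)) :
    ∑ i : Fin (m + 1), (-1 : ℤ) ^ (i : ℕ) * cdet b (v ∘ i.succAbove) = 0 := by
  classical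
  set D : Fin (m + 1) → ℝ := fun i => Matrix.det (Matrix.of (v ∘ i.succAbove)) with hD
  set l : Fin (m + 1) → ℝ := fun i => (-1 : ℝ) ^ (i : ℕ) * D i with hl
  have hlap : ∑ i, l i • v i = 0 := kra_laplace v
  have hl0 : ∀ i, l i ≠ 0 ↔ D i ≠ 0 := by
    intro i
    simp [hl]
  by_cases hall : ∀ i, D i = 0
  · apply Finset.sum_eq_zero
    intro i _
    have : cdet b (v ∘ i.succAbove) = 0 := by
      unfold cdet
      split_ifs
      · have h1 : Matrix.det (Matrix.of (v ∘ i.succAbove)) = 0 := hall i
        rw [h1]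
        simp
      · rfl
    rw [this, mul_zero]
  push Not at hall
  obtain ⟨k, hk⟩ := hall
  have hlk : l k ≠ 0 := (hl0 k).mpr hk
  -- `b` is a combination
  have hspan : ∃ x : Fin (m + 1) → ℝ, b = ∑ i, x i • v i := by
    have hdet : Matrix.det (Matrix.of (v ∘ k.succAbove)) ≠ 0 := hk
    have hu : IsUnit (Matrix.of (v ∘ k.succAbove)) := by
      rw [Matrix.isUnit_iff_isUnit_det]
      exact isUnit_iff_ne_zero.mpr hdet
    have h1 : ∃ y : Fin m → ℝ, Matrix.vecMul y (Matrix.of (v ∘ k.succAbove)) = b := by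
      refine ⟨Matrix.vecMul b (Matrix.of (v ∘ k.succAbove))⁻¹, ?_⟩
      rw [Matrix.vecMul_vecMul, Matrix.nonsing_inv_mul _ ((Matrix.isUnit_iff_isUnit_det _).mp hu),
        Matrix.vecMul_one]
    obtain ⟨y, hy⟩ := h1
    refine ⟨k.insertNth 0 y, ?_⟩
    rw [Fin.sum_univ_succAbove _ k]
    simp only [Fin.insertNth_apply_same, zero_smul, zero_add, Fin.insertNth_apply_succAbove]
    rw [← hy, Matrix.vecMul_eq_sum]
    rfl
  obtain ⟨x, hx⟩ := hspan
  -- signs
  have hsum : ∑ i, l i * h (v i) = 0 := by
    have := congrArg h hlap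
    rw [map_sum, map_zero] at this
    rw [← this]
    apply Finset.sum_congr rfl
    intro i _
    rw [map_smul, smul_eq_mul]
  have hneg : ∃ j, l j < 0 := by
    by_contra hcon
    push Not at hcon
    have h1 := (Finset.sum_eq_zero_iff_of_nonneg
      (fun i _ => mul_nonneg (hcon i) (hpos i).le)).mp hsum k (Finset.mem_univ k)
    rcases mul_eq_zero.mp h1 with h2 | h2
    · exact hlk h2
    · exact (hpos k).ne' h2
  have hposl : ∃ j, 0 < l j := by
    by_contra hcon
    push Not at hcon
    have h1 := (Finset.sum_eq_zero_iff_of_nonpos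
      (fun i _ => mul_nonpos_of_nonpos_of_nonneg (hcon i) (hpos i).le)).mp hsum k
        (Finset.mem_univ k)
    rcases mul_eq_zero.mp h1 with h2 | h2
    · exact hlk h2
    · exact (hpos k).ne' h2
  have hbt : ∀ t : ℝ, b = ∑ i, (x i + t * l i) • v i := by
    intro t
    have : ∑ i, (x i + t * l i) • v i = ∑ i, x i • v i + t • ∑ i, l i • v i := by
      rw [Finset.smul_sum, ← Finset.sum_add_distrib]
      apply Finset.sum_congr rfl
      intro i _
      rw [add_smul, mul_smul]
    rw [this, hlap, smul_zero, add_zero]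
    exact hx
  have hone : ∀ t i j, x i + t * l i = 0 → x j + t * l j = 0 → i = j := by
    intro t i j hi hj
    by_contra hne
    apply hgen ((Finset.univ.erase i).erase j)
    · rw [Finset.card_erase_of_mem, Finset.card_erase_of_mem (Finset.mem_univ i)]
      · rw [Finset.card_univ, Fintype.card_fin]
        omega
      · exact Finset.mem_erase.mpr ⟨Ne.symm hne, Finset.mem_univ j⟩
    · rw [hbt t]
      apply Submodule.sum_mem
      intro a _
      by_cases ha : a = i
      · rw [ha, hi, zero_smul]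
        exact Submodule.zero_mem _
      by_cases ha' : a = j
      · rw [ha', hj, zero_smul]
        exact Submodule.zero_mem _
      apply Submodule.smul_mem
      apply Submodule.subset_span
      refine ⟨a, ?_, rfl⟩
      simp [ha, ha']
  rw [← kra_sum x l hneg hposl hone]
  apply Finset.sum_congr rfl
  intro i _
  by_cases hDi : D i = 0
  · have hli : ¬ (l i ≠ 0) := by
      rw [hl0]
      simpa using hDi
    rw [if_neg (fun hh => hli hh.1)]
    have : cdet b (v ∘ i.succAbove) = 0 := by
      unfold cdet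
      split_ifs
      · have h1 : Matrix.det (Matrix.of (v ∘ i.succAbove)) = 0 := hDi
        rw [h1]
        simp
      · rfl
    rw [this, mul_zero]
  have hli : l i ≠ 0 := (hl0 i).mpr hDi
  have hiff : InCone b (v ∘ i.succAbove) ↔
      (l i ≠ 0 ∧ ∀ j, j ≠ i → 0 < x j + (-x i / l i) * l j) := by
    constructor
    · rintro ⟨y, hy, hby⟩
      refine ⟨hli, ?_⟩
      have hc : ∑ a, ((i.insertNth 0 y : Fin (m + 1) → ℝ) a - x a) • v a = 0 := by
        have : ∑ a, ((i.insertNth 0 y : Fin (m + 1) → ℝ) a - x a) • v a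
            = ∑ a, (i.insertNth 0 y : Fin (m + 1) → ℝ) a • v a - ∑ a, x a • v a := by
          rw [← Finset.sum_sub_distrib]
          apply Finset.sum_congr rfl
          intro a _
          rw [sub_smul]
        rw [this, ← hx, Fin.sum_univ_succAbove _ i]
        simp only [Fin.insertNth_apply_same, zero_smul, zero_add, Fin.insertNth_apply_succAbove]
        rw [sub_eq_zero, hby]
        rfl
      have hk2 := kra_ker v l hlap i hli hDi _ hc
      intro j hj
      obtain ⟨j', rfl⟩ := Fin.exists_succAbove_eq hj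
      have h3 := hk2 (i.succAbove j')
      simp only [Fin.insertNth_apply_same, Fin.insertNth_apply_succAbove, zero_sub] at h3
      have h4 := hy j'
      linarith
    · rintro ⟨-, hP⟩
      refine ⟨fun j => x (i.succAbove j) + (-x i / l i) * l (i.succAbove j),
        fun j => hP _ (Fin.succAbove_ne i j), ?_⟩
      have h3 := hbt (-x i / l i)
      rw [Fin.sum_univ_succAbove _ i] at h3
      have h4 : x i + (-x i / l i) * l i = 0 := by
        field_simp
        ring
      rw [h4, zero_smul, zero_add] at h3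
      exact h3
  have hsign : ((SignType.sign (l i) : SignType) : ℤ)
      = (-1 : ℤ) ^ (i : ℕ) * ((SignType.sign (D i) : SignType) : ℤ) := by
    have h1 : l i = (-1 : ℝ) ^ (i : ℕ) * D i := rfl
    rw [h1, sign_mul]
    rcases Nat.even_or_odd (i : ℕ) with he | he
    · rw [he.neg_one_pow, he.neg_one_pow]
      simp
    · rw [he.neg_one_pow, he.neg_one_pow]
      simp
  unfold cdet
  by_cases hcone : InCone b (v ∘ i.succAbove)
  · rw [if_pos hcone, if_pos (hiff.mp hcone), hsign]
  · rw [if_neg hcone, if_neg (fun hh => hcone (hiff.mpr hh)), mul_zero]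

end lin

end Pool.Agent.CGQ
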