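import Pool.Agent.CGQ.KRA
import Pool.Agent.CGQ.KFD
import Pool.Agent.CG2.PolyGen

/-!
# The orientation cocycle of a family of polyhedra
-/

noncomputable section

namespace Pool.Agent.CGQ

open NumberField IsDedekindDomain Pool.Agent.CG3
open Pool.Agent.CG2 (Pl PolySys CellSys Asc)

variable {F : Type} [Field F] [NumberField F]

section fam

variable {𝒟 : Sys F} {K1 : Subgroup 𝒟.A} {E V : Type} [MulAction 𝒟.G E] [DecidableEq E]
  [NormedAddCommGroup V] [NormedSpace ℝ V] [FiniteDimensional ℝ V] (X : PFam 𝒟 K1 E V)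

open Classical in
/-- The orientation cocycle attached to a functional `b`. -/
def PFam.om (b : V →L[ℝ] ℝ) (w : Fin (X.n0 + 1) → E) : ℤ :=
  if InCone b (fun i => X.q (w i)) then X.sdet w else 0

/-- The functional `b` is not in a proper subspace spanned by functionals of the family. -/
def PFam.GenF (b : V →L[ℝ] ℝ) : Prop :=
  b ∈ X.Pos ∧ ∀ T : Finset E, T.card < X.n0 + 1 → b ∉ Submodule.span ℝ (X.q '' T)

private theorem krb_vec (T : Finset E) (hT : T.card < X.n0 + 1) :
    ∃ d : V, d ≠ 0 ∧ ∀ e ∈ T, X.q e d = 0 := by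
  let f : V →ₗ[ℝ] (T → ℝ) := LinearMap.pi fun e => (X.q e.1 : V →ₗ[ℝ] ℝ)
  have h1 : LinearMap.ker f ≠ ⊥ := by
    apply LinearMap.ker_ne_bot_of_finrank_lt
    rw [Module.finrank_fintype_fun_eq_card, Fintype.card_coe, ← X.n0_eq]
    exact hT
  obtain ⟨d, hd, hd0⟩ := (Submodule.ne_bot_iff _).1 h1
  refine ⟨d, hd0, fun e he => ?_⟩
  have h2 := congrFun (LinearMap.mem_ker.1 hd) ⟨e, he⟩
  exact h2

/-- the coordinates of a functional -/
private def krb_phi : (V →L[ℝ] ℝ) →ₗ[ℝ] (Fin (X.n0 + 1) → ℝ) where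
  toFun l := fun j => l (X.bas j)
  map_add' a b := by
    funext j
    rfl
  map_smul' c a := by
    funext j
    rfl

private theorem krb_phi_inj : Function.Injective (krb_phi X) := by
  intro a b hab
  apply ContinuousLinearMap.coe_injective
  apply X.bas.ext
  intro j
  exact congrFun hab j

private theorem krb_om (b : V →L[ℝ] ℝ) (w : Fin (X.n0 + 1) → E) :
    X.om b w = cdet (krb_phi X b) (fun i => krb_phi X (X.q (w i))) := by
  have h1 : InCone b (fun i => X.q (w i)) ↔
      InCone (krb_phi X b) (fun i => krb_phi X (X.q (w i))) := by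
    constructor
    · rintro ⟨x, hx, h⟩
      refine ⟨x, hx, ?_⟩
      rw [h, map_sum]
      simp only [map_smul]
    · rintro ⟨x, hx, h⟩
      refine ⟨x, hx, krb_phi_inj X ?_⟩
      rw [h, map_sum]
      simp only [map_smul]
  unfold PFam.om cdet
  by_cases h2 : InCone b (fun i => X.q (w i))
  · rw [if_pos h2, if_pos (h1.1 h2)]
    rfl
  · rw [if_neg h2, if_neg fun h3 => h2 (h1.2 h3)]

/-- **KRB.** PROOF. `CG2.exists_avoid_dual` or `CG2.exists_avoid`: the span of fewer than `dim V`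
functionals is contained in the kernel of a nonzero linear form on the dual; countably many `T`. -/
theorem PFam.exists_genF [Countable E] : ∃ b, X.GenF b := by
  have hU : IsOpen X.Pos := by
    rw [← X.hPos 1]
    exact (X.P 1).pos_open
  have hne : X.Pos.Nonempty := by
    rw [← X.hPos 1]
    exact (X.P 1).pos_ne
  choose d hd0 hd using fun T : {T : Finset E // T.card < X.n0 + 1} => krb_vec X T.1 T.2
  obtain ⟨l, hl, h⟩ := Pool.Agent.CG2.exists_avoid_dual X.Pos hU hne (Set.range d)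
    (Set.countable_range d) (by
      rintro ⟨T, hT⟩
      exact hd0 T hT)
  refine ⟨l, hl, fun T hT hmem => h (d ⟨T, hT⟩) ⟨_, rfl⟩ ?_⟩
  have h1 : Submodule.span ℝ (X.q '' T) ≤
      LinearMap.ker ((ContinuousLinearMap.apply ℝ ℝ (d ⟨T, hT⟩) : (V →L[ℝ] ℝ) →L[ℝ] ℝ) :
        (V →L[ℝ] ℝ) →ₗ[ℝ] ℝ) := by
    rw [Submodule.span_le]
    rintro _ ⟨e, he, rfl⟩
    exact hd ⟨T, hT⟩ e he
  exact h1 hmem

/-- **KRC.** PROOF. `cdet_cocycle` in the coordinates given by `X.bas` (`b ↦ fun j => b (X.bas j)` is an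
injective linear map of the dual space), `h` the evaluation at a vector on which all `X.q e` are
positive. -/
theorem PFam.om_cocycle (b : V →L[ℝ] ℝ) (hb : X.GenF b) (h : V) (hh : ∀ e, 0 < X.q e h)
    (w : Fin (X.n0 + 1 + 1) → E) :
    ∑ i : Fin (X.n0 + 1 + 1), (-1 : ℤ) ^ (i : ℕ) * X.om b (w ∘ i.succAbove) = 0 := by
  have h1 : ∀ l, (∑ j, (X.bas.repr h j) • (LinearMap.proj j : (Fin (X.n0 + 1) → ℝ) →ₗ[ℝ] ℝ))
      (krb_phi X l) = l h := by
    intro l
    rw [LinearMap.sum_apply]
    conv_rhs => rw [← X.bas.sum_repr h, map_sum]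
    refine Finset.sum_congr rfl fun j _ => ?_
    rw [map_smul]
    rfl
  have h2 := cdet_cocycle (Nat.succ_pos X.n0) (krb_phi X b) (fun i => krb_phi X (X.q (w i)))
    (∑ j, (X.bas.repr h j) • (LinearMap.proj j : (Fin (X.n0 + 1) → ℝ) →ₗ[ℝ] ℝ))
    (fun i => by
      rw [h1]
      exact hh (w i))
    (fun T hT hmem => by
      have h3 : (fun i => krb_phi X (X.q (w i))) '' (T : Set (Fin (X.n0 + 1 + 1))) =
          krb_phi X '' (X.q '' (T.image w : Finset E)) := by
        rw [Finset.coe_image, Set.image_image, Set.image_image]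
      rw [h3, ← Submodule.map_span] at hmem
      obtain ⟨b', hb', hbb⟩ := (Submodule.mem_map).1 hmem
      rw [krb_phi_inj X hbb] at hb'
      exact hb.2 (T.image w) (lt_of_le_of_lt Finset.card_image_le hT) hb')
  rw [← h2]
  refine Finset.sum_congr rfl fun i _ => ?_
  rw [krb_om]
  rfl

end fam

end Pool.Agent.CGQ
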