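import Pool.Agent.CGQ.KLat

/-!
# The dimension of the space of the symmetric elements
-/

noncomputable section

namespace Pool.Agent.CGQ

open NumberField IsDedekindDomain
open Pool.Agent.CG2 (Pl Fv Ov)

variable {F : Type} [Field F] [NumberField F] {q : Qd F}

/-- The elements with `c * star r = r`. -/
private def KSA_S (c : Rinf F) : Submodule ℝ (Rinf F) where
  carrier := {r | c * star r = r}
  add_mem' := by
    intro a b ha hb
    change c * star (a + b) = a + b
    rw [star_add, mul_add]
    exact congrArg₂ (· + ·) ha hb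
  zero_mem' := by
    change c * star 0 = 0
    rw [star_zero, mul_zero]
  smul_mem' := by
    intro t a ha
    change c * star (t • a) = t • a
    rw [star_smul, star_trivial, mul_smul_comm]
    exact congrArg (t • ·) ha

private theorem KSA_mem {c r : Rinf F} : r ∈ KSA_S c ↔
    (∀ w, c.1 w * r.1 w = r.1 w) ∧ (∀ w, c.2 w * star (r.2 w) = r.2 w) := by
  constructor
  · intro h
    exact ⟨fun w => congrFun (congrArg Prod.fst h) w, fun w => congrFun (congrArg Prod.snd h) w⟩
  · intro h
    exact Prod.ext (funext fun w => h.1 w) (funext fun w => h.2 w)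

open Classical in
/-- The parametrisation of `KSA_S c`. -/
private def KSA_e (c : Rinf F) (h1 : ∀ w, c.1 w = 1 ∨ c.1 w = -1)
    (h2 : ∀ w, c.2 w = 1 ∨ c.2 w = -1) : KSA_S c ≃ₗ[ℝ]
      (({w : {w : InfinitePlace F // w.IsReal} // c.1 w = 1} → ℝ) ×
        ({w : InfinitePlace F // w.IsComplex} → ℝ)) where
  toFun r := (fun w => r.1.1 w.1, fun w => (r.1.2 w).re + (r.1.2 w).im)
  map_add' a b := by
    refine Prod.ext (funext fun w => ?_) (funext fun w => ?_)
    · rfl
    · change (a.1.2 w + b.1.2 w).re + (a.1.2 w + b.1.2 w).im =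
        ((a.1.2 w).re + (a.1.2 w).im) + ((b.1.2 w).re + (b.1.2 w).im)
      rw [Complex.add_re, Complex.add_im]
      ring
  map_smul' t a := by
    refine Prod.ext (funext fun w => ?_) (funext fun w => ?_)
    · rfl
    · change (t • (a.1.2 w)).re + (t • (a.1.2 w)).im =
        t * ((a.1.2 w).re + (a.1.2 w).im)
      rw [Complex.smul_re, Complex.smul_im, smul_eq_mul, smul_eq_mul]
      ring
  invFun f := ⟨(fun w => if h : c.1 w = 1 then f.1 ⟨w, h⟩ else 0,
    fun w => if c.2 w = 1 then ⟨f.2 w, 0⟩ else ⟨0, f.2 w⟩), by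
      rw [KSA_mem]
      refine ⟨fun w => ?_, fun w => ?_⟩
      · change c.1 w * (if h : c.1 w = 1 then f.1 ⟨w, h⟩ else 0) =
          (if h : c.1 w = 1 then f.1 ⟨w, h⟩ else 0)
        split_ifs with h
        · rw [h, one_mul]
        · rw [mul_zero]
      · change c.2 w * star (if c.2 w = 1 then (⟨f.2 w, 0⟩ : ℂ) else ⟨0, f.2 w⟩) =
          (if c.2 w = 1 then (⟨f.2 w, 0⟩ : ℂ) else ⟨0, f.2 w⟩)
        split_ifs with h
        · rw [h, one_mul]
          apply Complex.ext
          · rfl
          · change -(0 : ℝ) = 0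
            rw [neg_zero]
        · have h3 : c.2 w = -1 := (h2 w).resolve_left h
          rw [h3, neg_one_mul]
          apply Complex.ext
          · change -(0 : ℝ) = 0
            rw [neg_zero]
          · change -(-(f.2 w)) = f.2 w
            rw [neg_neg]⟩
  left_inv r := by
    apply Subtype.ext
    have hr := KSA_mem.1 r.2
    refine Prod.ext (funext fun w => ?_) (funext fun w => ?_)
    · change (if h : c.1 w = 1 then r.1.1 w else 0) = r.1.1 w
      split_ifs with h
      · rfl
      · have h3 := hr.1 w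
        rw [(h1 w).resolve_left h] at h3
        linarith
    · change (if c.2 w = 1 then (⟨(r.1.2 w).re + (r.1.2 w).im, 0⟩ : ℂ) else
        ⟨0, (r.1.2 w).re + (r.1.2 w).im⟩) = r.1.2 w
      have h3 := hr.2 w
      split_ifs with h
      · rw [h, one_mul] at h3
        have h4 : -(r.1.2 w).im = (r.1.2 w).im := congrArg Complex.im h3
        apply Complex.ext
        · change (r.1.2 w).re + (r.1.2 w).im = (r.1.2 w).re
          linarith
        · change (0 : ℝ) = (r.1.2 w).im
          linarith
      · rw [(h2 w).resolve_left h, neg_one_mul] at h3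
        have h4 : -(r.1.2 w).re = (r.1.2 w).re := congrArg Complex.re h3
        apply Complex.ext
        · change (0 : ℝ) = (r.1.2 w).re
          linarith
        · change (r.1.2 w).re + (r.1.2 w).im = (r.1.2 w).im
          linarith
  right_inv f := by
    refine Prod.ext (funext fun w => ?_) (funext fun w => ?_)
    · change (if h : c.1 w.1 = 1 then f.1 ⟨w.1, h⟩ else 0) = f.1 w
      rw [dif_pos w.2]
    · change (if c.2 w = 1 then (⟨f.2 w, 0⟩ : ℂ) else ⟨0, f.2 w⟩).re +
        (if c.2 w = 1 then (⟨f.2 w, 0⟩ : ℂ) else ⟨0, f.2 w⟩).im = f.2 w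
      split_ifs with h
      · change f.2 w + 0 = f.2 w
        rw [add_zero]
      · change 0 + f.2 w = f.2 w
        rw [zero_add]

open Classical in
private theorem KSA_fr (c : Rinf F) (h1 : ∀ w, c.1 w = 1 ∨ c.1 w = -1)
    (h2 : ∀ w, c.2 w = 1 ∨ c.2 w = -1) : Module.finrank ℝ (KSA_S c) =
      (∑ w : {w : InfinitePlace F // w.IsReal}, if c.1 w = 1 then 1 else 0) +
        InfinitePlace.nrComplexPlaces F := by
  rw [LinearEquiv.finrank_eq (KSA_e c h1 h2), Module.finrank_prod, Module.finrank_fintype_fun_eq_card,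
    Module.finrank_fintype_fun_eq_card, Fintype.card_subtype, Finset.card_filter]

/-- The symmetric elements in coordinates. -/
private def KSA_q (q : Qd F) : (PAI q).sym ≃ₗ[ℝ] (KSA_S (1 : Rinf F) × KSA_S (epsR (q.a : F)) ×
    KSA_S (epsR (q.b : F)) × KSA_S (-(epsR (q.a : F) * epsR (q.b : F)))) where
  toFun x := (⟨x.1.re, by
      have h : star x.1.re = x.1.re := congrArg QuaternionAlgebra.re x.2
      change (1 : Rinf F) * star x.1.re = x.1.re
      rw [one_mul, h]⟩, ⟨x.1.imI, congrArg QuaternionAlgebra.imI x.2⟩,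
    ⟨x.1.imJ, congrArg QuaternionAlgebra.imJ x.2⟩, ⟨x.1.imK, by
      have h : -(epsR (q.a : F) * epsR (q.b : F) * star x.1.imK) = x.1.imK :=
        congrArg QuaternionAlgebra.imK x.2
      change -(epsR (q.a : F) * epsR (q.b : F)) * star x.1.imK = x.1.imK
      rw [neg_mul]
      exact h⟩)
  map_add' _ _ := rfl
  map_smul' _ _ := rfl
  invFun f := ⟨⟨f.1.1, f.2.1.1, f.2.2.1.1, f.2.2.2.1⟩, by
    change (⟨star f.1.1, epsR (q.a : F) * star f.2.1.1, epsR (q.b : F) * star f.2.2.1.1,
      -(epsR (q.a : F) * epsR (q.b : F) * star f.2.2.2.1)⟩ : AInf q) =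
      ⟨f.1.1, f.2.1.1, f.2.2.1.1, f.2.2.2.1⟩
    have h0 : 1 * star f.1.1 = f.1.1 := f.1.2
    have h1 : epsR (q.a : F) * star f.2.1.1 = f.2.1.1 := f.2.1.2
    have h2 : epsR (q.b : F) * star f.2.2.1.1 = f.2.2.1.1 := f.2.2.1.2
    have h3 : -(epsR (q.a : F) * epsR (q.b : F)) * star f.2.2.2.1 = f.2.2.2.1 := f.2.2.2.2
    rw [one_mul] at h0
    rw [neg_mul] at h3
    rw [h0, h1, h2, h3]⟩
  left_inv _ := rfl
  right_inv _ := rfl

private theorem KSA_e1 (c : F) (w : {w : InfinitePlace F // w.IsReal}) :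
    (epsR c).1 w = 1 ∨ (epsR c).1 w = -1 := by
  change (if _ then (-1 : ℝ) else 1) = 1 ∨ (if _ then (-1 : ℝ) else 1) = -1
  split_ifs
  · exact Or.inr rfl
  · exact Or.inl rfl

open Classical in
private theorem KSA_sum (q : Qd F) (w : {w : InfinitePlace F // w.IsReal}) :
    (if (1 : Rinf F).1 w = 1 then 1 else 0) + (if (epsR (q.a : F)).1 w = 1 then 1 else 0) +
      (if (epsR (q.b : F)).1 w = 1 then 1 else 0) +
      (if (-(epsR (q.a : F) * epsR (q.b : F)) : Rinf F).1 w = 1 then 1 else 0) =
      1 + 2 * (if ¬ (InfinitePlace.embedding_of_isReal w.2 (q.a : F) < 0 ∧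
        InfinitePlace.embedding_of_isReal w.2 (q.b : F) < 0) then 1 else 0) := by
  have h1 : (1 : Rinf F).1 w = 1 := rfl
  have h2 : (-(epsR (q.a : F) * epsR (q.b : F)) : Rinf F).1 w =
    -((epsR (q.a : F)).1 w * (epsR (q.b : F)).1 w) := rfl
  rw [h2, if_pos h1]
  by_cases ha : InfinitePlace.embedding_of_isReal w.2 (q.a : F) < 0 <;>
    by_cases hb : InfinitePlace.embedding_of_isReal w.2 (q.b : F) < 0
  · have ea : (epsR (q.a : F)).1 w = -1 := if_pos ha
    have eb : (epsR (q.b : F)).1 w = -1 := if_pos hb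
    rw [ea, eb, if_neg (not_not.2 ⟨ha, hb⟩)]
    norm_num
  · have ea : (epsR (q.a : F)).1 w = -1 := if_pos ha
    have eb : (epsR (q.b : F)).1 w = 1 := if_neg hb
    rw [ea, eb, if_pos (fun h => hb h.2)]
    norm_num
  · have ea : (epsR (q.a : F)).1 w = 1 := if_neg ha
    have eb : (epsR (q.b : F)).1 w = -1 := if_pos hb
    rw [ea, eb, if_pos (fun h => ha h.1)]
    norm_num
  · have ea : (epsR (q.a : F)).1 w = 1 := if_neg ha
    have eb : (epsR (q.b : F)).1 w = 1 := if_neg hb
    rw [ea, eb, if_pos (fun h => ha h.1)]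
    norm_num

open Classical in
private theorem KSA_card (q : Qd F) : Nat.card (SPl q) =
    ∑ w : {w : InfinitePlace F // w.IsReal},
      (if ¬ (InfinitePlace.embedding_of_isReal w.2 (q.a : F) < 0 ∧
        InfinitePlace.embedding_of_isReal w.2 (q.b : F) < 0) then 1 else 0) := by
  rw [← Finset.card_filter, ← Fintype.card_subtype, ← Nat.card_eq_fintype_card]
  refine Nat.card_congr
    { toFun := fun w => ⟨⟨w.1, w.2.choose⟩, w.2.choose_spec⟩
      invFun := fun w => ⟨w.1.1, w.1.2, w.2⟩
      left_inv := fun w => rfl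
      right_inv := fun w => rfl }

private theorem KSA_le (q : Qd F) : Nat.card (SPl q) ≤ InfinitePlace.nrRealPlaces F := by
  classical
  rw [KSA_card]
  refine (Finset.sum_le_card_nsmul _ _ 1 fun w _ => ?_).trans ?_
  · split_ifs <;> norm_num
  · rw [smul_eq_mul, mul_one]
    rfl

/-- The dimension of the space of the symmetric elements. -/
def dimV (q : Qd F) : ℕ := 3 * Nat.card (SPl q) +
  (InfinitePlace.nrRealPlaces F - Nat.card (SPl q)) + 4 * InfinitePlace.nrComplexPlaces F

/-- **KSA.** PROOF. The symmetric elements are the `⟨x₀, x₁, x₂, x₃⟩` with `c_i * star x_i = x_i` for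
`c = 1, epsR a, epsR b, -(epsR a * epsR b)`; for `c` with `c.1 w = ± 1`, `c.2 w = ± 1` the space
`{r : Rinf F | c * star r = r}` has dimension `#{w real | c.1 w = 1} + r₂`. A real place is in `SPl q` iff not
both signs are `-1`, and then exactly three of the four signs `1, ε, η, -εη` are `1`; otherwise only
one. -/
theorem finrank_sym (q : Qd F) : Module.finrank ℝ (PAI q).sym = dimV q := by
  classical
  have hc2 : ∀ (c : F) w, (epsR c).2 w = 1 := fun _ _ => rfl
  rw [LinearEquiv.finrank_eq (KSA_q q), Module.finrank_prod, Module.finrank_prod,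
    Module.finrank_prod, KSA_fr 1 (fun _ => Or.inl rfl) (fun _ => Or.inl rfl),
    KSA_fr _ (KSA_e1 _) (fun _ => Or.inl rfl), KSA_fr _ (KSA_e1 _) (fun _ => Or.inl rfl),
    KSA_fr (-(epsR (q.a : F) * epsR (q.b : F))) ?_ ?_]
  · have h1 : (∑ w : {w : InfinitePlace F // w.IsReal}, if (1 : Rinf F).1 w = 1 then 1 else 0) +
        (∑ w : {w : InfinitePlace F // w.IsReal}, if (epsR (q.a : F)).1 w = 1 then 1 else 0) +
        (∑ w : {w : InfinitePlace F // w.IsReal}, if (epsR (q.b : F)).1 w = 1 then 1 else 0) +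
        (∑ w : {w : InfinitePlace F // w.IsReal},
          if (-(epsR (q.a : F) * epsR (q.b : F)) : Rinf F).1 w = 1 then 1 else 0) =
        InfinitePlace.nrRealPlaces F + 2 * Nat.card (SPl q) := by
      rw [← Finset.sum_add_distrib, ← Finset.sum_add_distrib, ← Finset.sum_add_distrib,
        Finset.sum_congr rfl fun w _ => KSA_sum q w, Finset.sum_add_distrib, ← Finset.mul_sum,
        ← KSA_card, Finset.sum_const, smul_eq_mul, mul_one]
      rfl
    have h2 := KSA_le q
    unfold dimV
    omega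
  · intro w
    have h2 : (-(epsR (q.a : F) * epsR (q.b : F)) : Rinf F).1 w =
      -((epsR (q.a : F)).1 w * (epsR (q.b : F)).1 w) := rfl
    rw [h2]
    rcases KSA_e1 (q.a : F) w with ha | ha <;> rcases KSA_e1 (q.b : F) w with hb | hb <;>
      rw [ha, hb] <;> norm_num
  · intro w
    right
    change -((1 : ℂ) * 1) = -1
    rw [mul_one]

theorem finrank_V (q : Qd F) : Module.finrank ℝ (PAI q).V = dimV q := by
  rw [Module.finrank_fin_fun, finrank_sym]

/-- **KSB.** PROOF. There is an archimedean place. -/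
theorem dimV_pos (q : Qd F) : 0 < dimV q := by
  have h1 : 0 < Fintype.card (InfinitePlace F) := Fintype.card_pos
  rw [InfinitePlace.card_eq_nrRealPlaces_add_nrComplexPlaces] at h1
  have h2 := KSA_le q
  unfold dimV
  omega

end Pool.Agent.CGQ
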