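import Pool.Agent.CGQ.KLat

/-!
# The sign of the action: squares
-/

noncomputable section

namespace Pool.Agent.CGQ

open NumberField IsDedekindDomain
open Pool.Agent.CG2 (Pl Fv Ov)

variable {F : Type} [Field F] [NumberField F] {q : Qd F}

/-- A central element. -/
private def KSD_c (q : Qd F) (z : Rinf F) : AInf q := ⟨z, 0, 0, 0⟩

private theorem KSD_c_mul (z : Rinf F) (x : AInf q) :
    KSD_c q z * x = ⟨z * x.re, z * x.imI, z * x.imJ, z * x.imK⟩ := by
  ext1 <;> simp [KSD_c]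

private theorem KSD_mul_c (z : Rinf F) (x : AInf q) :
    x * KSD_c q z = ⟨z * x.re, z * x.imI, z * x.imJ, z * x.imK⟩ := by
  ext1 <;> simp [KSD_c, mul_comm]

private theorem KSD_sq (g : AInf q) (z d r : Rinf F) (hz : z * z = 1) (hd : d * d = nrd g)
    (hr : r * r * (z * (2 * g.re) + 2 * d) = 1) :
    (⟨r * (z * g.re + d), r * (z * g.imI), r * (z * g.imJ), r * (z * g.imK)⟩ : AInf q) *
      ⟨r * (z * g.re + d), r * (z * g.imI), r * (z * g.imJ), r * (z * g.imK)⟩ =
      KSD_c q z * g := by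
  rw [nrd] at hd
  rw [KSD_c_mul]
  ext1
  · simp only [QuaternionAlgebra.re_mul, zero_mul, mul_zero, add_zero, sub_zero]
    linear_combination (z * g.re) * hr + (r * r) * hd -
      (r * r * (g.re ^ 2 - epsR (q.a : F) * g.imI ^ 2 - epsR (q.b : F) * g.imJ ^ 2 +
        epsR (q.a : F) * epsR (q.b : F) * g.imK ^ 2)) * hz
  · simp only [QuaternionAlgebra.imI_mul, zero_mul, mul_zero, add_zero, sub_zero]
    linear_combination (z * g.imI) * hr
  · simp only [QuaternionAlgebra.imJ_mul, zero_mul, mul_zero, add_zero, sub_zero]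
    linear_combination (z * g.imJ) * hr
  · simp only [QuaternionAlgebra.imK_mul, zero_mul, mul_zero, add_zero, sub_zero]
    linear_combination (z * g.imK) * hr

/-- A unit given by a square root of `1` in the centre. -/
private def KSD_u (q : Qd F) (z : Rinf F) (hz : z * z = 1) : (AInf q)ˣ where
  val := KSD_c q z
  inv := KSD_c q z
  val_inv := by
    rw [KSD_c_mul]
    ext1 <;> simp [KSD_c, hz]
  inv_val := by
    rw [KSD_c_mul]
    ext1 <;> simp [KSD_c, hz]

private theorem KSD_dt (z : Rinf F) (hz : z * z = 1) (hs : star z = z) :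
    (PAI q).dt (KSD_u q z hz) = 1 := by
  apply PA.dt_of_fix
  intro h
  apply (PAI q).el_inj
  rw [PA.el_hA]
  change invI q (KSD_c q z) * (_ * KSD_c q z) = _
  have h1 : invI q (KSD_c q z) = KSD_c q z := by
    change (⟨star z, epsR (q.a : F) * star 0, epsR (q.b : F) * star 0,
      -(epsR (q.a : F) * epsR (q.b : F) * star 0)⟩ : AInf q) = ⟨z, 0, 0, 0⟩
    rw [hs, star_zero, mul_zero, mul_zero, mul_zero, neg_zero]
  rw [h1, KSD_mul_c, KSD_c_mul]
  ext1
  · simp only [← mul_assoc, hz, one_mul]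
  · simp only [← mul_assoc, hz, one_mul]
  · simp only [← mul_assoc, hz, one_mul]
  · simp only [← mul_assoc, hz, one_mul]

/-- **KSC.** PROOF. `rtR_spec`. -/
theorem nrd_theta (x : DF q) : nrd (theta q x) = mixedEmbedding F (nrd x) := by
  have ha := rtR_spec (q.a : F)
  have hb := rtR_spec (q.b : F)
  rw [nrd, nrd]
  change mixedEmbedding F x.re ^ 2 - epsR (q.a : F) * (rtR (q.a : F) * mixedEmbedding F x.imI) ^ 2 -
    epsR (q.b : F) * (rtR (q.b : F) * mixedEmbedding F x.imJ) ^ 2 +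
    epsR (q.a : F) * epsR (q.b : F) *
      (rtR (q.a : F) * rtR (q.b : F) * mixedEmbedding F x.imK) ^ 2 =
    mixedEmbedding F (x.re ^ 2 - (q.a : F) * x.imI ^ 2 - (q.b : F) * x.imJ ^ 2 +
      (q.a : F) * (q.b : F) * x.imK ^ 2)
  simp only [map_add, map_sub, map_mul, map_pow]
  linear_combination (-(mixedEmbedding F x.imI) ^ 2) * ha - (mixedEmbedding F x.imJ) ^ 2 * hb +
    (mixedEmbedding F x.imK) ^ 2 *
      (epsR (q.a : F) * (rtR (q.a : F) * rtR (q.a : F)) * hb + mixedEmbedding F (q.b : F) * ha)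

/-- **KSD.** PROOF. Let `z.1 w = 1` if `(trd g).1 w ≥ 0` and `-1` otherwise, `z.2 = 1`; let `δ * δ = nrd g` with
`δ.1 w > 0` and `(trd g).2 w + 2 δ.2 w ≠ 0` (possible: else `nrd g` would vanish at `w`); then
`s = z * trd g + 2 δ` is positive at the real places and not `0` at the complex places, so
`s = ρ * ρ`, `ρ` a unit. With `u = ρ⁻¹ (z g + δ)` the Cayley-Hamilton identity `g² = trd g g - nrd g`
gives `u * u = z g`. And `dt z = 1` (`z` is central, `z z = 1`, `inv z = z`, so `hA z h = h`; `dt_of_fix`),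
`dt (z g) = (dt u)² > 0` (`dt_sq_pos`). -/
theorem dt_pos_of (g : (AInf q)ˣ) (h : ∀ w, 0 < (nrd g.1).1 w) : 0 < (PAI q).dt g := by
  classical
  set t : Rinf F := 2 * g.1.re with ht
  set n : Rinf F := nrd g.1 with hn
  have hnu : IsUnit n := g.isUnit.map (nrdHom (a := epsR (q.a : F)) (b := epsR (q.b : F)))
  have hn2 : ∀ w, n.2 w ≠ 0 := by
    intro w h0
    obtain ⟨u, hu⟩ := hnu
    have h1 : n * (u⁻¹ : (Rinf F)ˣ).1 = 1 := by rw [← hu, Units.mul_inv]
    have h2 := congrFun (congrArg Prod.snd h1) w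
    change n.2 w * (u⁻¹ : (Rinf F)ˣ).1.2 w = 1 at h2
    rw [h0, zero_mul] at h2
    exact zero_ne_one h2
  -- the sign `z`
  set z : Rinf F := (fun w => if 0 ≤ t.1 w then 1 else -1, fun _ => 1) with hzdef
  have hz : z * z = 1 := by
    refine Prod.ext (funext fun w => ?_) (funext fun w => ?_)
    · change (if 0 ≤ t.1 w then (1 : ℝ) else -1) * (if 0 ≤ t.1 w then (1 : ℝ) else -1) = 1
      split_ifs <;> norm_num
    · change (1 : ℂ) * 1 = 1
      norm_num
  have hzs : star z = z := by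
    refine Prod.ext (funext fun w => ?_) (funext fun w => ?_)
    · rfl
    · change star (1 : ℂ) = 1
      simp
  -- the square root `d` of `n`
  have hd2 : ∀ w : {w : InfinitePlace F // w.IsComplex}, ∃ x : ℂ, x * x = n.2 w ∧
      t.2 w + 2 * x ≠ 0 := by
    intro w
    obtain ⟨x, hx⟩ := IsAlgClosed.exists_pow_nat_eq (n.2 w) (n := 2) (by norm_num)
    have hx0 : x ≠ 0 := by
      rintro rfl
      apply hn2 w
      rw [← hx]
      norm_num
    by_cases h1 : t.2 w + 2 * x = 0
    · refine ⟨-x, by rw [← hx]; ring, ?_⟩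
      intro h2
      apply hx0
      have h3 : 4 * x = 0 := by linear_combination h1 - h2
      simpa using h3
    · exact ⟨x, by rw [← hx]; ring, h1⟩
  choose d2 hd2 hd2' using hd2
  set d : Rinf F := (fun w => Real.sqrt (n.1 w), d2) with hddef
  have hd : d * d = n := by
    refine Prod.ext (funext fun w => ?_) (funext fun w => ?_)
    · change Real.sqrt (n.1 w) * Real.sqrt (n.1 w) = n.1 w
      exact Real.mul_self_sqrt (h w).le
    · exact hd2 w
  -- the square root `r` of the inverse of `s`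
  have hs1 : ∀ w, 0 < z.1 w * t.1 w + 2 * d.1 w := by
    intro w
    have h1 : 0 < Real.sqrt (n.1 w) := Real.sqrt_pos.2 (h w)
    have h2 : 0 ≤ z.1 w * t.1 w := by
      change 0 ≤ (if 0 ≤ t.1 w then (1 : ℝ) else -1) * t.1 w
      split_ifs with h3
      · rw [one_mul]; exact h3
      · rw [neg_one_mul]
        exact (neg_pos.2 (not_le.1 h3)).le
    have h3 : d.1 w = Real.sqrt (n.1 w) := rfl
    rw [h3]
    linarith
  have hr2 : ∀ w : {w : InfinitePlace F // w.IsComplex}, ∃ x : ℂ,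
      x * x * (t.2 w + 2 * d.2 w) = 1 := by
    intro w
    obtain ⟨x, hx⟩ := IsAlgClosed.exists_pow_nat_eq (t.2 w + 2 * d.2 w)⁻¹ (n := 2) (by norm_num)
    refine ⟨x, ?_⟩
    rw [← pow_two, hx]
    exact inv_mul_cancel₀ (hd2' w)
  choose r2 hr2 using hr2
  set r : Rinf F := (fun w => Real.sqrt (z.1 w * t.1 w + 2 * d.1 w)⁻¹, r2) with hrdef
  have hr : r * r * (z * t + 2 * d) = 1 := by
    refine Prod.ext (funext fun w => ?_) (funext fun w => ?_)
    · change Real.sqrt (z.1 w * t.1 w + 2 * d.1 w)⁻¹ * Real.sqrt (z.1 w * t.1 w + 2 * d.1 w)⁻¹ *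
        (z.1 w * t.1 w + 2 * d.1 w) = 1
      rw [Real.mul_self_sqrt (inv_pos.2 (hs1 w)).le]
      exact inv_mul_cancel₀ (hs1 w).ne'
    · change r2 w * r2 w * ((1 : ℂ) * t.2 w + 2 * d.2 w) = 1
      rw [one_mul]
      exact hr2 w
  have key := KSD_sq g.1 z d r hz hd hr
  set x : AInf q := ⟨r * (z * g.1.re + d), r * (z * g.1.imI), r * (z * g.1.imJ),
    r * (z * g.1.imK)⟩ with hx
  have hu : IsUnit (x * x) := by
    rw [key]
    exact (KSD_u q z hz * g).isUnit
  have hxu : IsUnit x := ((Commute.refl x).isUnit_mul_iff.1 hu).1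
  obtain ⟨u, hu⟩ := hxu
  have h1 : u * u = KSD_u q z hz * g := by
    apply Units.ext
    rw [Units.val_mul, Units.val_mul, hu]
    exact key
  have h2 := (PAI q).dt_sq_pos u
  rw [h1, PA.dt_mul, KSD_dt z hz hzs, one_mul] at h2
  exact h2

end Pool.Agent.CGQ
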