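import Pool.Agent.CGQ.KLat

/-!
# The sign of the action: reflections
-/

noncomputable section

namespace Pool.Agent.CGQ

open NumberField IsDedekindDomain
open Pool.Agent.CG2 (Pl Fv Ov)

variable {F : Type} [Field F] [NumberField F] {q : Qd F}

open Classical in
/-- The idempotent of a real place. -/
private def KSE_p (w : {w : InfinitePlace F // w.IsReal}) : Rinf F :=
  (fun w' => if w' = w then 1 else 0, fun _ => 0)

private theorem KSE_same (w : {w : InfinitePlace F // w.IsReal}) : (KSE_p w).1 w = 1 := if_pos rfl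

private theorem KSE_ne {w w' : {w : InfinitePlace F // w.IsReal}} (h : w' ≠ w) :
    (KSE_p w).1 w' = 0 := if_neg h

private theorem KSE_mul (w : {w : InfinitePlace F // w.IsReal}) (r : Rinf F) :
    KSE_p w * r = (r.1 w) • KSE_p w := by
  refine Prod.ext (funext fun w' => ?_) (funext fun w' => ?_)
  · change (KSE_p w).1 w' * r.1 w' = r.1 w * (KSE_p w).1 w'
    by_cases h : w' = w
    · subst h
      ring
    · rw [KSE_ne h]
      ring
  · change (0 : ℂ) * r.2 w' = (r.1 w) • (0 : ℂ)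
    rw [zero_mul, smul_zero]

private theorem KSE_pp (w : {w : InfinitePlace F // w.IsReal}) :
    KSE_p w * KSE_p w = KSE_p w := by
  rw [KSE_mul, KSE_same, one_smul]

private theorem KSE_star (w : {w : InfinitePlace F // w.IsReal}) :
    star (KSE_p w) = KSE_p w := by
  refine Prod.ext (funext fun w' => ?_) (funext fun w' => ?_)
  · rfl
  · change star (0 : ℂ) = 0
    rw [star_zero]

private theorem KSE_det (q : Qd F) (e : (AInf q)ˣ) (f : (PAI q).V →ₗ[ℝ] ℝ) (v : (PAI q).V)
    (h : ∀ x, (PAI q).hA e x = x + f x • v) (hv : f v = -2) : (PAI q).dt e < 0 := by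
  have h1 : ((PAI q).hA e : (PAI q).V →ₗ[ℝ] (PAI q).V) = LinearMap.transvection f v :=
    LinearMap.ext h
  rw [PA.dt, h1, LinearMap.transvection.det, hv]
  norm_num

private theorem KSE_main (q : Qd F) (e v : AInf q) (he : e * e = 1) (hi : invI q e = e)
    (hv : invI q v = v) (c : AInf q →ₗ[ℝ] ℝ) (hc : c v = 1)
    (h : ∀ x : AInf q, invI q x = x → e * (x * e) = x - (2 * c x) • v) :
    (PAI q).dt ⟨e, e, he, he⟩ < 0 := by
  obtain ⟨v', hv'⟩ := (PAI q).exists_el v hv
  refine KSE_det q _ ((-2 : ℝ) • (c ∘ₗ (PAI q).sym.subtype ∘ₗ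
    ((PAI q).el : (PAI q).V →ₗ[ℝ] (PAI q).sym))) v' (fun x => ?_) ?_
  · apply (PAI q).el_inj
    rw [PA.el_hA, map_add, map_smul, Submodule.coe_add, Submodule.coe_smul, hv']
    change invI q e * (((PAI q).el x : AInf q) * e) = ((PAI q).el x : AInf q) +
      ((-2 : ℝ) * c ((PAI q).el x : AInf q)) • v
    rw [hi, h _ ((PAI q).inv_el x), neg_mul, neg_smul, sub_eq_add_neg]
  · change (-2 : ℝ) * c ((PAI q).el v' : AInf q) = -2
    rw [hv', hc, mul_one]

private theorem KSE_eps (c : F) (w : {w : InfinitePlace F // w.IsReal}) :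
    (epsR c).1 w = if InfinitePlace.embedding_of_isReal w.2 c < 0 then -1 else 1 := rfl

/-- The coordinates at a real place. -/
private def KSE_cJ (q : Qd F) (w : {w : InfinitePlace F // w.IsReal}) : AInf q →ₗ[ℝ] ℝ where
  toFun x := x.imJ.1 w
  map_add' _ _ := rfl
  map_smul' _ _ := rfl

private def KSE_cK (q : Qd F) (w : {w : InfinitePlace F // w.IsReal}) : AInf q →ₗ[ℝ] ℝ where
  toFun x := x.imK.1 w
  map_add' _ _ := rfl
  map_smul' _ _ := rfl

private theorem KSE_two (w : {w : InfinitePlace F // w.IsReal}) (r : Rinf F) :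
    (2 * r.1 w) • KSE_p w = 2 * (KSE_p w * r) := by
  rw [KSE_mul, mul_smul, two_smul, two_mul]

private theorem KSE_symI (q : Qd F) {x : AInf q} (hx : invI q x = x)
    (w : {w : InfinitePlace F // w.IsReal}) : (epsR (q.a : F)).1 w * x.imI.1 w = x.imI.1 w :=
  congrFun (congrArg Prod.fst (congrArg QuaternionAlgebra.imI hx)) w

private theorem KSE_symJ (q : Qd F) {x : AInf q} (hx : invI q x = x)
    (w : {w : InfinitePlace F // w.IsReal}) : (epsR (q.b : F)).1 w * x.imJ.1 w = x.imJ.1 w :=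
  congrFun (congrArg Prod.fst (congrArg QuaternionAlgebra.imJ hx)) w

private theorem KSE_symK (q : Qd F) {x : AInf q} (hx : invI q x = x)
    (w : {w : InfinitePlace F // w.IsReal}) :
    -((epsR (q.a : F)).1 w * (epsR (q.b : F)).1 w * x.imK.1 w) = x.imK.1 w :=
  congrFun (congrArg Prod.fst (congrArg QuaternionAlgebra.imK hx)) w

private theorem KSE_zero (w : {w : InfinitePlace F // w.IsReal}) {r : Rinf F} (h : r.1 w = 0) :
    KSE_p w * r = 0 := by
  rw [KSE_mul, h, zero_smul]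

/-- The element `(1 - p) + p i`. -/
private def KSE_eI (q : Qd F) (w : {w : InfinitePlace F // w.IsReal}) : AInf q :=
  ⟨1 - KSE_p w, KSE_p w, 0, 0⟩

/-- The element `(1 - p) + p j`. -/
private def KSE_eJ (q : Qd F) (w : {w : InfinitePlace F // w.IsReal}) : AInf q :=
  ⟨1 - KSE_p w, 0, KSE_p w, 0⟩

private theorem KSE_ringI {R : Type} [CommRing R] {a b : R} (p : R) (hpp : p * p = p)
    (hpa : p * a = p) (x : QuaternionAlgebra R a 0 b) :
    (⟨1 - p, p, 0, 0⟩ : QuaternionAlgebra R a 0 b) * (x * ⟨1 - p, p, 0, 0⟩) =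
      ⟨x.re, x.imI, x.imJ - 2 * (p * x.imJ), x.imK - 2 * (p * x.imK)⟩ := by
  ext1
  · simp only [QuaternionAlgebra.re_mul, QuaternionAlgebra.imI_mul, QuaternionAlgebra.imJ_mul,
      QuaternionAlgebra.imK_mul, zero_mul, mul_zero, add_zero, sub_zero, zero_add, zero_sub]
    linear_combination (x.re - 2 * a * x.imI + a * x.re) * hpp + x.re * hpa
  · simp only [QuaternionAlgebra.re_mul, QuaternionAlgebra.imI_mul, QuaternionAlgebra.imJ_mul,
      QuaternionAlgebra.imK_mul, zero_mul, mul_zero, add_zero, sub_zero, zero_add, zero_sub]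
    linear_combination (x.imI - 2 * x.re + a * x.imI) * hpp + x.imI * hpa
  · simp only [QuaternionAlgebra.re_mul, QuaternionAlgebra.imI_mul, QuaternionAlgebra.imJ_mul,
      QuaternionAlgebra.imK_mul, zero_mul, mul_zero, add_zero, sub_zero, zero_add, zero_sub]
    linear_combination (x.imJ - a * x.imJ) * hpp - x.imJ * hpa
  · simp only [QuaternionAlgebra.re_mul, QuaternionAlgebra.imI_mul, QuaternionAlgebra.imJ_mul,
      QuaternionAlgebra.imK_mul, zero_mul, mul_zero, add_zero, sub_zero, zero_add, zero_sub]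
    linear_combination (x.imK - a * x.imK) * hpp - x.imK * hpa

private theorem KSE_ringJ {R : Type} [CommRing R] {a b : R} (p : R) (hpp : p * p = p)
    (hpb : p * b = p) (x : QuaternionAlgebra R a 0 b) :
    (⟨1 - p, 0, p, 0⟩ : QuaternionAlgebra R a 0 b) * (x * ⟨1 - p, 0, p, 0⟩) =
      ⟨x.re, x.imI - 2 * (p * x.imI), x.imJ, x.imK - 2 * (p * x.imK)⟩ := by
  ext1
  · simp only [QuaternionAlgebra.re_mul, QuaternionAlgebra.imI_mul, QuaternionAlgebra.imJ_mul,
      QuaternionAlgebra.imK_mul, zero_mul, mul_zero, add_zero, sub_zero, zero_add, zero_sub]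
    linear_combination (x.re - 2 * b * x.imJ + b * x.re) * hpp + x.re * hpb
  · simp only [QuaternionAlgebra.re_mul, QuaternionAlgebra.imI_mul, QuaternionAlgebra.imJ_mul,
      QuaternionAlgebra.imK_mul, zero_mul, mul_zero, add_zero, sub_zero, zero_add, zero_sub]
    linear_combination (x.imI - b * x.imI) * hpp - x.imI * hpb
  · simp only [QuaternionAlgebra.re_mul, QuaternionAlgebra.imI_mul, QuaternionAlgebra.imJ_mul,
      QuaternionAlgebra.imK_mul, zero_mul, mul_zero, add_zero, sub_zero, zero_add, zero_sub]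
    linear_combination (x.imJ - 2 * x.re + b * x.imJ) * hpp + x.imJ * hpb
  · simp only [QuaternionAlgebra.re_mul, QuaternionAlgebra.imI_mul, QuaternionAlgebra.imJ_mul,
      QuaternionAlgebra.imK_mul, zero_mul, mul_zero, add_zero, sub_zero, zero_add, zero_sub]
    linear_combination (x.imK - b * x.imK) * hpp - x.imK * hpb

private theorem KSE_mulI (q : Qd F) (w : {w : InfinitePlace F // w.IsReal})
    (ha : (epsR (q.a : F)).1 w = 1) (x : AInf q) : KSE_eI q w * (x * KSE_eI q w) =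
      ⟨x.re, x.imI, x.imJ - 2 * (KSE_p w * x.imJ), x.imK - 2 * (KSE_p w * x.imK)⟩ :=
  KSE_ringI (KSE_p w) (KSE_pp w) (by rw [KSE_mul, ha, one_smul]) x

private theorem KSE_mulJ (q : Qd F) (w : {w : InfinitePlace F // w.IsReal})
    (hb : (epsR (q.b : F)).1 w = 1) (x : AInf q) : KSE_eJ q w * (x * KSE_eJ q w) =
      ⟨x.re, x.imI - 2 * (KSE_p w * x.imI), x.imJ, x.imK - 2 * (KSE_p w * x.imK)⟩ :=
  KSE_ringJ (KSE_p w) (KSE_pp w) (by rw [KSE_mul, hb, one_smul]) x

private theorem KSE_sqI (q : Qd F) (w : {w : InfinitePlace F // w.IsReal})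
    (ha : (epsR (q.a : F)).1 w = 1) : KSE_eI q w * KSE_eI q w = 1 := by
  have h := KSE_mulI q w ha 1
  rw [one_mul] at h
  rw [h]
  ext1 <;> simp

private theorem KSE_sqJ (q : Qd F) (w : {w : InfinitePlace F // w.IsReal})
    (hb : (epsR (q.b : F)).1 w = 1) : KSE_eJ q w * KSE_eJ q w = 1 := by
  have h := KSE_mulJ q w hb 1
  rw [one_mul] at h
  rw [h]
  ext1 <;> simp

private theorem KSE_invI (q : Qd F) (w : {w : InfinitePlace F // w.IsReal})
    (ha : (epsR (q.a : F)).1 w = 1) : invI q (KSE_eI q w) = KSE_eI q w := by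
  have hpa : KSE_p w * epsR (q.a : F) = KSE_p w := by rw [KSE_mul, ha, one_smul]
  change (⟨star (1 - KSE_p w), epsR (q.a : F) * star (KSE_p w), epsR (q.b : F) * star 0,
      -(epsR (q.a : F) * epsR (q.b : F) * star 0)⟩ : AInf q) = ⟨1 - KSE_p w, KSE_p w, 0, 0⟩
  rw [star_sub, star_one, KSE_star, star_zero, mul_zero, mul_zero, neg_zero,
    mul_comm (epsR (q.a : F)) (KSE_p w), hpa]

private theorem KSE_invJ (q : Qd F) (w : {w : InfinitePlace F // w.IsReal})
    (hb : (epsR (q.b : F)).1 w = 1) : invI q (KSE_eJ q w) = KSE_eJ q w := by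
  have hpb : KSE_p w * epsR (q.b : F) = KSE_p w := by rw [KSE_mul, hb, one_smul]
  change (⟨star (1 - KSE_p w), epsR (q.a : F) * star 0, epsR (q.b : F) * star (KSE_p w),
      -(epsR (q.a : F) * epsR (q.b : F) * star 0)⟩ : AInf q) = ⟨1 - KSE_p w, 0, KSE_p w, 0⟩
  rw [star_sub, star_one, KSE_star, star_zero, mul_zero, mul_zero, neg_zero,
    mul_comm (epsR (q.b : F)) (KSE_p w), hpb]

private theorem KSE_nrdI (q : Qd F) (w : {w : InfinitePlace F // w.IsReal})
    (ha : (epsR (q.a : F)).1 w = 1) : nrd (KSE_eI q w) = 1 - 2 * KSE_p w := by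
  have hpp := KSE_pp w
  have hpa : KSE_p w * epsR (q.a : F) = KSE_p w := by rw [KSE_mul, ha, one_smul]
  rw [nrd]
  change (1 - KSE_p w) ^ 2 - epsR (q.a : F) * (KSE_p w) ^ 2 - epsR (q.b : F) * 0 ^ 2 +
    epsR (q.a : F) * epsR (q.b : F) * 0 ^ 2 = _
  linear_combination (1 - epsR (q.a : F)) * hpp - hpa

private theorem KSE_nrdJ (q : Qd F) (w : {w : InfinitePlace F // w.IsReal})
    (hb : (epsR (q.b : F)).1 w = 1) : nrd (KSE_eJ q w) = 1 - 2 * KSE_p w := by
  have hpp := KSE_pp w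
  have hpb : KSE_p w * epsR (q.b : F) = KSE_p w := by rw [KSE_mul, hb, one_smul]
  rw [nrd]
  change (1 - KSE_p w) ^ 2 - epsR (q.a : F) * 0 ^ 2 - epsR (q.b : F) * (KSE_p w) ^ 2 +
    epsR (q.a : F) * epsR (q.b : F) * 0 ^ 2 = _
  linear_combination (1 - epsR (q.b : F)) * hpp - hpb

private theorem KSE_sign (w : {w : InfinitePlace F // w.IsReal})
    (w' : {w : InfinitePlace F // w.IsReal}) :
    (w' = w → (1 - 2 * KSE_p w : Rinf F).1 w' < 0) ∧
      (w' ≠ w → 0 < (1 - 2 * KSE_p w : Rinf F).1 w') := by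
  have h1 : (1 - 2 * KSE_p w : Rinf F).1 w' = 1 - 2 * (KSE_p w).1 w' := rfl
  rw [h1]
  constructor
  · rintro rfl
    rw [KSE_same]
    norm_num
  · intro h
    rw [KSE_ne h]
    norm_num

/-- **KSE.** PROOF. Let `p` be the idempotent of `Rinf F` of the real place `w`. If `epsR a` is `1` at `w` take
`e = (1 - p) + p i`, otherwise `epsR b` is `1` at `w` and `e = (1 - p) + p j`; `e * e = 1`, `inv e = e`, so
`hA e h = e h e`, which is `h - 2 c(h) v` with `v = p j`, `p k`, `p k` in the cases `(ε, η) = (1, 1), (1, -1),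
(-1, 1)` (`v` is symmetric) and `c` the real coordinate at `w` of the component `j`, `k`, `k` of `h`; its
determinant is `1 - 2 c(v) = -1` (a reflection). -/
theorem exists_refl (w : SPl q) : ∃ e : (AInf q)ˣ, (PAI q).dt e < 0 ∧
    ∀ w' : {w : InfinitePlace F // w.IsReal},
      (w'.1 = w.1 → (nrd e.1).1 w' < 0) ∧ (w'.1 ≠ w.1 → 0 < (nrd e.1).1 w') := by
  obtain ⟨w, hw, hab⟩ := w
  have hfin : ∀ w' : {w : InfinitePlace F // w.IsReal}, w'.1 = w ↔ w' = ⟨w, hw⟩ := fun w' =>
    ⟨fun h => Subtype.ext h, fun h => congrArg Subtype.val h⟩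
  set w0 : {w : InfinitePlace F // w.IsReal} := ⟨w, hw⟩ with hw0
  by_cases ha : InfinitePlace.embedding_of_isReal hw (q.a : F) < 0
  · have hb : ¬ InfinitePlace.embedding_of_isReal hw (q.b : F) < 0 := fun hb => hab ⟨ha, hb⟩
    have ha1 : (epsR (q.a : F)).1 w0 = -1 := if_pos ha
    have hb1 : (epsR (q.b : F)).1 w0 = 1 := if_neg hb
    refine ⟨⟨KSE_eJ q w0, KSE_eJ q w0, KSE_sqJ q w0 hb1, KSE_sqJ q w0 hb1⟩, ?_, fun w' => ?_⟩
    · refine KSE_main q (KSE_eJ q w0) ⟨0, 0, 0, KSE_p w0⟩ (KSE_sqJ q w0 hb1) (KSE_invJ q w0 hb1)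
        ?_ (KSE_cK q w0) (KSE_same w0) ?_
      · have h1 : KSE_p w0 * (epsR (q.a : F) * epsR (q.b : F)) = - KSE_p w0 := by
          rw [KSE_mul]
          have h2 : (epsR (q.a : F) * epsR (q.b : F) : Rinf F).1 w0 =
            (epsR (q.a : F)).1 w0 * (epsR (q.b : F)).1 w0 := rfl
          rw [h2, ha1, hb1, mul_one, neg_one_smul]
        change (⟨star 0, epsR (q.a : F) * star 0, epsR (q.b : F) * star 0,
          -(epsR (q.a : F) * epsR (q.b : F) * star (KSE_p w0))⟩ : AInf q) = ⟨0, 0, 0, KSE_p w0⟩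
        rw [KSE_star, star_zero, mul_zero, mul_zero, mul_comm, h1, neg_neg]
      · intro x hx
        have h1 : x.imI.1 w0 = 0 := by
          have := KSE_symI q hx w0
          rw [ha1] at this
          linarith
        rw [KSE_mulJ q w0 hb1, KSE_zero w0 h1]
        change _ = x - (2 * x.imK.1 w0) • (⟨0, 0, 0, KSE_p w0⟩ : AInf q)
        ext1
        · change x.re = x.re - (2 * x.imK.1 w0) • (0 : Rinf F)
          rw [smul_zero, sub_zero]
        · change x.imI - 2 * 0 = x.imI - (2 * x.imK.1 w0) • (0 : Rinf F)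
          rw [smul_zero, mul_zero]
        · change x.imJ = x.imJ - (2 * x.imK.1 w0) • (0 : Rinf F)
          rw [smul_zero, sub_zero]
        · change x.imK - 2 * (KSE_p w0 * x.imK) = x.imK - (2 * x.imK.1 w0) • KSE_p w0
          rw [KSE_two]
    · change (w'.1 = w → (nrd (KSE_eJ q w0)).1 w' < 0) ∧ (w'.1 ≠ w → 0 < (nrd (KSE_eJ q w0)).1 w')
      rw [KSE_nrdJ q w0 hb1, ne_eq, hfin]
      exact KSE_sign w0 w'
  · have ha1 : (epsR (q.a : F)).1 w0 = 1 := if_neg ha
    refine ⟨⟨KSE_eI q w0, KSE_eI q w0, KSE_sqI q w0 ha1, KSE_sqI q w0 ha1⟩, ?_, fun w' => ?_⟩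
    · by_cases hb : InfinitePlace.embedding_of_isReal hw (q.b : F) < 0
      · have hb1 : (epsR (q.b : F)).1 w0 = -1 := if_pos hb
        refine KSE_main q (KSE_eI q w0) ⟨0, 0, 0, KSE_p w0⟩ (KSE_sqI q w0 ha1) (KSE_invI q w0 ha1)
          ?_ (KSE_cK q w0) (KSE_same w0) ?_
        · have h1 : KSE_p w0 * (epsR (q.a : F) * epsR (q.b : F)) = - KSE_p w0 := by
            rw [KSE_mul]
            have h2 : (epsR (q.a : F) * epsR (q.b : F) : Rinf F).1 w0 =
              (epsR (q.a : F)).1 w0 * (epsR (q.b : F)).1 w0 := rfl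
            rw [h2, ha1, hb1, one_mul, neg_one_smul]
          change (⟨star 0, epsR (q.a : F) * star 0, epsR (q.b : F) * star 0,
            -(epsR (q.a : F) * epsR (q.b : F) * star (KSE_p w0))⟩ : AInf q) = ⟨0, 0, 0, KSE_p w0⟩
          rw [KSE_star, star_zero, mul_zero, mul_zero, mul_comm, h1, neg_neg]
        · intro x hx
          have h1 : x.imJ.1 w0 = 0 := by
            have := KSE_symJ q hx w0
            rw [hb1] at this
            linarith
          rw [KSE_mulI q w0 ha1, KSE_zero w0 h1]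
          change _ = x - (2 * x.imK.1 w0) • (⟨0, 0, 0, KSE_p w0⟩ : AInf q)
          ext1
          · change x.re = x.re - (2 * x.imK.1 w0) • (0 : Rinf F)
            rw [smul_zero, sub_zero]
          · change x.imI = x.imI - (2 * x.imK.1 w0) • (0 : Rinf F)
            rw [smul_zero, sub_zero]
          · change x.imJ - 2 * 0 = x.imJ - (2 * x.imK.1 w0) • (0 : Rinf F)
            rw [smul_zero, mul_zero]
          · change x.imK - 2 * (KSE_p w0 * x.imK) = x.imK - (2 * x.imK.1 w0) • KSE_p w0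
            rw [KSE_two]
      · have hb1 : (epsR (q.b : F)).1 w0 = 1 := if_neg hb
        refine KSE_main q (KSE_eI q w0) ⟨0, 0, KSE_p w0, 0⟩ (KSE_sqI q w0 ha1) (KSE_invI q w0 ha1)
          ?_ (KSE_cJ q w0) (KSE_same w0) ?_
        · have h1 : KSE_p w0 * epsR (q.b : F) = KSE_p w0 := by
            rw [KSE_mul, hb1, one_smul]
          change (⟨star 0, epsR (q.a : F) * star 0, epsR (q.b : F) * star (KSE_p w0),
            -(epsR (q.a : F) * epsR (q.b : F) * star 0)⟩ : AInf q) = ⟨0, 0, KSE_p w0, 0⟩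
          rw [KSE_star, star_zero, mul_zero, mul_zero, mul_comm (epsR (q.b : F)), h1, neg_zero]
        · intro x hx
          have h1 : x.imK.1 w0 = 0 := by
            have := KSE_symK q hx w0
            rw [ha1, hb1] at this
            linarith
          rw [KSE_mulI q w0 ha1, KSE_zero w0 h1]
          change _ = x - (2 * x.imJ.1 w0) • (⟨0, 0, KSE_p w0, 0⟩ : AInf q)
          ext1
          · change x.re = x.re - (2 * x.imJ.1 w0) • (0 : Rinf F)
            rw [smul_zero, sub_zero]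
          · change x.imI = x.imI - (2 * x.imJ.1 w0) • (0 : Rinf F)
            rw [smul_zero, sub_zero]
          · change x.imJ - 2 * (KSE_p w0 * x.imJ) = x.imJ - (2 * x.imJ.1 w0) • KSE_p w0
            rw [KSE_two]
          · change x.imK - 2 * 0 = x.imK - (2 * x.imJ.1 w0) • (0 : Rinf F)
            rw [smul_zero, mul_zero]
    · change (w'.1 = w → (nrd (KSE_eI q w0)).1 w' < 0) ∧ (w'.1 ≠ w → 0 < (nrd (KSE_eI q w0)).1 w')
      rw [KSE_nrdI q w0 ha1, ne_eq, hfin]
      exact KSE_sign w0 w'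

end Pool.Agent.CGQ
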