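import Pool.Agent.CGQ.KSA
import Pool.Agent.CGQ.KSD
import Pool.Agent.CGQ.KSE

/-!
# The sign of the action
-/

noncomputable section

namespace Pool.Agent.CGQ

open NumberField IsDedekindDomain
open Pool.Agent.CG2 (Pl Fv Ov)

variable {F : Type} [Field F] [NumberField F] {q : Qd F}

private theorem KSgn_ne (g : (AInf q)ˣ) (w : {w : InfinitePlace F // w.IsReal}) :
    (nrd g.1).1 w ≠ 0 := by
  intro h0
  have hnu : IsUnit (nrd g.1) :=
    g.isUnit.map (nrdHom (a := epsR (q.a : F)) (b := epsR (q.b : F)))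
  obtain ⟨u, hu⟩ := hnu
  have h1 : nrd g.1 * (u⁻¹ : (Rinf F)ˣ).1 = 1 := by rw [← hu, Units.mul_inv]
  have h2 := congrFun (congrArg Prod.fst h1) w
  change (nrd g.1).1 w * (u⁻¹ : (Rinf F)ˣ).1.1 w = 1 at h2
  rw [h0, zero_mul] at h2
  exact zero_ne_one h2

/-- **KSF.** PROOF. At such a place `ε = η = -1` and `nrd x = x₀² + x₁² + x₂² + x₃²`, a unit. -/
theorem nrd_pos_ram (g : (AInf q)ˣ) (w : {w : InfinitePlace F // w.IsReal})
    (hw : ¬ ∃ w' : SPl q, w'.1 = w.1) : 0 < (nrd g.1).1 w := by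
  have hneg : InfinitePlace.embedding_of_isReal w.2 (q.a : F) < 0 ∧
      InfinitePlace.embedding_of_isReal w.2 (q.b : F) < 0 := by
    by_contra h
    exact hw ⟨⟨w.1, w.2, h⟩, rfl⟩
  have ea : (epsR (q.a : F)).1 w = -1 := if_pos hneg.1
  have eb : (epsR (q.b : F)).1 w = -1 := if_pos hneg.2
  have h1 : (nrd g.1).1 w = g.1.re.1 w ^ 2 - (epsR (q.a : F)).1 w * g.1.imI.1 w ^ 2 -
    (epsR (q.b : F)).1 w * g.1.imJ.1 w ^ 2 +
    (epsR (q.a : F)).1 w * (epsR (q.b : F)).1 w * g.1.imK.1 w ^ 2 := rfl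
  have h2 : 0 ≤ (nrd g.1).1 w := by
    rw [h1, ea, eb]
    nlinarith [sq_nonneg (g.1.re.1 w), sq_nonneg (g.1.imI.1 w), sq_nonneg (g.1.imJ.1 w),
      sq_nonneg (g.1.imK.1 w)]
  exact lt_of_le_of_ne h2 (KSgn_ne g w).symm

/-- The product of the signs. -/
def epsQ (q : Qd F) : (sysD q).Sg →* ℤˣ where
  toFun s := ∏ᶠ w : SPl q, s w
  map_one' := finprod_one
  map_mul' s t := finprod_mul_distrib (Set.toFinite _) (Set.toFinite _)

/-- The element which changes the sign at the places of a finite set. -/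
private theorem KSgn_prod (q : Qd F) (T : Finset (SPl q)) : ∃ e : (AInf q)ˣ,
    0 < (PAI q).dt e * (-1) ^ T.card ∧ ∀ w' : {w : InfinitePlace F // w.IsReal},
      ((∃ w ∈ T, w'.1 = w.1) → (nrd e.1).1 w' < 0) ∧
        ((¬ ∃ w ∈ T, w'.1 = w.1) → 0 < (nrd e.1).1 w') := by
  classical
  induction T using Finset.induction_on with
  | empty =>
    refine ⟨1, ?_, fun w' => ⟨?_, fun _ => ?_⟩⟩
    · rw [PA.dt_of_fix _ (PA.hA_one _), Finset.card_empty, pow_zero, one_mul]
      exact one_pos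
    · rintro ⟨w, hw, _⟩
      exact absurd hw (Finset.notMem_empty w)
    · rw [Units.val_one, nrd_one]
      exact one_pos
  | insert w T hw ih =>
    obtain ⟨e, he, he'⟩ := ih
    obtain ⟨f, hf, hf'⟩ := exists_refl w
    refine ⟨f * e, ?_, fun w' => ?_⟩
    · rw [PA.dt_mul, Finset.card_insert_of_notMem hw, pow_succ]
      have h1 : (PAI q).dt f * (PAI q).dt e * ((-1) ^ T.card * -1) =
        (-(PAI q).dt f) * ((PAI q).dt e * (-1) ^ T.card) := by ring
      rw [h1]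
      exact mul_pos (neg_pos.2 hf) he
    · have h1 : (nrd (f * e : (AInf q)ˣ).1).1 w' = (nrd f.1).1 w' * (nrd e.1).1 w' := by
        rw [Units.val_mul, nrd_mul]
        rfl
      rw [h1]
      by_cases h2 : w'.1 = w.1
      · have h3 : ¬ ∃ w₁ ∈ T, w'.1 = w₁.1 := by
          rintro ⟨w₁, hw₁, h4⟩
          have h5 : w = w₁ := Subtype.ext (h2.symm.trans h4)
          exact hw (h5 ▸ hw₁)
        refine ⟨fun _ => mul_neg_of_neg_of_pos ((hf' w').1 h2) ((he' w').2 h3), fun h4 => ?_⟩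
        exact absurd ⟨w, Finset.mem_insert_self _ _, h2⟩ h4
      · have h3 := (hf' w').2 h2
        constructor
        · rintro ⟨w₁, hw₁, h4⟩
          rcases Finset.mem_insert.1 hw₁ with h5 | h5
          · exact absurd (h5 ▸ h4) h2
          · exact mul_neg_of_pos_of_neg h3 ((he' w').1 ⟨w₁, h5, h4⟩)
        · intro h4
          refine mul_pos h3 ((he' w').2 ?_)
          rintro ⟨w₁, hw₁, h5⟩
          exact h4 ⟨w₁, Finset.mem_insert_of_mem hw₁, h5⟩

/-- **KSG.** PROOF. Multiply `thU q γ` by the `exists_refl w` for the `w` in `SPl q` with negative `nrd`; then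
`dt_pos_of` (`nrd_theta`, `nrd_pos_ram`, `nrd_mul`, `dt_mul`). -/
theorem dt_sign (γ : (sysD q).G) :
    0 < (PAI q).dt (thU q (uK γ)) * (((epsQ q ((sysD q).sgn γ) : ℤˣ) : ℤ) : ℝ) := by
  classical
  have hfin : Fintype (SPl q) := Fintype.ofFinite _
  -- the signs of the reduced norm
  have hsg : ∀ w : SPl q, (sysD q).sgn γ w = if 0 < w.emb (nrd (uK γ).1) then 1 else -1 :=
    fun _ => rfl
  have hn : ∀ w' : {w : InfinitePlace F // w.IsReal}, (nrd (thU q (uK γ)).1).1 w' =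
      InfinitePlace.embedding_of_isReal w'.2 (nrd (uK γ).1) := by
    intro w'
    have h1 : (thU q (uK γ)).1 = theta q (uK γ).1 := rfl
    rw [h1, nrd_theta]
    rfl
  set T : Finset (SPl q) := Finset.univ.filter fun w => ¬ 0 < w.emb (nrd (uK γ).1) with hT
  obtain ⟨e, he, he'⟩ := KSgn_prod q T
  have hs : (((epsQ q ((sysD q).sgn γ) : ℤˣ) : ℤ) : ℝ) = (-1) ^ T.card := by
    have h1 : epsQ q ((sysD q).sgn γ) = ∏ w : SPl q, (sysD q).sgn γ w :=
      finprod_eq_prod_of_fintype _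
    rw [h1]
    have h2 : ∏ w : SPl q, (sysD q).sgn γ w = (-1) ^ T.card := by
      rw [Finset.prod_congr rfl fun w _ => hsg w, Finset.prod_ite, Finset.prod_const_one, one_mul,
        Finset.prod_const]
    rw [h2]
    push_cast
    rfl
  rw [hs]
  have hpos : 0 < (PAI q).dt (e * thU q (uK γ)) := by
    refine dt_pos_of _ fun w' => ?_
    have h1 : (nrd (e * thU q (uK γ) : (AInf q)ˣ).1).1 w' =
        (nrd e.1).1 w' * (nrd (thU q (uK γ)).1).1 w' := by
      rw [Units.val_mul, nrd_mul]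
      rfl
    rw [h1]
    by_cases h2 : ∃ w : SPl q, w'.1 = w.1
    · obtain ⟨w, hw⟩ := h2
      obtain ⟨w', hw'⟩ := w'
      change w' = w.1 at hw
      subst hw
      have h3 : w.emb (nrd (uK γ).1) = (nrd (thU q (uK γ)).1).1 ⟨w.1, hw'⟩ := by
        rw [hn]
        rfl
      by_cases h4 : w ∈ T
      · have h5 := (Finset.mem_filter.1 h4).2
        rw [h3, not_lt] at h5
        have h6 := lt_of_le_of_ne h5 (KSgn_ne _ _)
        exact mul_pos_of_neg_of_neg ((he' ⟨w.1, hw'⟩).1 ⟨w, h4, rfl⟩) h6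
      · have h5 : 0 < w.emb (nrd (uK γ).1) := by
          by_contra h
          exact h4 (Finset.mem_filter.2 ⟨Finset.mem_univ _, h⟩)
        rw [h3] at h5
        refine mul_pos ((he' ⟨w.1, hw'⟩).2 ?_) h5
        rintro ⟨w₁, hw₁, h6⟩
        have h7 : w = w₁ := Subtype.ext h6
        exact h4 (h7 ▸ hw₁)
    · have h3 : 0 < (nrd (thU q (uK γ)).1).1 w' := by
        refine nrd_pos_ram _ w' ?_
        rintro ⟨w, hw⟩
        exact h2 ⟨w, hw.symm⟩
      refine mul_pos ((he' w').2 ?_) h3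
      rintro ⟨w₁, _, h6⟩
      exact h2 ⟨w₁, h6⟩
  rw [PA.dt_mul] at hpos
  -- the signs of `dt e` and `dt (thU γ)` agree
  rcases neg_one_pow_eq_or ℝ T.card with h | h
  · rw [h, mul_one] at he ⊢
    exact (pos_iff_pos_of_mul_pos hpos).1 he
  · rw [h, mul_neg, mul_one] at he ⊢
    have h1 : (PAI q).dt e < 0 := neg_pos.1 he
    exact neg_pos.2 ((neg_iff_neg_of_mul_pos hpos).1 h1)

end Pool.Agent.CGQ
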