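import Pool.Agent.CGQ.Fam
import Pool.Agent.CGQ.DDefs
import Pool.Agent.CG2.GalFin
import Pool.Agent.CG2.GalL

/-!
# The unit trick: the data
-/

noncomputable section

namespace Pool.Agent.CGQ

open NumberField IsDedekindDomain
open Pool.Agent.CG2 (Pl Fv Ov GQ GZ cosets cosets_finite alpha expo InRay IsRay TotPos Lies Nm)
open Pool.Agent.CG2.GalFinAux (below actP)

variable {F : Type} [Field F] [NumberField F]

/-- Isomorphisms of the algebras `D_v` with the matrix algebra, for the places outside `S`. -/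
abbrev Spl (q : Qd F) (S : Set (Pl F)) :=
  ∀ v : {v : Pl F // v ∉ S}, DV q v.1 ≃ₐ[Fv v.1] Matrix (Fin 2) (Fin 2) (Fv v.1)

/-- The chart attached to such isomorphisms. -/
def chartD {q : Qd F} {S : Set (Pl F)} (φ : Spl q S) : Chart (sysD q) S where
  e v := Units.mapEquiv (φ v).toMulEquiv

/-- The homomorphism `x ↦ φ (g⁻¹ x g)` from `D` to the matrices. -/
def psi {q : Qd F} {S : Set (Pl F)} (φ : Spl q S) (v : {v : Pl F // v ∉ S}) (g : (DV q v.1)ˣ) :
    DF q →+* Matrix (Fin 2) (Fin 2) (Fv v.1) where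
  toFun x := φ v ((g⁻¹ : (DV q v.1)ˣ).1 * dloc q v.1 x * g.1)
  map_one' := by rw [map_one, mul_one, Units.inv_mul, map_one]
  map_zero' := by rw [map_zero, mul_zero, zero_mul, map_zero]
  map_add' x y := by rw [map_add, mul_add, add_mul, map_add]
  map_mul' x y := by
    have h : g.1 * (g⁻¹ : (DV q v.1)ˣ).1 = 1 := Units.mul_inv g
    have h2 : (g⁻¹ : (DV q v.1)ˣ).1 * dloc q v.1 (x * y) * g.1 =
        ((g⁻¹ : (DV q v.1)ˣ).1 * dloc q v.1 x * g.1) *
          ((g⁻¹ : (DV q v.1)ˣ).1 * dloc q v.1 y * g.1) := by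
      rw [map_mul]
      simp only [mul_assoc]
      rw [← mul_assoc g.1 (g⁻¹ : (DV q v.1)ˣ).1, h, one_mul]
    rw [h2, map_mul]

/-- The data of a quadratic extension `L` of `F` in `D` and of a point, with auxiliary choices. -/
structure Tor (q : Qd F) {S : Set (Pl F)} (φ : Spl q S) (K : Subgroup (sysD q).A) (L : Type)
    [Field L] [NumberField L] [Algebra F L] where
  /-- the embedding -/
  ι : L →ₐ[F] DF q
  deg : Module.finrank F L = 2
  /-- the conjugation -/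
  c : Gal(L/F)
  c_ne : c ≠ 1
  /-- the point -/
  y : (sysD q).Pt
  /-- a neighbourhood of `1` in `K` -/
  U : ∀ v : Pl F, Subgroup (DV q v)ˣ
  U_open : ∀ v, IsOpen (U v : Set (DV q v)ˣ)
  U_le : ∀ k : (sysD q).A, (∀ v, k.1 v ∈ U v) → k ∈ K
  /-- the bad places -/
  T : Set (Pl F)
  T_fin : T.Finite
  S_le : S ⊆ T
  U_good : ∀ v, v ∉ T → BZ q v ≤ U v
  hyp : HypOff K (chartD φ)
  std : Std (chartD φ)
  /-- a generator of the ring of integers at the good places -/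
  τ : 𝓞 L
  τ_disc : ∀ w : Pl L, below F w ∉ T → τ - c • τ ∉ w.asIdeal
  τ_int : ∀ (v : {v : Pl F // v ∉ S}), v.1 ∉ T → ∀ i j,
    Valued.v (psi φ v (y.2.1 v.1) (ι (τ : L)) i j) ≤ 1

variable {q : Qd F} {S : Set (Pl F)} {φ : Spl q S} {K : Subgroup (sysD q).A} {L : Type}
  [Field L] [NumberField L] [Algebra F L]

/-- The embedding of the multiplicative groups. -/
def Tor.uHom (X : Tor q φ K L) : Lˣ →* (sysD q).G :=
  (Units.map (X.ι : L →* DF q) : Lˣ →* (DF q)ˣ)

/-- A nonzero element of `L` as a unit of `D`. -/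
def Tor.u (X : Tor q φ K L) (x : Lˣ) : (sysD q).G := X.uHom x

theorem Tor.u_mul (X : Tor q φ K L) (x y : Lˣ) : X.u (x * y) = X.u x * X.u y := map_mul _ _ _

theorem Tor.u_comm (X : Tor q φ K L) (x y : Lˣ) : X.u x * X.u y = X.u y * X.u x := by
  rw [← Tor.u_mul, ← Tor.u_mul, mul_comm]

theorem Tor.u_val (X : Tor q φ K L) (x : Lˣ) : (show (DF q)ˣ from X.u x).1 = X.ι (x : L) := rfl

/-- The element `t` of `A` represents the ideal `I`: its components are `1` at the bad places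
and at the good places `v` elements of `L` with the same valuations as `I` at the places above
`v`. -/
def Tor.IsRep (X : Tor q φ K L) (I : Ideal (𝓞 L)) (t : (sysD q).A) : Prop :=
  (∀ v ∈ X.T, t.1 v = 1) ∧ ∀ v, v ∉ X.T → ∃ x : Lˣ, t.1 v = (sysD q).loc v (X.u x) ∧
    ∀ w : Pl L, below F w = v → w.valuation L (x : L) = WithZero.exp (-(expo w I : ℤ))

/-- Representatives commute with the elements of `L`. -/
theorem Tor.rep_comm (X : Tor q φ K L) {I : Ideal (𝓞 L)} {t : (sysD q).A} (ht : X.IsRep I t)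
    (x : Lˣ) : diag (X.u x) * t = t * diag (X.u x) := by
  apply Subtype.ext
  funext v
  by_cases hv : v ∈ X.T
  · change (sysD q).loc v (X.u x) * t.1 v = t.1 v * (sysD q).loc v (X.u x)
    rw [ht.1 v hv, mul_one, one_mul]
  · obtain ⟨z, hz, -⟩ := ht.2 v hv
    change (sysD q).loc v (X.u x) * t.1 v = t.1 v * (sysD q).loc v (X.u x)
    rw [hz, ← map_mul, ← map_mul, X.u_comm]

/-- The stabiliser of `y` and of `t y` have the same elements in `L`. -/
theorem Tor.stab_rep (X : Tor q φ K L) {I : Ideal (𝓞 L)} {t : (sysD q).A} (ht : X.IsRep I t)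
    (x : Lˣ) (hx : X.u x ∈ Stab K X.y) : X.u x ∈ Stab K (lt t X.y) := by
  obtain ⟨κ, hκ, h⟩ := mem_Stab'.1 hx
  refine mem_Stab'.2 ⟨κ, hκ, ?_⟩
  rw [← lt_rt, ← h]
  refine Prod.ext rfl ?_
  change diag (X.u x) * (t * X.y.2) = t * (diag (X.u x) * X.y.2)
  rw [← mul_assoc, X.rep_comm ht, mul_assoc]

/-- The quotient `u / c u` of a unit. -/
def ratio (c : Gal(L/F)) (u : (𝓞 L)ˣ) : 𝓞 L := (u : 𝓞 L) * c • ((u⁻¹ : (𝓞 L)ˣ) : 𝓞 L)

/-- A unit of `𝓞 L` as an element of `D`. -/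
def Tor.uu (X : Tor q φ K L) (u : (𝓞 L)ˣ) : (sysD q).G :=
  X.u (Units.map (algebraMap (𝓞 L) L : 𝓞 L →* L) u)

/-- The element `x` of `𝓞 L` is a `p^M`-th power modulo `w`. -/
def PPow (w : Pl L) (n : ℕ) (x : 𝓞 L) : Prop := ∃ y : 𝓞 L, y ^ n - x ∈ w.asIdeal

end Pool.Agent.CGQ
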