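import Pool.Agent.CGQ.GalFinal
import Pool.Agent.CGQ.UDefs
import Pool.Agent.CGQ.CDev

/-!
# The statement of the vanishing theorem for quaternion algebras: definitions
-/

noncomputable section

namespace Pool.Agent.CGQ

open NumberField IsDedekindDomain Matrix
open Pool.Agent.CG2 (Pl Fv Ov GQ GZ GalF Zbar Over IsInertia IsFrob NonEisenstein Nm r1 r2)

variable {F : Type} [Field F] [NumberField F]

/-- The representation `ρ` of the absolute Galois group of `F` is attached to the maximal
ideal `m` of the Hecke algebra: it is continuous, unramified outside `S`, and for a continuous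
character `ω` the characteristic polynomial of `ρ(σ^e)`, `σ` a Frobenius element at `v ∉ S`, is
`X² - ω(σ) T_v X + ω(σ)² N(v) R_v`. -/
def AttachedQ {S : Set (Pl F)} {O : Type} [CommRing O] (m : Ideal (HeckeAlg S O)) (k : Type)
    [Field k] [Algebra (HeckeAlg S O ⧸ m) k] (ρ : GalF F →* GL (Fin 2) k) : Prop :=
  IsOpen (ρ.ker : Set (GalF F)) ∧
  ∃ (e : ℤˣ) (ω : GalF F →* kˣ), IsOpen (ω.ker : Set (GalF F)) ∧
    ∀ (v : Pl F) (hv : v ∉ S) (Q : Ideal (Zbar F)), Over v Q →
      (∀ σ : GalF F, IsInertia Q σ → ρ σ = 1) ∧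
      (∀ σ : GalF F, IsFrob v Q σ →
        (ρ (σ ^ (e : ℤ)) : Matrix (Fin 2) (Fin 2) k).charpoly =
          Polynomial.X ^ 2
            - Polynomial.C ((ω σ : k) * eig m k (⟨v, hv⟩, 0)) * Polynomial.X
            + Polynomial.C ((ω σ : k) ^ 2 * ((Nm v : ℕ) : k) * eig m k (⟨v, hv⟩, 1)))

/-- The dimension of the locally symmetric space: `3 a + b + 4 c - 1`, `a` the number of the real
places where `D` is split, `b` that of the other real places, `c` that of the complex places. -/
def dimQ (q : Qd F) : ℕ := 3 * Nat.card (SPl q) + (r1 F - Nat.card (SPl q)) + 4 * r2 F - 1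

end Pool.Agent.CGQ
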