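import Pool.Agent.CGQ.KMain
import Pool.Agent.CGQ.SDefs

/-!
# The results of part K in the form used in the assembly
-/

noncomputable section

namespace Pool.Agent.CGQ

open NumberField IsDedekindDomain
open Pool.Agent.CG2 (Pl Fv Ov GQ GZ r1 r2)

variable {F : Type} [Field F] [NumberField F]

/-- At the places which do not divide `N` the group `KNq q N` contains `BZ q v`. -/
theorem single_mem_KNq (q : Qd F) {N : ℕ} (hN : N ≠ 0) (v : Pl F)
    (hv : ((N : ℕ) : 𝓞 F) ∉ v.asIdeal) (k : (DV q v)ˣ) (hk : k ∈ BZ q v) :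
    (single v k : (sysD q).A) ∈ KNq q N := by
  intro w
  by_cases h : w = v
  · subst h
    have h1 : gv (single w k : (sysD q).A) w = k := single_same _ _
    rw [h1]
    refine ⟨hk, ?_⟩
    have h2 : Valued.v ((N : ℕ) : Fv w) = 1 := by
      have h3 : Valued.v ((((N : ℕ) : F) : F) : Fv w) = w.valuation F ((N : ℕ) : F) :=
        HeightOneSpectrum.valuedAdicCompletion_eq_valuation' w _
      have h4 : ((((N : ℕ) : F) : F) : Fv w) = ((N : ℕ) : Fv w) :=
        map_natCast (algebraMap F (Fv w)) N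
      rw [← h4, h3]
      have h5 : ((N : ℕ) : F) = algebraMap (𝓞 F) F ((N : ℕ) : 𝓞 F) := (map_natCast _ N).symm
      rw [h5, HeightOneSpectrum.valuation_of_algebraMap]
      exact w.intValuation_eq_one_iff.2 hv
    intro i
    rw [h2]
    have h4 := (intQ_iff_co q w _).1 (intQ_add ((mem_BZ_iff q w k).1 hk).1
      (intQ_neg ((mem_BZ_iff q w 1).1 (BZ q w).one_mem).1)) i
    rw [Units.val_one, ← sub_eq_add_neg] at h4
    exact h4
  · have h1 : gv (single v k : (sysD q).A) w = 1 := single_ne h _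
    rw [h1]
    refine ⟨(BZ q w).one_mem, ?_⟩
    rw [Units.val_one, sub_self]
    exact divQ_zero

/-- **KF1.** The cells for the subgroups of a principal congruence subgroup. -/
theorem exists_ksys (q : Qd F) (hdiv : ∀ x : DF q, x ≠ 0 → IsUnit x)
    (hr : 1 ≤ Nat.card (SPl q) + r2 F) (p : ℕ) [hp : Fact p.Prime] :
    ∃ K₀ : Subgroup (sysD q).A, OC K₀ ∧
      (∀ v : Pl F, ((p : ℕ) : 𝓞 F) ∉ v.asIdeal → ∀ k ∈ BZ q v,
        (single v k : (sysD q).A) ∈ K₀) ∧
      ∀ K : Subgroup (sysD q).A, K ≤ K₀ → OC K → ∃ T : TSys K, T.C.n0 = dimQ q ∧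
        ∀ γ, (sysD q).sgn γ = 1 → T.ε γ = 1 := by
  have h2 : 2 ≤ p := hp.out.two_le
  have hN : 3 ≤ p ^ 2 := by nlinarith
  have hN0 : p ^ 2 ≠ 0 := by positivity
  refine ⟨KNq q (p ^ 2), oc_KNq _ hN0, fun v hv k hk => single_mem_KNq q hN0 v (fun h => hv ?_) k hk,
    fun K hK hO => ?_⟩
  · rw [Nat.cast_pow] at h
    exact v.isPrime.mem_of_pow_mem _ h
  · obtain ⟨T, h1, h3, -⟩ := exists_tsys (q := q) hdiv hr hN hK hO
    refine ⟨T, ?_, fun γ hγ => ?_⟩
    · have h4 : dimQ q = dimV q - 1 := rfl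
      omega
    · rw [h3, hγ, map_one]

/-- **KF2.** The crude bound. -/
theorem crude_bound (q : Qd F) (hdiv : ∀ x : DF q, x ≠ 0 → IsUnit x)
    (K : Subgroup (sysD q).A) (hK : OC K) (hTF : TorsionFree K) :
    ∃ N₀ : ℕ, ∀ (O : Type) [CommRing O] (W : Type) [AddCommGroup W] [Module O W]
      (τ : Representation O K W) (i : ℕ), N₀ < i →
        Subsingleton (groupCohomology (coeff K τ) i) := by
  obtain ⟨E, i1, i2, ⟨C⟩⟩ := exists_prodQ (q := q) hdiv hK hTF
  refine ⟨C.n0 + 1, fun O _ W _ _ τ i hi => ?_⟩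
  rw [← forms_rep]
  exact C.vanish (forms_coef τ) (c0 := 0) (fun _ _ _ => Nat.zero_le _) i (by omega)

end Pool.Agent.CGQ
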