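import Pool.Agent.CGQ.KL1
import Pool.Agent.CGQ.KM1

/-!
# The Koecher polyhedron: first properties
-/

noncomputable section

namespace Pool.Agent.CGQ

open NumberField IsDedekindDomain Pool.Agent.CG3
open Pool.Agent.CG2 (Pl Fv Ov PolySys)

variable {F : Type} [Field F] [NumberField F] {q : Qd F}

private theorem kya_unit (e : (sysD q).G) : IsUnit (theta q (uK e).1) :=
  (uK e).isUnit.map (theta q)

section fields

variable (hD : IsDiv q) (N : ℕ) (hN : 3 ≤ N) (C : Cls4 F N → ℝ) (hC : GoodQ q N C)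
  (g : (sysD q).A)

/-- The non-zero elements of the lattice. -/
def LatE (g : (sysD q).A) : Set (sysD q).G := {e | (uK e).1 ∈ Lat g}

/-- The constants. -/
def cQ (g : (sysD q).A) (e : (sysD q).G) : ℝ := C (cls4 N g (uK e).1)

include hC in
theorem cQ_lt (e : (sysD q).G) : 1 < cQ N C g e ∧ cQ N C g e < 9 / 8 := hC.1 _

theorem qe_pos (e : (sysD q).G) : qe q e ∈ (PAI q).KPos := (PAI q).unit_kpos (thU q (uK e))

/-- **KYA.** PROOF. `pd_of_lat`, `isLat`; a non-zero element of `LatI g` is `theta q x`, `x` in `Lat g`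
not zero, a unit by `hD`. -/
theorem ks_pd (hD : IsDiv q) (h : (PAI q).V) (hh : ∀ e ∈ LatE g, 1 ≤ qe q e h) :
    (PAI q).PD h := by
  refine (PAI q).pd_of_lat (isLat g) h fun z hz hz0 => ?_
  obtain ⟨x, hx, rfl⟩ := mem_LatI.1 hz
  have hx0 : x ≠ 0 := by
    rintro rfl
    exact hz0 (map_zero _)
  obtain ⟨u, rfl⟩ := hD x hx0
  exact hh (u : (sysD q).G) hx

/-- **KYB.** PROOF. `exists_large`, `isLat`. -/
theorem ks_large : ∃ h : (PAI q).V, (PAI q).PD h ∧ ∀ e ∈ LatE g, 2 ≤ qe q e h := by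
  obtain ⟨h, h1, h2⟩ := (PAI q).exists_large (isLat g)
  refine ⟨h, h1, fun e he => h2 _ (mem_LatI.2 ⟨_, he, rfl⟩) ?_⟩
  exact (kya_unit e).ne_zero

include hD hN hC in
/-- **KYC.** PROOF. Port of `CG2.KoeSys_inj`. -/
theorem ks_inj (h : (PAI q).V) (hh : ∀ e ∈ LatE g, cQ N C g e ≤ qe q e h)
    {x y : (sysD q).G} (hx : x ∈ LatE g) (hy : y ∈ LatE g) (hqx : qe q x h = cQ N C g x)
    (hqy : qe q y h = cQ N C g y)
    (hxy : cls4 N g (uK x).1 = cls4 N g (uK y).1) : x = y := by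
  obtain ⟨u, hu, hxyu⟩ := cls4_eq N (by omega) g _ _ hx hy hxy
  by_contra hne
  have hu0 : u ≠ 0 := by
    rintro rfl
    apply hne
    rw [mul_zero, sub_eq_zero] at hxyu
    exact Units.ext hxyu
  obtain ⟨v, rfl⟩ := hD u hu0
  have h1 : 1 ≤ qe q (v : (sysD q).G) h := (hC.1 _).1.le.trans (hh (v : (sysD q).G) hu)
  have hpd : (PAI q).PD h := ks_pd g hD h fun e he => (hC.1 _).1.le.trans (hh e he)
  have hpsd : 0 ≤ (PAI q).q (theta q (uK x).1 + theta q (uK y).1) h := hpd.psd _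
  have h2 := (PAI q).q_par (theta q (uK x).1) (theta q (uK y).1) h
  have h3 : (PAI q).q (theta q (uK x).1 - theta q (uK y).1) h = (N : ℝ) ^ 2 * qe q (v : (sysD q).G) h := by
    rw [← map_sub, hxyu, map_mul, map_natCast, PA.q_natCast]
    rfl
  have hqx' : (PAI q).q (theta q (uK x).1) h = cQ N C g x := hqx
  have hqy' : (PAI q).q (theta q (uK y).1) h = cQ N C g y := hqy
  rw [h3, hqx', hqy'] at h2
  have h4 := (cQ_lt N C hC g x).2
  have h5 := (cQ_lt N C hC g y).2
  have h6 : (3 : ℝ) ≤ N := by exact_mod_cast hN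
  have h7 : (9 : ℝ) ≤ (N : ℝ) ^ 2 := by nlinarith
  nlinarith

/-- **KYD.** PROOF. As the field `ctbl` of `CG2.koe`. -/
theorem ks_ctbl : (LatE g).Countable := by
  have h1 : Countable F := by
    let b := Module.finBasis ℚ F
    exact b.equivFun.toEquiv.countable_iff.2 inferInstance
  have h2 : Countable (DF q) :=
    Function.Injective.countable (f := fun x : DF q => (x.re, x.imI, x.imJ, x.imK)) (by
      intro x y hxy
      simp only [Prod.mk.injEq] at hxy
      exact QuaternionAlgebra.ext hxy.1 hxy.2.1 hxy.2.2.1 hxy.2.2.2)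
  have h3 : Countable (sysD q).G := Function.Injective.countable (f := fun x : (sysD q).G => (uK x).1)
    (fun x y hxy => Units.ext hxy)
  exact Set.to_countable _

include hC in
/-- **KYE.** PROOF. As the field `ne` of `CG2.koe`. -/
theorem ks_ne : {h : (PAI q).V | ∀ e ∈ LatE g, cQ N C g e ≤ qe q e h}.Nonempty := by
  obtain ⟨h, _, h2⟩ := ks_large g
  refine ⟨h, fun e he => ?_⟩
  have h3 := (cQ_lt N C hC g e).2
  have h4 := h2 e he
  linarith

end fields

end Pool.Agent.CGQ
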