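import Pool.Agent.CGQ.LEB

/-!
# Degree one
-/

noncomputable section

namespace Pool.Agent.CGQ

open NumberField IsDedekindDomain CategoryTheory
open Pool.Agent.CG2 (Pl GQ GZ cosets cosets_finite alpha)

variable {F : Type} [Field F] [NumberField F] {𝒟 : Sys F} {S : Set (Pl F)} {Φ : Chart 𝒟 S}
variable {K : Subgroup 𝒟.A} {O : Type} [CommRing O] {k : Type} [AddCommGroup k] [Module O k]

/-- A cocycle in degree one with values in the functions on `Pt` invariant under `K`. -/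
structure IsZ1 (K : Subgroup 𝒟.A) (c : 𝒟.G → 𝒟.Pt → k) : Prop where
  h_rt : ∀ γ y, ∀ κ ∈ K, c γ (rt y κ) = c γ y
  h_mul : ∀ γ γ' y, c (γ * γ') y = c γ y + c γ' (act γ⁻¹ y)

private theorem IsZ1.led_one {c : 𝒟.G → 𝒟.Pt → k} (hc : IsZ1 K c) (y : 𝒟.Pt) : c 1 y = 0 := by
  have h := hc.h_mul 1 1 y
  rw [mul_one, inv_one, act_one] at h
  exact (left_eq_add.1 h)

private theorem IsZ1.led_congr {c : 𝒟.G → 𝒟.Pt → k} (hc : IsZ1 K c) (γ : 𝒟.G) {y y' : 𝒟.Pt}
    (h : mkK K y = mkK K y') : c γ y = c γ y' := by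
  obtain ⟨κ, hκ, rfl⟩ := mkK_eq.1 h
  exact (hc.h_rt γ y κ hκ).symm

/-- **LED1.** PROOF. `c (δ γ δ⁻¹) = c δ + δ c γ - δ γ δ⁻¹ c δ`; at `act δ y` the first and the third
term cancel since `act γ⁻¹ y ∈ y K`. -/
theorem IsZ1.conj {c : 𝒟.G → 𝒟.Pt → k} (hc : IsZ1 K c) (y : 𝒟.Pt) (δ γ : 𝒟.G)
    (hγ : γ ∈ Stab K y) : c (δ * γ * δ⁻¹) (act δ y) = c γ y := by
  have h1 := hc.h_mul (δ * γ) δ⁻¹ (act δ y)
  have h2 := hc.h_mul δ γ (act δ y)
  have h3 := hc.h_mul δ δ⁻¹ (act δ y)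
  have h4 : act δ⁻¹ (act δ y) = y := by rw [← act_mul, inv_mul_cancel, act_one]
  have h5 : act (δ * γ)⁻¹ (act δ y) = act γ⁻¹ y := by
    rw [← act_mul]
    congr 1
    group
  have h6 : c δ⁻¹ (act γ⁻¹ y) = c δ⁻¹ y := hc.led_congr _ (mem_Stab.1 ((Stab K y).inv_mem hγ))
  rw [mul_inv_cancel, hc.led_one, h4] at h3
  rw [h5, h6, h2, h4] at h1
  rw [h1, add_right_comm, ← h3, zero_add]

/-- **LED2.** PROOF. `act γ⁻¹ y ∈ y K`. -/
theorem IsZ1.add {c : 𝒟.G → 𝒟.Pt → k} (hc : IsZ1 K c) (y : 𝒟.Pt) (γ γ' : 𝒟.G)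
    (hγ : γ ∈ Stab K y) : c (γ * γ') y = c γ y + c γ' y := by
  rw [hc.h_mul, hc.led_congr γ' (mem_Stab.1 ((Stab K y).inv_mem hγ))]

private theorem led_locZ_mul (v : {v : Pl F // v ∉ S}) (y : 𝒟.Pt) (γ γ' : 𝒟.G) :
    locZ Φ v y (γ * γ') = locZ Φ v y γ * locZ Φ v y γ' := by
  unfold locZ
  have h : (y.2.1 v.1)⁻¹ * 𝒟.loc v.1 (γ * γ') * y.2.1 v.1 =
      ((y.2.1 v.1)⁻¹ * 𝒟.loc v.1 γ * y.2.1 v.1) * ((y.2.1 v.1)⁻¹ * 𝒟.loc v.1 γ' * y.2.1 v.1) := by
    rw [map_mul (𝒟.loc v.1)]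
    group
  rw [h, map_mul (Φ.e v)]

private theorem led_locZ_one (v : {v : Pl F // v ∉ S}) (y : 𝒟.Pt) :
    locZ Φ v y 1 = 1 := by
  have h := led_locZ_mul (Φ := Φ) v y 1 1
  rw [mul_one] at h
  exact left_eq_mul.1 h

private theorem led_locZ_pow (v : {v : Pl F // v ∉ S}) (y : 𝒟.Pt) (γ : 𝒟.G) (n : ℕ) :
    locZ Φ v y (γ ^ n) = locZ Φ v y γ ^ n := by
  induction n with
  | zero => rw [pow_zero, pow_zero, led_locZ_one]
  | succ n ih => rw [pow_succ, pow_succ, led_locZ_mul, ih]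

private theorem led_locZ_inv (v : {v : Pl F // v ∉ S}) (y : 𝒟.Pt) (γ : 𝒟.G) :
    locZ Φ v y γ⁻¹ = (locZ Φ v y γ)⁻¹ := by
  rw [eq_inv_iff_mul_eq_one, ← led_locZ_mul, inv_mul_cancel, led_locZ_one]

private theorem IsZ1.led_pow {c : 𝒟.G → 𝒟.Pt → k} (hc : IsZ1 K c) (γ : 𝒟.G) (y : 𝒟.Pt)
    (n : ℕ) : c (γ ^ n) y = ∑ i ∈ Finset.range n, c γ (act (γ ^ i)⁻¹ y) := by
  induction n with
  | zero => rw [pow_zero, Finset.sum_range_zero, hc.led_one]
  | succ n ih => rw [pow_succ, hc.h_mul, ih, Finset.sum_range_succ]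

/-- The sum over the orbits of a permutation of a finite set. -/
private theorem led_orbits {X M Γ : Type} [Group Γ] [MulAction Γ X] [AddCommMonoid M]
    (a : Γ) (N R : Finset X) (hN : ∀ x ∈ N, a • x ∈ N) (hR : Reps (fun x => a • x) N R)
    (G : X → M) :
    ∑ r ∈ R, ∑ i ∈ Finset.range (Function.minimalPeriod (fun x => a • x) r), G ((a ^ i)⁻¹ • r) =
      ∑ x ∈ N, G x := by
  classical
  have hit : ∀ (i : ℕ) (x : X), (fun x : X => a • x)^[i] x = a ^ i • x := fun i x => by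
    rw [smul_iterate]
  have hNp : ∀ (i : ℕ), ∀ x ∈ N, a ^ i • x ∈ N := by
    intro i
    induction i with
    | zero => intro x hx; rwa [pow_zero, one_smul]
    | succ i ih => intro x hx; rw [pow_succ', mul_smul]; exact hN _ (ih x hx)
  have hper : ∀ r ∈ N, 0 < Function.minimalPeriod (fun x => a • x) r := by
    intro r hr
    obtain ⟨i, j, hij, h⟩ := Finite.exists_ne_map_eq_of_infinite
      (fun i : ℕ => (⟨a ^ i • r, hNp i r hr⟩ : N))
    have h' : a ^ i • r = a ^ j • r := congrArg Subtype.val h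
    have key : ∀ i j : ℕ, i < j → a ^ i • r = a ^ j • r →
        0 < Function.minimalPeriod (fun x => a • x) r := by
      intro i j hij h
      apply Function.minimalPeriod_pos_of_mem_periodicPts
      refine ⟨j - i, by omega, ?_⟩
      show (fun x => a • x)^[j - i] r = r
      rw [hit]
      have h1 : a ^ j = a ^ i * a ^ (j - i) := by rw [← pow_add]; congr 1; omega
      rw [h1, mul_smul] at h
      exact (MulAction.injective (a ^ i) h).symm
    rcases Nat.lt_or_gt_of_ne hij with h1 | h1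
    · exact key i j h1 h'
    · exact key j i h1 h'.symm
  have hpr : ∀ r : X, a ^ (Function.minimalPeriod (fun x : X => a • x) r) • r = r := by
    intro r
    rw [← hit]
    exact Function.iterate_minimalPeriod
  -- reverse the orbits
  have hrev : ∀ r : X, ∑ i ∈ Finset.range (Function.minimalPeriod (fun x => a • x) r),
      G ((a ^ i)⁻¹ • r) =
        ∑ i ∈ Finset.range (Function.minimalPeriod (fun x => a • x) r), G (a ^ i • r) := by
    intro r
    have hp := hpr r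
    generalize Function.minimalPeriod (fun x => a • x) r = n at hp ⊢
    have h1 : ∑ i ∈ Finset.range n, G ((a ^ i)⁻¹ • r) =
        ∑ i ∈ Finset.range n, G (a ^ (n - 1 - i + 1) • r) := by
      refine Finset.sum_congr rfl fun i hi => ?_
      rw [Finset.mem_range] at hi
      congr 1
      rw [inv_smul_eq_iff, ← mul_smul, ← pow_add]
      conv_lhs => rw [← hp]
      congr 2
      omega
    rw [h1, Finset.sum_range_reflect (fun j => G (a ^ (j + 1) • r))]
    have h2 := Finset.sum_range_succ (fun j => G (a ^ j • r)) n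
    rw [Finset.sum_range_succ'] at h2
    rcases Nat.eq_zero_or_pos n with h0 | h0
    · rw [h0]; rfl
    · obtain ⟨m, rfl⟩ : ∃ m, n = m + 1 := ⟨n - 1, by omega⟩
      rw [Finset.sum_range_succ, Finset.sum_range_succ']
      congr 1
      rw [hp, pow_zero, one_smul]
  simp only [hrev]
  rw [Finset.sum_sigma']
  refine Finset.sum_bij (fun x _ => a ^ x.2 • x.1) ?_ ?_ ?_ (fun _ _ => rfl)
  · rintro ⟨r, i⟩ hx
    rw [Finset.mem_sigma] at hx
    exact hNp i r (hR.sub hx.1)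
  · rintro ⟨r, i⟩ hx ⟨r', j⟩ hx' h
    rw [Finset.mem_sigma, Finset.mem_range] at hx hx'
    obtain ⟨hr, hi⟩ := hx
    obtain ⟨hr', hj⟩ := hx'
    simp only at h hr hi hr' hj
    have h1 : r = r' := by
      refine hR.inj r hr r' hr' (Function.minimalPeriod (fun x => a • x) r' - j + i) ?_
      rw [hit, pow_add, mul_smul, h, ← mul_smul, ← pow_add, Nat.sub_add_cancel hj.le, hpr]
    subst h1
    have h2 : i = j := by
      apply Function.iterate_injOn_Iio_minimalPeriod (f := fun x => a • x) (x := r) hi hj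
      show (fun x => a • x)^[i] r = (fun x => a • x)^[j] r
      rw [hit, hit]
      exact h
    rw [h2]
  · intro x hx
    obtain ⟨r, hr, n, hn⟩ := hR.ex x hx
    refine ⟨⟨r, n % Function.minimalPeriod (fun x => a • x) r⟩, ?_, ?_⟩
    · rw [Finset.mem_sigma, Finset.mem_range]
      exact ⟨hr, Nat.mod_lt _ (hper r (hR.sub hr))⟩
    · show a ^ (n % Function.minimalPeriod (fun x => a • x) r) • r = x
      rw [← hit, Function.iterate_mod_minimalPeriod_eq]
      exact hn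

/-- **LED3.** The orbit formula.
PROOF. Partition `cosets` into the orbits of `f = (locZ Φ v y γ • ·)` (a permutation of the finite
set `cosets`: `CG2.smul_mem_cosets`, `locZ_mem`), with representatives `R`: for `c ∈ R` of period `n`
the orbit is `{f^i c : i < n}`, and `c γⁿ (nb c) = ∑_{i<n} c γ (act γ⁻ⁱ (nb c))` (`IsZ1.h_mul`,
induction), where `act γ⁻ⁱ (nb Φ v y c) ∈ nb Φ v y (f⁻ⁱ c) K` (`act_nb`, iterated), and `{f⁻ⁱ c}` is
the same orbit. So `∑_{c ∈ R} c (γⁿ) (nb c) = ∑_{c ∈ cosets} c γ (nb c)`. -/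
theorem IsZ1.orbit (hK : HypOff K Φ) {c : 𝒟.G → 𝒟.Pt → k} (hc : IsZ1 K c)
    (v : {v : Pl F // v ∉ S}) (y : 𝒟.Pt) (γ : 𝒟.G) (hγ : γ ∈ Stab K y)
    (R : Finset (GQ v.1 ⧸ GZ v.1))
    (hR : Reps (fun c => locZ Φ v y γ • c) (cosets_finite v.1 0).toFinset R) :
    ∑ a ∈ R, c (γ ^ Function.minimalPeriod (fun c => locZ Φ v y γ • c) a) (nb Φ v y a) =
      ∑ a ∈ (cosets_finite v.1 0).toFinset, c γ (nb Φ v y a) := by
  classical
  have hmem : ∀ x ∈ (cosets_finite v.1 0).toFinset, locZ Φ v y γ • x ∈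
      (cosets_finite v.1 0).toFinset := by
    intro x hx
    rw [Set.Finite.mem_toFinset] at hx ⊢
    exact Pool.Agent.CG2.smul_mem_cosets hx (locZ_mem (hK v) hγ)
  rw [← led_orbits (locZ Φ v y γ) _ R hmem hR (fun a => c γ (nb Φ v y a))]
  refine Finset.sum_congr rfl fun r _ => ?_
  rw [hc.led_pow]
  refine Finset.sum_congr rfl fun i _ => ?_
  apply hc.led_congr
  rw [act_nb (hK v) ((Stab K y).inv_mem ((Stab K y).pow_mem hγ i)), led_locZ_inv, led_locZ_pow]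

/-- **LED4.** A cocycle which vanishes on the stabilisers is a coboundary. PROOF. Port of
CG2/OrbTw.lean (`orbit_tw` with `η = 1`). -/
theorem IsZ1.cob {c : 𝒟.G → 𝒟.Pt → k} (hc : IsZ1 K c)
    (hs : ∀ (γ : 𝒟.G) (y : 𝒟.Pt), γ ∈ Stab K y → c γ y = 0) :
    ∃ f : 𝒟.Pt → k, (∀ y, ∀ κ ∈ K, f (rt y κ) = f y) ∧
      ∀ γ y, c γ y = f (act γ⁻¹ y) - f y := by
  classical
  let r : PtK K → PtK K := fun b =>
    (Quotient.mk (MulAction.orbitRel 𝒟.G (PtK K)) b).out
  have hr : ∀ b, ∃ g : 𝒟.G, g • r b = b := by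
    intro b
    have h1 : (MulAction.orbitRel 𝒟.G (PtK K)).r (r b) b :=
      Quotient.exact (Quotient.out_eq (Quotient.mk (MulAction.orbitRel 𝒟.G (PtK K)) b))
    have h2 : r b ∈ MulAction.orbit 𝒟.G b := h1
    obtain ⟨g, hg⟩ := h2
    refine ⟨g⁻¹, ?_⟩
    rw [← hg]
    exact inv_smul_smul g b
  have hr' : ∀ (g : 𝒟.G) b, r (g • b) = r b := by
    intro g b
    have h1 : Quotient.mk (MulAction.orbitRel 𝒟.G (PtK K)) (g • b) =
        Quotient.mk (MulAction.orbitRel 𝒟.G (PtK K)) b := Quotient.sound ⟨g, rfl⟩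
    simp only [r, h1]
  choose g hg using hr
  have key : ∀ (h : 𝒟.G) (y : 𝒟.Pt), h • r (mkK K y) = mkK K y → c h y = c (g (mkK K y)) y := by
    intro h y hh
    set b := g (mkK K y) with hb
    have h1 : h = b * (b⁻¹ * h) := by group
    have h2 : b • r (mkK K y) = mkK K y := hg _
    have h3 : mkK K (act b⁻¹ y) = r (mkK K y) := by
      have h4 : mkK K (act b⁻¹ y) = b⁻¹ • mkK K y := rfl
      rw [h4, inv_smul_eq_iff, h2]
    have h5 : b⁻¹ * h ∈ Stab K (act b⁻¹ y) := by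
      rw [mem_Stab]
      have h4 : mkK K (act (b⁻¹ * h) (act b⁻¹ y)) = (b⁻¹ * h) • mkK K (act b⁻¹ y) := rfl
      rw [h4, h3, mul_smul, hh]
      rw [inv_smul_eq_iff, h2]
    have h7 := hs (b⁻¹ * h) (act b⁻¹ y) h5
    conv_lhs => rw [h1]
    rw [hc.h_mul, h7, add_zero]
  refine ⟨fun y => - c (g (mkK K y)) y, ?_, ?_⟩
  · intro y κ hκ
    simp only [mkK_rt y hκ]
    rw [hc.h_rt _ y κ hκ]
  · intro γ y
    set b := g (mkK K y) with hb
    have h1 : b = γ * (γ⁻¹ * b) := by group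
    have h2 : c b y = c γ y + c (γ⁻¹ * b) (act γ⁻¹ y) := by
      conv_lhs => rw [h1]
      exact hc.h_mul _ _ _
    have h3 : (γ⁻¹ * b) • r (mkK K (act γ⁻¹ y)) = mkK K (act γ⁻¹ y) := by
      have h4 : mkK K (act γ⁻¹ y) = γ⁻¹ • mkK K y := rfl
      rw [h4, hr', mul_smul, hg]
    have h5 := key _ _ h3
    simp only [← h5]
    rw [h2]
    abel

end Pool.Agent.CGQ
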