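import Pool.Agent.CGQ.AGB
import Pool.Agent.CGQ.KTop
import Pool.Agent.CGQ.CEE
import Pool.Agent.CGQ.CED

/-!
# The vanishing theorem for quaternion algebras
-/

noncomputable section

namespace Pool.Agent.CGQ

open NumberField IsDedekindDomain Matrix
open Pool.Agent.CG2 (Pl Fv Ov GQ GZ GalF Zbar Over IsInertia IsFrob NonEisenstein Nm r1 r2)

variable {F : Type} [Field F] [NumberField F]

/-- Vanishing above the dimension and finiteness, for all open compact torsion-free subgroups. -/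
theorem van_fin (q : Qd F) (hdiv : ∀ x : DF q, x ≠ 0 → IsUnit x)
    (hr : 1 ≤ Nat.card (SPl q) + r2 F) (p : ℕ) [Fact p.Prime]
    (K : Subgroup (sysD q).A) (hK : OC K) (hTF : TorsionFree K) (O : Type) [CommRing O] :
    (∀ (W : Type) [AddCommGroup W] [Module O W] (τ : Representation O K W) (i : ℕ),
      dimQ q < i → Subsingleton (groupCohomology (coeff K τ) i)) ∧
    (IsNoetherianRing O → ∀ i, FinH K O i) := by
  obtain ⟨K₀, hK₀, -, hT⟩ := exists_ksys q hdiv hr p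
  obtain ⟨N₀, hN⟩ := crude_bound q hdiv K hK hTF
  have hs : ∀ K' : Subgroup (sysD q).A, OC K' → K' ≤ K₀ → ∀ (O : Type) [CommRing O] (W : Type)
      [AddCommGroup W] [Module O W] (τ : Representation O K' W) (i : ℕ), dimQ q < i →
      Subsingleton (groupCohomology (coeff K' τ) i) := by
    intro K' hK' hle O _ W _ _ τ i hi
    obtain ⟨T, hd, -⟩ := hT K' hle hK'
    exact coeff_van T τ i (by omega)
  have hv := fun (W : Type) [AddCommGroup W] [Module O W] (τ : Representation O K W) (i : ℕ)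
    (hi : dimQ q < i) => upper_all hK hK₀ (dimQ q) N₀ hN hs O W τ i hi
  refine ⟨hv, fun _ i => fin_all O hK hK₀ (dimQ q) hv (fun K' hK' hle i => ?_) i⟩
  obtain ⟨T, -, -⟩ := hT K' hle hK'
  exact coeff_fg T i

theorem torsionFree_le {q : Qd F} {K K' : Subgroup (sysD q).A} (hTF : TorsionFree K) (h : K' ≤ K) :
    TorsionFree K' := fun g γ n hn hg h1 => hTF g γ n hn (h hg) h1

/-- **MAIN1.** The theorem when the order `O[1, i, j, ij]` is maximal and the group `K` is maximal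
outside `S`. -/
theorem main_std (q : Qd F) (hdiv : ∀ x : DF q, x ≠ 0 → IsUnit x)
    (hr : 1 ≤ Nat.card (SPl q) + r2 F) {p : ℕ} [Fact p.Prime] {S : Set (Pl F)} (hS : S.Finite)
    (hSp : ∀ v : Pl F, ((p : ℕ) : 𝓞 F) ∈ v.asIdeal → v ∈ S) (φ : Spl q S)
    (hstd : Std (chartD φ)) (K : Subgroup (sysD q).A) (hK : OC K) (hTF : TorsionFree K)
    (hΦ : HypOff K (chartD φ)) {O : Type} [CommRing O] [IsDomain O] [IsDiscreteValuationRing O]
    [CharP (IsLocalRing.ResidueField O) p] {W : Type} [AddCommGroup W] [Module O W]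
    [Module.Finite O W] (τ : Representation O K W) (hU : UnramOff K τ (chartD φ))
    (hτ : Cont K τ (chartD φ)) (m : Ideal (HeckeAlg S O)) [m.IsMaximal] (k : Type) [Field k]
    [Algebra (HeckeAlg S O ⧸ m) k] (ρ : GalF F →* GL (Fin 2) k) (hA : AttachedQ m k ρ)
    (hne : NonEisenstein ρ) (i : ℕ) (hi : InSupport K τ hU i m) :
    min 2 (Nat.card (SPl q) + r2 F) ≤ i ∧ i + min 2 (Nat.card (SPl q) + r2 F) ≤ dimQ q := by
  classical
  obtain ⟨K₀, hK₀, hKv, hT⟩ := exists_ksys q hdiv hr p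
  obtain ⟨hv, hf⟩ := van_fin q hdiv hr p K hK hTF O
  have hfin : ∀ i, FinH K O i := hf inferInstance
  have h₀ : ∀ (v : {v : Pl F // v ∉ S}) (k : (sysD q).L v.1), (chartD φ).e v k ∈ GZ v.1 →
      single v.1 k ∈ K₀ := fun v k hk =>
    hKv v.1 (fun h => v.2 (hSp v.1 h)) k ((hstd v k).1 hk)
  have hTK : ∀ K' : Subgroup (sysD q).A, K' ≤ K → K' ≤ K₀ → OC K' →
      (∃ T : TSys K', T.C.n0 = dimQ q ∧ ∀ γ, (sysD q).sgn γ = 1 → T.ε γ = 1) ∧
        TorsionFree K' := fun K' h h' hOC => ⟨hT K' h' hOC, torsionFree_le hTF h⟩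
  have t0 : TD K K₀ (chartD φ) 0 m := by
    intro K' h h' hOC hΦ'
    obtain ⟨⟨T, hd, hε⟩, hTF'⟩ := hTK K' h h' hOC
    exact dead_zero hdiv hr hS hstd hOC hΦ' (coeff_fg T 0 _ _) m k ρ hA hne
  have t1 : 2 ≤ Nat.card (SPl q) + r2 F → TD K K₀ (chartD φ) 1 m := by
    intro hr2 K' h h' hOC hΦ'
    obtain ⟨⟨T, hd, hε⟩, hTF'⟩ := hTK K' h h' hOC
    exact dead_one hdiv hr2 hS hstd hOC hΦ' (coeff_fg T 1 _ _) m k ρ hA hne
  have td : TD K K₀ (chartD φ) (dimQ q) m := by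
    intro K' h h' hOC hΦ'
    obtain ⟨⟨T, hd, hε⟩, hTF'⟩ := hTK K' h h' hOC
    rw [← hd]
    exact dead_top T hε hdiv hr hS hstd hOC hΦ' m k ρ hA hne
  have hd2 : 2 ≤ dimQ q := by
    obtain ⟨⟨T, hd, hε⟩, hTF'⟩ := hTK (K ⊓ K₀) inf_le_left inf_le_right (hK.inter hK₀)
    rw [← hd]
    exact T.two
  obtain ⟨n, hn⟩ : ∃ n, n + 1 = dimQ q := ⟨dimQ q - 1, by omega⟩
  have ts : 2 ≤ Nat.card (SPl q) + r2 F → TD K K₀ (chartD φ) n m := by
    intro hr2 K' h h' hOC hΦ'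
    obtain ⟨⟨T, hd, hε⟩, hTF'⟩ := hTK K' h h' hOC
    exact dead_sub T hε hdiv hr2 hS hstd hOC hTF' hΦ' n (by rw [hd, hn]) m k ρ hA hne
  obtain ⟨z, hz⟩ := hi
  have dead : Dead K τ hU i m → False := fun hd => by
    obtain ⟨t, ht, h0⟩ := hd z
    exact hz t ht h0
  have all : ∀ i, KD K (chartD φ) i m → Dead K τ hU i m := fun i hkd =>
    dead_all i (hfin i) τ hU hτ m hkd
  by_contra hcon
  have hcases : i = 0 ∨ (i = 1 ∧ 2 ≤ Nat.card (SPl q) + r2 F) ∨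
      (i = n ∧ 2 ≤ Nat.card (SPl q) + r2 F) ∨ i = dimQ q ∨ dimQ q < i := by omega
  rcases hcases with rfl | ⟨rfl, hr2⟩ | ⟨rfl, hr2⟩ | rfl | hgt
  · exact dead (all 0 (kd_zero hK hK₀ hΦ h₀ m t0))
  · exact dead (all 1 (kd_one hK hK₀ hΦ h₀ m t0 (t1 hr2)))
  · refine dead (all _ (kd_sub hK hK₀ hΦ h₀ m _ (fun W _ _ τ => hv W τ _ (by omega)) (ts hr2) ?_))
    rw [hn]
    exact td
  · exact dead (all _ (kd_top hK hK₀ hΦ h₀ m _ (fun W _ _ τ => hv W τ _ (by omega)) td))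
  · have hsub := hv W τ i hgt
    exact hz 1 (fun h => Ideal.IsPrime.ne_top' ((Ideal.eq_top_iff_one m).2 h))
      (Subsingleton.elim _ _)

end Pool.Agent.CGQ
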