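import Pool.Agent.CGQ.Enl
import Pool.Agent.CGQ.Stmt

/-!
# The theorem without the assumption on the order
-/

noncomputable section

namespace Pool.Agent.CGQ

open NumberField IsDedekindDomain Matrix
open Pool.Agent.CG2 (Pl Fv Ov GQ GZ GalF Zbar Over IsInertia IsFrob NonEisenstein Nm r1 r2)

variable {F : Type} [Field F] [NumberField F]

/-- The restriction of the isomorphisms of the algebras. -/
def Spl.res {q : Qd F} {S S' : Set (Pl F)} (φ : Spl q S) (h : S ⊆ S') : Spl q S' :=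
  fun v => φ (Out h v)

theorem cont_res {𝒟 : Sys F} {S S' : Set (Pl F)} {O : Type} [CommRing O] [IsLocalRing O]
    {W : Type} [AddCommGroup W] [Module O W] {K : Subgroup 𝒟.A} {τ : Representation O K W}
    {φ : Chart 𝒟 S} (h : S ⊆ S') (hτ : Cont K τ φ) : Cont K τ (φ.res h) := by
  intro n
  obtain ⟨U, h1, h2, h3, h4⟩ := hτ n
  exact ⟨U, h1, h2, fun v k hk => h3 (Out h v) k hk, h4⟩

/-- **MAIN2** with the finiteness of the cohomology as a hypothesis. -/
theorem main_q_of (q : Qd F) (hdiv : ∀ x : DF q, x ≠ 0 → IsUnit x)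
    (hr : 1 ≤ Nat.card (SPl q) + r2 F) {p : ℕ} [Fact p.Prime] {S : Set (Pl F)} (hS : S.Finite)
    (hSp : ∀ v : Pl F, ((p : ℕ) : 𝓞 F) ∈ v.asIdeal → v ∈ S) (φ : Spl q S)
    (K : Subgroup (sysD q).A) (hK : OC K) (hTF : TorsionFree K)
    (hΦ : HypOff K (chartD φ)) {O : Type} [CommRing O] [IsDomain O] [IsDiscreteValuationRing O]
    [CharP (IsLocalRing.ResidueField O) p] {W : Type} [AddCommGroup W] [Module O W]
    [Module.Finite O W] (τ : Representation O K W) (hU : UnramOff K τ (chartD φ))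
    (hτ : Cont K τ (chartD φ)) (m : Ideal (HeckeAlg S O)) [m.IsMaximal] (k : Type) [Field k]
    [Algebra (HeckeAlg S O ⧸ m) k] (ρ : GalF F →* GL (Fin 2) k) (hA : AttachedQ m k ρ)
    (hne : NonEisenstein ρ) (i : ℕ) (hfin : Module.Finite O (groupCohomology (coeff K τ) i))
    (hi : InSupport K τ hU i m) :
    min 2 (Nat.card (SPl q) + r2 F) ≤ i ∧ i + min 2 (Nat.card (SPl q) + r2 F) ≤ dimQ q := by
  set S' : Set (Pl F) := S ∪ {v : Pl F | ∃ h : v ∉ S, ¬ ∀ k, (chartD φ).e ⟨v, h⟩ k ∈ GZ v ↔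
    k ∈ (sysD q).B v} with hS'
  have h : S ⊆ S' := Set.subset_union_left
  have hmax := isMaximal_res h hfin hi
  have hres : (chartD φ).res h = chartD (φ.res h) := rfl
  have hU' : UnramOff K τ ((chartD φ).res h) := fun v => (hU (Out h v)).res h
  refine @main_std F _ _ q hdiv hr p _ S' (hS.union (finite_nonstd hK hΦ))
    (fun v hv => h (hSp v hv)) (φ.res h) ?_ K hK hTF (fun v => (hΦ (Out h v)).res h) O _ _ _ _
    W _ _ _ τ hU' (cont_res h hτ) (m.comap (algMap h O)) hmax k _ (algRes h m k) ρ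
    (attached_res h m k ρ hA) hne i (inSupport_res h hU' hi)
  intro v k
  by_contra hne
  exact v.2 (Or.inr ⟨(Out h v).2, fun hall => hne (hall k)⟩)

/-- **MAIN2.** The theorem without the assumption on the order. -/
theorem main_all (q : Qd F) (hdiv : ∀ x : DF q, x ≠ 0 → IsUnit x)
    (hr : 1 ≤ Nat.card (SPl q) + r2 F) {p : ℕ} [Fact p.Prime] {S : Set (Pl F)} (hS : S.Finite)
    (hSp : ∀ v : Pl F, ((p : ℕ) : 𝓞 F) ∈ v.asIdeal → v ∈ S) (φ : Spl q S)
    (K : Subgroup (sysD q).A) (hK : OC K) (hTF : TorsionFree K)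
    (hΦ : HypOff K (chartD φ)) {O : Type} [CommRing O] [IsDomain O] [IsDiscreteValuationRing O]
    [CharP (IsLocalRing.ResidueField O) p] {W : Type} [AddCommGroup W] [Module O W]
    [Module.Finite O W] (τ : Representation O K W) (hU : UnramOff K τ (chartD φ))
    (hτ : Cont K τ (chartD φ)) (m : Ideal (HeckeAlg S O)) [m.IsMaximal] (k : Type) [Field k]
    [Algebra (HeckeAlg S O ⧸ m) k] (ρ : GalF F →* GL (Fin 2) k) (hA : AttachedQ m k ρ)
    (hne : NonEisenstein ρ) (i : ℕ) (hi : InSupport K τ hU i m) :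
    min 2 (Nat.card (SPl q) + r2 F) ≤ i ∧ i + min 2 (Nat.card (SPl q) + r2 F) ≤ dimQ q :=
  main_q_of q hdiv hr hS hSp φ K hK hTF hΦ τ hU hτ m k ρ hA hne i
    ((van_fin q hdiv hr p K hK hTF O).2 inferInstance i W τ) hi

end Pool.Agent.CGQ
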