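import Pool.Agent.CGQ.TDefs

/-!
# The top degrees: invariant functions with values in `FF` are finite chains
-/

noncomputable section

namespace Pool.Agent.CGQ

open NumberField IsDedekindDomain Pool.Agent.CG3 CategoryTheory
open Pool.Agent.CG2 (Pl IsCoef CellSys Asc AltF dF)

variable {F : Type} [Field F] [NumberField F] {𝒟 : Sys F}
variable {O k : Type} [CommRing O] [AddCommGroup k] [Module O k] {K : Subgroup 𝒟.A}

/-- **TAA1.** Nonempty subsets of cells are cells. PROOF. `T.asc b`, `Asc.sub`. -/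
theorem TSys.cell_sub (T : TSys K) (b : PtK K) {R R' : Finset 𝒟.G} (h : (T.C.X b).cell R')
    (hR : R ⊆ R') (hne : R.Nonempty) : (T.C.X b).cell R := by
  obtain ⟨X, hX⟩ := T.asc b
  have h2 := X.sub R R' ((hX R').2 (Or.inr h)) hR
  rcases (hX R).1 h2 with h3 | h3
  · exact absurd h3 hne.ne_empty
  · exact h3

private theorem taa_pr (y : 𝒟.Pt) (δ : 𝒟.G) : prF K y δ = δ • mkK K y := by
  rw [prF, smul_mkK, smul_pt]

/-- **TAA2.** The function attached to a finite chain is invariant.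
PROOF. `(δ, t) ↦ ψ (δ⁻¹ t)`. Alternating on the cells at `prF K y δ = δ • mkK K y`: `CellSys.eqv`
(`Sel.altc_comp'` as in `CG2.En_stab`). In `FF` for fixed `t`: if `ψ (δ⁻¹ t) ≠ 0` then `δ⁻¹ t` is one of
finitely many tuples and `j ≠ 0` (`T.min`: the empty set is not a cell), so `δ = t 0 * (δ⁻¹ t 0)⁻¹` is one
of finitely many elements. Invariance: clear. -/
theorem chain_mem (T : TSys K) (y : 𝒟.Pt) {j : ℕ} {ψ : (Fin j → 𝒟.G) → k}
    (hψ : AltF (T.C.X (mkK K y)).cell ψ) : chain ψ ∈ T.C.Inv (prF K y) (FF K O k) j := by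
  have hinv : ∀ (γ δ : 𝒟.G) (t : Fin j → 𝒟.G), chain ψ (γ • δ, γ • t) = chain ψ (δ, t) := by
    intro γ δ t
    change ψ (fun i => (γ * δ)⁻¹ * (γ * t i)) = ψ (fun i => δ⁻¹ * t i)
    congr 1
    funext i
    group
  refine ⟨⟨fun δ => ?_, fun t => ?_⟩, hinv⟩
  · have h3 := Sel.altc_comp' (T.C.X (mkK K y)).cell (MulAction.toPerm δ) hψ.1
    rw [← CG2.CellTop_cell_smul] at h3
    rw [taa_pr]
    exact h3
  · have hfin : {δ : 𝒟.G | chain ψ (δ, t) ≠ 0}.Finite := by
      cases j with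
      | zero =>
        have h0 : {δ : 𝒟.G | chain ψ (δ, t) ≠ 0} = ∅ := by
          ext δ
          simp only [Set.mem_ofPred_eq, Set.mem_empty_iff_false, iff_false, not_not]
          by_contra hne
          have h1 := hψ.1.1 _ hne
          have h2 := T.min _ _ h1.2
          rw [Sel.card_im h1.1] at h2
          omega
        rw [h0]
        exact Set.finite_empty
      | succ j =>
        refine hψ.2.preimage (f := fun δ : 𝒟.G => fun i => δ⁻¹ * t i) ?_
        intro δ _ δ' _ h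
        have h1 := congrFun h 0
        exact inv_injective (mul_right_cancel h1)
    intro x y'
    exact hfin.subset fun δ hδ => hδ.2

/-- **TAA3.** Every invariant function is of this form.
PROOF. `φ (δ, t) = φ (1, δ⁻¹ t)` by invariance. The function `φ (1, ·)` is alternating on the cells at
`mkK K y` (`prF K y 1 = mkK K y`). Finite support: `T.orb` gives finitely many pairs `(b, R)` with
`1 ∈ R`; if `φ (1, t) ≠ 0`, then `j ≠ 0`, `R = im t` is a cell at `b = mkK K y`, and with `g = (t 0)⁻¹`,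
`(g • b, g R)` is one of these pairs, and `g t` is one of finitely many tuples `t'` (all entries in
`g R`, `t' 0 = 1`). For each such `t'` the elements `δ` with `δ⁻¹ • b = b'` fixed and
`φ (1, δ t') = φ (δ⁻¹, t') ≠ 0` are finitely many, by the definition of `FF` (`ff_iff`, the function
`φ (·, t') ∈ FF`); `δ = t 0`. -/
theorem chain_of (T : TSys K) (hK : OC K) (y : 𝒟.Pt) {j : ℕ} {φ : 𝒟.G × (Fin j → 𝒟.G) → k}
    (hφ : φ ∈ T.C.Inv (prF K y) (FF K O k) j) :
    AltF (T.C.X (mkK K y)).cell (fun t => φ (1, t)) ∧ φ = chain (fun t => φ (1, t)) := by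
  classical
  have hch : ∀ (δ : 𝒟.G) (t : Fin j → 𝒟.G), φ (δ, t) = φ (1, fun i => δ⁻¹ * t i) := by
    intro δ t
    have h1 := hφ.2 δ 1 (fun i => δ⁻¹ * t i)
    have h2 : δ • (1 : 𝒟.G) = δ := mul_one δ
    have h3 : δ • (fun i => δ⁻¹ * t i) = t := by
      funext i
      exact mul_inv_cancel_left δ (t i)
    rw [h2, h3] at h1
    exact h1
  refine ⟨⟨?_, ?_⟩, funext fun p => hch p.1 p.2⟩
  · have h1 := hφ.1.1 1
    rwa [taa_pr, one_smul] at h1
  · cases j with
    | zero => exact Set.toFinite _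
    | succ j =>
      have hD : ∀ (b : PtK K) (t' : Fin (j + 1) → 𝒟.G),
          {γ : 𝒟.G | prF K y γ = b ∧ φ (γ, t') ≠ 0}.Finite := fun b t' =>
        (ff_iff hK y _).1 (hφ.1.2 t') b
      refine (T.orb.biUnion (t := fun q => ⋃ t' ∈ ((Fintype.piFinset
        fun _ : Fin (j + 1) => q.2 : Finset (Fin (j + 1) → 𝒟.G)) : Set (Fin (j + 1) → 𝒟.G)),
        (fun g : 𝒟.G => fun i => g⁻¹ * t' i) '' {γ : 𝒟.G | prF K y γ = q.1 ∧ φ (γ, t') ≠ 0})
        (fun q _ => (Finset.finite_toSet _).biUnion fun t' _ => (hD q.1 t').image _)).subset ?_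
      intro t ht
      have ht' : φ (1, t) ≠ 0 := ht
      have h1 : Sel.ctc (T.C.X (prF K y 1)).cell t := (hφ.1.1 1).1 t ht'
      rw [taa_pr, one_smul] at h1
      have h2 : φ ((t 0)⁻¹, fun i => (t 0)⁻¹ * t i) ≠ 0 := by
        rw [hch]
        have h3 : (fun i => ((t 0)⁻¹)⁻¹ * ((t 0)⁻¹ * t i)) = t := by
          funext i
          group
        rwa [h3]
      have h4 : Sel.ctc (T.C.X (prF K y (t 0)⁻¹)).cell (fun i => (t 0)⁻¹ * t i) :=
        (hφ.1.1 (t 0)⁻¹).1 _ h2
      refine Set.mem_iUnion₂.2 ⟨(prF K y (t 0)⁻¹, Sel.im fun i => (t 0)⁻¹ * t i),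
        ⟨h4.2, Sel.mem_im.2 ⟨0, inv_mul_cancel _⟩⟩, Set.mem_iUnion₂.2
        ⟨fun i => (t 0)⁻¹ * t i, ?_, (t 0)⁻¹, ⟨rfl, h2⟩, ?_⟩⟩
      · rw [Finset.mem_coe, Fintype.mem_piFinset]
        exact fun i => Sel.mem_im.2 ⟨i, rfl⟩
      · funext i
        simp

/-- **TAA4.** The differentials. PROOF. `Sel.dc` at the cells of `δ • b` is `Sel.dc` at `b` of the
translated function (as `CG2.CellTop_dc_smul`); at `b`: for a tuple `t` (nonempty, since `0 < j`) if
`ψ (Fin.cons ρ t) ≠ 0` then `im t` is a cell (`cell_sub`) and `ρ ∈ Sel.nb cell (im t)`; `Sel.nb` is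
finite here (`CG3/SelE.lean`), so the sum over `Sel.nb` is the finsum over all `ρ`
(`finsum_eq_sum_of_support_subset`), and both sides vanish if `t` is not a cell. -/
theorem chain_dc (T : TSys K) (y : 𝒟.Pt) {j : ℕ} (hj : 0 < j)
    {ψ : (Fin (j + 1) → 𝒟.G) → k} (hψ : AltF (T.C.X (mkK K y)).cell ψ) (δ : 𝒟.G)
    (t : Fin j → 𝒟.G) :
    Sel.dc (T.C.X (prF K y δ)).cell (fun t => chain ψ (δ, t)) t = chain (dF ψ) (δ, t) := by
  have key : ∀ s : Fin j → 𝒟.G, Sel.dc (T.C.X (mkK K y)).cell ψ s = dF ψ s := by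
    intro s
    rw [dF]
    by_cases hs : Sel.ctc (T.C.X (mkK K y)).cell s
    · rw [Sel.dc, if_pos hs]
      symm
      apply finsum_eq_sum_of_support_subset
      intro ρ hρ
      rw [Finset.mem_coe]
      exact (Sel.Cx.ct_cons (T.C.X (mkK K y)) hs).1 (hψ.1.1 _ hρ)
    · rw [Sel.dc, if_neg hs]
      symm
      have h0 : ∀ ρ : 𝒟.G, ψ (Fin.cons ρ s) = 0 := by
        intro ρ
        by_contra hne
        have h1 := CG2.polyAsc_ctc_cons.1 (hψ.1.1 _ hne)
        exact hs ⟨h1.1, T.cell_sub _ h1.2.2 (Finset.subset_insert _ _)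
          ⟨s ⟨0, hj⟩, Sel.mem_im.2 ⟨_, rfl⟩⟩⟩
      rw [finsum_congr h0, finsum_zero]
  have h1 := CG2.CellTop_dc_smul T.C δ (mkK K y) (fun t => chain ψ (δ, t)) (fun i => δ⁻¹ * t i)
  have h2 : δ • (fun i => δ⁻¹ * t i) = t := by
    funext i
    exact mul_inv_cancel_left δ (t i)
  have h3 : (fun t' : Fin (j + 1) → 𝒟.G => chain ψ (δ, δ • t')) = ψ := by
    funext t'
    change ψ (fun i => δ⁻¹ * (δ * t' i)) = ψ t'
    congr 1
    funext i
    exact inv_mul_cancel_left δ (t' i)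
  rw [h2, h3, ← taa_pr] at h1
  rw [h1, key]
  rfl

/-- **TAA5.** -/
theorem e1_altF (T : TSys K) (b : PtK K) (w : 𝒟.G) (hw : (T.C.X b).cell {w}) (a : k) :
    AltF (T.C.X b).cell (e1 w a) := by
  refine ⟨⟨fun t ht => ?_, fun t π => ?_⟩, ?_⟩
  · have h1 : t 0 = w := by
      by_contra h
      exact ht (if_neg h)
    refine ⟨Function.injective_of_subsingleton t, ?_⟩
    have h5 : Sel.im t = {w} := by
      ext x
      rw [Sel.mem_im, Finset.mem_singleton]
      constructor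
      · rintro ⟨i, rfl⟩
        rw [Subsingleton.elim i 0, h1]
      · intro hx
        exact ⟨0, by rw [h1, hx]⟩
    rw [h5]
    exact hw
  · have h1 : π = 1 := Subsingleton.elim _ _
    subst h1
    simp
  · refine (Set.finite_singleton (fun _ : Fin 1 => w)).subset ?_
    intro t ht
    have h1 : t 0 = w := by
      by_contra h
      exact ht (if_neg h)
    rw [Set.mem_singleton_iff]
    funext i
    rw [Subsingleton.elim i 0, h1]

end Pool.Agent.CGQ
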