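import Pool.Agent.CGQ.TAA

/-!
# The top degrees: the cohomology of `FF`
-/

noncomputable section

namespace Pool.Agent.CGQ

open NumberField IsDedekindDomain Pool.Agent.CG3 CategoryTheory
open Pool.Agent.CG2 (Pl IsCoef CellSys Asc AltF dF)

variable {F : Type} [Field F] [NumberField F] {𝒟 : Sys F}
variable {O k : Type} [CommRing O] [AddCommGroup k] [Module O k] {K : Subgroup 𝒟.A}

/-- The map `top` for `FF`. -/
def topE (T : TSys K) (hK : OC K) (O k : Type) [CommRing O] [AddCommGroup k] [Module O k]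
    (y : 𝒟.Pt) : T.C.Inv (prF K y) (FF K O k) 1 →ₗ[O]
      groupCohomology (ffRep hK O k) T.C.n0 :=
  T.C.top (ff_coef hK y) (Nat.add_comm 1 _)

private theorem tab_exact (T : TSys K) (b : PtK K) {m : ℕ} {ψ : (Fin (m + 1) → 𝒟.G) → k}
    (hψ : AltF (T.C.X b).cell ψ) (hd : dF ψ = 0) :
    ∃ ψ' : (Fin (m + 1 + 1) → 𝒟.G) → k, AltF (T.C.X b).cell ψ' ∧ dF ψ' = ψ := by
  obtain ⟨X, hX⟩ := T.asc b
  have h1 : AltF X.face ψ :=
    ⟨⟨fun t ht => ⟨(hψ.1.1 t ht).1, (hX _).2 (Or.inr (hψ.1.1 t ht).2)⟩, hψ.1.2⟩, hψ.2⟩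
  obtain ⟨ψ', h2, h3⟩ := X.exact h1 hd
  refine ⟨ψ', ⟨⟨fun t ht => ⟨(h2.1.1 t ht).1, ?_⟩, h2.1.2⟩, h2.2⟩, h3⟩
  rcases (hX _).1 (h2.1.1 t ht).2 with h4 | h4
  · exfalso
    have h5 : t 0 ∈ Sel.im t := Sel.mem_im.2 ⟨0, rfl⟩
    rw [h4] at h5
    exact absurd h5 (Finset.notMem_empty _)
  · exact h4

/-- **TAB1.** The cohomology of `FF` vanishes one below the top degree.
PROOF. With the tower `CG2.CellTop_tow T.C (ff_coef hK y)` and `2 + n = n0 + 1`: a class in degree `n`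
is (through `CG2.CellTop_auE`) `D 2 n a`, `a` in `H⁰` of `CellTop_R … 2 = RZ 1`
(`CellTower.D_surj`); `a` is an invariant `φ` on pairs with vanishing differential
(`CG2.CellTop_h0`, `CG2.CellTop_inv_iff`, see `CG2.CellTop_z0`). By `chain_of`, `φ = chain ψ`, and
`dF ψ = 0` by `chain_dc` (`j = 1`, `δ = 1`). `T.asc` and `Asc.exact` give `ψ'` on triples with
`dF ψ' = ψ` (`AltF` for `X.face` and for `cell` is the same on nonempty tuples), so `φ` is the
differential of `chain ψ'`, i.e. `a` comes from `H⁰` of `I 2 = RE 3`, so `D 2 n a = 0` by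
`CellTower.D_ker` (`n = n' + 1` since `2 ≤ n0`). See `CG2.CellTop_ker` for the same computation. -/
theorem ff_van (T : TSys K) (hK : OC K) (n : ℕ) (hn : n + 1 = T.C.n0) :
    Subsingleton (groupCohomology (ffRep hK O k) n) := by
  let y : 𝒟.Pt := (1, 1)
  let hM : IsCoef (Γ := 𝒟.G) (prF K y) (FF K O k) := ff_coef hK y
  obtain ⟨n', rfl⟩ : ∃ n', n = n' + 1 := ⟨n - 1, by have := T.two; omega⟩
  have hn2 : 2 + (n' + 1) = T.C.n0 + 1 := by omega
  refine subsingleton_of_forall_eq 0 fun z => ?_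
  change z = (0 : groupCohomology hM.rep (n' + 1))
  have hz : CG2.CellTop_auE T.C hM (2 + (n' + 1)) hn2 (n' + 1) z = 0 := by
    obtain ⟨a, ha⟩ := (CG2.CellTop_tow T.C hM).D_surj 2 (n' + 1) hn2.le
      (CG2.CellTop_auE T.C hM (2 + (n' + 1)) hn2 (n' + 1) z)
    rw [← ha]
    refine ((CG2.CellTop_tow T.C hM).D_ker 2 n' hn2.le a).2 ?_
    obtain ⟨x, hx⟩ : ∃ x, x = CG2.CellTop_h0 (T.C.RZ hM 1) a := ⟨_, rfl⟩
    have hφ : (x.1 : T.C.Zn (prF K y) (FF K O k) 1).1 ∈ T.C.Inv (prF K y) (FF K O k) (1 + 1) :=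
      ⟨(x.1 : T.C.Zn (prF K y) (FF K O k) 1).2.1, fun γ δ t =>
        (CG2.CellTop_inv_iff _ _ _).1 x.2 γ (δ, t)⟩
    obtain ⟨h1, h2⟩ := chain_of T hK y hφ
    have h3 : dF (fun t => (x.1 : T.C.Zn (prF K y) (FF K O k) 1).1 (1, t)) = 0 := by
      funext t
      have h4 := chain_dc T y one_pos h1 1 t
      rw [← h2] at h4
      have h5 := (x.1 : T.C.Zn (prF K y) (FF K O k) 1).2.2 1 t
      rw [h5] at h4
      have h6 : (fun i => (1 : 𝒟.G)⁻¹ * t i) = t := by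
        funext i
        rw [inv_one, one_mul]
      have h7 : chain (dF fun t => (x.1 : T.C.Zn (prF K y) (FF K O k) 1).1 (1, t))
          ((1 : 𝒟.G), t) = dF (fun t => (x.1 : T.C.Zn (prF K y) (FF K O k) 1).1 (1, t)) t := by
        change dF _ (fun i => (1 : 𝒟.G)⁻¹ * t i) = _
        rw [h6]
      rw [← h7, ← h4]
      rfl
    obtain ⟨ψ', h8, h9⟩ := tab_exact T (mkK K y) h1 h3
    have hw := chain_mem (O := O) T y h8
    refine ⟨(CG2.CellTop_h0 (T.C.RE hM (1 + 2))).symm ⟨⟨chain ψ', hw.1⟩,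
      (CG2.CellTop_inv_iff _ _ _).2 fun γ y => hw.2 γ y.1 y.2⟩, ?_⟩
    apply (CG2.CellTop_h0 (T.C.RZ hM 1)).injective
    apply Subtype.ext
    apply Subtype.ext
    have h10 := CG2.CellTop_h0_nat (T.C.Dn hM 1) ((CG2.CellTop_h0 (T.C.RE hM (1 + 2))).symm
      ⟨⟨chain ψ', hw.1⟩, (CG2.CellTop_inv_iff _ _ _).2 fun γ y => hw.2 γ y.1 y.2⟩)
    rw [LinearEquiv.apply_symm_apply] at h10
    rw [← hx]
    refine (congrArg (fun a : T.C.Zn (prF K y) (FF K O k) 1 => a.1) h10).trans ?_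
    funext p
    refine (CG2.Dn_apply T.C hM 1 ⟨chain ψ', hw.1⟩ p.1 p.2).trans ?_
    refine (chain_dc T y two_pos h8 p.1 p.2).trans ?_
    rw [h9, ← h2]
    rfl
  have h4 := (CG2.CellTop_auE T.C hM (2 + (n' + 1)) hn2 (n' + 1)).map_eq_zero_iff.1 hz
  exact h4

/-- **TAB2.** The top degree.
PROOF. `CG2.top_surj` (`c0 = 1`), `chain_of`: `z = top (chain ψ)`, `ψ` a finite chain of size `1`.
`a = ∑ ψ` (`dF ψ` at the empty tuple). `ψ - e1 w a` has `dF = 0`, so `= dF ψ'` by `Asc.exact`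
(`m = 0`), so `top (chain ψ) = top (chain (e1 w a))` by `CG2.top_ker` and `chain_dc`. -/
theorem ff_top (T : TSys K) (hK : OC K) (y : 𝒟.Pt) (w : 𝒟.G)
    (hw : (T.C.X (mkK K y)).cell {w}) (z : groupCohomology (ffRep hK O k) T.C.n0) :
    ∃ a : k, topE T hK O k y ⟨chain (e1 w a), chain_mem T y (e1_altF T _ w hw a)⟩ = z := by
  have hn : 1 + T.C.n0 = T.C.n0 + 1 := Nat.add_comm 1 _
  have h0 : 0 < T.C.n0 := by have := T.two; omega
  obtain ⟨u, hu⟩ := CG2.top_surj T.C (ff_coef (O := O) (k := k) hK y) hn h0 one_pos T.min z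
  obtain ⟨h1, h2⟩ := chain_of T hK y u.2
  let ψ : (Fin 1 → 𝒟.G) → k := fun t => u.1 (1, t)
  let a : k := dF ψ Fin.elim0
  have he := e1_altF T (mkK K y) w hw a
  refine ⟨a, ?_⟩
  have hd : dF (ψ - e1 w a) = 0 := by
    rw [CG2.polyAsc_dF_sub h1.2 he.2]
    funext t
    have ht : t = Fin.elim0 := Subsingleton.elim _ _
    subst ht
    have h3 : dF (e1 w a) (Fin.elim0 : Fin 0 → 𝒟.G) = a := by
      rw [dF, finsum_eq_single _ w]
      · rw [e1, if_pos]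
        rfl
      · intro ρ hρ
        rw [e1, if_neg]
        exact hρ
    rw [Pi.sub_apply, h3, Pi.zero_apply]
    exact sub_self a
  obtain ⟨ψ', h8, h9⟩ := tab_exact T (mkK K y) (h1.sub he) hd
  have h10 := (CG2.top_ker T.C (ff_coef (O := O) (k := k) hK y) hn h0 one_pos T.min
    (u - ⟨chain (e1 w a), chain_mem T y he⟩)).2 ⟨chain ψ', chain_mem T y h8, fun δ t => by
      rw [chain_dc T y one_pos h8 δ t, h9]
      change u.1 (δ, t) - chain (e1 w a) (δ, t) = chain (ψ - e1 w a) (δ, t)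
      rw [h2]
      rfl⟩
  rw [map_sub, sub_eq_zero, hu] at h10
  exact h10.symm

end Pool.Agent.CGQ
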