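import Pool.Agent.CGQ.CBase

/-!
# Homogeneous cochains
-/

noncomputable section

namespace Pool.Agent.CGQ

open CategoryTheory groupCohomology

variable {R H : Type} [CommRing R] [Group H]

/-- The homogeneous cochain attached to an inhomogeneous one. -/
def hgn (A : Rep.{0} R H) {n : ℕ} (f : (Fin n → H) → A) (w : Fin (n + 1) → H) : A :=
  A.ρ (w 0) (f fun i => (w i.castSucc)⁻¹ * w i.succ)

/-- **TAC1.** -/
theorem hgn_smul (A : Rep.{0} R H) {n : ℕ} (f : (Fin n → H) → A) (g : H)
    (w : Fin (n + 1) → H) : hgn A f (fun i => g * w i) = A.ρ g (hgn A f w) := by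
  change A.ρ (g * w 0) (f fun i => (g * w i.castSucc)⁻¹ * (g * w i.succ)) =
    A.ρ g (A.ρ (w 0) (f fun i => (w i.castSucc)⁻¹ * w i.succ))
  rw [map_mul, Module.End.mul_apply]
  congr 3
  funext i
  group

/-- **TAC2.** PROOF. `inhomogeneousCochains.d_hom_apply`; the term `i = 0` is the first one, the term
`i = j + 1` is the one with `Fin.contractNth j`: the contraction of the sequence of the quotients
`(w i)⁻¹ w (i+1)` at `j < n` is the sequence of the quotients of `w ∘ (j+1).succAbove`, and for
`j = n` (last) it drops the last quotient. -/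
theorem hgn_d (A : Rep.{0} R H) {n : ℕ} (f : (Fin n → H) → A) (w : Fin (n + 2) → H) :
    hgn A (n := n + 1) (inhomogeneousCochains.d A n f) w =
      ∑ i : Fin (n + 2), (-1 : R) ^ (i : ℕ) • hgn A f (w ∘ i.succAbove) := by
  have hq : ∀ (j : Fin (n + 1)) (i : Fin n),
      Fin.contractNth j (· * ·) (fun i : Fin (n + 1) => (w i.castSucc)⁻¹ * w i.succ) i =
        (w (j.succ.succAbove i.castSucc))⁻¹ * w (j.succ.succAbove i.succ) := by
    intro j i
    rcases lt_trichotomy (i : ℕ) j with h | h | h
    · rw [Fin.contractNth_apply_of_lt _ _ _ _ h,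
        Fin.succAbove_of_castSucc_lt _ _ (by rw [Fin.lt_def]; simp; omega),
        Fin.succAbove_of_castSucc_lt _ _ (by rw [Fin.lt_def]; simp; omega)]
      rw [Fin.succ_castSucc]
    · rw [Fin.contractNth_apply_of_eq _ _ _ _ h,
        Fin.succAbove_of_castSucc_lt _ _ (by rw [Fin.lt_def]; simp; omega),
        Fin.succAbove_of_le_castSucc _ _ (by rw [Fin.le_def]; simp; omega)]
      rw [Fin.succ_castSucc]
      group
    · rw [Fin.contractNth_apply_of_gt _ _ _ _ h,
        Fin.succAbove_of_le_castSucc _ _ (by rw [Fin.le_def]; simp; omega),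
        Fin.succAbove_of_le_castSucc _ _ (by rw [Fin.le_def]; simp; omega)]
      rw [Fin.succ_castSucc]
  rw [Fin.sum_univ_succ]
  change A.ρ (w 0) ((inhomogeneousCochains.d A n).hom f
    (fun i : Fin (n + 1) => (w i.castSucc)⁻¹ * w i.succ)) = _
  rw [inhomogeneousCochains.d_hom_apply, map_add, map_sum]
  congr 1
  · have h0 : (w (0 : Fin (n + 1)).castSucc) * ((w (0 : Fin (n + 1)).castSucc)⁻¹ *
        w (0 : Fin (n + 1)).succ) = w (0 : Fin (n + 1)).succ := mul_inv_cancel_left _ _
    rw [← Module.End.mul_apply, ← map_mul]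
    rw [Fin.val_zero, pow_zero, one_smul]
    have h1 : w 0 * ((w (0 : Fin (n + 1)).castSucc)⁻¹ * w (0 : Fin (n + 1)).succ) =
      w (0 : Fin (n + 1)).succ := h0
    rw [h1]
    rfl
  · refine Finset.sum_congr rfl fun j _ => ?_
    rw [map_smul, Fin.val_succ]
    congr 1
    have h2 : (w ∘ j.succ.succAbove) 0 = w 0 := by
      change w (j.succ.succAbove 0) = w 0
      rw [Fin.succ_succAbove_zero]
    rw [hgn, h2]
    congr 2
    funext i
    exact hq j i

/-- **TAC3.** PROOF. `f g = h (1, g 0, g 0 * g 1, …)` (`Fin.partialProd`). -/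
theorem exists_hgn (A : Rep.{0} R H) {n : ℕ} (h : (Fin (n + 1) → H) → A)
    (he : ∀ (g : H) (w : Fin (n + 1) → H), h (fun i => g * w i) = A.ρ g (h w)) :
    ∃ f : (Fin n → H) → A, ∀ w, hgn A f w = h w := by
  refine ⟨fun g => h (Fin.partialProd g), fun w => ?_⟩
  rw [hgn, ← he]
  congr 1
  exact Fin.partialProd_left_inv w

/-- **TAC4.** A linear form on the cochains which vanishes on the coboundaries descends to the
cohomology. PROOF. The homology is a quotient of the cycles (`groupCohomology.π` surjective with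
kernel the image of `toCocycles`); e.g. `HomologicalComplex.descHomology` or: `π` is surjective,
`π x = 0` implies `iCocycles x = d u` (see how CG3/CG2 or mathlib's LowDegree treat this). For `n = 0`
there are no coboundaries. -/
theorem exists_class (A : Rep.{0} R H) {V : Type} [AddCommGroup V] [Module R V] (n : ℕ)
    (J : ((Fin n → H) → A) →ₗ[R] V)
    (hJ : ∀ (m : ℕ) (u : (Fin m → H) → A), m + 1 = n →
      J ((inhomogeneousCochains A).d m n u) = 0) :
    ∃ J' : groupCohomology A n →ₗ[R] V, ∀ (f : (Fin n → H) → A)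
      (hf : inhomogeneousCochains.d A n f = 0), J' (π A n (cocyclesMk f hf)) = J f := by
  have hk : ((inhomogeneousCochains A).sc n).toCycles ≫
      ((inhomogeneousCochains A).iCycles n ≫ ModuleCat.ofHom J) = 0 := by
    have h1 : ((inhomogeneousCochains A).sc n).toCycles ≫ (inhomogeneousCochains A).iCycles n =
        (inhomogeneousCochains A).d ((ComplexShape.up ℕ).prev n) n :=
      ((inhomogeneousCochains A).sc n).toCycles_i
    refine (Category.assoc _ _ _).symm.trans ((congrArg (fun g => g ≫ ModuleCat.ofHom J)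
      h1).trans ?_)
    by_cases hr : (ComplexShape.up ℕ).prev n + 1 = n
    · ext u
      exact hJ _ u hr
    · rw [(inhomogeneousCochains A).shape _ _ hr]
      exact Limits.zero_comp
  refine ⟨(((inhomogeneousCochains A).sc n).descHomology _ hk).hom, fun f hf => ?_⟩
  have h2 : (inhomogeneousCochains A).homologyπ n ≫
      ((inhomogeneousCochains A).sc n).descHomology _ hk = _ :=
    ((inhomogeneousCochains A).sc n).π_descHomology _ hk
  have h3 := congrArg (fun g => g.hom (cocyclesMk f hf)) h2
  refine Eq.trans h3 ?_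
  change J (iCocycles A n (cocyclesMk f hf)) = J f
  rw [iCocycles_mk]

/-- **TAC5.** PROOF. `groupCohomology.π_map` and the formula for `cochainsMap`
(`mapCoh` is induced by composition with `φ`). -/
theorem mapCoh_class {A B : Rep.{0} R H} (φ : A ⟶ B) {n : ℕ} (f : (Fin n → H) → A)
    (hf : inhomogeneousCochains.d A n f = 0)
    (hf' : inhomogeneousCochains.d B n (fun g => φ.hom (f g)) = 0) :
    mapCoh φ n (π A n (cocyclesMk f hf)) = π B n (cocyclesMk (fun g => φ.hom (f g)) hf') := by
  have h1 := congrArg (fun g => g.hom (cocyclesMk f hf))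
    (groupCohomology.π_map (MonoidHom.id H) (B := B) φ n)
  refine Eq.trans h1 ?_
  change (π B n).hom ((cocyclesMap (MonoidHom.id H) φ n).hom (cocyclesMk f hf)) = _
  congr 1
  have hinj : Function.Injective (iCocycles B n).hom :=
    (ModuleCat.mono_iff_injective _).1 inferInstance
  apply hinj
  have h2 := congrArg (fun g => g.hom (cocyclesMk f hf))
    (HomologicalComplex.cyclesMap_i (cochainsMap (MonoidHom.id H) φ) n)
  refine Eq.trans h2 ?_
  refine Eq.trans ?_ (iCocycles_mk (fun g => φ.hom (f g)) hf').symm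
  change ((cochainsMap (MonoidHom.id H) φ).f n).hom (iCocycles A n (cocyclesMk f hf)) = _
  rw [iCocycles_mk]
  rfl

end Pool.Agent.CGQ
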