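import Pool.Agent.CGQ.TAA
import Pool.Agent.CGQ.TAC

/-!
# The top degrees: integration over the cells
-/

noncomputable section

namespace Pool.Agent.CGQ

open NumberField IsDedekindDomain Pool.Agent.CG3 CategoryTheory groupCohomology
open Pool.Agent.CG2 (Pl IsCoef CellSys Asc AltF dF)

variable {F : Type} [Field F] [NumberField F] {𝒟 : Sys F}
variable {O k : Type} [CommRing O] [AddCommGroup k] [Module O k] {K : Subgroup 𝒟.A}

private theorem tad_po (V : Type) [DecidableEq V] : ∃ P : PartialOrder V,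
    ∀ (n : ℕ) (R : Finset V), R.card = n →
      ∃ t : Fin n → V, @StrictMono (Fin n) V _ P.toPreorder t ∧ Sel.im t = R := by
  classical
  let L : LinearOrder V := linearOrderOfSTO (WellOrderingRel (α := V))
  refine ⟨L.toPartialOrder, fun n R h => ⟨R.orderEmbOfFin h, (R.orderEmbOfFin h).strictMono, ?_⟩⟩
  ext x
  rw [Sel.mem_im]
  have h1 := Finset.range_orderEmbOfFin R h
  constructor
  · rintro ⟨i, rfl⟩
    exact Finset.orderEmbOfFin_mem R h i
  · intro hx
    have h2 : x ∈ Set.range (R.orderEmbOfFin h) := by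
      rw [h1]; exact hx
    exact h2

private theorem tad_cons {V : Type} {m : ℕ} (t : Fin (m + 1) → V) (i : Fin (m + 1)) :
    (Fin.cons (t i) (t ∘ i.succAbove) : Fin (m + 1) → V) = t ∘ i.cycleRange.symm := by
  funext j
  refine Fin.cases ?_ (fun j => ?_) j
  · simp
  · simp

private theorem tad_o {V : Type} [DecidableEq V] {cell : Finset V → Prop} {m : ℕ}
    {o : (Fin (m + 1) → V) → ℤ} (ho : Sel.Altc cell o) (t : Fin (m + 1) → V)
    (i : Fin (m + 1)) : o (Fin.cons (t i) (t ∘ i.succAbove)) = (-1) ^ (i : ℕ) * o t := by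
  rw [tad_cons, ho.2 t i.cycleRange.symm, Equiv.Perm.sign_symm, Fin.sign_cycleRange]
  simp

private theorem tad_im {V : Type} [DecidableEq V] {m : ℕ} (t : Fin (m + 1) → V)
    (i : Fin (m + 1)) : Sel.im t = insert (t i) (Sel.im (t ∘ i.succAbove)) := by
  rw [← Sel.im_cons, tad_cons, Sel.im_perm]

private theorem tad_core {V k : Type} [DecidableEq V] [AddCommGroup k] [PartialOrder V]
    (cell : Finset V → Prop)
    (hsub : ∀ R R', cell R' → R ⊆ R' → R.Nonempty → cell R)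
    (hnb : ∀ R, cell R → {ρ | ρ ∉ R ∧ cell (insert ρ R)}.Finite)
    (hen : ∀ (n : ℕ) (R : Finset V), R.card = n →
      ∃ t : Fin n → V, StrictMono t ∧ Sel.im t = R)
    {m : ℕ} (o : (Fin (m + 2) → V) → ℤ) (ho : Sel.Altc cell o) (hcl : ∀ t, Sel.dc cell o t = 0)
    (g : (Fin (m + 1) → V) → k) (hg : {s | Sel.ctc cell s ∧ g s ≠ 0}.Finite) :
    ∑ᶠ t : Fin (m + 2) → V, (open Classical in if StrictMono t ∧ Sel.ctc cell t then
      o t • ∑ i : Fin (m + 2), (-1 : ℤ) ^ (i : ℕ) • g (t ∘ i.succAbove) else 0) = 0 := by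
  classical
  obtain ⟨S, hS⟩ : ∃ S : Finset (Fin (m + 1) → V), ∀ s, s ∈ S ↔
      StrictMono s ∧ Sel.ctc cell s ∧ g s ≠ 0 := by
    refine ⟨hg.toFinset.filter fun s => StrictMono s, fun s => ?_⟩
    rw [Finset.mem_filter, Set.Finite.mem_toFinset]
    exact ⟨fun h => ⟨h.2, h.1⟩, fun h => ⟨h.2, h.1⟩⟩
  have hnbm : ∀ s ∈ S, ∀ ρ, ρ ∈ Sel.nb cell (Sel.im s) ↔
      ρ ∉ Sel.im s ∧ cell (insert ρ (Sel.im s)) := by
    intro s hs ρ
    have h1 := ((hS s).1 hs).2.1
    rw [Sel.nb, dif_pos (hnb _ h1.2), Set.Finite.mem_toFinset]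
    rfl
  -- the insertion
  have key : ∀ (s : Fin (m + 1) → V) (ρ : V), StrictMono s → ρ ∉ Sel.im s →
      ∃ p : (Fin (m + 2) → V) × Fin (m + 2), StrictMono p.1 ∧ p.1 ∘ p.2.succAbove = s ∧
        p.1 p.2 = ρ := by
    intro s ρ hs hρ
    have hc : (insert ρ (Sel.im s)).card = m + 2 := by
      rw [Finset.card_insert_of_notMem hρ, Sel.card_im hs.injective]
    obtain ⟨t, ht, him⟩ := hen (m + 2) _ hc
    have h1 : ρ ∈ Sel.im t := by
      rw [him]; exact Finset.mem_insert_self _ _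
    obtain ⟨i, hi⟩ := Sel.mem_im.1 h1
    refine ⟨(t, i), ht, ?_, hi⟩
    have h2 : StrictMono (t ∘ i.succAbove) := ht.comp (Fin.strictMono_succAbove i)
    refine (StrictMono.range_inj h2 hs).1 ?_
    have h3 := tad_im t i
    rw [hi, him] at h3
    have h4 : ρ ∉ Sel.im (t ∘ i.succAbove) := by
      intro h
      obtain ⟨j, hj⟩ := Sel.mem_im.1 h
      have h5 : t (i.succAbove j) = t i := hj.trans hi.symm
      exact Fin.succAbove_ne i j (ht.injective h5)
    ext x
    have h6 : ∀ (n : ℕ) (r : Fin n → V), x ∈ Set.range r ↔ x ∈ Sel.im r := fun n r =>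
      Sel.mem_im.symm
    rw [h6, h6]
    by_cases hx : x = ρ
    · subst hx
      exact ⟨fun h => absurd h h4, fun h => absurd h hρ⟩
    · have h7 := congrArg (fun R => x ∈ R) h3
      simp only [Finset.mem_insert, hx, false_or] at h7
      exact (iff_of_eq h7).symm
  choose! P hP using key
  set N : Finset (Σ _ : (Fin (m + 1) → V), V) := S.sigma fun s => Sel.nb cell (Sel.im s) with hN
  have hNP : ∀ p ∈ N, StrictMono (P p.1 p.2).1 ∧ (P p.1 p.2).1 ∘ (P p.1 p.2).2.succAbove = p.1 ∧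
      (P p.1 p.2).1 (P p.1 p.2).2 = p.2 := by
    intro p hp
    rw [hN, Finset.mem_sigma] at hp
    exact hP p.1 p.2 ((hS _).1 hp.1).1 ((hnbm _ hp.1 _).1 hp.2).1
  set A : Finset ((Fin (m + 2) → V) × Fin (m + 2)) := N.image fun p => P p.1 p.2 with hA
  set G : (Fin (m + 2) → V) × Fin (m + 2) → k := fun q =>
    if StrictMono q.1 ∧ Sel.ctc cell q.1 then
      o q.1 • (-1 : ℤ) ^ (q.2 : ℕ) • g (q.1 ∘ q.2.succAbove) else 0 with hG
  have hGA : ∀ q, G q ≠ 0 → q ∈ A := by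
    intro q hq
    have h1 : StrictMono q.1 ∧ Sel.ctc cell q.1 := by
      by_contra h
      exact hq (if_neg h)
    have h2 : g (q.1 ∘ q.2.succAbove) ≠ 0 := by
      intro h
      apply hq
      simp only [hG]
      rw [if_pos h1, h, smul_zero, smul_zero]
    have h3 : StrictMono (q.1 ∘ q.2.succAbove) := h1.1.comp (Fin.strictMono_succAbove _)
    have h4 := tad_im q.1 q.2
    have h5 : cell (Sel.im (q.1 ∘ q.2.succAbove)) := by
      refine hsub _ _ h1.2.2 ?_ ?_
      · rw [h4]; exact Finset.subset_insert _ _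
      · exact ⟨_, Sel.mem_im.2 ⟨0, rfl⟩⟩
    have h6 : q.1 ∘ q.2.succAbove ∈ S := (hS _).2 ⟨h3, ⟨h3.injective, h5⟩, h2⟩
    have h7 : q.1 q.2 ∉ Sel.im (q.1 ∘ q.2.succAbove) := by
      intro h
      obtain ⟨j, hj⟩ := Sel.mem_im.1 h
      exact Fin.succAbove_ne q.2 j (h1.1.injective hj)
    have h8 : (⟨q.1 ∘ q.2.succAbove, q.1 q.2⟩ : Σ _ : (Fin (m + 1) → V), V) ∈ N := by
      rw [hN, Finset.mem_sigma]
      refine ⟨h6, (hnbm _ h6 _).2 ⟨h7, ?_⟩⟩
      change cell (insert (q.1 q.2) (Sel.im (q.1 ∘ q.2.succAbove)))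
      rw [← h4]
      exact h1.2.2
    refine Finset.mem_image.2 ⟨_, h8, ?_⟩
    obtain ⟨h9, h10, h11⟩ := hNP _ h8
    change P (q.1 ∘ q.2.succAbove) (q.1 q.2) = q
    have h12 : (P (q.1 ∘ q.2.succAbove) (q.1 q.2)).1 = q.1 := by
      refine (StrictMono.range_inj h9 h1.1).1 ?_
      have h13 := tad_im (P (q.1 ∘ q.2.succAbove) (q.1 q.2)).1
        (P (q.1 ∘ q.2.succAbove) (q.1 q.2)).2
      rw [h10, h11, ← h4] at h13
      ext x
      rw [Set.mem_range, Set.mem_range, ← Sel.mem_im, ← Sel.mem_im, h13]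
    refine Prod.ext h12 ?_
    apply h1.1.injective
    have h14 : (P (q.1 ∘ q.2.succAbove) (q.1 q.2)).1 (P (q.1 ∘ q.2.succAbove) (q.1 q.2)).2 =
      q.1 q.2 := h11
    rw [h12] at h14
    exact h14
  have hinj : Set.InjOn (fun p : Σ _ : (Fin (m + 1) → V), V => P p.1 p.2) N := by
    intro p hp p' hp' h
    obtain ⟨-, h1, h2⟩ := hNP p hp
    obtain ⟨-, h3, h4⟩ := hNP p' hp'
    have h' : P p.1 p.2 = P p'.1 p'.2 := h
    rw [h', h3] at h1
    rw [h', h4] at h2
    obtain ⟨a, b⟩ := p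
    obtain ⟨a', b'⟩ := p'
    simp only at h1 h2
    rw [h1, h2]
  -- the sum
  have e1 : ∀ t : Fin (m + 2) → V, (if StrictMono t ∧ Sel.ctc cell t then
      o t • ∑ i : Fin (m + 2), (-1 : ℤ) ^ (i : ℕ) • g (t ∘ i.succAbove) else 0) =
      ∑ i : Fin (m + 2), G (t, i) := by
    intro t
    simp only [hG]
    by_cases h : StrictMono t ∧ Sel.ctc cell t
    · simp only [if_pos h]
      rw [Finset.smul_sum]
    · simp only [if_neg h, Finset.sum_const_zero]
  rw [finsum_congr e1]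
  have e2 : (Function.support fun t : Fin (m + 2) → V => ∑ i : Fin (m + 2), G (t, i)) ⊆
      (A.image Prod.fst : Finset (Fin (m + 2) → V)) := by
    intro t ht
    rw [Function.mem_support] at ht
    obtain ⟨i, -, hi⟩ := Finset.exists_ne_zero_of_sum_ne_zero ht
    rw [Finset.coe_image]
    exact ⟨(t, i), hGA _ hi, rfl⟩
  rw [finsum_eq_sum_of_support_subset _ e2, ← Finset.sum_product']
  have e3 : ∑ x ∈ (A.image Prod.fst) ×ˢ (Finset.univ : Finset (Fin (m + 2))), G (x.1, x.2) =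
      ∑ x ∈ A, G x := by
    symm
    refine Finset.sum_subset_zero_on_sdiff ?_ ?_ ?_
    · intro x hx
      exact Finset.mem_product.2 ⟨Finset.mem_image_of_mem _ hx, Finset.mem_univ _⟩
    · intro x hx
      by_contra h
      exact (Finset.mem_sdiff.1 hx).2 (hGA _ h)
    · intro x _
      rfl
  rw [e3, hA, Finset.sum_image hinj, hN, Finset.sum_sigma]
  refine Finset.sum_eq_zero fun s hs => ?_
  have e4 : ∀ ρ ∈ Sel.nb cell (Sel.im s), G (P s ρ) = o (Fin.cons ρ s) • g s := by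
    intro ρ hρ
    have hp : (⟨s, ρ⟩ : Σ _ : (Fin (m + 1) → V), V) ∈ N := by
      rw [hN, Finset.mem_sigma]; exact ⟨hs, hρ⟩
    obtain ⟨h1, h2, h3⟩ := hNP _ hp
    have h1 : StrictMono (P s ρ).1 := h1
    have h2 : (P s ρ).1 ∘ (P s ρ).2.succAbove = s := h2
    have h3 : (P s ρ).1 (P s ρ).2 = ρ := h3
    have h4 : Sel.ctc cell (P s ρ).1 := by
      refine ⟨h1.injective, ?_⟩
      rw [tad_im _ (P s ρ).2, h2, h3]
      exact ((hnbm s hs ρ).1 hρ).2
    have h5 := tad_o ho (P s ρ).1 (P s ρ).2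
    rw [h2, h3] at h5
    simp only [hG]
    rw [if_pos ⟨h1, h4⟩, h2, h5, smul_smul, mul_comm]
  rw [Finset.sum_congr rfl e4, ← Finset.sum_smul]
  have h1 := hcl s
  rw [Sel.dc, if_pos ((hS s).1 hs).2.1] at h1
  rw [h1, zero_smul]

private theorem tad_int {H : Type} [Group H] [DecidableEq H] {O k : Type} [CommRing O]
    [AddCommGroup k] [Module O k] (A : Rep.{0} O H) (v : A →ₗ[O] k) (cell : Finset H → Prop)
    (hsub : ∀ R R', cell R' → R ⊆ R' → R.Nonempty → cell R)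
    (hnb : ∀ R, cell R → {ρ | ρ ∉ R ∧ cell (insert ρ R)}.Finite)
    (n0 : ℕ) (h1 : 1 ≤ n0) (o : (Fin (n0 + 1) → H) → ℤ) (ho : Sel.Altc cell o)
    (hcl : ∀ t, Sel.dc cell o t = 0)
    (hfin : ∀ (n : ℕ) (f : (Fin n → H) → A),
      {t : Fin (n + 1) → H | Sel.ctc cell t ∧ v (hgn A f t) ≠ 0}.Finite) :
    ∃ J : groupCohomology A n0 →ₗ[O] k, ∀ (f : (Fin n0 → H) → A)
      (hf : inhomogeneousCochains.d A n0 f = 0) (R₀ : Finset H) (a : k), cell R₀ →
      R₀.card = n0 + 1 → (∀ t : Fin (n0 + 1) → H, Sel.im t = R₀ → o t • v (hgn A f t) = a) →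
      (∀ t : Fin (n0 + 1) → H, Sel.ctc cell t → Sel.im t ≠ R₀ → v (hgn A f t) = 0) →
      J (π A n0 (cocyclesMk f hf)) = a := by
  classical
  obtain ⟨P, hP⟩ := tad_po H
  have hsupp : ∀ f : (Fin n0 → H) → A, (Function.support fun t : Fin (n0 + 1) → H =>
      if StrictMono t ∧ Sel.ctc cell t then o t • v (hgn A f t) else 0).Finite := by
    intro f
    refine (hfin n0 f).subset ?_
    intro t ht
    rw [Function.mem_support] at ht
    by_cases h : StrictMono t ∧ Sel.ctc cell t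
    · rw [if_pos h] at ht
      refine ⟨h.2, fun h3 => ht ?_⟩
      rw [h3, smul_zero]
    · exact absurd (if_neg h) ht
  have hadd : ∀ (f g : (Fin n0 → H) → A) (t : Fin (n0 + 1) → H),
      hgn A (f + g) t = hgn A f t + hgn A g t := by
    intro f g t
    exact map_add (A.ρ (t 0)) _ _
  have hsm : ∀ (c : O) (f : (Fin n0 → H) → A) (t : Fin (n0 + 1) → H),
      hgn A (c • f) t = c • hgn A f t := by
    intro c f t
    exact map_smul (A.ρ (t 0)) _ _
  obtain ⟨J, hJ⟩ : ∃ J : ((Fin n0 → H) → A) →ₗ[O] k, ∀ f, J f = ∑ᶠ t : Fin (n0 + 1) → H,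
      if StrictMono t ∧ Sel.ctc cell t then o t • v (hgn A f t) else 0 := by
    refine ⟨{ toFun := fun f => ∑ᶠ t : Fin (n0 + 1) → H,
                if StrictMono t ∧ Sel.ctc cell t then o t • v (hgn A f t) else 0
              map_add' := ?_
              map_smul' := ?_ }, fun f => rfl⟩
    · intro f g
      rw [← finsum_add_distrib (hsupp f) (hsupp g)]
      refine finsum_congr fun t => ?_
      rw [hadd, map_add, smul_add]
      split_ifs
      · rfl
      · rw [add_zero]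
    · intro c f
      rw [RingHom.id_apply, smul_finsum' _ (hsupp f)]
      refine finsum_congr fun t => ?_
      rw [hsm, map_smul, smul_comm]
      split_ifs
      · rfl
      · rw [smul_zero]
  obtain ⟨J', hJ'⟩ := exists_class A n0 J (by
    intro m u hm
    subst hm
    rw [groupCohomology.inhomogeneousCochains.d_def, hJ]
    have h3 := tad_core (k := k) cell hsub hnb hP o ho hcl (fun s => v (hgn A u s)) (hfin m u)
    refine Eq.trans (finsum_congr fun t => ?_) h3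
    by_cases h : StrictMono t ∧ Sel.ctc cell t
    · rw [if_pos h, if_pos h, hgn_d, map_sum]
      congr 1
      refine Finset.sum_congr rfl fun i _ => ?_
      rw [map_smul, ← Int.cast_smul_eq_zsmul O]
      push_cast
      rfl
    · rw [if_neg h, if_neg h])
  refine ⟨J', fun f hf R₀ a hR₀ hc ha h0 => ?_⟩
  rw [hJ', hJ]
  obtain ⟨t₀, ht₀, him⟩ := hP (n0 + 1) R₀ hc
  rw [finsum_eq_single _ t₀, if_pos ⟨ht₀, ht₀.injective, him ▸ hR₀⟩, ha t₀ him]
  intro t ht
  by_cases h : StrictMono t ∧ Sel.ctc cell t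
  · rw [if_pos h]
    have h3 : Sel.im t ≠ R₀ := by
      intro h3
      apply ht
      refine (StrictMono.range_inj h.1 ht₀).1 ?_
      ext x
      rw [Set.mem_range, Set.mem_range, ← Sel.mem_im, ← Sel.mem_im, h3, him]
    rw [h0 t h.2 h3, smul_zero]
  · exact if_neg h

/-- **TAD1.** For every inhomogeneous cochain only finitely many cells of maximal size have a
non-zero value. PROOF. `T.orb` gives finitely many pairs `(b', R')`, `1 ∈ R'`, so finitely many tuples
`t'`, `t' 0 = 1` with entries in such `R'`. If `t` is a tuple in the cells at `mkK K y` and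
`δ = t 0`, then `t = δ t'` with `t'` one of these and `δ⁻¹ • mkK K y` one of finitely many `b'`, and
`hgn f t = δ (hgn f t')` (`hgn_smul`), so its value at `1` is the value of `hgn f t' ∈ FF` at `δ⁻¹`,
non-zero for finitely many `δ` by the definition of `FF` (`ff_iff`). -/
theorem hgn_fin (T : TSys K) (hK : OC K) (y : 𝒟.Pt) {n : ℕ}
    (f : (Fin n → 𝒟.G) → ffRep hK O k) :
    {t : Fin (n + 1) → 𝒟.G | Sel.ctc (T.C.X (mkK K y)).cell t ∧
      (hgn (ffRep hK O k) f t : FF K O k).1 1 ≠ 0}.Finite := by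
  classical
  set P : Set (PtK K × Finset 𝒟.G) :=
    {p | (T.C.X p.1).cell p.2 ∧ (1 : 𝒟.G) ∈ p.2} with hPdef
  have hP : P.Finite := T.orb
  have hfin : ∀ (b : PtK K) (t' : Fin (n + 1) → 𝒟.G),
      {δ : 𝒟.G | δ⁻¹ • mkK K y = b ∧
        (hgn (ffRep hK O k) f t' : FF K O k).1 δ⁻¹ ≠ 0}.Finite := by
    intro b t'
    have h1 := (ff_iff hK y _).1 (hgn (ffRep hK O k) f t' : FF K O k).2 b
    refine (h1.image fun δ => δ⁻¹).subset ?_
    rintro δ ⟨h2, h3⟩
    exact ⟨δ⁻¹, ⟨h2, h3⟩, inv_inv δ⟩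
  refine (Set.Finite.biUnion hP (t := fun p => ⋃ t' ∈ (Fintype.piFinset
    fun _ : Fin (n + 1) => p.2 : Finset (Fin (n + 1) → 𝒟.G)),
    (fun δ : 𝒟.G => fun i => δ * t' i) '' {δ : 𝒟.G | δ⁻¹ • mkK K y = p.1 ∧
        (hgn (ffRep hK O k) f t' : FF K O k).1 δ⁻¹ ≠ 0}) (fun p _ =>
      Set.Finite.biUnion (Finset.finite_toSet _) fun t' _ => (hfin p.1 t').image _)).subset ?_
  rintro t ⟨⟨hinj, hcell⟩, hne⟩
  set t' : Fin (n + 1) → 𝒟.G := fun i => (t 0)⁻¹ * t i with ht'
  have h1 : t = fun i => t 0 * t' i := by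
    funext i
    rw [ht', mul_inv_cancel_left]
  have him : Sel.im t' = Sel.mp (MulAction.toPerm (t 0)⁻¹) (Sel.im t) := by
    rw [← Sel.im_comp]
    rfl
  refine Set.mem_biUnion (x := ((t 0)⁻¹ • mkK K y, Sel.im t')) ?_ ?_
  · refine ⟨?_, ?_⟩
    · change (T.C.X ((t 0)⁻¹ • mkK K y)).cell (Sel.im t')
      rw [him]
      exact (T.C.eqv _ _ _).2 hcell
    · refine Sel.mem_im.2 ⟨0, ?_⟩
      change (t 0)⁻¹ * t 0 = 1
      exact inv_mul_cancel _
  · refine Set.mem_biUnion (x := t') ?_ ⟨t 0, ⟨rfl, ?_⟩, h1.symm⟩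
    · rw [Finset.mem_coe, Fintype.mem_piFinset]
      intro i
      exact Sel.mem_im.2 ⟨i, rfl⟩
    · intro h2
      apply hne
      have h3 := hgn_smul (ffRep hK O k) f (t 0) t'
      rw [← h1] at h3
      rw [h3]
      have h4 : ∀ a : FF K O k, ((ffRep hK O k).ρ (t 0) a : FF K O k).1 1 = a.1 (t 0)⁻¹ := by
        intro a
        change a.1 ((t 0)⁻¹ • (1 : 𝒟.G)) = _
        rw [smul_eq_mul, mul_one]
      exact (h4 (hgn (ffRep hK O k) f t')).trans h2

/-- **TAD2.** Integration.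
PROOF. Choose a linear order on `𝒟.G` (`Classical`, e.g. `WellOrderingRel`). For a cell `R` of size
`n0 + 1` at `b = mkK K y` let `t_R` be its increasing enumeration (`Finset.orderEmbOfFin`) and
`J f = ∑ᶠ R, o b t_R • (hgn f t_R) 1` (over the cells of size `n0 + 1`), a finite sum by `hgn_fin`, linear
in `f` (`finsum_add_distrib`, `smul_finsum`). `J (d u) = 0` (write `n0 = m + 1`): `hgn_d` gives
`∑_R ∑_i (-1)^i o b t_R • (hgn u (t_R ∘ i.succAbove)) 1`; the pairs `(R, i)` correspond to the pairs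
`(R', ρ)`, `R' = R \ {ρ}`, `ρ = t_R i`, and `t_R ∘ i.succAbove = t_{R'}` (both increasing enumerations
of `R'`), and `(-1)^i o b t_R = o b (Fin.cons ρ t_{R'})` (`T.C.o_alt`: the cycle moving `i` to `0` has sign
`(-1)^i`, `Fin.sign_cycleRange`). So the sum is
`∑_{R'} (∑_ρ o b (Fin.cons ρ t_{R'})) • (hgn u t_{R'}) 1 = 0` by `T.C.o_cl` (`Sel.dc`, and `Sel.nb` is the
set of the `ρ`; `R'` is a cell by `cell_sub`, it is nonempty since `n0 ≥ 1`); finiteness of the set of the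
`R'` by `hgn_fin` for `u`. (All sums are over finite sets of cells.) Apply `exists_class`. For the
last statement: only `R = R₀` contributes, and `t_{R₀}` is an enumeration of `R₀`. -/
theorem exists_int (T : TSys K) (hK : OC K) (y : 𝒟.Pt) :
    ∃ J : groupCohomology (ffRep hK O k) T.C.n0 →ₗ[O] k,
      ∀ (f : (Fin T.C.n0 → 𝒟.G) → ffRep hK O k)
        (hf : inhomogeneousCochains.d (ffRep hK O k) T.C.n0 f = 0) (R₀ : Finset 𝒟.G) (a : k),
        (T.C.X (mkK K y)).cell R₀ → R₀.card = T.C.n0 + 1 →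
        (∀ t : Fin (T.C.n0 + 1) → 𝒟.G, Sel.im t = R₀ →
          T.C.o (mkK K y) t • (hgn (ffRep hK O k) f t : FF K O k).1 1 = a) →
        (∀ t : Fin (T.C.n0 + 1) → 𝒟.G, Sel.ctc (T.C.X (mkK K y)).cell t → Sel.im t ≠ R₀ →
          (hgn (ffRep hK O k) f t : FF K O k).1 1 = 0) →
        J (π (ffRep hK O k) T.C.n0 (cocyclesMk f hf)) = a := by
  let v : ffRep hK O k →ₗ[O] k :=
    { toFun := fun f : FF K O k => f.1 1
      map_add' := fun _ _ => rfl
      map_smul' := fun _ _ => rfl }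
  exact tad_int (ffRep hK O k) v (T.C.X (mkK K y)).cell
    (fun R R' h h' h'' => T.cell_sub _ h h' h'') (T.C.X (mkK K y)).fin T.C.n0
    (le_trans (by norm_num) T.two) (T.C.o (mkK K y)) (T.C.o_alt _) (T.C.o_cl _)
    (fun n f => hgn_fin T hK y f)

end Pool.Agent.CGQ
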