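import Pool.Agent.CGQ.TAB
import Pool.Agent.CGQ.TAD

/-!
# The top degrees: the orientation class
-/

noncomputable section

namespace Pool.Agent.CGQ

open NumberField IsDedekindDomain Pool.Agent.CG3 CategoryTheory groupCohomology
open Pool.Agent.CG2 (Pl IsCoef CellSys Asc AltF dF)

variable {F : Type} [Field F] [NumberField F] {𝒟 : Sys F}
variable {O k : Type} [CommRing O] [Field k] [Algebra O k] {K : Subgroup 𝒟.A}

private theorem tae_rhoval (hK : OC K) (h : 𝒟.G) {n : ℕ}
    (f : (Fin n → 𝒟.G) → ffRep hK O k) (w : Fin (n + 1) → 𝒟.G) :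
    hgn (ffRep hK O k) (fun g => (rhoHom hK O k h).hom (f g)) w =
      (rhoHom hK O k h).hom (hgn (ffRep hK O k) f w) := by
  unfold hgn
  exact (Rep.hom_comm_apply (rhoHom hK O k h) (w 0) _).symm

private theorem tae_d (hK : OC K) {n : ℕ} (f : (Fin n → 𝒟.G) → ffRep hK O k)
    (hf : ∀ w : Fin (n + 2) → 𝒟.G,
      ∑ i : Fin (n + 2), (-1 : O) ^ (i : ℕ) • hgn (ffRep hK O k) f (w ∘ i.succAbove) = 0) :
    inhomogeneousCochains.d (ffRep hK O k) n f = 0 := by
  funext g
  have h1 := hgn_d (ffRep hK O k) f (Fin.partialProd g)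
  rw [hf] at h1
  unfold hgn at h1
  have h2 : (fun i => (Fin.partialProd g i.castSucc)⁻¹ * Fin.partialProd g i.succ) = g := by
    funext i
    rw [Fin.partialProd_succ, inv_mul_cancel_left]
  rw [h2, Fin.partialProd_zero, map_one] at h1
  exact h1

private theorem tae_cast (a : ℤ) (x : k) : a • x = (a : k) * x := zsmul_eq_mul x a

/-- **TAE1.** The orientation class.
PROOF. `h w ∈ FF` is the function `δ ↦ (om (δ⁻¹ w) : k)` (`T.om_fin`); it is equivariant, so
`h = hgn f` (`exists_hgn`), and `d f = 0`: `hgn (d f) = 0` by `hgn_d` and `T.om_cyc` (and `hgn` of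
length `n0 + 1` determines the cochain: take `w = (1, g 0, g 0 g 1, …)`). `ω` is the class of `f`. For `y`
let `J` be as in `exists_int`. `J ω = sg b`, `b = mkK K y`, by `T.fan b` (value at `1`:
`om t`). `mapCoh (rhoHom h) ω` is the class of `g ↦ rho_h (f g)` (`mapCoh_class`), whose `hgn` is
`w ↦ (δ ↦ om ((δ h)⁻¹ w))`, with value `om (h⁻¹ t)` at `1`; by `T.fan (h⁻¹ • b)` there is one cell `R'`
at `h⁻¹ • b`, and `R₀ = h R'` is a cell at `b` (`T.C.eqv`), with
`o b t * om (h⁻¹ t) = o (h⁻¹ b) (h⁻¹ t) * om (h⁻¹ t) = sg (h⁻¹ • b) = ε h * sg b` for the enumerations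
`t` of `R₀` (`T.C.o_eqv`, `T.sg_smul`, `ε h⁻¹ = ε h` in `ℤˣ`), and `om (h⁻¹ t) = 0` for the other cells. -/
theorem exists_omega (T : TSys K) (hK : OC K) :
    ∃ ω : groupCohomology (ffRep hK O k) T.C.n0, ∀ y : 𝒟.Pt,
      ∃ J : groupCohomology (ffRep hK O k) T.C.n0 →ₗ[O] k,
        J ω = ((((T.sg (mkK K y)) : ℤˣ) : ℤ) : k) ∧
        ∀ h : 𝒟.G, J (mapCoh (rhoHom hK O k h) T.C.n0 ω) =
          (((T.ε h * T.sg (mkK K y) : ℤˣ) : ℤ) : k) := by
  classical
  obtain ⟨H, hH⟩ : ∃ H : (Fin (T.C.n0 + 1) → 𝒟.G) → FF K O k, ∀ w δ,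
      (H w).1 δ = ((T.om fun i => δ⁻¹ * w i : ℤ) : k) := by
    refine ⟨fun w => ⟨fun δ => ((T.om fun i => δ⁻¹ * w i : ℤ) : k), ?_⟩, fun w δ => rfl⟩
    intro x y
    refine (T.om_fin w x y).subset ?_
    rintro δ ⟨h1, h2⟩
    refine ⟨h1, fun h3 => h2 ?_⟩
    change ((T.om fun i => δ⁻¹ * w i : ℤ) : k) = 0
    rw [h3, Int.cast_zero]
  obtain ⟨f, hf⟩ := exists_hgn (ffRep hK O k) (fun w => (H w : FF K O k)) (by
    intro g w
    apply Subtype.ext
    funext δ
    have h1 : ∀ a : FF K O k, ((ffRep hK O k).ρ g a : FF K O k).1 δ = a.1 (g⁻¹ * δ) := by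
      intro a
      rfl
    refine Eq.trans ?_ (h1 (H w)).symm
    rw [hH, hH]
    congr 2
    funext i
    group)
  have hval : ∀ w δ, (hgn (ffRep hK O k) f w : FF K O k).1 δ =
      ((T.om fun i => δ⁻¹ * w i : ℤ) : k) := by
    intro w δ
    rw [hf]
    exact hH w δ
  have hd : inhomogeneousCochains.d (ffRep hK O k) T.C.n0 f = 0 := by
    apply tae_d
    intro w
    apply Subtype.ext
    funext δ
    have h1 : ∀ (s : Finset (Fin (T.C.n0 + 2))),
        (((∑ i ∈ s, (-1 : O) ^ (i : ℕ) • hgn (ffRep hK O k) f (w ∘ i.succAbove) :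
          ffRep hK O k)) : FF K O k).1 δ =
        ∑ i ∈ s, (-1 : O) ^ (i : ℕ) •
          ((hgn (ffRep hK O k) f (w ∘ i.succAbove) : FF K O k)).1 δ := by
      intro s
      induction s using Finset.induction_on with
      | empty => rfl
      | insert i s hi ih =>
        rw [Finset.sum_insert hi, Finset.sum_insert hi, ← ih]
        rfl
    refine (h1 _).trans ?_
    have h2 := T.om_cyc (fun i => δ⁻¹ * w i)
    have h3 := congrArg (fun z : ℤ => (z : k)) h2
    simp only [Int.cast_sum, Int.cast_mul, Int.cast_pow, Int.cast_neg, Int.cast_one,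
      Int.cast_zero] at h3
    refine Eq.trans (Finset.sum_congr rfl fun i _ => ?_) h3
    rw [hval, Algebra.smul_def, map_pow, map_neg, map_one]
    rfl
  refine ⟨π (ffRep hK O k) T.C.n0 (cocyclesMk f hd), fun y => ?_⟩
  obtain ⟨J, hJ⟩ := exists_int (O := O) (k := k) T hK y
  refine ⟨J, ?_, fun h => ?_⟩
  · obtain ⟨R, hR, hc, hR1, hR2⟩ := T.fan (mkK K y)
    refine hJ f hd R _ hR hc ?_ ?_
    · intro t ht
      rw [hval, tae_cast, ← Int.cast_mul, ← hR1 t ht]
      simp only [inv_one, one_mul]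
    · intro t ht ht'
      rw [hval]
      simp only [inv_one, one_mul]
      rw [hR2 t ht ht', Int.cast_zero]
  · have hd' : inhomogeneousCochains.d (ffRep hK O k) T.C.n0
        (fun g => (rhoHom hK O k h).hom (f g)) = 0 := by
      apply tae_d
      intro w
      have h1 := hgn_d (ffRep hK O k) f w
      have h2 := congrArg (rhoHom hK O k h).hom h1
      rw [hd, map_sum] at h2
      simp only [map_smul] at h2
      simp only [tae_rhoval]
      refine h2.symm.trans ?_
      have h3 : hgn (ffRep hK O k) (n := T.C.n0 + 1) 0 w = 0 := map_zero _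
      rw [h3, map_zero]
    rw [mapCoh_class (rhoHom hK O k h) f hd hd']
    have hval' : ∀ t : Fin (T.C.n0 + 1) → 𝒟.G,
        (hgn (ffRep hK O k) (fun g => (rhoHom hK O k h).hom (f g)) t : FF K O k).1 1 =
        ((T.om fun i => h⁻¹ * t i : ℤ) : k) := by
      intro t
      rw [tae_rhoval]
      refine Eq.trans ?_ (hval t h)
      change (hgn (ffRep hK O k) f t : FF K O k).1 (1 * h) = _
      rw [one_mul]
    obtain ⟨R, hR, hc, hR1, hR2⟩ := T.fan (h⁻¹ • mkK K y)
    have himt : ∀ t : Fin (T.C.n0 + 1) → 𝒟.G, Sel.im t = Sel.mp (MulAction.toPerm h) R ↔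
        Sel.im (fun i => h⁻¹ * t i) = R := by
      intro t
      have h1 : Sel.im (fun i => h⁻¹ * t i) = Sel.mp (MulAction.toPerm h).symm (Sel.im t) := by
        rw [← Sel.im_comp]
        rfl
      rw [h1]
      constructor
      · intro h2
        rw [h2]
        exact Sel.mp_symm_mp _ _
      · intro h2
        rw [← h2]
        exact (Sel.mp_mp_symm _ _).symm
    have hcell : ∀ R' : Finset 𝒟.G, (T.C.X (mkK K y)).cell (Sel.mp (MulAction.toPerm h) R') ↔
        (T.C.X (h⁻¹ • mkK K y)).cell R' := by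
      intro R'
      have h1 := T.C.eqv h (h⁻¹ • mkK K y) R'
      rwa [smul_inv_smul] at h1
    refine hJ _ hd' (Sel.mp (MulAction.toPerm h) R) _ ((hcell R).2 hR) ?_ ?_ ?_
    · rw [Sel.card_mp, hc]
    · intro t ht
      have h1 := hR1 _ ((himt t).1 ht)
      have h2 := T.C.o_eqv h⁻¹ (mkK K y) t
      have h3 : T.C.o (h⁻¹ • mkK K y) (fun i => h⁻¹ * t i) = T.C.o (mkK K y) t := h2
      rw [h3] at h1
      rw [hval', tae_cast, ← Int.cast_mul, h1, T.sg_smul, map_inv, Int.units_inv_eq_self]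
    · intro t ht ht'
      rw [hval', hR2, Int.cast_zero]
      · refine ⟨fun a b hab => ht.1 (mul_left_cancel hab), ?_⟩
        rw [← hcell]
        have h1 : Sel.mp (MulAction.toPerm h) (Sel.im fun i => h⁻¹ * t i) = Sel.im t := by
          rw [← Sel.im_comp]
          congr 1
          funext i
          exact mul_inv_cancel_left h (t i)
        rw [h1]
        exact ht.2
      · exact fun h1 => ht' ((himt t).2 h1)

/-- The class `ω` generates the top cohomology of `FF` and right translations act on it through the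
sign character. -/
structure IsGen (T : TSys K) (hK : OC K) (ω : groupCohomology (ffRep hK O k) T.C.n0) :
    Prop where
  gen : ∀ z, ∃ a : O, z = a • ω
  rho : ∀ h, mapCoh (rhoHom hK O k h) T.C.n0 ω = (((T.ε h : ℤˣ) : ℤ)) • ω

/-- **TAE2.**
PROOF. Take any `y` (`𝒟.Pt` is nonempty) and a facet `w` at `mkK K y` (a singleton in the base cell,
`TSys.cell_sub`). By `ff_top` every class is `top (chain (e1 w a))`, additive and `O`-linear in `a`
(`chain (e1 w (c • a)) = c • chain (e1 w a)`). `ω = top (chain (e1 w a₀))` with `a₀ ≠ 0` since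
`J ω = ± 1 ≠ 0`. `gen`: choose `c : O` with `algebraMap c = a / a₀`. `rho`: the class is `c • ω` by `gen`,
apply `J`: `algebraMap c * sg = ε h * sg`, so `algebraMap c = ε h`, and then
`c • ω = top (chain (e1 w (c • a₀))) = top (chain (e1 w (ε h • a₀))) = ε h • ω`. -/
theorem exists_gen (T : TSys K) (hK : OC K) (hs : Function.Surjective (algebraMap O k)) :
    ∃ ω : groupCohomology (ffRep hK O k) T.C.n0, IsGen T hK ω := by
  classical
  obtain ⟨ω, hω⟩ := exists_omega (O := O) (k := k) T hK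
  obtain ⟨J, hJ1, hJ2⟩ := hω (1, 1)
  obtain ⟨w, hw⟩ : ∃ w : 𝒟.G, (T.C.X (mkK K ((1, 1) : 𝒟.Pt))).cell {w} := by
    have h1 := T.C.base_card (mkK K ((1, 1) : 𝒟.Pt))
    obtain ⟨w, hw⟩ := Finset.card_pos.1 (lt_of_lt_of_eq (Nat.succ_pos T.C.n0) h1.symm)
    exact ⟨w, T.cell_sub _ (T.C.base_cell _) (Finset.singleton_subset_iff.2 hw)
      (Finset.singleton_nonempty w)⟩
  obtain ⟨E, hE⟩ : ∃ E : k →ₗ[O] groupCohomology (ffRep hK O k) T.C.n0,
      Function.Surjective E := by
    refine ⟨topE T hK O k (1, 1) ∘ₗ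
      { toFun := fun a => ⟨chain (e1 w a), chain_mem T (1, 1) (e1_altF T _ w hw a)⟩
        map_add' := ?_
        map_smul' := ?_ }, fun z => ff_top T hK (1, 1) w hw z⟩
    · intro a b
      apply Subtype.ext
      funext p
      change e1 w (a + b) (fun i => p.1⁻¹ * p.2 i) = e1 w a (fun i => p.1⁻¹ * p.2 i) +
        e1 w b (fun i => p.1⁻¹ * p.2 i)
      unfold e1
      split_ifs
      · rfl
      · rw [add_zero]
    · intro c a
      apply Subtype.ext
      funext p
      change e1 w (c • a) (fun i => p.1⁻¹ * p.2 i) = c • e1 w a (fun i => p.1⁻¹ * p.2 i)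
      unfold e1
      split_ifs
      · rfl
      · rw [smul_zero]
  obtain ⟨a₀, ha₀⟩ := hE ω
  have hsg : ∀ u : ℤˣ, (((u : ℤˣ) : ℤ) : k) * (((u : ℤˣ) : ℤ) : k) = 1 := by
    intro u
    rw [← Int.cast_mul, ← Units.val_mul, Int.units_mul_self, Units.val_one, Int.cast_one]
  have hne : a₀ ≠ 0 := by
    intro h
    rw [h, map_zero] at ha₀
    rw [← ha₀, map_zero] at hJ1
    have h1 := hsg (T.sg (mkK K (1, 1)))
    rw [← hJ1, zero_mul] at h1
    exact zero_ne_one h1
  have hgen : ∀ z, ∃ a : O, z = a • ω := by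
    intro z
    obtain ⟨a, rfl⟩ := hE z
    obtain ⟨c, hc⟩ := hs (a / a₀)
    refine ⟨c, ?_⟩
    rw [← ha₀, ← map_smul, Algebra.smul_def, hc, div_mul_cancel₀ _ hne]
  refine ⟨ω, hgen, fun h => ?_⟩
  obtain ⟨c, hc⟩ := hgen (mapCoh (rhoHom hK O k h) T.C.n0 ω)
  have h1 := hJ2 h
  rw [hc, map_smul, hJ1, Algebra.smul_def, Units.val_mul, Int.cast_mul] at h1
  have h2 : algebraMap O k c = (((T.ε h : ℤˣ) : ℤ) : k) := by
    have h3 := congrArg (fun x => x * (((T.sg (mkK K (1, 1)) : ℤˣ) : ℤ) : k)) h1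
    simp only [mul_assoc, hsg, mul_one] at h3
    exact h3
  rw [hc, ← ha₀, ← map_smul, ← map_zsmul, Algebra.smul_def, h2, zsmul_eq_mul]

/-- **TAE3.** The sign of an element of a stabiliser. PROOF. `T.sg_smul`. -/
theorem eps_stab (T : TSys K) {y : 𝒟.Pt} {γ : 𝒟.G} (hγ : γ ∈ Stab K y) : T.ε γ = 1 := by
  have h1 : γ • mkK K y = mkK K y := hγ
  have h2 := T.sg_smul γ (mkK K y)
  rw [h1] at h2
  exact mul_eq_right.1 h2.symm

end Pool.Agent.CGQ
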