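import Pool.Agent.CGQ.TAE

/-!
# One below the top degree: the kernel and the image of the summation over the fibres
-/

noncomputable section

namespace Pool.Agent.CGQ

open NumberField IsDedekindDomain Pool.Agent.CG3 CategoryTheory
open Pool.Agent.CG2 (Pl IsCoef CellSys Asc AltF dF LocEq locHom res)

variable {F : Type} [Field F] [NumberField F] {𝒟 : Sys F}
variable {O k : Type} [CommRing O] [AddCommGroup k] [Module O k] {K : Subgroup 𝒟.A}

/-- The kernel of the summation over the fibres, as a module of functions. -/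
def NN (K : Subgroup 𝒟.A) (O k : Type) [CommRing O] [AddCommGroup k] [Module O k] (y : 𝒟.Pt) :
    Submodule O (𝒟.G → k) := (LinearMap.ker (piLin K O k y)).map (FF K O k).subtype

theorem mem_NN {y : 𝒟.Pt} {f : 𝒟.G → k} :
    f ∈ NN K O k y ↔ ∃ h : f ∈ FF K O k, piLin K O k y ⟨f, h⟩ = 0 := by
  constructor
  · rintro ⟨g, hg, rfl⟩
    exact ⟨g.2, hg⟩
  · rintro ⟨h, h0⟩
    exact ⟨⟨f, h⟩, h0, rfl⟩

/-- **TBA1.** PROOF. `ff_coef hK y` and `piLin_loc y`: `(piLin f) x` only depends on the restriction of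
`f` to the fibre over `mkK K x` (`FFmod_pi_apply`), and `piLin (res b f) x` is `piLin f x` or `0`;
`piLin` is equivariant. -/
theorem nn_coef (hK : OC K) (y : 𝒟.Pt) : IsCoef (Γ := 𝒟.G) (prF K y) (NN K O k y) := by
  have hF := ff_coef (O := O) (k := k) hK y
  have hL := piLin_loc (O := O) (k := k) (K := K) y
  refine ⟨fun γ δ => FFmod_prF_mul y γ δ, ?_, ?_⟩
  · intro γ f hf
    obtain ⟨h, h0⟩ := mem_NN.1 hf
    refine mem_NN.2 ⟨hF.stab γ f h, ?_⟩
    apply Subtype.ext
    funext x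
    have h1 := hL.eqv γ ⟨f, h⟩ ⟨_, hF.stab γ f h⟩ (fun _ => rfl) x
    rw [h0] at h1
    exact h1
  · intro f
    constructor
    · intro hf b
      obtain ⟨h, h0⟩ := mem_NN.1 hf
      have hb := (hF.loc f).1 h b
      refine mem_NN.2 ⟨hb, ?_⟩
      apply Subtype.ext
      funext x
      by_cases hx : mkK K x = b
      · have h1 := CG2.CellTop_congr hL ⟨res (prF K y) b f, hb⟩ ⟨f, h⟩ b (fun δ hδ => by
          change res (prF K y) b f δ = f δ
          rw [res, if_pos hδ]) x hx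
        rw [h0] at h1
        exact h1
      · refine hL.loc (mkK K x) ⟨res (prF K y) b f, hb⟩ (fun δ hδ => ?_) x rfl
        change res (prF K y) b f δ = 0
        rw [res, if_neg]
        intro h2
        exact hx (hδ.symm.trans h2)
    · intro hf
      have h : f ∈ FF K O k := (hF.loc f).2 fun b => (mem_NN.1 (hf b)).choose
      refine mem_NN.2 ⟨h, ?_⟩
      apply Subtype.ext
      funext x
      obtain ⟨hb, h0⟩ := mem_NN.1 (hf (mkK K x))
      have h1 := CG2.CellTop_congr hL ⟨f, h⟩ ⟨res (prF K y) (mkK K x) f, hb⟩ (mkK K x) (fun δ hδ => by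
        change f δ = res (prF K y) (mkK K x) f δ
        rw [res, if_pos hδ]) x rfl
      rw [h0] at h1
      exact h1

/-- The representation on the kernel. -/
def nnRep (hK : OC K) (O k : Type) [CommRing O] [AddCommGroup k] [Module O k] (y : 𝒟.Pt) :
    Rep.{0} O 𝒟.G := (nn_coef (O := O) (k := k) hK y).rep

/-- The inclusion. -/
def nnLin (K : Subgroup 𝒟.A) (O k : Type) [CommRing O] [AddCommGroup k] [Module O k] (y : 𝒟.Pt) :
    NN K O k y →ₗ[O] FF K O k where
  toFun f := ⟨f.1, (mem_NN.1 f.2).choose⟩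
  map_add' _ _ := rfl
  map_smul' _ _ := rfl

/-- **TBA2.** -/
theorem nnLin_loc (y : 𝒟.Pt) :
    LocEq (Γ := 𝒟.G) (prF K y) (NN K O k y) (prF K y) (FF K O k) (nnLin K O k y) := by
  exact ⟨fun _ _ hf δ hδ => hf δ hδ, fun _ _ _ hg δ => hg δ⟩

/-- The inclusion as a map of representations. -/
def nnInc (hK : OC K) (O k : Type) [CommRing O] [AddCommGroup k] [Module O k] (y : 𝒟.Pt) :
    nnRep hK O k y ⟶ ffRep hK O k :=
  locHom (nn_coef hK y) (ff_coef hK y) (nnLin K O k y) (nnLin_loc y)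

/-- **TBA3.** PROOF. `rho_pi_stab`, or `piLin_rho`, `mem_Stab'`, `piLin_rt`. -/
theorem rhoN_mem {y : 𝒟.Pt} {γ : 𝒟.G} (hγ : γ ∈ Stab K y) (f : FF K O k) :
    (rhoLin K O k γ f - f).1 ∈ NN K O k y := by
  refine mem_NN.2 ⟨(rhoLin K O k γ f - f).2, ?_⟩
  obtain ⟨κ, hκ, h⟩ := mem_Stab'.1 hγ
  have h1 := piLin_rho (O := O) (k := k) γ y f
  rw [h, piLin_rt y hκ] at h1
  change piLin K O k y (rhoLin K O k γ f - f) = 0
  rw [map_sub, h1, sub_self]

/-- The map `f ↦ ρ(γ) f - f`. -/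
def rhoNLin (O k : Type) [CommRing O] [AddCommGroup k] [Module O k] {y : 𝒟.Pt} {γ : 𝒟.G}
    (hγ : γ ∈ Stab K y) : FF K O k →ₗ[O] NN K O k y where
  toFun f := ⟨(rhoLin K O k γ f - f).1, rhoN_mem hγ f⟩
  map_add' f g := by
    apply Subtype.ext
    funext δ
    change (f.1 (δ * γ) + g.1 (δ * γ)) - (f.1 δ + g.1 δ) =
      (f.1 (δ * γ) - f.1 δ) + (g.1 (δ * γ) - g.1 δ)
    abel
  map_smul' c f := by
    apply Subtype.ext
    funext δ
    change c • f.1 (δ * γ) - c • f.1 δ = c • (f.1 (δ * γ) - f.1 δ)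
    rw [smul_sub]

/-- **TBA4.** PROOF. `rhoLin_loc γ y` and `prF K (act γ y) = prF K y` for `γ` in the stabiliser
(`mem_Stab'`, `FFmod_prF_rt`). -/
theorem rhoN_loc {y : 𝒟.Pt} {γ : 𝒟.G} (hγ : γ ∈ Stab K y) :
    LocEq (Γ := 𝒟.G) (prF K y) (FF K O k) (prF K y) (NN K O k y) (rhoNLin O k hγ) := by
  obtain ⟨κ, hκ, h⟩ := mem_Stab'.1 hγ
  constructor
  · intro b f hf δ hδ
    change f.1 (δ * γ) - f.1 δ = 0
    rw [hf δ hδ, hf (δ * γ), sub_zero]
    rw [← FFmod_prF_act, h, FFmod_prF_rt y δ hκ]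
    exact hδ
  · intro g f f' hf δ
    change f'.1 (δ * γ) - f'.1 δ = f.1 ((g⁻¹ * δ) * γ) - f.1 (g⁻¹ * δ)
    rw [hf, hf]
    change f.1 (g⁻¹ * (δ * γ)) - f.1 (g⁻¹ * δ) = _
    rw [mul_assoc]

/-- The map `f ↦ ρ(γ) f - f` as a map of representations. -/
def rhoN (hK : OC K) (O k : Type) [CommRing O] [AddCommGroup k] [Module O k] {y : 𝒟.Pt} {γ : 𝒟.G}
    (hγ : γ ∈ Stab K y) : ffRep hK O k ⟶ nnRep hK O k y :=
  locHom (ff_coef hK y) (nn_coef hK y) (rhoNLin O k hγ) (rhoN_loc hγ)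

/-- **TBA5.** -/
theorem rhoN_inc (hK : OC K) {y : 𝒟.Pt} {γ : 𝒟.G} (hγ : γ ∈ Stab K y) (i : ℕ)
    (z : groupCohomology (ffRep hK O k) i) :
    mapCoh (nnInc hK O k y) i (mapCoh (rhoN hK O k hγ) i z) =
      mapCoh (rhoHom hK O k γ) i z - z := by
  rw [← mapCoh_comp]
  have h1 := mapCoh_add (rhoN hK O k hγ ≫ nnInc hK O k y) (𝟙 (ffRep hK O k)) (rhoHom hK O k γ)
    (fun a => by
      apply Subtype.ext
      funext δ
      change (a : FF K O k).1 (δ * γ) = ((a : FF K O k).1 (δ * γ) - (a : FF K O k).1 δ) +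
        (a : FF K O k).1 δ
      rw [sub_add_cancel]) i z
  rw [h1, mapCoh_id, add_sub_cancel_right]

/-- **TBA6.** PROOF. As maps of representations `rhoN (γ γ') = rhoHom γ' ≫ rhoN γ + rhoN γ'`
(`(ρ(γ) - 1) ρ(γ') + (ρ(γ') - 1) = ρ(γ γ') - 1`), `mapCoh_add`, `mapCoh_comp`. -/
theorem rhoN_mul (hK : OC K) {y : 𝒟.Pt} {γ γ' : 𝒟.G} (hγ : γ ∈ Stab K y) (hγ' : γ' ∈ Stab K y)
    (i : ℕ) (z : groupCohomology (ffRep hK O k) i) :
    mapCoh (rhoN hK O k ((Stab K y).mul_mem hγ hγ')) i z =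
      mapCoh (rhoN hK O k hγ) i (mapCoh (rhoHom hK O k γ') i z) +
        mapCoh (rhoN hK O k hγ') i z := by
  rw [← mapCoh_comp]
  exact mapCoh_add (rhoHom hK O k γ' ≫ rhoN hK O k hγ) (rhoN hK O k hγ')
    (rhoN hK O k ((Stab K y).mul_mem hγ hγ')) (fun a => by
      apply Subtype.ext
      funext δ
      change (a : FF K O k).1 (δ * (γ * γ')) - (a : FF K O k).1 δ =
        ((a : FF K O k).1 (δ * γ * γ') - (a : FF K O k).1 (δ * γ')) +
        ((a : FF K O k).1 (δ * γ') - (a : FF K O k).1 δ)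
      rw [mul_assoc]
      abel) i z

/-- The image of the summation over the fibres. -/
def imSub (K : Subgroup 𝒟.A) (O k : Type) [CommRing O] [AddCommGroup k] [Module O k]
    (y : 𝒟.Pt) : Submodule O (Forms K (triv K O k)) := LinearMap.range (piLin K O k y)

/-- **TBA7.** PROOF. `piLin` is equivariant (`(piHom hK O k y).hom.isIntertwining'` or `piLin_loc`). -/
theorem im_stab (hK : OC K) (y : 𝒟.Pt) (γ : 𝒟.G) (f : Forms K (triv K O k))
    (hf : f ∈ imSub K O k y) : formsRep K (triv K O k) γ f ∈ imSub K O k y := by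
  obtain ⟨g, rfl⟩ := hf
  refine ⟨(ffRep hK O k).ρ γ g, ?_⟩
  exact LinearMap.congr_fun ((piHom hK O k y).hom.isIntertwining' γ) g

/-- The action on the image. -/
def imAct (hK : OC K) (O k : Type) [CommRing O] [AddCommGroup k] [Module O k] (y : 𝒟.Pt) :
    Representation O 𝒟.G (imSub K O k y) where
  toFun γ := (formsRep K (triv K O k) γ).restrict (im_stab hK y γ)
  map_one' := by
    apply LinearMap.ext
    intro f
    apply Subtype.ext
    change formsRep K (triv K O k) 1 f.1 = f.1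
    rw [map_one]
    rfl
  map_mul' a b := by
    apply LinearMap.ext
    intro f
    apply Subtype.ext
    change formsRep K (triv K O k) (a * b) f.1 =
      formsRep K (triv K O k) a (formsRep K (triv K O k) b f.1)
    rw [map_mul]
    rfl

/-- The representation on the image. -/
def imRep (hK : OC K) (O k : Type) [CommRing O] [AddCommGroup k] [Module O k] (y : 𝒟.Pt) :
    Rep.{0} O 𝒟.G := Rep.of (X := imSub K O k y) (imAct hK O k y)

/-- The inclusion of the image. -/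
def imInc (hK : OC K) (O k : Type) [CommRing O] [AddCommGroup k] [Module O k] (y : 𝒟.Pt) :
    imRep hK O k y ⟶ coeff K (triv K O k) :=
  Rep.ofHom
    { toLinearMap := (imSub K O k y).subtype
      isIntertwining' := fun _ => rfl }

/-- The projection onto the image. -/
def imPi (hK : OC K) (O k : Type) [CommRing O] [AddCommGroup k] [Module O k] (y : 𝒟.Pt) :
    ffRep hK O k ⟶ imRep hK O k y :=
  Rep.ofHom
    { toLinearMap := (piLin K O k y).rangeRestrict
      isIntertwining' := fun γ => by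
        apply LinearMap.ext
        intro f
        apply Subtype.ext
        exact LinearMap.congr_fun ((piHom hK O k y).hom.isIntertwining' γ) f }

theorem imPi_inc (hK : OC K) (y : 𝒟.Pt) :
    imPi hK O k y ≫ imInc hK O k y = piHom hK O k y := by
  apply rep_hom_ext
  intro f
  rfl

/-- **TBA8.** -/
theorem nn_im_zero (hK : OC K) (y : 𝒟.Pt) : nnInc hK O k y ≫ imPi hK O k y = 0 := by
  apply CG2.CellTop_hom_zero
  intro f
  apply Subtype.ext
  exact (mem_NN.1 (f : NN K O k y).2).choose_spec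

/-- **TBA9.** PROOF. `CG2.CellTop_ses`. -/
theorem nn_se (hK : OC K) (y : 𝒟.Pt) :
    (ShortComplex.mk (nnInc hK O k y) (imPi hK O k y) (nn_im_zero hK y)).ShortExact := by
  apply CG2.CellTop_ses
  · intro f g h
    apply Subtype.ext
    exact congrArg (fun a : FF K O k => a.1) h
  · rintro ⟨f, g, rfl⟩
    exact ⟨g, rfl⟩
  · intro f hf
    have h0 : piLin K O k y (f : FF K O k) = 0 := congrArg (fun a : imSub K O k y => a.1) hf
    refine ⟨(⟨(f : FF K O k).1, mem_NN.2 ⟨(f : FF K O k).2, h0⟩⟩ : NN K O k y), ?_⟩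
    apply Subtype.ext
    rfl

end Pool.Agent.CGQ
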