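import Pool.Agent.CGQ.TBA

/-!
# The top cohomology of the kernel of the summation over the fibres
-/

noncomputable section

namespace Pool.Agent.CGQ

open NumberField IsDedekindDomain Pool.Agent.CG3 CategoryTheory
open Pool.Agent.CG2 (Pl IsCoef CellSys Asc AltF dF LocEq locHom res)

variable {F : Type} [Field F] [NumberField F] {𝒟 : Sys F} {K : Subgroup 𝒟.A}

/-- Functions with vanishing sums over the orbits. -/
private theorem tbb_orb' {G : Type} [Group G] (Γ : Subgroup G) {k : Type} [AddCommGroup k] :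
    ∀ (N : ℕ) (f : G → k) (hf : (Function.support f).Finite), hf.toFinset.card ≤ N →
      (∀ w, ∑ᶠ δ : G, (open Classical in if δ ∈ Γ then f (δ * w) else 0) = 0) →
      ∃ (n : ℕ) (γ w : Fin n → G) (a : Fin n → k), (∀ i, γ i ∈ Γ ∧ f (w i) ≠ 0) ∧
        ∀ g, f g = ∑ i, ((open Classical in if g = γ i * w i then a i else 0) -
          (open Classical in if g = w i then a i else 0)) := by
  classical
  have hzero : ∀ (f : G → k) (hf : (Function.support f).Finite), hf.toFinset = ∅ →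
      ∃ (n : ℕ) (γ w : Fin n → G) (a : Fin n → k), (∀ i, γ i ∈ Γ ∧ f (w i) ≠ 0) ∧
        ∀ g, f g = ∑ i, ((if g = γ i * w i then a i else 0) - (if g = w i then a i else 0)) := by
    intro f hf h0
    refine ⟨0, Fin.elim0, Fin.elim0, Fin.elim0, fun i => i.elim0, fun g => ?_⟩
    rw [Finset.univ_eq_empty, Finset.sum_empty]
    by_contra h
    have h1 : g ∈ hf.toFinset := by
      rw [Set.Finite.mem_toFinset]
      exact h
    rw [h0] at h1
    exact absurd h1 (Finset.notMem_empty _)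
  intro N
  induction N with
  | zero =>
    intro f hf hN _
    exact hzero f hf (Finset.card_eq_zero.1 (Nat.le_zero.1 hN))
  | succ N ih =>
    intro f hf hN h0
    rcases hf.toFinset.eq_empty_or_nonempty with he | ⟨w, hw⟩
    · exact hzero f hf he
    have hw' : f w ≠ 0 := by
      rw [Set.Finite.mem_toFinset] at hw
      exact hw
    obtain ⟨δ, hδ, hδ1, hδw⟩ : ∃ δ ∈ Γ, δ ≠ 1 ∧ f (δ * w) ≠ 0 := by
      by_contra hcon
      push Not at hcon
      have h1 := h0 w
      rw [finsum_eq_single _ (1 : G) (fun δ hδ => by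
        by_cases h : δ ∈ Γ
        · rw [if_pos h]
          exact hcon δ h hδ
        · rw [if_neg h]), if_pos Γ.one_mem, one_mul] at h1
      exact hw' h1
    have hne : δ * w ≠ w := fun h => hδ1 (mul_eq_right.1 h)
    obtain ⟨a, ha⟩ : ∃ a, a = f w := ⟨_, rfl⟩
    obtain ⟨f', hf'⟩ : ∃ f' : G → k, ∀ g, f' g = f g - (if g = w then a else 0) +
        (if g = δ * w then a else 0) := ⟨_, fun _ => rfl⟩
    have hsub : ∀ g, f' g ≠ 0 → f g ≠ 0 ∧ g ≠ w := by
      intro g hg
      constructor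
      · intro h
        apply hg
        rw [hf', h, if_neg, if_neg, sub_zero, add_zero]
        · rintro rfl
          exact hδw h
        · rintro rfl
          exact hw' h
      · rintro rfl
        apply hg
        rw [hf', if_pos rfl, if_neg hne.symm, ha, sub_self, add_zero]
    have hfin : (Function.support f').Finite := hf.subset fun g hg => (hsub g hg).1
    have hcard : hfin.toFinset.card ≤ N := by
      have h1 : hfin.toFinset ⊆ hf.toFinset.erase w := by
        intro g hg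
        rw [Set.Finite.mem_toFinset] at hg
        rw [Finset.mem_erase, Set.Finite.mem_toFinset]
        exact ⟨(hsub g hg).2, (hsub g hg).1⟩
      have h2 := Finset.card_le_card h1
      rw [Finset.card_erase_of_mem hw] at h2
      omega
    have h0' : ∀ v, ∑ᶠ δ' : G, (if δ' ∈ Γ then f' (δ' * v) else 0) = 0 := by
      intro v
      have e0 : (Function.support fun δ' : G => if δ' ∈ Γ then f (δ' * v) else 0).Finite := by
        refine (hf.image fun g => g * v⁻¹).subset ?_
        intro δ' h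
        rw [Function.mem_support] at h
        refine ⟨δ' * v, ?_, by simp⟩
        intro h1
        apply h
        rw [h1, ite_self]
      have e1 : (Function.support fun δ' : G => if δ' ∈ Γ then
          (if δ' * v = w then a else 0) else 0).Finite := by
        refine (Set.finite_singleton (w * v⁻¹)).subset ?_
        intro δ' h
        rw [Function.mem_support] at h
        rw [Set.mem_singleton_iff, eq_mul_inv_iff_mul_eq]
        by_contra h1
        apply h
        rw [if_neg h1, ite_self]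
      have e2 : (Function.support fun δ' : G => if δ' ∈ Γ then
          (if δ' * v = δ * w then a else 0) else 0).Finite := by
        refine (Set.finite_singleton (δ * w * v⁻¹)).subset ?_
        intro δ' h
        rw [Function.mem_support] at h
        rw [Set.mem_singleton_iff, eq_mul_inv_iff_mul_eq]
        by_contra h1
        apply h
        rw [if_neg h1, ite_self]
      have e3 : ∑ᶠ δ' : G, (if δ' ∈ Γ then (if δ' * v = δ * w then a else 0) else 0) =
          ∑ᶠ δ' : G, (if δ' ∈ Γ then (if δ' * v = w then a else 0) else 0) := by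
        rw [← finsum_comp_equiv (Equiv.mulLeft δ)]
        refine finsum_congr fun δ' => ?_
        rw [Equiv.coe_mulLeft]
        simp only [Subgroup.mul_mem_cancel_left Γ hδ, mul_assoc, mul_right_inj]
      have e4 : ∀ δ' : G, (if δ' ∈ Γ then f' (δ' * v) else 0) =
          ((if δ' ∈ Γ then f (δ' * v) else 0) -
            (if δ' ∈ Γ then (if δ' * v = w then a else 0) else 0)) +
            (if δ' ∈ Γ then (if δ' * v = δ * w then a else 0) else 0) := by
        intro δ'
        by_cases h : δ' ∈ Γ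
        · rw [if_pos h, if_pos h, if_pos h, if_pos h, hf']
        · rw [if_neg h, if_neg h, if_neg h, if_neg h, sub_zero, add_zero]
      rw [finsum_congr e4, finsum_add_distrib ((e0.union e1).subset (Function.support_sub _ _)) e2,
        finsum_sub_distrib e0 e1, e3, h0 v, zero_sub, neg_add_cancel]
    obtain ⟨n, γ', w', a', h1, h2⟩ := ih f' hfin hcard h0'
    refine ⟨n + 1, Fin.cons δ γ', Fin.cons w w', Fin.cons (-a) a', ?_, ?_⟩
    · intro i
      refine Fin.cases ?_ (fun j => ?_) i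
      · exact ⟨hδ, hw'⟩
      · exact ⟨(h1 j).1, (hsub _ (h1 j).2).1⟩
    · intro g
      rw [Fin.sum_univ_succ]
      simp only [Fin.cons_zero, Fin.cons_succ]
      rw [← h2 g, hf']
      by_cases h3 : g = δ * w
      · rw [if_pos h3, if_pos h3]
        by_cases h4 : g = w
        · rw [if_pos h4, if_pos h4]
          abel
        · rw [if_neg h4, if_neg h4]
          abel
      · rw [if_neg h3, if_neg h3]
        by_cases h4 : g = w
        · rw [if_pos h4, if_pos h4]
          abel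
        · rw [if_neg h4, if_neg h4]
          abel

open Classical in
/-- **TBB1.** Finite chains of size one with vanishing sums over the orbits of the stabiliser.
PROOF. `ψ` is a finitely supported function `w ↦ ψ (fun _ => w)` on `𝒟.G`. Choose for every `w` an
element `r w` of the orbit `Γ w`, `Γ = Stab K y` (the same for all elements of the orbit; a section of
the quotient), with `{r w}` a cell if some element of the orbit gives a cell (the cells are
invariant under `Γ`: `T.C.eqv` with `γ • mkK K y = mkK K y`). For `w` in the support, `w = γ w * r w`,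
`γ w ∈ Γ`. `ψ = ∑_w (e1 w (ψ w) - e1 (r w) (ψ w)) + ∑_w e1 (r w) (ψ w)` and the last sum is zero: for
each orbit it is `e1 (r w)` of the sum of `ψ` over the orbit, which is `0` by `h0`. -/
theorem chain_orb {k : Type} [AddCommGroup k] (T : TSys K) (y : 𝒟.Pt)
    {ψ : (Fin 1 → 𝒟.G) → k} (hψ : AltF (T.C.X (mkK K y)).cell ψ)
    (h0 : ∀ w : 𝒟.G, ∑ᶠ δ : 𝒟.G, (if δ ∈ Stab K y then ψ (fun _ => δ * w) else 0) = 0) :
    ∃ (n : ℕ) (γ w : Fin n → 𝒟.G) (a : Fin n → k),
      (∀ i, γ i ∈ Stab K y ∧ (T.C.X (mkK K y)).cell {w i}) ∧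
      ψ = ∑ i, (e1 (γ i * w i) (a i) - e1 (w i) (a i)) := by
  obtain ⟨hA, hfin⟩ := hψ
  have hcell : ∀ w : 𝒟.G, ψ (fun _ => w) ≠ 0 → (T.C.X (mkK K y)).cell {w} := by
    intro w hw
    have h1 := (hA.1 _ hw).2
    have h2 : Sel.im (fun _ : Fin 1 => w) = {w} := by
      ext x
      rw [Sel.mem_im, Finset.mem_singleton]
      constructor
      · rintro ⟨_, h⟩
        exact h.symm
      · rintro rfl
        exact ⟨0, rfl⟩
    rwa [h2] at h1
  have hfin' : (Function.support fun w : 𝒟.G => ψ (fun _ => w)).Finite := by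
    refine (hfin.image fun t => t 0).subset ?_
    intro w hw
    exact ⟨fun _ => w, hw, rfl⟩
  obtain ⟨n, γ, w, a, h1, h2⟩ := tbb_orb' (Stab K y) _ _ hfin' le_rfl h0
  refine ⟨n, γ, w, a, fun i => ⟨(h1 i).1, hcell _ (h1 i).2⟩, ?_⟩
  funext t
  have ht : t = fun _ => t 0 := by
    funext i
    rw [Subsingleton.elim i 0]
  have h3 := h2 (t 0)
  rw [← ht] at h3
  rw [h3, Finset.sum_apply]
  refine Finset.sum_congr rfl fun i _ => ?_
  rfl

variable {O k : Type} [CommRing O] [Field k] [Algebra O k]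

/-- **TBB2.** The top cohomology of the kernel.
PROOF. `CG2.top_surj` for `nn_coef hK y` (`c0 = 1`, `n = T.C.n0`): `z = top φ`,
`φ ∈ Inv (prF K y) (NN K O k y) 1`. As `NN ≤ FF`, `φ ∈ Inv (prF K y) (FF K O k) 1`, so `φ = chain ψ`
(`chain_of`), and `φ (·, t) ∈ NN` gives `h0` of `chain_orb`: `(piLin (φ (·, t))) y = 0` and
`φ (δ, t) = ψ (δ⁻¹ t)`, sum over `δ ∈ Stab K y`. By `chain_orb` and linearity of `top` it is enough
to treat `ψ = e1 (γ w) a - e1 w a`. Its `chain` is `CG2.mapC (FF K O k) (rhoNLin O k hγ)` of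
`chain (e1 w a)` (`(δ, t) ↦ e1 w a ((δ γ)⁻¹ t) - e1 w a (δ⁻¹ t)`), so by `CG2.top_nat`
(`Φ = rhoNLin O k hγ`, `rhoN_loc`) `top` of it is `mapCoh (rhoN hγ)` of `topE … (chain (e1 w a))`, which is
a multiple of `ω` by `hω.gen`. -/
theorem nn_top (T : TSys K) (hK : OC K) (y : 𝒟.Pt)
    (ω : groupCohomology (ffRep hK O k) T.C.n0) (hω : IsGen T hK ω)
    (z : groupCohomology (nnRep hK O k y) T.C.n0) :
    z ∈ Submodule.span O {x : groupCohomology (nnRep hK O k y) T.C.n0 |
      ∃ (γ : 𝒟.G) (hγ : γ ∈ Stab K y), x = mapCoh (rhoN hK O k hγ) T.C.n0 ω} := by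
  classical
  obtain ⟨φ, rfl⟩ := CG2.top_surj T.C (nn_coef (O := O) (k := k) hK y) (c0 := 1) (n := T.C.n0)
    (Nat.add_comm 1 _) (lt_of_lt_of_le Nat.zero_lt_two T.two) Nat.one_pos T.min z
  have hle : ∀ f, f ∈ NN K O k y → f ∈ FF K O k := fun f hf => (mem_NN.1 hf).choose
  have hφF : φ.1 ∈ T.C.Inv (prF K y) (FF K O k) 1 :=
    ⟨⟨φ.2.1.1, fun t => hle _ (φ.2.1.2 t)⟩, φ.2.2⟩
  obtain ⟨hA, hch⟩ := chain_of T hK y hφF
  have h0 : ∀ w : 𝒟.G, ∑ᶠ δ : 𝒟.G, (if δ ∈ Stab K y then φ.1 (1, fun _ => δ * w) else 0) = 0 := by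
    intro w
    obtain ⟨h1, h2⟩ := mem_NN.1 (φ.2.1.2 fun _ => w)
    have h3 : (piLin K O k y ⟨_, h1⟩).1 y = 0 := by
      rw [h2]
      rfl
    rw [FFmod_pi_apply] at h3
    rw [← finsum_comp_equiv (Equiv.inv 𝒟.G)] at h3
    refine Eq.trans (finsum_congr fun δ => ?_) h3
    rw [Equiv.inv_apply]
    change _ = if prF K y δ⁻¹ = mkK K y then φ.1 (δ⁻¹, fun _ => w) else 0
    have h4 : (prF K y δ⁻¹ = mkK K y) ↔ δ ∈ Stab K y := by
      rw [← (Stab K y).inv_mem_iff]
      exact Iff.rfl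
    have h5 : φ.1 (1, fun _ => δ * w) = φ.1 (δ⁻¹, fun _ => w) := by
      have h6 := φ.2.2 δ δ⁻¹ (fun _ => w)
      rw [← h6]
      exact congrArg φ.1 (Prod.ext (mul_inv_cancel δ).symm rfl)
    by_cases h : δ ∈ Stab K y
    · rw [if_pos h, if_pos (h4.2 h), h5]
    · rw [if_neg h, if_neg (fun h' => h (h4.1 h'))]
  obtain ⟨n, γ, w, a, h1, h2⟩ := chain_orb T y hA h0
  -- the pieces
  have hin : ∀ i, chain (e1 (w i) (a i)) ∈ T.C.Inv (prF K y) (FF K O k) 1 := fun i =>
    chain_mem T y (e1_altF T _ (w i) (h1 i).2 (a i))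
  have hpc : ∀ i, CG2.mapC (FF K O k) (rhoNLin O k (h1 i).1) (chain (e1 (w i) (a i))) ∈
      T.C.Inv (prF K y) (NN K O k y) 1 := fun i =>
    CG2.mapC_inv T.C (ff_coef hK y) (nn_coef hK y) (rhoNLin O k (h1 i).1) (rhoN_loc (h1 i).1) _
      (hin i)
  have hsum : φ = ∑ i, (⟨_, hpc i⟩ : T.C.Inv (prF K y) (NN K O k y) 1) := by
    apply Subtype.ext
    rw [Submodule.coe_sum]
    funext p
    obtain ⟨δ, t⟩ := p
    rw [Finset.sum_apply]
    have h3 : φ.1 (δ, t) = ∑ i, (e1 (γ i * w i) (a i) - e1 (w i) (a i)) (fun i => δ⁻¹ * t i) := by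
      have h4 : φ.1 (δ, t) = chain (fun t => φ.1 (1, t)) (δ, t) := congrFun hch (δ, t)
      rw [h4, h2]
      change (∑ i, (e1 (γ i * w i) (a i) - e1 (w i) (a i))) (fun i => δ⁻¹ * t i) = _
      rw [Finset.sum_apply]
    rw [h3]
    refine Finset.sum_congr rfl fun i _ => ?_
    change _ = CG2.mapC (FF K O k) (rhoNLin O k (h1 i).1) (chain (e1 (w i) (a i))) (δ, t)
    rw [CG2.CellTop_mapC_eq (hin i).1.2]
    change e1 (γ i * w i) (a i) (fun i => δ⁻¹ * t i) - e1 (w i) (a i) (fun i => δ⁻¹ * t i) =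
      e1 (w i) (a i) (fun j => (δ * γ i)⁻¹ * t j) - e1 (w i) (a i) (fun i => δ⁻¹ * t i)
    congr 1
    unfold e1
    have h5 : (δ⁻¹ * t 0 = γ i * w i) ↔ ((δ * γ i)⁻¹ * t 0 = w i) := by
      rw [mul_inv_rev, mul_assoc, inv_mul_eq_iff_eq_mul, inv_mul_eq_iff_eq_mul,
        inv_mul_eq_iff_eq_mul]
    by_cases h : δ⁻¹ * t 0 = γ i * w i
    · rw [if_pos h, if_pos (h5.1 h)]
    · rw [if_neg h, if_neg (fun h' => h (h5.2 h'))]
  rw [hsum, map_sum]
  refine Submodule.sum_mem _ fun i _ => ?_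
  have h3 := CG2.top_nat T.C (ff_coef (O := O) (k := k) hK y) (nn_coef hK y) (rhoNLin O k (h1 i).1)
    (rhoN_loc (h1 i).1) (c0 := 1) (n := T.C.n0) (Nat.add_comm 1 _) ⟨_, hin i⟩
  rw [h3]
  obtain ⟨c, hc⟩ := hω.gen (topE T hK O k y ⟨_, hin i⟩)
  have h4 : mapCoh (rhoN hK O k (h1 i).1) T.C.n0 (topE T hK O k y ⟨_, hin i⟩) ∈
      Submodule.span O {x : groupCohomology (nnRep hK O k y) T.C.n0 |
      ∃ (γ : 𝒟.G) (hγ : γ ∈ Stab K y), x = mapCoh (rhoN hK O k hγ) T.C.n0 ω} := by
    rw [hc, map_smul]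
    exact Submodule.smul_mem _ _ (Submodule.subset_span ⟨γ i, (h1 i).1, rfl⟩)
  exact h4

/-- **TBB3.** PROOF. `CG2.CellSys.vanish` with `T.min`. -/
theorem nn_van (T : TSys K) (hK : OC K) (y : 𝒟.Pt) :
    Subsingleton (groupCohomology (nnRep hK O k y) (T.C.n0 + 1)) := by
  exact T.C.vanish (nn_coef (O := O) (k := k) hK y) T.min (T.C.n0 + 1) (by omega)

/-- **TBB4.** PROOF. `CG2.CellSys.vanish` with `T.min`, `forms_coef`, `forms_rep`. -/
theorem coeff_van (T : TSys K) {R : Type} [CommRing R] {W : Type} [AddCommGroup W] [Module R W]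
    (τ : Representation R K W) (i : ℕ) (hi : T.C.n0 < i) :
    Subsingleton (groupCohomology (coeff K τ) i) := by
  exact T.C.vanish (forms_coef τ) T.min i (by omega)

/-- **TBB5.** Finite generation. PROOF. As `fg_small` in CG2/KoeCell.lean, with `T.orb` (translate a
nonempty cell by the inverse of one of its elements; `T.min`: the cells are nonempty). -/
theorem coeff_fg (T : TSys K) {R : Type} [CommRing R] [IsNoetherianRing R] (i : ℕ) :
    FinH K R i := by
  classical
  intro W _ _ _ τ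
  rw [← forms_rep]
  refine CG2.CellSys.fg T.C (forms_coef τ) (fun j => ?_) i
  -- the finite set of the representatives of the tuples
  let Φ : Set (PtK K × Finset 𝒟.G) := {p | (T.C.X p.1).cell p.2 ∧ (1 : 𝒟.G) ∈ p.2}
  have hΦ : Φ.Finite := T.orb
  let TT : Set (𝒟.Pt × (Fin j → 𝒟.G)) := {p | ∃ q ∈ Φ, p.1 = outK q.1 ∧ ∀ i, p.2 i ∈ q.2}
  have hT : TT.Finite := by
    have h1 : TT ⊆ ⋃ q ∈ Φ, (fun t => (outK q.1, t)) ''
        (Set.pi Set.univ fun _ : Fin j => (q.2 : Set 𝒟.G)) := by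
      rintro ⟨y, t⟩ ⟨q, h1, h2, h3⟩
      simp only [Set.mem_iUnion]
      exact ⟨q, h1, t, fun i _ => h3 i, Prod.ext h2.symm rfl⟩
    exact (hΦ.biUnion fun q _ => (Set.Finite.pi fun _ => q.2.finite_toSet).image _).subset h1
  have hTf : Finite ↥TT := hT
  let ev : T.C.Inv (mkK K) (Forms K τ) j →ₗ[R] (↥TT → W) :=
    { toFun := fun φ p => φ.1 p.1
      map_add' := fun _ _ => rfl
      map_smul' := fun _ _ => rfl }
  have hev : Function.Injective ev := by
    rw [← LinearMap.ker_eq_bot, LinearMap.ker_eq_bot']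
    intro φ hφ
    apply Subtype.ext
    funext p
    obtain ⟨y, t⟩ := p
    change φ.1 (y, t) = 0
    by_contra hne
    have h1 := (φ.2.1.1 y).1 t hne
    obtain ⟨x, hx⟩ : (Sel.im t).Nonempty := by
      rw [← Finset.card_pos]
      exact T.min _ _ h1.2
    have h2 : (T.C.X (x⁻¹ • mkK K y)).cell (Sel.mp (MulAction.toPerm x⁻¹) (Sel.im t)) :=
      (T.C.eqv x⁻¹ _ _).2 h1.2
    have h3 : (1 : 𝒟.G) ∈ Sel.mp (MulAction.toPerm x⁻¹) (Sel.im t) := by
      rw [Sel.mem_mp]
      have h4 : (MulAction.toPerm x⁻¹ : Equiv.Perm 𝒟.G).symm 1 = x := by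
        rw [Equiv.symm_apply_eq]
        change 1 = x⁻¹ * x
        rw [inv_mul_cancel]
      rw [h4]
      exact hx
    obtain ⟨κ, hκ, h5⟩ := mkK_eq.1 (show mkK K (outK (x⁻¹ • mkK K y)) = mkK K (act x⁻¹ y) from
      mkK_outK _)
    have h6 : φ.1 (y, t) = φ.1 (act x⁻¹ y, x⁻¹ • t) := (φ.2.2 x⁻¹ y t).symm
    have h7 : φ.1 (act x⁻¹ y, x⁻¹ • t) =
        τ (⟨κ, hκ⟩ : K)⁻¹ (φ.1 (outK (x⁻¹ • mkK K y), x⁻¹ • t)) := by
      rw [h5]
      exact φ.2.1.2 (x⁻¹ • t) (outK (x⁻¹ • mkK K y)) ⟨κ, hκ⟩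
    have h9 : (outK (x⁻¹ • mkK K y), x⁻¹ • t) ∈ TT := by
      refine ⟨(x⁻¹ • mkK K y, Sel.mp (MulAction.toPerm x⁻¹) (Sel.im t)), ⟨h2, h3⟩, rfl, fun i => ?_⟩
      change x⁻¹ * t i ∈ Sel.mp (MulAction.toPerm x⁻¹) (Sel.im t)
      rw [Sel.mem_mp]
      have h4 : (MulAction.toPerm x⁻¹ : Equiv.Perm 𝒟.G).symm (x⁻¹ * t i) = t i := by
        rw [Equiv.symm_apply_eq]
        rfl
      rw [h4]
      exact Sel.mem_im.2 ⟨i, rfl⟩
    have h11 := congrFun hφ ⟨_, h9⟩
    change φ.1 (outK (x⁻¹ • mkK K y), x⁻¹ • t) = 0 at h11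
    apply hne
    rw [h6, h7, h11, map_zero]
  exact Module.Finite.of_injective ev hev

end Pool.Agent.CGQ
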