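import Pool.Agent.CGQ.TBB

/-!
# Spanning classes in the top degree; the connecting homomorphism
-/

noncomputable section

namespace Pool.Agent.CGQ

open NumberField IsDedekindDomain Pool.Agent.CG3 CategoryTheory
open Pool.Agent.CG2 (Pl IsCoef CellSys Asc AltF dF LocEq locHom res)

variable {F : Type} [Field F] [NumberField F] {𝒟 : Sys F} {K : Subgroup 𝒟.A}
variable {O k : Type} [CommRing O] [Field k] [Algebra O k]

/-! ### Private lemmas for the decomposition into the orbits -/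

private theorem tbc_sum {R H : Type} [CommRing R] [Group H] {A B : Rep.{0} R H} {ι : Type}
    (s : Finset ι) (g : ι → (A ⟶ B)) (i : ℕ) (z : groupCohomology A i) :
    ∀ f : A ⟶ B, (∀ a : A, f.hom a = ∑ c ∈ s, (g c).hom a) →
      mapCoh f i z = ∑ c ∈ s, mapCoh (g c) i z := by
  classical
  induction s using Finset.induction_on with
  | empty =>
    intro f hf
    rw [Finset.sum_empty]
    exact mapCoh_zero f (fun a => (hf a).trans Finset.sum_empty) i z
  | insert c s hc ih =>
    intro f hf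
    rw [Finset.sum_insert hc]
    have h1 := mapCoh_add (g c) (f - g c) f (fun a => by
      change f.hom a = (g c).hom a + (f.hom a - (g c).hom a)
      abel) i z
    rw [h1]
    congr 1
    apply ih
    intro a
    change f.hom a - (g c).hom a = _
    rw [hf a, Finset.sum_insert hc]
    abel

open Classical in
/-- A representative of the fibre over a point. -/
private def tbc_c (K : Subgroup 𝒟.A) (y : 𝒟.Pt) (b : PtK K) : 𝒟.G :=
  if h : ∃ γ : 𝒟.G, prF K y γ = b then h.choose else 1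

private theorem tbc_c_spec (y : 𝒟.Pt) {b : PtK K} (h : ∃ γ : 𝒟.G, prF K y γ = b) :
    prF K y (tbc_c K y b) = b := by
  unfold tbc_c
  rw [dif_pos h]
  exact h.choose_spec

/-- The orbits. -/
private abbrev tbc_Q (K : Subgroup 𝒟.A) : Type := MulAction.orbitRel.Quotient 𝒟.G (PtK K)

/-- The orbit of a point. -/
private def tbc_o (x : 𝒟.Pt) : tbc_Q K := (Quotient.mk _ (mkK K x) : tbc_Q K)

private theorem tbc_o_eq {x x' : 𝒟.Pt} :
    (tbc_o x : tbc_Q K) = tbc_o x' ↔ ∃ γ : 𝒟.G, γ • mkK K x' = mkK K x := by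
  unfold tbc_o
  rw [Quotient.eq, MulAction.orbitRel_apply, MulAction.mem_orbit_iff]

private theorem tbc_o_act (γ : 𝒟.G) (x : 𝒟.Pt) : (tbc_o (act γ x) : tbc_Q K) = tbc_o x :=
  tbc_o_eq.2 ⟨γ, rfl⟩

private theorem tbc_o_rt (x : 𝒟.Pt) {κ : 𝒟.A} (hκ : κ ∈ K) :
    (tbc_o (rt x κ) : tbc_Q K) = tbc_o x := by
  unfold tbc_o
  rw [mkK_rt x hκ]

/-- A point in the orbit. -/
private def tbc_y (q : tbc_Q K) : 𝒟.Pt := outK (Quotient.out q)

private theorem tbc_o_y (q : tbc_Q K) : tbc_o (tbc_y q) = q := by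
  unfold tbc_o tbc_y
  rw [mkK_outK]
  exact Quotient.out_eq q

open Classical in
/-- The restriction to an orbit. -/
private def tbc_res (q : tbc_Q K) :
    Forms K (triv K O k) →ₗ[O] Forms K (triv K O k) where
  toFun f := ⟨fun x => if (tbc_o x : tbc_Q K) = q then f.1 x else 0, by
    intro x κ
    change (if (tbc_o (rt x κ.1) : tbc_Q K) = q then f.1 (rt x κ.1) else 0) =
      triv K O k κ⁻¹ (if (tbc_o x : tbc_Q K) = q then f.1 x else 0)
    rw [tbc_o_rt x κ.2, f.2 x κ]
    split_ifs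
    · rfl
    · rw [map_zero]⟩
  map_add' f g := by
    apply Subtype.ext
    funext x
    change (if (tbc_o x : tbc_Q K) = q then f.1 x + g.1 x else 0) =
      (if (tbc_o x : tbc_Q K) = q then f.1 x else 0) +
        (if (tbc_o x : tbc_Q K) = q then g.1 x else 0)
    split_ifs
    · rfl
    · rw [add_zero]
  map_smul' c f := by
    apply Subtype.ext
    funext x
    change (if (tbc_o x : tbc_Q K) = q then c • f.1 x else 0) =
      c • (if (tbc_o x : tbc_Q K) = q then f.1 x else 0)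
    split_ifs
    · rfl
    · rw [smul_zero]

open Classical in
private theorem tbc_res_apply (q : tbc_Q K) (f : Forms K (triv K O k)) (x : 𝒟.Pt) :
    (tbc_res q f).1 x = if (tbc_o x : tbc_Q K) = q then f.1 x else 0 := rfl

open Classical in
/-- The preimage of the restriction to the orbit. -/
private def tbc_h (K : Subgroup 𝒟.A) (y : 𝒟.Pt) (f : Forms K (triv K O k)) (γ : 𝒟.G) : k :=
  if tbc_c K y (prF K y γ) = γ then f.1 (act γ y) else 0

private theorem tbc_h_mem (hK : OC K) (y : 𝒟.Pt) (f : Forms K (triv K O k)) :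
    tbc_h K y f ∈ FF K O k := by
  rw [ff_iff hK y]
  intro b
  refine (Set.finite_singleton (tbc_c K y b)).subset ?_
  rintro γ ⟨h1, h2⟩
  rw [Set.mem_singleton_iff]
  by_contra h3
  apply h2
  unfold tbc_h
  rw [h1, if_neg]
  exact fun h4 => h3 h4.symm

private theorem tbc_pi (hK : OC K) (q : tbc_Q K) (f : Forms K (triv K O k)) :
    piLin K O k (tbc_y q) ⟨tbc_h K (tbc_y q) f, tbc_h_mem hK (tbc_y q) f⟩ = tbc_res q f := by
  classical
  apply Subtype.ext
  funext x
  rw [FFmod_pi_apply, tbc_res_apply]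
  by_cases hx : (tbc_o x : tbc_Q K) = q
  · rw [if_pos hx]
    have h1 : ∃ γ : 𝒟.G, prF K (tbc_y q) γ = mkK K x := by
      rw [← tbc_o_y q] at hx
      obtain ⟨γ, hγ⟩ := tbc_o_eq.1 hx
      exact ⟨γ, hγ⟩
    have h2 := tbc_c_spec (tbc_y q) h1
    rw [finsum_eq_single _ (tbc_c K (tbc_y q) (mkK K x))]
    · rw [if_pos h2]
      change tbc_h K (tbc_y q) f (tbc_c K (tbc_y q) (mkK K x)) = _
      unfold tbc_h
      rw [h2, if_pos rfl]
      have h3 : mkK K x = mkK K (act (tbc_c K (tbc_y q) (mkK K x)) (tbc_y q)) := h2.symm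
      obtain ⟨κ, hκ, h4⟩ := mkK_eq.1 h3
      rw [h4]
      exact f.2 x ⟨κ, hκ⟩
    · intro γ hγ
      by_cases h3 : prF K (tbc_y q) γ = mkK K x
      · rw [if_pos h3]
        change tbc_h K (tbc_y q) f γ = 0
        unfold tbc_h
        rw [h3, if_neg]
        exact fun h4 => hγ h4.symm
      · rw [if_neg h3]
  · rw [if_neg hx]
    rw [finsum_congr (g := fun _ => 0), finsum_zero]
    intro γ
    rw [if_neg]
    intro h3
    apply hx
    rw [← tbc_o_y q]
    exact tbc_o_eq.2 ⟨γ, h3⟩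

private theorem tbc_res_mem (hK : OC K) (q : tbc_Q K) (f : Forms K (triv K O k)) :
    tbc_res q f ∈ imSub K O k (tbc_y q) :=
  ⟨_, tbc_pi hK q f⟩

/-- The restriction to the orbit as a map to the image. -/
private def tbc_u (hK : OC K) (q : tbc_Q K) :
    coeff K (triv K O k) ⟶ imRep hK O k (tbc_y q) :=
  Rep.ofHom
    { toLinearMap := (tbc_res q).codRestrict (imSub K O k (tbc_y q)) (tbc_res_mem hK q)
      isIntertwining' := fun γ => by
        classical
        apply LinearMap.ext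
        intro f
        apply Subtype.ext
        apply Subtype.ext
        funext x
        change (if (tbc_o x : tbc_Q K) = q then (f : Forms K (triv K O k)).1 (act γ⁻¹ x) else 0) =
          if (tbc_o (act γ⁻¹ x) : tbc_Q K) = q then
            (f : Forms K (triv K O k)).1 (act γ⁻¹ x) else 0
        rw [tbc_o_act] }

private theorem tbc_sum_res [Fintype (tbc_Q K)] (a : Forms K (triv K O k)) (x : 𝒟.Pt) :
    a.1 x = (∑ q : tbc_Q K, tbc_res q a : Forms K (triv K O k)).1 x := by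
  classical
  rw [AddSubmonoidClass.coe_finsetSum, Finset.sum_apply]
  rw [Finset.sum_eq_single (tbc_o x)]
  · rw [tbc_res_apply, if_pos rfl]
  · intro q _ hq
    rw [tbc_res_apply, if_neg hq.symm]
  · intro h
    exact absurd (Finset.mem_univ _) h

private theorem tbc_fin (T : TSys K) : Finite (tbc_Q K) := by
  classical
  have h1 : (Prod.fst '' {p : PtK K × Finset 𝒟.G |
      (T.C.X p.1).cell p.2 ∧ (1 : 𝒟.G) ∈ p.2}).Finite := T.orb.image _
  have h2 : Finite ↥(Prod.fst '' {p : PtK K × Finset 𝒟.G |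
      (T.C.X p.1).cell p.2 ∧ (1 : 𝒟.G) ∈ p.2}) := h1.to_subtype
  refine Finite.of_surjective (α := ↥(Prod.fst '' {p : PtK K × Finset 𝒟.G |
      (T.C.X p.1).cell p.2 ∧ (1 : 𝒟.G) ∈ p.2})) (fun p => (Quotient.mk _ p.1 : tbc_Q K)) ?_
  intro q
  obtain ⟨b, rfl⟩ := Quotient.exists_rep q
  have h3 : (T.C.X b).base.Nonempty := by
    rw [← Finset.card_pos, T.C.base_card]
    omega
  obtain ⟨x, hx⟩ := h3
  have h4 : (T.C.X (x⁻¹ • b)).cell (Sel.mp (MulAction.toPerm x⁻¹) (T.C.X b).base) :=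
    (T.C.eqv x⁻¹ b _).2 (T.C.base_cell b)
  have h5 : (1 : 𝒟.G) ∈ Sel.mp (MulAction.toPerm x⁻¹) (T.C.X b).base := by
    unfold Sel.mp
    rw [Finset.mem_map]
    refine ⟨x, hx, ?_⟩
    exact inv_mul_cancel x
  refine ⟨⟨x⁻¹ • b, ⟨(x⁻¹ • b, _), ⟨h4, h5⟩, rfl⟩⟩, ?_⟩
  apply Quotient.sound
  change (MulAction.orbitRel 𝒟.G (PtK K)) _ _
  rw [MulAction.orbitRel_apply, MulAction.mem_orbit_iff]
  exact ⟨x⁻¹, rfl⟩

/-- **TBC1.** Decomposition into the orbits.
PROOF. `𝒟.G` has finitely many orbits on `PtK K`: the base cell at `b` is nonempty (`T.min`,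
`T.C.base_cell`), with `x` in it `(x⁻¹ • b, x⁻¹ R)` is one of the finitely many pairs of `T.orb`. Let
`b_j` be representatives of the orbits, `y_j = outK b_j`. The restriction of a form to the orbit of
`b_j` (`0` elsewhere) is a map of representations `r_j : coeff → coeff` with image in
`imSub K O k y_j`: a preimage of `r_j f` under `piLin y_j` is the function which at `γ` is
`f (act γ y_j)` if `γ` is the chosen element of its coset `γ (Stab K y_j)` and `0` otherwise (in `FF`:
at most one `γ` for each value of `prF K y_j γ`, `ff_iff`). So `r_j` factors through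
`imInc hK O k y_j`, and `id = ∑_j r_j`; `mapCoh_add`, `mapCoh_comp`. -/
theorem orbit_dec (T : TSys K) (hK : OC K) (i : ℕ)
    (z : groupCohomology (coeff K (triv K O k)) i) :
    z ∈ ⨆ y : 𝒟.Pt, LinearMap.range (mapCoh (imInc hK O k y) i) := by
  classical
  have hfin := tbc_fin T
  have hft : Fintype (tbc_Q K) := Fintype.ofFinite _
  have h1 := tbc_sum (Finset.univ : Finset (tbc_Q K))
    (fun q => tbc_u (O := O) (k := k) hK q ≫ imInc hK O k (tbc_y q)) i z
    (𝟙 (coeff K (triv K O k))) (fun a => by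
      apply Subtype.ext
      funext x
      change (a : Forms K (triv K O k)).1 x =
        (∑ q : tbc_Q K, tbc_res q (a : Forms K (triv K O k)) : Forms K (triv K O k)).1 x
      exact tbc_sum_res (a : Forms K (triv K O k)) x)
  rw [mapCoh_id] at h1
  rw [h1]
  refine Submodule.sum_mem _ fun q _ => ?_
  rw [mapCoh_comp]
  exact (le_iSup (fun y : 𝒟.Pt => LinearMap.range (mapCoh (imInc hK O k y) i)) (tbc_y q))
    (LinearMap.mem_range_self _ _)

/-- **TBC2.** The top degree is spanned by the images of `ω`.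
PROOF. `orbit_dec`; `mapCoh (imPi y)` is onto in the degree `T.C.n0` by
`groupCohomology.mapShortComplex₃_exact (nn_se hK y)` and `nn_van`; `hω.gen`; `imPi_inc`. -/
theorem top_span (T : TSys K) (hK : OC K) (ω : groupCohomology (ffRep hK O k) T.C.n0)
    (hω : IsGen T hK ω) (z : groupCohomology (coeff K (triv K O k)) T.C.n0) :
    z ∈ Submodule.span O (Set.range fun y : 𝒟.Pt => mapCoh (piHom hK O k y) T.C.n0 ω) := by
  have hle : (⨆ y : 𝒟.Pt, LinearMap.range (mapCoh (imInc hK O k y) T.C.n0)) ≤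
      Submodule.span O (Set.range fun y : 𝒟.Pt => mapCoh (piHom hK O k y) T.C.n0 ω) := by
    refine iSup_le fun y => ?_
    rintro _ ⟨w, rfl⟩
    have h1 := groupCohomology.mapShortComplex₃_exact (nn_se (O := O) (k := k) hK y)
      (i := T.C.n0) (j := T.C.n0 + 1) rfl
    rw [ShortComplex.moduleCat_exact_iff] at h1
    have h2 := nn_van (O := O) (k := k) T hK y
    obtain ⟨v, hv⟩ := h1 w (h2.elim _ _)
    obtain ⟨a, ha⟩ := hω.gen v
    have hv' : mapCoh (imPi hK O k y) T.C.n0 v = w := hv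
    rw [← hv', ha, map_smul, map_smul, ← mapCoh_comp, imPi_inc]
    exact Submodule.smul_mem _ _ (Submodule.subset_span ⟨y, rfl⟩)
  exact hle (orbit_dec T hK T.C.n0 z)

/-- **TBC3.** PROOF. `groupCohomology.mapShortComplex₂_exact` (or `₃`), `ff_van`. -/
theorem del_inj (T : TSys K) (hK : OC K) (n : ℕ) (hn : n + 1 = T.C.n0) (y : 𝒟.Pt) :
    Function.Injective (groupCohomology.δ (nn_se (O := O) (k := k) hK y) n T.C.n0 hn).hom := by
  rw [injective_iff_map_eq_zero]
  intro w hw
  have h1 := groupCohomology.mapShortComplex₃_exact (nn_se (O := O) (k := k) hK y)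
    (i := n) (j := T.C.n0) hn
  rw [ShortComplex.moduleCat_exact_iff] at h1
  obtain ⟨v, hv⟩ := h1 w hw
  have h2 := ff_van (O := O) (k := k) T hK n hn
  have hv' : mapCoh (imPi hK O k y) n v = w := hv
  have h3 : v = 0 := h2.elim _ _
  rw [← hv', h3]
  exact map_zero (mapCoh (imPi hK O k y) n)

/-- **TBC4.** The classes `ζ` with boundary `(ρ(γ) - 1) ω`.
PROOF. `mapCoh (nnInc)` of it is `(ε γ - 1) ω = 0` (`rhoN_inc`, `hω.rho`, `eps_stab`), so it is in
the image of `δ` (`groupCohomology.mapShortComplex₁_exact`). -/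
theorem exists_br (T : TSys K) (hK : OC K) (ω : groupCohomology (ffRep hK O k) T.C.n0)
    (hω : IsGen T hK ω) (n : ℕ) (hn : n + 1 = T.C.n0) {y : 𝒟.Pt} {γ : 𝒟.G}
    (hγ : γ ∈ Stab K y) : ∃ ζ : groupCohomology (imRep hK O k y) n,
      (groupCohomology.δ (nn_se (O := O) (k := k) hK y) n T.C.n0 hn).hom ζ =
        mapCoh (rhoN hK O k hγ) T.C.n0 ω := by
  have h1 := groupCohomology.mapShortComplex₁_exact (nn_se (O := O) (k := k) hK y)
    (i := n) (j := T.C.n0) hn
  rw [ShortComplex.moduleCat_exact_iff] at h1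
  refine h1 (mapCoh (rhoN hK O k hγ) T.C.n0 ω) ?_
  change mapCoh (nnInc hK O k y) T.C.n0 (mapCoh (rhoN hK O k hγ) T.C.n0 ω) = 0
  rw [rhoN_inc, hω.rho, eps_stab T hγ, Units.val_one, one_smul, sub_self]

open Classical in
/-- The class `[y; γ]` in the cohomology one below the top degree. -/
def Br (T : TSys K) (hK : OC K) (ω : groupCohomology (ffRep hK O k) T.C.n0)
    (hω : IsGen T hK ω) (n : ℕ) (hn : n + 1 = T.C.n0) (y : 𝒟.Pt) (γ : 𝒟.G) :
    groupCohomology (coeff K (triv K O k)) n :=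
  if hγ : γ ∈ Stab K y then
    mapCoh (imInc hK O k y) n (exists_br T hK ω hω n hn hγ).choose
  else 0

/-- **TBC5.** PROOF. `del_inj`. -/
theorem Br_eq (T : TSys K) (hK : OC K) (ω : groupCohomology (ffRep hK O k) T.C.n0)
    (hω : IsGen T hK ω) (n : ℕ) (hn : n + 1 = T.C.n0) {y : 𝒟.Pt} {γ : 𝒟.G}
    (hγ : γ ∈ Stab K y) (ζ : groupCohomology (imRep hK O k y) n)
    (hζ : (groupCohomology.δ (nn_se (O := O) (k := k) hK y) n T.C.n0 hn).hom ζ =
        mapCoh (rhoN hK O k hγ) T.C.n0 ω) :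
    Br T hK ω hω n hn y γ = mapCoh (imInc hK O k y) n ζ := by
  unfold Br
  rw [dif_pos hγ]
  congr 1
  apply del_inj T hK n hn y
  rw [(exists_br T hK ω hω n hn hγ).choose_spec]
  exact hζ.symm

/-- **TBC6.** PROOF. `rhoN_mul`, `hω.rho`, `eps_stab`, `Br_eq`. -/
theorem Br_mul (T : TSys K) (hK : OC K) (ω : groupCohomology (ffRep hK O k) T.C.n0)
    (hω : IsGen T hK ω) (n : ℕ) (hn : n + 1 = T.C.n0) {y : 𝒟.Pt} {γ γ' : 𝒟.G}
    (hγ : γ ∈ Stab K y) (hγ' : γ' ∈ Stab K y) :
    Br T hK ω hω n hn y (γ * γ') = Br T hK ω hω n hn y γ + Br T hK ω hω n hn y γ' := by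
  obtain ⟨ζ, hζ⟩ := exists_br T hK ω hω n hn hγ
  obtain ⟨ζ', hζ'⟩ := exists_br T hK ω hω n hn hγ'
  rw [Br_eq T hK ω hω n hn hγ ζ hζ, Br_eq T hK ω hω n hn hγ' ζ' hζ',
    Br_eq T hK ω hω n hn ((Stab K y).mul_mem hγ hγ') (ζ + ζ') ?_]
  · exact map_add _ _ _
  · rw [rhoN_mul hK hγ hγ', hω.rho, eps_stab T hγ', Units.val_one, one_smul, ← hζ, ← hζ']
    exact map_add _ _ _

/-- **TBC7.** PROOF. `orbit_dec`; for `ζ` in `Hⁿ` of `imRep y`, `δ ζ` is a combination of the
`(ρ(γ) - 1) ω` by `nn_top`, so `ζ` is the same combination of the classes of `exists_br` by `del_inj`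
(`Submodule.span_induction` or `Finsupp`; e.g. the span of these classes maps onto the span of the
`(ρ(γ) - 1) ω`: `Submodule.map_span`). -/
theorem Br_span (T : TSys K) (hK : OC K) (ω : groupCohomology (ffRep hK O k) T.C.n0)
    (hω : IsGen T hK ω) (n : ℕ) (hn : n + 1 = T.C.n0)
    (z : groupCohomology (coeff K (triv K O k)) n) :
    z ∈ Submodule.span O {x : groupCohomology (coeff K (triv K O k)) n |
      ∃ y, ∃ γ ∈ Stab K y, x = Br T hK ω hω n hn y γ} := by
  have hle : (⨆ y : 𝒟.Pt, LinearMap.range (mapCoh (imInc hK O k y) n)) ≤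
      Submodule.span O {x : groupCohomology (coeff K (triv K O k)) n |
        ∃ y, ∃ γ ∈ Stab K y, x = Br T hK ω hω n hn y γ} := by
    refine iSup_le fun y => ?_
    rintro _ ⟨w, rfl⟩
    have h1 := nn_top T hK y ω hω
      ((groupCohomology.δ (nn_se (O := O) (k := k) hK y) n T.C.n0 hn).hom w)
    have h2 : Submodule.span O {x : groupCohomology (nnRep hK O k y) T.C.n0 |
        ∃ (γ : 𝒟.G) (hγ : γ ∈ Stab K y), x = mapCoh (rhoN hK O k hγ) T.C.n0 ω} ≤
        (Submodule.span O {ζ : groupCohomology (imRep hK O k y) n |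
          ∃ (γ : 𝒟.G) (hγ : γ ∈ Stab K y),
            (groupCohomology.δ (nn_se (O := O) (k := k) hK y) n T.C.n0 hn).hom ζ =
              mapCoh (rhoN hK O k hγ) T.C.n0 ω}).map
          (groupCohomology.δ (nn_se (O := O) (k := k) hK y) n T.C.n0 hn).hom := by
      rw [Submodule.span_le]
      rintro _ ⟨γ, hγ, rfl⟩
      obtain ⟨ζ, hζ⟩ := exists_br T hK ω hω n hn hγ
      exact ⟨ζ, Submodule.subset_span ⟨γ, hγ, hζ⟩, hζ⟩
    obtain ⟨w', hw', h3⟩ := h2 h1
    have h4 : w' = w := del_inj T hK n hn y h3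
    rw [← h4]
    clear h4 h3
    induction hw' using Submodule.span_induction with
    | mem ζ hζ =>
      obtain ⟨γ, hγ, h5⟩ := hζ
      refine Submodule.subset_span ⟨y, γ, hγ, ?_⟩
      exact (Br_eq T hK ω hω n hn hγ ζ h5).symm
    | zero =>
      rw [map_zero]
      exact Submodule.zero_mem _
    | add a b _ _ ha hb =>
      rw [map_add]
      exact Submodule.add_mem _ ha hb
    | smul c a _ ha =>
      rw [map_smul]
      exact Submodule.smul_mem _ _ ha
  exact hle (orbit_dec T hK n z)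

end Pool.Agent.CGQ
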