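import Pool.Agent.CGQ.TBC

/-!
# The classes `[y; γ]` and the quotient by `ρ(γ) - 1`
-/

noncomputable section

namespace Pool.Agent.CGQ

open NumberField IsDedekindDomain Pool.Agent.CG3 CategoryTheory Limits
open Pool.Agent.CG2 (Pl GQ GZ IsCoef CellSys Asc AltF dF LocEq locHom res cosets cosets_finite
  alpha cosetsInv cosetsInv_finite)

variable {F : Type} [Field F] [NumberField F] {𝒟 : Sys F} {K : Subgroup 𝒟.A}
variable {O k : Type} [CommRing O] [Field k] [Algebra O k]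

/-- The sequence `FF → FF → FF / (ρ(γ) - 1)`. -/
def qX (hK : OC K) (O k : Type) [CommRing O] [Field k] [Algebra O k] (γ : 𝒟.G) :
    ShortComplex (Rep.{0} O 𝒟.G) :=
  ShortComplex.mk (rhoHom hK O k γ - 𝟙 (ffRep hK O k)) (cokernel.π _) (cokernel.condition _)

private theorem tbd_inj (hK : OC K) (hTF : TorsionFree K) {y : 𝒟.Pt} {γ : 𝒟.G}
    (hγ : γ ∈ Stab K y) (h1 : γ ≠ 1) (f : FF K O k) (hf : rhoLin K O k γ f = f) : f = 0 := by
  by_contra hne
  have h2 : ∃ δ : 𝒟.G, f.1 δ ≠ 0 := by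
    by_contra h3
    push Not at h3
    apply hne
    apply Subtype.ext
    funext δ
    exact h3 δ
  obtain ⟨δ, hδ⟩ := h2
  have h3 : ∀ δ' : 𝒟.G, f.1 (δ' * γ) = f.1 δ' := fun δ' =>
    congrArg (fun g : FF K O k => g.1 δ') hf
  have h4 : ∀ n : ℕ, f.1 (δ * γ ^ n) = f.1 δ := by
    intro n
    induction n with
    | zero => rw [pow_zero, mul_one]
    | succ n ih => rw [pow_succ, ← mul_assoc, h3, ih]
  have h5 : ∀ n : ℕ, prF K y (δ * γ ^ n) = prF K y δ := by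
    intro n
    have h6 : γ ^ n ∈ Stab K y := (Stab K y).pow_mem hγ n
    have h7 : prF K y (δ * γ ^ n) = δ • mkK K (act (γ ^ n) y) := FFmod_prF_mul y δ (γ ^ n)
    rw [h7, mem_Stab.1 h6]
    rfl
  have h6 := (ff_iff hK y f.1).1 f.2 (prF K y δ)
  have h7 : ¬ Function.Injective (fun n : ℕ => δ * γ ^ n) := by
    intro hinj
    have h8 : (Set.range (fun n : ℕ => δ * γ ^ n)).Finite := by
      refine h6.subset ?_
      rintro _ ⟨n, rfl⟩
      refine ⟨h5 n, ?_⟩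
      change f.1 (δ * γ ^ n) ≠ 0
      rw [h4 n]
      exact hδ
    exact (Set.infinite_range_of_injective hinj) h8
  obtain ⟨κ, hκ, h8⟩ := mem_Stab'.1 hγ
  have h9 : diag γ * y.2 = y.2 * κ := congrArg Prod.snd h8
  have h10 : y.2⁻¹ * diag γ * y.2 ∈ K := by
    rw [mul_assoc, h9, inv_mul_cancel_left]
    exact hκ
  have h11 : ∀ a b : ℕ, a < b → δ * γ ^ a = δ * γ ^ b → False := by
    intro a b hab h12
    have h13 := mul_left_cancel h12
    obtain ⟨c, rfl⟩ := Nat.exists_eq_add_of_lt hab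
    rw [add_assoc, pow_add] at h13
    have h14 : γ ^ (c + 1) = 1 := by
      have h15 : γ ^ a * 1 = γ ^ a * γ ^ (c + 1) := by rw [mul_one]; exact h13
      exact (mul_left_cancel h15).symm
    exact h1 (hTF y.2 γ (c + 1) (Nat.succ_pos c) h10 h14)
  apply h7
  intro a b hab
  rcases Nat.lt_trichotomy a b with h12 | h12 | h12
  · exact (h11 a b h12 hab).elim
  · exact h12
  · exact (h11 b a h12 hab.symm).elim

private theorem tbd_inj' (hK : OC K) (hTF : TorsionFree K) {y : 𝒟.Pt} {γ : 𝒟.G}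
    (hγ : γ ∈ Stab K y) (h1 : γ ≠ 1) (f : FF K O k)
    (hf : (rhoHom hK O k γ - 𝟙 (ffRep hK O k)).hom f = 0) : f = 0 := by
  apply tbd_inj hK hTF hγ h1 f
  have h2 : rhoLin K O k γ f - f = 0 := hf
  exact sub_eq_zero.1 h2

/-- **TBD1.** PROOF. Exactness and the epimorphism are formal
(`ShortComplex.exact_cokernel`). Monomorphism: `f (δ γ) = f δ` for all `δ`, `f ∈ FF`; if
`f δ ≠ 0` then all `δ γⁿ`, `n ∈ ℕ`, are in the finite set of the `δ'` with
`prF K y δ' = prF K y δ`, `f δ' ≠ 0` (`γ ∈ Stab K y`), so `γᵃ = γᵇ` for some `a < b`, so `γ = 1` by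
`hTF` (at `g = y.2`: `γ ∈ Stab K y` gives `g⁻¹ diag γ g ∈ K`). -/
theorem qX_se (hK : OC K) (hTF : TorsionFree K) {y : 𝒟.Pt} {γ : 𝒟.G} (hγ : γ ∈ Stab K y)
    (h1 : γ ≠ 1) : (qX hK O k γ).ShortExact := by
  refine { exact := ShortComplex.exact_cokernel _, mono_f := ?_, epi_g := ?_ }
  · refine (Rep.mono_iff_injective _).2 ?_
    rw [injective_iff_map_eq_zero]
    intro f hf
    exact tbd_inj' hK hTF hγ h1 f hf
  · exact coequalizer.π_epi

private theorem tbd_sub (hK : OC K) (γ : 𝒟.G) (i : ℕ)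
    (z : groupCohomology (ffRep hK O k) i) :
    mapCoh (rhoHom hK O k γ - 𝟙 (ffRep hK O k)) i z = mapCoh (rhoHom hK O k γ) i z - z := by
  have h1 := mapCoh_add (𝟙 (ffRep hK O k)) (rhoHom hK O k γ - 𝟙 (ffRep hK O k))
    (rhoHom hK O k γ) (fun a => by
      change (rhoHom hK O k γ).hom a = a + ((rhoHom hK O k γ).hom a - a)
      abel) i z
  rw [mapCoh_id] at h1
  rw [h1, add_sub_cancel_left]

private theorem tbd_dinj (T : TSys K) (hK : OC K) (hTF : TorsionFree K)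
    (n : ℕ) (hn : n + 1 = T.C.n0) {y : 𝒟.Pt} {γ : 𝒟.G} (hγ : γ ∈ Stab K y) (h1 : γ ≠ 1) :
    Function.Injective
      (groupCohomology.δ (qX_se (O := O) (k := k) hK hTF hγ h1) n T.C.n0 hn).hom := by
  rw [injective_iff_map_eq_zero]
  intro w hw
  have h2 := groupCohomology.mapShortComplex₃_exact (qX_se (O := O) (k := k) hK hTF hγ h1)
    (i := n) (j := T.C.n0) hn
  rw [ShortComplex.moduleCat_exact_iff] at h2
  obtain ⟨v, hv⟩ := h2 w hw
  have h3 := ff_van (O := O) (k := k) T hK n hn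
  have hv' : mapCoh (qX hK O k γ).g n v = w := hv
  have h4 : v = 0 := h3.elim _ _
  rw [← hv', h4]
  exact map_zero (mapCoh (qX hK O k γ).g n)

/-- **TBD2.** PROOF. Existence: `(ρ(γ) - 1) ω = 0` by `hω.rho`, `eps_stab`
(`groupCohomology.mapShortComplex₁_exact`); uniqueness: `ff_van`. -/
theorem exists_q (T : TSys K) (hK : OC K) (hTF : TorsionFree K)
    (ω : groupCohomology (ffRep hK O k) T.C.n0)
    (hω : IsGen T hK ω) (n : ℕ) (hn : n + 1 = T.C.n0) {y : 𝒟.Pt} {γ : 𝒟.G}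
    (hγ : γ ∈ Stab K y) (h1 : γ ≠ 1) : ∃! ζ : groupCohomology (qX hK O k γ).X₃ n,
      (groupCohomology.δ (qX_se (O := O) (k := k) hK hTF hγ h1) n T.C.n0 hn).hom ζ = ω := by
  have h2 := groupCohomology.mapShortComplex₁_exact (qX_se (O := O) (k := k) hK hTF hγ h1)
    (i := n) (j := T.C.n0) hn
  rw [ShortComplex.moduleCat_exact_iff] at h2
  have h3 : mapCoh (rhoHom hK O k γ - 𝟙 (ffRep hK O k)) T.C.n0 ω = 0 := by
    rw [tbd_sub, hω.rho, eps_stab T hγ, Units.val_one, one_smul, sub_self]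
  obtain ⟨ζ, hζ⟩ := h2 ω h3
  refine ⟨ζ, hζ, fun ζ' hζ' => ?_⟩
  apply tbd_dinj T hK hTF n hn hγ h1
  exact hζ'.trans (Eq.symm hζ)

/-- The map induced by `piHom` on the quotient. -/
def qPi (hK : OC K) (O k : Type) [CommRing O] [Field k] [Algebra O k] {y : 𝒟.Pt} {γ : 𝒟.G}
    (hγ : γ ∈ Stab K y) : (qX hK O k γ).X₃ ⟶ coeff K (triv K O k) :=
  cokernel.desc _ (piHom hK O k y) (by
    rw [Preadditive.sub_comp, rho_pi_stab hK hγ, Category.id_comp, sub_self])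

private theorem tbd_pi' (hK : OC K) {y : 𝒟.Pt} {γ : 𝒟.G} (hγ : γ ∈ Stab K y)
    (f : FF K O k) : piLin K O k y (rhoLin K O k γ f - f) = 0 := by
  have h1 := congrArg (fun g => g.hom f) (rho_pi_stab (O := O) (k := k) hK hγ)
  rw [map_sub, sub_eq_zero]
  exact h1

private theorem tbd_pi (hK : OC K) {y : 𝒟.Pt} {γ : 𝒟.G} (hγ : γ ∈ Stab K y) :
    (rhoHom hK O k γ - 𝟙 (ffRep hK O k)) ≫ imPi hK O k y = 0 := by
  apply rep_hom_ext
  intro f
  apply Subtype.ext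
  exact tbd_pi' hK hγ f

/-- **TBD3.** The class `[y; γ]` through the quotient.
PROOF. The triple (`rhoN hγ`, identity, `cokernel.desc _ (imPi y) _`) is a morphism of short exact
sequences from `qX γ` to that of `nn_se hK y` (`rhoN hγ ≫ nnInc = rhoHom γ - 𝟙`); by
`CG2.CellTower.delta_nat` the image `ζ'` of `ζ` in `Hⁿ` of `imRep y` has
`δ ζ' = mapCoh (rhoN hγ) ω`, so `Br_eq` applies, and
`cokernel.desc _ (imPi y) _ ≫ imInc = qPi` (`imPi_inc`). `CG2.CellTower.delta_nat` is stated for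
`n + 1`; substitute `hn` or use `groupCohomology.δ_naturality`. -/
theorem Br_q (T : TSys K) (hK : OC K) (hTF : TorsionFree K)
    (ω : groupCohomology (ffRep hK O k) T.C.n0)
    (hω : IsGen T hK ω) (n : ℕ) (hn : n + 1 = T.C.n0) {y : 𝒟.Pt} {γ : 𝒟.G}
    (hγ : γ ∈ Stab K y) (h1 : γ ≠ 1) (ζ : groupCohomology (qX hK O k γ).X₃ n)
    (hζ : (groupCohomology.δ (qX_se (O := O) (k := k) hK hTF hγ h1) n T.C.n0 hn).hom ζ = ω) :
    Br T hK ω hω n hn y γ = mapCoh (qPi hK O k hγ) n ζ := by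
  let F : qX hK O k γ ⟶ ShortComplex.mk (nnInc hK O k y) (imPi hK O k y) (nn_im_zero hK y) :=
    { τ₁ := rhoN hK O k hγ
      τ₂ := 𝟙 (ffRep hK O k)
      τ₃ := cokernel.desc _ (imPi hK O k y) (tbd_pi hK hγ)
      comm₁₂ := by
        apply rep_hom_ext
        intro f
        rfl
      comm₂₃ := by
        change 𝟙 (ffRep hK O k) ≫ imPi hK O k y = cokernel.π _ ≫ cokernel.desc _ _ _
        rw [Category.id_comp, cokernel.π_desc] }
  have h2 := groupCohomology.δ_naturality (qX_se (O := O) (k := k) hK hTF hγ h1)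
    (nn_se (O := O) (k := k) hK y) F n T.C.n0 hn
  have h3 := congrArg (fun f => f.hom ζ) h2
  have h4 : (groupCohomology.δ (nn_se (O := O) (k := k) hK y) n T.C.n0 hn).hom
      (mapCoh F.τ₃ n ζ) = mapCoh (rhoN hK O k hγ) T.C.n0
        ((groupCohomology.δ (qX_se (O := O) (k := k) hK hTF hγ h1) n T.C.n0 hn).hom ζ) := h3.symm
  rw [hζ] at h4
  have h5 : F.τ₃ ≫ imInc hK O k y = qPi hK O k hγ := by
    apply coequalizer.hom_ext
    change cokernel.π (rhoHom hK O k γ - 𝟙 (ffRep hK O k)) ≫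
      cokernel.desc _ (imPi hK O k y) (tbd_pi hK hγ) ≫ imInc hK O k y =
        cokernel.π (rhoHom hK O k γ - 𝟙 (ffRep hK O k)) ≫ cokernel.desc _ (piHom hK O k y) _
    rw [cokernel.π_desc, ← Category.assoc, cokernel.π_desc, imPi_inc]
  rw [Br_eq T hK ω hω n hn hγ _ h4, ← h5, mapCoh_comp]

/-- **TBD4.** Transport of the classes `ζ`.
PROOF. `(A, B, cokernel.map)` is a morphism of short exact sequences by `hAB`;
`groupCohomology.δ_naturality` and the uniqueness in `exists_q`. -/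
theorem q_map (T : TSys K) (hK : OC K) (hTF : TorsionFree K)
    (ω : groupCohomology (ffRep hK O k) T.C.n0)
    (hω : IsGen T hK ω) (n : ℕ) (hn : n + 1 = T.C.n0) {y y' : 𝒟.Pt} {γ γ' : 𝒟.G}
    (hγ : γ ∈ Stab K y) (h1 : γ ≠ 1) (hγ' : γ' ∈ Stab K y') (h1' : γ' ≠ 1)
    (A B : ffRep hK O k ⟶ ffRep hK O k)
    (hAB : (rhoHom hK O k γ - 𝟙 _) ≫ B = A ≫ (rhoHom hK O k γ' - 𝟙 _)) (e : ℤ)
    (hA : mapCoh A T.C.n0 ω = e • ω)
    (ζ : groupCohomology (qX hK O k γ).X₃ n)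
    (hζ : (groupCohomology.δ (qX_se (O := O) (k := k) hK hTF hγ h1) n T.C.n0 hn).hom ζ = ω)
    (ζ' : groupCohomology (qX hK O k γ').X₃ n)
    (hζ' : (groupCohomology.δ (qX_se (O := O) (k := k) hK hTF hγ' h1') n T.C.n0 hn).hom ζ' = ω) :
    mapCoh (show (qX hK O k γ).X₃ ⟶ (qX hK O k γ').X₃ from cokernel.map _ _ A B hAB) n ζ =
      e • ζ' := by
  let F : qX hK O k γ ⟶ qX hK O k γ' :=
    { τ₁ := A
      τ₂ := B
      τ₃ := cokernel.map _ _ A B hAB
      comm₁₂ := hAB.symm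
      comm₂₃ := by
        change B ≫ cokernel.π _ = cokernel.π _ ≫ cokernel.map _ _ A B hAB
        rw [cokernel.map, cokernel.π_desc] }
  have h2 := groupCohomology.δ_naturality (qX_se (O := O) (k := k) hK hTF hγ h1)
    (qX_se (O := O) (k := k) hK hTF hγ' h1') F n T.C.n0 hn
  have h3 := congrArg (fun f => f.hom ζ) h2
  have h4 : (groupCohomology.δ (qX_se (O := O) (k := k) hK hTF hγ' h1') n T.C.n0 hn).hom
      (mapCoh F.τ₃ n ζ) = mapCoh A T.C.n0
        ((groupCohomology.δ (qX_se (O := O) (k := k) hK hTF hγ h1) n T.C.n0 hn).hom ζ) := h3.symm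
  rw [hζ, hA] at h4
  apply tbd_dinj T hK hTF n hn hγ' h1'
  rw [map_zsmul, hζ']
  exact h4

end Pool.Agent.CGQ
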