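import Pool.Agent.CGQ.Fam

/-!
# The unit trick: integral matrices of determinant `π`
-/

noncomputable section

namespace Pool.Agent.CGQ

open NumberField IsDedekindDomain Matrix
open Pool.Agent.CG2 (Pl Fv Ov GQ GZ cosets cosets_finite alpha HRd HRa HRd_val HRa_val)

variable {F : Type} [Field F] [NumberField F]

private theorem ULA_gen1 {E : Type*} [Field E] {p : E} (hp : p ≠ 0) (b : E)
    (K : Matrix (Fin 2) (Fin 2) E) :
    (!![p, b; 0, 1] : Matrix (Fin 2) (Fin 2) E)⁻¹ * K =
      !![(K 0 0 - b * K 1 0) / p, (K 0 1 - b * K 1 1) / p; K 1 0, K 1 1] := by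
  rw [Matrix.inv_def, Ring.inverse_eq_inv', Matrix.adjugate_fin_two]
  ext i j
  fin_cases i <;> fin_cases j <;>
    simp [Matrix.mul_apply, Fin.sum_univ_two, Matrix.det_fin_two] <;> field_simp
  all_goals ring

private theorem ULA_gen2 {E : Type*} [Field E] {p : E} (hp : p ≠ 0)
    (K : Matrix (Fin 2) (Fin 2) E) :
    (!![1, 0; 0, p] : Matrix (Fin 2) (Fin 2) E)⁻¹ * K =
      !![K 0 0, K 0 1; K 1 0 / p, K 1 1 / p] := by
  rw [Matrix.inv_def, Ring.inverse_eq_inv', Matrix.adjugate_fin_two]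
  ext i j
  fin_cases i <;> fin_cases j <;>
    simp [Matrix.mul_apply, Fin.sum_univ_two, Matrix.det_fin_two] <;> field_simp

private theorem ULA_det {v : Pl F} {x : Fv v} (hd : Valued.v x = WithZero.exp (-1 : ℤ)) :
    Valued.v (x / ((CG2.pi v : F) : Fv v)) = 1 := by
  rw [map_div₀, hd, CG2.heckeReps_pi, div_self]
  exact WithZero.exp_ne_zero

private theorem ULA_a (v : Pl F) (g : GQ v) (b : 𝓞 F)
    (hg : ∀ i j, Valued.v ((g : Matrix (Fin 2) (Fin 2) (Fv v)) i j) ≤ 1)
    (hd : Valued.v (g : Matrix (Fin 2) (Fin 2) (Fv v)).det = WithZero.exp (-1 : ℤ))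
    (h0 : Valued.v ((g : Matrix (Fin 2) (Fin 2) (Fv v)) 0 0 -
      ((b : F) : Fv v) * (g : Matrix (Fin 2) (Fin 2) (Fv v)) 1 0) < 1)
    (h1 : Valued.v ((g : Matrix (Fin 2) (Fin 2) (Fv v)) 0 1 -
      ((b : F) : Fv v) * (g : Matrix (Fin 2) (Fin 2) (Fv v)) 1 1) < 1) :
    ((g : GQ v) : GQ v ⧸ GZ v) ∈ cosets v 0 := by
  have hp := CG2.heckeReps_pi_ne v
  have key : (HRa v (b : F))⁻¹ * g ∈ GZ v := by
    have hM : (((HRa v (b : F))⁻¹ * g : GQ v) : Matrix (Fin 2) (Fin 2) (Fv v)) =
        !![((g : Matrix (Fin 2) (Fin 2) (Fv v)) 0 0 -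
            ((b : F) : Fv v) * (g : Matrix (Fin 2) (Fin 2) (Fv v)) 1 0) / ((CG2.pi v : F) : Fv v),
          ((g : Matrix (Fin 2) (Fin 2) (Fv v)) 0 1 -
            ((b : F) : Fv v) * (g : Matrix (Fin 2) (Fin 2) (Fv v)) 1 1) / ((CG2.pi v : F) : Fv v);
          (g : Matrix (Fin 2) (Fin 2) (Fv v)) 1 0, (g : Matrix (Fin 2) (Fin 2) (Fv v)) 1 1] := by
      rw [Units.val_mul, Matrix.coe_units_inv, HRa_val]
      exact ULA_gen1 hp _ _
    apply CG2.heckeReps_mem
    · intro i j
      rw [hM]
      fin_cases i <;> fin_cases j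
      · exact CG2.heckeReps_div h0
      · exact CG2.heckeReps_div h1
      · exact hg 1 0
      · exact hg 1 1
    · rw [CG2.dtv, hM, ← ULA_det hd, Matrix.det_fin_two, Matrix.det_fin_two]
      congr 1
      simp only [Matrix.of_apply, Matrix.cons_val', Matrix.cons_val_zero, Matrix.cons_val_one,
        Matrix.cons_val_fin_one]
      field_simp
      ring
  rw [← QuotientGroup.eq.2 key]
  exact CG2.HR_mk_a (CG2.HR_int_le v b)

/-- **ULA.** An integral matrix with determinant of valuation one lies in the double coset of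
`diag(π, 1)`.
PROOF. As in `Pool.Agent.CG2.HR_mem_cosets`, `HR_unit`, `HR_nonunit` (file CG2/HeckeReps.lean):
`x = g₀₀, y = g₀₁, z = g₁₀, t = g₁₁`. If all entries had valuation `< 1` the determinant would have
valuation `≤ exp (-2)`; so some column has a unit entry. Multiply on the right by an element of
`GL₂(O_v)` to get the bottom row `(0, d)` resp. use the matrices `HRa v b = (π, b; 0, 1)` and
`HRd v = (1, 0; 0, π)`: show that `(HRa v b)⁻¹ * g` or `(HRd v)⁻¹ * g` is in `GZ v`
(`heckeReps_mem`: integral entries and unit determinant suffice): if `t` or `z` is a unit take `b`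
with `v(y/t - b) < 1` resp. `v(x/z - b) < 1` (both quotients agree modulo `π` if both `t`, `z` are
units, because the determinant is divisible by `π`); if `z`, `t` are non units take `HRd`. The
cosets of `HRa v b` (`b` integral in `F`, `HR_mk_a`) and `HRd v` (`HR_mk_d`) are in
`cosets v 0`. -/
theorem mem_cosets_of_int (v : Pl F) (g : GQ v)
    (hg : ∀ i j, Valued.v ((g : Matrix (Fin 2) (Fin 2) (Fv v)) i j) ≤ 1)
    (hd : Valued.v (g : Matrix (Fin 2) (Fin 2) (Fv v)).det = WithZero.exp (-1 : ℤ)) :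
    ((g : GQ v) : GQ v ⧸ GZ v) ∈ cosets v 0 := by
  have hp := CG2.heckeReps_pi_ne v
  set K : Matrix (Fin 2) (Fin 2) (Fv v) := (g : Matrix (Fin 2) (Fin 2) (Fv v)) with hK
  have hdlt : Valued.v K.det < 1 := by
    rw [hd, ← WithZero.exp_zero, WithZero.exp_lt_exp]
    norm_num
  have hdet : K.det = K 0 0 * K 1 1 - K 0 1 * K 1 0 := Matrix.det_fin_two K
  rcases (hg 1 1).lt_or_eq with h11 | h11
  · rcases (hg 1 0).lt_or_eq with h10 | h10
    · -- both entries of the second row are non units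
      have key : (HRd v)⁻¹ * g ∈ GZ v := by
        have hM : (((HRd v)⁻¹ * g : GQ v) : Matrix (Fin 2) (Fin 2) (Fv v)) =
            !![K 0 0, K 0 1; K 1 0 / ((CG2.pi v : F) : Fv v), K 1 1 / ((CG2.pi v : F) : Fv v)] := by
          rw [Units.val_mul, Matrix.coe_units_inv, HRd_val]
          exact ULA_gen2 hp _
        apply CG2.heckeReps_mem
        · intro i j
          rw [hM]
          fin_cases i <;> fin_cases j
          · exact hg 0 0
          · exact hg 0 1
          · exact CG2.heckeReps_div h10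
          · exact CG2.heckeReps_div h11
        · rw [CG2.dtv, hM, ← ULA_det hd, hdet, Matrix.det_fin_two]
          congr 1
          simp only [Matrix.of_apply, Matrix.cons_val', Matrix.cons_val_zero, Matrix.cons_val_one,
            Matrix.cons_val_fin_one]
          field_simp
      rw [← QuotientGroup.eq.2 key]
      exact CG2.HR_mk_d v
    · have h10' : K 1 0 ≠ 0 := by
        intro h0
        rw [h0, map_zero] at h10
        exact zero_ne_one h10
      obtain ⟨b, hb⟩ := CG2.exists_int_sub_lt v (K 0 0 / K 1 0) (by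
        rw [map_div₀, h10, div_one]
        exact hg 0 0) 1
      have hb' : Valued.v (K 0 0 / K 1 0 - ((b : F) : Fv v)) < 1 := hb
      have e0 : Valued.v (K 0 0 - ((b : F) : Fv v) * K 1 0) < 1 := by
        have h1 : K 0 0 - ((b : F) : Fv v) * K 1 0 =
            (K 0 0 / K 1 0 - ((b : F) : Fv v)) * K 1 0 := by
          field_simp
        rw [h1, map_mul, h10, mul_one]
        exact hb'
      refine ULA_a v g b hg hd e0 ?_
      have h2 : (K 0 1 - ((b : F) : Fv v) * K 1 1) * K 1 0 =
          K 1 1 * (K 0 0 - ((b : F) : Fv v) * K 1 0) - K.det := by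
        rw [hdet]; ring
      have h3 : Valued.v (K 0 1 - ((b : F) : Fv v) * K 1 1) =
          Valued.v ((K 0 1 - ((b : F) : Fv v) * K 1 1) * K 1 0) := by
        rw [map_mul, h10, mul_one]
      rw [h3, h2]
      refine (Valuation.map_sub _ _ _).trans_lt (max_lt ?_ hdlt)
      rw [map_mul]
      exact mul_lt_one_of_nonneg_of_lt_one_right (hg 1 1) zero_le e0
  · have h11' : K 1 1 ≠ 0 := by
      intro h0
      rw [h0, map_zero] at h11
      exact zero_ne_one h11
    obtain ⟨b, hb⟩ := CG2.exists_int_sub_lt v (K 0 1 / K 1 1) (by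
      rw [map_div₀, h11, div_one]
      exact hg 0 1) 1
    have hb' : Valued.v (K 0 1 / K 1 1 - ((b : F) : Fv v)) < 1 := hb
    have e1 : Valued.v (K 0 1 - ((b : F) : Fv v) * K 1 1) < 1 := by
      have h1 : K 0 1 - ((b : F) : Fv v) * K 1 1 =
          (K 0 1 / K 1 1 - ((b : F) : Fv v)) * K 1 1 := by
        field_simp
      rw [h1, map_mul, h11, mul_one]
      exact hb'
    refine ULA_a v g b hg hd ?_ e1
    have h2 : (K 0 0 - ((b : F) : Fv v) * K 1 0) * K 1 1 =
        K 1 0 * (K 0 1 - ((b : F) : Fv v) * K 1 1) + K.det := by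
      rw [hdet]; ring
    have h3 : Valued.v (K 0 0 - ((b : F) : Fv v) * K 1 0) =
        Valued.v ((K 0 0 - ((b : F) : Fv v) * K 1 0) * K 1 1) := by
      rw [map_mul, h11, mul_one]
    rw [h3, h2]
    refine (Valuation.map_add _ _ _).trans_lt (max_lt ?_ hdlt)
    rw [map_mul]
    exact mul_lt_one_of_nonneg_of_lt_one_right (hg 1 0) zero_le e1

end Pool.Agent.CGQ
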