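import Pool.Agent.CGQ.Fam

/-!
# The unit trick: double transitivity
-/

noncomputable section

namespace Pool.Agent.CGQ

open NumberField IsDedekindDomain Matrix
open Pool.Agent.CG2 (Pl Fv Ov GQ GZ cosets cosets_finite alpha HRd HRa HRd_val HRa_val)

variable {F : Type} [Field F] [NumberField F]

private theorem ULB_gen1 {E : Type*} [Field E] {p : E} (hp : p ≠ 0) (b : E) :
    (!![p, 0; 0, 1] : Matrix (Fin 2) (Fin 2) E)⁻¹ * (!![b, 0; 1, 1] * !![p, 0; 0, 1]) =
      !![b, 0; p, 1] := by
  rw [Matrix.inv_def, Ring.inverse_eq_inv', Matrix.adjugate_fin_two]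
  ext i j
  fin_cases i <;> fin_cases j <;>
    simp [Matrix.mul_apply, Fin.sum_univ_two, Matrix.det_fin_two] <;> field_simp

private theorem ULB_gen2 {E : Type*} [Field E] {p : E} (hp : p ≠ 0) (b : E) :
    (!![p, b; 0, 1] : Matrix (Fin 2) (Fin 2) E)⁻¹ * (!![b, 0; 1, 1] * !![1, 0; 0, p]) =
      !![0, -b; 1, p] := by
  rw [Matrix.inv_def, Ring.inverse_eq_inv', Matrix.adjugate_fin_two]
  ext i j
  fin_cases i <;> fin_cases j <;>
    simp [Matrix.mul_apply, Fin.sum_univ_two, Matrix.det_fin_two] <;> field_simp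

private theorem ULB_alpha (v : Pl F) : HRa v 0 = alpha v 0 := by
  apply Units.ext
  rw [HRa_val, CG2.HR_alpha_zero_val]
  have h0 : ((0 : F) : Fv v) = 0 := map_zero (algebraMap F (Fv v))
  rw [h0]

private theorem ULB_pi_le (v : Pl F) : Valued.v ((CG2.pi v : F) : Fv v) ≤ 1 := by
  rw [CG2.heckeReps_pi, ← WithZero.exp_zero]
  exact WithZero.exp_le_exp.2 (by norm_num)

/-- The matrix `(b 0; 1 1)`. -/
private def ULB_m (v : Pl F) (b : Fv v) (hb : b ≠ 0) : GQ v :=
  GeneralLinearGroup.mkOfDetNeZero !![b, 0; 1, 1] (by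
    simpa [Matrix.det_fin_two] using hb)

private theorem ULB_m_val (v : Pl F) (b : Fv v) (hb : b ≠ 0) :
    (ULB_m v b hb : Matrix (Fin 2) (Fin 2) (Fv v)) = !![b, 0; 1, 1] := rfl

private theorem ULB_m_mem (v : Pl F) (b : Fv v) (hb : b ≠ 0) (h1 : Valued.v b = 1) :
    ULB_m v b hb ∈ GZ v := by
  apply CG2.heckeReps_mem
  · intro i j
    rw [ULB_m_val]
    fin_cases i <;> fin_cases j
    · exact h1.le
    · exact (map_zero _).trans_le zero_le
    · exact (map_one _).le
    · exact (map_one _).le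
  · rw [CG2.dtv, ULB_m_val, Matrix.det_fin_two]
    change Valued.v (b * 1 - 0 * 1) = 1
    rw [mul_one, zero_mul, sub_zero, h1]

/-- **ULB.** `GL₂(O_v)` acts doubly transitively on `cosets v 0` (the projective line over the
residue field).
PROOF. By definition `c = k • [alpha v 0]` with `k` in `GZ v`; so assume `c = [alpha v 0]`, that is
`[HRa v 0]`. By `HR_mem_cosets` / `HR_exists` the coset `k⁻¹ • c'` (it is in `cosets v 0`, see
`CG2.smul_mem_cosets`) is `[HRa v b]` with `b` integral, not congruent to `0`, or `[HRd v]`. In the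
second case we are done. In the first case `m = (1, 0; b⁻¹, 1)` is in `GZ v` and fixes
`[alpha v 0]` and maps `[HRd v]` to `[HRa v b]`: check that `(alpha v 0)⁻¹ m (alpha v 0)` and
`(HRa v b)⁻¹ m HRd v` are in `GZ v` by writing down the matrices (take `m = (1, b; b⁻¹ * 0, 1)`
or any other element of your choice with these two properties). -/
theorem two_trans (v : Pl F) {c c' : GQ v ⧸ GZ v} (hc : c ∈ cosets v 0) (hc' : c' ∈ cosets v 0)
    (hne : c ≠ c') : ∃ m ∈ GZ v, c = m • ((alpha v 0 : GQ v) : GQ v ⧸ GZ v) ∧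
      c' = m • ((HRd v : GQ v) : GQ v ⧸ GZ v) := by
  have hp := CG2.heckeReps_pi_ne v
  obtain ⟨k, hk, rfl⟩ := hc
  have hc1 : ((k * alpha v 0 : GQ v) : GQ v ⧸ GZ v) =
      k • ((alpha v 0 : GQ v) : GQ v ⧸ GZ v) := rfl
  rw [hc1] at hne ⊢
  have hc2 : k⁻¹ • c' ∈ cosets v 0 := CG2.smul_mem_cosets hc' ((GZ v).inv_mem hk)
  have hc'e : c' = k • (k⁻¹ • c') := (smul_inv_smul k c').symm
  obtain ⟨B, hB1, hB2, hB3, hB4⟩ := CG2.HR_exists v
  have hB2' : ∀ b ∈ B, Valued.v ((b : F) : Fv v) ≤ 1 := by
    intro b hb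
    obtain ⟨a, rfl⟩ := hB2 b hb
    exact CG2.HR_int_le v a
  rcases (CG2.HR_mem_cosets hB2' hB3 _).1 hc2 with ⟨b, hb, hbc⟩ | hd
  · have hb1 : Valued.v ((b : F) : Fv v) = 1 := by
      rcases (hB2' b hb).lt_or_eq with h | h
      · exfalso
        apply hne
        have h2 : ((alpha v 0 : GQ v) : GQ v ⧸ GZ v) = ((HRa v b : GQ v) : GQ v ⧸ GZ v) := by
          rw [← ULB_alpha, QuotientGroup.eq]
          have h0 : ((0 : F) : Fv v) = 0 := map_zero (algebraMap F (Fv v))
          have hM : (((HRa v 0)⁻¹ * HRa v b : GQ v) : Matrix (Fin 2) (Fin 2) (Fv v)) =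
              !![1, (((b : F) : Fv v) - ((0 : F) : Fv v)) / ((CG2.pi v : F) : Fv v); 0, 1] := by
            rw [Units.val_mul, Matrix.coe_units_inv, HRa_val, HRa_val, CG2.HR_gen3 hp]
          apply CG2.heckeReps_mem
          · intro i j
            rw [hM]
            fin_cases i <;> fin_cases j
            · exact (map_one _).le
            · refine CG2.heckeReps_div ?_
              rw [h0, sub_zero]
              exact h
            · exact (map_zero _).trans_le zero_le
            · exact (map_one _).le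
          · rw [CG2.dtv, hM, Matrix.det_fin_two]
            change Valued.v ((1 : Fv v) * 1 - _ * 0) = 1
            rw [mul_zero, sub_zero, mul_one, map_one]
        rw [h2, hbc, smul_inv_smul]
      · exact h
    have hb0 : ((b : F) : Fv v) ≠ 0 := by
      intro h0
      rw [h0, map_zero] at hb1
      exact zero_ne_one hb1
    have hm := ULB_m_mem v _ hb0 hb1
    refine ⟨k * ULB_m v _ hb0, (GZ v).mul_mem hk hm, ?_, ?_⟩
    · rw [mul_smul]
      refine congrArg (fun x => k • x) ?_
      change ((alpha v 0 : GQ v) : GQ v ⧸ GZ v) =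
        ((ULB_m v _ hb0 * alpha v 0 : GQ v) : GQ v ⧸ GZ v)
      rw [QuotientGroup.eq]
      have hM : (((alpha v 0)⁻¹ * (ULB_m v _ hb0 * alpha v 0) : GQ v) :
          Matrix (Fin 2) (Fin 2) (Fv v)) =
          !![((b : F) : Fv v), 0; ((CG2.pi v : F) : Fv v), 1] := by
        rw [Units.val_mul, Units.val_mul, Matrix.coe_units_inv, CG2.HR_alpha_zero_val, ULB_m_val]
        exact ULB_gen1 hp _
      apply CG2.heckeReps_mem
      · intro i j
        rw [hM]
        fin_cases i <;> fin_cases j
        · exact hb1.le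
        · exact (map_zero _).trans_le zero_le
        · exact ULB_pi_le v
        · exact (map_one _).le
      · rw [CG2.dtv, hM, Matrix.det_fin_two]
        change Valued.v (((b : F) : Fv v) * 1 - 0 * _) = 1
        rw [mul_one, zero_mul, sub_zero, hb1]
    · rw [hc'e, mul_smul, ← hbc]
      refine congrArg (fun x => k • x) ?_
      change ((HRa v b : GQ v) : GQ v ⧸ GZ v) =
        ((ULB_m v _ hb0 * HRd v : GQ v) : GQ v ⧸ GZ v)
      rw [QuotientGroup.eq]
      have hM : (((HRa v b)⁻¹ * (ULB_m v _ hb0 * HRd v) : GQ v) :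
          Matrix (Fin 2) (Fin 2) (Fv v)) =
          !![0, -((b : F) : Fv v); 1, ((CG2.pi v : F) : Fv v)] := by
        rw [Units.val_mul, Units.val_mul, Matrix.coe_units_inv, HRa_val, HRd_val, ULB_m_val]
        exact ULB_gen2 hp _
      apply CG2.heckeReps_mem
      · intro i j
        rw [hM]
        fin_cases i <;> fin_cases j
        · exact (map_zero _).trans_le zero_le
        · change Valued.v (-((b : F) : Fv v)) ≤ 1
          rw [Valuation.map_neg]
          exact hb1.le
        · exact (map_one _).le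
        · exact ULB_pi_le v
      · rw [CG2.dtv, hM, Matrix.det_fin_two]
        change Valued.v (0 * _ - (-((b : F) : Fv v)) * 1) = 1
        rw [mul_one, zero_mul, zero_sub, neg_neg, hb1]
  · refine ⟨k, hk, rfl, ?_⟩
    rw [hd]
    exact hc'e

end Pool.Agent.CGQ
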