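import Pool.Agent.CGQ.Fam

/-!
# The unit trick: the parametrisation of the neighbours
-/

noncomputable section

namespace Pool.Agent.CGQ

open NumberField IsDedekindDomain Matrix
open Pool.Agent.CG2 (Pl Fv Ov GQ GZ cosets cosets_finite alpha HRd HRa HRd_val HRa_val)

variable {F : Type} [Field F] [NumberField F]

private theorem ULC_gen1 {E : Type*} [Field E] {p : E} (hp : p ≠ 0)
    (K : Matrix (Fin 2) (Fin 2) E) :
    (!![p, 0; 0, 1] : Matrix (Fin 2) (Fin 2) E)⁻¹ * (K * !![p, 0; 0, 1]) =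
      !![K 0 0, K 0 1 / p; p * K 1 0, K 1 1] := by
  rw [Matrix.inv_def, Ring.inverse_eq_inv', Matrix.adjugate_fin_two]
  ext i j
  fin_cases i <;> fin_cases j <;>
    simp [Matrix.mul_apply, Fin.sum_univ_two, Matrix.det_fin_two] <;> field_simp

private theorem ULC_gen2 {E : Type*} [Field E] {p : E} (hp : p ≠ 0)
    (K : Matrix (Fin 2) (Fin 2) E) :
    (!![1, 0; 0, p] : Matrix (Fin 2) (Fin 2) E)⁻¹ * (K * !![1, 0; 0, p]) =
      !![K 0 0, p * K 0 1; K 1 0 / p, K 1 1] := by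
  rw [Matrix.inv_def, Ring.inverse_eq_inv', Matrix.adjugate_fin_two]
  ext i j
  fin_cases i <;> fin_cases j <;>
    simp [Matrix.mul_apply, Fin.sum_univ_two, Matrix.det_fin_two] <;> field_simp

private theorem ULC_gen3 {E : Type*} [Field E] {p : E} (hp : p ≠ 0) (b b' : E)
    (K : Matrix (Fin 2) (Fin 2) E) :
    (!![p, b'; 0, 1] : Matrix (Fin 2) (Fin 2) E)⁻¹ * (K * !![p, b; 0, 1]) =
      !![K 0 0 - b' * K 1 0, (K 0 0 * b - b' * K 1 1 + K 0 1 - b' * K 1 0 * b) / p;
         p * K 1 0, K 1 0 * b + K 1 1] := by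
  rw [Matrix.inv_def, Ring.inverse_eq_inv', Matrix.adjugate_fin_two]
  ext i j
  fin_cases i <;> fin_cases j <;>
    simp [Matrix.mul_apply, Fin.sum_univ_two, Matrix.det_fin_two] <;> field_simp
  all_goals ring

private theorem ULC_alpha (v : Pl F) : HRa v 0 = alpha v 0 := by
  apply Units.ext
  rw [HRa_val, CG2.HR_alpha_zero_val]
  have h0 : ((0 : F) : Fv v) = 0 := map_zero (algebraMap F (Fv v))
  rw [h0]

private theorem ULC_pi_le (v : Pl F) : Valued.v ((CG2.pi v : F) : Fv v) ≤ 1 := by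
  rw [CG2.heckeReps_pi, ← WithZero.exp_zero]
  exact WithZero.exp_le_exp.2 (by norm_num)

private theorem ULC_lt_of_div {v : Pl F} {x : Fv v}
    (h : Valued.v (x / ((CG2.pi v : F) : Fv v)) ≤ 1) : Valued.v x < 1 := by
  rw [map_div₀, div_le_one₀ (by rw [CG2.heckeReps_pi]; exact WithZero.exp_pos),
    CG2.heckeReps_pi] at h
  refine h.trans_lt ?_
  rw [← WithZero.exp_zero, WithZero.exp_lt_exp]
  norm_num

/-- The coset of `HRa v b` depends only on `b` modulo `v`. -/
private theorem ULC_congr (v : Pl F) {b b' : 𝓞 F} (h : b' - b ∈ v.asIdeal) :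
    ((HRa v (b : F) : GQ v) : GQ v ⧸ GZ v) = ((HRa v (b' : F) : GQ v) : GQ v ⧸ GZ v) := by
  have hp := CG2.heckeReps_pi_ne v
  have h1 := (CG2.HR_lt_iff v b' b).2 h
  rw [QuotientGroup.eq]
  have hM : (((HRa v (b : F))⁻¹ * HRa v (b' : F) : GQ v) : Matrix (Fin 2) (Fin 2) (Fv v)) =
      !![1, ((((b' : 𝓞 F) : F) : Fv v) - (((b : 𝓞 F) : F) : Fv v)) /
        ((CG2.pi v : F) : Fv v); 0, 1] := by
    rw [Units.val_mul, Matrix.coe_units_inv, HRa_val, HRa_val, CG2.HR_gen3 hp]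
  apply CG2.heckeReps_mem
  · intro i j
    rw [hM]
    fin_cases i <;> fin_cases j
    · exact (map_one _).le
    · exact CG2.heckeReps_div h1
    · exact (map_zero _).trans_le zero_le
    · exact (map_one _).le
  · rw [CG2.dtv, hM, Matrix.det_fin_two]
    change Valued.v ((1 : Fv v) * 1 - _ * 0) = 1
    rw [mul_zero, sub_zero, mul_one, map_one]

private theorem ULC_inj (v : Pl F) {b b' : 𝓞 F}
    (h : ((HRa v (b : F) : GQ v) : GQ v ⧸ GZ v) = ((HRa v (b' : F) : GQ v) : GQ v ⧸ GZ v)) :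
    b' - b ∈ v.asIdeal :=
  (CG2.HR_lt_iff v b' b).1 (CG2.HR_a_inj h)

/-- The parametrisation. -/
private def ULC_f (v : Pl F) (x : (𝓞 F ⧸ v.asIdeal)ˣ) : GQ v ⧸ GZ v :=
  ((HRa v ((Quotient.out (x : 𝓞 F ⧸ v.asIdeal) : 𝓞 F) : F) : GQ v) : GQ v ⧸ GZ v)

private theorem ULC_out (v : Pl F) (x : 𝓞 F ⧸ v.asIdeal) :
    Ideal.Quotient.mk v.asIdeal (Quotient.out x) = x := Quotient.out_eq' x

private theorem ULC_f_eq (v : Pl F) (x : (𝓞 F ⧸ v.asIdeal)ˣ) (b : 𝓞 F)
    (h : Ideal.Quotient.mk v.asIdeal b = (x : 𝓞 F ⧸ v.asIdeal)) :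
    ULC_f v x = ((HRa v (b : F) : GQ v) : GQ v ⧸ GZ v) := by
  refine ULC_congr v ?_
  rw [← Ideal.Quotient.eq, h, ULC_out]

/-- **ULC.** The remaining cosets are parametrised by the non-zero elements of the residue field,
and an element `g` of `GL₂(O_v)` which fixes the two cosets acts through `g₀₀ / g₁₁`.
PROOF. `f x = [HRa v b]` with `b` in `𝓞 F` a lift of `x` (`HR_exists`, `HR_a_inj`, `HR_a_ne_d`,
`HR_mem_cosets`: the coset depends only on `b` modulo `v`). If `g` fixes `[alpha v 0]` and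
`[HRd v]` then the entries `g₁₀`, `g₀₁` have valuation `< 1` and `g₀₀`, `g₁₁` are units, and
`(HRa v b')⁻¹ g (HRa v b)` is in `GZ v` if `b' g₁₁ = g₀₀ b` modulo `v` (write down the product
matrix). -/
theorem exists_param (v : Pl F) : ∃ f : (𝓞 F ⧸ v.asIdeal)ˣ → GQ v ⧸ GZ v,
    Function.Injective f ∧
    (∀ c, c ∈ Set.range f ↔ c ∈ cosets v 0 ∧ c ≠ ((alpha v 0 : GQ v) : GQ v ⧸ GZ v) ∧
      c ≠ ((HRd v : GQ v) : GQ v ⧸ GZ v)) ∧
    ∀ g ∈ GZ v, g • ((alpha v 0 : GQ v) : GQ v ⧸ GZ v) = ((alpha v 0 : GQ v) : GQ v ⧸ GZ v) →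
      g • ((HRd v : GQ v) : GQ v ⧸ GZ v) = ((HRd v : GQ v) : GQ v ⧸ GZ v) →
      ∃ t : (𝓞 F ⧸ v.asIdeal)ˣ, (∀ x, g • f x = f (x * t)) ∧
        ∀ a d : 𝓞 F, Valued.v ((g : Matrix (Fin 2) (Fin 2) (Fv v)) 0 0 - ((a : F) : Fv v)) < 1 →
          Valued.v ((g : Matrix (Fin 2) (Fin 2) (Fv v)) 1 1 - ((d : F) : Fv v)) < 1 →
          (t : 𝓞 F ⧸ v.asIdeal) * Ideal.Quotient.mk v.asIdeal d =
            Ideal.Quotient.mk v.asIdeal a := by
  classical
  have hp := CG2.heckeReps_pi_ne v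
  have hmax := v.isMaximal
  have hprime := v.isPrime
  have hunit : ∀ b : 𝓞 F, b ∉ v.asIdeal → IsUnit (Ideal.Quotient.mk v.asIdeal b) := by
    intro b hb
    let : Field (𝓞 F ⧸ v.asIdeal) := Ideal.Quotient.field v.asIdeal
    refine isUnit_iff_ne_zero.2 ?_
    rw [Ne, Ideal.Quotient.eq_zero_iff_mem]
    exact hb
  have hnt : Nontrivial (𝓞 F ⧸ v.asIdeal) := Ideal.Quotient.nontrivial_iff.2 hprime.ne_top
  have hnmem : ∀ (x : (𝓞 F ⧸ v.asIdeal)ˣ) (b : 𝓞 F),
      Ideal.Quotient.mk v.asIdeal b = (x : 𝓞 F ⧸ v.asIdeal) → b ∉ v.asIdeal := by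
    intro x b hb hmem
    rw [← Ideal.Quotient.eq_zero_iff_mem, hb] at hmem
    exact x.ne_zero hmem
  have h0F : ((0 : 𝓞 F) : F) = 0 := map_zero (algebraMap (𝓞 F) F)
  have halpha : ((alpha v 0 : GQ v) : GQ v ⧸ GZ v) =
      ((HRa v ((0 : 𝓞 F) : F) : GQ v) : GQ v ⧸ GZ v) := by
    rw [h0F, ULC_alpha]
  refine ⟨ULC_f v, ?_, ?_, ?_⟩
  · intro x x' h
    have h1 := ULC_inj v h
    rw [← Ideal.Quotient.eq, ULC_out, ULC_out] at h1
    exact Units.ext h1.symm
  · intro c
    constructor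
    · rintro ⟨x, rfl⟩
      refine ⟨CG2.HR_mk_a (CG2.HR_int_le v _), ?_, CG2.HR_a_ne_d v _⟩
      rw [halpha]
      intro h
      have h1 := ULC_inj v h
      rw [zero_sub, neg_mem_iff] at h1
      exact hnmem x _ (ULC_out v _) h1
    · rintro ⟨hc, hca, hcd⟩
      obtain ⟨B, hB1, hB2, hB3, hB4⟩ := CG2.HR_exists v
      have hB2' : ∀ b ∈ B, Valued.v ((b : F) : Fv v) ≤ 1 := by
        intro b hb
        obtain ⟨a, rfl⟩ := hB2 b hb
        exact CG2.HR_int_le v a
      rcases (CG2.HR_mem_cosets hB2' hB3 _).1 hc with ⟨b, hb, hbc⟩ | hd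
      · obtain ⟨a, rfl⟩ := hB2 b hb
        have ha : a ∉ v.asIdeal := by
          intro ha
          apply hca
          rw [← hbc, halpha]
          refine ULC_congr v ?_
          rw [zero_sub, neg_mem_iff]
          exact ha
        obtain ⟨u, hu⟩ := hunit a ha
        exact ⟨u, by rw [ULC_f_eq v u a hu.symm, hbc]⟩
      · exact absurd hd.symm hcd
  · intro g hg hga hgd
    have hg1 := ((CG2.mem_GZ_iff v g).1 hg).1
    have hgdet := CG2.heckeReps_det hg
    rw [CG2.dtv, Matrix.det_fin_two] at hgdet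
    set K : Matrix (Fin 2) (Fin 2) (Fv v) := (g : Matrix (Fin 2) (Fin 2) (Fv v)) with hK
    have h01 : Valued.v (K 0 1) < 1 := by
      have h1 : ((alpha v 0 : GQ v) : GQ v ⧸ GZ v) = ((g * alpha v 0 : GQ v) : GQ v ⧸ GZ v) :=
        hga.symm
      have h2 := ((CG2.mem_GZ_iff v _).1 (QuotientGroup.eq.1 h1)).1 0 1
      rw [Units.val_mul, Units.val_mul, Matrix.coe_units_inv, CG2.HR_alpha_zero_val,
        ULC_gen1 hp] at h2
      exact ULC_lt_of_div h2
    have h10 : Valued.v (K 1 0) < 1 := by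
      have h1 : ((HRd v : GQ v) : GQ v ⧸ GZ v) = ((g * HRd v : GQ v) : GQ v ⧸ GZ v) :=
        hgd.symm
      have h2 := ((CG2.mem_GZ_iff v _).1 (QuotientGroup.eq.1 h1)).1 1 0
      rw [Units.val_mul, Units.val_mul, Matrix.coe_units_inv, HRd_val, ULC_gen2 hp] at h2
      exact ULC_lt_of_div h2
    have hprod : Valued.v (K 0 0 * K 1 1) = 1 := by
      have h1 : K 0 0 * K 1 1 = (K 0 0 * K 1 1 - K 0 1 * K 1 0) + K 0 1 * K 1 0 := by ring
      have h2 : Valued.v (K 0 1 * K 1 0) < 1 := by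
        rw [map_mul]
        exact mul_lt_one_of_nonneg_of_lt_one_left zero_le h01 h10.le
      rw [h1, Valuation.map_add_eq_of_lt_left, hgdet]
      rw [hgdet]
      exact h2
    have h00 : Valued.v (K 0 0) = 1 := by
      refine le_antisymm (hg1 0 0) ?_
      rw [← hprod, map_mul]
      exact mul_le_of_le_one_right' (hg1 1 1)
    have h11 : Valued.v (K 1 1) = 1 := by
      refine le_antisymm (hg1 1 1) ?_
      rw [← hprod, map_mul]
      exact mul_le_of_le_one_left' (hg1 0 0)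
    obtain ⟨a, ha⟩ := CG2.exists_int_sub_lt v (K 0 0) (hg1 0 0) 1
    obtain ⟨d, hd⟩ := CG2.exists_int_sub_lt v (K 1 1) (hg1 1 1) 1
    have ha' : Valued.v (K 0 0 - ((a : F) : Fv v)) < 1 := ha
    have hd' : Valued.v (K 1 1 - ((d : F) : Fv v)) < 1 := hd
    have huniq : ∀ (x : Fv v) (b b' : 𝓞 F), Valued.v (x - ((b : F) : Fv v)) < 1 →
        Valued.v (x - ((b' : F) : Fv v)) < 1 →
        Ideal.Quotient.mk v.asIdeal b' = Ideal.Quotient.mk v.asIdeal b := by
      intro x b b' hb hb'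
      rw [Ideal.Quotient.eq, ← CG2.HR_lt_iff]
      have h1 : ((b' : F) : Fv v) - ((b : F) : Fv v) =
          (x - ((b : F) : Fv v)) - (x - ((b' : F) : Fv v)) := by ring
      rw [h1]
      exact (Valuation.map_sub _ _ _).trans_lt (max_lt hb hb')
    have hne : ∀ (x : Fv v) (b : 𝓞 F), Valued.v x = 1 → Valued.v (x - ((b : F) : Fv v)) < 1 →
        b ∉ v.asIdeal := by
      intro x b hx hb hmem
      have h1 : Valued.v (((b : F) : Fv v)) < 1 := by
        have h2 := (CG2.HR_lt_iff v b 0).2 (by rwa [sub_zero])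
        have h0 : (((0 : 𝓞 F) : F) : Fv v) = 0 := by
          rw [h0F]; exact map_zero (algebraMap F (Fv v))
        rwa [h0, sub_zero] at h2
      have h2 : x = (x - ((b : F) : Fv v)) + ((b : F) : Fv v) := by ring
      have h3 : Valued.v x < 1 := by
        rw [h2]
        exact (Valuation.map_add _ _ _).trans_lt (max_lt hb h1)
      rw [hx] at h3
      exact lt_irrefl _ h3
    obtain ⟨ua, hua⟩ := hunit a (hne _ a h00 ha')
    obtain ⟨ud, hud⟩ := hunit d (hne _ d h11 hd')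
    refine ⟨ua * ud⁻¹, ?_, ?_⟩
    · intro x
      obtain ⟨b, hb⟩ : ∃ b : 𝓞 F, Ideal.Quotient.mk v.asIdeal b = (x : 𝓞 F ⧸ v.asIdeal) :=
        ⟨_, ULC_out v _⟩
      obtain ⟨b', hb'⟩ : ∃ b' : 𝓞 F, Ideal.Quotient.mk v.asIdeal b' =
          ((x * (ua * ud⁻¹) : (𝓞 F ⧸ v.asIdeal)ˣ) : 𝓞 F ⧸ v.asIdeal) := ⟨_, ULC_out v _⟩
      rw [ULC_f_eq v x b hb, ULC_f_eq v _ b' hb']
      have hmod : a * b - b' * d ∈ v.asIdeal := by
        rw [← Ideal.Quotient.eq, map_mul, map_mul, hb', hb, ← hua, ← hud, ← Units.val_mul,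
          ← Units.val_mul]
        congr 1
        rw [mul_assoc, mul_assoc ua, inv_mul_cancel, mul_one, mul_comm]
      have hlt : Valued.v (K 0 0 * ((b : F) : Fv v) - ((b' : F) : Fv v) * K 1 1) < 1 := by
        have h1 : K 0 0 * ((b : F) : Fv v) - ((b' : F) : Fv v) * K 1 1 =
            (K 0 0 - ((a : F) : Fv v)) * ((b : F) : Fv v) -
              ((b' : F) : Fv v) * (K 1 1 - ((d : F) : Fv v)) +
              ((((a * b : 𝓞 F) : F) : Fv v) - (((b' * d : 𝓞 F) : F) : Fv v)) := by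
          have e1 : (((a * b : 𝓞 F) : F) : Fv v) = ((a : F) : Fv v) * ((b : F) : Fv v) := by
            have e0 : ((a * b : 𝓞 F) : F) = (a : F) * (b : F) :=
              map_mul (algebraMap (𝓞 F) F) a b
            rw [e0]
            exact map_mul (algebraMap F (Fv v)) _ _
          have e2 : (((b' * d : 𝓞 F) : F) : Fv v) = ((b' : F) : Fv v) * ((d : F) : Fv v) := by
            have e0 : ((b' * d : 𝓞 F) : F) = (b' : F) * (d : F) :=
              map_mul (algebraMap (𝓞 F) F) b' d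
            rw [e0]
            exact map_mul (algebraMap F (Fv v)) _ _
          rw [e1, e2]
          ring
        rw [h1]
        refine (Valuation.map_add _ _ _).trans_lt (max_lt ?_ ((CG2.HR_lt_iff v _ _).2 hmod))
        refine (Valuation.map_sub _ _ _).trans_lt (max_lt ?_ ?_)
        · rw [map_mul]
          exact mul_lt_one_of_nonneg_of_lt_one_left zero_le ha' (CG2.HR_int_le v b)
        · rw [map_mul]
          exact mul_lt_one_of_nonneg_of_lt_one_right (CG2.HR_int_le v b') zero_le hd'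
      change ((g * HRa v (b : F) : GQ v) : GQ v ⧸ GZ v) = _
      symm
      rw [QuotientGroup.eq]
      have hM : (((HRa v (b' : F))⁻¹ * (g * HRa v (b : F)) : GQ v) :
          Matrix (Fin 2) (Fin 2) (Fv v)) =
          !![K 0 0 - ((b' : F) : Fv v) * K 1 0,
            (K 0 0 * ((b : F) : Fv v) - ((b' : F) : Fv v) * K 1 1 + K 0 1 -
              ((b' : F) : Fv v) * K 1 0 * ((b : F) : Fv v)) / ((CG2.pi v : F) : Fv v);
            ((CG2.pi v : F) : Fv v) * K 1 0, K 1 0 * ((b : F) : Fv v) + K 1 1] := by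
        rw [Units.val_mul, Units.val_mul, Matrix.coe_units_inv, HRa_val, HRa_val]
        exact ULC_gen3 hp _ _ _
      apply CG2.heckeReps_mem
      · intro i j
        rw [hM]
        fin_cases i <;> fin_cases j
        · refine (Valuation.map_sub _ _ _).trans (max_le (hg1 0 0) ?_)
          rw [map_mul]
          exact mul_le_one' (CG2.HR_int_le v b') h10.le
        · refine CG2.heckeReps_div ?_
          refine (Valuation.map_sub _ _ _).trans_lt (max_lt ?_ ?_)
          · exact (Valuation.map_add _ _ _).trans_lt (max_lt hlt h01)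
          · rw [map_mul, map_mul]
            refine mul_lt_one_of_nonneg_of_lt_one_left zero_le ?_ (CG2.HR_int_le v b)
            exact mul_lt_one_of_nonneg_of_lt_one_right (CG2.HR_int_le v b') zero_le h10
        · change Valued.v (((CG2.pi v : F) : Fv v) * K 1 0) ≤ 1
          rw [map_mul]
          exact mul_le_one' (ULC_pi_le v) h10.le
        · refine (Valuation.map_add _ _ _).trans (max_le ?_ (hg1 1 1))
          rw [map_mul]
          exact mul_le_one' h10.le (CG2.HR_int_le v b)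
      · rw [CG2.dtv, hM, Matrix.det_fin_two, ← hgdet]
        congr 1
        simp only [Matrix.of_apply, Matrix.cons_val', Matrix.cons_val_zero, Matrix.cons_val_one,
          Matrix.cons_val_fin_one]
        field_simp
        ring
    · intro a₁ d₁ ha₁ hd₁
      rw [huniq _ a a₁ ha' ha₁, huniq _ d d₁ hd' hd₁, ← hua, ← hud, ← Units.val_mul]
      congr 1
      rw [mul_assoc, inv_mul_cancel, mul_one]

end Pool.Agent.CGQ
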