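import Pool.Agent.CGQ.Fam

/-!
# The unit trick: the cancellation
-/

noncomputable section

namespace Pool.Agent.CGQ

open NumberField IsDedekindDomain Matrix
open Pool.Agent.CG2 (Pl Fv Ov GQ GZ cosets cosets_finite alpha HRd HRa HRd_val HRa_val)

variable {F : Type} [Field F] [NumberField F]

private theorem ULD_iter {C : Type} [CommGroup C] (u c : C) (n : ℕ) :
    (fun c => c * u)^[n] c = c * u ^ n := by
  induction n with
  | zero => simp
  | succ n ih => rw [Function.iterate_succ_apply', ih, pow_succ, mul_assoc]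

/-- **ULD.** The cancellation.
PROOF. Let `q` be the quotient of `C` by the subgroup generated by `u`; `H` factors through a
function on `q` (invariance under `u`), and `R` maps bijectively to `q` (`Reps`; `C` is finite, so
forward orbits are cosets). So the sum is `∑ x : q, H' x` and `H'` is invariant under
multiplication by the image `e'` of `e`. The order `o` of `e'` is divisible by `p`: otherwise
`e ^ o` is a power of `u`, so a `p^M`-th power, and with `o * a + p ^ M * b = 1` also `e` is one.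
So the sum over `q` is a sum over the cosets of the group generated by `e'`, each contributing
`o • H' = 0`. (E.g. `Finset.sum` over fibres of `q → q ⧸ ⟨e'⟩`, all fibres have `o` elements.) -/
theorem cancel {C : Type} [CommGroup C] [Fintype C] {κ : Type} [Field κ] {p : ℕ}
    [hp : Fact p.Prime] [CharP κ p] (M : ℕ) {u e : C} (hu : ∃ x, x ^ p ^ M = u)
    (he : ¬ ∃ x, x ^ p ^ M = e) (H : C → κ) (hHu : ∀ c, H (c * u) = H c)
    (hHe : ∀ c, H (c * e) = H c) (R : Finset C)
    (hR : Reps (fun c => c * u) Finset.univ R) : ∑ c ∈ R, H c = 0 := by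
  classical
  -- the quotient
  set U : Subgroup C := Subgroup.zpowers u with hU
  have hzu : ∀ n : ℤ, ∀ c, H (c * u ^ n) = H c := by
    have h1 : ∀ n : ℕ, ∀ c, H (c * u ^ n) = H c := by
      intro n
      induction n with
      | zero => intro c; simp
      | succ n ih => intro c; rw [pow_succ, ← mul_assoc, hHu, ih]
    intro n c
    obtain ⟨k, rfl | rfl⟩ := n.eq_nat_or_neg
    · rw [zpow_natCast]; exact h1 k c
    · rw [← h1 k (c * u ^ (-(k : ℤ)))]
      simp
  let H' : C ⧸ U → κ := Quotient.lift H (by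
    intro a b hab
    have h1 : a⁻¹ * b ∈ U := QuotientGroup.leftRel_apply.1 hab
    obtain ⟨n, hn⟩ := Subgroup.mem_zpowers_iff.1 h1
    have h2 : b = a * u ^ n := by rw [hn]; group
    rw [h2, hzu])
  have hH' : ∀ c : C, H' (c : C ⧸ U) = H c := fun c => rfl
  -- the sum over the representatives is the sum over the quotient
  have hsum : ∑ c ∈ R, H c = ∑ q : C ⧸ U, H' q := by
    refine Finset.sum_bij (fun c _ => (c : C ⧸ U)) (fun _ _ => Finset.mem_univ _) ?_ ?_ ?_
    · intro a ha b hb hab
      have h1 : a⁻¹ * b ∈ U := QuotientGroup.eq.1 hab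
      obtain ⟨n, hn⟩ := (mem_zpowers_iff_mem_range_orderOf.1 h1 |> fun h => Finset.mem_image.1 h)
      apply hR.inj a ha b hb n
      rw [ULD_iter, hn.2]
      group
    · intro q _
      obtain ⟨c, rfl⟩ := QuotientGroup.mk_surjective q
      obtain ⟨r, hr, n, hn⟩ := hR.ex c (Finset.mem_univ _)
      refine ⟨r, hr, ?_⟩
      rw [ULD_iter] at hn
      apply QuotientGroup.eq.2
      rw [← hn, inv_mul_cancel_left]
      exact Subgroup.pow_mem _ (Subgroup.mem_zpowers u) n
    · intro a ha
      rfl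
  rw [hsum]
  set e' : C ⧸ U := (e : C ⧸ U) with he'
  have hHe' : ∀ q, H' (q * e') = H' q := by
    intro q
    obtain ⟨c, rfl⟩ := QuotientGroup.mk_surjective q
    exact hHe c
  have hze : ∀ z ∈ Subgroup.zpowers e', ∀ q, H' (q * z) = H' q := by
    have h1 : ∀ n : ℕ, ∀ c, H' (c * e' ^ n) = H' c := by
      intro n
      induction n with
      | zero => intro c; simp
      | succ n ih => intro c; rw [pow_succ, ← mul_assoc, hHe', ih]
    intro z hz q
    obtain ⟨n, hn⟩ := (mem_zpowers_iff_mem_range_orderOf.1 hz |> fun h => Finset.mem_image.1 h)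
    rw [← hn.2, h1]
  -- the order is divisible by p
  have hdvd : p ∣ Nat.card (Subgroup.zpowers e') := by
    rw [Nat.card_zpowers]
    by_contra hnd
    have hco : Nat.Coprime (orderOf e') (p ^ M) :=
      (Nat.Coprime.pow_right M ((Nat.Prime.coprime_iff_not_dvd hp.out).2 hnd).symm)
    have h1 : e ^ (orderOf e') ∈ U := by
      have : ((e ^ (orderOf e') : C) : C ⧸ U) = 1 := by
        rw [QuotientGroup.mk_pow, ← he', pow_orderOf_eq_one]
      exact (QuotientGroup.eq_one_iff _).1 this
    obtain ⟨k, hk⟩ := Subgroup.mem_zpowers_iff.1 h1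
    obtain ⟨x, hx⟩ := hu
    apply he
    have hb := Nat.gcd_eq_gcd_ab (orderOf e') (p ^ M)
    rw [hco] at hb
    set a := Nat.gcdA (orderOf e') (p ^ M)
    set b := Nat.gcdB (orderOf e') (p ^ M)
    refine ⟨x ^ (k * a) * e ^ b, ?_⟩
    have h2 : e = (e ^ (orderOf e')) ^ a * (e ^ (p ^ M)) ^ b := by
      rw [← zpow_natCast, ← zpow_natCast, ← _root_.zpow_mul, ← _root_.zpow_mul, ← _root_.zpow_add, ← hb]
      simp
    conv_rhs => rw [h2, ← hk, ← hx]
    rw [mul_pow]
    congr 1
    · rw [← zpow_natCast, ← zpow_natCast, ← _root_.zpow_mul, ← _root_.zpow_mul, ← _root_.zpow_mul]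
      congr 1
      ring
    · rw [← zpow_natCast, ← zpow_natCast, ← _root_.zpow_mul, ← _root_.zpow_mul, mul_comm]
  -- the sum over the cosets
  set Z : Subgroup (C ⧸ U) := Subgroup.zpowers e' with hZ
  rw [← Fintype.sum_fiberwise (fun q : C ⧸ U => (q : (C ⧸ U) ⧸ Z)) H']
  refine Finset.sum_eq_zero ?_
  intro j _
  obtain ⟨q, rfl⟩ := QuotientGroup.mk_surjective j
  have heq : Nat.card {i : C ⧸ U // (i : (C ⧸ U) ⧸ Z) = (q : (C ⧸ U) ⧸ Z)} = Nat.card Z := by
    refine Nat.card_congr
      ⟨fun i => ⟨q⁻¹ * i.1, QuotientGroup.eq.1 i.2.symm⟩,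
       fun z => ⟨q * z.1, QuotientGroup.eq.2 (by
        rw [_root_.mul_inv_rev, inv_mul_cancel_right]
        exact Z.inv_mem z.2)⟩, ?_, ?_⟩
    · intro i
      apply Subtype.ext
      exact mul_inv_cancel_left _ _
    · intro z
      apply Subtype.ext
      exact inv_mul_cancel_left _ _
  have h1 : ∀ i : {i : C ⧸ U // (i : (C ⧸ U) ⧸ Z) = (q : (C ⧸ U) ⧸ Z)}, H' i.1 = H' q := by
    intro i
    have h2 : q⁻¹ * i.1 ∈ Z := QuotientGroup.eq.1 i.2.symm
    rw [← hze _ h2 q, mul_inv_cancel_left]
  rw [Finset.sum_congr rfl (fun i _ => h1 i), Finset.sum_const, Finset.card_univ,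
    ← Nat.card_eq_fintype_card, heq, nsmul_eq_mul, (CharP.cast_eq_zero_iff κ p _).2 hdvd, zero_mul]

end Pool.Agent.CGQ
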