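import Pool.Agent.CGQ.ULD
import Pool.Agent.CGQ.ULE

/-!
# The unit trick: the two surviving terms
-/

noncomputable section

namespace Pool.Agent.CGQ

open NumberField IsDedekindDomain Matrix
open Pool.Agent.CG2 (Pl Fv Ov GQ GZ cosets cosets_finite alpha HRd HRa)

variable {F : Type} [Field F] [NumberField F] {𝒟 : Sys F} {S : Set (Pl F)} {Φ : Chart 𝒟 S}

private theorem ULF_HRa_zero (v : Pl F) : CG2.HRa v 0 = alpha v 0 := by
  apply Units.ext
  rw [CG2.HRa_val, CG2.HR_alpha_zero_val]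
  ext i j
  fin_cases i <;> fin_cases j <;> simp

/-- **ULF.** All terms in the formula for `T_v` cancel except those of the two fixed neighbours.
PROOF. `locZ γ` and `locZ ε` (write `A`, `B`) fix the cosets `c0 = m • [alpha v 0]` and
`c1 = m • [HRd v]` and map `m • f x` to `m • f (x * tγ)` resp. `m • f (x * tε)` (conjugate the
hypotheses by `m`). Let `R'` be a set of representatives of the orbits of `x ↦ x * tγ` on the finite
group `(𝓞 F ⧸ v)ˣ` (`exists_Reps`); `R = {c0, c1} ∪ image (m • f ·) R'` satisfies `Reps` for `A` on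
`cosets v 0` (the three pieces are disjoint by `hf`; `cosets v 0` is stable under `m`, see
`CG2.smul_mem_cosets`). The minimal period is `1` at `c0`, `c1` and `orderOf tγ` at `m • f x`, because
`(A • ·)^[n] (m • f x) = m • f (x * tγ ^ n)` and `f` is injective. So by `E.h_T` the left side is
`h (nb c0) 1 + h (nb c1) 1 + ∑ x ∈ R', H x` with `H x = h (nb (m • f x)) (orderOf tγ)`. By `act_nb`,
`EigFam.congr`, `E.h_act` (for `δ = γ`, `δ = ε`, with `η = 1` on both) `H (x * tγ) = H x` and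
`H (x * tε) = H x`; now `cancel` gives `0`. -/
theorem T_two {K : Subgroup 𝒟.A} {κ : Type} [Field κ] {p : ℕ} [hp : Fact p.Prime] [CharP κ p]
    {η : 𝒟.G →* ℤˣ} {γ : 𝒟.G} {lam r : {v : Pl F // v ∉ S} → κ} (E : EigFam K Φ κ η γ lam r)
    {v : {v : Pl F // v ∉ S}} (hH : Hyp K Φ v) {y : 𝒟.Pt} (hγ : γ ∈ Stab K y) {ε : 𝒟.G}
    (hε : ε ∈ Stab K y) (hc : ε * γ = γ * ε) (hηγ : η γ = 1) (hηε : η ε = 1)
    {m : GQ v.1} (hm : m ∈ GZ v.1) (f : (𝓞 F ⧸ v.1.asIdeal)ˣ → GQ v.1 ⧸ GZ v.1)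
    (hf : Function.Injective f)
    (hf' : ∀ c, c ∈ Set.range f ↔ c ∈ cosets v.1 0 ∧
      c ≠ ((alpha v.1 0 : GQ v.1) : GQ v.1 ⧸ GZ v.1) ∧
      c ≠ ((HRd v.1 : GQ v.1) : GQ v.1 ⧸ GZ v.1))
    {tγ tε : (𝓞 F ⧸ v.1.asIdeal)ˣ}
    (h0 : ∀ δ : 𝒟.G, (δ = γ ∨ δ = ε) →
      (m⁻¹ * locZ Φ v y δ * m) • ((alpha v.1 0 : GQ v.1) : GQ v.1 ⧸ GZ v.1) =
        ((alpha v.1 0 : GQ v.1) : GQ v.1 ⧸ GZ v.1) ∧
      (m⁻¹ * locZ Φ v y δ * m) • ((HRd v.1 : GQ v.1) : GQ v.1 ⧸ GZ v.1) =
        ((HRd v.1 : GQ v.1) : GQ v.1 ⧸ GZ v.1))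
    (h1 : ∀ x, (m⁻¹ * locZ Φ v y γ * m) • f x = f (x * tγ))
    (h2 : ∀ x, (m⁻¹ * locZ Φ v y ε * m) • f x = f (x * tε))
    (M : ℕ) (hu : ∃ x, x ^ p ^ M = tγ) (he : ¬ ∃ x, x ^ p ^ M = tε) :
    lam v * E.h y 1 =
      E.h (nb Φ v y (m • ((alpha v.1 0 : GQ v.1) : GQ v.1 ⧸ GZ v.1))) 1 +
      E.h (nb Φ v y (m • ((HRd v.1 : GQ v.1) : GQ v.1 ⧸ GZ v.1))) 1 := by
  classical
  -- notation
  set A : GQ v.1 := locZ Φ v y γ with hA
  set B : GQ v.1 := locZ Φ v y ε with hB
  set a0 : GQ v.1 ⧸ GZ v.1 := ((alpha v.1 0 : GQ v.1) : GQ v.1 ⧸ GZ v.1) with ha0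
  set d0 : GQ v.1 ⧸ GZ v.1 := ((HRd v.1 : GQ v.1) : GQ v.1 ⧸ GZ v.1) with hd0
  have hsm : ∀ (D : GQ v.1) (z : GQ v.1 ⧸ GZ v.1), D • (m • z) = m • ((m⁻¹ * D * m) • z) := by
    intro D z
    rw [smul_smul, smul_smul]
    congr 1
    group
  have hAa : A • (m • a0) = m • a0 := by rw [hsm, (h0 γ (Or.inl rfl)).1]
  have hAd : A • (m • d0) = m • d0 := by rw [hsm, (h0 γ (Or.inl rfl)).2]
  have hAf : ∀ x, A • (m • f x) = m • f (x * tγ) := fun x => by rw [hsm, h1 x]
  have hBf : ∀ x, B • (m • f x) = m • f (x * tε) := fun x => by rw [hsm, h2 x]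
  have hne : a0 ≠ d0 := by
    have := CG2.HR_a_ne_d v.1 0
    rwa [ULF_HRa_zero] at this
  have ha0c : a0 ∈ cosets v.1 0 := ⟨1, (GZ v.1).one_mem, by rw [one_mul]⟩
  have hd0c : d0 ∈ cosets v.1 0 := CG2.HR_mk_d v.1
  have hfc : ∀ x, f x ∈ cosets v.1 0 ∧ f x ≠ a0 ∧ f x ≠ d0 := fun x => (hf' (f x)).1 ⟨x, rfl⟩
  have hmi : Function.Injective (fun z : GQ v.1 ⧸ GZ v.1 => m • z) := MulAction.injective m
  have hgi : Function.Injective (fun x => m • f x) := fun x x' h => hf (hmi h)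
  -- representatives
  have hfin : Finite (𝓞 F ⧸ v.1.asIdeal) :=
    Ideal.finiteQuotientOfFreeOfNeBot v.1.asIdeal v.1.ne_bot
  have hft : Fintype (𝓞 F ⧸ v.1.asIdeal)ˣ := Fintype.ofFinite _
  obtain ⟨R', hR'⟩ := exists_Reps (fun x : (𝓞 F ⧸ v.1.asIdeal)ˣ => x * tγ)
    (mul_left_injective tγ) (Finset.univ : Finset (𝓞 F ⧸ v.1.asIdeal)ˣ)
    (fun _ _ => Finset.mem_univ _)
  set R : Finset (GQ v.1 ⧸ GZ v.1) :=
    insert (m • a0) (insert (m • d0) (R'.image (fun x => m • f x))) with hR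
  have hiter : ∀ (n : ℕ) x, (fun c => A • c)^[n] (m • f x) = m • f ((fun x => x * tγ)^[n] x) := by
    intro n
    induction n with
    | zero => intro x; rfl
    | succ n ih =>
      intro x
      rw [Function.iterate_succ_apply, Function.iterate_succ_apply, ← ih]
      congr 1
      exact hAf x
  have hia : ∀ n : ℕ, (fun c => A • c)^[n] (m • a0) = m • a0 := fun n =>
    Function.iterate_fixed hAa n
  have hid : ∀ n : ℕ, (fun c => A • c)^[n] (m • d0) = m • d0 := fun n =>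
    Function.iterate_fixed hAd n
  have hRR : Reps (fun c => A • c) (cosets_finite v.1 0).toFinset R := by
    refine ⟨?_, ?_, ?_⟩
    · intro c hc
      rw [Set.Finite.mem_toFinset]
      rcases Finset.mem_insert.1 hc with rfl | hc
      · exact CG2.smul_mem_cosets ha0c hm
      rcases Finset.mem_insert.1 hc with rfl | hc
      · exact CG2.smul_mem_cosets hd0c hm
      obtain ⟨x, -, rfl⟩ := Finset.mem_image.1 hc
      exact CG2.smul_mem_cosets (hfc x).1 hm
    · intro c hc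
      rw [Set.Finite.mem_toFinset] at hc
      have hc' : m⁻¹ • c ∈ cosets v.1 0 := CG2.smul_mem_cosets hc ((GZ v.1).inv_mem hm)
      by_cases h3 : m⁻¹ • c = a0
      · refine ⟨m • a0, Finset.mem_insert_self _ _, 0, ?_⟩
        rw [← h3, smul_inv_smul]
        rfl
      by_cases h4 : m⁻¹ • c = d0
      · refine ⟨m • d0, Finset.mem_insert_of_mem (Finset.mem_insert_self _ _), 0, ?_⟩
        rw [← h4, smul_inv_smul]
        rfl
      obtain ⟨x, hx⟩ := (hf' (m⁻¹ • c)).2 ⟨hc', h3, h4⟩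
      obtain ⟨r, hr, n, hn⟩ := hR'.ex x (Finset.mem_univ _)
      refine ⟨m • f r, Finset.mem_insert_of_mem (Finset.mem_insert_of_mem
        (Finset.mem_image_of_mem _ hr)), n, ?_⟩
      rw [hiter, hn, hx, smul_inv_smul]
    · intro r hr r' hr' n hn
      rcases Finset.mem_insert.1 hr with h3 | h3
      · rw [h3, hia] at hn
        rw [h3, hn]
      rcases Finset.mem_insert.1 h3 with h4 | h4
      · rw [h4, hid] at hn
        rw [h4, hn]
      obtain ⟨x, hx, rfl⟩ := Finset.mem_image.1 h4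
      rw [hiter] at hn
      rcases Finset.mem_insert.1 hr' with h5 | h5
      · rw [h5] at hn
        exact absurd (hmi hn) (hfc _).2.1
      rcases Finset.mem_insert.1 h5 with h6 | h6
      · rw [h6] at hn
        exact absurd (hmi hn) (hfc _).2.2
      obtain ⟨x', hx', rfl⟩ := Finset.mem_image.1 h6
      have h7 := hR'.inj x hx x' hx' n (hgi hn)
      rw [h7]
  have hT := E.h_T v y hγ R hRR
  -- the minimal periods
  have hpa : Function.minimalPeriod (fun c => A • c) (m • a0) = 1 :=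
    Function.minimalPeriod_eq_one_iff_isFixedPt.2 hAa
  have hpd : Function.minimalPeriod (fun c => A • c) (m • d0) = 1 :=
    Function.minimalPeriod_eq_one_iff_isFixedPt.2 hAd
  have hpf : ∀ x, Function.minimalPeriod (fun c => A • c) (m • f x) = orderOf tγ := by
    intro x
    rw [orderOf]
    apply Function.minimalPeriod_eq_minimalPeriod_iff.2
    intro n
    unfold Function.IsPeriodicPt Function.IsFixedPt
    have h5 : ∀ (n : ℕ) x, (fun x : (𝓞 F ⧸ v.1.asIdeal)ˣ => x * tγ)^[n] x = x * tγ ^ n := by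
      intro n
      induction n with
      | zero => intro x; simp
      | succ n ih => intro x; rw [Function.iterate_succ_apply', ih, pow_succ, mul_assoc]
    have h6 : ∀ (n : ℕ) x, (fun x : (𝓞 F ⧸ v.1.asIdeal)ˣ => tγ * x)^[n] x = tγ ^ n * x := by
      intro n
      induction n with
      | zero => intro x; simp
      | succ n ih => intro x; rw [Function.iterate_succ_apply', ih, pow_succ', mul_assoc]
    rw [hiter, h5, h6, mul_one]
    constructor
    · intro h
      have h3 := hgi h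
      exact mul_eq_left.1 h3
    · intro h
      rw [h, mul_one]
  -- the sum over the other representatives is zero
  set H : (𝓞 F ⧸ v.1.asIdeal)ˣ → κ := fun x => E.h (nb Φ v y (m • f x)) (orderOf tγ) with hHdef
  have hHγ : ∀ x, H (x * tγ) = H x := by
    intro x
    have h3 := act_nb hH hγ (m • f x)
    rw [← hA, hAf] at h3
    have h4 := E.congr h3 (orderOf tγ)
    rw [E.h_act _ _ _ rfl, hηγ, Units.val_one, Int.cast_one, one_mul] at h4
    exact h4.symm
  have hHε : ∀ x, H (x * tε) = H x := by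
    intro x
    have h3 := act_nb hH hε (m • f x)
    rw [← hB, hBf] at h3
    have h4 := E.congr h3 (orderOf tγ)
    rw [E.h_act _ _ _ hc, hηε, Units.val_one, Int.cast_one, one_mul] at h4
    exact h4.symm
  have hcan := cancel (p := p) M hu he H hHγ hHε R' hR'
  have hnot1 : m • a0 ∉ insert (m • d0) (R'.image (fun x => m • f x)) := by
    intro h
    rcases Finset.mem_insert.1 h with h | h
    · exact hne (hmi h)
    · obtain ⟨x, -, hx⟩ := Finset.mem_image.1 h
      exact (hfc x).2.1 (hmi hx)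
  have hnot2 : m • d0 ∉ R'.image (fun x => m • f x) := by
    intro h
    obtain ⟨x, -, hx⟩ := Finset.mem_image.1 h
    exact (hfc x).2.2 (hmi hx)
  rw [← hT, hR, Finset.sum_insert hnot1, Finset.sum_insert hnot2, hpa, hpd,
    Finset.sum_image (fun x _ x' _ h => hgi h)]
  have hsum : ∑ x ∈ R', E.h (nb Φ v y (m • f x))
      (Function.minimalPeriod (fun c => A • c) (m • f x)) = 0 := by
    rw [← hcan]
    refine Finset.sum_congr rfl ?_
    intro x _
    rw [hpf]
  rw [hsum, add_zero]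

end Pool.Agent.CGQ
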