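import Pool.Agent.CGQ.UDefs

/-!
# The unit trick: integral bases
-/

noncomputable section

namespace Pool.Agent.CGQ

open NumberField IsDedekindDomain Matrix
open Pool.Agent.CG2 (Pl Fv Ov GQ GZ expo InRay IsRay TotPos)
open Pool.Agent.CG2.GalFinAux (below actP)

variable {F : Type} [Field F] [NumberField F] {L : Type} [Field L] [NumberField L] [Algebra F L]

private theorem ura_gal (hdeg : Module.finrank F L = 2) : IsGalois F L := by
  have h : Algebra.IsQuadraticExtension F L := { finrank_eq_two' := hdeg }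
  infer_instance

private theorem ura_sq (hdeg : Module.finrank F L = 2) (c : Gal(L/F)) : c * c = 1 := by
  have hG := ura_gal hdeg
  have h1 : Nat.card Gal(L/F) = 2 := by rw [IsGalois.card_aut_eq_finrank, hdeg]
  have h2 : c ^ Nat.card Gal(L/F) = 1 := pow_card_eq_one'
  rwa [h1, pow_two] at h2

private theorem ura_two (hdeg : Module.finrank F L = 2) {c : Gal(L/F)} (hc : c ≠ 1)
    (σ : Gal(L/F)) : σ = 1 ∨ σ = c := by
  have hG := ura_gal hdeg
  have h1 : Nat.card Gal(L/F) = 2 := by rw [IsGalois.card_aut_eq_finrank, hdeg]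
  by_cases h : σ = 1
  · exact Or.inl h
  · obtain ⟨y, -, hy⟩ := (Nat.card_eq_two_iff' (1 : Gal(L/F))).1 h1
    exact Or.inr ((hy σ h).trans (hy c hc).symm)

private theorem ura_fixed (hdeg : Module.finrank F L = 2) {c : Gal(L/F)} (hc : c ≠ 1) {x : L}
    (hx : c x = x) : ∃ a : F, algebraMap F L a = x := by
  have hG := ura_gal hdeg
  have hfd : FiniteDimensional F L := Module.finite_of_finrank_pos (by omega)
  refine (IsGalois.mem_range_algebraMap_iff_fixed x).2 fun σ => ?_
  rcases ura_two hdeg hc σ with rfl | rfl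
  · rfl
  · exact hx

omit [NumberField F] in
open scoped Pointwise in
private theorem ura_int_le (c : Gal(L/F)) (w : Pl L) (y : 𝓞 L) :
    (actP c w).intValuation (c • y) ≤ w.intValuation y := by
  by_cases hy : y = 0
  · rw [hy, smul_zero, map_zero]
    exact zero_le
  · rw [w.intValuation_if_neg hy, (actP c w).intValuation_le_pow_iff_mem]
    have h1 : y ∈ w.asIdeal ^ (Associates.mk w.asIdeal).count
        (Associates.mk (Ideal.span {y})).factors := by
      rw [← w.intValuation_le_pow_iff_mem, w.intValuation_if_neg hy]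
    have h2 : (actP c w).asIdeal ^ (Associates.mk w.asIdeal).count
        (Associates.mk (Ideal.span {y})).factors = c • (w.asIdeal ^ (Associates.mk w.asIdeal).count
        (Associates.mk (Ideal.span {y})).factors) := by
      rw [smul_pow']
      rfl
    rw [h2]
    exact Ideal.smul_mem_pointwise_smul c y _ h1

private theorem ura_int (c : Gal(L/F)) (w : Pl L) (y : 𝓞 L) :
    (actP c w).intValuation (c • y) = w.intValuation y := by
  refine le_antisymm (ura_int_le c w y) ?_
  have h1 := ura_int_le c⁻¹ (actP c w) (c • y)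
  rwa [inv_smul_smul, ← CG2.GalFinAux.actP_mul, inv_mul_cancel, CG2.GalFinAux.actP_one] at h1

/-- The valuation at the conjugate place. -/
private theorem ura_val (c : Gal(L/F)) (w : Pl L) (x : L) :
    (actP c w).valuation L (c x) = w.valuation L x := by
  obtain ⟨a, b, -, rfl⟩ := IsFractionRing.div_surjective (A := 𝓞 L) x
  rw [map_div₀ c, map_div₀, map_div₀]
  have h1 : ∀ y : 𝓞 L, (actP c w).valuation L (c (algebraMap (𝓞 L) L y)) =
      w.valuation L (algebraMap (𝓞 L) L y) := by
    intro y
    have h2 : c (algebraMap (𝓞 L) L y) = algebraMap (𝓞 L) L (c • y) := rfl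
    rw [h2, HeightOneSpectrum.valuation_of_algebraMap, HeightOneSpectrum.valuation_of_algebraMap,
      ura_int]
  rw [h1, h1]

private theorem ura_below {v : Pl F} {w : Pl L} (hw : below F w = v) {a : F}
    (ha : w.valuation L (algebraMap F L a) ≤ 1) : v.valuation F a ≤ 1 := by
  subst hw
  have hl : w.asIdeal.LiesOver (below F w).asIdeal :=
    CG2.GalFinAux.liesOver_of_lies (CG2.GalFinAux.lies_below w)
  have h1 := HeightOneSpectrum.valuation_liesOver L (below F w) w a
  have hne := Ideal.IsDedekindDomain.ramificationIdx'_ne_zero_of_liesOver w.asIdeal (below F w).ne_bot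
  rw [← h1] at ha
  exact (pow_le_one_iff hne).1 ha

/-- **URA.** At a place where the discriminant of `τ` is a unit, `1, τ` is a basis of the integers
of `L` over those of `F`.
PROOF. `c` has order two (`IsGalois.card_aut_eq_finrank`: `L / F` is Galois because it is normal of
degree two, or: the fixed field of `c` is `F` since it is a proper subfield). Put
`b = (x - c x) / (τ - c τ)` and `a = x - b τ`; both are fixed by `c`, so in `F`. For `w` above `v`
also `c⁻¹ w` is above `v`, and `w (c x) = (c⁻¹ w) x ≤ 1`; `w (τ - c τ) = 1` by `hτ`. So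
`w (b) ≤ 1`, `w (a) ≤ 1`, and `v (b) ≤ 1`, `v (a) ≤ 1` by
`HeightOneSpectrum.valuation_liesOver` (`v x ^ e = w x`). A place `w` above `v` exists:
`CG2.GalFinAux.exists_above`. -/
theorem exists_ab (hdeg : Module.finrank F L = 2) (c : Gal(L/F)) (hc : c ≠ 1) (v : Pl F)
    (τ : 𝓞 L) (hτ : ∀ w : Pl L, below F w = v → τ - c • τ ∉ w.asIdeal) (x : L)
    (hx : ∀ w : Pl L, below F w = v → w.valuation L x ≤ 1) :
    ∃ a b : F, v.valuation F a ≤ 1 ∧ v.valuation F b ≤ 1 ∧
      x = algebraMap F L a + algebraMap F L b * (τ : L) := by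
  have hsq := ura_sq hdeg c
  have hcc : ∀ y : L, c (c y) = y := by
    intro y
    have h1 : (c * c) y = y := by rw [hsq]; rfl
    exact h1
  obtain ⟨w₀, hw₀⟩ := CG2.GalFinAux.exists_above (L := L) v
  have hw₀' := CG2.GalFinAux.lies_iff.1 hw₀
  have hval : ∀ w : Pl L, below F w = v → w.valuation L ((τ : L) - c (τ : L)) = 1 := by
    intro w hw
    have h2 : (τ : L) - c (τ : L) = algebraMap (𝓞 L) L (τ - c • τ) := by
      rw [map_sub]
      rfl
    rw [h2, w.valuation_eq_one_iff_notMem]
    exact hτ w hw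
  have hne : (τ : L) - c (τ : L) ≠ 0 := by
    intro h
    have h3 := hval w₀ hw₀'
    rw [h, map_zero] at h3
    exact zero_ne_one h3
  have hbc : c ((x - c x) / ((τ : L) - c (τ : L))) = (x - c x) / ((τ : L) - c (τ : L)) := by
    rw [map_div₀, map_sub, map_sub, hcc, hcc, ← neg_sub x (c x), ← neg_sub (τ : L) (c (τ : L)),
      neg_div_neg_eq]
  obtain ⟨b, hb⟩ := ura_fixed hdeg hc hbc
  have hac : c (x - algebraMap F L b * (τ : L)) = x - algebraMap F L b * (τ : L) := by
    have h4 : algebraMap F L b * ((τ : L) - c (τ : L)) = x - c x := by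
      rw [hb]
      field_simp
    rw [map_sub, map_mul, c.commutes]
    linear_combination h4
  obtain ⟨a, ha⟩ := ura_fixed hdeg hc hac
  have hbv : ∀ w : Pl L, below F w = v → w.valuation L (algebraMap F L b) ≤ 1 := by
    intro w hw
    rw [hb, map_div₀, hval w hw, div_one]
    refine Valuation.map_sub_le _ (hx w hw) ?_
    have h5 := ura_val c (actP c⁻¹ w) x
    rw [← CG2.GalFinAux.actP_mul, mul_inv_cancel, CG2.GalFinAux.actP_one] at h5
    rw [h5]
    exact hx _ (by rw [CG2.GalFinAux.below_actP, hw])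
  have hav : w₀.valuation L (algebraMap F L a) ≤ 1 := by
    rw [ha]
    refine Valuation.map_sub_le _ (hx w₀ hw₀') ?_
    rw [map_mul]
    exact mul_le_one' (hbv w₀ hw₀') (w₀.valuation_le_one τ)
  exact ⟨a, b, ura_below hw₀' hav, ura_below hw₀' (hbv w₀ hw₀'), by rw [ha]; ring⟩

end Pool.Agent.CGQ
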