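import Pool.Agent.CGQ.URA

/-!
# The unit trick: integrality
-/

noncomputable section

namespace Pool.Agent.CGQ

open NumberField IsDedekindDomain Matrix
open Pool.Agent.CG2 (Pl Fv Ov GQ GZ cosets alpha expo InRay IsRay TotPos HRd)
open Pool.Agent.CG2.GalFinAux (below actP)

variable {F : Type} [Field F] [NumberField F] {L : Type} [Field L] [NumberField L] [Algebra F L]
variable {q : Qd F} {S : Set (Pl F)} {φ : Spl q S} {K : Subgroup (sysD q).A}

private theorem urb_dloc (q : Qd F) (v : Pl F) (a : F) :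
    dloc q v (algebraMap F (DF q) a) = algebraMap (Fv v) (DV q v) ((a : F) : Fv v) := by
  ext
  · rfl
  · exact map_zero _
  · exact map_zero _
  · exact map_zero _

private theorem urb_scalar (φ : Spl q S) (v : {v : Pl F // v ∉ S}) (g : (DV q v.1)ˣ) (a : F) :
    psi φ v g (algebraMap F (DF q) a) =
      algebraMap (Fv v.1) (Matrix (Fin 2) (Fin 2) (Fv v.1)) ((a : F) : Fv v.1) := by
  change φ v ((g⁻¹ : (DV q v.1)ˣ).1 * dloc q v.1 (algebraMap F (DF q) a) * g.1) = _
  rw [urb_dloc, ← Algebra.commutes, mul_assoc, Units.inv_mul, mul_one, AlgEquiv.commutes]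

/-- **URB.** Elements of `L` which are integral above the good place `v` have integral matrices.
PROOF. `exists_ab`: `x = a + b τ`, so `psi (ι x) = a • 1 + b • psi (ι τ)` (`φ v` is `F_v`-linear,
`dloc` of a scalar is the scalar in `F_v`, which commutes with `g`), and `X.τ_int`. -/
theorem Tor.psi_int (X : Tor q φ K L) (v : {v : Pl F // v ∉ S}) (hv : v.1 ∉ X.T) (x : L)
    (hx : ∀ w : Pl L, below F w = v.1 → w.valuation L x ≤ 1) (i j : Fin 2) :
    Valued.v (psi φ v (X.y.2.1 v.1) (X.ι x) i j) ≤ 1 := by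
  obtain ⟨a, b, ha, hb, rfl⟩ := exists_ab X.deg X.c X.c_ne v.1 X.τ
    (fun w hw => X.τ_disc w (hw ▸ hv)) x hx
  have ha' : Valued.v ((a : F) : Fv v.1) ≤ 1 := by
    rw [HeightOneSpectrum.valuedAdicCompletion_eq_valuation']
    exact ha
  have hb' : Valued.v ((b : F) : Fv v.1) ≤ 1 := by
    rw [HeightOneSpectrum.valuedAdicCompletion_eq_valuation']
    exact hb
  have key : ∀ g : (DV q v.1)ˣ,
      (∀ i j, Valued.v (psi φ v g (X.ι (X.τ : L)) i j) ≤ 1) → ∀ i j,
        Valued.v (psi φ v g (X.ι (algebraMap F L a + algebraMap F L b * (X.τ : L))) i j) ≤ 1 := by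
    intro g hg i j
    rw [map_add X.ι, map_mul X.ι, X.ι.commutes, X.ι.commutes, map_add, map_mul, urb_scalar,
      urb_scalar, ← Algebra.smul_def]
    change Valued.v (algebraMap (Fv v.1) (Matrix (Fin 2) (Fin 2) (Fv v.1)) ((a : F) : Fv v.1) i j +
      ((b : F) : Fv v.1) * psi φ v g (X.ι (X.τ : L)) i j) ≤ 1
    refine Valuation.map_add_le _ ?_ ?_
    · rw [Matrix.algebraMap_matrix_apply]
      split_ifs
      · exact ha'
      · rw [map_zero]
        exact zero_le
    · rw [map_mul]
      exact mul_le_one' hb' (hg i j)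
  exact key _ (X.τ_int v hv) i j

end Pool.Agent.CGQ
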