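import Pool.Agent.CGQ.UDefs

/-!
# The unit trick: determinant and reduced norm
-/

noncomputable section

namespace Pool.Agent.CGQ

open NumberField IsDedekindDomain Matrix
open Pool.Agent.CG2 (Pl Fv Ov GQ GZ expo InRay IsRay TotPos)
open Pool.Agent.CG2.GalFinAux (below actP)

variable {F : Type} [Field F] [NumberField F] {L : Type} [Field L] [NumberField L] [Algebra F L]

private theorem URC_sq {R : Type} [CommRing R] {a b : R} (x : QuaternionAlgebra R a 0 b) :
    x * x = (trd x) • x - algebraMap R (QuaternionAlgebra R a 0 b) (nrd x) := by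
  have h : algebraMap R (QuaternionAlgebra R a 0 b) (nrd x) = ⟨nrd x, 0, 0, 0⟩ := rfl
  rw [h]
  ext <;> simp only [QuaternionAlgebra.re_mul, QuaternionAlgebra.imI_mul,
    QuaternionAlgebra.imJ_mul, QuaternionAlgebra.imK_mul, QuaternionAlgebra.re_sub,
    QuaternionAlgebra.imI_sub, QuaternionAlgebra.imJ_sub, QuaternionAlgebra.imK_sub,
    QuaternionAlgebra.re_smul, QuaternionAlgebra.imI_smul, QuaternionAlgebra.imJ_smul,
    QuaternionAlgebra.imK_smul, nrd, trd, smul_eq_mul] <;> ring

private theorem URC_nrd_alg {R : Type} [CommRing R] {a b : R} (s : R) :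
    nrd (algebraMap R (QuaternionAlgebra R a 0 b) s) = s ^ 2 := by
  simp [nrd]

/-- The determinant is the reduced norm, for one algebra. -/
private theorem URC_det {k : Type} [Field k] {a b : k}
    (φ : QuaternionAlgebra k a 0 b ≃ₐ[k] Matrix (Fin 2) (Fin 2) k)
    (y : QuaternionAlgebra k a 0 b) : (φ y).det = nrd y := by
  have h1 : φ y * φ y = (trd y) • φ y - algebraMap k _ (nrd y) := by
    rw [← map_mul, URC_sq, map_sub, map_smul, AlgEquiv.commutes]
  have h2 : φ y * φ y = (φ y).trace • φ y - algebraMap k _ (φ y).det := by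
    rw [Matrix.det_fin_two, Matrix.trace_fin_two]
    ext i j
    fin_cases i <;> fin_cases j <;> simp [Matrix.mul_apply, Fin.sum_univ_two,
      Matrix.algebraMap_matrix_apply] <;> ring
  by_cases hs : ∃ s : k, φ y = algebraMap k _ s
  · obtain ⟨s, hs⟩ := hs
    have h3 : y = algebraMap k _ s := by
      apply φ.injective
      rw [hs, AlgEquiv.commutes]
    rw [h3, URC_nrd_alg, AlgEquiv.commutes, Matrix.det_fin_two]
    simp [Matrix.algebraMap_matrix_apply]
    ring
  · have h3 : (trd y - (φ y).trace) • φ y = algebraMap k _ (nrd y - (φ y).det) := by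
      rw [sub_smul, map_sub]
      have := h1.symm.trans h2
      rw [sub_eq_sub_iff_sub_eq_sub] at this
      exact this
    have h4 : trd y - (φ y).trace = 0 := by
      by_contra h
      apply hs
      refine ⟨(trd y - (φ y).trace)⁻¹ * (nrd y - (φ y).det), ?_⟩
      rw [map_mul, ← h3, Algebra.algebraMap_eq_smul_one, smul_mul_assoc, one_mul, smul_smul,
        inv_mul_cancel₀ h, one_smul]
    rw [h4, zero_smul] at h3
    have h5 := (map_eq_zero (algebraMap k (Matrix (Fin 2) (Fin 2) k))).1 h3.symm
    exact (sub_eq_zero.1 h5).symm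

/-- **URC.** The determinant is the reduced norm.
PROOF. `y = g⁻¹ x g` in `D_v` satisfies `y ^ 2 - trd y * y + nrd y = 0` and `nrd y = nrd x`
(`nrd_mul`). The matrix `A = φ y` satisfies the same equation. If `A` is a scalar `s` then `y = s`
and `nrd y = s ^ 2 = det A`. Otherwise subtract the Cayley-Hamilton equation
`A ^ 2 - tr A * A + det A = 0`: `(trd y - tr A) A = nrd y - det A`, so both coefficients
vanish. -/
theorem det_psi {q : Qd F} {S : Set (Pl F)} (φ : Spl q S) (v : {v : Pl F // v ∉ S})
    (g : (DV q v.1)ˣ) (x : DF q) : (psi φ v g x).det = ((nrd x : F) : Fv v.1) := by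
  have h1 : (psi φ v g x).det = nrd ((g⁻¹ : (DV q v.1)ˣ).1 * dloc q v.1 x * g.1) :=
    URC_det (φ v) _
  have h2 : nrd (g⁻¹ : (DV q v.1)ˣ).1 * nrd g.1 = 1 := by
    rw [← nrd_mul, Units.inv_mul, nrd_one]
  rw [h1, nrd_mul, nrd_mul, mul_right_comm, h2, one_mul]
  exact nrd_qam q _ x

end Pool.Agent.CGQ
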