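import Pool.Agent.CGQ.UDefs

/-!
# The unit trick: the reduced norm on `L`
-/

noncomputable section

namespace Pool.Agent.CGQ

open NumberField IsDedekindDomain Matrix
open Pool.Agent.CG2 (Pl Fv Ov GQ GZ expo InRay IsRay TotPos)
open Pool.Agent.CG2.GalFinAux (below actP)

variable {F : Type} [Field F] [NumberField F] {L : Type} [Field L] [NumberField L] [Algebra F L]

private theorem URD_sq {R : Type} [CommRing R] {a b : R} (x : QuaternionAlgebra R a 0 b) :
    x * x = (trd x) • x - algebraMap R (QuaternionAlgebra R a 0 b) (nrd x) := by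
  have h : algebraMap R (QuaternionAlgebra R a 0 b) (nrd x) = ⟨nrd x, 0, 0, 0⟩ := rfl
  rw [h]
  ext <;> simp only [QuaternionAlgebra.re_mul, QuaternionAlgebra.imI_mul,
    QuaternionAlgebra.imJ_mul, QuaternionAlgebra.imK_mul, QuaternionAlgebra.re_sub,
    QuaternionAlgebra.imI_sub, QuaternionAlgebra.imJ_sub, QuaternionAlgebra.imK_sub,
    QuaternionAlgebra.re_smul, QuaternionAlgebra.imI_smul, QuaternionAlgebra.imJ_smul,
    QuaternionAlgebra.imK_smul, nrd, trd, smul_eq_mul] <;> ring

private theorem URD_nrd_alg {R : Type} [CommRing R] {a b : R} (s : R) :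
    nrd (algebraMap R (QuaternionAlgebra R a 0 b) s) = s ^ 2 := by
  simp [nrd]

private theorem URD_fix (hdeg : Module.finrank F L = 2) (c : Gal(L/F)) (hc : c ≠ 1) (x : L)
    (hx : c x = x) : ∃ a : F, algebraMap F L a = x := by
  have : Algebra.IsQuadraticExtension F L := ⟨hdeg⟩
  have hcard : Nat.card Gal(L/F) = 2 := by rw [IsGalois.card_aut_eq_finrank, hdeg]
  have hall : ∀ g : Gal(L/F), g x = x := by
    intro g
    have : Finite Gal(L/F) := Nat.finite_of_card_ne_zero (by rw [hcard]; norm_num)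
    obtain ⟨u, v, huv, hun⟩ := (Nat.card_eq_two_iff).1 hcard
    have h1 : (1 : Gal(L/F)) ∈ ({u, v} : Set Gal(L/F)) := hun ▸ Set.mem_univ _
    have h2 : c ∈ ({u, v} : Set Gal(L/F)) := hun ▸ Set.mem_univ _
    have h3 : g ∈ ({u, v} : Set Gal(L/F)) := hun ▸ Set.mem_univ _
    have h4 : g = 1 ∨ g = c := by
      rcases h1 with h1 | h1 <;> rcases h2 with h2 | h2 <;> rcases h3 with h3 | h3 <;>
        simp_all
    rcases h4 with rfl | rfl
    · rfl
    · exact hx
  have := (IsGalois.mem_bot_iff_fixed (F := F) x).2 hall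
  obtain ⟨a, ha⟩ := IntermediateField.mem_bot.1 this
  exact ⟨a, ha⟩

/-- **URD.** The reduced norm of an element of `L` is `x * c x`.
PROOF. If `x` is in `F` this is clear (`nrd` of the scalar `a` is `a ^ 2`, `ι` is `F`-linear).
Otherwise `ι x` is not a scalar; `s = x + c x`, `n = x * c x` are in `F` and
`x ^ 2 - s x + n = 0`, and also `(ι x) ^ 2 - trd (ι x) * ι x + nrd (ι x) = 0`; compare. -/
theorem nrd_ι {q : Qd F} (hdeg : Module.finrank F L = 2) (ι : L →ₐ[F] DF q) (c : Gal(L/F))
    (hc : c ≠ 1) (x : L) : algebraMap F L (nrd (ι x)) = x * c x := by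
  have hQ : Algebra.IsQuadraticExtension F L := ⟨hdeg⟩
  have hcc : ∀ z : L, c (c z) = z := by
    intro z
    have hcard : Nat.card Gal(L/F) = 2 := by rw [IsGalois.card_aut_eq_finrank, hdeg]
    have h1 : c ^ 2 = 1 := by
      rw [← hcard]
      exact pow_card_eq_one'
    have h2 := congrArg (fun g : Gal(L/F) => g z) h1
    rw [sq] at h2
    exact h2
  obtain ⟨s, hs⟩ := URD_fix hdeg c hc (x + c x) (by rw [map_add, hcc, add_comm])
  obtain ⟨n, hn⟩ := URD_fix hdeg c hc (x * c x) (by rw [map_mul, hcc, mul_comm])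
  by_cases hx : ∃ a : F, algebraMap F L a = x
  · obtain ⟨a, rfl⟩ := hx
    have h1 : ι (algebraMap F L a) = algebraMap F (DF q) a := ι.commutes a
    rw [h1, URD_nrd_alg, AlgEquiv.commutes, map_pow, sq]
  · have h1 : x * x = s • x - algebraMap F L n := by
      rw [Algebra.smul_def, hs, hn]
      ring
    have h2 : ι x * ι x = s • ι x - algebraMap F (DF q) n := by
      rw [← map_mul, h1, map_sub, map_smul, AlgHom.commutes]
    have h3 := URD_sq (ι x)
    have h4 : (trd (ι x) - s) • ι x = algebraMap F (DF q) (nrd (ι x) - n) := by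
      rw [sub_smul, map_sub]
      have := h3.symm.trans h2
      rw [sub_eq_sub_iff_sub_eq_sub] at this
      exact this
    have h5 : (trd (ι x) - s) • x = algebraMap F L (nrd (ι x) - n) := by
      apply ι.toRingHom.injective
      change ι _ = ι _
      rw [map_smul, h4, AlgHom.commutes]
    have h6 : trd (ι x) - s = 0 := by
      by_contra h
      apply hx
      refine ⟨(trd (ι x) - s)⁻¹ * (nrd (ι x) - n), ?_⟩
      rw [map_mul, ← h5, ← Algebra.smul_def, smul_smul, inv_mul_cancel₀ h, one_smul]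
    rw [h6, zero_smul] at h5
    have h7 := (map_eq_zero (algebraMap F L)).1 h5.symm
    rw [sub_eq_zero.1 h7, hn]

end Pool.Agent.CGQ
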