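import Pool.Agent.CGQ.URB

/-!
# The unit trick: local units
-/

noncomputable section

namespace Pool.Agent.CGQ

open NumberField IsDedekindDomain Matrix
open Pool.Agent.CG2 (Pl Fv Ov GQ GZ cosets alpha expo InRay IsRay TotPos HRd)
open Pool.Agent.CG2.GalFinAux (below actP)

variable {F : Type} [Field F] [NumberField F] {L : Type} [Field L] [NumberField L] [Algebra F L]
variable {q : Qd F} {S : Set (Pl F)} {φ : Spl q S} {K : Subgroup (sysD q).A}

/-- **URE.** Elements of `L` which are units above the good place `v` are in the group `K`, seen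
from `y`.
PROOF. `psi_int` for `x` and `x⁻¹` and `CG2.mem_GZ_iff` give that `φ (g⁻¹ x g)` is in `GZ v`
(`g` the component of `y`); `X.std` and `X.U_good`. -/
theorem Tor.unit_mem (X : Tor q φ K L) (v : Pl F) (hv : v ∉ X.T) (x : Lˣ)
    (hx : ∀ w : Pl L, below F w = v → w.valuation L (x : L) = 1) :
    (X.y.2.1 v)⁻¹ * (sysD q).loc v (X.u x) * X.y.2.1 v ∈ X.U v := by
  have hvS : v ∉ S := fun h => hv (X.S_le h)
  refine X.U_good v hv ?_
  refine (X.std ⟨v, hvS⟩ _).1 ((CG2.mem_GZ_iff v _).2 ⟨fun i j => ?_, fun i j => ?_⟩)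
  · exact X.psi_int ⟨v, hvS⟩ hv (x : L) (fun w hw => (hx w hw).le) i j
  · have h1 := X.psi_int ⟨v, hvS⟩ hv ((x⁻¹ : Lˣ) : L) (fun w hw => by
      rw [Units.val_inv_eq_inv_val, map_inv₀, hx w hw, inv_one]) i j
    have h2 : ((X.y.2.1 v)⁻¹ * (sysD q).loc v (X.u x) * X.y.2.1 v)⁻¹ =
        (X.y.2.1 v)⁻¹ * (sysD q).loc v (X.u x⁻¹) * X.y.2.1 v := by
      have h3 : (sysD q).loc v (X.u x⁻¹) = ((sysD q).loc v (X.u x))⁻¹ := by
        rw [← map_inv]
        exact congrArg ((sysD q).loc v) (map_inv X.uHom x)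
      rw [h3]
      group
    rw [← map_inv, h2]
    exact h1

end Pool.Agent.CGQ
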