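import Pool.Agent.CGQ.UDefs

/-!
# The unit trick: elements with prescribed valuations
-/

noncomputable section

namespace Pool.Agent.CGQ

open NumberField IsDedekindDomain Matrix
open Pool.Agent.CG2 (Pl Fv Ov GQ GZ expo InRay IsRay TotPos)
open Pool.Agent.CG2.GalFinAux (below actP)

variable {F : Type} [Field F] [NumberField F] {L : Type} [Field L] [NumberField L] [Algebra F L]

/-- **URF.** Elements with prescribed valuations above `v`.
PROOF. Chinese remainder theorem for the finitely many places `w` above `v` (finiteness: they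
contain `v`, `Ideal.finite_factors` or similar; every ideal `≠ ⊥` is contained in finitely many
maximal ideals): choose `x` in `𝓞 L` with `x ≡ π_w ^ n_w` modulo `w ^ (n_w + 1)`, `n_w = expo w I`
and `π_w ∈ w \ w²`. Then `w.valuation x = exp (- n_w)`
(`HeightOneSpectrum.intValuation`, `intValuation_le_pow_iff_dvd`). -/
theorem exists_elt (v : Pl F) (I : Ideal (𝓞 L)) : ∃ x : Lˣ, ∀ w : Pl L, below F w = v →
    w.valuation L (x : L) = WithZero.exp (-(expo w I : ℤ)) := by
  classical
  have hJ : v.asIdeal.map (algebraMap (𝓞 F) (𝓞 L)) ≠ 0 := by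
    rw [Ideal.zero_eq_bot, Ne, Ideal.map_eq_bot_iff_of_injective
      (FaithfulSMul.algebraMap_injective _ _)]
    exact v.ne_bot
  have hfin : {w : Pl L | below F w = v}.Finite := by
    refine (Ideal.finite_factors hJ).subset fun w hw => ?_
    have hw' : below F w = v := hw
    change w.asIdeal ∣ _
    rw [Ideal.dvd_iff_le, Ideal.map_le_iff_le_comap, ← hw']
    exact le_refl _
  choose π hπ using fun w : Pl L => w.intValuation_exists_uniformizer
  obtain ⟨y, hy⟩ := IsDedekindDomain.exists_forall_sub_mem_ideal (s := hfin.toFinset)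
    (fun w : Pl L => w.asIdeal) (fun w => expo w I + 1) (fun w _ => w.prime)
    (fun w _ w' _ h h' => h (HeightOneSpectrum.ext h')) (fun w => π w.1 ^ expo w.1 I)
  have hval : ∀ w : Pl L, below F w = v →
      w.valuation L (y : L) = WithZero.exp (-(expo w I : ℤ)) := by
    intro w hw
    have h1 : w.intValuation (π w ^ expo w I) = WithZero.exp (-(expo w I : ℤ)) := by
      rw [map_pow, hπ, ← WithZero.exp_nsmul]
      congr 1
      simp
    have h2 : w.intValuation (y - π w ^ expo w I) ≤
        WithZero.exp (-((expo w I + 1 : ℕ) : ℤ)) :=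
      (w.intValuation_le_pow_iff_mem _ _).2 (hy w (hfin.mem_toFinset.2 hw))
    have h3 : w.intValuation (y - π w ^ expo w I) < w.intValuation (π w ^ expo w I) := by
      rw [h1]
      refine lt_of_le_of_lt h2 ?_
      rw [WithZero.exp_lt_exp]
      push_cast
      omega
    have h4 : w.intValuation y = w.intValuation (π w ^ expo w I) := by
      calc w.intValuation y = w.intValuation (π w ^ expo w I + (y - π w ^ expo w I)) := by
            rw [add_sub_cancel]
        _ = _ := Valuation.map_add_eq_of_lt_left _ h3
    have h6 : w.valuation L (algebraMap (𝓞 L) L y) = w.intValuation y :=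
      w.valuation_of_algebraMap y
    rw [← h1, ← h4]
    exact h6
  obtain ⟨w₀, hw₀⟩ := CG2.GalFinAux.exists_above (L := L) v
  have hy0 : (y : L) ≠ 0 := by
    intro h
    have h7 := hval w₀ (CG2.GalFinAux.lies_iff.1 hw₀)
    rw [h, map_zero] at h7
    exact WithZero.exp_ne_zero h7.symm
  exact ⟨Units.mk0 (y : L) hy0, fun w hw => hval w hw⟩

end Pool.Agent.CGQ
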