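import Pool.Agent.CGQ.URE

/-!
# The unit trick: uniqueness
-/

noncomputable section

namespace Pool.Agent.CGQ

open NumberField IsDedekindDomain Matrix
open Pool.Agent.CG2 (Pl Fv Ov GQ GZ cosets alpha expo InRay IsRay TotPos HRd)
open Pool.Agent.CG2.GalFinAux (below actP)

variable {F : Type} [Field F] [NumberField F] {L : Type} [Field L] [NumberField L] [Algebra F L]
variable {q : Qd F} {S : Set (Pl F)} {φ : Spl q S} {K : Subgroup (sysD q).A}

/-- **URH.** Two representatives of the same ideal give the same point.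
PROOF. `k = y⁻¹ t⁻¹ t' y` (`y` = component of `X.y` in `A`): its component at a good `v` is
`g⁻¹ loc (u (x⁻¹ x')) g` with `x⁻¹ x'` a unit above `v`: in `U v` by `Tor.unit_mem`; at a bad `v` it
is `1`. So `k ∈ K` by `X.U_le`. -/
theorem Tor.rep_unique (X : Tor q φ K L) {I : Ideal (𝓞 L)} {t t' : (sysD q).A}
    (ht : X.IsRep I t) (ht' : X.IsRep I t') : mkK K (lt t X.y) = mkK K (lt t' X.y) := by
  refine mkK_eq.2 ⟨X.y.2⁻¹ * t⁻¹ * t' * X.y.2, ?_, ?_⟩
  · apply X.U_le
    intro v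
    change (X.y.2.1 v)⁻¹ * (t.1 v)⁻¹ * t'.1 v * X.y.2.1 v ∈ X.U v
    by_cases hv : v ∈ X.T
    · rw [ht.1 v hv, ht'.1 v hv, inv_one, mul_one, mul_one, inv_mul_cancel]
      exact (X.U v).one_mem
    · obtain ⟨x, hx1, hx2⟩ := ht.2 v hv
      obtain ⟨x', hx1', hx2'⟩ := ht'.2 v hv
      have h1 := X.unit_mem v hv (x⁻¹ * x') (by
        intro w hw
        rw [Units.val_mul, Units.val_inv_eq_inv_val, map_mul, map_inv₀, hx2 w hw, hx2' w hw,
          ← WithZero.exp_neg, ← WithZero.exp_add, neg_neg, add_neg_cancel, WithZero.exp_zero])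
      have h2 : (sysD q).loc v (X.u (x⁻¹ * x')) = (t.1 v)⁻¹ * t'.1 v := by
        rw [X.u_mul, map_mul, hx1, hx1']
        have h3 : X.u x⁻¹ = (X.u x)⁻¹ := map_inv X.uHom x
        rw [h3, map_inv]
      rw [h2] at h1
      simpa only [mul_assoc] using h1
  · refine Prod.ext rfl ?_
    change t' * X.y.2 = t * X.y.2 * (X.y.2⁻¹ * t⁻¹ * t' * X.y.2)
    group

end Pool.Agent.CGQ
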