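import Pool.Agent.CGQ.URH
import Pool.Agent.CGQ.URI
import Pool.Agent.CGQ.URC
import Pool.Agent.CGQ.URD
import Pool.Agent.CGQ.ULA
import Pool.Agent.CGQ.URG

/-!
# The unit trick: neighbours
-/

noncomputable section

namespace Pool.Agent.CGQ

open NumberField IsDedekindDomain Matrix
open Pool.Agent.CG2 (Pl Fv Ov GQ GZ cosets alpha expo InRay IsRay TotPos HRd)
open Pool.Agent.CG2.GalFinAux (below actP)

variable {F : Type} [Field F] [NumberField F] {L : Type} [Field L] [NumberField L] [Algebra F L]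
variable {q : Qd F} {S : Set (Pl F)} {φ : Spl q S} {K : Subgroup (sysD q).A}

open scoped Pointwise in
omit [NumberField F] in
/-- Valuations and the Galois action. -/
private theorem URL_int (σ : Gal(L/F)) (w : Pl L) (x : 𝓞 L) :
    (actP σ w).intValuation (σ • x) = w.intValuation x := by
  by_cases hx : x = 0
  · subst hx
    rw [smul_zero, map_zero, map_zero]
  · have hx' : σ • x ≠ 0 := by rwa [Ne, smul_eq_zero_iff_eq]
    rw [HeightOneSpectrum.intValuation_eq_exp_neg_multiplicity _ hx',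
      HeightOneSpectrum.intValuation_eq_exp_neg_multiplicity _ hx]
    have h1 : Ideal.span {σ • x} = σ • Ideal.span {x} := by
      rw [Ideal.pointwise_smul_def, Ideal.map_span, Set.image_singleton]
      rfl
    have h2 : multiplicity (σ • w.asIdeal) (σ • Ideal.span {x}) =
        multiplicity w.asIdeal (Ideal.span {x}) :=
      multiplicity_map_eq (MulDistribMulAction.toMulEquiv (Ideal (𝓞 L)) σ)
    rw [h1]
    change WithZero.exp (-((multiplicity (σ • w.asIdeal) (σ • Ideal.span {x}) : ℕ) : ℤ)) = _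
    rw [h2]

omit [NumberField F] in
private theorem URL_val (σ : Gal(L/F)) (w : Pl L) (x : L) :
    (actP σ w).valuation L (σ x) = w.valuation L x := by
  obtain ⟨a, b, hb, rfl⟩ := IsFractionRing.div_surjective (A := 𝓞 L) x
  have h1 : ∀ a : 𝓞 L, σ (algebraMap (𝓞 L) L a) = algebraMap (𝓞 L) L (σ • a) := fun a => rfl
  rw [map_div₀ σ, h1, h1, map_div₀, map_div₀]
  simp only [HeightOneSpectrum.valuation_of_algebraMap, URL_int]

private theorem URL_cc (X : Tor q φ K L) : IsGalois F L ∧ (∀ τ : Gal(L/F), τ = 1 ∨ τ = X.c) ∧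
    X.c * X.c = 1 := by
  have hq : Algebra.IsQuadraticExtension F L := ⟨X.deg⟩
  have hg : IsGalois F L := inferInstance
  have hcard : Nat.card Gal(L/F) = 2 := by rw [IsGalois.card_aut_eq_finrank, X.deg]
  obtain ⟨z, hz1, hz2⟩ := (Nat.card_eq_two_iff' (1 : Gal(L/F))).1 hcard
  have hall : ∀ τ : Gal(L/F), τ = 1 ∨ τ = X.c := by
    intro τ
    by_cases h : τ = 1
    · exact Or.inl h
    · exact Or.inr ((hz2 τ h).trans (hz2 X.c X.c_ne).symm)
  refine ⟨hg, hall, ?_⟩
  rcases hall (X.c * X.c) with h | h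
  · exact h
  · exact absurd (mul_eq_left.1 h) X.c_ne

/-- **URL.** The neighbour given by an element with valuation one at `w` and zero at the other
place. Here `g` is the component of `y` at `v`.
PROOF. `B` is integral by `psi_int` and its determinant is `nrd (ι x) = x * c x` (`det_psi`,
`nrd_ι`), whose `w`-valuation is `w x * w (c x) = exp(-1) * (c⁻¹ w)(x) = exp (-1)` as
`c⁻¹ w = c w ≠ w`; `L / F` is unramified at `w` (`w ≠ c w`, so `e = 1`: `valuation_liesOver` and e.g.
`e f g = 2`; or: the determinant has valuation `exp (-n)` with `e n = 1`). So `mem_cosets_of_int`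
gives the first claim. For the second: `Quotient.out` of the coset of `B` is `B * k`, `k ∈ GZ`, and
`sg Φ v B = single v (g⁻¹ loc (u x) g)`, so
`rt (lt t y) (sg Φ v B) = lt (t * single v (loc (u x))) y`, and `t * single v (loc (u x))`
represents `I * w` (`rep_mul`; `single v (loc (u x))` represents `w`: `CG2.GalL_expo_self`,
`GalL_expo_other`; the places above `v` are `w`, `c w` by `CG2.GalFinAux.exists_actP`). -/
theorem Tor.nb_eq (X : Tor q φ K L) (v : {v : Pl F // v ∉ S}) (hv : v.1 ∉ X.T) {w : Pl L}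
    (hw : below F w = v.1) (hcw : actP X.c w ≠ w) (x : Lˣ)
    (hx : w.valuation L (x : L) = WithZero.exp (-1 : ℤ))
    (hx' : (actP X.c w).valuation L (x : L) = 1) :
    ∃ B : GQ v.1, (B : Matrix (Fin 2) (Fin 2) (Fv v.1)) = psi φ v (X.y.2.1 v.1) (X.ι (x : L)) ∧
      ((B : GQ v.1) : GQ v.1 ⧸ GZ v.1) ∈ cosets v.1 0 ∧
      ∀ (I : Ideal (𝓞 L)) (t t' : (sysD q).A), I ≠ ⊥ → X.IsRep I t →
        X.IsRep (I * w.asIdeal) t' →
        mkK K (nb (chartD φ) v (lt t X.y) ((B : GQ v.1) : GQ v.1 ⧸ GZ v.1)) =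
          mkK K (lt t' X.y) := by
  classical
  obtain ⟨hgal, hall, hcc⟩ := URL_cc X
  set g : (DV q v.1)ˣ := X.y.2.1 v.1 with hg
  let B : GQ v.1 := Units.map (psi φ v g : DF q →* Matrix (Fin 2) (Fin 2) (Fv v.1)) (X.u x)
  have hB : (B : Matrix (Fin 2) (Fin 2) (Fv v.1)) = psi φ v g (X.ι (x : L)) := rfl
  -- the places above `v`
  have habove : ∀ w' : Pl L, below F w' = v.1 → w' = w ∨ w' = actP X.c w := by
    intro w' hw'
    obtain ⟨τ, hτ⟩ := Pool.Agent.CG2.GalFinAux.exists_actP (F := F) (hw.trans hw'.symm)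
    rcases hall τ with rfl | rfl
    · left; rw [hτ, Pool.Agent.CG2.GalFinAux.actP_one]
    · right; exact hτ
  -- integrality
  have hint : ∀ i j, Valued.v ((B : Matrix (Fin 2) (Fin 2) (Fv v.1)) i j) ≤ 1 := by
    intro i j
    rw [hB]
    refine X.psi_int v hv (x : L) ?_ i j
    intro w' hw'
    rcases habove w' hw' with rfl | rfl
    · rw [hx, ← WithZero.exp_zero]
      exact WithZero.exp_le_exp.2 (by norm_num)
    · exact hx'.le
  -- the determinant
  have hdet : Valued.v (B : Matrix (Fin 2) (Fin 2) (Fv v.1)).det = WithZero.exp (-1 : ℤ) := by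
    rw [hB, det_psi, HeightOneSpectrum.valuedAdicCompletion_eq_valuation']
    set n : F := nrd (X.ι (x : L)) with hn
    have h1 : algebraMap F L n = (x : L) * X.c (x : L) := nrd_ι X.deg X.ι X.c X.c_ne x
    have h2 : w.valuation L (X.c (x : L)) = 1 := by
      rw [← URL_val X.c w (X.c (x : L))]
      have h3 : X.c (X.c (x : L)) = (x : L) := by
        have h4 : (X.c * X.c) (x : L) = (x : L) := by rw [hcc]; rfl
        exact h4
      rw [h3]
      exact hx'
    have hlo : w.asIdeal.LiesOver v.1.asIdeal :=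
      Pool.Agent.CG2.GalFinAux.liesOver_of_lies (Pool.Agent.CG2.GalFinAux.lies_iff.2 hw)
    have h3 := HeightOneSpectrum.valuation_liesOver (K := F) L v.1 w n
    rw [h1, map_mul, h2, mul_one, hx] at h3
    have hn0 : v.1.valuation F n ≠ 0 := by
      intro h0
      rw [h0] at h3
      rcases Nat.eq_zero_or_pos (v.1.asIdeal.ramificationIdx' w.asIdeal) with h4 | h4
      · rw [h4, pow_zero, ← WithZero.exp_zero, WithZero.exp_inj] at h3
        norm_num at h3
      · rw [zero_pow h4.ne'] at h3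
        exact WithZero.exp_ne_zero h3.symm
    obtain ⟨m, hm⟩ : ∃ m : ℤ, v.1.valuation F n = WithZero.exp m :=
      ⟨WithZero.log (v.1.valuation F n), (WithZero.exp_log hn0).symm⟩
    rw [hm, ← WithZero.exp_nsmul, WithZero.exp_inj, nsmul_eq_mul] at h3
    rw [hm]
    congr 1
    have h5 : ((v.1.asIdeal.ramificationIdx' w.asIdeal : ℕ) : ℤ) ∣ 1 := by
      refine ⟨-m, ?_⟩
      linarith
    have h6 := Int.natAbs_dvd_natAbs.2 h5
    simp only [Int.natAbs_natCast, Int.natAbs_one, Nat.dvd_one] at h6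
    rw [h6] at h3
    simpa using h3
  refine ⟨B, hB, mem_cosets_of_int v.1 B hint hdet, ?_⟩
  intro I t t' hI ht ht'
  -- the representative of `w`
  have hs : X.IsRep w.asIdeal (single v.1 ((sysD q).loc v.1 (X.u x))) := by
    refine ⟨fun v' hv' => single_ne (by rintro rfl; exact hv hv') _, fun v' hv' => ?_⟩
    by_cases h : v' = v.1
    · subst h
      refine ⟨x, single_same _ _, ?_⟩
      intro w' hw'
      rcases habove w' hw' with rfl | rfl
      · rw [Pool.Agent.CG2.GalL_expo_self, hx]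
        rfl
      · rw [Pool.Agent.CG2.GalL_expo_other hcw, hx']
        simp
    · refine ⟨1, ?_, ?_⟩
      · have h1 : X.u 1 = 1 := map_one X.uHom
        rw [h1, map_one]
        exact single_ne h _
      · intro w' hw'
        have hne : w' ≠ w := by
          rintro rfl
          exact h (hw'.symm.trans hw)
        rw [Pool.Agent.CG2.GalL_expo_other hne]
        simp
  have hrep := X.rep_mul hI w.ne_bot ht hs
  rw [← X.rep_unique hrep ht']
  -- the coset
  obtain ⟨k, hk⟩ := QuotientGroup.mk_out_eq_mul (GZ v.1) B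
  have h1 : mkK K (nb (chartD φ) v (lt t X.y) ((B : GQ v.1) : GQ v.1 ⧸ GZ v.1)) =
      mkK K (rt (lt t X.y) (sg (chartD φ) v B)) := by
    rw [nb, hk, map_mul, rt_mul]
    exact mkK_rt _ ((X.hyp v).sg_mem k.2)
  rw [h1]
  congr 1
  let g' : (sysD q).L v.1 := X.y.2.1 v.1
  have h2 : (chartD φ).e v (g'⁻¹ * (sysD q).loc v.1 (X.u x) * g') = B := Units.ext rfl
  have h3 : sg (chartD φ) v B = single v.1 (g'⁻¹ * (sysD q).loc v.1 (X.u x) * g') := by
    rw [sg_apply, ← h2, MulEquiv.symm_apply_apply]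
  rw [h3]
  refine Prod.ext rfl ?_
  change t * X.y.2 * single v.1 (g'⁻¹ * (sysD q).loc v.1 (X.u x) * g') =
    t * single v.1 ((sysD q).loc v.1 (X.u x)) * X.y.2
  rw [mul_assoc t X.y.2 _, mul_assoc t _ X.y.2]
  congr 1
  apply Subtype.ext
  funext v'
  by_cases h : v' = v.1
  · subst h
    change X.y.2.1 v.1 * (single v.1 (g'⁻¹ * (sysD q).loc v.1 (X.u x) * g')).1 v.1 =
      (single v.1 ((sysD q).loc v.1 (X.u x))).1 v.1 * X.y.2.1 v.1
    rw [single_same, single_same]
    change g' * (g'⁻¹ * (sysD q).loc v.1 (X.u x) * g') = (sysD q).loc v.1 (X.u x) * g'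
    group
  · change X.y.2.1 v' * (single v.1 (g'⁻¹ * (sysD q).loc v.1 (X.u x) * g')).1 v' =
      (single v.1 ((sysD q).loc v.1 (X.u x))).1 v' * X.y.2.1 v'
    rw [single_ne h, single_ne h, mul_one, one_mul]

end Pool.Agent.CGQ
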