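import Pool.Agent.CGQ.UDefs

/-!
# The unit trick: residue degree one
-/

noncomputable section

namespace Pool.Agent.CGQ

open NumberField IsDedekindDomain Matrix
open Pool.Agent.CG2 (Pl Fv Ov GQ GZ expo InRay IsRay TotPos)
open Pool.Agent.CG2.GalFinAux (below actP)

variable {F : Type} [Field F] [NumberField F] {L : Type} [Field L] [NumberField L] [Algebra F L]

private theorem urn_gal (hdeg : Module.finrank F L = 2) : IsGalois F L := by
  have h : Algebra.IsQuadraticExtension F L := { finrank_eq_two' := hdeg }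
  infer_instance

private theorem urn_sq (hdeg : Module.finrank F L = 2) (c : Gal(L/F)) : c * c = 1 := by
  have hG := urn_gal hdeg
  have h1 : Nat.card Gal(L/F) = 2 := by rw [IsGalois.card_aut_eq_finrank, hdeg]
  have h2 : c ^ Nat.card Gal(L/F) = 1 := pow_card_eq_one'
  rwa [h1, pow_two] at h2

private theorem urn_two (hdeg : Module.finrank F L = 2) {c : Gal(L/F)} (hc : c ≠ 1)
    (σ : Gal(L/F)) : σ = 1 ∨ σ = c := by
  have hG := urn_gal hdeg
  have h1 : Nat.card Gal(L/F) = 2 := by rw [IsGalois.card_aut_eq_finrank, hdeg]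
  by_cases h : σ = 1
  · exact Or.inl h
  · obtain ⟨y, -, hy⟩ := (Nat.card_eq_two_iff' (1 : Gal(L/F))).1 h1
    exact Or.inr ((hy σ h).trans (hy c hc).symm)

private theorem urn_fixed (hdeg : Module.finrank F L = 2) {c : Gal(L/F)} (hc : c ≠ 1) {x : L}
    (hx : c x = x) : ∃ a : F, algebraMap F L a = x := by
  have hG := urn_gal hdeg
  have hfd : FiniteDimensional F L := Module.finite_of_finrank_pos (by omega)
  refine (IsGalois.mem_range_algebraMap_iff_fixed x).2 fun σ => ?_
  rcases urn_two hdeg hc σ with rfl | rfl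
  · rfl
  · exact hx

private theorem urn_fixed_int (hdeg : Module.finrank F L = 2) {c : Gal(L/F)} (hc : c ≠ 1)
    {x : 𝓞 L} (hx : c • x = x) : ∃ a : 𝓞 F, algebraMap (𝓞 F) (𝓞 L) a = x := by
  have h1 : c (x : L) = (x : L) := congrArg (fun z : 𝓞 L => (z : L)) hx
  obtain ⟨a, ha⟩ := urn_fixed hdeg hc h1
  have h2 : IsIntegral ℤ a := by
    have h3 : IsIntegral ℤ (algebraMap F L a) := by
      rw [ha]
      exact RingOfIntegers.isIntegral_coe x
    exact (isIntegral_algebraMap_iff (FaithfulSMul.algebraMap_injective F L)).1 h3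
  refine ⟨⟨a, h2⟩, ?_⟩
  apply RingOfIntegers.ext
  exact ha

/-- **URN.** Residue degree one at a place which is not fixed by `c`.
PROOF. `w` and `c w` are distinct maximal ideals; by the Chinese remainder theorem choose `z'` in
`𝓞 L` with `z' - z ∈ w` and `z' ∈ c w`. Then `c z' ∈ c (c w) = w` (`c * c = 1`), and
`s = z' + c z'` is fixed by `c`, so `s` is in `𝓞 F`; `z - s = (z - z') - c z' ∈ w`. -/
theorem exists_res (hdeg : Module.finrank F L = 2) (c : Gal(L/F)) (hc : c ≠ 1) {w : Pl L}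
    (hw : actP c w ≠ w) (z : 𝓞 L) : ∃ a : 𝓞 F, z - algebraMap (𝓞 F) (𝓞 L) a ∈ w.asIdeal := by
  have hsq := urn_sq hdeg c
  have hcop : w.asIdeal ⊔ (actP c w).asIdeal = ⊤ := by
    have h1 : w.asIdeal ≠ (actP c w).asIdeal := fun h => hw (HeightOneSpectrum.ext h.symm)
    exact Ideal.IsMaximal.coprime_of_ne w.isMaximal (actP c w).isMaximal h1
  obtain ⟨a, ha, b, hb, hab⟩ := Submodule.mem_sup.1 (hcop ▸ Submodule.mem_top : (1 : 𝓞 L) ∈
    w.asIdeal ⊔ (actP c w).asIdeal)
  have hz1 : z - b * z ∈ w.asIdeal := by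
    have h2 : z - b * z = z * a := by
      have h3 : a = 1 - b := by rw [← hab]; ring
      rw [h3]
      ring
    rw [h2]
    exact w.asIdeal.mul_mem_left z ha
  have hz2 : b * z ∈ (actP c w).asIdeal := (actP c w).asIdeal.mul_mem_right z hb
  have hz3 : c • (b * z) ∈ w.asIdeal := by
    have h4 := (CG2.GalFinAux.smul_mem_actP c (actP c w) (b * z)).2 hz2
    rwa [← CG2.GalFinAux.actP_mul, hsq, CG2.GalFinAux.actP_one] at h4
  obtain ⟨s, hs⟩ := urn_fixed_int hdeg hc (x := b * z + c • (b * z)) (by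
    rw [smul_add, smul_smul, hsq, one_smul, add_comm])
  refine ⟨s, ?_⟩
  rw [hs]
  have h5 : z - (b * z + c • (b * z)) = (z - b * z) - c • (b * z) := by ring
  rw [h5]
  exact w.asIdeal.sub_mem hz1 hz3

end Pool.Agent.CGQ
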