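import Pool.Agent.CGQ.URB
import Pool.Agent.CGQ.URN
import Pool.Agent.CGQ.ULA

/-!
# The unit trick: the action of a unit
-/

noncomputable section

namespace Pool.Agent.CGQ

open NumberField IsDedekindDomain Matrix
open Pool.Agent.CG2 (Pl Fv Ov GQ GZ cosets alpha expo InRay IsRay TotPos HRd)
open Pool.Agent.CG2.GalFinAux (below actP)

variable {F : Type} [Field F] [NumberField F] {L : Type} [Field L] [NumberField L] [Algebra F L]
variable {q : Qd F} {S : Set (Pl F)} {φ : Spl q S} {K : Subgroup (sysD q).A}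

/-- `L / F` is a Galois extension with group `{1, c}`. -/
private theorem URM_gal (hdeg : Module.finrank F L = 2) (c : Gal(L/F)) (hc : c ≠ 1) :
    c * c = 1 ∧ ∀ τ : Gal(L/F), τ = 1 ∨ τ = c := by
  classical
  have hfd : FiniteDimensional F L := Module.finite_of_finrank_pos (by rw [hdeg]; norm_num)
  have hcard : Fintype.card Gal(L/F) ≤ 2 := by
    rw [← hdeg]
    exact AlgEquiv.card_le
  have h3 : ∀ a b d : Gal(L/F), a ≠ b → a ≠ d → b ≠ d → False := by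
    intro a b d h1 h2 h3
    have h4 : ({a, b, d} : Finset Gal(L/F)).card = 3 := by
      rw [Finset.card_insert_of_notMem (by simp [h1, h2]), Finset.card_insert_of_notMem
        (by simp [h3]), Finset.card_singleton]
    have h5 := Finset.card_le_univ ({a, b, d} : Finset Gal(L/F))
    omega
  have hall : ∀ τ : Gal(L/F), τ = 1 ∨ τ = c := by
    intro τ
    by_contra hcon
    push Not at hcon
    exact h3 1 c τ (Ne.symm hc) (Ne.symm hcon.1) (Ne.symm hcon.2)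
  refine ⟨?_, hall⟩
  rcases hall (c * c) with h | h
  · exact h
  · exact absurd (mul_eq_left.1 h) hc

private theorem URM_isGalois (hdeg : Module.finrank F L = 2) (c : Gal(L/F)) (hc : c ≠ 1) :
    IsGalois F L := by
  classical
  have hfd : FiniteDimensional F L := Module.finite_of_finrank_pos (by rw [hdeg]; norm_num)
  have h1 : 2 ≤ Fintype.card Gal(L/F) := by
    have h4 : ({1, c} : Finset Gal(L/F)).card = 2 := Finset.card_pair (Ne.symm hc)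
    rw [← h4]
    exact Finset.card_le_univ _
  refine IsGalois.of_card_aut_eq_finrank F L (le_antisymm ?_ ?_)
  · rw [Nat.card_eq_fintype_card]
    exact AlgEquiv.card_le
  · rw [Nat.card_eq_fintype_card, hdeg]
    exact h1

/-- The places above `v`. -/
private theorem URM_above (hdeg : Module.finrank F L = 2) (c : Gal(L/F)) (hc : c ≠ 1)
    {w w' : Pl L} (h : below F w' = below F w) : w' = w ∨ w' = actP c w := by
  have := URM_isGalois hdeg c hc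
  obtain ⟨τ, hτ⟩ := Pool.Agent.CG2.GalFinAux.exists_actP (F := F) h.symm
  rcases (URM_gal hdeg c hc).2 τ with h1 | h1
  · left
    rw [hτ, h1, Pool.Agent.CG2.GalFinAux.actP_one]
  · right
    rw [hτ, h1]

/-- The matrices of scalars. -/
private theorem URM_scalar (φ : Spl q S) (v : {v : Pl F // v ∉ S}) (g : (DV q v.1)ˣ) (a : F) :
    psi φ v g (algebraMap F (DF q) a) =
      ((a : F) : Fv v.1) • (1 : Matrix (Fin 2) (Fin 2) (Fv v.1)) := by
  have h1 : dloc q v.1 (algebraMap F (DF q) a) =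
      algebraMap (Fv v.1) (DV q v.1) ((a : F) : Fv v.1) := by
    apply QuaternionAlgebra.ext
    · rfl
    · exact map_zero _
    · exact map_zero _
    · exact map_zero _
  change φ v ((g⁻¹ : (DV q v.1)ˣ).1 * dloc q v.1 (algebraMap F (DF q) a) * g.1) = _
  rw [h1, ← Algebra.commutes, mul_assoc, Units.inv_mul, mul_one, AlgEquiv.commutes,
    Algebra.algebraMap_eq_smul_one]

/-- The matrix of a unit. -/
private theorem URM_loc (X : Tor q φ K L) (v : {v : Pl F // v ∉ S}) (hv : v.1 ∉ X.T)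
    (z : (𝓞 L)ˣ) {I : Ideal (𝓞 L)} {t : (sysD q).A} (ht : X.IsRep I t) :
    ((locZ (chartD φ) v (lt t X.y) (X.uu z) : GQ v.1) : Matrix (Fin 2) (Fin 2) (Fv v.1)) =
      psi φ v (X.y.2.1 v.1) (X.ι (((z : 𝓞 L)) : L)) := by
  obtain ⟨x₀, hx₀, -⟩ := ht.2 v.1 hv
  have h2 : (lt t X.y).2.1 v.1 = (sysD q).loc v.1 (X.u x₀) * X.y.2.1 v.1 := by
    change t.1 v.1 * X.y.2.1 v.1 = _
    rw [hx₀]
  have h3 : (sysD q).loc v.1 (X.uu z) * (sysD q).loc v.1 (X.u x₀) =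
      (sysD q).loc v.1 (X.u x₀) * (sysD q).loc v.1 (X.uu z) := by
    rw [← map_mul, ← map_mul]
    congr 1
    exact X.u_comm _ _
  have h1 : ((lt t X.y).2.1 v.1)⁻¹ * (sysD q).loc v.1 (X.uu z) * (lt t X.y).2.1 v.1 =
      (X.y.2.1 v.1)⁻¹ * (sysD q).loc v.1 (X.uu z) * X.y.2.1 v.1 := by
    rw [h2, _root_.mul_inv_rev]
    calc (X.y.2.1 v.1)⁻¹ * ((sysD q).loc v.1 (X.u x₀))⁻¹ * (sysD q).loc v.1 (X.uu z) *
          ((sysD q).loc v.1 (X.u x₀) * X.y.2.1 v.1) =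
        (X.y.2.1 v.1)⁻¹ * (((sysD q).loc v.1 (X.u x₀))⁻¹ * ((sysD q).loc v.1 (X.uu z) *
          (sysD q).loc v.1 (X.u x₀))) * X.y.2.1 v.1 := by simp only [mul_assoc]
      _ = _ := by rw [h3, inv_mul_cancel_left]
  unfold locZ
  rw [h1]
  rfl

private theorem URM_int {v : Pl F} {A B : Matrix (Fin 2) (Fin 2) (Fv v)}
    (hA : ∀ i j, Valued.v (A i j) ≤ 1) (hB : ∀ i j, Valued.v (B i j) ≤ 1) :
    ∀ i j, Valued.v ((A * B) i j) ≤ 1 := by
  intro i j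
  rw [Matrix.mul_apply, Fin.sum_univ_two]
  refine (Valuation.map_add _ _ _).trans (max_le ?_ ?_)
  · rw [map_mul]
    exact mul_le_one' (hA _ _) (hB _ _)
  · rw [map_mul]
    exact mul_le_one' (hA _ _) (hB _ _)

private theorem URM_key {v : Pl F} {A B m al : GQ v} (hm : m ∈ GZ v)
    (hB : ((B : GQ v) : GQ v ⧸ GZ v) = m • ((al : GQ v) : GQ v ⧸ GZ v))
    {N : Matrix (Fin 2) (Fin 2) (Fv v)} (hN : ∀ i j, Valued.v (N i j) ≤ 1) (a : Fv v)
    (hA : (A : Matrix (Fin 2) (Fin 2) (Fv v)) - a • 1 = (B : Matrix (Fin 2) (Fin 2) (Fv v)) * N) :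
    ∃ N' : Matrix (Fin 2) (Fin 2) (Fv v), (∀ i j, Valued.v (N' i j) ≤ 1) ∧
      ((m⁻¹ * A * m : GQ v) : Matrix (Fin 2) (Fin 2) (Fv v)) - a • 1 =
        (al : Matrix (Fin 2) (Fin 2) (Fv v)) * N' := by
  have h1 : (m * al)⁻¹ * B ∈ GZ v := by
    rw [← QuotientGroup.eq, hB]
    rfl
  obtain ⟨k, hk⟩ : ∃ k, k = (m * al)⁻¹ * B := ⟨_, rfl⟩
  rw [← hk] at h1
  have h2 : B = m * al * k := by rw [hk, mul_inv_cancel_left]
  refine ⟨(k : Matrix (Fin 2) (Fin 2) (Fv v)) * N * (m : Matrix (Fin 2) (Fin 2) (Fv v)),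
    URM_int (URM_int ((Pool.Agent.CG2.mem_GZ_iff v k).1 h1).1 hN)
      ((Pool.Agent.CG2.mem_GZ_iff v m).1 hm).1, ?_⟩
  have h3 : ((m⁻¹ : GQ v) : Matrix (Fin 2) (Fin 2) (Fv v)) * (m : Matrix (Fin 2) (Fin 2) (Fv v)) =
      1 := by
    rw [← Units.val_mul, inv_mul_cancel, Units.val_one]
  calc ((m⁻¹ * A * m : GQ v) : Matrix (Fin 2) (Fin 2) (Fv v)) - a • 1 =
      ((m⁻¹ : GQ v) : Matrix (Fin 2) (Fin 2) (Fv v)) *
        ((A : Matrix (Fin 2) (Fin 2) (Fv v)) - a • 1) * (m : Matrix (Fin 2) (Fin 2) (Fv v)) := by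
        rw [Units.val_mul, Units.val_mul, mul_sub, sub_mul, mul_smul_comm, mul_one, smul_mul_assoc,
          h3]
    _ = ((m⁻¹ : GQ v) : Matrix (Fin 2) (Fin 2) (Fv v)) *
        ((m : Matrix (Fin 2) (Fin 2) (Fv v)) * (al : Matrix (Fin 2) (Fin 2) (Fv v)) *
          (k : Matrix (Fin 2) (Fin 2) (Fv v)) * N) * (m : Matrix (Fin 2) (Fin 2) (Fv v)) := by
        rw [hA, h2, Units.val_mul, Units.val_mul]
    _ = (((m⁻¹ : GQ v) : Matrix (Fin 2) (Fin 2) (Fv v)) *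
        (m : Matrix (Fin 2) (Fin 2) (Fv v))) * ((al : Matrix (Fin 2) (Fin 2) (Fv v)) *
          ((k : Matrix (Fin 2) (Fin 2) (Fv v)) * N * (m : Matrix (Fin 2) (Fin 2) (Fv v)))) := by
        simp only [Matrix.mul_assoc]
    _ = _ := by rw [h3, one_mul]

/-- An element of `w` is divisible by an element of valuation one, integrally. -/
private theorem URM_div (hdeg : Module.finrank F L = 2) (c : Gal(L/F)) (hc : c ≠ 1) {v : Pl F}
    {w w1 : Pl L} (hw : below F w = v) (hw1 : w1 = w → False) (hw2 : below F w1 = v)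
    (x : Lˣ) (hx : w.valuation L (x : L) = WithZero.exp (-1 : ℤ))
    (hx1 : w1.valuation L (x : L) = 1) {z : 𝓞 L} (hz : z ∈ w.asIdeal) :
    ∀ w' : Pl L, below F w' = v → w'.valuation L ((z : L) * (x : L)⁻¹) ≤ 1 := by
  intro w' hw'
  have h1 : w' = w ∨ w' = w1 := by
    have h2 : w1 = actP c w := by
      rcases URM_above hdeg c hc (hw2.trans hw.symm) with h | h
      · exact (hw1 h).elim
      · exact h
    rw [h2]
    exact URM_above hdeg c hc (hw'.trans hw.symm)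
  rcases h1 with rfl | rfl
  · rw [map_mul, map_inv₀, hx]
    have h3 : w'.valuation L (z : L) < 1 := (HeightOneSpectrum.valuation_lt_one_iff_mem w' z).2 hz
    have h4 : w'.valuation L (z : L) ≤ WithZero.exp (-1 : ℤ) := by
      by_cases h5 : w'.valuation L (z : L) = 0
      · rw [h5]
        exact zero_le
      · obtain ⟨n, hn⟩ : ∃ n : ℤ, w'.valuation L (z : L) = WithZero.exp n :=
          ⟨WithZero.log (w'.valuation L (z : L)), (WithZero.exp_log h5).symm⟩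
        rw [hn] at h3 ⊢
        rw [← WithZero.exp_zero, WithZero.exp_lt_exp] at h3
        exact WithZero.exp_le_exp.2 (by omega)
    rw [← div_eq_mul_inv, div_le_one₀ (by exact WithZero.exp_pos)]
    exact h4
  · rw [map_mul, map_inv₀, hx1, inv_one, mul_one]
    exact HeightOneSpectrum.valuation_le_one w' z

/-- The congruence for the diagonal entries. -/
private theorem URM_entry (X : Tor q φ K L) (v : {v : Pl F // v ∉ S}) (hv : v.1 ∉ X.T)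
    {w w1 : Pl L} (hw : below F w = v.1) (hw1 : w1 = w → False) (hw2 : below F w1 = v.1)
    (x : Lˣ) (hx : w.valuation L (x : L) = WithZero.exp (-1 : ℤ))
    (hx1 : w1.valuation L (x : L) = 1) {A B m al : GQ v.1} (hm : m ∈ GZ v.1)
    (hB : (B : Matrix (Fin 2) (Fin 2) (Fv v.1)) = psi φ v (X.y.2.1 v.1) (X.ι (x : L)))
    (hm1 : ((B : GQ v.1) : GQ v.1 ⧸ GZ v.1) = m • ((al : GQ v.1) : GQ v.1 ⧸ GZ v.1))
    (z a : 𝓞 L) (a₀ : 𝓞 F) (ha : a = algebraMap (𝓞 F) (𝓞 L) a₀)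
    (hA : (A : Matrix (Fin 2) (Fin 2) (Fv v.1)) = psi φ v (X.y.2.1 v.1) (X.ι (z : L)))
    (hz : z - a ∈ w.asIdeal) :
    ∃ N' : Matrix (Fin 2) (Fin 2) (Fv v.1), (∀ i j, Valued.v (N' i j) ≤ 1) ∧
      ((m⁻¹ * A * m : GQ v.1) : Matrix (Fin 2) (Fin 2) (Fv v.1)) - ((a₀ : F) : Fv v.1) • 1 =
        (al : Matrix (Fin 2) (Fin 2) (Fv v.1)) * N' := by
  have h1 := URM_div X.deg X.c X.c_ne hw hw1 hw2 x hx hx1 hz
  have h2 := X.psi_int v hv _ h1
  refine URM_key hm hm1 h2 _ ?_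
  have h3 : (x : L) * (((z - a : 𝓞 L) : L) * (x : L)⁻¹) = ((z - a : 𝓞 L) : L) := by
    rw [mul_comm (x : L), inv_mul_cancel_right₀ x.ne_zero]
  have h4 : X.ι (a : L) = algebraMap F (DF q) (a₀ : F) := by
    rw [ha, ← X.ι.commutes]
    rfl
  rw [hB, ← map_mul, ← map_mul, h3, hA, ← URM_scalar φ v (X.y.2.1 v.1) (a₀ : F), ← h4, ← map_sub,
    ← map_sub]
  rfl

/-- **URM.** The action of a unit of `L` in the stabiliser on the neighbours.
PROOF. Write `g` for the component of `X.y` at `v`, `A = psi φ v g (ι z)`; then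
`locZ (chartD φ) v (lt t X.y) (X.uu z) = A` (as matrices; `t` commutes with `z`), it is in `GZ`
(`locZ_mem`, `Tor.stab_rep`). `A` commutes with `B`, `B'` (`psi` is a ring homomorphism and `L` is
commutative), so `A • [B] = [B]`, `A • [B'] = [B']`, and `A' = m⁻¹ A m` fixes `[alpha v 0]` and
`[HRd v]`. By `hf''` there is `t'` with `A' • f x = f (x * t')` and `t' * d = a` whenever
`A'₀₀ ≡ a`, `A'₁₁ ≡ d`. Choose `a`, `d` in `𝓞 F` with `z - a ∈ w` and `z - d ∈ c w` (`exists_res`, for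
`w` and for `c w`). CLAIM `A'₀₀ ≡ a`: `z - a = x * y'` with `y'` integral above `v` (`w (z - a) ≤
exp (-1) = w x`, and `(c w) x = 1`), so `A - a = B * psi (ι y')`, and `B ∈ m * alpha v 0 * GZ`
(`hm1`), so `A' - a = alpha v 0 * (integral matrix)` has its first row divisible by `π`
(`psi_int`). In the same way `A' - d = HRd v * (integral matrix)` has its second row divisible by
`π`. So `t' * d = a` in `𝓞 F ⧸ v`. Finally `z * c z⁻¹ * d ≡ a` modulo `w`: `c z ≡ d` modulo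
`c (c w) = w`. -/
theorem Tor.act_unit (X : Tor q φ K L) (v : {v : Pl F // v ∉ S}) (hv : v.1 ∉ X.T) {w : Pl L}
    (hw : below F w = v.1) (hcw : actP X.c w ≠ w) (x x' : Lˣ)
    (hx : w.valuation L (x : L) = WithZero.exp (-1 : ℤ))
    (hx1 : (actP X.c w).valuation L (x : L) = 1)
    (hx' : (actP X.c w).valuation L (x' : L) = WithZero.exp (-1 : ℤ))
    (hx1' : w.valuation L (x' : L) = 1) (B B' : GQ v.1)
    (hB : (B : Matrix (Fin 2) (Fin 2) (Fv v.1)) = psi φ v (X.y.2.1 v.1) (X.ι (x : L)))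
    (hB' : (B' : Matrix (Fin 2) (Fin 2) (Fv v.1)) = psi φ v (X.y.2.1 v.1) (X.ι (x' : L)))
    {m : GQ v.1} (hm : m ∈ GZ v.1)
    (hm1 : ((B : GQ v.1) : GQ v.1 ⧸ GZ v.1) = m • ((alpha v.1 0 : GQ v.1) : GQ v.1 ⧸ GZ v.1))
    (hm2 : ((B' : GQ v.1) : GQ v.1 ⧸ GZ v.1) = m • ((HRd v.1 : GQ v.1) : GQ v.1 ⧸ GZ v.1))
    (f : (𝓞 F ⧸ v.1.asIdeal)ˣ → GQ v.1 ⧸ GZ v.1)
    (hf'' : ∀ g ∈ GZ v.1,
      g • ((alpha v.1 0 : GQ v.1) : GQ v.1 ⧸ GZ v.1) = ((alpha v.1 0 : GQ v.1) : GQ v.1 ⧸ GZ v.1) →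
      g • ((HRd v.1 : GQ v.1) : GQ v.1 ⧸ GZ v.1) = ((HRd v.1 : GQ v.1) : GQ v.1 ⧸ GZ v.1) →
      ∃ t : (𝓞 F ⧸ v.1.asIdeal)ˣ, (∀ x, g • f x = f (x * t)) ∧
        ∀ a d : 𝓞 F,
          Valued.v ((g : Matrix (Fin 2) (Fin 2) (Fv v.1)) 0 0 - ((a : F) : Fv v.1)) < 1 →
          Valued.v ((g : Matrix (Fin 2) (Fin 2) (Fv v.1)) 1 1 - ((d : F) : Fv v.1)) < 1 →
          (t : 𝓞 F ⧸ v.1.asIdeal) * Ideal.Quotient.mk v.1.asIdeal d =
            Ideal.Quotient.mk v.1.asIdeal a)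
    (z : (𝓞 L)ˣ) (hz : X.uu z ∈ Stab K X.y) {I : Ideal (𝓞 L)} {t : (sysD q).A}
    (ht : X.IsRep I t) :
    (m⁻¹ * locZ (chartD φ) v (lt t X.y) (X.uu z) * m) •
      ((alpha v.1 0 : GQ v.1) : GQ v.1 ⧸ GZ v.1) = ((alpha v.1 0 : GQ v.1) : GQ v.1 ⧸ GZ v.1) ∧
    (m⁻¹ * locZ (chartD φ) v (lt t X.y) (X.uu z) * m) •
      ((HRd v.1 : GQ v.1) : GQ v.1 ⧸ GZ v.1) = ((HRd v.1 : GQ v.1) : GQ v.1 ⧸ GZ v.1) ∧
    ∃ t' : (𝓞 F ⧸ v.1.asIdeal)ˣ,
      (∀ x, (m⁻¹ * locZ (chartD φ) v (lt t X.y) (X.uu z) * m) • f x = f (x * t')) ∧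
      ∀ a : 𝓞 F, Ideal.Quotient.mk v.1.asIdeal a = (t' : 𝓞 F ⧸ v.1.asIdeal) →
        ratio X.c z - algebraMap (𝓞 F) (𝓞 L) a ∈ w.asIdeal := by
  classical
  obtain ⟨hcc, hall⟩ := URM_gal X.deg X.c X.c_ne
  have hcw' : actP X.c (actP X.c w) = w := by
    rw [← Pool.Agent.CG2.GalFinAux.actP_mul, hcc, Pool.Agent.CG2.GalFinAux.actP_one]
  have hbc : below F (actP X.c w) = v.1 := by
    rw [Pool.Agent.CG2.GalFinAux.below_actP, hw]
  have hAv := URM_loc X v hv z ht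
  have hAZ : locZ (chartD φ) v (lt t X.y) (X.uu z) ∈ GZ v.1 :=
    locZ_mem (X.hyp v) (X.stab_rep ht _ hz)
  generalize locZ (chartD φ) v (lt t X.y) (X.uu z) = A at hAv hAZ ⊢
  -- the matrices commute
  have hcomm : ∀ (y : L) (C : GQ v.1), (C : Matrix (Fin 2) (Fin 2) (Fv v.1)) =
      psi φ v (X.y.2.1 v.1) (X.ι y) → A * C = C * A := by
    intro y C hC
    apply Units.ext
    rw [Units.val_mul, Units.val_mul, hAv, hC, ← map_mul, ← map_mul, ← map_mul, ← map_mul,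
      mul_comm]
  have hfix : ∀ C : GQ v.1, A * C = C * A →
      A • ((C : GQ v.1) : GQ v.1 ⧸ GZ v.1) = ((C : GQ v.1) : GQ v.1 ⧸ GZ v.1) := by
    intro C hC
    change ((A * C : GQ v.1) : GQ v.1 ⧸ GZ v.1) = _
    rw [hC, eq_comm, QuotientGroup.eq, inv_mul_cancel_left]
    exact hAZ
  have hfix' : ∀ (C al : GQ v.1), A * C = C * A →
      ((C : GQ v.1) : GQ v.1 ⧸ GZ v.1) = m • ((al : GQ v.1) : GQ v.1 ⧸ GZ v.1) →
      (m⁻¹ * A * m) • ((al : GQ v.1) : GQ v.1 ⧸ GZ v.1) =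
        ((al : GQ v.1) : GQ v.1 ⧸ GZ v.1) := by
    intro C al h1 h2
    rw [mul_smul, mul_smul, ← h2, hfix C h1, h2, inv_smul_smul]
  have hf1 := hfix' B (alpha v.1 0) (hcomm _ B hB) hm1
  have hf2 := hfix' B' (HRd v.1) (hcomm _ B' hB') hm2
  refine ⟨hf1, hf2, ?_⟩
  obtain ⟨t', ht1, ht2⟩ := hf'' (m⁻¹ * A * m)
    ((GZ v.1).mul_mem ((GZ v.1).mul_mem ((GZ v.1).inv_mem hm) hAZ) hm) hf1 hf2
  refine ⟨t', ht1, fun a ha => ?_⟩
  obtain ⟨a₀, ha₀⟩ := exists_res X.deg X.c X.c_ne hcw (z : 𝓞 L)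
  obtain ⟨d₀, hd₀⟩ := exists_res X.deg X.c X.c_ne (w := actP X.c w)
    (by rw [hcw']; exact Ne.symm hcw) (z : 𝓞 L)
  have hpi := Pool.Agent.CG2.heckeReps_pi v.1
  have hlt : ∀ n : Fv v.1, Valued.v n ≤ 1 →
      Valued.v (((Pool.Agent.CG2.pi v.1 : F) : Fv v.1) * n) < 1 := by
    intro n hn
    rw [map_mul, hpi]
    calc WithZero.exp (-1 : ℤ) * Valued.v n ≤ WithZero.exp (-1 : ℤ) * 1 :=
          mul_le_mul_right hn _
      _ < 1 := by
          rw [mul_one, ← WithZero.exp_zero]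
          exact WithZero.exp_lt_exp.2 (by norm_num)
  have hE1 : Valued.v (((m⁻¹ * A * m : GQ v.1) : Matrix (Fin 2) (Fin 2) (Fv v.1)) 0 0 -
      ((a₀ : F) : Fv v.1)) < 1 := by
    obtain ⟨N, hN, h1⟩ := URM_entry X v hv hw hcw hbc x hx hx1 hm hB hm1 (z : 𝓞 L) _ a₀ rfl hAv ha₀
    have h2 := congrFun (congrFun h1 0) 0
    rw [Matrix.sub_apply, Matrix.smul_apply, Matrix.one_apply_eq, smul_eq_mul, mul_one,
      Matrix.mul_apply, Fin.sum_univ_two, Pool.Agent.CG2.HR_alpha_zero_val] at h2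
    rw [h2]
    simpa using hlt _ (hN 0 0)
  have hE2 : Valued.v (((m⁻¹ * A * m : GQ v.1) : Matrix (Fin 2) (Fin 2) (Fv v.1)) 1 1 -
      ((d₀ : F) : Fv v.1)) < 1 := by
    obtain ⟨N, hN, h1⟩ := URM_entry X v hv hbc (fun h => hcw h.symm) hw x' hx' hx1' hm hB' hm2
      (z : 𝓞 L) _ d₀ rfl hAv hd₀
    have h2 := congrFun (congrFun h1 1) 1
    rw [Matrix.sub_apply, Matrix.smul_apply, Matrix.one_apply_eq, smul_eq_mul, mul_one,
      Matrix.mul_apply, Fin.sum_univ_two, Pool.Agent.CG2.HRd_val] at h2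
    rw [h2]
    simpa using hlt _ (hN 1 1)
  have hE3 := ht2 a₀ d₀ hE1 hE2
  rw [← ha, ← map_mul, Ideal.Quotient.eq] at hE3
  -- the congruence modulo `w`
  have h1 : algebraMap (𝓞 F) (𝓞 L) (a * d₀ - a₀) ∈ w.asIdeal := by
    rw [← hw] at hE3
    exact hE3
  have h2 : X.c • (z : 𝓞 L) - algebraMap (𝓞 F) (𝓞 L) d₀ ∈ w.asIdeal := by
    have h3 := (Pool.Agent.CG2.GalFinAux.smul_mem_actP X.c (actP X.c w) _).2 hd₀
    rw [hcw', smul_sub, Pool.Agent.CG2.GalFinAux.smul_alg] at h3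
    exact h3
  have h4 : (z : 𝓞 L) - algebraMap (𝓞 F) (𝓞 L) a * X.c • (z : 𝓞 L) ∈ w.asIdeal := by
    have h5 : (z : 𝓞 L) - algebraMap (𝓞 F) (𝓞 L) a * X.c • (z : 𝓞 L) =
        ((z : 𝓞 L) - algebraMap (𝓞 F) (𝓞 L) a₀) -
          algebraMap (𝓞 F) (𝓞 L) (a * d₀ - a₀) -
          algebraMap (𝓞 F) (𝓞 L) a * (X.c • (z : 𝓞 L) - algebraMap (𝓞 F) (𝓞 L) d₀) := by
      rw [map_sub, map_mul]
      ring
    rw [h5]
    exact w.asIdeal.sub_mem (w.asIdeal.sub_mem ha₀ h1) (w.asIdeal.mul_mem_left _ h2)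
  have h6 : X.c • (z : 𝓞 L) * X.c • ((z⁻¹ : (𝓞 L)ˣ) : 𝓞 L) = 1 := by
    rw [← smul_mul', Units.mul_inv, smul_one]
  have h7 : ratio X.c z - algebraMap (𝓞 F) (𝓞 L) a =
      X.c • ((z⁻¹ : (𝓞 L)ˣ) : 𝓞 L) *
        ((z : 𝓞 L) - algebraMap (𝓞 F) (𝓞 L) a * X.c • (z : 𝓞 L)) := by
    unfold ratio
    linear_combination (algebraMap (𝓞 F) (𝓞 L) a) * h6
  rw [h7]
  exact w.asIdeal.mul_mem_left _ h4

end Pool.Agent.CGQ
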