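import Pool.Agent.CGQ.URM
import Pool.Agent.CGQ.URL
import Pool.Agent.CGQ.ULB
import Pool.Agent.CGQ.ULC
import Pool.Agent.CGQ.ULF
import Pool.Agent.CGQ.URC
import Pool.Agent.CGQ.URD
import Pool.Agent.CGQ.URF
import Pool.Agent.CGQ.URN

/-!
# The unit trick: the relation at a split place
-/

noncomputable section

namespace Pool.Agent.CGQ

open NumberField IsDedekindDomain Matrix
open Pool.Agent.CG2 (Pl Fv Ov GQ GZ cosets alpha expo InRay IsRay TotPos HRd)
open Pool.Agent.CG2.GalFinAux (below actP)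

variable {F : Type} [Field F] [NumberField F] {L : Type} [Field L] [NumberField L] [Algebra F L]
variable {q : Qd F} {S : Set (Pl F)} {φ : Spl q S} {K : Subgroup (sysD q).A}

private theorem URT_cc (hdeg : Module.finrank F L = 2) (c : Gal(L/F)) : c * c = 1 := by
  have hq : Algebra.IsQuadraticExtension F L := ⟨hdeg⟩
  have hG : IsGalois F L := { }
  have hcard : Nat.card Gal(L/F) = 2 := by rw [IsGalois.card_aut_eq_finrank, hdeg]
  have h := pow_card_eq_one' (x := c)
  rwa [hcard, pow_two] at h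

private theorem URT_val_le {w : Pl L} {v : Pl F} (hw : below F w = v) {x : F}
    (hx : v.valuation F x ≤ 1) : w.valuation L (algebraMap F L x) ≤ 1 := by
  have hlo : w.asIdeal.LiesOver v.asIdeal :=
    CG2.GalFinAux.liesOver_of_lies (CG2.GalFinAux.lies_iff.2 hw)
  rw [← HeightOneSpectrum.valuation_liesOver L v w x]
  exact pow_le_one₀ zero_le hx

/-- An integral matrix comes from an element integral at `w`. -/
private theorem URT_int (X : Tor q φ K L) (v : {v : Pl F // v ∉ S}) {w : Pl L}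
    (hw : below F w = v.1) (g : (DV q v.1)ˣ) (z : L)
    (hz : ∀ i j, Valued.v (psi φ v g (X.ι z) i j) ≤ 1) : w.valuation L z ≤ 1 := by
  have hdet : ∀ A : Matrix (Fin 2) (Fin 2) (Fv v.1), (∀ i j, Valued.v (A i j) ≤ 1) →
      Valued.v A.det ≤ 1 := by
    intro A hA
    rw [Matrix.det_fin_two]
    refine (Valuation.map_sub _ _ _).trans (max_le ?_ ?_)
    · rw [map_mul]
      exact mul_le_one' (hA 0 0) (hA 1 1)
    · rw [map_mul]
      exact mul_le_one' (hA 0 1) (hA 1 0)
  have hval : ∀ x : F, Valued.v ((x : F) : Fv v.1) = v.1.valuation F x := fun x =>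
    HeightOneSpectrum.valuedAdicCompletion_eq_valuation' v.1 x
  have hN : v.1.valuation F (nrd (X.ι z)) ≤ 1 := by
    rw [← hval, ← det_psi φ v g]
    exact hdet _ hz
  have hN1 : v.1.valuation F (nrd (X.ι (1 + z))) ≤ 1 := by
    rw [← hval, ← det_psi φ v g]
    apply hdet
    intro i j
    rw [map_add, map_one, map_add, map_one, Matrix.add_apply]
    refine (Valuation.map_add _ _ _).trans (max_le ?_ (hz i j))
    by_cases hij : i = j
    · subst hij
      rw [Matrix.one_apply_eq, map_one]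
    · rw [Matrix.one_apply_ne hij, map_zero]
      exact zero_le_one
  set N : F := nrd (X.ι z) with hNdef
  set T : F := nrd (X.ι (1 + z)) - 1 - N with hTdef
  have hT : v.1.valuation F T ≤ 1 := by
    rw [hTdef]
    refine (Valuation.map_sub _ _ _).trans (max_le ((Valuation.map_sub _ _ _).trans
      (max_le hN1 ?_)) hN)
    rw [map_one]
  have e1 : algebraMap F L N = z * X.c z := nrd_ι X.deg X.ι X.c X.c_ne z
  have e2 : algebraMap F L T = z + X.c z := by
    rw [hTdef, map_sub, map_sub, map_one, e1, nrd_ι X.deg X.ι X.c X.c_ne (1 + z), map_add, map_one]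
    ring
  have e3 : z * z = algebraMap F L T * z - algebraMap F L N := by
    rw [e1, e2]
    ring
  by_contra hlt
  push Not at hlt
  have h1 : w.valuation L (z * z) ≤ max (w.valuation L z) 1 := by
    rw [e3]
    refine (Valuation.map_sub _ _ _).trans (max_le_max ?_ (URT_val_le hw hN))
    rw [map_mul]
    calc w.valuation L (algebraMap F L T) * w.valuation L z ≤ 1 * w.valuation L z :=
          mul_le_mul_left (URT_val_le hw hT) _
      _ = w.valuation L z := one_mul _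
  rw [max_eq_left hlt.le, map_mul] at h1
  have hpos : 0 < w.valuation L z := zero_lt_one.trans hlt
  have h2 : w.valuation L z < w.valuation L z * w.valuation L z := by
    calc w.valuation L z = w.valuation L z * 1 := (mul_one _).symm
      _ < w.valuation L z * w.valuation L z := by
        exact mul_lt_mul_of_pos_left hlt hpos
  exact absurd h1 (not_le.2 h2)

/-- **URT.** The relation between the values at a split place.
PROOF. Choose `x`, `x'` by `exists_elt` (for the ideals `w`, `c w`; `GalL_expo_self`,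
`GalL_expo_other`), `B`, `B'` by `nb_eq` (for `w` and for `c w`, using `c (c w) = w`). `[B] ≠ [B']`:
otherwise `B⁻¹ B'` is integral, so the element `x' / x` of `L` satisfies an integral equation over
`O_v` (trace and determinant of its matrix, `det_psi`), contradicting `w (x' / x) = exp 1`. Choose `m`
by `two_trans`, `f` by `exists_param`, and apply `T_two` with `γ = X.uu u`, `ε = X.uu e`, using
`act_unit` for both units: `ratio X.c u` is a `p^M`-th power modulo `w` iff `t'` is one in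
`(𝓞 F ⧸ v)ˣ` (`exists_res`: `𝓞 F ⧸ v → 𝓞 L ⧸ w` is bijective). The two points are those of the
representatives `t1`, `t2` by `nb_eq`, `EigFam.congr`. -/
theorem Tor.two_terms (X : Tor q φ K L) (v : {v : Pl F // v ∉ S}) (hv : v.1 ∉ X.T) {w : Pl L}
    (hw : below F w = v.1) (hcw : actP X.c w ≠ w) {κ : Type} [Field κ] {p : ℕ}
    [hp : Fact p.Prime] [CharP κ p] {η : (sysD q).G →* ℤˣ} {lam r : {v : Pl F // v ∉ S} → κ}
    (u e : (𝓞 L)ˣ) (E : EigFam K (chartD φ) κ η (X.uu u) lam r)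
    (hu : X.uu u ∈ Stab K X.y) (he : X.uu e ∈ Stab K X.y)
    (hηu : η (X.uu u) = 1) (hηe : η (X.uu e) = 1) (M : ℕ)
    (hu' : PPow w (p ^ M) (ratio X.c u)) (he' : ¬ PPow w (p ^ M) (ratio X.c e))
    {I : Ideal (𝓞 L)} (hI : I ≠ ⊥) {t t1 t2 : (sysD q).A} (ht : X.IsRep I t)
    (ht1 : X.IsRep (I * w.asIdeal) t1) (ht2 : X.IsRep (I * (actP X.c w).asIdeal) t2) :
    E.h (lt t1 X.y) 1 + E.h (lt t2 X.y) 1 = lam v * E.h (lt t X.y) 1 := by
  classical
  have hcc : actP X.c (actP X.c w) = w := by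
    rw [← CG2.GalFinAux.actP_mul, URT_cc X.deg, CG2.GalFinAux.actP_one]
  have hcw' : below F (actP X.c w) = v.1 := by rw [CG2.GalFinAux.below_actP, hw]
  obtain ⟨x, hx⟩ := exists_elt (F := F) v.1 w.asIdeal
  obtain ⟨x', hx'⟩ := exists_elt (F := F) v.1 (actP X.c w).asIdeal
  have hx1 : w.valuation L (x : L) = WithZero.exp (-1 : ℤ) := by
    rw [hx w hw, CG2.GalL_expo_self]
    rfl
  have hx2 : (actP X.c w).valuation L (x : L) = 1 := by
    rw [hx _ hcw', CG2.GalL_expo_other hcw]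
    rfl
  have hx1' : (actP X.c w).valuation L (x' : L) = WithZero.exp (-1 : ℤ) := by
    rw [hx' _ hcw', CG2.GalL_expo_self]
    rfl
  have hx2' : w.valuation L (x' : L) = 1 := by
    rw [hx' w hw, CG2.GalL_expo_other hcw.symm]
    rfl
  obtain ⟨B, hB, hBc, hBn⟩ := X.nb_eq v hv hw hcw x hx1 hx2
  obtain ⟨B', hB', hBc', hBn'⟩ := X.nb_eq v hv hcw' (by rw [hcc]; exact hcw.symm) x' hx1'
    (by rw [hcc]; exact hx2')
  have hne : ((B : GQ v.1) : GQ v.1 ⧸ GZ v.1) ≠ ((B' : GQ v.1) : GQ v.1 ⧸ GZ v.1) := by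
    intro h
    have h1 : B⁻¹ * B' ∈ GZ v.1 := QuotientGroup.eq.1 h
    rw [CG2.mem_GZ_iff] at h1
    have h2 : ((B⁻¹ * B' : GQ v.1) : Matrix (Fin 2) (Fin 2) (Fv v.1)) =
        psi φ v (X.y.2.1 v.1) (X.ι ((x⁻¹ * x' : Lˣ) : L)) := by
      have h3 : (B : Matrix (Fin 2) (Fin 2) (Fv v.1)) *
          psi φ v (X.y.2.1 v.1) (X.ι ((x⁻¹ * x' : Lˣ) : L)) = B' := by
        rw [hB, hB', ← map_mul, ← map_mul, ← Units.val_mul, mul_inv_cancel_left]
      rw [Units.val_mul, ← h3, ← mul_assoc, ← Units.val_mul, inv_mul_cancel, Units.val_one, one_mul]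
    have h4 := URT_int X v hw (X.y.2.1 v.1) ((x⁻¹ * x' : Lˣ) : L) (fun i j => by
      rw [← h2]
      exact h1.1 i j)
    rw [Units.val_mul, map_mul, hx2', mul_one, Units.val_inv_eq_inv_val, map_inv₀, hx1,
      ← WithZero.exp_neg] at h4
    exact absurd h4 (not_le.2 (by
      rw [← WithZero.exp_zero]
      exact WithZero.exp_lt_exp.2 (by norm_num)))
  obtain ⟨m, hm, hm1, hm2⟩ := two_trans v.1 hBc hBc' hne
  obtain ⟨f, hf, hf', hf''⟩ := exists_param v.1
  obtain ⟨hu1, hu2, tγ, hu3, hu4⟩ := X.act_unit v hv hw hcw x x' hx1 hx2 hx1' hx2' B B' hB hB'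
    hm hm1 hm2 f hf'' u hu ht
  obtain ⟨he1, he2, tε, he3, he4⟩ := X.act_unit v hv hw hcw x x' hx1 hx2 hx1' hx2' B B' hB hB'
    hm hm1 hm2 f hf'' e he ht
  have hn : p ^ M ≠ 0 := pow_ne_zero _ hp.out.ne_zero
  have hpu : ∃ x, x ^ p ^ M = tγ := by
    obtain ⟨y, hy⟩ := hu'
    obtain ⟨b, hb⟩ := exists_res X.deg X.c X.c_ne hcw y
    obtain ⟨a, ha⟩ := Ideal.Quotient.mk_surjective (tγ : 𝓞 F ⧸ v.1.asIdeal)
    have h1 := hu4 a ha
    have h2 : algebraMap (𝓞 F) (𝓞 L) (b ^ p ^ M - a) ∈ w.asIdeal := by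
      have h3 : y ^ p ^ M - (algebraMap (𝓞 F) (𝓞 L) b) ^ p ^ M ∈ w.asIdeal :=
        Ideal.mem_of_dvd _ (sub_dvd_pow_sub_pow _ _ _) hb
      have h4 : algebraMap (𝓞 F) (𝓞 L) (b ^ p ^ M - a) =
          (y ^ p ^ M - ratio X.c u) + (ratio X.c u - algebraMap (𝓞 F) (𝓞 L) a) -
            (y ^ p ^ M - (algebraMap (𝓞 F) (𝓞 L) b) ^ p ^ M) := by
        rw [map_sub, map_pow]
        ring
      rw [h4]
      exact w.asIdeal.sub_mem (w.asIdeal.add_mem hy h1) h3
    have h5 : b ^ p ^ M - a ∈ v.1.asIdeal := by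
      rw [← hw]
      exact h2
    have h6 : (Ideal.Quotient.mk v.1.asIdeal b) ^ p ^ M = (tγ : 𝓞 F ⧸ v.1.asIdeal) := by
      rw [← ha, ← map_pow]
      exact Ideal.Quotient.eq.2 h5
    have h7 : IsUnit (Ideal.Quotient.mk v.1.asIdeal b) := by
      rw [← isUnit_pow_iff hn, h6]
      exact tγ.isUnit
    obtain ⟨b', hb'⟩ := h7
    exact ⟨b', Units.ext (by rw [Units.val_pow_eq_pow_val, hb', h6])⟩
  have hpe : ¬ ∃ x, x ^ p ^ M = tε := by
    rintro ⟨b', hb'⟩
    apply he'
    obtain ⟨b, hb⟩ := Ideal.Quotient.mk_surjective (b' : 𝓞 F ⧸ v.1.asIdeal)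
    have h1 := he4 (b ^ p ^ M) (by rw [map_pow, hb, ← Units.val_pow_eq_pow_val, hb'])
    refine ⟨algebraMap (𝓞 F) (𝓞 L) b, ?_⟩
    rw [← map_pow, ← neg_sub]
    exact w.asIdeal.neg_mem h1
  have hmain := T_two E (X.hyp v) (y := lt t X.y) (X.stab_rep ht _ hu) (X.stab_rep ht _ he)
    (X.u_comm _ _) hηu hηe hm f hf hf' (tγ := tγ) (tε := tε) (by
      rintro δ (rfl | rfl)
      · exact ⟨hu1, hu2⟩
      · exact ⟨he1, he2⟩) hu3 he3 M hpu hpe
  rw [← hm1, ← hm2] at hmain
  rw [hmain, E.congr (hBn I t t1 hI ht ht1), E.congr (hBn' I t t2 hI ht ht2)]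

end Pool.Agent.CGQ
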